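import Mathlib
import Pool.Agent.Helper822.TC.Defs2
import Pool.Agent.Helper822.TC.Body
import Pool.Agent.Helper822.TC.Glue
import Pool.Agent.Helper822.TC.Mono

set_option autoImplicit false

open Set Filter Topology Metric

namespace TC

theorem uv_norm (θ : ℝ) : ‖uv θ‖ = 1 := by
  have h : ‖uv θ‖ ^ 2 = 1 := by
    rw [EuclideanSpace.norm_sq_eq]
    simp [uv, Fin.sum_univ_two, Real.sin_sq_add_cos_sq]
  have h2 : 0 ≤ ‖uv θ‖ := norm_nonneg _
  nlinarith

/-- every unit vector is `uu τ` -/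
theorem exists_uu (e : EuclideanSpace ℝ (Fin 2)) (he : ‖e‖ = 1) : ∃ τ : ℝ, e = uu τ := by
  have h : e 0 ^ 2 + e 1 ^ 2 = 1 := by
    have h1 := EuclideanSpace.norm_sq_eq e
    rw [he] at h1
    simp [Fin.sum_univ_two] at h1
    linarith
  obtain ⟨τ, h0, h1⟩ : ∃ τ : ℝ, e 0 = Real.cos τ ∧ e 1 = Real.sin τ := by
    have hn : ‖(⟨e 0, e 1⟩ : ℂ)‖ = 1 := by
      rw [Complex.norm_eq_sqrt_sq_add_sq]
      simp [h]
    refine ⟨Complex.arg ⟨e 0, e 1⟩, ?_, ?_⟩
    · have := Complex.norm_mul_cos_arg (⟨e 0, e 1⟩ : ℂ)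
      rw [hn] at this
      simp at this
      exact this.symm
    · have := Complex.norm_mul_sin_arg (⟨e 0, e 1⟩ : ℂ)
      rw [hn] at this
      simp at this
      exact this.symm
  refine ⟨τ, ?_⟩
  ext i
  fin_cases i
  · simpa [uu] using h0
  · simpa [uu] using h1

theorem seg_diam (u v : EuclideanSpace ℝ (Fin 2)) (hv : ‖v‖ = 1) (A B : ℝ) (h : 0 ≤ A + B) :
    diam (segment ℝ (u + A • v) (u - B • v)) = A + B := by
  rw [← convexHull_pair, convexHull_diam, diam_pair, dist_eq_norm]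
  have : u + A • v - (u - B • v) = (A + B) • v := by
    rw [add_smul]; abel
  rw [this, norm_smul, hv, mul_one, Real.norm_eq_abs, abs_of_nonneg h]

theorem seg_coord (u v : EuclideanSpace ℝ (Fin 2)) (hv : ‖v‖ = 1) (A B A' B' : ℝ)
    (h : 0 ≤ A + B) (h' : 0 ≤ A' + B')
    (he : segment ℝ (u + A • v) (u - B • v) = segment ℝ (u + A' • v) (u - B' • v)) : A ≤ A' := by
  have h1 : u + A • v ∈ segment ℝ (u + A' • v) (u - B' • v) := by
    rw [← he]; exact left_mem_segment ℝ _ _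
  obtain ⟨s, t, hs, ht, hst, heq⟩ := h1
  have h2 : (s * A' - t * B' - A) • v = 0 := by
    have : s • (u + A' • v) + t • (u - B' • v) - (u + A • v)
        = (s + t - 1) • u + (s * A' - t * B' - A) • v := by
      module
    rw [heq, hst] at this
    simpa using this.symm
  have h3 : s * A' - t * B' - A = 0 := by
    rcases smul_eq_zero.1 h2 with h | h
    · exact h
    · rw [h, norm_zero] at hv; exact absurd hv zero_ne_one
  have h4 : s = 1 - t := by linarith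
  rw [h4] at h3
  nlinarith

theorem half_body (c M a b : ℝ) : ∃ α₁ > 0, α₁ ≤ 1 ∧ ∀ (N : ℕ) (α : ℝ), 0 < N → α = Real.pi / N →
    α ≤ α₁ → ∀ (F p q Q r s Fi Qi : ℝ → ℝ), Adm c M a b F p q → Adm c M b a Q r s →
    (∀ x ∈ Icc (0:ℝ) 1, Fi x ∈ Icc (0:ℝ) 1 ∧ F (Fi x) = x ∧ Qi x ∈ Icc (0:ℝ) 1 ∧ Q (Qi x) = x) →
    ∃ K : Set (EuclideanSpace ℝ (Fin 2)), IsCompact K ∧ Convex ℝ K ∧
      closedBall (0 : EuclideanSpace ℝ (Fin 2)) 1 ⊆ interior K ∧
      (∀ k : ℤ, ∀ x ∈ Icc (0:ℝ) 1,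
        0 < Real.tan (α * (1 + F x - x) / 2) ∧ 0 < Real.tan (α * (1 + x - Qi x) / 2) ∧
        0 < Real.tan (α * (1 + Q x - x) / 2) ∧ 0 < Real.tan (α * (1 + x - Fi x) / 2) ∧
        K ∩ {y | inner ℝ y (uu (α * (2 * k + x))) = (1 : ℝ)} =
        segment ℝ (uu (α * (2 * k + x)) + Real.tan (α * (1 + F x - x) / 2) • uv (α * (2 * k + x)))
          (uu (α * (2 * k + x)) - Real.tan (α * (1 + x - Qi x) / 2) • uv (α * (2 * k + x))) ∧
        K ∩ {y | inner ℝ y (uu (α * (2 * k + 1 + x))) = (1 : ℝ)} =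
        segment ℝ (uu (α * (2 * k + 1 + x)) + Real.tan (α * (1 + Q x - x) / 2) •
            uv (α * (2 * k + 1 + x)))
          (uu (α * (2 * k + 1 + x)) - Real.tan (α * (1 + x - Fi x) / 2) •
            uv (α * (2 * k + 1 + x)))) := by
  obtain ⟨α₀, h0, h1, hmd⟩ := mono_dir c M
  refine ⟨α₀, h0, h1, ?_⟩
  intro N α hN hα hαle F p q Q r s Fi Qi hF hQ hinv
  have hNr : (0:ℝ) < N := by exact_mod_cast hN
  have hα0 : 0 < α := by rw [hα]; exact div_pos Real.pi_pos hNr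
  have hαN : α * N = Real.pi := by rw [hα]; field_simp
  have hα1 : α ≤ 1 := hαle.trans h1
  obtain ⟨E, P, R, hG, hE0, hE1⟩ := glue c M a b F p q Q r s hF hQ
  set T : ℝ → ℝ := fun θ => α * (1 + E (θ / α)) with hT
  have hTd : ∀ θ, HasDerivAt T (P (θ / α)) θ := by
    intro θ
    have e1 := (hG.d1 (θ / α)).comp θ ((hasDerivAt_id θ).div_const α)
    have e2 := (e1.const_add 1).const_mul α
    have e3 : α * (P (θ / α) * (1 / α)) = P (θ / α) := by field_simp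
    exact HasDerivAt.congr_deriv e2 e3
  have hPp : ∀ θ, 0 < P (θ / α) := fun θ => hG.cpos.trans_le (hG.pl _)
  have hPc : Continuous fun θ => P (θ / α) := hG.pc.comp (continuous_id.div_const α)
  have hEper1 : ∀ x, E (x + 2 * N) = E x + 2 * N := by
    intro x
    obtain ⟨k, y, hy, hxy⟩ : ∃ k : ℤ, ∃ y ∈ Icc (0:ℝ) 1, x = 2 * k + y ∨ x = 2 * k + 1 + y := by
      have hf := Int.floor_le (x / 2)
      have hf2 := Int.lt_floor_add_one (x / 2)
      refine ⟨⌊x / 2⌋, ?_⟩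
      rcases le_total (x - 2 * ⌊x / 2⌋) 1 with h | h
      · exact ⟨x - 2 * ⌊x / 2⌋, ⟨by linarith, h⟩, Or.inl (by ring)⟩
      · exact ⟨x - 2 * ⌊x / 2⌋ - 1, ⟨by linarith, by linarith⟩, Or.inr (by ring)⟩
    rcases hxy with rfl | rfl
    · have e1 := hE0 (k + N) y hy
      have e2 := hE0 k y hy
      push_cast at e1
      rw [show 2 * (k:ℝ) + y + 2 * N = 2 * (k + N) + y by ring, e1, e2]; ring
    · have e1 := hE1 (k + N) y hy
      have e2 := hE1 k y hy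
      push_cast at e1
      rw [show 2 * (k:ℝ) + 1 + y + 2 * N = 2 * (k + N) + 1 + y by ring, e1, e2]; ring
  have hper : ∀ θ, T (θ + 2 * Real.pi) = T θ + 2 * Real.pi := by
    intro θ
    have e1 : (θ + 2 * Real.pi) / α = θ / α + 2 * N := by
      rw [← hαN]; field_simp
    simp only [hT]
    rw [e1, hEper1, ← hαN]; ring
  have hlo : ∀ θ, θ < T θ := by
    intro θ
    have e1 := mul_pos hα0 (hG.lo (θ / α))
    have e2 : α * (θ / α) = θ := by field_simp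
    simp only [hT]
    nlinarith
  have hhi : ∀ θ, T θ < θ + Real.pi := by
    intro θ
    have e1 := mul_lt_mul_of_pos_left (hG.hi (θ / α)) hα0
    have e2 : α * (θ / α) = θ := by field_simp
    have e3 := Real.pi_gt_three
    simp only [hT]
    nlinarith
  obtain ⟨K, hK1, hK2, hK3, hK4⟩ := body T (fun θ => P (θ / α)) hTd hPp hPc hper hlo hhi
    (hmd α hα0 hαle E P R hG T (fun θ => rfl))
  refine ⟨K, hK1, hK2, hK3, ?_⟩
  have htan : ∀ d : ℝ, 0 < d → d < 2 → 0 < Real.tan (α * d / 2) := by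
    intro d hd hd2
    apply Real.tan_pos_of_pos_of_lt_pi_div_two
    · positivity
    · have := Real.pi_gt_three
      nlinarith
  intro k x hx
  obtain ⟨hFi, hFi', hQi, hQi'⟩ := hinv x hx
  have d1 : 1 + E (2 * k + x) - (2 * k + x) = 1 + F x - x := by rw [hE0 k x hx]; ring
  have d2 : 1 + E (2 * k + 1 + x) - (2 * k + 1 + x) = 1 + Q x - x := by rw [hE1 k x hx]; ring
  have e3 := hE0 k (Fi x) hFi
  rw [hFi'] at e3
  have e4 := hE1 (k - 1) (Qi x) hQi
  rw [hQi'] at e4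
  push_cast at e4
  have d3 : 1 + E (2 * k + Fi x) - (2 * k + Fi x) = 1 + x - Fi x := by rw [e3]; ring
  have d4 : 1 + E (2 * (k - 1) + 1 + Qi x) - (2 * (k - 1) + 1 + Qi x) = 1 + x - Qi x := by
    rw [e4]; ring
  have T1 : T (α * (2 * k + Fi x)) = α * (2 * k + 1 + x) := by
    simp only [hT]
    rw [mul_div_cancel_left₀ _ hα0.ne', e3]; ring
  have T2 : T (α * (2 * (k - 1) + 1 + Qi x)) = α * (2 * k + x) := by
    simp only [hT]
    rw [mul_div_cancel_left₀ _ hα0.ne', e4]; ring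
  have T3 : T (α * (2 * k + x)) = α * (1 + F x - x) + α * (2 * k + x) := by
    simp only [hT]
    rw [mul_div_cancel_left₀ _ hα0.ne', hE0 k x hx]; ring
  have T4 : T (α * (2 * k + 1 + x)) = α * (1 + Q x - x) + α * (2 * k + 1 + x) := by
    simp only [hT]
    rw [mul_div_cancel_left₀ _ hα0.ne', hE1 k x hx]; ring
  refine ⟨?_, ?_, ?_, ?_, ?_, ?_⟩
  · rw [← d1]; exact htan _ (hG.lo _) (hG.hi _)
  · rw [← d4]; exact htan _ (hG.lo _) (hG.hi _)
  · rw [← d2]; exact htan _ (hG.lo _) (hG.hi _)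
  · rw [← d3]; exact htan _ (hG.lo _) (hG.hi _)
  · have h := hK4 (α * (2 * (k - 1) + 1 + Qi x))
    rw [T2, T3] at h
    rw [h]
    congr 4
    · congr 2; ring
    · congr 2; ring
  · have h := hK4 (α * (2 * k + Fi x))
    rw [T1, T4] at h
    rw [h]
    congr 4
    · congr 2; ring
    · congr 2; ring

theorem final_geo (c M a b : ℝ) : ∃ α₁ > 0, ∀ (N : ℕ) (α : ℝ), 0 < N → α = Real.pi / N →
    α ≤ α₁ → ∀ (F p q Q r s Fi Qi : ℝ → ℝ), Adm c M a b F p q → Adm c M b a Q r s →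
    (∀ x ∈ Icc (0:ℝ) 1, Fi x ∈ Icc (0:ℝ) 1 ∧ F (Fi x) = x ∧ Qi x ∈ Icc (0:ℝ) 1 ∧ Q (Qi x) = x) →
    (∀ x ∈ Icc (0:ℝ) 1, Real.tan (α * (1 + F x - x) / 2) + Real.tan (α * (1 + x - Qi x) / 2) =
      Real.tan (α * (1 + Q x - x) / 2) + Real.tan (α * (1 + x - Fi x) / 2)) →
    (∃ x ∈ Icc (0:ℝ) 1, F x ≠ Q x) →
    ∃ K₁ K₂ : Set (EuclideanSpace ℝ (Fin 2)),
      IsCompact K₁ ∧ Convex ℝ K₁ ∧ IsCompact K₂ ∧ Convex ℝ K₂ ∧
      Metric.closedBall (0 : EuclideanSpace ℝ (Fin 2)) 1 ⊆ interior K₁ ∧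
      Metric.closedBall (0 : EuclideanSpace ℝ (Fin 2)) 1 ⊆ interior K₂ ∧
      (∀ e : EuclideanSpace ℝ (Fin 2), ‖e‖ = 1 →
        Metric.diam (K₁ ∩ {x | inner ℝ x e = (1 : ℝ)}) =
          Metric.diam (K₂ ∩ {x | inner ℝ x e = (1 : ℝ)})) ∧
      K₁ ≠ K₂ := by
  obtain ⟨α₁, hα₁, hα₁', H1⟩ := half_body c M a b
  obtain ⟨α₂, hα₂, hα₂', H2⟩ := half_body c M b a
  refine ⟨min α₁ α₂, lt_min hα₁ hα₂, ?_⟩
  intro N α hN hα hαle F p q Q r s Fi Qi hF hQ hinv heq hne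
  have hNr : (0:ℝ) < N := by exact_mod_cast hN
  have hα0 : 0 < α := by rw [hα]; exact div_pos Real.pi_pos hNr
  obtain ⟨K₁, a1, a2, a3, a4⟩ := H1 N α hN hα (hαle.trans (min_le_left _ _)) F p q Q r s Fi Qi
    hF hQ hinv
  obtain ⟨K₂, b1, b2, b3, b4⟩ := H2 N α hN hα (hαle.trans (min_le_right _ _)) Q r s F p q Qi Fi
    hQ hF (fun x hx => ⟨(hinv x hx).2.2.1, (hinv x hx).2.2.2, (hinv x hx).1, (hinv x hx).2.1⟩)
  refine ⟨K₁, K₂, a1, a2, b1, b2, a3, b3, ?_, ?_⟩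
  · intro e he
    obtain ⟨τ, rfl⟩ := exists_uu e he
    obtain ⟨k, y, hy, hxy⟩ : ∃ k : ℤ, ∃ y ∈ Icc (0:ℝ) 1, τ = α * (2 * k + y) ∨
        τ = α * (2 * k + 1 + y) := by
      have hf := Int.floor_le (τ / α / 2)
      have hf2 := Int.lt_floor_add_one (τ / α / 2)
      have hτ : α * (τ / α) = τ := by field_simp
      refine ⟨⌊τ / α / 2⌋, ?_⟩
      rcases le_total (τ / α - 2 * ⌊τ / α / 2⌋) 1 with h | h
      · exact ⟨τ / α - 2 * ⌊τ / α / 2⌋, ⟨by linarith, h⟩, Or.inl (by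
          rw [show 2 * (⌊τ / α / 2⌋:ℝ) + (τ / α - 2 * ⌊τ / α / 2⌋) = τ / α by ring, hτ])⟩
      · exact ⟨τ / α - 2 * ⌊τ / α / 2⌋ - 1, ⟨by linarith, by linarith⟩, Or.inr (by
          rw [show 2 * (⌊τ / α / 2⌋:ℝ) + 1 + (τ / α - 2 * ⌊τ / α / 2⌋ - 1) = τ / α by ring, hτ])⟩
    obtain ⟨p1, p2, p3, p4, s1, s2⟩ := a4 k y hy
    obtain ⟨q1, q2, q3, q4, t1, t2⟩ := b4 k y hy
    have h := heq y hy
    rcases hxy with rfl | rfl
    · rw [s1, t1, seg_diam _ _ (uv_norm _) _ _ (by linarith),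
        seg_diam _ _ (uv_norm _) _ _ (by linarith)]
      exact h
    · rw [s2, t2, seg_diam _ _ (uv_norm _) _ _ (by linarith),
        seg_diam _ _ (uv_norm _) _ _ (by linarith)]
      linarith
  · intro hKK
    obtain ⟨x, hx, hxne⟩ := hne
    obtain ⟨p1, p2, p3, p4, s1, s2⟩ := a4 0 x hx
    obtain ⟨q1, q2, q3, q4, t1, t2⟩ := b4 0 x hx
    rw [← hKK, s1] at t1
    have l1 := seg_coord _ _ (uv_norm _) _ _ _ _ (by linarith) (by linarith) t1
    have l2 := seg_coord _ _ (uv_norm _) _ _ _ _ (by linarith) (by linarith) t1.symm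
    have l3 := le_antisymm l1 l2
    -- injectivity of tan
    have hα1 : α ≤ 1 := (hαle.trans (min_le_left _ _)).trans hα₁'
    have hpi := Real.pi_gt_three
    have hFx : F x ∈ Icc (0:ℝ) 1 := by
      obtain ⟨E, P, R, hG, hE0, hE1⟩ := glue c M a b F p q Q r s hF hQ
      have hmono : StrictMono E := strictMono_of_deriv_pos (fun z => by
        rw [(hG.d1 z).deriv]; exact hG.cpos.trans_le (hG.pl z))
      have z0 := hE0 0 0 ⟨le_rfl, zero_le_one⟩
      have z1 := hE0 0 1 ⟨zero_le_one, le_rfl⟩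
      have zx := hE0 0 x hx
      simp only [Int.cast_zero, mul_zero, zero_add] at z0 z1 zx
      rw [hF.v0] at z0
      rw [hF.v1] at z1
      rw [← zx]
      exact ⟨by rw [← z0]; exact hmono.monotone hx.1, by
        conv_rhs => rw [← z1]
        exact hmono.monotone hx.2⟩
    have hQx : Q x ∈ Icc (0:ℝ) 1 := by
      obtain ⟨E, P, R, hG, hE0, hE1⟩ := glue c M b a Q r s F p q hQ hF
      have hmono : StrictMono E := strictMono_of_deriv_pos (fun z => by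
        rw [(hG.d1 z).deriv]; exact hG.cpos.trans_le (hG.pl z))
      have z0 := hE0 0 0 ⟨le_rfl, zero_le_one⟩
      have z1 := hE0 0 1 ⟨zero_le_one, le_rfl⟩
      have zx := hE0 0 x hx
      simp only [Int.cast_zero, mul_zero, zero_add] at z0 z1 zx
      rw [hQ.v0] at z0
      rw [hQ.v1] at z1
      rw [← zx]
      exact ⟨by rw [← z0]; exact hmono.monotone hx.1, by
        conv_rhs => rw [← z1]
        exact hmono.monotone hx.2⟩
    have hinj := Real.injOn_tan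
    have hr : ∀ d : ℝ, 0 ≤ d → d ≤ 2 → α * d / 2 ∈ Ioo (-(Real.pi / 2)) (Real.pi / 2) := by
      intro d hd hd2
      constructor
      · have : 0 ≤ α * d / 2 := by positivity
        linarith
      · nlinarith
    have h5 := hinj (hr (1 + F x - x) (by linarith [hFx.1, hx.2]) (by linarith [hFx.2, hx.1]))
      (hr (1 + Q x - x) (by linarith [hQx.1, hx.2]) (by linarith [hQx.2, hx.1])) l3
    apply hxne
    have h6 : α * (F x - Q x) = 0 := by linarith
    rcases mul_eq_zero.1 h6 with h | h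
    · exact absurd h hα0.ne'
    · linarith

end TC
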