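import Mathlib
import Pool.Agent.Helper946.HCDefs
import Pool.Agent.Helper946.HCPoly
import Pool.Agent.Helper946.HCNoeth
import Pool.Agent.Helper946.HCTr
import Pool.Agent.Helper946.HCGood

set_option autoImplicit false
set_option linter.unusedSectionVars false
set_option linter.unusedVariables false

namespace Pool.Agent.Helper946.S4

open Module Pool.Agent.Helper946.HC

section

variable {K G A Q : Type} [DivisionRing K] [Group G] [AddCommGroup A] [Module K A]
    [DistribMulAction G A] [Group Q] {ρ : G →* Q} {r : ℕ}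
    {ε : Multiplicative (Fin r → ℤ) →* Q}

theorem good_smul (hs : ∀ g : G, Semi K (ac g : A ≃+ A)) {φ : (Fin r → ℤ) →+ ℝ} {g : G}
    {M : (Fin r → ℤ) ≃+ (Fin r → ℤ)}
    (hM : ∀ v, ρ g * ε (Multiplicative.ofAdd v) * (ρ g)⁻¹ = ε (Multiplicative.ofAdd (M v)))
    {a : A} (h : GoodE K ρ ε (φ.comp M.toAddMonoidHom) a) : GoodE K ρ ε φ (g • a) := by
  classical
  obtain ⟨F, hF, ha⟩ := h
  refine ⟨F.image M, ?_, ?_⟩
  · intro f hf
    obtain ⟨f', hf', rfl⟩ := Finset.mem_image.mp hf
    exact hF f' hf'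
  · refine smul_tr hs ?_ ha
    intro g' f hf hg'
    have h1 : (g * g') • a = (g * g' * g⁻¹) • (g • a) := by
      rw [smul_smul]; congr 1; group
    rw [h1]
    refine tr_gen (f := M f) ?_ ?_
    · rw [Finset.coe_image]; exact ⟨f, hf, rfl⟩
    · rw [map_mul, map_mul, map_inv, hg', hM]

theorem case2b_full (hρ : Function.Surjective ρ) (hS : Sys K G A Q ρ) (hP : Plinth Q r ε)
    [Nontrivial A] (htors : ∀ w : A, Tors (K := K) ρ ε w)
    (hno : ∀ W : Submodule K A, FiniteDimensional K W → St (ε.range.comap ρ) W → W = ⊥) :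
    ∃ (L : Subgroup G) (M : Submodule K A), ρ.ker ≤ L ∧ (L.map ρ).index = 0 ∧ M ≠ ⊥ ∧ St L M ∧
      (∀ (s : Finset G) (f : G → A), (∀ g ∈ s, ∀ h ∈ s, g ≠ h → g⁻¹ * h ∉ L) →
        (∀ g ∈ s, g⁻¹ • f g ∈ M) → ∑ g ∈ s, f g = 0 → ∀ g ∈ s, f g = 0) ∧
      ε.range.comap ρ ≤ L := by
  classical
  have hs := hS.semi
  have hsc := hS.scal
  have hρv : ∀ v : Fin r → ℤ, ∃ g : G, ρ g = ε (Multiplicative.ofAdd v) := fun v => hρ _
  -- conjugation matrices
  have hMex := fun q => conj_mat ε hP.inj hP.normal q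
  choose Mq hMq using hMex
  have hinj : ∀ v w : Fin r → ℤ, ε (Multiplicative.ofAdd v) = ε (Multiplicative.ofAdd w) →
      v = w := fun v w h => Multiplicative.ofAdd.injective (hP.inj h)
  have hMmul : ∀ q q' v, Mq (q * q') v = Mq q (Mq q' v) := by
    intro q q' v
    apply hinj
    rw [← hMq, ← hMq, ← hMq]
    group
  have hMone : ∀ v, Mq 1 v = v := by
    intro v
    apply hinj
    rw [← hMq]; group
  have hMinv : ∀ q v, Mq q⁻¹ (Mq q v) = v := by
    intro q v; rw [← hMmul, inv_mul_cancel, hMone]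
  have hMinv' : ∀ q v, Mq q (Mq q⁻¹ v) = v := by
    intro q v; rw [← hMmul, mul_inv_cancel, hMone]
  have hMrange : ∀ q ∈ ε.range, ∀ v, Mq q v = v := by
    rintro q ⟨u, rfl⟩ v
    apply hinj
    rw [← hMq, ← map_mul, mul_comm, map_mul, mul_assoc, mul_inv_cancel, mul_one]
  -- goodness and translation
  have hgood : ∀ (g : G) (φ : (Fin r → ℤ) →+ ℝ) (a : A),
      GoodE K ρ ε (φ.comp (Mq (ρ g)).toAddMonoidHom) a → GoodE K ρ ε φ (g • a) :=
    fun g φ a h => good_smul hs (hMq (ρ g)) h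
  have hgood' : ∀ (g : G) (φ : (Fin r → ℤ) →+ ℝ) (a : A),
      GoodE K ρ ε φ (g • a) → GoodE K ρ ε (φ.comp (Mq (ρ g)).toAddMonoidHom) a := by
    intro g φ a h
    have h1 : GoodE K ρ ε ((φ.comp (Mq (ρ g)).toAddMonoidHom).comp
        (Mq (ρ g⁻¹)).toAddMonoidHom) (g • a) := by
      have : (φ.comp (Mq (ρ g)).toAddMonoidHom).comp (Mq (ρ g⁻¹)).toAddMonoidHom = φ := by
        apply AddMonoidHom.ext
        intro v
        show φ (Mq (ρ g) (Mq (ρ g⁻¹) v)) = φ v
        rw [map_inv, hMinv']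
      rw [this]; exact h
    have h2 := hgood g⁻¹ _ _ h1
    rwa [inv_smul_smul] at h2
  have hgood0 : ∀ φ : (Fin r → ℤ) →+ ℝ, GoodE K ρ ε φ (0 : A) := fun φ =>
    ⟨∅, by simp, Submodule.zero_mem _⟩
  -- covers
  let α := (Submodule ℤ (Fin r → ℤ))ᵒᵈ
  let Kill : ((Fin r → ℤ) →+ ℝ) → Submodule ℤ (Fin r → ℤ) → Prop := fun φ P => ∀ v ∈ P, φ v = 0
  let Cov : A → Multiset α → Prop := fun a PP => ∀ φ : (Fin r → ℤ) →+ ℝ, φ ≠ 0 →
    ¬ GoodE K ρ ε φ a → ∃ P ∈ PP, Kill φ (OrderDual.ofDual P)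
  let 𝒮 : Set (Multiset α) := {PP | (∃ a, a ≠ 0 ∧ Cov a PP) ∧
    ∀ P ∈ PP, OrderDual.ofDual P ≠ ⊥}
  have hne : 𝒮.Nonempty := by
    obtain ⟨a, ha⟩ := exists_ne (0 : A)
    obtain ⟨D, hD0, hD⟩ := tors_cover hs hsc hρv (htors a)
    refine ⟨D.val.map fun d => OrderDual.toDual (Submodule.span ℤ {d}), ⟨a, ha, ?_⟩, ?_⟩
    · intro φ hφ hbad
      by_contra hcon
      apply hbad
      apply hD
      intro d hd h0
      apply hcon
      refine ⟨OrderDual.toDual (Submodule.span ℤ {d}), Multiset.mem_map.mpr ⟨d, hd, rfl⟩, ?_⟩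
      intro v hv
      obtain ⟨n, rfl⟩ := Submodule.mem_span_singleton.mp hv
      rw [map_zsmul, h0, smul_zero]
    · intro P hPm h0
      obtain ⟨d, hd, rfl⟩ := Multiset.mem_map.mp hPm
      exact hD0 d hd (Submodule.span_singleton_eq_bot.mp h0)
  have hwf : WellFounded (Multiset.IsDershowitzMannaLT : Multiset α → Multiset α → Prop) :=
    Multiset.wellFounded_isDershowitzMannaLT
  obtain ⟨PP, ⟨⟨a0, ha0, hcov0⟩, hPbot⟩, hmin⟩ := hwf.has_min 𝒮 hne
  -- hull property
  have hull : ∀ b : A, b ≠ 0 → Cov b PP → ∀ QQ : Multiset α, Cov b QQ →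
      ∀ P0 ∈ PP, ∃ P ∈ QQ, OrderDual.ofDual P ≤ OrderDual.ofDual P0 := by
    intro b hb hbP QQ hbQ P0 hP0
    by_contra hcon
    push Not at hcon
    apply hmin (PP.erase P0 + QQ.map fun P => OrderDual.toDual
      (OrderDual.ofDual P0 ⊔ OrderDual.ofDual P))
    · refine ⟨⟨b, hb, ?_⟩, ?_⟩
      · intro φ hφ hbad
        obtain ⟨P, hP, hkP⟩ := hbP φ hφ hbad
        obtain ⟨P', hP', hkP'⟩ := hbQ φ hφ hbad
        by_cases hPP : P = P0
        · subst hPP
          refine ⟨OrderDual.toDual (OrderDual.ofDual P ⊔ OrderDual.ofDual P'),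
            Multiset.mem_add.mpr (Or.inr (Multiset.mem_map.mpr ⟨P', hP', rfl⟩)), ?_⟩
          intro v hv
          obtain ⟨u, hu, u', hu', rfl⟩ := Submodule.mem_sup.mp hv
          rw [map_add, hkP u hu, hkP' u' hu', add_zero]
        · exact ⟨P, Multiset.mem_add.mpr (Or.inl ((Multiset.mem_erase_of_ne hPP).mpr hP)), hkP⟩
      · intro P hPm
        rcases Multiset.mem_add.mp hPm with h | h
        · exact hPbot P (Multiset.mem_of_mem_erase h)
        · obtain ⟨P', hP', rfl⟩ := Multiset.mem_map.mp h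
          intro h0
          exact hPbot P0 hP0 (eq_bot_iff.mpr (le_trans le_sup_left (le_of_eq h0)))
    · refine ⟨PP.erase P0, _, {P0}, ?_, rfl, ?_, ?_⟩
      · exact Multiset.singleton_ne_zero P0
      · rw [add_comm, Multiset.singleton_add, Multiset.cons_erase hP0]
      · intro y hy
        obtain ⟨P', hP', rfl⟩ := Multiset.mem_map.mp hy
        refine ⟨P0, Multiset.mem_singleton_self P0, ?_⟩
        show OrderDual.ofDual P0 < OrderDual.ofDual P0 ⊔ OrderDual.ofDual P'
        refine lt_of_le_of_ne le_sup_left ?_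
        intro heq
        exact hcon P' hP' (le_trans le_sup_right (le_of_eq heq.symm))
  -- the submodule
  let Ms : Submodule K A :=
    { carrier := {a | Cov a PP}
      add_mem' := by
        intro a b ha hb φ hφ hbad
        by_contra hcon
        have h1 : GoodE K ρ ε φ a := by
          by_contra h; exact hcon (ha φ hφ h)
        have h2 : GoodE K ρ ε φ b := by
          by_contra h; exact hcon (hb φ hφ h)
        apply hbad
        apply good_two hs hsc hρv h1 h2
        exact Submodule.add_mem_sup (mem_tr_self (Set.mem_univ _) a)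
          (mem_tr_self (Set.mem_univ _) b)
      zero_mem' := fun φ hφ hbad => absurd (hgood0 φ) hbad
      smul_mem' := by
        intro k a ha φ hφ hbad
        by_contra hcon
        have h1 : GoodE K ρ ε φ a := by
          by_contra h; exact hcon (ha φ hφ h)
        exact hbad (good_all hs hsc hρv h1 _
          (Submodule.smul_mem _ k (mem_tr_self (Set.mem_univ _) a))) }
  have hMsmem : ∀ a, a ∈ Ms ↔ Cov a PP := fun a => Iff.rfl
  -- the stabiliser
  let R : Q → Prop := fun q => ∀ P0 ∈ PP, ∃ P ∈ PP, ∀ v ∈ OrderDual.ofDual P,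
    Mq q v ∈ OrderDual.ofDual P0
  have hRmul : ∀ q q', R q → R q' → R (q * q') := by
    intro q q' h h' P0 hP0
    obtain ⟨P1, hP1, h1⟩ := h P0 hP0
    obtain ⟨P2, hP2, h2⟩ := h' P1 hP1
    refine ⟨P2, hP2, fun v hv => ?_⟩
    rw [hMmul]; exact h1 _ (h2 v hv)
  let LQ : Subgroup Q :=
    { carrier := {q | R q ∧ R q⁻¹}
      mul_mem' := by
        rintro a b ⟨ha, ha'⟩ ⟨hb, hb'⟩
        refine ⟨hRmul a b ha hb, ?_⟩
        rw [mul_inv_rev]; exact hRmul _ _ hb' ha'
      one_mem' := by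
        have : R 1 := fun P0 hP0 => ⟨P0, hP0, fun v hv => by rw [hMone]; exact hv⟩
        exact ⟨this, by rw [inv_one]; exact this⟩
      inv_mem' := by
        rintro a ⟨ha, ha'⟩
        exact ⟨ha', by rw [inv_inv]; exact ha⟩ }
  have hLQ : ∀ q, q ∈ LQ ↔ R q ∧ R q⁻¹ := fun q => Iff.rfl
  have hrangeL : ε.range ≤ LQ := by
    intro q hq
    have h1 : ∀ q ∈ ε.range, R q := fun q hq P0 hP0 =>
      ⟨P0, hP0, fun v hv => by rw [hMrange q hq]; exact hv⟩
    exact ⟨h1 q hq, h1 _ (ε.range.inv_mem hq)⟩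
  let L : Subgroup G := LQ.comap ρ
  have hstL : St L Ms := by
    intro g hg a ha φ hφ hbad
    have h1 : ¬ GoodE K ρ ε (φ.comp (Mq (ρ g)).toAddMonoidHom) a := fun h => hbad (hgood g φ a h)
    have h2 : φ.comp (Mq (ρ g)).toAddMonoidHom ≠ 0 := by
      intro h0
      apply hφ
      apply AddMonoidHom.ext
      intro v
      have h3 := congrArg (fun f : (Fin r → ℤ) →+ ℝ => f (Mq (ρ g)⁻¹ v)) h0
      have h4 : φ (Mq (ρ g) (Mq (ρ g)⁻¹ v)) = 0 := h3
      rw [hMinv'] at h4
      exact h4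
    obtain ⟨P, hP, hk⟩ := ha _ h2 h1
    obtain ⟨P', hP', h3⟩ := ((hLQ _).mp hg).2 P hP
    refine ⟨P', hP', fun v hv => ?_⟩
    have h4 : φ (Mq (ρ g) (Mq (ρ g)⁻¹ v)) = 0 := hk _ (h3 v hv)
    rwa [hMinv'] at h4
  -- independence: two elements with the same goodness
  have hpair : ∀ (g h : G) (b c : A), b ≠ 0 → Cov b PP → Cov c PP →
      (∀ φ, GoodE K ρ ε φ (h • c) → GoodE K ρ ε φ (g • b)) → R (ρ (g⁻¹ * h)) := by
    intro g h b c hb hbP hcP himp P0 hP0
    let QQ : Multiset α := PP.map fun P => OrderDual.toDual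
      ((OrderDual.ofDual P).map (Mq (ρ (g⁻¹ * h))).toAddMonoidHom.toIntLinearMap)
    have hQ : Cov b QQ := by
      intro φ hφ hbad
      let ψ : (Fin r → ℤ) →+ ℝ := φ.comp (Mq (ρ g)⁻¹).toAddMonoidHom
      have h1 : ψ.comp (Mq (ρ g)).toAddMonoidHom = φ := by
        apply AddMonoidHom.ext
        intro v
        show φ (Mq (ρ g)⁻¹ (Mq (ρ g) v)) = φ v
        rw [hMinv]
      have h2 : ¬ GoodE K ρ ε ψ (g • b) := by
        intro h3
        have h4 := hgood' g ψ b h3
        rw [h1] at h4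
        exact hbad h4
      have h3 : ¬ GoodE K ρ ε ψ (h • c) := fun h4 => h2 (himp ψ h4)
      have h4 : ¬ GoodE K ρ ε (ψ.comp (Mq (ρ h)).toAddMonoidHom) c := fun h5 =>
        h3 (hgood h ψ c h5)
      have h5 : ψ.comp (Mq (ρ h)).toAddMonoidHom ≠ 0 := by
        intro h0
        apply hφ
        apply AddMonoidHom.ext
        intro v
        have h6 := congrArg (fun f : (Fin r → ℤ) →+ ℝ => f (Mq (ρ h)⁻¹ (Mq (ρ g) v))) h0
        have h7 : φ (Mq (ρ g)⁻¹ (Mq (ρ h) (Mq (ρ h)⁻¹ (Mq (ρ g) v)))) = 0 := h6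
        rw [hMinv', hMinv] at h7
        exact h7
      obtain ⟨P, hP, hk⟩ := hcP _ h5 h4
      refine ⟨_, Multiset.mem_map.mpr ⟨P, hP, rfl⟩, ?_⟩
      intro v hv
      obtain ⟨u, hu, rfl⟩ := Submodule.mem_map.mp hv
      show φ (Mq (ρ (g⁻¹ * h)) u) = 0
      have h6 : φ (Mq (ρ g)⁻¹ (Mq (ρ h) u)) = 0 := hk u hu
      rw [map_mul, map_inv, hMmul]
      exact h6
    obtain ⟨P, hP, hle⟩ := hull b hb hbP QQ hQ P0 hP0
    obtain ⟨P', hP', rfl⟩ := Multiset.mem_map.mp hP
    exact ⟨P', hP', fun v hv => hle (Submodule.mem_map.mpr ⟨v, hv, rfl⟩)⟩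
  have hInd : ∀ (n : ℕ) (s : Finset G), s.card = n → ∀ (f : G → A),
      (∀ g ∈ s, ∀ h ∈ s, g ≠ h → g⁻¹ * h ∉ L) →
      (∀ g ∈ s, g⁻¹ • f g ∈ Ms) → ∑ g ∈ s, f g = 0 → ∀ g ∈ s, f g = 0 := by
    intro n
    induction n using Nat.strong_induction_on with
    | _ n ih =>
    intro s hsn f hLs hMs hsum
    by_contra hcon
    push Not at hcon
    obtain ⟨g, hg, hfg⟩ := hcon
    have herase : ∀ i ∈ s, (s.erase i).card < n := fun i hi => by
      rw [← hsn]; exact Finset.card_erase_lt_of_mem hi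
    have hall : ∀ h ∈ s, f h ≠ 0 := by
      intro h hh hfh
      have h1 : g ≠ h := by rintro rfl; exact hfg hfh
      have h2 : ∑ i ∈ s.erase h, f i = 0 := by
        rw [← Finset.add_sum_erase s f hh, hfh, zero_add] at hsum
        exact hsum
      exact hfg (ih _ (herase h hh) (s.erase h) rfl f
        (fun a ha b hb => hLs a (Finset.mem_of_mem_erase ha) b (Finset.mem_of_mem_erase hb))
        (fun a ha => hMs a (Finset.mem_of_mem_erase ha)) h2 g (Finset.mem_erase.mpr ⟨h1, hg⟩))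
    obtain ⟨h, hh, hgh⟩ : ∃ h ∈ s, h ≠ g := by
      by_contra hcon2
      push Not at hcon2
      have hsg : s = {g} := Finset.eq_singleton_iff_unique_mem.mpr ⟨hg, hcon2⟩
      rw [hsg, Finset.sum_singleton] at hsum
      exact hfg hsum
    -- transfer of goodness
    have htrans : ∀ i ∈ s, ∀ j ∈ s, j ≠ i → ∀ φ, GoodE K ρ ε φ (f i) → GoodE K ρ ε φ (f j) := by
      rintro i hi j hj hji φ ⟨F, hF, hfi⟩
      have hρv' := hρv
      choose y hy using hρv'
      rw [tr_eq hs hsc hy, Submodule.mem_span_image_finset_iff_exists_fun'] at hfi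
      obtain ⟨k, hk⟩ := hfi
      let T : A →+ A :=
        { toFun := fun x => x - ∑ v ∈ F, k v • (y v • x)
          map_zero' := by simp
          map_add' := by
            intro a b
            have : ∑ v ∈ F, k v • (y v • (a + b)) = ∑ v ∈ F, k v • (y v • a)
                + ∑ v ∈ F, k v • (y v • b) := by
              rw [← Finset.sum_add_distrib]
              exact Finset.sum_congr rfl fun v _ => by rw [smul_add, smul_add]
            rw [this]; abel }
      have hTdef : ∀ x, T x = x - ∑ v ∈ F, k v • (y v • x) := fun x => rfl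
      have hTi : T (f i) = 0 := by
        rw [hTdef]
        exact sub_eq_zero.mpr hk.symm
      have hTsum : ∑ l ∈ s.erase i, T (f l) = 0 := by
        have h1 : ∑ l ∈ s, T (f l) = 0 := by rw [← map_sum, hsum, map_zero]
        rw [← Finset.add_sum_erase s _ hi, hTi, zero_add] at h1
        exact h1
      have hTM : ∀ l ∈ s, l⁻¹ • T (f l) ∈ Ms := by
        intro l hl
        rw [hTdef, smul_sub, Finset.smul_sum]
        apply Ms.sub_mem (hMs l hl)
        apply Ms.sum_mem
        intro v _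
        obtain ⟨σ, hσ⟩ := hs l⁻¹
        have hσ' : ∀ (k : K) (x : A), l⁻¹ • (k • x) = σ k • l⁻¹ • x := hσ
        rw [hσ']
        apply Ms.smul_mem
        have h1 : l⁻¹ • y v • f l = (l⁻¹ * y v * l) • (l⁻¹ • f l) := by
          rw [smul_smul, smul_smul]; congr 1; group
        rw [h1]
        apply hstL _ _ _ (hMs l hl)
        show ρ (l⁻¹ * y v * l) ∈ LQ
        apply hrangeL
        rw [map_mul, map_mul, hy]
        have h2 := hP.normal.conj_mem (ε (Multiplicative.ofAdd v)) ⟨_, rfl⟩ (ρ l⁻¹)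
        rwa [← map_inv, inv_inv] at h2
      have hTj : T (f j) = 0 := ih _ (herase i hi) (s.erase i) rfl (fun l => T (f l))
        (fun a ha b hb => hLs a (Finset.mem_of_mem_erase ha) b (Finset.mem_of_mem_erase hb))
        (fun a ha => hTM a (Finset.mem_of_mem_erase ha)) hTsum j (Finset.mem_erase.mpr ⟨hji, hj⟩)
      refine ⟨F, hF, ?_⟩
      rw [tr_eq hs hsc hy, Submodule.mem_span_image_finset_iff_exists_fun']
      exact ⟨k, (sub_eq_zero.mp ((hTdef _).symm.trans hTj)).symm⟩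
    have hsg : ∀ i : G, i • (i⁻¹ • f i) = f i := fun i => smul_inv_smul i (f i)
    have hb : ∀ i ∈ s, i⁻¹ • f i ≠ 0 := by
      intro i hi h0
      apply hall i hi
      rw [← hsg i, h0, smul_zero]
    apply hLs g hg h hh hgh.symm
    show ρ (g⁻¹ * h) ∈ LQ
    refine (hLQ _).mpr ⟨?_, ?_⟩
    · apply hpair g h (g⁻¹ • f g) (h⁻¹ • f h) (hb g hg) (hMs g hg) (hMs h hh)
      intro φ hφ
      rw [hsg] at hφ ⊢
      exact htrans h hh g hg hgh.symm φ hφ
    · have h1 : (ρ (g⁻¹ * h))⁻¹ = ρ (h⁻¹ * g) := by rw [← map_inv]; congr 1; group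
      rw [h1]
      apply hpair h g (h⁻¹ • f h) (g⁻¹ • f g) (hb h hh) (hMs h hh) (hMs g hg)
      intro φ hφ
      rw [hsg] at hφ ⊢
      exact htrans g hg h hh hgh φ hφ
  -- the index
  have hindex : LQ.index = 0 := by
    by_contra hidx
    have hkill : ∀ P ∈ PP, ∀ φ : (Fin r → ℤ) →+ ℝ, Kill φ (OrderDual.ofDual P) → φ = 0 := by
      intro P hPmem φ hφ
      let fs : Finset (Submodule ℤ (Fin r → ℤ)) := (PP.map OrderDual.ofDual).toFinset
      have hfs : ∀ P', P' ∈ fs ↔ OrderDual.toDual P' ∈ PP := by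
        intro P'
        rw [Multiset.mem_toFinset, Multiset.mem_map]
        constructor
        · rintro ⟨a, ha, rfl⟩; exact ha
        · intro h; exact ⟨_, h, rfl⟩
      obtain ⟨P1, hP1le, hP1min⟩ := (fs.finite_toSet).exists_le_minimal
        (a := OrderDual.ofDual P) (by rw [Finset.mem_coe, hfs]; exact hPmem)
      have hP1 : OrderDual.toDual P1 ∈ PP := (hfs P1).mp hP1min.prop
      -- the orbit
      have horb : ∀ q ∈ LQ, (P1.comap (Mq q).toAddMonoidHom.toIntLinearMap) ∈ fs := by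
        intro q hq
        obtain ⟨hq1, hq2⟩ := (hLQ q).mp hq
        obtain ⟨P', hP', h1⟩ := hq1 _ hP1
        obtain ⟨P'', hP'', h2⟩ := hq2 _ hP'
        have h3 : OrderDual.ofDual P'' ≤ P1 := by
          intro v hv
          have h4 := h1 _ (h2 v hv)
          rwa [hMinv'] at h4
        have h4 : P1 ≤ OrderDual.ofDual P'' :=
          hP1min.le_of_le (by rw [Finset.mem_coe, hfs]; exact hP'') h3
        have h5 : P1.comap (Mq q).toAddMonoidHom.toIntLinearMap = OrderDual.ofDual P' := by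
          apply le_antisymm
          · intro v hv
            have h6 : Mq q v ∈ P1 := hv
            have h7 := h2 _ (h4 h6)
            rwa [hMinv] at h7
          · intro v hv
            exact h1 v hv
        rw [h5, hfs]; exact hP'
      let H : Subgroup Q :=
        { carrier := {q | q ∈ LQ ∧ ∀ v, Mq q v ∈ P1 ↔ v ∈ P1}
          mul_mem' := by
            rintro a b ⟨ha, ha'⟩ ⟨hb, hb'⟩
            refine ⟨LQ.mul_mem ha hb, fun v => ?_⟩
            rw [hMmul, ha', hb']
          one_mem' := ⟨LQ.one_mem, fun v => by rw [hMone]⟩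
          inv_mem' := by
            rintro a ⟨ha, ha'⟩
            refine ⟨LQ.inv_mem ha, fun v => ?_⟩
            rw [← ha', hMinv'] }
      have hHmem : ∀ q, q ∈ H ↔ q ∈ LQ ∧ ∀ v, Mq q v ∈ P1 ↔ v ∈ P1 := fun q => Iff.rfl
      have hHL : H ≤ LQ := fun q hq => ((hHmem q).mp hq).1
      have hHidx : H.index ≠ 0 := by
        rw [← Subgroup.relIndex_mul_index hHL]
        refine mul_ne_zero ?_ hidx
        have hfin : Finite (LQ ⧸ H.subgroupOf LQ) := by
          let F : (LQ ⧸ H.subgroupOf LQ) → {P // P ∈ fs} := fun c =>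
            ⟨P1.comap (Mq ((c.out : LQ) : Q)⁻¹).toAddMonoidHom.toIntLinearMap,
              horb _ (LQ.inv_mem c.out.2)⟩
          apply Finite.of_injective F
          intro c c' hcc
          have h1 := congrArg Subtype.val hcc
          have h2 : ∀ v, Mq ((c.out : LQ) : Q)⁻¹ v ∈ P1 ↔ Mq ((c'.out : LQ) : Q)⁻¹ v ∈ P1 := by
            intro v
            have h3 : (P1.comap (Mq ((c.out : LQ) : Q)⁻¹).toAddMonoidHom.toIntLinearMap)
              = P1.comap (Mq ((c'.out : LQ) : Q)⁻¹).toAddMonoidHom.toIntLinearMap := h1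
            have h4 := SetLike.ext_iff.mp h3 v
            exact h4
          have h3 : (c.out)⁻¹ * c'.out ∈ H.subgroupOf LQ := by
            rw [Subgroup.mem_subgroupOf, hHmem]
            refine ⟨((c.out)⁻¹ * c'.out).2, fun v => ?_⟩
            show Mq (((c.out : LQ) : Q)⁻¹ * ((c'.out : LQ) : Q)) v ∈ P1 ↔ _
            rw [hMmul, h2, hMinv]
          have h4 := QuotientGroup.eq.mpr h3
          rwa [QuotientGroup.out_eq', QuotientGroup.out_eq'] at h4
        exact Subgroup.index_ne_zero_of_finite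
      have hirr := hP.irr H hHidx P1.toAddSubgroup (by
        intro h0
        apply hPbot _ hP1
        rw [eq_bot_iff]
        intro v hv
        have h1 : v ∈ P1.toAddSubgroup := hv
        rw [h0] at h1
        exact (Submodule.mem_bot ℤ).mpr (AddSubgroup.mem_bot.mp h1)) (by
        intro q hq v hv
        refine ⟨Mq q v, (((hHmem q).mp hq).2 v).mpr hv, hMq q v⟩)
      apply AddMonoidHom.ext
      intro v
      obtain ⟨n, hn, hnv⟩ := hirr v
      have h1 : φ (n • v) = 0 := hφ _ (hP1le hnv)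
      rw [map_nsmul, nsmul_eq_mul] at h1
      rcases mul_eq_zero.mp h1 with h2 | h2
      · have : n = 0 := by exact_mod_cast h2
        omega
      · exact h2
    have hfd : FiniteDimensional K (tr ρ ε Set.univ a0 : Submodule K A) := by
      apply all_good_fd hs hsc hρv
      intro φ hφ
      by_contra hbad
      obtain ⟨P, hP, hk⟩ := hcov0 φ hφ hbad
      exact hφ (hkill P hP φ hk)
    have hst : St (ε.range.comap ρ) (tr ρ ε Set.univ a0 : Submodule K A) := by
      rintro g ⟨u, hu⟩ x hx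
      exact smul_tr_shift hs (v := Multiplicative.toAdd u) hu.symm (fun f _ => Set.mem_univ _) hx
    have hbot := hno _ hfd hst
    have hmem : a0 ∈ (tr ρ ε Set.univ a0 : Submodule K A) := mem_tr_self (Set.mem_univ _) a0
    rw [hbot] at hmem
    exact ha0 ((Submodule.mem_bot K).mp hmem)
  refine ⟨L, Ms, ?_, ?_, ?_, hstL, fun s f h1 h2 h3 => hInd _ s rfl f h1 h2 h3, ?_⟩
  · intro g hg
    show ρ g ∈ LQ
    rw [(MonoidHom.mem_ker).mp hg]
    exact LQ.one_mem
  · show ((LQ.comap ρ).map ρ).index = 0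
    rw [Subgroup.map_comap_eq_self_of_surjective hρ]
    exact hindex
  · intro h0
    have : a0 ∈ Ms := hcov0
    rw [h0] at this
    exact ha0 ((Submodule.mem_bot K).mp this)
  · exact Subgroup.comap_mono hrangeL

end

end Pool.Agent.Helper946.S4
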