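import Mathlib
import Pool.Agent.Helper946.HCDefs
import Pool.Agent.Helper946.HCPoly
import Pool.Agent.Helper946.HCNoeth
import Pool.Agent.Helper946.HCTr
import Pool.Agent.Helper946.HCGood
import Pool.Agent.Helper946.HCCase2b

set_option autoImplicit false
set_option linter.unusedSectionVars false
set_option linter.unusedVariables false

namespace Pool.Agent.Helper946.S4

open Module Pool.Agent.Helper946.HC

section rank

variable {r : ℕ}

/-- the isolator. -/
def isol (P : Submodule ℤ (Fin r → ℤ)) : Submodule ℤ (Fin r → ℤ) where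
  carrier := {v | ∃ n : ℤ, n ≠ 0 ∧ n • v ∈ P}
  add_mem' := by
    rintro a b ⟨n, hn, ha⟩ ⟨m, hm, hb⟩
    refine ⟨n * m, mul_ne_zero hn hm, ?_⟩
    have : (n * m) • (a + b) = m • (n • a) + n • (m • b) := by
      rw [smul_add, smul_smul, smul_smul, mul_comm m n]
    rw [this]
    exact P.add_mem (P.smul_mem _ ha) (P.smul_mem _ hb)
  zero_mem' := ⟨1, one_ne_zero, by simp⟩
  smul_mem' := by
    rintro c a ⟨n, hn, ha⟩
    exact ⟨n, hn, by rw [smul_comm]; exact P.smul_mem _ ha⟩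

theorem mem_isol {P : Submodule ℤ (Fin r → ℤ)} {v : Fin r → ℤ} :
    v ∈ isol P ↔ ∃ n : ℤ, n ≠ 0 ∧ n • v ∈ P := Iff.rfl

theorem le_isol (P : Submodule ℤ (Fin r → ℤ)) : P ≤ isol P := fun v hv =>
  ⟨1, one_ne_zero, by rwa [one_smul]⟩

theorem isol_mono {P P' : Submodule ℤ (Fin r → ℤ)} (h : P ≤ P') : isol P ≤ isol P' := by
  rintro v ⟨n, hn, hv⟩
  exact ⟨n, hn, h hv⟩

theorem isol_isol (P : Submodule ℤ (Fin r → ℤ)) : isol (isol P) = isol P := by
  apply le_antisymm _ (le_isol _)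
  rintro v ⟨n, hn, m, hm, hv⟩
  exact ⟨m * n, mul_ne_zero hm hn, by rwa [mul_smul]⟩

theorem isol_le {P P' : Submodule ℤ (Fin r → ℤ)} (h : P ≤ isol P') : isol P ≤ isol P' := by
  have := isol_mono h
  rwa [isol_isol] at this

theorem rank_le {P P' : Submodule ℤ (Fin r → ℤ)} (h : P ≤ P') : finrank ℤ P ≤ finrank ℤ P' :=
  Submodule.finrank_mono h

/-- a submodule of the same rank has the same isolator. -/
theorem isol_eq {P P' : Submodule ℤ (Fin r → ℤ)} (h : P ≤ P') (hr : finrank ℤ P' ≤ finrank ℤ P) :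
    isol P = isol P' := by
  apply le_antisymm (isol_mono h)
  apply isol_le
  intro v hv
  let N : Submodule ℤ P' := P.comap P'.subtype
  have e1 : finrank ℤ (P' ⧸ N) + finrank ℤ N = finrank ℤ P' :=
    Submodule.finrank_quotient_add_finrank N
  have e2 : finrank ℤ N = finrank ℤ P :=
    (Submodule.comapSubtypeEquivOfLe h).finrank_eq
  have e3 : finrank ℤ (P' ⧸ N) = 0 := by omega
  rw [Module.finrank_eq_zero_iff] at e3
  obtain ⟨n, hn, h0⟩ := e3 (Submodule.Quotient.mk ⟨v, hv⟩)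
  rw [← Submodule.Quotient.mk_smul, Submodule.Quotient.mk_eq_zero] at h0
  exact ⟨n, hn, h0⟩

theorem isol_rank_top {P : Submodule ℤ (Fin r → ℤ)} (h : r ≤ finrank ℤ P) : isol P = ⊤ := by
  rw [isol_eq (P' := ⊤) le_top (by rw [finrank_top]; simpa using h)]
  rw [eq_top_iff]; exact le_isol _

theorem rank_isol (P : Submodule ℤ (Fin r → ℤ)) : finrank ℤ (isol P) = finrank ℤ P := by
  apply le_antisymm _ (rank_le (le_isol P))
  let N : Submodule ℤ (isol P) := P.comap (isol P).subtype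
  have e1 : finrank ℤ (isol P ⧸ N) + finrank ℤ N = finrank ℤ (isol P) :=
    Submodule.finrank_quotient_add_finrank N
  have e2 : finrank ℤ N = finrank ℤ P :=
    (Submodule.comapSubtypeEquivOfLe (le_isol P)).finrank_eq
  have e3 : finrank ℤ (isol P ⧸ N) = 0 := by
    rw [Module.finrank_eq_zero_iff]
    intro q
    obtain ⟨⟨v, n, hn, hv⟩, rfl⟩ := Submodule.Quotient.mk_surjective N q
    refine ⟨n, hn, ?_⟩
    rw [← Submodule.Quotient.mk_smul, Submodule.Quotient.mk_eq_zero]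
    exact hv
  omega

/-- transport by an automorphism. -/
def mp (M : (Fin r → ℤ) ≃+ (Fin r → ℤ)) (P : Submodule ℤ (Fin r → ℤ)) :
    Submodule ℤ (Fin r → ℤ) := P.map M.toIntLinearEquiv.toLinearMap

theorem mem_mp {M : (Fin r → ℤ) ≃+ (Fin r → ℤ)} {P : Submodule ℤ (Fin r → ℤ)} {v : Fin r → ℤ} :
    v ∈ mp M P ↔ ∃ u ∈ P, M u = v := by
  unfold mp
  rw [Submodule.mem_map]
  rfl

theorem mp_mem {M : (Fin r → ℤ) ≃+ (Fin r → ℤ)} {P : Submodule ℤ (Fin r → ℤ)} {v : Fin r → ℤ} :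
    M v ∈ mp M P ↔ v ∈ P := by
  rw [mem_mp]
  constructor
  · rintro ⟨u, hu, h⟩
    rwa [← M.injective h]
  · intro h; exact ⟨v, h, rfl⟩

theorem rank_mp (M : (Fin r → ℤ) ≃+ (Fin r → ℤ)) (P : Submodule ℤ (Fin r → ℤ)) :
    finrank ℤ (mp M P) = finrank ℤ P :=
  LinearEquiv.finrank_map_eq M.toIntLinearEquiv P

theorem mp_isol (M : (Fin r → ℤ) ≃+ (Fin r → ℤ)) (P : Submodule ℤ (Fin r → ℤ)) :
    mp M (isol P) = isol (mp M P) := by
  ext v
  obtain ⟨u, rfl⟩ := M.surjective v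
  rw [mp_mem, mem_isol, mem_isol]
  refine exists_congr fun n => and_congr_right fun _ => ?_
  rw [← map_zsmul, mp_mem]

theorem mp_mono (M : (Fin r → ℤ) ≃+ (Fin r → ℤ)) {P P' : Submodule ℤ (Fin r → ℤ)} (h : P ≤ P') :
    mp M P ≤ mp M P' := Submodule.map_mono h

theorem one_le_rank {P : Submodule ℤ (Fin r → ℤ)} (h : P ≠ ⊥) : 1 ≤ finrank ℤ P := by
  have : Nontrivial P := (Submodule.nontrivial_iff_ne_bot).mpr h
  exact Module.finrank_pos

end rank

section

variable {K G A Q : Type} [DivisionRing K] [Group G] [AddCommGroup A] [Module K A]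
    [DistribMulAction G A] [Group Q] {ρ : G →* Q} {r : ℕ}
    {ε : Multiplicative (Fin r → ℤ) →* Q}

/-- finitely generated from the chain condition. -/
theorem noeth_fg (hs : ∀ g : G, Semi K (ac g : A ≃+ A))
    (hN : NoethFor (Set.univ : Set G) (⊤ : Submodule K A)) (B : Submodule K A)
    (hB : ∀ g : G, ∀ x ∈ B, g • x ∈ B) :
    ∃ S : Finset A, (∀ s ∈ S, s ∈ B) ∧
      B ≤ Submodule.span K {x : A | ∃ g : G, ∃ s ∈ S, x = g • s} := by
  classical
  let gen : Finset A → Submodule K A := fun S => Submodule.span K {x : A | ∃ g : G, ∃ s ∈ S, x = g • s}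
  have hgen : ∀ S, ∀ g : G, ∀ x ∈ gen S, g • x ∈ gen S := by
    intro S g x hx
    obtain ⟨σ, hσ⟩ := hs g
    have hσ' : ∀ (k : K) (x : A), g • (k • x) = σ k • g • x := hσ
    induction hx using Submodule.span_induction with
    | mem x h =>
      obtain ⟨g', s, hs', rfl⟩ := h
      exact Submodule.subset_span ⟨g * g', s, hs', by rw [mul_smul]⟩
    | zero => rw [smul_zero]; exact Submodule.zero_mem _
    | add a b _ _ ha hb => rw [smul_add]; exact Submodule.add_mem _ ha hb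
    | smul k a _ ha => rw [hσ']; exact Submodule.smul_mem _ _ ha
  have hself : ∀ (S : Finset A), ∀ s ∈ S, s ∈ gen S := fun S s h =>
    Submodule.subset_span ⟨1, s, h, by rw [one_smul]⟩
  have hmono : ∀ S S' : Finset A, S ⊆ S' → gen S ≤ gen S' := by
    intro S S' h
    apply Submodule.span_mono
    rintro x ⟨g, s, hs', rfl⟩
    exact ⟨g, s, h hs', rfl⟩
  by_contra hcon
  push Not at hcon
  have hstep : ∀ S : {S : Finset A // ∀ s ∈ S, s ∈ B}, ∃ S' : {S : Finset A // ∀ s ∈ S, s ∈ B},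
      S.1 ⊆ S'.1 ∧ ¬ gen S'.1 ≤ gen S.1 := by
    rintro ⟨S, hS⟩
    obtain ⟨b, hb, hb'⟩ := SetLike.not_le_iff_exists.mp (hcon S hS)
    refine ⟨⟨insert b S, ?_⟩, Finset.subset_insert _ _, ?_⟩
    · intro s hs'
      rcases Finset.mem_insert.mp hs' with rfl | h
      · exact hb
      · exact hS s h
    · intro hle
      exact hb' (hle (hself _ _ (Finset.mem_insert_self _ _)))
  choose nx hnx1 hnx2 using hstep
  let f : ℕ → {S : Finset A // ∀ s ∈ S, s ∈ B} := fun n => nx^[n] ⟨∅, by simp⟩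
  have hf : ∀ n, f (n + 1) = nx (f n) := fun n => Function.iterate_succ_apply' _ _ _
  have hmonof : Monotone fun n => gen (f n).1 := by
    apply monotone_nat_of_le_succ
    intro n
    show gen (f n).1 ≤ gen (f (n + 1)).1
    rw [hf]
    exact hmono _ _ (hnx1 _)
  obtain ⟨n, hn⟩ := hN _ hmonof (fun n => ⟨le_top, fun g _ => hgen _ g⟩)
  have h1 := hn (n + 1) (Nat.le_succ n)
  have h2 := hnx2 (f n)
  rw [← hf] at h2
  exact h2 h1.le

/-- every bad nonzero character of `w` is killed on a member of `F`. -/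
def Cv (K : Type) {G A Q : Type} [DivisionRing K] [Group G] [AddCommGroup A] [Module K A]
    [DistribMulAction G A] [Group Q] (ρ : G →* Q) {r : ℕ}
    (ε : Multiplicative (Fin r → ℤ) →* Q) (F : Set (Submodule ℤ (Fin r → ℤ))) (w : A) : Prop :=
  ∀ φ : (Fin r → ℤ) →+ ℝ, φ ≠ 0 → ¬ GoodE K ρ ε φ w → ∃ P ∈ F, ∀ v ∈ P, φ v = 0

theorem Cv.mono {F F' : Set (Submodule ℤ (Fin r → ℤ))} {w : A} (h : Cv K ρ ε F w) (hF : F ⊆ F') :
    Cv K ρ ε F' w := by
  intro φ hφ hbad
  obtain ⟨P, hP, hk⟩ := h φ hφ hbad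
  exact ⟨P, hF hP, hk⟩

theorem cv_zero (F : Set (Submodule ℤ (Fin r → ℤ))) : Cv K ρ ε F (0 : A) := fun φ _ hbad =>
  absurd ⟨∅, by simp, Submodule.zero_mem _⟩ hbad

theorem cv_add (hs : ∀ g : G, Semi K (ac g : A ≃+ A))
    (hsc : ∀ g : G, ρ g = 1 → ∃ c : K, ∀ a : A, g • a = c • a)
    (hρ : ∀ v : Fin r → ℤ, ∃ g : G, ρ g = ε (Multiplicative.ofAdd v))
    {F : Set (Submodule ℤ (Fin r → ℤ))} {a b : A} (ha : Cv K ρ ε F a) (hb : Cv K ρ ε F b) :
    Cv K ρ ε F (a + b) := by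
  intro φ hφ hbad
  by_contra hcon
  have h1 : GoodE K ρ ε φ a := by
    by_contra h; exact hcon (ha φ hφ h)
  have h2 : GoodE K ρ ε φ b := by
    by_contra h; exact hcon (hb φ hφ h)
  apply hbad
  apply good_two hs hsc hρ h1 h2
  exact Submodule.add_mem_sup (mem_tr_self (Set.mem_univ _) a)
    (mem_tr_self (Set.mem_univ _) b)

theorem cv_smul (hs : ∀ g : G, Semi K (ac g : A ≃+ A))
    (hsc : ∀ g : G, ρ g = 1 → ∃ c : K, ∀ a : A, g • a = c • a)
    (hρ : ∀ v : Fin r → ℤ, ∃ g : G, ρ g = ε (Multiplicative.ofAdd v))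
    {F : Set (Submodule ℤ (Fin r → ℤ))} (k : K) {a : A} (ha : Cv K ρ ε F a) :
    Cv K ρ ε F (k • a) := by
  intro φ hφ hbad
  by_contra hcon
  have h1 : GoodE K ρ ε φ a := by
    by_contra h; exact hcon (ha φ hφ h)
  exact hbad (good_all hs hsc hρ h1 _
    (Submodule.smul_mem _ k (mem_tr_self (Set.mem_univ _) a)))

theorem cv_span (hs : ∀ g : G, Semi K (ac g : A ≃+ A))
    (hsc : ∀ g : G, ρ g = 1 → ∃ c : K, ∀ a : A, g • a = c • a)
    (hρ : ∀ v : Fin r → ℤ, ∃ g : G, ρ g = ε (Multiplicative.ofAdd v))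
    {F : Set (Submodule ℤ (Fin r → ℤ))} {S : Set A} (hS : ∀ s ∈ S, Cv K ρ ε F s) {w : A}
    (hw : w ∈ Submodule.span K S) : Cv K ρ ε F w := by
  induction hw using Submodule.span_induction with
  | mem x h => exact hS x h
  | zero => exact cv_zero F
  | add a b _ _ ha hb => exact cv_add hs hsc hρ ha hb
  | smul k a _ ha => exact cv_smul hs hsc hρ k ha

theorem cv_g (hs : ∀ g : G, Semi K (ac g : A ≃+ A)) {g : G}
    {M : (Fin r → ℤ) ≃+ (Fin r → ℤ)}
    (hM : ∀ v, ρ g * ε (Multiplicative.ofAdd v) * (ρ g)⁻¹ = ε (Multiplicative.ofAdd (M v)))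
    {F : Set (Submodule ℤ (Fin r → ℤ))} {a : A} (ha : Cv K ρ ε F a) :
    Cv K ρ ε (mp M '' F) (g • a) := by
  intro φ hφ hbad
  have h1 : ¬ GoodE K ρ ε (φ.comp M.toAddMonoidHom) a := fun h => hbad (good_smul hs hM h)
  have h2 : φ.comp M.toAddMonoidHom ≠ 0 := by
    intro h0
    apply hφ
    apply AddMonoidHom.ext
    intro v
    have h3 := congrArg (fun f : (Fin r → ℤ) →+ ℝ => f (M.symm v)) h0
    have h4 : φ (M (M.symm v)) = 0 := h3
    rw [M.apply_symm_apply] at h4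
    exact h4
  obtain ⟨P, hP, hk⟩ := ha _ h2 h1
  refine ⟨mp M P, ⟨P, hP, rfl⟩, ?_⟩
  intro v hv
  obtain ⟨u, hu, rfl⟩ := mem_mp.mp hv
  exact hk u hu

/-- the hull: a finite cover all of whose members contain members of every other cover. -/
theorem hull_exists {W : Set A} (F0 : Set (Submodule ℤ (Fin r → ℤ))) (hF0 : F0.Finite)
    (hW : ∀ w ∈ W, Cv K ρ ε F0 w) :
    ∃ H : Set (Submodule ℤ (Fin r → ℤ)), H.Finite ∧ (∀ w ∈ W, Cv K ρ ε H w) ∧
      ∀ F : Set (Submodule ℤ (Fin r → ℤ)), F.Finite → (∀ w ∈ W, Cv K ρ ε F w) →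
        ∀ P0 ∈ H, ∃ P ∈ F, P ≤ P0 := by
  classical
  let α := (Submodule ℤ (Fin r → ℤ))ᵒᵈ
  let st : Multiset α → Set (Submodule ℤ (Fin r → ℤ)) := fun PP => {P | OrderDual.toDual P ∈ PP}
  let 𝒮 : Set (Multiset α) := {PP | ∀ w ∈ W, Cv K ρ ε (st PP) w}
  have hne : 𝒮.Nonempty := by
    refine ⟨hF0.toFinset.val.map OrderDual.toDual, fun w hw => (hW w hw).mono ?_⟩
    intro P hP
    show OrderDual.toDual P ∈ _
    exact Multiset.mem_map.mpr ⟨P, (hF0.mem_toFinset).mpr hP, rfl⟩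
  have hwf : WellFounded (Multiset.IsDershowitzMannaLT : Multiset α → Multiset α → Prop) :=
    Multiset.wellFounded_isDershowitzMannaLT
  obtain ⟨PP, hPP, hmin⟩ := hwf.has_min 𝒮 hne
  refine ⟨st PP, ?_, hPP, ?_⟩
  · have : st PP = ((PP.map OrderDual.ofDual).toFinset : Set (Submodule ℤ (Fin r → ℤ))) := by
      ext P
      rw [Finset.mem_coe, Multiset.mem_toFinset, Multiset.mem_map]
      constructor
      · intro h; exact ⟨_, h, rfl⟩
      · rintro ⟨a, ha, rfl⟩; exact ha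
    rw [this]
    exact Finset.finite_toSet _
  · intro F hF hFc P0 hP0
    by_contra hcon
    push Not at hcon
    let QQ : Multiset (Submodule ℤ (Fin r → ℤ)) := hF.toFinset.val
    have hQQ : ∀ P, P ∈ QQ ↔ P ∈ F := fun P => hF.mem_toFinset
    apply hmin (PP.erase (OrderDual.toDual P0) + QQ.map fun P => OrderDual.toDual (P0 ⊔ P))
    · intro w hw φ hφ hbad
      obtain ⟨P, hP, hkP⟩ := hPP w hw φ hφ hbad
      obtain ⟨P', hP', hkP'⟩ := hFc w hw φ hφ hbad
      by_cases hPP' : P = P0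
      · subst hPP'
        refine ⟨P ⊔ P', Multiset.mem_add.mpr (Or.inr (Multiset.mem_map.mpr
          ⟨P', (hQQ P').mpr hP', rfl⟩)), ?_⟩
        intro v hv
        obtain ⟨u, hu, u', hu', rfl⟩ := Submodule.mem_sup.mp hv
        rw [map_add, hkP u hu, hkP' u' hu', add_zero]
      · exact ⟨P, Multiset.mem_add.mpr (Or.inl ((Multiset.mem_erase_of_ne
          (fun h => hPP' (OrderDual.toDual.injective h))).mpr hP)), hkP⟩
    · refine ⟨PP.erase (OrderDual.toDual P0), _, {OrderDual.toDual P0}, ?_, rfl, ?_, ?_⟩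
      · exact Multiset.singleton_ne_zero _
      · rw [add_comm, Multiset.singleton_add, Multiset.cons_erase hP0]
      · intro y hy
        obtain ⟨P', hP', rfl⟩ := Multiset.mem_map.mp hy
        refine ⟨OrderDual.toDual P0, Multiset.mem_singleton_self _, ?_⟩
        show P0 < P0 ⊔ P'
        refine lt_of_le_of_ne le_sup_left ?_
        intro heq
        exact hcon P' ((hQQ P').mp hP') (le_trans le_sup_right (le_of_eq heq.symm))

/-- a common cover for a finite dimensional subspace. -/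
theorem fd_cover (hs : ∀ g : G, Semi K (ac g : A ≃+ A))
    (hsc : ∀ g : G, ρ g = 1 → ∃ c : K, ∀ a : A, g • a = c • a)
    (hρ : ∀ v : Fin r → ℤ, ∃ g : G, ρ g = ε (Multiplicative.ofAdd v))
    {U : Set (Submodule ℤ (Fin r → ℤ))} {W : Submodule K A} [FiniteDimensional K W]
    (hW : ∀ w ∈ W, ∃ F : Set (Submodule ℤ (Fin r → ℤ)), F.Finite ∧ F ⊆ U ∧ Cv K ρ ε F w) :
    ∃ F : Set (Submodule ℤ (Fin r → ℤ)), F.Finite ∧ F ⊆ U ∧ ∀ w ∈ W, Cv K ρ ε F w := by
  classical
  obtain ⟨S, hS⟩ := (Module.Finite.iff_fg (N := W)).mp inferInstance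
  have hSW : ∀ s ∈ S, s ∈ W := fun s hs => by rw [← hS]; exact Submodule.subset_span hs
  have hex : ∀ s : A, ∃ F : Set (Submodule ℤ (Fin r → ℤ)), F.Finite ∧ F ⊆ U ∧
      (s ∈ S → Cv K ρ ε F s) := by
    intro s
    by_cases h : s ∈ S
    · obtain ⟨F, h1, h2, h3⟩ := hW s (hSW s h)
      exact ⟨F, h1, h2, fun _ => h3⟩
    · exact ⟨∅, Set.finite_empty, Set.empty_subset _, fun h' => absurd h' h⟩
  choose F h1 h2 h3 using hex
  refine ⟨⋃ s ∈ S, F s, S.finite_toSet.biUnion (fun s _ => h1 s), Set.iUnion₂_subset fun s _ => h2 s,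
    ?_⟩
  intro w hw
  rw [← hS] at hw
  apply cv_span hs hsc hρ _ hw
  intro s hs'
  exact (h3 s hs').mono (Set.subset_biUnion_of_mem (u := F) (Finset.mem_coe.mpr hs'))

/-- elements with finite covers inside `U`. -/
def Lev (hs : ∀ g : G, Semi K (ac g : A ≃+ A))
    (hsc : ∀ g : G, ρ g = 1 → ∃ c : K, ∀ a : A, g • a = c • a)
    (hρ : ∀ v : Fin r → ℤ, ∃ g : G, ρ g = ε (Multiplicative.ofAdd v))
    (U : Set (Submodule ℤ (Fin r → ℤ))) : Submodule K A where
  carrier := {w | ∃ F : Set (Submodule ℤ (Fin r → ℤ)), F.Finite ∧ F ⊆ U ∧ Cv K ρ ε F w}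
  add_mem' := by
    rintro a b ⟨F, h1, h2, h3⟩ ⟨F', h1', h2', h3'⟩
    exact ⟨F ∪ F', h1.union h1', Set.union_subset h2 h2',
      cv_add hs hsc hρ (h3.mono Set.subset_union_left) (h3'.mono Set.subset_union_right)⟩
  zero_mem' := ⟨∅, Set.finite_empty, Set.empty_subset _, cv_zero _⟩
  smul_mem' := by
    rintro k a ⟨F, h1, h2, h3⟩
    exact ⟨F, h1, h2, cv_smul hs hsc hρ k h3⟩

theorem mem_Lev {hs : ∀ g : G, Semi K (ac g : A ≃+ A)}
    {hsc : ∀ g : G, ρ g = 1 → ∃ c : K, ∀ a : A, g • a = c • a}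
    {hρ : ∀ v : Fin r → ℤ, ∃ g : G, ρ g = ε (Multiplicative.ofAdd v)}
    {U : Set (Submodule ℤ (Fin r → ℤ))} {w : A} : w ∈ Lev hs hsc hρ U ↔
      ∃ F : Set (Submodule ℤ (Fin r → ℤ)), F.Finite ∧ F ⊆ U ∧ Cv K ρ ε F w := Iff.rfl

/-- I-TORS: the bad elements of a torsion system without finite dimensional subspaces have
powers conjugate into finitely many subgroups of infinite index. -/
theorem itors (hs : ∀ g : G, Semi K (ac g : A ≃+ A))
    (hsc : ∀ g : G, ρ g = 1 → ∃ c : K, ∀ a : A, g • a = c • a)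
    (hρ : ∀ v : Fin r → ℤ, ∃ g : G, ρ g = ε (Multiplicative.ofAdd v)) (hP : Plinth Q r ε)
    (hN : NoethFor (Set.univ : Set G) (⊤ : Submodule K A))
    (htors : ∀ w : A, Tors (K := K) ρ ε w)
    (hno : ∀ W : Submodule K A, FiniteDimensional K W → St (ε.range.comap ρ) W → W = ⊥) :
    ∃ Ls : Set (Subgroup Q), Ls.Finite ∧ (∀ L ∈ Ls, ε.range ≤ L ∧ L.index = 0) ∧
      ∀ (g : G) (W : Submodule K A), W ≠ ⊥ → FiniteDimensional K W →
        Stable (ac g : A ≃+ A) W → ∃ n : ℕ, 0 < n ∧ ∃ q : Q, ∃ L ∈ Ls, q⁻¹ * ρ g ^ n * q ∈ L := by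
  classical
  -- conjugation matrices
  have hMex := fun q => conj_mat ε hP.inj hP.normal q
  choose Mq hMq using hMex
  have hinj : ∀ v w : Fin r → ℤ, ε (Multiplicative.ofAdd v) = ε (Multiplicative.ofAdd w) →
      v = w := fun v w h => Multiplicative.ofAdd.injective (hP.inj h)
  have hMmul : ∀ q q' v, Mq (q * q') v = Mq q (Mq q' v) := by
    intro q q' v
    apply hinj
    rw [← hMq, ← hMq, ← hMq]
    group
  have hMone : ∀ v, Mq 1 v = v := by
    intro v
    apply hinj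
    rw [← hMq]; group
  have hMrange : ∀ q ∈ ε.range, ∀ v, Mq q v = v := by
    rintro q ⟨u, rfl⟩ v
    apply hinj
    rw [← hMq, ← map_mul, mul_comm, map_mul, mul_assoc, mul_inv_cancel, mul_one]
  have hmpmul : ∀ q q' P, mp (Mq (q * q')) P = mp (Mq q) (mp (Mq q') P) := by
    intro q q' P
    ext v
    rw [mem_mp, mem_mp]
    constructor
    · rintro ⟨u, hu, rfl⟩
      exact ⟨Mq q' u, mp_mem.mpr hu, (hMmul q q' u).symm⟩
    · rintro ⟨w, hw, rfl⟩
      obtain ⟨u, hu, rfl⟩ := mem_mp.mp hw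
      exact ⟨u, hu, hMmul q q' u⟩
  have hmpone : ∀ P, mp (Mq 1) P = P := by
    intro P
    ext v
    rw [mem_mp]
    constructor
    · rintro ⟨u, hu, rfl⟩; rwa [hMone]
    · intro h; exact ⟨v, h, hMone v⟩
  -- levels
  let Uk : ℕ → Set (Submodule ℤ (Fin r → ℤ)) := fun m => {P | m ≤ finrank ℤ P}
  let Lv : ℕ → Submodule K A := fun m => Lev hs hsc hρ (Uk m)
  have hLv1 : Lv 1 = ⊤ := by
    rw [eq_top_iff]
    intro w _
    obtain ⟨D, hD0, hD⟩ := tors_cover hs hsc hρ (htors w)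
    refine ⟨(fun d => Submodule.span ℤ {d}) '' (D : Set (Fin r → ℤ)),
      D.finite_toSet.image _, ?_, ?_⟩
    · rintro _ ⟨d, hd, rfl⟩
      apply one_le_rank
      intro h0
      exact hD0 d hd (Submodule.span_singleton_eq_bot.mp h0)
    · intro φ hφ hbad
      by_contra hcon
      apply hbad
      apply hD
      intro d hd h0
      apply hcon
      refine ⟨_, ⟨d, hd, rfl⟩, ?_⟩
      intro v hv
      obtain ⟨n, rfl⟩ := Submodule.mem_span_singleton.mp hv
      rw [map_zsmul, h0, smul_zero]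
  have hLvr : ∀ m, r ≤ m → Lv m = ⊥ := by
    intro m hm
    rw [eq_bot_iff]
    rintro w ⟨F, -, hFU, hF⟩
    have hfd : FiniteDimensional K (tr ρ ε Set.univ w : Submodule K A) := by
      apply all_good_fd hs hsc hρ
      intro φ hφ
      by_contra hbad
      obtain ⟨P, hP', hk⟩ := hF φ hφ hbad
      apply hφ
      apply AddMonoidHom.ext
      intro v
      have h1 : v ∈ isol P := by
        rw [isol_rank_top (hm.trans (hFU hP'))]; exact Submodule.mem_top
      obtain ⟨n, hn, hv⟩ := h1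
      have h2 := hk _ hv
      rw [map_zsmul, zsmul_eq_mul] at h2
      rcases mul_eq_zero.mp h2 with h3 | h3
      · exact absurd (by exact_mod_cast h3) hn
      · exact h3
    have hst : St (ε.range.comap ρ) (tr ρ ε Set.univ w : Submodule K A) := by
      rintro g ⟨u, hu⟩ x hx
      exact smul_tr_shift hs (v := Multiplicative.toAdd u) hu.symm (fun f _ => Set.mem_univ _) hx
    have hbot := hno _ hfd hst
    have hmem : w ∈ (tr ρ ε Set.univ w : Submodule K A) := mem_tr_self (Set.mem_univ _) w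
    rw [hbot] at hmem
    exact hmem
  have hLvst : ∀ m, ∀ g : G, ∀ x ∈ Lv m, g • x ∈ Lv m := by
    rintro m g x ⟨F, h1, h2, h3⟩
    refine ⟨mp (Mq (ρ g)) '' F, h1.image _, ?_, cv_g hs (hMq (ρ g)) h3⟩
    rintro _ ⟨P, hP', rfl⟩
    show m ≤ finrank ℤ (mp (Mq (ρ g)) P)
    rw [rank_mp]; exact h2 hP'
  have hgen := fun m => noeth_fg hs hN (Lv m) (hLvst m)
  choose S hSL hLS using hgen
  have hcov : ∀ (m : ℕ) (s : A), ∃ F : Set (Submodule ℤ (Fin r → ℤ)), F.Finite ∧ F ⊆ Uk m ∧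
      (s ∈ S m → Cv K ρ ε F s) := by
    intro m s
    by_cases h : s ∈ S m
    · obtain ⟨F, h1, h2, h3⟩ := hSL m s h
      exact ⟨F, h1, h2, fun _ => h3⟩
    · exact ⟨∅, Set.finite_empty, Set.empty_subset _, fun h' => absurd h' h⟩
  choose F hF1 hF2 hF3 using hcov
  let FF : ℕ → Set (Submodule ℤ (Fin r → ℤ)) := fun m => ⋃ s ∈ S m, F m s
  have hFFfin : ∀ m, (FF m).Finite := fun m => (S m).finite_toSet.biUnion (fun s _ => hF1 m s)
  -- the stabilisers
  let Lst : Submodule ℤ (Fin r → ℤ) → Subgroup Q := fun P =>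
    { carrier := {q | mp (Mq q) (isol P) = isol P}
      mul_mem' := by
        intro a b ha hb
        show mp (Mq (a * b)) (isol P) = isol P
        have ha' : mp (Mq a) (isol P) = isol P := ha
        have hb' : mp (Mq b) (isol P) = isol P := hb
        rw [hmpmul, hb', ha']
      one_mem' := hmpone _
      inv_mem' := by
        intro a ha
        show mp (Mq a⁻¹) (isol P) = isol P
        have ha' : mp (Mq a) (isol P) = isol P := ha
        conv_lhs => rw [← ha', ← hmpmul, inv_mul_cancel, hmpone] }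
  have hLst : ∀ P q, q ∈ Lst P ↔ mp (Mq q) (isol P) = isol P := fun P q => Iff.rfl
  let Ls : Set (Subgroup Q) := ⋃ m ∈ (Finset.range r : Set ℕ),
    Lst '' {P | P ∈ FF m ∧ 1 ≤ m ∧ finrank ℤ P = m}
  refine ⟨Ls, ?_, ?_, ?_⟩
  · apply (Finset.finite_toSet _).biUnion
    intro m _
    exact ((hFFfin m).subset fun P h => h.1).image _
  · intro L hL
    simp only [Ls, Set.mem_iUnion, Set.mem_image] at hL
    obtain ⟨m, hm, P, ⟨hPF, hm1, hPm⟩, rfl⟩ := hL
    have hmr : m < r := Finset.mem_range.mp hm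
    refine ⟨?_, ?_⟩
    · intro q hq
      rw [hLst]
      ext v
      rw [mem_mp]
      constructor
      · rintro ⟨u, hu, rfl⟩; rwa [hMrange q hq]
      · intro h; exact ⟨v, h, hMrange q hq v⟩
    · by_contra hidx
      have hirr := hP.irr (Lst P) hidx (isol P).toAddSubgroup (by
        intro h0
        have h1 : isol P = ⊥ := by
          rw [eq_bot_iff]
          intro v hv
          have h2 : v ∈ (isol P).toAddSubgroup := hv
          rw [h0] at h2
          exact (Submodule.mem_bot ℤ).mpr (AddSubgroup.mem_bot.mp h2)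
        have h2 := rank_isol P
        rw [h1, finrank_bot] at h2
        omega) (by
        intro q hq v hv
        refine ⟨Mq q v, ?_, hMq q v⟩
        have h1 : Mq q v ∈ mp (Mq q) (isol P) := mp_mem.mpr hv
        rw [(hLst P q).mp hq] at h1
        exact h1)
      have h3 : isol P = ⊤ := by
        rw [eq_top_iff]
        intro v _
        obtain ⟨n, hn, hnv⟩ := hirr v
        rw [← isol_isol]
        refine ⟨n, by exact_mod_cast hn.ne', ?_⟩
        have : ((n : ℤ) • v) = n • v := natCast_zsmul v n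
        rw [this]; exact hnv
      have h4 := rank_isol P
      rw [h3, finrank_top] at h4
      simp at h4
      omega
  · intro g W hW0 hWfd hWst
    have hWst' : ∀ (k : ℕ) (w : A), g ^ k • w ∈ W ↔ w ∈ W := by
      intro k
      induction k with
      | zero => intro w; rw [pow_zero, one_smul]
      | succ k ih =>
        intro w
        rw [pow_succ, mul_smul, ih]
        exact hWst w
    -- the level
    have hex : ∃ k, ¬ W ≤ Lv k := ⟨r, fun h => by
      rw [hLvr r le_rfl] at h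
      exact hW0 (eq_bot_iff.mpr h)⟩
    let k0 := Nat.find hex
    have hk0 : ¬ W ≤ Lv k0 := Nat.find_spec hex
    have hk0min : ∀ k, k < k0 → W ≤ Lv k := fun k hk => by
      by_contra h; exact Nat.find_min hex hk h
    have hk0r : k0 ≤ r := Nat.find_min' hex (fun h => by
      rw [hLvr r le_rfl] at h
      exact hW0 (eq_bot_iff.mpr h))
    have hk02 : 2 ≤ k0 := by
      by_contra hlt
      push Not at hlt
      apply hk0
      have : Lv k0 = ⊤ := by
        rw [eq_top_iff, ← hLv1]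
        rintro w ⟨F, h1, h2, h3⟩
        refine ⟨F, h1, fun P hP' => ?_, h3⟩
        have h4 : 1 ≤ finrank ℤ P := h2 hP'
        show k0 ≤ finrank ℤ P
        omega
      rw [this]; exact le_top
    obtain ⟨m, hm⟩ : ∃ m, k0 = m + 1 := ⟨k0 - 1, by omega⟩
    have hm1 : 1 ≤ m := by omega
    have hmr : m < r := by omega
    have hWm : W ≤ Lv m := hk0min m (by omega)
    have hWm' : ¬ W ≤ Lv (m + 1) := by rw [← hm]; exact hk0
    -- a cover by translates of the finitely many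
    let U : Set (Submodule ℤ (Fin r → ℤ)) := {P' | ∃ q : Q, ∃ P ∈ FF m, P' = mp (Mq q) P}
    have hcover : W ≤ Lev hs hsc hρ U := by
      refine hWm.trans ((hLS m).trans (Submodule.span_le.mpr ?_))
      rintro _ ⟨h, s, hs', rfl⟩
      refine ⟨mp (Mq (ρ h)) '' F m s, (hF1 m s).image _, ?_, cv_g hs (hMq (ρ h)) (hF3 m s hs')⟩
      rintro _ ⟨P, hP', rfl⟩
      exact ⟨ρ h, P, Set.mem_biUnion (Finset.mem_coe.mpr hs') hP', rfl⟩
    obtain ⟨F1, hF1fin, hF1U, hF1c⟩ := fd_cover hs hsc hρ (W := W) (fun w hw => hcover hw)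
    obtain ⟨H, hHfin, hHc, hHull⟩ := hull_exists (W := (W : Set A)) F1 hF1fin hF1c
    have hFFrank : ∀ P ∈ FF m, m ≤ finrank ℤ P := by
      intro P hP'
      simp only [FF, Set.mem_iUnion] at hP'
      obtain ⟨s, hs', h⟩ := hP'
      exact hF2 m s h
    have hHrank : ∀ P0 ∈ H, m ≤ finrank ℤ P0 := by
      intro P0 hP0
      obtain ⟨P, hP', hle⟩ := hHull F1 hF1fin hF1c P0 hP0
      obtain ⟨q, P1, hP1, rfl⟩ := hF1U hP'
      have := rank_le hle
      rw [rank_mp] at this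
      exact (hFFrank P1 hP1).trans this
    obtain ⟨P0, hP0, hP0m⟩ : ∃ P0 ∈ H, finrank ℤ P0 = m := by
      by_contra hcon
      push Not at hcon
      apply hWm'
      intro w hw
      refine ⟨H, hHfin, ?_, hHc w hw⟩
      intro P hP'
      have h1 := hHrank P hP'
      have h2 := hcon P hP'
      show m + 1 ≤ finrank ℤ P
      omega
    -- translates of the hull
    have hstep : ∀ k : ℕ, ∃ P : H, mp (Mq (ρ g ^ k)) P.1 ≤ P0 := by
      intro k
      have hc : ∀ w ∈ (W : Set A), Cv K ρ ε (mp (Mq (ρ g ^ k)) '' H) w := by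
        intro w hw
        have h1 : (g ^ k)⁻¹ • w ∈ W := by
          rw [← hWst' k, smul_inv_smul]; exact hw
        have h2 := cv_g hs (g := g ^ k) (M := Mq (ρ g ^ k)) (by
          intro v; rw [map_pow]; exact hMq _ v) (hHc _ h1)
        rwa [smul_inv_smul] at h2
      obtain ⟨P, ⟨P', hP', rfl⟩, hle⟩ := hHull _ (hHfin.image _) hc P0 hP0
      exact ⟨⟨P', hP'⟩, hle⟩
    choose Pk hPk using hstep
    have : Finite H := hHfin.to_subtype
    obtain ⟨i, j, hij, hPij⟩ := Finite.exists_ne_map_eq_of_infinite Pk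
    have heq : ∀ k, mp (Mq (ρ g ^ k)) (isol (Pk k).1) = isol P0 := by
      intro k
      rw [mp_isol]
      apply isol_eq (hPk k)
      rw [rank_mp, hP0m]
      exact hHrank _ (Pk k).2
    have hfin : ∀ i j, i < j → Pk i = Pk j → ∃ n, 0 < n ∧
        mp (Mq (ρ g ^ n)) (isol P0) = isol P0 := by
      intro i j hlt h
      refine ⟨j - i, by omega, ?_⟩
      conv_lhs => rw [← heq i]
      rw [← hmpmul, ← pow_add, h, show j - i + i = j by omega, heq j]
    obtain ⟨n, hn, hst⟩ : ∃ n, 0 < n ∧ mp (Mq (ρ g ^ n)) (isol P0) = isol P0 := by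
      rcases lt_or_gt_of_ne hij with h | h
      · exact hfin i j h hPij
      · exact hfin j i h hPij.symm
    obtain ⟨P', hP', hle⟩ := hHull F1 hF1fin hF1c P0 hP0
    obtain ⟨q, P1, hP1, rfl⟩ := hF1U hP'
    have h1 := rank_le hle
    rw [rank_mp] at h1
    have hP1m : finrank ℤ P1 = m := le_antisymm (by omega) (hFFrank P1 hP1)
    have h2 : mp (Mq q) (isol P1) = isol P0 := by
      rw [mp_isol]
      apply isol_eq hle
      rw [rank_mp]; omega
    refine ⟨n, hn, q, Lst P1, ?_, ?_⟩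
    · simp only [Ls, Set.mem_iUnion]
      exact ⟨m, Finset.mem_coe.mpr (Finset.mem_range.mpr hmr), P1, ⟨hP1, hm1, hP1m⟩, rfl⟩
    · rw [hLst, hmpmul, hmpmul, h2, hst, ← h2, ← hmpmul, inv_mul_cancel, hmpone]

end

end Pool.Agent.Helper946.S4
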