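import Mathlib
import Pool.Agent.Helper946.HCDefs

set_option autoImplicit false
set_option linter.unusedVariables false

namespace Pool.Agent.Helper946.HC

open Module


/-! job 13705 -/

theorem rad_le {K M : Type} [DivisionRing K] [AddCommGroup M] [Module K M]
    {u : M ≃+ M} (d : ℕ) {W : Submodule K M} (h : Stable u W) : rad u d W ≤ W ∧ Stable u (rad u d W) := by
  constructor
  · exact sInf_le ⟨le_rfl, h, Nat.le_add_right _ _⟩
  · intro x
    unfold rad
    rw [Submodule.mem_sInf, Submodule.mem_sInf]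
    exact ⟨fun hx V hV => (hV.2.1 x).1 (hx V hV), fun hx V hV => (hV.2.1 x).2 (hx V hV)⟩

/-! job 13706 -/

theorem stable_pow {K M : Type} [DivisionRing K] [AddCommGroup M] [Module K M]
    {u u' : M ≃+ M} {V : Submodule K M} (h : Stable u V) (n : ℕ)
    (hu' : ∀ x, u' x = (⇑u)^[n] x) : Stable u' V := by
  have key : ∀ (m : ℕ) (x : M), (⇑u)^[m] x ∈ V ↔ x ∈ V := by
    intro m
    induction m with
    | zero => intro x; exact Iff.rfl
    | succ m ih =>
      intro x
      rw [Function.iterate_succ_apply']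
      exact (h _).trans (ih x)
  intro x
  rw [hu' x]
  exact key n x

/-! job 13707 -/

theorem rad_mono {K M : Type} [DivisionRing K] [AddCommGroup M] [Module K M]
    {u : M ≃+ M} {d d' : ℕ} (hd : d ≤ d') {V W : Submodule K M} (hVW : V ≤ W)
    [FiniteDimensional K W] (hV : Stable u V) :
    rad u d' V ≤ rad u d W := by
  unfold rad
  refine le_sInf ?_
  rintro V1 ⟨h1, h2, h3⟩
  refine (sInf_le ?_).trans (inf_le_right : V ⊓ V1 ≤ V1)
  refine ⟨inf_le_left, ?_, ?_⟩
  · intro x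
    have := hV x
    have := h2 x
    simp only [Submodule.mem_inf]
    tauto
  · haveI : FiniteDimensional K V := Submodule.finiteDimensional_of_le hVW
    haveI : FiniteDimensional K V1 := Submodule.finiteDimensional_of_le h1
    have h4 := Submodule.finrank_sup_add_finrank_inf_eq V V1
    have h5 : finrank K (V ⊔ V1 : Submodule K M) ≤ finrank K W :=
      Submodule.finrank_mono (sup_le hVW h1)
    omega

/-! job 13708 -/

theorem radi_le {K M : Type} [DivisionRing K] [AddCommGroup M] [Module K M]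
    {u : M ≃+ M} (l d : ℕ) {W : Submodule K M} (h : Stable u W) :
    (rad u d)^[l] W ≤ W ∧ Stable u ((rad u d)^[l] W) := by
  induction l with
  | zero => exact ⟨le_refl _, h⟩
  | succ l ih =>
    rw [Function.iterate_succ_apply']
    obtain ⟨h1, h2⟩ := rad_le d ih.2
    exact ⟨h1.trans ih.1, h2⟩

/-! job 13709 -/

theorem bdd_small {K M : Type} [DivisionRing K] [AddCommGroup M] [Module K M]
    {u : M ≃+ M} {d : ℕ} {W : Submodule K M} [FiniteDimensional K W] (h : finrank K W ≤ d) :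
    Bdd u 1 d W := by
  show rad u d W = ⊥
  rw [eq_bot_iff]
  refine sInf_le ⟨bot_le, ?_, ?_⟩
  · intro x
    rw [Submodule.mem_bot, Submodule.mem_bot]
    exact map_eq_zero_iff u u.injective
  · rw [finrank_bot, Nat.zero_add]
    exact h

/-! job 13712 -/

theorem radi_mono {K M : Type} [DivisionRing K] [AddCommGroup M] [Module K M]
    {u : M ≃+ M} {l l' d d' : ℕ} (hl : l ≤ l') (hd : d ≤ d') {V W : Submodule K M} (hVW : V ≤ W)
    [FiniteDimensional K W] (hV : Stable u V) (hW : Stable u W) :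
    (rad u d')^[l'] V ≤ (rad u d)^[l] W := by
  have h1 : ∀ l : ℕ, (rad u d')^[l] V ≤ (rad u d)^[l] W := by
    intro l
    induction l with
    | zero => exact hVW
    | succ l ih =>
      rw [Function.iterate_succ_apply', Function.iterate_succ_apply']
      haveI : FiniteDimensional K ((rad u d)^[l] W : Submodule K M) :=
        Submodule.finiteDimensional_of_le (radi_le l d hW).1
      exact rad_mono hd ih (radi_le l d' hV).2
  have h2 : (rad u d')^[l'] V ≤ (rad u d')^[l] V := by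
    obtain ⟨k, rfl⟩ := Nat.exists_eq_add_of_le hl
    rw [add_comm, Function.iterate_add_apply]
    exact (radi_le k d' (radi_le l d' hV).2).1
  exact h2.trans (h1 l)

/-! job 13710 -/

theorem radi_map_key {K K₂ M M₂ : Type} [DivisionRing K] [DivisionRing K₂] [AddCommGroup M]
    [AddCommGroup M₂] [Module K M] [Module K₂ M₂] (τ : K ≃+* K₂) (φ : M →+ M₂)
    {u : M ≃+ M} {u₂ : M₂ ≃+ M₂} {W : Submodule K M} [FiniteDimensional K W] (hW : Stable u W)
    (hφ : ∀ (k : K), ∀ x ∈ W, φ (k • x) = τ k • φ x)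
    (hu : ∀ x ∈ W, ∃ c : K₂, c ≠ 0 ∧ φ (u x) = c • u₂ (φ x))
    (W₂ : Submodule K₂ M₂) (hW₂ : ∀ y, y ∈ W₂ ↔ ∃ x ∈ W, φ x = y) (d : ℕ) :
    (∀ x ∈ rad u d W, φ x ∈ rad u₂ d W₂) ∧ FiniteDimensional K₂ W₂ := by
  letI : Module K M₂ := Module.compHom M₂ (τ : K →+* K₂)
  let tr : Submodule K₂ M₂ → Submodule K M₂ := fun U =>
    { carrier := U
      add_mem' := U.add_mem
      zero_mem' := U.zero_mem
      smul_mem' := fun k y hy => U.smul_mem (τ k) hy }
  have htrm : ∀ (U : Submodule K₂ M₂) (y : M₂), y ∈ tr U ↔ y ∈ U := fun U y => Iff.rfl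
  have hrk : ∀ U : Submodule K₂ M₂, Module.rank K (tr U) = Module.rank K₂ U := by
    intro U
    let j : (tr U) ≃+ U :=
      { toFun := fun y => ⟨y.1, y.2⟩
        invFun := fun y => ⟨y.1, y.2⟩
        left_inv := fun y => rfl
        right_inv := fun y => rfl
        map_add' := fun y z => rfl }
    exact rank_eq_of_equiv_equiv τ j τ.bijective (fun r m => rfl)
  have htr : ∀ U : Submodule K₂ M₂, finrank K (tr U) = finrank K₂ U := by
    intro U
    unfold finrank
    rw [hrk U]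
  let f : W →ₗ[K] M₂ :=
    { toFun := fun w => φ w.1
      map_add' := fun a b => by
        show φ (a.1 + b.1) = _
        rw [map_add]
      map_smul' := fun k w => by
        show φ (k • w.1) = τ k • φ w.1
        exact hφ k w.1 w.2 }
  have hrf : LinearMap.range f = tr W₂ := by
    ext y
    rw [LinearMap.mem_range, htrm, hW₂]
    constructor
    · rintro ⟨w, rfl⟩; exact ⟨w.1, w.2, rfl⟩
    · rintro ⟨x, hx, rfl⟩; exact ⟨⟨x, hx⟩, rfl⟩
  haveI hfdt : FiniteDimensional K (tr W₂) := by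
    rw [← hrf]; infer_instance
  have hfd2 : FiniteDimensional K₂ W₂ := by
    have h1 : Module.rank K (tr W₂) < Cardinal.aleph0 := Module.rank_lt_aleph0 K _
    rw [hrk W₂] at h1
    exact Module.rank_lt_aleph0_iff.1 h1
  refine ⟨?_, hfd2⟩
  intro x hx
  unfold rad
  rw [Submodule.mem_sInf]
  rintro V₂ ⟨hV₂W₂, hst, hdim⟩
  let g : W →ₗ[K] (M₂ ⧸ tr V₂) := (tr V₂).mkQ ∘ₗ f
  let h : (tr W₂) →ₗ[K] (M₂ ⧸ tr V₂) := (tr V₂).mkQ ∘ₗ (tr W₂).subtype
  have hrange : LinearMap.range h = LinearMap.range g := by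
    show LinearMap.range ((tr V₂).mkQ ∘ₗ (tr W₂).subtype) = LinearMap.range ((tr V₂).mkQ ∘ₗ f)
    rw [LinearMap.range_comp, LinearMap.range_comp, hrf, Submodule.range_subtype]
  have hkerh : (LinearMap.ker h).map (tr W₂).subtype = tr V₂ := by
    ext y
    rw [Submodule.mem_map]
    constructor
    · rintro ⟨w, hw, rfl⟩
      rw [LinearMap.mem_ker] at hw
      exact (Submodule.Quotient.mk_eq_zero _).1 hw
    · intro hy
      refine ⟨⟨y, hV₂W₂ hy⟩, ?_, rfl⟩
      rw [LinearMap.mem_ker]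
      exact (Submodule.Quotient.mk_eq_zero _).2 hy
  let V : Submodule K M := (LinearMap.ker g).map W.subtype
  have hVm : ∀ y, y ∈ V ↔ y ∈ W ∧ φ y ∈ V₂ := by
    intro y
    rw [Submodule.mem_map]
    constructor
    · rintro ⟨w, hw, rfl⟩
      rw [LinearMap.mem_ker] at hw
      exact ⟨w.2, (Submodule.Quotient.mk_eq_zero _).1 hw⟩
    · rintro ⟨hy, hy2⟩
      refine ⟨⟨y, hy⟩, ?_, rfl⟩
      rw [LinearMap.mem_ker]
      exact (Submodule.Quotient.mk_eq_zero _).2 hy2
  have e1 := LinearMap.finrank_range_add_finrank_ker g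
  have e2 := LinearMap.finrank_range_add_finrank_ker h
  have e3 : finrank K V = finrank K (LinearMap.ker g) := Submodule.finrank_map_subtype_eq W _
  have e4 : finrank K (tr V₂) = finrank K (LinearMap.ker h) := by
    have e7 := Submodule.finrank_map_subtype_eq (tr W₂) (LinearMap.ker h)
    rwa [hkerh] at e7
  rw [hrange] at e2
  have e5 := htr W₂
  have e6 := htr V₂
  have hVmem : V ∈ {V | V ≤ W ∧ Stable u V ∧ finrank K W ≤ finrank K V + d} := by
    refine ⟨fun y hy => ((hVm y).1 hy).1, ?_, by omega⟩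
    intro y
    rw [hVm, hVm]
    constructor
    · rintro ⟨h1, h2⟩
      have hy : y ∈ W := (hW y).1 h1
      obtain ⟨c, hc, hc2⟩ := hu y hy
      refine ⟨hy, (hst _).1 ?_⟩
      rw [hc2] at h2
      exact (Submodule.smul_mem_iff _ hc).1 h2
    · rintro ⟨h1, h2⟩
      obtain ⟨c, hc, hc2⟩ := hu y h1
      refine ⟨(hW y).2 h1, ?_⟩
      rw [hc2]
      exact V₂.smul_mem c ((hst _).2 h2)
  have hxV : x ∈ V := by
    unfold rad at hx
    rw [Submodule.mem_sInf] at hx
    exact hx V hVmem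
  exact ((hVm x).1 hxV).2

theorem radi_map_st {K K₂ M M₂ : Type} [DivisionRing K] [DivisionRing K₂] [AddCommGroup M]
    [AddCommGroup M₂] [Module K M] [Module K₂ M₂] (φ : M →+ M₂)
    {u : M ≃+ M} {u₂ : M₂ ≃+ M₂} (hs : Semi K₂ u₂) {W : Submodule K M} (hW : Stable u W)
    (hu : ∀ x ∈ W, ∃ c : K₂, c ≠ 0 ∧ φ (u x) = c • u₂ (φ x))
    (W₂ : Submodule K₂ M₂) (hW₂ : ∀ y, y ∈ W₂ ↔ ∃ x ∈ W, φ x = y) : Stable u₂ W₂ := by
  intro y
  constructor
  · intro hy
    obtain ⟨z, hz, hzy⟩ := (hW₂ _).1 hy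
    have hz' : u.symm z ∈ W := by
      rw [← hW, AddEquiv.apply_symm_apply]; exact hz
    obtain ⟨c, hc, hc2⟩ := hu _ hz'
    rw [AddEquiv.apply_symm_apply, hzy] at hc2
    obtain ⟨σ, hσ⟩ := hs
    have h1 : u₂ y = u₂ (σ.symm c • φ (u.symm z)) := by
      rw [hσ, RingEquiv.apply_symm_apply]; exact hc2
    rw [u₂.injective h1]
    exact W₂.smul_mem _ ((hW₂ _).2 ⟨_, hz', rfl⟩)
  · intro hy
    obtain ⟨z, hz, hzy⟩ := (hW₂ _).1 hy
    obtain ⟨c, hc, hc2⟩ := hu _ hz
    have h1 : c • u₂ (φ z) ∈ W₂ := by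
      rw [← hc2]; exact (hW₂ _).2 ⟨_, (hW z).2 hz, rfl⟩
    rw [← hzy]
    exact (Submodule.smul_mem_iff _ hc).1 h1

/-- functoriality of the radical series. -/
theorem radi_map {K K₂ M M₂ : Type} [DivisionRing K] [DivisionRing K₂] [AddCommGroup M]
    [AddCommGroup M₂] [Module K M] [Module K₂ M₂] (τ : K ≃+* K₂) (φ : M →+ M₂)
    {u : M ≃+ M} {u₂ : M₂ ≃+ M₂} (hs : Semi K₂ u₂)
    {W : Submodule K M} [FiniteDimensional K W] (hW : Stable u W)
    (hφ : ∀ (k : K), ∀ x ∈ W, φ (k • x) = τ k • φ x)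
    (hu : ∀ x ∈ W, ∃ c : K₂, c ≠ 0 ∧ φ (u x) = c • u₂ (φ x))
    (W₂ : Submodule K₂ M₂) (hW₂ : ∀ y, y ∈ W₂ ↔ ∃ x ∈ W, φ x = y) (l d : ℕ) :
    ∀ x ∈ (rad u d)^[l] W, φ x ∈ (rad u₂ d)^[l] W₂ := by
  induction l generalizing W W₂ with
  | zero =>
    intro x hx
    exact (hW₂ _).2 ⟨x, hx, rfl⟩
  | succ l ih =>
    intro x hx
    rw [Function.iterate_succ_apply] at hx ⊢
    obtain ⟨hkey, hfd2⟩ := radi_map_key τ φ hW hφ hu W₂ hW₂ d
    have hr := rad_le d hW
    have hst2 : Stable u₂ W₂ := radi_map_st φ hs hW hu W₂ hW₂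
    have hr2 := rad_le d hst2
    -- the image of the radical
    let W₃ : Submodule K₂ M₂ :=
      { carrier := {y | ∃ x ∈ rad u d W, φ x = y}
        add_mem' := by
          rintro a b ⟨x, hx, rfl⟩ ⟨y, hy, rfl⟩
          exact ⟨x + y, Submodule.add_mem _ hx hy, map_add _ _ _⟩
        zero_mem' := ⟨0, Submodule.zero_mem _, map_zero _⟩
        smul_mem' := by
          rintro c a ⟨x, hx, rfl⟩
          refine ⟨τ.symm c • x, Submodule.smul_mem _ _ hx, ?_⟩
          rw [hφ _ _ (hr.1 hx), RingEquiv.apply_symm_apply] }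
    have hW₃ : ∀ y, y ∈ W₃ ↔ ∃ x ∈ rad u d W, φ x = y := fun y => Iff.rfl
    haveI : FiniteDimensional K (rad u d W) := Submodule.finiteDimensional_of_le hr.1
    haveI : FiniteDimensional K₂ (rad u₂ d W₂) := Submodule.finiteDimensional_of_le hr2.1
    have hst3 : Stable u₂ W₃ := radi_map_st φ hs hr.2 (fun x hx => hu x (hr.1 hx)) W₃ hW₃
    have h1 := ih hr.2 (fun k x hx => hφ k x (hr.1 hx)) (fun x hx => hu x (hr.1 hx)) W₃ hW₃ x hx
    have hle : W₃ ≤ rad u₂ d W₂ := by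
      rintro y ⟨x, hx, rfl⟩
      exact hkey x hx
    exact radi_mono le_rfl le_rfl hle hst3 hr2.2 h1

/-! job 13711 -/

theorem bdd_mono {K M : Type} [DivisionRing K] [AddCommGroup M] [Module K M]
    {u : M ≃+ M} {l l' d d' : ℕ} (hl : l ≤ l') (hd : d ≤ d') {V W : Submodule K M} (hVW : V ≤ W)
    [FiniteDimensional K W] (hV : Stable u V) (hW : Stable u W) (h : Bdd u l d W) :
    Bdd u l' d' V := by
  unfold Bdd at h ⊢
  rw [eq_bot_iff, ← h]
  exact radi_mono hl hd hVW hV hW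

/-! job 13713 -/

/-- extensions. -/
theorem bdd_ext {K K₂ M M₂ : Type} [DivisionRing K] [DivisionRing K₂] [AddCommGroup M]
    [AddCommGroup M₂] [Module K M] [Module K₂ M₂] (τ : K ≃+* K₂) (φ : M →+ M₂)
    {u : M ≃+ M} {u₂ : M₂ ≃+ M₂} (hs : Semi K₂ u₂) {W : Submodule K M} [FiniteDimensional K W]
    (hW : Stable u W)
    (hφ : ∀ (k : K), ∀ x ∈ W, φ (k • x) = τ k • φ x)
    (hu : ∀ x ∈ W, ∃ c : K₂, c ≠ 0 ∧ φ (u x) = c • u₂ (φ x))
    (W₂ : Submodule K₂ M₂) (hW₂ : ∀ y, y ∈ W₂ ↔ ∃ x ∈ W, φ x = y) (l₂ d : ℕ)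
    (hb : Bdd u₂ l₂ d W₂) (W₁ : Submodule K M) (hW₁ : ∀ x, x ∈ W₁ ↔ x ∈ W ∧ φ x = 0) (l₁ : ℕ)
    (hb₁ : Bdd u l₁ d W₁) : Bdd u (l₂ + l₁) d W := by
  have hle : W₁ ≤ W := fun x hx => ((hW₁ x).1 hx).1
  haveI : FiniteDimensional K W₁ := Submodule.finiteDimensional_of_le hle
  have hst : Stable u W₁ := by
    intro x
    rw [hW₁, hW₁, hW x]
    constructor
    · rintro ⟨hx, h0⟩
      refine ⟨hx, ?_⟩
      obtain ⟨c, hc, hc'⟩ := hu x hx
      rw [hc'] at h0
      have h1 : u₂ (φ x) = 0 := by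
        rcases smul_eq_zero.1 h0 with h | h
        · exact absurd h hc
        · exact h
      exact (map_eq_zero_iff u₂ u₂.injective).1 h1
    · rintro ⟨hx, h0⟩
      refine ⟨hx, ?_⟩
      obtain ⟨c, hc, hc'⟩ := hu x hx
      rw [hc', h0, map_zero, smul_zero]
  obtain ⟨hV1, hV2⟩ := radi_le l₂ d hW
  have hV3 : (rad u d)^[l₂] W ≤ W₁ := by
    intro x hx
    rw [hW₁]
    refine ⟨hV1 hx, ?_⟩
    have h1 := radi_map τ φ hs hW hφ hu W₂ hW₂ l₂ d x hx
    have h2 : (rad u₂ d)^[l₂] W₂ = ⊥ := hb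
    rw [h2] at h1
    exact (Submodule.mem_bot K₂).1 h1
  unfold Bdd
  rw [add_comm, Function.iterate_add_apply, eq_bot_iff]
  have h3 := radi_mono (le_refl l₁) (le_refl d) hV3 hV2 hst
  have h4 : (rad u d)^[l₁] W₁ = ⊥ := hb₁
  rwa [h4] at h3

/-! job 13714 -/

/-- pull back of a subspace along a semilinear automorphism. -/
def bpB {K M : Type} [DivisionRing K] [AddCommGroup M] [Module K M]
    {u : M ≃+ M} (hu : Semi K u) (V : Submodule K M) : Submodule K M where
  carrier := {x | u x ∈ V}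
  add_mem' := by
    intro a b ha hb
    show u (a + b) ∈ V
    rw [map_add]
    exact V.add_mem ha hb
  zero_mem' := by
    show u 0 ∈ V
    rw [map_zero]
    exact V.zero_mem
  smul_mem' := by
    intro c x hx
    obtain ⟨σ, hσ⟩ := hu
    show u (c • x) ∈ V
    rw [hσ]
    exact V.smul_mem _ hx

theorem bpB_rank {K M : Type} [DivisionRing K] [AddCommGroup M] [Module K M]
    {u : M ≃+ M} (hu : Semi K u) (V : Submodule K M) :
    finrank K (bpB hu V) = finrank K V := by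
  obtain ⟨σ, hσ⟩ := id hu
  let j : bpB hu V ≃+ V :=
    { toFun := fun x => ⟨u x.1, x.2⟩
      invFun := fun y => ⟨u.symm y.1, by
        show u (u.symm y.1) ∈ V
        rw [u.apply_symm_apply]
        exact y.2⟩
      left_inv := fun x => Subtype.ext (u.symm_apply_apply x.1)
      right_inv := fun y => Subtype.ext (u.apply_symm_apply y.1)
      map_add' := fun a b => Subtype.ext (map_add u a.1 b.1) }
  unfold finrank
  rw [rank_eq_of_equiv_equiv (σ : K → K) j σ.bijective (fun r m => Subtype.ext (hσ r m.1))]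

theorem bpB_iter {K M : Type} [DivisionRing K] [AddCommGroup M] [Module K M]
    {u : M ≃+ M} (hu : Semi K u) (V : Submodule K M) (n : ℕ) :
    (∀ x, x ∈ (bpB hu)^[n] V ↔ (⇑u)^[n] x ∈ V) ∧ finrank K ((bpB hu)^[n] V : Submodule K M) = finrank K V := by
  induction n with
  | zero => exact ⟨fun x => Iff.rfl, rfl⟩
  | succ n ih =>
    rw [Function.iterate_succ_apply']
    refine ⟨fun x => ?_, ?_⟩
    · rw [Function.iterate_succ_apply]
      exact ih.1 (u x)
    · rw [bpB_rank]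
      exact ih.2

theorem bp_step {K M : Type} [DivisionRing K] [AddCommGroup M] [Module K M]
    {u : M ≃+ M} (hu : Semi K u) {W V : Submodule K M} [FiniteDimensional K W] (hW : Stable u W)
    (hV : V ≤ W) {d : ℕ} (hd : finrank K W ≤ finrank K V + d) (n : ℕ) :
    ∃ A : Submodule K M, (∀ x, x ∈ A ↔ x ∈ W ∧ ∀ i < n, (⇑u)^[i] x ∈ V) ∧
      finrank K W ≤ finrank K A + n * d := by
  have hWi : ∀ i : ℕ, ∀ x, (⇑u)^[i] x ∈ W ↔ x ∈ W := by
    intro i
    induction i with
    | zero => exact fun x => Iff.rfl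
    | succ i ih =>
      intro x
      rw [Function.iterate_succ_apply, ih, hW]
  induction n with
  | zero =>
    exact ⟨W, fun x => ⟨fun h => ⟨h, fun i hi => absurd hi (Nat.not_lt_zero i)⟩, fun h => h.1⟩,
      by omega⟩
  | succ n ih =>
    obtain ⟨A, hA, hAd⟩ := ih
    obtain ⟨B, hB⟩ : ∃ B, B = (bpB hu)^[n] V := ⟨_, rfl⟩
    have hB1 : ∀ x, x ∈ B ↔ (⇑u)^[n] x ∈ V := by rw [hB]; exact (bpB_iter hu V n).1
    have hB2 : finrank K B = finrank K V := by rw [hB]; exact (bpB_iter hu V n).2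
    have hBW : B ≤ W := fun x hx => (hWi n x).1 (hV ((hB1 x).1 hx))
    have hAW : A ≤ W := fun x hx => ((hA x).1 hx).1
    have : FiniteDimensional K A := Submodule.finiteDimensional_of_le hAW
    have : FiniteDimensional K B := Submodule.finiteDimensional_of_le hBW
    have h1 := Submodule.finrank_sup_add_finrank_inf_eq A B
    have h2 : finrank K (A ⊔ B : Submodule K M) ≤ finrank K W :=
      Submodule.finrank_mono (sup_le hAW hBW)
    refine ⟨A ⊓ B, ?_, ?_⟩
    · intro x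
      rw [Submodule.mem_inf, hA, hB1]
      constructor
      · rintro ⟨⟨h3, h4⟩, h5⟩
        refine ⟨h3, fun i hi => ?_⟩
        rcases Nat.lt_succ_iff_lt_or_eq.1 hi with h6 | h6
        · exact h4 i h6
        · rw [h6]; exact h5
      · rintro ⟨h3, h4⟩
        exact ⟨⟨h3, fun i hi => h4 i (by omega)⟩, h4 n (by omega)⟩
    · rw [Nat.succ_mul]
      omega

theorem bp_rad {K M : Type} [DivisionRing K] [AddCommGroup M] [Module K M]
    {u u' : M ≃+ M} (hu : Semi K u) {W : Submodule K M} [FiniteDimensional K W] (hW : Stable u W)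
    {d m : ℕ} (hm : 0 < m) (hu' : ∀ x, u' x = (⇑u)^[m] x) :
    rad u (m * d) W ≤ rad u' d W := by
  apply le_sInf
  rintro V ⟨hVW, hVs, hVd⟩
  obtain ⟨A, hA, hAd⟩ := bp_step hu hW hVW hVd m
  have hAV : A ≤ V := fun x hx => ((hA x).1 hx).2 0 hm
  refine le_trans (sInf_le ?_) hAV
  refine ⟨fun x hx => ((hA x).1 hx).1, ?_, hAd⟩
  intro x
  have hVs' : (⇑u)^[m] x ∈ V ↔ x ∈ V := by
    rw [← hu']
    exact hVs x
  rw [hA, hA, hW]
  constructor
  · rintro ⟨h1, h2⟩
    refine ⟨h1, fun i hi => ?_⟩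
    rcases Nat.eq_zero_or_pos i with h3 | h3
    · rw [h3]
      have h4 := h2 (m - 1) (by omega)
      rw [← Function.iterate_succ_apply, Nat.succ_eq_add_one, Nat.sub_add_cancel hm] at h4
      exact hVs'.1 h4
    · have h4 := h2 (i - 1) (by omega)
      rw [← Function.iterate_succ_apply, Nat.succ_eq_add_one, Nat.sub_add_cancel h3] at h4
      exact h4
  · rintro ⟨h1, h2⟩
    refine ⟨h1, fun i hi => ?_⟩
    rw [← Function.iterate_succ_apply]
    rcases Nat.lt_or_ge (i + 1) m with h3 | h3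
    · exact h2 _ h3
    · have h4 : i.succ = m := by omega
      rw [h4]
      exact hVs'.2 (h2 0 hm)

theorem bp_iter {K M : Type} [DivisionRing K] [AddCommGroup M] [Module K M]
    {u u' : M ≃+ M} (hu : Semi K u) {d m : ℕ} (hm : 0 < m) (hu' : ∀ x, u' x = (⇑u)^[m] x) (l : ℕ) :
    ∀ (W : Submodule K M) [FiniteDimensional K W], Stable u W →
    (rad u (m * d))^[l] W ≤ (rad u' d)^[l] W := by
  induction l with
  | zero =>
    intro W _ hW
    exact le_rfl
  | succ l ih =>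
    intro W _ hW
    rw [Function.iterate_succ_apply, Function.iterate_succ_apply]
    have h1 := rad_le (m * d) hW
    have h2 := rad_le d (stable_pow hW m hu')
    have : FiniteDimensional K (rad u (m * d) W) := Submodule.finiteDimensional_of_le h1.1
    have : FiniteDimensional K (rad u' d W) := Submodule.finiteDimensional_of_le h2.1
    exact le_trans (ih _ h1.2) (radi_mono le_rfl le_rfl (bp_rad hu hW hm hu')
      (stable_pow h1.2 m hu') h2.2)

/-- from `u ^ m` to `u`. -/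
theorem bdd_pow {K M : Type} [DivisionRing K] [AddCommGroup M] [Module K M]
    {u u' : M ≃+ M} (hu : Semi K u) {W : Submodule K M} [FiniteDimensional K W] (hW : Stable u W)
    {l d m : ℕ} (hm : 0 < m) (hu' : ∀ x, u' x = (⇑u)^[m] x) (h : Bdd u' l d W) :
    Bdd u l (m * d) W := by
  have h1 := bp_iter hu (d := d) hm hu' l W hW
  rw [show (rad u' d)^[l] W = ⊥ from h] at h1
  exact le_bot_iff.1 h1

/-! job 13715 -/

/-- jointly injective families of maps into bounded spaces. -/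
theorem bdd_of_maps {K M : Type} [DivisionRing K] [AddCommGroup M]
    [Module K M] {u : M ≃+ M} {W : Submodule K M} [FiniteDimensional K W]
    (hW : Stable u W) (l d : ℕ)
    (h : ∀ x ∈ W, x ≠ 0 → ∃ (K₂ M₂ : Type) (_ : DivisionRing K₂) (_ : AddCommGroup M₂)
      (_ : Module K₂ M₂) (τ : K ≃+* K₂) (φ : M →+ M₂) (u₂ : M₂ ≃+ M₂) (W₂ : Submodule K₂ M₂),
      Semi K₂ u₂ ∧ (∀ (k : K), ∀ x ∈ W, φ (k • x) = τ k • φ x) ∧
      (∀ x ∈ W, ∃ c : K₂, c ≠ 0 ∧ φ (u x) = c • u₂ (φ x)) ∧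
      (∀ y, y ∈ W₂ ↔ ∃ x ∈ W, φ x = y) ∧ Bdd u₂ l d W₂ ∧ φ x ≠ 0) :
    Bdd u l d W := by
  unfold Bdd
  by_contra hcon
  obtain ⟨x, hx, hx0⟩ := (Submodule.ne_bot_iff _).1 hcon
  obtain ⟨K₂, M₂, _, _, _, τ, φ, u₂, W₂, hs, h1, h2, h3, h4, h5⟩ :=
    h x ((radi_le l d hW).1 hx) hx0
  have h6 := radi_map τ φ hs hW h1 h2 W₂ h3 l d x hx
  unfold Bdd at h4
  rw [h4] at h6
  exact h5 ((Submodule.mem_bot K₂).1 h6)

end Pool.Agent.Helper946.HC
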