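import Mathlib

set_option autoImplicit false

namespace Med

abbrev E := EuclideanSpace ℝ (Fin 3)

/-- explicit determinant of three vectors -/
noncomputable def dt (a b c : E) : ℝ :=
  a 0 * (b 1 * c 2 - b 2 * c 1) + a 1 * (b 2 * c 0 - b 0 * c 2) + a 2 * (b 0 * c 1 - b 1 * c 0)

/-- explicit cross product -/
noncomputable def crs (a b : E) : E :=
  !₂[a 1 * b 2 - a 2 * b 1, a 2 * b 0 - a 0 * b 2, a 0 * b 1 - a 1 * b 0]

@[simp] lemma crs0 (a b : E) : crs a b 0 = a 1 * b 2 - a 2 * b 1 := rfl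
@[simp] lemma crs1 (a b : E) : crs a b 1 = a 2 * b 0 - a 0 * b 2 := rfl
@[simp] lemma crs2 (a b : E) : crs a b 2 = a 0 * b 1 - a 1 * b 0 := rfl

lemma inr (a b : E) : inner ℝ a b = a 0 * b 0 + a 1 * b 1 + a 2 * b 2 := by
  simp [PiLp.inner_apply, Fin.sum_univ_three]; ring

lemma ext3 {a b : E} (h0 : a 0 = b 0) (h1 : a 1 = b 1) (h2 : a 2 = b 2) : a = b := by
  ext i; fin_cases i <;> assumption

@[simp] lemma ap_add (a b : E) (i : Fin 3) : (a + b) i = a i + b i := rfl
@[simp] lemma ap_sub (a b : E) (i : Fin 3) : (a - b) i = a i - b i := rfl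
@[simp] lemma ap_neg (a : E) (i : Fin 3) : (-a) i = - a i := rfl
@[simp] lemma ap_smul (r : ℝ) (a : E) (i : Fin 3) : (r • a) i = r * a i := rfl
@[simp] lemma ap_zero (i : Fin 3) : (0 : E) i = 0 := rfl

lemma inr_crs (a b c : E) : inner ℝ (crs a b) c = dt a b c := by
  rw [inr]; simp [dt]; ring

lemma crs_inr (a b c : E) : inner ℝ c (crs a b) = dt a b c := by
  rw [inr]; simp [dt]; ring

lemma dt_rot (a b c : E) : dt b c a = dt a b c := by simp [dt]; ring
lemma dt_swap (a b c : E) : dt b a c = - dt a b c := by simp [dt]; ring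
lemma dt_swap' (a b c : E) : dt a c b = - dt a b c := by simp [dt]; ring

lemma nsq (a : E) : ‖a‖ ^ 2 = a 0 ^ 2 + a 1 ^ 2 + a 2 ^ 2 := by
  rw [← real_inner_self_eq_norm_sq, inr]; ring

/-- (unnormalised) normal of the plane through a b c -/
noncomputable def nrm (a b c : E) : E := crs a b + crs b c + crs c a

lemma inr_nrm (a b c x : E) : inner ℝ (nrm a b c) x = dt a b x + dt b c x + dt c a x := by
  simp only [nrm, inner_add_left, inr_crs]

lemma nrm_a (a b c : E) : inner ℝ (nrm a b c) a = dt a b c := by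
  rw [inr_nrm]; simp [dt]; ring
lemma nrm_b (a b c : E) : inner ℝ (nrm a b c) b = dt a b c := by
  rw [inr_nrm]; simp [dt]; ring
lemma nrm_c (a b c : E) : inner ℝ (nrm a b c) c = dt a b c := by
  rw [inr_nrm]; simp [dt]; ring

lemma nrm_rot (a b c : E) : nrm b c a = nrm a b c := by
  simp only [nrm]; abel

lemma nrm_eq (a b c : E) : nrm a b c = crs (b - a) (c - a) := by
  apply ext3 <;> simp [nrm] <;> ring

/-- expansion in a basis -/
lemma basis_exp (a b c x : E) : dt a b c • x = dt b c x • a + dt c a x • b + dt a b x • c := by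
  apply ext3 <;> simp [dt] <;> ring

/-- vector with prescribed inner products -/
lemma dual_exp (a b c y : E) : dt a b c • y =
    inner ℝ y a • crs b c + inner ℝ y b • crs c a + inner ℝ y c • crs a b := by
  apply ext3 <;> simp [dt, inr] <;> ring

lemma ext_of_inr {a b c y z : E} (h : dt a b c ≠ 0) (ha : inner ℝ y a = inner ℝ z a)
    (hb : inner ℝ y b = inner ℝ z b) (hc : inner ℝ y c = inner ℝ z c) : y = z := by
  have h1 := dual_exp a b c y
  have h2 := dual_exp a b c z
  rw [ha, hb, hc, ← h2] at h1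
  exact smul_right_injective E h h1

lemma crs_self (a : E) : crs a a = 0 := by apply ext3 <;> simp <;> ring

lemma ne_of_dt {a b c : E} (h : 0 < dt a b c) : a ≠ b ∧ b ≠ c ∧ a ≠ c := by
  refine ⟨?_, ?_, ?_⟩ <;> rintro rfl <;> · exfalso; revert h; simp [dt]; ring_nf; simp

lemma unit_inr_lt {a b : E} (ha : ‖a‖ = 1) (hb : ‖b‖ = 1) (h : a ≠ b) : inner ℝ a b < 1 :=
  (inner_lt_one_iff_real_of_norm_eq_one ha hb).2 h

lemma dist_sq_unit {a b : E} (ha : ‖a‖ = 1) (hb : ‖b‖ = 1) : ‖a - b‖ ^ 2 = 2 - 2 * inner ℝ a b := by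
  rw [norm_sub_sq_real, ha, hb]; ring

end Med
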