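import Pool.Agent.Helper946.M0

set_option autoImplicit false

namespace Med

structure Cfg (S : Finset E) : Prop where
  unit : ∀ x ∈ S, ‖x‖ = 1
  pos : ∀ y : E, y ≠ 0 → ∃ x ∈ S, 0 < inner ℝ y x
  simp : ∀ (a : E) (c : ℝ) (T : Finset E), a ≠ 0 → T ⊆ S → (∀ x ∈ S, inner ℝ a x ≤ c) →
    (∀ x ∈ T, inner ℝ a x = c) → T.card ≤ 3

def Fct (S : Finset E) (a b c : E) : Prop :=
  a ∈ S ∧ b ∈ S ∧ c ∈ S ∧ 0 < dt a b c ∧
    ∀ x ∈ S, x ≠ a → x ≠ b → x ≠ c → inner ℝ (nrm a b c) x < dt a b c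

def Edg (S : Finset E) (a b : E) : Prop :=
  a ∈ S ∧ b ∈ S ∧ a ≠ b ∧ ∃ y : E, inner ℝ y a = 1 ∧ inner ℝ y b = 1 ∧
    ∀ x ∈ S, x ≠ a → x ≠ b → inner ℝ y x < 1

variable {S : Finset E}

lemma Edg.symm {a b : E} (h : Edg S a b) : Edg S b a := by
  obtain ⟨ha, hb, hab, y, h1, h2, h3⟩ := h
  exact ⟨hb, ha, hab.symm, y, h2, h1, fun x hx h4 h5 => h3 x hx h5 h4⟩

lemma Fct.rot {a b c : E} (h : Fct S a b c) : Fct S b c a := by
  obtain ⟨ha, hb, hc, hd, h3⟩ := h
  refine ⟨hb, hc, ha, by rw [dt_rot]; exact hd, fun x hx h4 h5 h6 => ?_⟩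
  rw [nrm_rot, dt_rot]; exact h3 x hx h6 h4 h5

lemma Fct.le {a b c : E} (h : Fct S a b c) {x : E} (hx : x ∈ S) :
    inner ℝ (nrm a b c) x ≤ dt a b c := by
  by_cases h1 : x = a
  · rw [h1, nrm_a]
  by_cases h2 : x = b
  · rw [h2, nrm_b]
  by_cases h3 : x = c
  · rw [h3, nrm_c]
  exact (h.2.2.2.2 x hx h1 h2 h3).le

lemma fin_eps {ι : Type*} (s : Finset ι) (f g : ι → ℝ) (hf : ∀ x ∈ s, 0 < f x) :
    ∃ ε > 0, ∀ x ∈ s, ε * g x < f x := by
  classical
  induction s using Finset.induction_on with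
  | empty => exact ⟨1, one_pos, by simp⟩
  | insert a s has ih =>
    obtain ⟨ε, hε, h⟩ := ih (fun x hx => hf x (Finset.mem_insert_of_mem hx))
    have hfa : 0 < f a := hf a (Finset.mem_insert_self _ _)
    refine ⟨min ε (f a / (|g a| + 1)), lt_min hε (by positivity), fun x hx => ?_⟩
    have hm : 0 < min ε (f a / (|g a| + 1)) := lt_min hε (by positivity)
    rcases Finset.mem_insert.1 hx with rfl | hx
    · have h1 : min ε (f x / (|g x| + 1)) ≤ f x / (|g x| + 1) := min_le_right _ _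
      have h2 : min ε (f x / (|g x| + 1)) * g x ≤ f x / (|g x| + 1) * |g x| := by
        calc min ε (f x / (|g x| + 1)) * g x ≤ min ε (f x / (|g x| + 1)) * |g x| :=
              mul_le_mul_of_nonneg_left (le_abs_self _) hm.le
          _ ≤ _ := mul_le_mul_of_nonneg_right h1 (abs_nonneg _)
      have h3 : f x / (|g x| + 1) * |g x| < f x := by
        rw [div_mul_eq_mul_div, div_lt_iff₀ (by positivity)]
        nlinarith [abs_nonneg (g x)]
      linarith
    · have h0 := h x hx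
      have hfx := hf x (Finset.mem_insert_of_mem hx)
      rcases le_or_gt (g x) 0 with h1 | h1
      · have : min ε (f a / (|g a| + 1)) * g x ≤ 0 := mul_nonpos_of_nonneg_of_nonpos hm.le h1
        linarith
      · have : min ε (f a / (|g a| + 1)) * g x ≤ ε * g x :=
          mul_le_mul_of_nonneg_right (min_le_left _ _) h1.le
        linarith

lemma inr_fy {a b c : E} (h : Fct S a b c) (x : E) :
    inner ℝ ((dt a b c)⁻¹ • nrm a b c) x = (dt a b c)⁻¹ * inner ℝ (nrm a b c) x := by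
  rw [real_inner_smul_left]

lemma Fct.edg {a b c : E} (h : Fct S a b c) : Edg S a b := by
  obtain ⟨ha, hb, hc, hd, h3⟩ := id h
  obtain ⟨hab, hbc, hac⟩ := ne_of_dt hd
  classical
  obtain ⟨ε, hε, h4⟩ := fin_eps (S.filter (fun x => x ≠ a ∧ x ≠ b ∧ x ≠ c))
    (fun x => 1 - (dt a b c)⁻¹ * inner ℝ (nrm a b c) x) (fun x => - dt a b x) (by
      intro x hx
      rw [Finset.mem_filter] at hx
      have := h3 x hx.1 hx.2.1 hx.2.2.1 hx.2.2.2
      have h5 : (dt a b c)⁻¹ * inner ℝ (nrm a b c) x < 1 := by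
        rw [inv_mul_lt_iff₀ hd]; linarith
      show 0 < 1 - _
      linarith)
  refine ⟨ha, hb, hab, (dt a b c)⁻¹ • nrm a b c - ε • crs a b, ?_, ?_, ?_⟩
  · rw [inner_sub_left, inr_fy h, nrm_a, real_inner_smul_left, inr_crs, inv_mul_cancel₀ hd.ne']
    have : dt a b a = 0 := by simp [dt]; ring
    rw [this]; ring
  · rw [inner_sub_left, inr_fy h, nrm_b, real_inner_smul_left, inr_crs, inv_mul_cancel₀ hd.ne']
    have : dt a b b = 0 := by simp [dt]; ring
    rw [this]; ring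
  · intro x hx h5 h6
    rw [inner_sub_left, inr_fy h, real_inner_smul_left, inr_crs]
    by_cases h7 : x = c
    · rw [h7, nrm_c, inv_mul_cancel₀ hd.ne']
      nlinarith
    · have h8 := h4 x (by rw [Finset.mem_filter]; exact ⟨hx, h5, h6, h7⟩)
      linarith

lemma left_unique {a b c c' : E} (h : Fct S a b c) (h' : Fct S a b c') : c = c' := by
  by_contra hcc
  obtain ⟨ha, hb, hc, hd, h3⟩ := h
  obtain ⟨_, _, hc', hd', h3'⟩ := h'
  obtain ⟨hab, hbc, hac⟩ := ne_of_dt hd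
  obtain ⟨_, hbc', hac'⟩ := ne_of_dt hd'
  have e1 := h3 c' hc' hac'.symm hbc'.symm (Ne.symm hcc)
  have e2 := h3' c hc hac.symm hbc.symm hcc
  rw [inr_nrm] at e1 e2
  have e3 : dt b c' c = - dt b c c' := by simp [dt]; ring
  have e4 : dt c' a c = - dt c a c' := by simp [dt]; ring
  rw [e3, e4] at e2
  linarith

lemma fct_of_fun (hS : Cfg S) {a b c y : E} (ha : a ∈ S) (hb : b ∈ S) (hc : c ∈ S)
    (hd : 0 < dt a b c) {k : ℝ} (hk : 0 < k) (ya : inner ℝ y a = k) (yb : inner ℝ y b = k)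
    (yc : inner ℝ y c = k)
    (h : ∀ x ∈ S, inner ℝ y x ≤ k) : Fct S a b c := by
  classical
  refine ⟨ha, hb, hc, hd, fun x hx h1 h2 h3 => ?_⟩
  have hy : y ≠ 0 := by rintro rfl; simp at ya; linarith
  obtain ⟨hab, hbc, hac⟩ := ne_of_dt hd
  have h4 : inner ℝ y x < k := by
    refine lt_of_le_of_ne (h x hx) fun h5 => ?_
    have := hS.simp y k {a, b, c, x} hy (by
      intro z hz
      simp only [Finset.mem_insert, Finset.mem_singleton] at hz
      rcases hz with rfl | rfl | rfl | rfl <;> assumption) h (by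
      intro z hz
      simp only [Finset.mem_insert, Finset.mem_singleton] at hz
      rcases hz with rfl | rfl | rfl | rfl <;> assumption)
    rw [Finset.card_eq_of_equiv_fin] at this
    · exact absurd this (by norm_num : ¬ (4 : ℕ) ≤ 3)
    · apply Finset.equivFinOfCardEq
      rw [Finset.card_insert_of_notMem, Finset.card_insert_of_notMem,
        Finset.card_insert_of_notMem, Finset.card_singleton]
      · simp; exact fun h => h3 h.symm
      · simp; exact ⟨hbc, fun h => h2 h.symm⟩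
      · simp; exact ⟨hab, hac, fun h => h1 h.symm⟩
  have h5 := dual_exp a b c y
  rw [ya, yb, yc, ← smul_add, ← smul_add] at h5
  have h6 : k • nrm a b c = dt a b c • y := by
    rw [h5, nrm]; congr 1; abel
  have h7 : k * inner ℝ (nrm a b c) x = dt a b c * inner ℝ y x := by
    rw [← real_inner_smul_left, h6, real_inner_smul_left]
  nlinarith

lemma crs_ne_of_edg (_hS : Cfg S) {a b : E} (h : Edg S a b) : crs a b ≠ 0 := by
  obtain ⟨ha, hb, hab, y, h1, h2, h3⟩ := h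
  intro h0
  apply hab
  have e : crs y (crs a b) = inner ℝ y b • a - inner ℝ y a • b := by
    apply ext3 <;> simp [inr] <;> ring
  rw [h0, h1, h2] at e
  have e2 : crs y 0 = 0 := by apply ext3 <;> simp
  rw [e2] at e
  have : a - b = 0 := by simpa using e.symm
  exact sub_eq_zero.1 this

lemma edge_left (hS : Cfg S) {a b : E} (h : Edg S a b) : ∃ c, Fct S a b c := by
  classical
  have hm := crs_ne_of_edg hS h
  obtain ⟨ha, hb, hab, y, h1, h2, h3⟩ := h
  obtain ⟨x0, hx0, hx0'⟩ := hS.pos _ hm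
  obtain ⟨c, hc, hmin⟩ := Finset.exists_min_image (S.filter (fun x => 0 < dt a b x))
    (fun x => (1 - inner ℝ y x) / dt a b x) ⟨x0, by
      rw [Finset.mem_filter]; rw [inr_crs] at hx0'; exact ⟨hx0, hx0'⟩⟩
  rw [Finset.mem_filter] at hc
  obtain ⟨hcS, hcd⟩ := hc
  obtain ⟨_, hbc, hac⟩ := ne_of_dt hcd
  set t := (1 - inner ℝ y c) / dt a b c with ht
  have htpos : 0 < t := div_pos (by linarith [h3 c hcS hac.symm hbc.symm]) hcd
  have hle1 : ∀ x ∈ S, inner ℝ y x ≤ 1 := by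
    intro x hx
    by_cases h4 : x = a
    · rw [h4, h1]
    by_cases h5 : x = b
    · rw [h5, h2]
    exact (h3 x hx h4 h5).le
  refine ⟨c, fct_of_fun hS (y := y + t • crs a b) ha hb hcS hcd one_pos ?_ ?_ ?_ ?_⟩
  · rw [inner_add_left, real_inner_smul_left, inr_crs, h1]
    have : dt a b a = 0 := by simp [dt]; ring
    rw [this]; ring
  · rw [inner_add_left, real_inner_smul_left, inr_crs, h2]
    have : dt a b b = 0 := by simp [dt]; ring
    rw [this]; ring
  · rw [inner_add_left, real_inner_smul_left, inr_crs, ht]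
    field_simp; ring
  · intro x hx
    rw [inner_add_left, real_inner_smul_left, inr_crs]
    rcases le_or_gt (dt a b x) 0 with h4 | h4
    · nlinarith [hle1 x hx]
    · have := hmin x (by rw [Finset.mem_filter]; exact ⟨hx, h4⟩)
      rw [le_div_iff₀ h4] at this
      linarith

/-- Gram identity -/
lemma dt_sq (a b c : E) : dt a b c ^ 2 = ‖a‖ ^ 2 * ‖b‖ ^ 2 * ‖c‖ ^ 2
    + 2 * inner ℝ a b * inner ℝ b c * inner ℝ a c - ‖a‖ ^ 2 * inner ℝ b c ^ 2
    - ‖b‖ ^ 2 * inner ℝ a c ^ 2 - ‖c‖ ^ 2 * inner ℝ a b ^ 2 := by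
  simp only [dt, nsq, inr]; ring

lemma crs_sq (a b : E) : ‖crs a b‖ ^ 2 = ‖a‖ ^ 2 * ‖b‖ ^ 2 - inner ℝ a b ^ 2 := by
  simp only [nsq, inr, crs0, crs1, crs2]; ring

lemma nrm_sq_sub {a b c : E} (ha : ‖a‖ = 1) (hb : ‖b‖ = 1) (hc : ‖c‖ = 1) :
    ‖nrm a b c‖ ^ 2 - dt a b c ^ 2 =
      2 * (1 - inner ℝ a b) * (1 - inner ℝ b c) * (1 - inner ℝ a c) := by
  rw [nrm_eq, crs_sq, dt_sq, ha, hb, hc, norm_sub_sq_real, norm_sub_sq_real, inner_sub_left,
    inner_sub_right, inner_sub_right, real_inner_self_eq_norm_sq, ha, hb, hc,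
    real_inner_comm a b, real_inner_comm a c]
  ring

lemma dt_ne_of_plane {a b c z : E} {k : ℝ} (ha : ‖a‖ = 1) (hb : ‖b‖ = 1) (hc : ‖c‖ = 1)
    (hab : a ≠ b) (hbc : b ≠ c) (hac : a ≠ c) (hk : k ≠ 0) (za : inner ℝ z a = k)
    (zb : inner ℝ z b = k) (zc : inner ℝ z c = k) : dt a b c ≠ 0 := by
  intro h0
  have h1 : nrm a b c = 0 := by
    have h2 : inner ℝ (nrm a b c) (nrm a b c) = 0 := by
      have h3 := basis_exp a b c (nrm a b c)
      rw [h0, zero_smul] at h3
      have h4 : inner ℝ z (dt b c (nrm a b c) • a + dt c a (nrm a b c) • b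
        + dt a b (nrm a b c) • c) = 0 := by rw [← h3]; simp
      rw [inner_add_right, inner_add_right, real_inner_smul_right, real_inner_smul_right,
        real_inner_smul_right, za, zb, zc] at h4
      have h5 : k * (dt a b (nrm a b c) + dt b c (nrm a b c) + dt c a (nrm a b c)) = 0 := by
        linarith
      rw [inr_nrm]
      exact (mul_eq_zero.1 h5).resolve_left hk
    exact inner_self_eq_zero.1 h2
  have h6 := nrm_sq_sub ha hb hc
  rw [h1, h0] at h6
  have p1 := unit_inr_lt ha hb hab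
  have p2 := unit_inr_lt hb hc hbc
  have p3 := unit_inr_lt ha hc hac
  have : 0 < 2 * (1 - inner ℝ a b) * (1 - inner ℝ b c) * (1 - inner ℝ a c) := by
    have e1 : 0 < 1 - inner ℝ a b := by linarith
    have e2 : 0 < 1 - inner ℝ b c := by linarith
    have e3 : 0 < 1 - inner ℝ a c := by linarith
    positivity
  rw [← h6] at this
  simp at this

lemma edg_of_touch (hS : Cfg S) {v w z : E} {k : ℝ} (hk : 0 < k) (hv : v ∈ S) (hw : w ∈ S)
    (hvw : v ≠ w) (zv : inner ℝ z v = k) (zw : inner ℝ z w = k)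
    (h : ∀ x ∈ S, inner ℝ z x ≤ k) : Edg S v w := by
  classical
  by_cases h1 : ∀ x ∈ S, x ≠ v → x ≠ w → inner ℝ z x < k
  · refine ⟨hv, hw, hvw, k⁻¹ • z, ?_, ?_, ?_⟩
    · rw [real_inner_smul_left, zv, inv_mul_cancel₀ hk.ne']
    · rw [real_inner_smul_left, zw, inv_mul_cancel₀ hk.ne']
    · intro x hx h2 h3
      rw [real_inner_smul_left, inv_mul_lt_iff₀ hk]
      linarith [h1 x hx h2 h3]
  · push Not at h1
    obtain ⟨u, hu, huv, huw, hzu⟩ := h1
    have zu : inner ℝ z u = k := le_antisymm (h u hu) hzu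
    have hd := dt_ne_of_plane (hS.unit v hv) (hS.unit w hw) (hS.unit u hu) hvw huw.symm huv.symm
      hk.ne' zv zw zu
    rcases lt_or_gt_of_ne hd with hd | hd
    · have hd' : 0 < dt v u w := by rw [dt_swap']; linarith
      have hF := fct_of_fun hS hv hu hw hd' hk zv zu zw h
      exact hF.rot.rot.edg.symm
    · have hF := fct_of_fun hS hv hw hu hd hk zv zw zu h
      exact hF.edg

lemma improving_aux (hS : Cfg S) {v ℓ x : E} (hv : v ∈ S) (hx : x ∈ S)
    (h : inner ℝ ℓ v < inner ℝ ℓ x) (hpar : ∀ t : ℝ, v + t • ℓ ≠ 0) :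
    ∃ w, Edg S v w ∧ inner ℝ ℓ v < inner ℝ ℓ w := by
  classical
  obtain ⟨w, hw, hmin⟩ := Finset.exists_min_image (S.filter (fun x => inner ℝ ℓ v < inner ℝ ℓ x))
    (fun x => (1 - inner ℝ v x) / (inner ℝ ℓ x - inner ℝ ℓ v)) ⟨x, by
      rw [Finset.mem_filter]; exact ⟨hx, h⟩⟩
  rw [Finset.mem_filter] at hw
  obtain ⟨hwS, hwl⟩ := hw
  have hvw : v ≠ w := by rintro rfl; exact lt_irrefl _ hwl
  have uv := hS.unit v hv
  set t := (1 - inner ℝ v w) / (inner ℝ ℓ w - inner ℝ ℓ v) with ht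
  have htpos : 0 < t := div_pos (by linarith [unit_inr_lt uv (hS.unit w hwS) hvw]) (by linarith)
  have hvv : inner ℝ v v = (1 : ℝ) := by rw [real_inner_self_eq_norm_sq, uv]; norm_num
  have key : ∀ x ∈ S, inner ℝ (v + t • ℓ) x ≤ inner ℝ (v + t • ℓ) v := by
    intro x hx
    rw [inner_add_left, inner_add_left, real_inner_smul_left, real_inner_smul_left, hvv]
    by_cases hxv : x = v
    · rw [hxv, hvv]
    have h2 := unit_inr_lt uv (hS.unit x hx) (Ne.symm hxv)
    rcases le_or_gt (inner ℝ ℓ x) (inner ℝ ℓ v) with h1 | h1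
    · nlinarith
    · have := hmin x (by rw [Finset.mem_filter]; exact ⟨hx, h1⟩)
      rw [le_div_iff₀ (by linarith)] at this
      linarith
  obtain ⟨x1, hx1, hx1'⟩ := hS.pos _ (hpar t)
  have hk : 0 < inner ℝ (v + t • ℓ) v := lt_of_lt_of_le hx1' (key x1 hx1)
  refine ⟨w, edg_of_touch hS hk hv hwS hvw rfl ?_ key, hwl⟩
  rw [inner_add_left, inner_add_left, real_inner_smul_left, real_inner_smul_left, hvv]
  have : t * (inner ℝ ℓ w - inner ℝ ℓ v) = 1 - inner ℝ v w := by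
    rw [ht]; field_simp [sub_ne_zero.2 hwl.ne']
  linarith

lemma exists_perp (v : E) : ∃ m : E, m ≠ 0 ∧ inner ℝ m v = 0 := by
  by_cases h : v 0 = 0 ∧ v 1 = 0
  · refine ⟨!₂[1, 0, 0], ?_, ?_⟩
    · intro h0
      have := congrFun (congrArg (fun z : E => (z : Fin 3 → ℝ)) h0) 0
      simp at this
    · rw [inr]; simp [h.1]
  · refine ⟨!₂[v 1, - v 0, 0], ?_, ?_⟩
    · intro h0
      have h1 := congrFun (congrArg (fun z : E => (z : Fin 3 → ℝ)) h0) 0
      have h2 := congrFun (congrArg (fun z : E => (z : Fin 3 → ℝ)) h0) 1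
      simp at h1 h2
      exact h ⟨h2, h1⟩
    · rw [inr]; simp; ring

lemma improving (hS : Cfg S) {v ℓ x : E} (hv : v ∈ S) (hx : x ∈ S)
    (h : inner ℝ ℓ v < inner ℝ ℓ x) :
    ∃ w, Edg S v w ∧ inner ℝ ℓ v < inner ℝ ℓ w := by
  by_cases hpar : ∀ t : ℝ, v + t • ℓ ≠ 0
  · exact improving_aux hS hv hx h hpar
  push Not at hpar
  obtain ⟨t, ht⟩ := hpar
  have uv := hS.unit v hv
  have hvv : inner ℝ v v = (1 : ℝ) := by rw [real_inner_self_eq_norm_sq, uv]; norm_num
  have e1 : ∀ z, inner ℝ v z = - (t * inner ℝ ℓ z) := by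
    intro z
    have : inner ℝ (v + t • ℓ) z = 0 := by rw [ht]; simp
    rw [inner_add_left, real_inner_smul_left] at this
    linarith
  obtain ⟨m, hm0, hmv⟩ := exists_perp v
  obtain ⟨x1, hx1, hx1'⟩ := hS.pos m hm0
  obtain ⟨w, hw, hw'⟩ := improving_aux hS hv hx1 (ℓ := m) (by rw [hmv]; exact hx1') (by
    intro s hs
    have : inner ℝ (v + s • m) v = 0 := by rw [hs]; simp
    rw [inner_add_left, real_inner_smul_left, hvv, hmv] at this
    norm_num at this)
  refine ⟨w, hw, ?_⟩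
  have hwS := hw.2.1
  have hvw := hw.2.2.1
  have h2 := unit_inr_lt uv (hS.unit w hwS) hvw
  have h3 := unit_inr_lt uv (hS.unit x hx) (by rintro rfl; exact lt_irrefl _ h)
  rw [e1] at h2 h3
  have h4 := e1 v
  rw [hvv] at h4
  -- t * (ℓ x - ℓ v) > 0, so t > 0
  have ht0 : 0 < t := by
    by_contra hneg
    push Not at hneg
    nlinarith
  nlinarith

end Med
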