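import Pool.Agent.Helper946.M9

set_option autoImplicit false

namespace Med

open MeasureTheory

variable {S : Finset E}

lemma exp_of_dt {a b c : E} (hd : 0 < dt a b c) (x : E) :
    x = (dt b c x / dt a b c) • a + (dt c a x / dt a b c) • b + (dt a b x / dt a b c) • c := by
  have e := basis_exp a b c x
  apply smul_right_injective E hd.ne'
  show dt a b c • x = dt a b c • _
  rw [e, smul_add, smul_add, smul_smul, smul_smul, smul_smul, mul_div_cancel₀ _ hd.ne',
    mul_div_cancel₀ _ hd.ne', mul_div_cancel₀ _ hd.ne']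

lemma TT_exp {a b c : E} (hd : 0 < dt a b c) {x : E} (hx : x ∈ TT a b c) :
    ∃ l1 l2 l3 : ℝ, 0 ≤ l1 ∧ 0 ≤ l2 ∧ 0 ≤ l3 ∧ l1 + l2 + l3 ≤ 1 ∧
      x = l1 • a + l2 • b + l3 • c := by
  obtain ⟨h1, h2, h3, h4⟩ := hx
  refine ⟨_, _, _, div_nonneg h1 hd.le, div_nonneg h2 hd.le, div_nonneg h3 hd.le, ?_,
    exp_of_dt hd x⟩
  rw [← add_div, ← add_div, div_le_one hd]; exact h4

lemma conv4 {K : Set E} (hK : Convex ℝ K) {u a b c : E} (hu : u ∈ K)
    (ha : u + a ∈ K) (hb : u + b ∈ K) (hc : u + c ∈ K) {l1 l2 l3 : ℝ} (h1 : 0 ≤ l1) (h2 : 0 ≤ l2)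
    (h3 : 0 ≤ l3) (h4 : l1 + l2 + l3 ≤ 1) : u + (l1 • a + l2 • b + l3 • c) ∈ K := by
  have key := hK.sum_mem (t := (Finset.univ : Finset (Fin 4)))
    (w := ![1 - l1 - l2 - l3, l1, l2, l3]) (z := ![u, u + a, u + b, u + c]) (by
      intro i _
      fin_cases i
      · simp only [Fin.zero_eta, Matrix.cons_val_zero]
        linarith
      · exact h1
      · exact h2
      · exact h3) (by
      simp [Fin.sum_univ_four]; ring) (by
      intro i _
      fin_cases i
      · exact hu
      · exact ha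
      · exact hb
      · exact hc)
  have e3 : u + (l1 • a + l2 • b + l3 • c) = ∑ i : Fin 4, (![1 - l1 - l2 - l3, l1, l2, l3] i) •
      (![u, u + a, u + b, u + c] i) := by
    simp only [Fin.sum_univ_four, Matrix.cons_val_zero, Matrix.cons_val_one, Matrix.cons_val]
    module
  rw [e3]; exact key

lemma gain (hS : ∀ x ∈ S, ‖x‖ = 1) {ρ : ℝ} (hρ0 : 0 < ρ) (hρ1 : ρ ≤ 1 / 2) (hcov : Cov S ρ)
    {u : E} (hu : ‖u‖ = 1) (hfar : ∀ x ∈ S, ρ ≤ ‖x - u‖) :
    Vol S + ρ ^ 4 / 384 ≤ Vol (by classical exact insert u S) := by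
  classical
  obtain ⟨e, f, he, hf, h1, h2, h3, hd⟩ := exists_frame hu
  set δ := ρ ^ 2 / 2 with hδ
  have hδ0 : 0 < δ := by positivity
  have hδ1 : δ ≤ 1 / 8 := by rw [hδ]; nlinarith
  set r := Real.sqrt (δ / 4) with hr
  have hr2 : r ^ 2 = δ / 4 := Real.sq_sqrt (by positivity)
  set A := psi u e f (-(δ / 2), r / 2, 0) with hA
  set B := psi u e f (-(δ / 2), -(r / 2), 0) with hB
  set C := psi u e f (-(δ / 2), 0, r / 2) with hC
  have hdt : dt A B C = δ ^ 2 / 16 := by
    have e1 : dt A B C = 2 * (δ / 2) * (r / 2) ^ 2 * dt u e f := by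
      rw [hA, hB, hC]; simp [psi, dt]; ring
    rw [e1, hd, div_pow, hr2]; ring
  have hdtpos : 0 < dt A B C := by rw [hdt]; positivity
  set K := convexHull ℝ ((insert u S : Finset E) : Set E) with hK
  have hSK : convexHull ℝ (S : Set E) ⊆ K := by
    apply convexHull_mono; simp
  have hKc : Convex ℝ K := convex_convexHull ℝ _
  have huK : u ∈ K := subset_convexHull ℝ _ (by simp)
  have hball := hull_ball hS hρ0.le hcov
  have hp : ∀ x y : ℝ, x ^ 2 + y ^ 2 = δ → u + psi u e f (-(δ / 2), x / 4, y / 4) ∈ K := by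
    intro x y hxy
    have e1 : u + psi u e f (-(δ / 2), x / 4, y / 4)
        = (3 / 4 : ℝ) • u + (1 / 4 : ℝ) • psi u e f (1 - 2 * δ, x, y) := by
      simp only [psi]; module
    rw [e1]
    apply hKc huK _ (by norm_num) (by norm_num) (by norm_num)
    apply hSK
    apply hball
    rw [mem_closedBall_zero_iff]
    have e2 := nsq_psi_frame hu he hf h1 h2 h3 (1 - 2 * δ, x, y)
    simp only at e2
    have e3 : ‖psi u e f (1 - 2 * δ, x, y)‖ ^ 2 ≤ (1 - ρ ^ 2 / 2) ^ 2 := by
      rw [e2, ← hδ]; nlinarith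
    exact (pow_le_pow_iff_left₀ (norm_nonneg _) (by rw [← hδ]; linarith) (by norm_num)).1 e3
  have hAK : u + A ∈ K := by
    have := hp (2 * r) 0 (by rw [mul_pow, hr2]; ring)
    rw [hA]; convert this using 4 <;> ring
  have hBK : u + B ∈ K := by
    have := hp (-(2 * r)) 0 (by rw [neg_sq, mul_pow, hr2]; ring)
    rw [hB]; convert this using 4 <;> ring
  have hCK : u + C ∈ K := by
    have := hp 0 (2 * r) (by rw [mul_pow, hr2]; ring)
    rw [hC]; convert this using 5 <;> ring
  set T : Set E := (fun y => -u + y) ⁻¹' TT A B C with hT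
  have hTvol : volume T = ENNReal.ofReal (δ ^ 2 / 96) := by
    rw [hT, measure_preimage_add, vol_TT hdtpos, hdt]; congr 1; ring
  have hTK : T ⊆ K := by
    intro y hy
    obtain ⟨l1, l2, l3, k1, k2, k3, k4, k5⟩ := TT_exp hdtpos hy
    have := conv4 hKc huK hAK hBK hCK k1 k2 k3 k4
    rw [← k5] at this
    simpa using this
  have hTm : MeasurableSet T := (TT_meas A B C).preimage (by fun_prop)
  have hdisj : Disjoint (convexHull ℝ (S : Set E)) T := by
    rw [Set.disjoint_left]
    intro y hy hyT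
    have h5 : inner ℝ u y ≤ 1 - δ := by
      have hconv : Convex ℝ {y : E | inner ℝ u y ≤ 1 - δ} := 
        convex_halfSpace_le (𝕜 := ℝ) (f := fun y : E => inner ℝ u y)
          (IsLinearMap.mk (fun x y => inner_add_right _ _ _)
            (fun r x => real_inner_smul_right _ _ _)) (1 - δ)
      refine convexHull_min ?_ hconv hy
      intro x hx
      show inner ℝ u x ≤ 1 - δ
      rw [inr_of_dist (hS x hx) hu, hδ]
      have := hfar x hx
      nlinarith
    obtain ⟨l1, l2, l3, k1, k2, k3, k4, k5⟩ := TT_exp hdtpos hyT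
    have h6 : inner ℝ u (-u + y) = -(δ / 2) * (l1 + l2 + l3) := by
      simp only at k5
      rw [k5, inner_add_right, inner_add_right, real_inner_smul_right, real_inner_smul_right,
        real_inner_smul_right, hA, hB, hC, inr_psi_frame hu h1 h2, inr_psi_frame hu h1 h2,
        inr_psi_frame hu h1 h2]
      ring
    rw [inner_add_right, inner_neg_right, real_inner_self_eq_norm_sq, hu] at h6
    nlinarith
  have hsum : volume (convexHull ℝ (S : Set E)) + volume T ≤ volume K := by
    rw [← measure_union hdisj hTm]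
    exact measure_mono (Set.union_subset hSK hTK)
  have hKtop : volume K < ⊤ := vol_hull_lt_top _
  have h7 := ENNReal.toReal_mono hKtop.ne hsum
  rw [ENNReal.toReal_add (vol_hull_lt_top S).ne (by rw [hTvol]; exact ENNReal.ofReal_ne_top),
    hTvol, ENNReal.toReal_ofReal (by positivity)] at h7
  unfold Vol
  have h8 : ρ ^ 4 / 384 = δ ^ 2 / 96 := by rw [hδ]; ring
  rw [h8]; exact h7

noncomputable def LS (S : Finset E) (v : E) : Set E :=
  convexHull ℝ (S : Set E) \ convexHull ℝ ((by classical exact S.erase v : Finset E) : Set E)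

lemma hull_closed (S : Finset E) : IsClosed (convexHull ℝ (S : Set E)) :=
  (Set.Finite.isCompact_convexHull (𝕜 := ℝ) S.finite_toSet).isClosed

lemma LS_meas (S : Finset E) (v : E) : MeasurableSet (LS S v) :=
  (hull_closed S).measurableSet.diff (hull_closed _).measurableSet

lemma loss_sub (hS : ∀ x ∈ S, ‖x‖ = 1) {ρ : ℝ} (hρ0 : 0 < ρ) (hρ1 : ρ ≤ 1 / 8) (hcov : Cov S ρ)
    {v : E} (hv : v ∈ S) {y : E} (hy : y ∈ LS S v) :
    1 - 8 * ρ ^ 2 < ‖y‖ ∧ ‖y‖ ≤ 1 ∧ ‖y - v‖ ≤ 8 * ρ := by
  classical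
  obtain ⟨hy1, hy2⟩ := hy
  have hce := cov_erase (hS v hv) hcov hρ0 (by linarith)
  obtain ⟨w, hw, hw'⟩ := sep hy2 (cov_nonempty hce)
  have hy3 : ‖y‖ ≤ 1 := by simpa using hull_sub_ball hS hy1
  obtain ⟨x, hx, hxw⟩ := hce w hw
  have hxS : x ∈ S := Finset.mem_of_mem_erase hx
  have h1 := hw' x hx
  rw [inr_of_dist (hS x hxS) hw] at h1
  have h2 : ‖x - w‖ ^ 2 ≤ (4 * ρ) ^ 2 := pow_le_pow_left₀ (norm_nonneg _) hxw 2
  have h3 : 1 - 8 * ρ ^ 2 < inner ℝ w y := by nlinarith
  have h4 := real_inner_le_norm w y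
  rw [hw, one_mul] at h4
  have h5 : ‖y - w‖ ^ 2 ≤ (4 * ρ) ^ 2 := by
    rw [norm_sub_sq_real, hw, real_inner_comm]
    nlinarith [norm_nonneg y]
  have h6 : ‖y - w‖ ≤ 4 * ρ := by
    exact (pow_le_pow_iff_left₀ (norm_nonneg _) (by positivity) (by norm_num)).1 h5
  have h7 : inner ℝ w y ≤ inner ℝ w v := by
    by_contra hcon
    push Not at hcon
    have hconv : Convex ℝ {z : E | inner ℝ w z < inner ℝ w y} := 
        convex_halfSpace_lt (𝕜 := ℝ) (f := fun z : E => inner ℝ w z)
          (IsLinearMap.mk (fun x y => inner_add_right _ _ _)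
            (fun r x => real_inner_smul_right _ _ _)) (inner ℝ w y)
    have : y ∈ {z : E | inner ℝ w z < inner ℝ w y} := by
      refine convexHull_min ?_ hconv hy1
      intro z hz
      show inner ℝ w z < inner ℝ w y
      by_cases hzv : z = v
      · rw [hzv]; exact hcon
      · exact hw' z (Finset.mem_erase.2 ⟨hzv, hz⟩)
    have this' : inner ℝ w y < inner ℝ w y := this
    exact lt_irrefl _ this'
  have h8 : ‖v - w‖ ≤ 4 * ρ := by
    have h9 := inr_of_dist (hS v hv) hw
    have : ‖v - w‖ ^ 2 ≤ (4 * ρ) ^ 2 := by nlinarith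
    exact (pow_le_pow_iff_left₀ (norm_nonneg _) (by positivity) (by norm_num)).1 this
  refine ⟨by linarith, hy3, ?_⟩
  have e1 : y - v = (y - w) - (v - w) := by abel
  rw [e1]
  have := norm_sub_le (y - w) (v - w)
  linarith

lemma mult_pt (A : Finset E) (y : E) :
    ∑ v ∈ A, (LS S v).indicator (fun _ => (1 : ENNReal)) y ≤
      4 * (⋃ v ∈ A, LS S v).indicator (fun _ => (1 : ENNReal)) y := by
  classical
  by_cases hy : y ∈ ⋃ v ∈ A, LS S v
  · rw [Set.indicator_of_mem hy, mul_one]
    simp only [Set.mem_iUnion] at hy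
    obtain ⟨v0, hv0, hy0⟩ := hy
    have hyS := hy0.1
    rw [convexHull_eq_union] at hyS
    simp only [Set.mem_iUnion] at hyS
    obtain ⟨t, ht, haff, hyt⟩ := hyS
    have hcard : t.card ≤ 4 := by
      have := haff.card_le_finrank_succ
      rw [Fintype.card_coe] at this
      have h2 : Module.finrank ℝ (vectorSpan ℝ (Set.range ((↑) : t → E))) ≤ 3 := by
        have := Submodule.finrank_le (vectorSpan ℝ (Set.range ((↑) : t → E)))
        simpa using this
      omega
    have hsub : A.filter (fun v => y ∈ LS S v) ⊆ t := by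
      intro v hv
      rw [Finset.mem_filter] at hv
      by_contra hvt
      apply hv.2.2
      refine convexHull_mono ?_ hyt
      intro z hz
      simp only [Finset.coe_erase, Set.mem_sdiff, Finset.mem_coe, Set.mem_singleton_iff]
      exact ⟨ht hz, by rintro rfl; exact hvt hz⟩
    have h1 : ∑ v ∈ A, (LS S v).indicator (fun _ => (1 : ENNReal)) y
        = ((A.filter (fun v => y ∈ LS S v)).card : ENNReal) := by
      rw [Finset.card_filter]
      push_cast
      apply Finset.sum_congr rfl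
      intro v _
      simp [Set.indicator_apply]
    rw [h1]
    have : (A.filter (fun v => y ∈ LS S v)).card ≤ 4 := (Finset.card_le_card hsub).trans hcard
    exact_mod_cast this
  · have : ∀ v ∈ A, (LS S v).indicator (fun _ => (1 : ENNReal)) y = 0 := by
      intro v hv
      apply Set.indicator_of_notMem
      intro h
      apply hy
      simp only [Set.mem_iUnion]
      exact ⟨v, hv, h⟩
    rw [Finset.sum_congr rfl this]; simp

lemma mult (S A : Finset E) :
    ∑ v ∈ A, volume (LS S v) ≤ 4 * volume (⋃ v ∈ A, LS S v) := by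
  have hm : MeasurableSet (⋃ v ∈ A, LS S v) :=
    Finset.measurableSet_biUnion _ (fun v _ => LS_meas S v)
  have h1 : ∀ v, volume (LS S v) = ∫⁻ y, (LS S v).indicator (fun _ => (1 : ENNReal)) y := by
    intro v
    rw [lintegral_indicator (LS_meas S v), setLIntegral_one]
  have h2 : volume (⋃ v ∈ A, LS S v)
      = ∫⁻ y, (⋃ v ∈ A, LS S v).indicator (fun _ => (1 : ENNReal)) y := by
    rw [lintegral_indicator hm, setLIntegral_one]
  simp only [h1]
  rw [← lintegral_finsetSum, h2, ← lintegral_const_mul]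
  · exact lintegral_mono (mult_pt A)
  · exact measurable_const.indicator hm
  · intro v _
    exact measurable_const.indicator (LS_meas S v)

lemma exists_small_loss (S A : Finset E) (hA : A.Nonempty) :
    ∃ v ∈ A, A.card * volume (LS S v) ≤ 4 * volume (⋃ v ∈ A, LS S v) := by
  obtain ⟨v, hv, hmin⟩ := Finset.exists_min_image A (fun v => volume (LS S v)) hA
  refine ⟨v, hv, ?_⟩
  calc (A.card : ENNReal) * volume (LS S v) = ∑ _w ∈ A, volume (LS S v) := by
        rw [Finset.sum_const, nsmul_eq_mul]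
    _ ≤ ∑ w ∈ A, volume (LS S w) := Finset.sum_le_sum hmin
    _ ≤ _ := mult S A

lemma Vol_erase (S : Finset E) (v : E) :
    Vol (by classical exact S.erase v) = Vol S - (volume (LS S v)).toReal := by
  classical
  have hsub : convexHull ℝ ((S.erase v : Finset E) : Set E) ⊆ convexHull ℝ (S : Set E) := by
    apply convexHull_mono; exact_mod_cast Finset.erase_subset _ _
  have h1 : volume (LS S v) + volume (convexHull ℝ ((S.erase v : Finset E) : Set E))
      = volume (convexHull ℝ (S : Set E)) := by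
    have h0 := measure_sdiff_add_inter (μ := volume) (convexHull ℝ (S : Set E))
      (hull_closed (S.erase v)).measurableSet
    rw [Set.inter_eq_self_of_subset_right hsub] at h0
    exact h0
  have h2 : (volume (LS S v)) < ⊤ := lt_of_le_of_lt (measure_mono Set.sdiff_subset)
    (vol_hull_lt_top S)
  have h3 := congrArg ENNReal.toReal h1
  rw [ENNReal.toReal_add h2.ne (vol_hull_lt_top _).ne] at h3
  unfold Vol
  linarith

lemma Vol_mono {S T : Finset E} (h : S ⊆ T) : Vol S ≤ Vol T := by
  unfold Vol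
  apply ENNReal.toReal_mono (vol_hull_lt_top T).ne
  apply measure_mono
  apply convexHull_mono
  exact_mod_cast h

end Med
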