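import Pool.Agent.Helper946.M10

set_option autoImplicit false

namespace Med

open MeasureTheory
open scoped Pointwise

variable {S : Finset E}

structure MaxS (S : Finset E) (n : ℕ) : Prop where
  card : S.card = n
  unit : ∀ x ∈ S, ‖x‖ = 1
  max : ∀ T : Finset E, T.card = n → (∀ x ∈ T, ‖x‖ = 1) → Vol T ≤ Vol S

lemma exists_unit_notMem (T : Finset E) (hT : ∀ x ∈ T, ‖x‖ = 1) : ∃ u : E, ‖u‖ = 1 ∧ u ∉ T := by
  by_contra hcon
  push Not at hcon
  set ρ : ℝ := 1 / (T.card + 1) with hρ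
  have hρ0 : 0 < ρ := by positivity
  have hρ1 : ρ ≤ 1 := by
    rw [hρ, div_le_one (by positivity)]; linarith [(Nat.cast_nonneg T.card : (0:ℝ) ≤ T.card)]
  have h := cov_count_all hT hρ0.le hρ1 (fun u hu => ⟨u, hcon u hu, by simpa using hρ0⟩)
  have h2 : (T.card : ℝ) * ρ ≤ 1 := by
    rw [hρ, mul_one_div, div_le_one (by positivity)]; linarith
  nlinarith

lemma extend_card (T : Finset E) (hT : ∀ x ∈ T, ‖x‖ = 1) (k : ℕ) :
    ∃ T' : Finset E, T ⊆ T' ∧ T'.card = T.card + k ∧ ∀ x ∈ T', ‖x‖ = 1 := by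
  classical
  induction k with
  | zero => exact ⟨T, Finset.Subset.refl _, rfl, hT⟩
  | succ k ih =>
    obtain ⟨T', h1, h2, h3⟩ := ih
    obtain ⟨u, hu, hu'⟩ := exists_unit_notMem T' h3
    refine ⟨insert u T', h1.trans (Finset.subset_insert _ _), ?_, ?_⟩
    · rw [Finset.card_insert_of_notMem hu', h2]; ring
    · intro x hx
      rcases Finset.mem_insert.1 hx with rfl | hx
      · exact hu
      · exact h3 x hx

lemma MaxS.max' {n : ℕ} (h : MaxS S n) {T : Finset E} (hc : T.card ≤ n)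
    (hT : ∀ x ∈ T, ‖x‖ = 1) : Vol T ≤ Vol S := by
  obtain ⟨T', h1, h2, h3⟩ := extend_card T hT (n - T.card)
  exact (Vol_mono h1).trans (h.max T' (by omega) h3)

lemma Vol_le_ball (hS : ∀ x ∈ S, ‖x‖ = 1) : Vol S ≤ 4 * Real.pi / 3 := by
  unfold Vol
  have h := measure_mono (μ := volume) (hull_sub_ball hS)
  rw [vol_ball] at h
  have := ENNReal.toReal_mono ENNReal.ofReal_ne_top h
  rwa [ENNReal.toReal_ofReal (by positivity)] at this

lemma coarse (hS : ∀ x ∈ S, ‖x‖ = 1) {ρ : ℝ} (hρ0 : 0 < ρ) (hρ1 : ρ ≤ 1)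
    {u : E} (hu : ‖u‖ = 1) (hfar : ∀ x ∈ S, ρ ≤ ‖x - u‖) :
    Real.pi / 48 * ρ ^ 6 ≤ 4 * Real.pi / 3 - Vol S := by
  set δ := ρ ^ 2 / 2 with hδ
  have hδ0 : 0 < δ := by positivity
  have hδ1 : δ ≤ 1 / 2 := by rw [hδ]; nlinarith
  have hdisj : Disjoint (convexHull ℝ (S : Set E)) (Metric.ball ((1 - δ / 2) • u) (δ / 2)) := by
    rw [Set.disjoint_left]
    intro y hy hyT
    have h5 : inner ℝ u y ≤ 1 - δ := by
      have hconv : Convex ℝ {y : E | inner ℝ u y ≤ 1 - δ} := 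
        convex_halfSpace_le (𝕜 := ℝ) (f := fun y : E => inner ℝ u y)
          (IsLinearMap.mk (fun x y => inner_add_right _ _ _)
            (fun r x => real_inner_smul_right _ _ _)) (1 - δ)
      refine convexHull_min ?_ hconv hy
      intro x hx
      show inner ℝ u x ≤ 1 - δ
      rw [inr_of_dist (hS x hx) hu, hδ]
      have := hfar x hx
      nlinarith
    rw [mem_ball_iff_norm] at hyT
    have h6 : |inner ℝ u (y - (1 - δ / 2) • u)| ≤ ‖y - (1 - δ / 2) • u‖ := by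
      have := abs_real_inner_le_norm u (y - (1 - δ / 2) • u)
      rwa [hu, one_mul] at this
    rw [inner_sub_right, real_inner_smul_right, real_inner_self_eq_norm_sq, hu] at h6
    have h7 := (abs_le.1 (h6.trans hyT.le)).1
    have h8 := (abs_lt.1 (lt_of_le_of_lt h6 hyT)).1
    linarith
  have hsub : convexHull ℝ (S : Set E) ∪ Metric.ball ((1 - δ / 2) • u) (δ / 2) ⊆
      Metric.closedBall 0 1 := by
    apply Set.union_subset (hull_sub_ball hS)
    intro y hy
    rw [mem_ball_iff_norm] at hy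
    rw [mem_closedBall_zero_iff]
    have e : y = (y - (1 - δ / 2) • u) + (1 - δ / 2) • u := by abel
    rw [e]
    refine (norm_add_le _ _).trans ?_
    rw [norm_smul, hu, Real.norm_eq_abs, abs_of_nonneg (by linarith)]
    linarith
  have h1 := measure_mono (μ := volume) hsub
  rw [measure_union hdisj measurableSet_ball, vol_ball] at h1
  have h2 : volume (Metric.ball ((1 - δ / 2) • u) (δ / 2)) = ENNReal.ofReal (Real.pi / 48 * ρ ^ 6) := by
    rw [EuclideanSpace.volume_ball_fin_three, ← ENNReal.ofReal_pow (by positivity),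
      ← ENNReal.ofReal_mul (by positivity)]
    congr 1; rw [hδ]; ring
  rw [h2] at h1
  have h3 := ENNReal.toReal_mono ENNReal.ofReal_ne_top h1
  rw [ENNReal.toReal_add (vol_hull_lt_top S).ne ENNReal.ofReal_ne_top,
    ENNReal.toReal_ofReal (by positivity), ENNReal.toReal_ofReal (by positivity)] at h3
  unfold Vol
  linarith

lemma vol_shell {r : ℝ} (h0 : 0 ≤ r) (h1 : r ≤ 1) :
    volume (Metric.closedBall (0:E) 1 \ Metric.closedBall 0 r)
      = ENNReal.ofReal (4 * Real.pi / 3 * (1 - r ^ 3)) := by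
  have h2 : volume (Metric.closedBall (0:E) r) = ENNReal.ofReal (4 * Real.pi / 3 * r ^ 3) := by
    rw [EuclideanSpace.volume_closedBall_fin_three, ← ENNReal.ofReal_pow (by positivity),
      ← ENNReal.ofReal_mul (by positivity)]
    congr 1; ring
  rw [measure_sdiff (Metric.closedBall_subset_closedBall h1)
    measurableSet_closedBall.nullMeasurableSet (by rw [h2]; exact ENNReal.ofReal_ne_top), vol_ball,
    h2, ← ENNReal.ofReal_sub _ (by positivity)]
  congr 1; ring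

lemma vol_sect_shell {z : E} (hz : ‖z‖ = 1) {t r : ℝ} (ht0 : 0 ≤ t) (ht1 : t ≤ 1) (h0 : 0 < r)
    (h1 : r ≤ 1) : volume (sect z (1 - t ^ 2 / 2) \ Metric.closedBall 0 r) ≤
      ENNReal.ofReal (Real.pi * t ^ 2 / 3 * (1 - r ^ 3)) := by
  set A := sect z (1 - t ^ 2 / 2) with hA
  have hsub : r • A ⊆ A ∩ Metric.closedBall 0 r := by
    rintro _ ⟨y, ⟨hy1, hy2⟩, rfl⟩
    have e1 : ‖r • y‖ = r * ‖y‖ := by rw [norm_smul, Real.norm_eq_abs, abs_of_pos h0]
    refine ⟨⟨?_, ?_⟩, ?_⟩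
    · show ‖r • y‖ ≤ 1
      rw [e1]; nlinarith [norm_nonneg y]
    · show _ * ‖r • y‖ < inner ℝ z (r • y)
      rw [e1, real_inner_smul_right]; nlinarith
    · rw [mem_closedBall_zero_iff]
      show ‖r • y‖ ≤ r
      rw [e1]; nlinarith
  have hv : volume A = ENNReal.ofReal (Real.pi * t ^ 2 / 3) := vol_sect_t hz ht1 ht0
  have hr : volume (r • A) = ENNReal.ofReal (Real.pi * t ^ 2 / 3 * r ^ 3) := by
    rw [Measure.addHaar_smul_of_nonneg volume h0.le, hv, ← ENNReal.ofReal_mul (by positivity)]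
    congr 1
    have : Module.finrank ℝ E = 3 := by simp
    rw [this]; ring
  have hm : MeasurableSet (r • A) := (sect_meas _ _).const_smul₀ r
  calc volume (A \ Metric.closedBall 0 r) ≤ volume (A \ (r • A)) := by
        apply measure_mono
        intro y hy
        exact ⟨hy.1, fun h => hy.2 (hsub h).2⟩
    _ = volume A - volume (r • A) := measure_sdiff (fun y hy => (hsub hy).1) hm.nullMeasurableSet
        (by rw [hr]; exact ENNReal.ofReal_ne_top)
    _ = _ := by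
        rw [hv, hr, ← ENNReal.ofReal_sub _ (by positivity)]
        congr 1; ring

lemma cube_bd {ρ : ℝ} (h0 : 0 ≤ ρ) (h1 : ρ ≤ 1 / 8) : 1 - (1 - 8 * ρ ^ 2) ^ 3 ≤ 24 * ρ ^ 2 := by
  have : 0 ≤ ρ ^ 2 := sq_nonneg _
  have h2 : ρ ^ 2 ≤ 1 / 64 := by nlinarith
  nlinarith [mul_nonneg this this, mul_nonneg (mul_nonneg this this) this,
    mul_nonneg (mul_nonneg this this) (by linarith : 0 ≤ 1/64 - ρ ^ 2)]

theorem cov_max {n : ℕ} (hn : 10 ^ 9 ≤ n) (h : MaxS S n)
    (hD : 4 * Real.pi / 3 - Vol S ≤ 100 / n) : Cov S (400 / Real.sqrt n) := by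
  classical
  have hnr : (10:ℝ) ^ 9 ≤ n := by exact_mod_cast hn
  have hn0 : (0:ℝ) < n := by linarith [hnr, (by norm_num : (0:ℝ) < 10 ^ 9)]
  have pi1 := Real.pi_gt_three
  have pi2 := Real.pi_lt_d2
  have hne : S.Nonempty := by
    rw [← Finset.card_pos, h.card]; omega
  obtain ⟨ρ, hρ0, hcov, u, hu, hfar⟩ := cov_radius S hne
  by_cases hle : ρ ≤ 400 / Real.sqrt n
  · exact cov_mono hcov hle
  exfalso
  push Not at hle
  have hsq : 0 < Real.sqrt n := Real.sqrt_pos.2 hn0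
  have hρpos : 0 < ρ := lt_trans (by positivity) hle
  have hρsmall : ρ ≤ 1 / 8 := by
    by_contra hcon
    push Not at hcon
    have h1 := coarse h.unit (ρ := 1 / 8) (by norm_num) (by norm_num) hu
      (fun x hx => hcon.le.trans (hfar x hx))
    have h2 : (100:ℝ) / n ≤ 100 / 10 ^ 9 := by
      apply div_le_div_of_nonneg_left (by norm_num) (by norm_num) hnr
    have h3 : Real.pi / 48 * (1 / 8) ^ 6 ≤ 100 / 10 ^ 9 := by linarith
    norm_num at h3
    linarith
  have huS : u ∉ S := by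
    intro hmem
    have := hfar u hmem
    simp at this
    linarith
  have hg := gain h.unit hρpos (by linarith) hcov hu hfar
  set S' := insert u S with hS'
  have hunit' : ∀ x ∈ S', ‖x‖ = 1 := by
    intro x hx
    rcases Finset.mem_insert.1 hx with rfl | hx
    · exact hu
    · exact h.unit x hx
  have hcard' : S'.card = n + 1 := by
    rw [hS', Finset.card_insert_of_notMem huS, h.card]
  have hcov' : Cov S' ρ := by
    intro w hw
    obtain ⟨x, hx, hxw⟩ := hcov w hw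
    exact ⟨x, Finset.mem_insert_of_mem hx, hxw⟩
  obtain ⟨v, hv, hvl⟩ := exists_small_loss S' S' ⟨u, Finset.mem_insert_self _ _⟩
  have hUsub : (⋃ v ∈ S', LS S' v) ⊆ Metric.closedBall (0:E) 1 \ Metric.closedBall 0 (1 - 8 * ρ ^ 2) := by
    intro y hy
    simp only [Set.mem_iUnion] at hy
    obtain ⟨w, hw, hy⟩ := hy
    obtain ⟨h1, h2, _⟩ := loss_sub hunit' hρpos hρsmall hcov' hw hy
    refine ⟨by simpa using h2, ?_⟩
    rw [mem_closedBall_zero_iff]; linarith
  have hρ2 : ρ ^ 2 ≤ 1 / 64 := by nlinarith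
  have h3 := hvl.trans (mul_le_mul_right (measure_mono hUsub) 4)
  rw [vol_shell (by linarith) (by nlinarith), hcard'] at h3
  have hLtop : volume (LS S' v) ≠ ⊤ := (lt_of_le_of_lt (measure_mono Set.sdiff_subset)
    (vol_hull_lt_top S')).ne
  have h4 := ENNReal.toReal_mono (by
    apply ENNReal.mul_ne_top (by norm_num) ENNReal.ofReal_ne_top) h3
  have hcb := cube_bd hρ0 hρsmall
  have hcb0 : 0 ≤ 1 - (1 - 8 * ρ ^ 2) ^ 3 := by
    have : (1 - 8 * ρ ^ 2) ^ 3 ≤ 1 := pow_le_one₀ (by linarith) (by nlinarith)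
    linarith
  rw [ENNReal.toReal_mul, ENNReal.toReal_mul, ENNReal.toReal_ofReal (by positivity)] at h4
  simp only [ENNReal.toReal_natCast, ENNReal.toReal_ofNat] at h4
  have h5 := h.max (S'.erase v) (by rw [Finset.card_erase_of_mem hv, hcard']; simp)
    (fun x hx => hunit' x (Finset.mem_of_mem_erase hx))
  have h6 := Vol_erase S' v
  have h7 : ρ ^ 4 / 384 ≤ (volume (LS S' v)).toReal := by linarith
  push_cast at h4
  have h8 : ((n:ℝ) + 1) * (ρ ^ 4 / 384) ≤ 4 * (4 * Real.pi / 3 * (24 * ρ ^ 2)) := by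
    calc ((n:ℝ) + 1) * (ρ ^ 4 / 384) ≤ ((n:ℝ) + 1) * (volume (LS S' v)).toReal :=
          mul_le_mul_of_nonneg_left h7 (by positivity)
      _ ≤ 4 * (4 * Real.pi / 3 * (1 - (1 - 8 * ρ ^ 2) ^ 3)) := h4
      _ ≤ _ := by
        apply mul_le_mul_of_nonneg_left _ (by norm_num)
        exact mul_le_mul_of_nonneg_left hcb (by positivity)
  have h9 : (n:ℝ) * ρ ^ 2 ≤ 49152 * Real.pi := by
    have : ρ ^ 2 * ((n:ℝ) * ρ ^ 2) ≤ ρ ^ 2 * (49152 * Real.pi) := by nlinarith [pow_pos hρpos 4]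
    exact le_of_mul_le_mul_left this (by positivity)
  have h10 : 160000 < (n:ℝ) * ρ ^ 2 := by
    have h11 : 400 < ρ * Real.sqrt n := by rwa [div_lt_iff₀ hsq] at hle
    have h12 : (ρ * Real.sqrt n) ^ 2 = n * ρ ^ 2 := by
      rw [mul_pow, Real.sq_sqrt hn0.le]; ring
    rw [← h12]; nlinarith
  nlinarith

theorem each_loss {n : ℕ} (hn : 10 ^ 9 ≤ n) (h : MaxS S n) (hcov : Cov S (400 / Real.sqrt n))
    {v : E} (hv : v ∈ S) : 1 / (384 * (n:ℝ) ^ 2) ≤ (volume (LS S v)).toReal := by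
  classical
  have hnr : (10:ℝ) ^ 9 ≤ n := by exact_mod_cast hn
  have hn0 : (0:ℝ) < n := by linarith [hnr, (by norm_num : (0:ℝ) < 10 ^ 9)]
  have hsqb : 31622 ≤ Real.sqrt n := by
    apply Real.le_sqrt_of_sq_le; linarith [hnr, (by norm_num : (31622:ℝ) ^ 2 ≤ 10 ^ 9)]
  have hsq : 0 < Real.sqrt n := Real.sqrt_pos.2 hn0
  have hρs : 400 / Real.sqrt n ≤ 1 / 64 := by
    rw [div_le_iff₀ hsq]; linarith
  have hce := cov_erase (h.unit v hv) hcov (by positivity) (by linarith)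
  set S'' := S.erase v with hS''
  have hunit'' : ∀ x ∈ S'', ‖x‖ = 1 := fun x hx => h.unit x (Finset.mem_of_mem_erase hx)
  obtain ⟨ρ, hρ0, hcovr, u, hu, hfar⟩ := cov_radius S'' (cov_nonempty hce)
  have hρle : ρ ≤ 4 * (400 / Real.sqrt n) := by
    obtain ⟨x, hx, hxu⟩ := hce u hu
    exact (hfar x hx).trans hxu
  have hρpos : 0 < ρ := by
    rcases hρ0.lt_or_eq with h1 | h1
    · exact h1
    · exfalso
      obtain ⟨w, hw, hw'⟩ := exists_unit_notMem S'' hunit''
      obtain ⟨x, hx, hxw⟩ := hcovr w hw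
      rw [← h1] at hxw
      have : x - w = 0 := norm_le_zero_iff.1 hxw
      rw [sub_eq_zero] at this
      exact hw' (this ▸ hx)
  have hcard : S''.card = n - 1 := by rw [hS'', Finset.card_erase_of_mem hv, h.card]
  have h1 := cov_count_all hunit'' (ρ := 2 * ρ) (by positivity) (by linarith) (by
    intro w hw
    obtain ⟨x, hx, hxw⟩ := hcovr w hw
    refine ⟨x, hx, ?_⟩
    rw [norm_sub_rev]; linarith)
  have h2 : (S''.card : ℝ) ≤ n := by
    rw [hcard]; exact_mod_cast Nat.sub_le n 1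
  have h3 : 1 ≤ n * ρ ^ 2 := by nlinarith [sq_nonneg ρ]
  have hg := gain hunit'' hρpos (by linarith) hcovr hu hfar
  have h4 := h.max' (T := insert u S'') (by
    have := Finset.card_insert_le u S''
    omega) (by
    intro x hx
    rcases Finset.mem_insert.1 hx with rfl | hx
    · exact hu
    · exact hunit'' x hx)
  have h5 := Vol_erase S v
  have h6 : 1 / (384 * (n:ℝ) ^ 2) ≤ ρ ^ 4 / 384 := by
    rw [div_le_div_iff₀ (by positivity) (by norm_num)]
    nlinarith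
  rw [← hS''] at h5
  linarith

theorem local_fin {n : ℕ} (hn : 10 ^ 10 ≤ n) (h : MaxS S n) (hcov : Cov S (400 / Real.sqrt n))
    {z : E} (hz : ‖z‖ = 1) {A : Finset E} (hA : A ⊆ S)
    (hAz : ∀ x ∈ A, ‖x - z‖ ≤ 10 * (400 / Real.sqrt n)) : A.card ≤ 2 * 10 ^ 18 := by
  classical
  rcases A.eq_empty_or_nonempty with rfl | hAne
  · simp
  have hnr : (10:ℝ) ^ 10 ≤ n := by exact_mod_cast hn
  have hn0 : (0:ℝ) < n := by linarith [hnr, (by norm_num : (0:ℝ) < 10 ^ 10)]
  have hsqb : 100000 ≤ Real.sqrt n := by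
    apply Real.le_sqrt_of_sq_le; linarith [hnr, (by norm_num : (100000:ℝ) ^ 2 ≤ 10 ^ 10)]
  have hsq : 0 < Real.sqrt n := Real.sqrt_pos.2 hn0
  have pi1 := Real.pi_gt_three
  have pi2 := Real.pi_lt_d2
  set ρ := 400 / Real.sqrt n with hρ
  have hρpos : 0 < ρ := by positivity
  have hρs : ρ ≤ 1 / 250 := by
    rw [hρ, div_le_iff₀ hsq]; linarith
  have hρ2 : ρ ^ 2 * n = 160000 := by
    rw [hρ, div_pow, Real.sq_sqrt hn0.le]; field_simp; norm_num
  obtain ⟨v, hv, hvl⟩ := exists_small_loss S A hAne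
  have hUsub : (⋃ v ∈ A, LS S v) ⊆ sect z (1 - (36 * ρ) ^ 2 / 2) \
      Metric.closedBall 0 (1 - 8 * ρ ^ 2) := by
    intro y hy
    simp only [Set.mem_iUnion] at hy
    obtain ⟨w, hw, hy⟩ := hy
    obtain ⟨h1, h2, h3⟩ := loss_sub h.unit hρpos (by linarith) hcov (hA hw) hy
    have h4 := hAz w hw
    have h5 : ‖y - z‖ ≤ 18 * ρ := by
      have e : y - z = (y - w) + (w - z) := by abel
      rw [e]; exact (norm_add_le _ _).trans (by linarith)
    refine ⟨⟨h2, ?_⟩, by rw [mem_closedBall_zero_iff]; linarith⟩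
    have h6 := norm_sub_sq_real y z
    rw [hz, real_inner_comm] at h6
    have h7 : ‖y - z‖ ^ 2 ≤ (18 * ρ) ^ 2 := pow_le_pow_left₀ (norm_nonneg _) h5 2
    have h8 : 1 / 2 < ‖y‖ := by nlinarith
    have h9 : (36 * ρ) ^ 2 / 2 * ‖y‖ > (18 * ρ) ^ 2 / 2 := by
      have : 0 < ρ ^ 2 := by positivity
      nlinarith
    nlinarith [sq_nonneg (‖y‖ - 1)]
  have h3 := hvl.trans (mul_le_mul_right (measure_mono hUsub) 4)
  have hρ22 : ρ ^ 2 ≤ 1 / 62500 := by nlinarith
  have h3' := h3.trans (mul_le_mul_right (vol_sect_shell hz (t := 36 * ρ) (by positivity)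
    (by linarith) (r := 1 - 8 * ρ ^ 2) (by linarith) (by nlinarith)) 4)
  have h4 := ENNReal.toReal_mono (by
    apply ENNReal.mul_ne_top (by norm_num) ENNReal.ofReal_ne_top) h3'
  have hcb := cube_bd hρpos.le (by linarith)
  have hcb0 : 0 ≤ 1 - (1 - 8 * ρ ^ 2) ^ 3 := by
    have : (1 - 8 * ρ ^ 2) ^ 3 ≤ 1 := pow_le_one₀ (by linarith) (by nlinarith)
    linarith
  rw [ENNReal.toReal_mul, ENNReal.toReal_mul, ENNReal.toReal_ofReal (by positivity)] at h4
  simp only [ENNReal.toReal_natCast, ENNReal.toReal_ofNat] at h4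
  have hloss := each_loss (by omega) h hcov (hA hv)
  have h8 : (A.card : ℝ) * (1 / (384 * (n:ℝ) ^ 2)) ≤ 4 * (Real.pi * (36 * ρ) ^ 2 / 3 * (24 * ρ ^ 2)) := by
    calc (A.card : ℝ) * (1 / (384 * (n:ℝ) ^ 2)) ≤ A.card * (volume (LS S v)).toReal :=
          mul_le_mul_of_nonneg_left hloss (by positivity)
      _ ≤ 4 * (Real.pi * (36 * ρ) ^ 2 / 3 * (1 - (1 - 8 * ρ ^ 2) ^ 3)) := h4
      _ ≤ _ := by
        apply mul_le_mul_of_nonneg_left _ (by norm_num)
        exact mul_le_mul_of_nonneg_left hcb (by positivity)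
  have h9 : (A.card : ℝ) ≤ 41472 * 384 * Real.pi * (ρ ^ 2 * n) ^ 2 := by
    rw [mul_one_div, div_le_iff₀ (by positivity)] at h8
    nlinarith
  rw [hρ2] at h9
  have h10 : (A.card : ℝ) ≤ 2 * 10 ^ 18 := by nlinarith
  exact_mod_cast h10

end Med
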