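import Mathlib

set_option autoImplicit false

namespace Med

variable {X : Type*}

lemma ais (f : Equiv.Perm X) (x : X) : f (f⁻¹ x) = x := f.apply_symm_apply x
lemma ias (f : Equiv.Perm X) (x : X) : f⁻¹ (f x) = x := f.symm_apply_apply x

structure RegS (s r : Equiv.Perm X) (Reg : ℕ → X → Prop) : Prop where
  rr : ∀ x, r (r x) = x
  r3 : ∀ x, r (s (r (s (r (s x))))) = x
  dec : ∀ k x, Reg (k + 1) x → Reg k x
  sreg : ∀ k x, Reg k x ↔ Reg k (s x)
  rreg : ∀ k x, Reg (k + 1) x → Reg k (r x)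
  six : ∀ x, Reg 0 x → (s ^ 6) x = x

namespace RegS

variable {s r : Equiv.Perm X} {Reg : ℕ → X → Prop}

lemma mono (h : RegS s r Reg) {k l : ℕ} (hkl : k ≤ l) {x : X} (hx : Reg l x) : Reg k x := by
  induction l, hkl using Nat.le_induction with
  | base => exact hx
  | succ l _ ih => exact ih (h.dec _ _ hx)

lemma rinv (h : RegS s r Reg) : r⁻¹ = r := by
  ext x
  rw [Equiv.Perm.inv_eq_iff_eq, h.rr]

lemma sinv_reg (h : RegS s r Reg) {k : ℕ} {x : X} : Reg k (s⁻¹ x) ↔ Reg k x := by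
  rw [h.sreg k (s⁻¹ x), ais]

lemma key1 (h : RegS s r Reg) : r * s * r = s⁻¹ * r * s⁻¹ := by
  ext x
  simp only [Equiv.Perm.mul_apply]
  have h1 := h.r3 (s⁻¹ x)
  rw [ais] at h1
  -- r s r s r x = s⁻¹ x
  have h2 : s (r (s (r x))) = r (s⁻¹ x) := by
    rw [← h1, h.rr]
  rw [← h2, ias]

lemma key2 (h : RegS s r Reg) : r * s⁻¹ * r = s * r * s := by
  have h1 := congrArg (fun g => g⁻¹) h.key1
  simp only [mul_inv_rev, h.rinv, inv_inv] at h1
  rw [mul_assoc, h1, mul_assoc]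

def TP (s r : Equiv.Perm X) : Equiv.Perm X := s ^ 3 * r
def QP (s r : Equiv.Perm X) : Equiv.Perm X := s ^ 2 * r * s
def UP (s r : Equiv.Perm X) : Equiv.Perm X := s * r * s ^ 2

lemma six_inv (h : RegS s r Reg) {y : X} (hy : Reg 0 y) : (s ^ 4) y = (s⁻¹) (s⁻¹ y) := by
  have := h.six y hy
  rw [Equiv.Perm.eq_inv_iff_eq, Equiv.Perm.eq_inv_iff_eq]
  have e : s (s ((s ^ 4) y)) = (s ^ 6) y := by
    simp only [← Equiv.Perm.mul_apply]; congr 1
  rw [e, this]

lemma five_inv (h : RegS s r Reg) {y : X} (hy : Reg 0 y) : (s ^ 5) y = s⁻¹ y := by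
  have := h.six y hy
  rw [Equiv.Perm.eq_inv_iff_eq]
  have e : s ((s ^ 5) y) = (s ^ 6) y := by
    simp only [← Equiv.Perm.mul_apply]; congr 1
  rw [e, this]

lemma comm (h : RegS s r Reg) {x : X} (hx : Reg 1 x) : TP s r (QP s r x) = QP s r (TP s r x) := by
  have hr : Reg 0 (r x) := h.rreg 0 x hx
  have h4 := h.six_inv hr
  have e1 : QP s r (TP s r x) = (s ^ 2) (r ((s ^ 4) (r x))) := by
    simp only [QP, TP, ← Equiv.Perm.mul_apply]
    congr 1
  have hk := h.key1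
  have hrr : r * r = 1 := by ext x; exact h.rr x
  have e2 : TP s r * QP s r = s ^ 2 * r * s⁻¹ * s⁻¹ * r := by
    have h5 : r * s ^ 2 * r = (r * s * r) * (r * s * r) := by
      have : (r * s * r) * (r * s * r) = r * s * (r * r) * s * r := by group
      rw [this, hrr, pow_two]; simp only [mul_assoc, mul_one, one_mul]
    rw [hk] at h5
    have h6 : TP s r * QP s r = s ^ 3 * (r * s ^ 2 * r) * s := by unfold TP QP; group
    rw [h6, h5]; group
  rw [e1, h4, ← Equiv.Perm.mul_apply, e2]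
  rfl

lemma urel (h : RegS s r Reg) {x : X} (hx : Reg 1 x) : UP s r (TP s r x) = QP s r x := by
  have hr : Reg 0 (r x) := h.rreg 0 x hx
  have h5 := h.five_inv hr
  have e1 : UP s r (TP s r x) = s (r ((s ^ 5) (r x))) := by
    simp only [UP, TP, ← Equiv.Perm.mul_apply]
    congr 1
  rw [e1, h5]
  have := congrArg (fun g : Equiv.Perm X => (s * g) x) h.key2
  simp only [Equiv.Perm.mul_apply] at this
  rw [this]
  simp [QP, pow_two]

lemma Tconj : s⁻¹ * TP s r * s = QP s r := by unfold TP QP; group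
lemma Qconj : s⁻¹ * QP s r * s = UP s r := by
  unfold QP UP; simp only [pow_two, mul_assoc, inv_mul_cancel_left]

lemma spow_reg (h : RegS s r Reg) (j : ℕ) {k : ℕ} {x : X} : Reg k ((s ^ j) x) ↔ Reg k x := by
  induction j with
  | zero => simp
  | succ j ih => rw [pow_succ', Equiv.Perm.mul_apply, ← h.sreg, ih]

lemma Treg (h : RegS s r Reg) {k : ℕ} {x : X} (hx : Reg (k + 1) x) : Reg k (TP s r x) := by
  unfold TP; rw [Equiv.Perm.mul_apply, h.spow_reg]; exact h.rreg _ _ hx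

lemma Tireg (h : RegS s r Reg) {k : ℕ} {x : X} (hx : Reg (k + 1) x) : Reg k ((TP s r)⁻¹ x) := by
  unfold TP
  rw [mul_inv_rev, h.rinv, Equiv.Perm.mul_apply]
  apply h.rreg
  rw [← h.spow_reg 3, ais]
  exact hx

lemma Qreg (h : RegS s r Reg) {k : ℕ} {x : X} (hx : Reg (k + 1) x) : Reg k (QP s r x) := by
  unfold QP; rw [Equiv.Perm.mul_apply, Equiv.Perm.mul_apply, h.spow_reg]
  apply h.rreg
  rw [← h.sreg]; exact hx

lemma Qireg (h : RegS s r Reg) {k : ℕ} {x : X} (hx : Reg (k + 1) x) : Reg k ((QP s r)⁻¹ x) := by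
  unfold QP
  rw [mul_inv_rev, mul_inv_rev, h.rinv, Equiv.Perm.mul_apply, Equiv.Perm.mul_apply, h.sinv_reg]
  apply h.rreg
  rw [← h.spow_reg 2, ais]
  exact hx

lemma Ureg (h : RegS s r Reg) {k : ℕ} {x : X} (hx : Reg (k + 1) x) : Reg k (UP s r x) := by
  unfold UP; rw [Equiv.Perm.mul_apply, Equiv.Perm.mul_apply, ← h.sreg]
  apply h.rreg
  rw [h.spow_reg]; exact hx

lemma Uireg (h : RegS s r Reg) {k : ℕ} {x : X} (hx : Reg (k + 1) x) : Reg k ((UP s r)⁻¹ x) := by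
  unfold UP
  rw [mul_inv_rev, mul_inv_rev, h.rinv, Equiv.Perm.mul_apply, Equiv.Perm.mul_apply]
  rw [← h.spow_reg 2, ais]
  apply h.rreg
  rw [h.sinv_reg]; exact hx

lemma natreg {P : Equiv.Perm X} (hP : ∀ k x, Reg (k + 1) x → Reg k (P x)) (a : ℕ) {k : ℕ} {x : X}
    (hx : Reg (k + a) x) : Reg k ((P ^ a) x) := by
  induction a generalizing x with
  | zero => simpa using hx
  | succ a ih =>
    rw [pow_succ, Equiv.Perm.mul_apply]
    exact ih (hP _ _ (by rwa [add_assoc]))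

lemma natcomm (h : RegS s r Reg) {P Q : Equiv.Perm X} (hP : ∀ k x, Reg (k + 1) x → Reg k (P x))
    (hQ : ∀ k x, Reg (k + 1) x → Reg k (Q x)) (c : ℕ) (hc : ∀ x, Reg c x → P (Q x) = Q (P x))
    (a b : ℕ) {x : X} (hx : Reg (a + b + c) x) :
    (P ^ a) ((Q ^ b) x) = (Q ^ b) ((P ^ a) x) := by
  have h1 : ∀ a : ℕ, ∀ x, Reg (a + c) x → (P ^ a) (Q x) = Q ((P ^ a) x) := by
    intro a
    induction a with
    | zero => intro x _; simp
    | succ a ih =>
      intro x hx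
      rw [pow_succ, Equiv.Perm.mul_apply, Equiv.Perm.mul_apply, hc x (h.mono (by omega) hx)]
      apply ih
      apply hP
      exact h.mono (by omega) hx
  induction b generalizing x with
  | zero => simp
  | succ b ih =>
    rw [pow_succ Q, Equiv.Perm.mul_apply, Equiv.Perm.mul_apply, ih (hQ _ _ (h.mono (by omega) hx)),
      h1 a x (h.mono (by omega) hx)]

lemma cinv (h : RegS s r Reg) {P Q : Equiv.Perm X}
    (hPi : ∀ k x, Reg (k + 1) x → Reg k (P⁻¹ x)) (c : ℕ)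
    (hc : ∀ x, Reg c x → P (Q x) = Q (P x)) : ∀ x, Reg (c + 1) x → P⁻¹ (Q x) = Q (P⁻¹ x) := by
  intro x hx
  rw [Equiv.Perm.inv_eq_iff_eq, hc _ (hPi _ _ hx), ais]

lemma zcomm (h : RegS s r Reg) {P Q : Equiv.Perm X} (hP : ∀ k x, Reg (k + 1) x → Reg k (P x))
    (hQ : ∀ k x, Reg (k + 1) x → Reg k (Q x)) (hPi : ∀ k x, Reg (k + 1) x → Reg k (P⁻¹ x))
    (hQi : ∀ k x, Reg (k + 1) x → Reg k (Q⁻¹ x)) (hc : ∀ x, Reg 1 x → P (Q x) = Q (P x))
    (a b : ℤ) {x : X} (hx : Reg (a.natAbs + b.natAbs + 3) x) :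
    (P ^ a) ((Q ^ b) x) = (Q ^ b) ((P ^ a) x) := by
  obtain ⟨m, rfl | rfl⟩ := a.eq_nat_or_neg <;> obtain ⟨l, rfl | rfl⟩ := b.eq_nat_or_neg
  · simp only [zpow_natCast, Int.natAbs_natCast] at hx ⊢
    exact h.natcomm hP hQ 1 hc m l (h.mono (by omega) hx)
  · simp only [zpow_natCast, zpow_neg, Int.natAbs_natCast, Int.natAbs_neg, ← inv_pow] at hx ⊢
    have hc' := h.cinv hQi 1 (fun x hx => (hc x hx).symm)
    exact h.natcomm hP hQi 2 (fun x hx => (hc' x hx).symm) m l (h.mono (by omega) hx)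
  · simp only [zpow_natCast, zpow_neg, Int.natAbs_natCast, Int.natAbs_neg, ← inv_pow] at hx ⊢
    have hc' := h.cinv hPi 1 hc
    exact h.natcomm hPi hQ 2 hc' m l (h.mono (by omega) hx)
  · simp only [zpow_natCast, zpow_neg, Int.natAbs_natCast, Int.natAbs_neg, ← inv_pow] at hx ⊢
    have hc' := h.cinv hPi 1 hc
    have hc'' := h.cinv hQi 2 (fun x hx => (hc' x hx).symm)
    exact h.natcomm hPi hQi 3 (fun x hx => (hc'' x hx).symm) m l (h.mono (by omega) hx)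

lemma zreg {P : Equiv.Perm X} (hP : ∀ k x, Reg (k + 1) x → Reg k (P x))
    (hPi : ∀ k x, Reg (k + 1) x → Reg k (P⁻¹ x)) (a : ℤ) {k : ℕ} {x : X}
    (hx : Reg (k + a.natAbs) x) : Reg k ((P ^ a) x) := by
  obtain ⟨m, rfl | rfl⟩ := a.eq_nat_or_neg
  · simp only [zpow_natCast, Int.natAbs_natCast] at hx ⊢
    exact natreg hP m hx
  · simp only [zpow_natCast, zpow_neg, Int.natAbs_natCast, Int.natAbs_neg, ← inv_pow] at hx ⊢
    exact natreg hPi m hx

def FF (s r : Equiv.Perm X) (a b : ℤ) (x : X) : X := (QP s r ^ b) ((TP s r ^ a) x)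

lemma FF_reg (h : RegS s r Reg) (a b : ℤ) {k : ℕ} {x : X}
    (hx : Reg (k + b.natAbs + a.natAbs) x) : Reg k (FF s r a b x) :=
  zreg (fun _ _ => h.Qreg) (fun _ _ => h.Qireg) b
    (zreg (fun _ _ => h.Treg) (fun _ _ => h.Tireg) a hx)

lemma TQ_comm (h : RegS s r Reg) (a b : ℤ) {x : X} (hx : Reg (a.natAbs + b.natAbs + 3) x) :
    (TP s r ^ a) ((QP s r ^ b) x) = (QP s r ^ b) ((TP s r ^ a) x) :=
  h.zcomm (fun _ _ => h.Treg) (fun _ _ => h.Qreg) (fun _ _ => h.Tireg) (fun _ _ => h.Qireg)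
    (fun _ hx => h.comm hx) a b hx

lemma FF_add (h : RegS s r Reg) (a b a' b' : ℤ) {x : X}
    (hx : Reg (a.natAbs + b'.natAbs + 3 + a'.natAbs) x) :
    FF s r a b (FF s r a' b' x) = FF s r (a + a') (b + b') x := by
  unfold FF
  have h1 : Reg (a.natAbs + b'.natAbs + 3) ((TP s r ^ a') x) :=
    zreg (fun _ _ => h.Treg) (fun _ _ => h.Tireg) a' hx
  rw [h.TQ_comm a b' h1, zpow_add (TP s r), zpow_add (QP s r), Equiv.Perm.mul_apply,
    Equiv.Perm.mul_apply]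

lemma natsplit (h : RegS s r Reg) {P Q U : Equiv.Perm X}
    (hP : ∀ k x, Reg (k + 1) x → Reg k (P x)) (hQ : ∀ k x, Reg (k + 1) x → Reg k (Q x)) (c : ℕ)
    (hc : ∀ x, Reg c x → P (Q x) = Q (P x)) (hU : ∀ x, Reg c x → U x = Q (P x))
    (b : ℕ) {x : X} (hx : Reg (2 * b + c) x) : (U ^ b) x = (Q ^ b) ((P ^ b) x) := by
  induction b generalizing x with
  | zero => simp
  | succ b ih =>
    rw [pow_succ, Equiv.Perm.mul_apply, hU x (h.mono (by omega) hx),
      ih (hQ _ _ (hP _ _ (h.mono (by omega) hx)))]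
    have h2 := h.natcomm hP hQ c hc b 1 (x := P x) (hP _ _ (h.mono (by omega) hx))
    rw [pow_one] at h2
    rw [h2, pow_succ, pow_succ]
    rfl

lemma zsplit (h : RegS s r Reg) (b : ℤ) {x : X} (hx : Reg (2 * b.natAbs + 3) x) :
    (UP s r ^ b) x = (QP s r ^ b) ((TP s r ^ (-b)) x) := by
  have hTi : ∀ x, Reg 2 x → (TP s r)⁻¹ (QP s r x) = QP s r ((TP s r)⁻¹ x) :=
    h.cinv (fun _ _ => h.Tireg) 1 (fun _ hx => h.comm hx)
  have hQi : ∀ x, Reg 2 x → (QP s r)⁻¹ (TP s r x) = TP s r ((QP s r)⁻¹ x) :=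
    h.cinv (fun _ _ => h.Qireg) 1 (fun _ hx => (h.comm hx).symm)
  have hU : ∀ x, Reg 2 x → UP s r x = QP s r ((TP s r)⁻¹ x) := by
    intro x hx
    rw [← h.urel (h.Tireg hx), ais]
  have hUi : ∀ x, Reg 2 x → (UP s r)⁻¹ x = (QP s r)⁻¹ (TP s r x) := by
    intro x hx
    rw [hQi x hx, Equiv.Perm.inv_eq_iff_eq, h.urel (h.Qireg hx), ais]
  obtain ⟨l, rfl | rfl⟩ := b.eq_nat_or_neg
  · simp only [zpow_natCast, zpow_neg, Int.natAbs_natCast, ← inv_pow] at hx ⊢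
    exact h.natsplit (fun _ _ => h.Tireg) (fun _ _ => h.Qreg) 2 hTi hU l
      (h.mono (by omega) hx)
  · simp only [zpow_natCast, zpow_neg, neg_neg, Int.natAbs_natCast, Int.natAbs_neg, ← inv_pow]
      at hx ⊢
    exact h.natsplit (fun _ _ => h.Treg) (fun _ _ => h.Qireg) 2 (fun x hx => (hQi x hx).symm) hUi l
      (h.mono (by omega) hx)

lemma FF_s (h : RegS s r Reg) (a b : ℤ) {x : X}
    (hx : Reg (2 * b.natAbs + a.natAbs + 3) x) :
    FF s r a b (s x) = s (FF s r (-b) (a + b) x) := by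
  unfold FF
  have h1 : (TP s r ^ a) (s x) = s ((QP s r ^ a) x) := by
    rw [← Tconj]
    have : (s⁻¹ * TP s r * s) ^ a = s⁻¹ * (TP s r) ^ a * s := by
      have := conj_zpow (a := s⁻¹) (b := TP s r) (i := a)
      simpa using this
    rw [this, Equiv.Perm.mul_apply, Equiv.Perm.mul_apply, ais]
  have h2 : ∀ y, (QP s r ^ b) (s y) = s ((UP s r ^ b) y) := by
    intro y
    rw [← Qconj]
    have : (s⁻¹ * QP s r * s) ^ b = s⁻¹ * (QP s r) ^ b * s := by
      have := conj_zpow (a := s⁻¹) (b := QP s r) (i := b)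
      simpa using this
    rw [this, Equiv.Perm.mul_apply, Equiv.Perm.mul_apply, ais]
  rw [h1, h2]
  congr 1
  rw [h.zsplit b (zreg (fun _ _ => h.Qreg) (fun _ _ => h.Qireg) a (h.mono (by omega) hx)),
    h.TQ_comm (-b) a (h.mono (by rw [Int.natAbs_neg]; omega) hx), ← Equiv.Perm.mul_apply,
    ← zpow_add, add_comm b a]

end RegS

end Med
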