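import Pool.Agent.Helper946.M2

set_option autoImplicit false

namespace Med

variable {S : Finset E}

noncomputable def dcard (S : Finset E) (v : E) : ℕ :=
  by classical exact (Finset.univ.filter (fun d : Dart S => d.tl = v)).card

lemma dcard_eq_minimalPeriod (hS : Cfg S) (d : Dart S) :
    dcard S d.tl = Function.minimalPeriod (sg hS) d := by
  classical
  set p := Function.minimalPeriod (sg hS) d with hp
  have hppos : 0 < p := by
    apply Function.minimalPeriod_pos_of_mem_periodicPts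
    obtain ⟨k, hk⟩ := exists_pow_inv hS d
    refine ⟨k + 1, Nat.succ_pos k, ?_⟩
    show (sg hS)^[k + 1] d = d
    rw [← pow_eq_iterate, pow_succ, Equiv.Perm.mul_apply, hk]
  have himg : (Finset.univ.filter (fun e : Dart S => e.tl = d.tl))
      = (Finset.range p).image (fun k => (sg hS)^[k] d) := by
    ext e
    simp only [Finset.mem_filter, Finset.mem_univ, true_and, Finset.mem_image, Finset.mem_range]
    constructor
    · intro h
      obtain ⟨k, hk⟩ := single_orbit hS d e h.symm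
      refine ⟨k % p, Nat.mod_lt _ hppos, ?_⟩
      rw [hp, Function.iterate_mod_minimalPeriod_eq, ← pow_eq_iterate, hk]
    · rintro ⟨k, _, rfl⟩
      rw [← pow_eq_iterate, sg_pow_tl]
  unfold dcard
  rw [himg, Finset.card_image_of_injOn, Finset.card_range]
  intro i hi j hj hij
  simp only [Finset.coe_range, Set.mem_Iio] at hi hj
  exact Function.iterate_injOn_Iio_minimalPeriod hi hj hij

lemma sg_per (hS : Cfg S) (d : Dart S) : (sg hS ^ (dcard S d.tl)) d = d := by
  rw [dcard_eq_minimalPeriod hS, pow_eq_iterate]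
  exact Function.iterate_minimalPeriod

lemma sg_nper (hS : Cfg S) (d : Dart S) {j : ℕ} (h0 : j ≠ 0) (h1 : j < dcard S d.tl) :
    (sg hS ^ j) d ≠ d := by
  rw [dcard_eq_minimalPeriod hS] at h1
  rw [pow_eq_iterate]
  intro h
  exact Function.not_isPeriodicPt_of_pos_of_lt_minimalPeriod h0 h1 h

lemma sum_dcard (S : Finset E) : ∑ v ∈ S, dcard S v = Fintype.card (Dart S) := by
  classical
  unfold dcard
  rw [← Finset.card_univ, Finset.card_eq_sum_card_fiberwise (f := Dart.tl) (t := S)]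
  intro d _
  exact d.tl_mem

lemma Cfg.card_three (hS : Cfg S) : 3 ≤ S.card := by
  classical
  obtain ⟨a, b, c, h⟩ := hS.exists_fct
  have hn := ne_of_dt h.2.2.2.1
  have : ({a, b, c} : Finset E) ⊆ S := by
    intro z hz
    simp only [Finset.mem_insert, Finset.mem_singleton] at hz
    rcases hz with rfl | rfl | rfl
    · exact h.1
    · exact h.2.1
    · exact h.2.2.1
  calc 3 = ({a, b, c} : Finset E).card := by
        rw [Finset.card_insert_of_notMem, Finset.card_insert_of_notMem, Finset.card_singleton]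
        · simpa using hn.2.1
        · simp; exact ⟨hn.1, hn.2.2⟩
    _ ≤ S.card := Finset.card_le_card this

lemma edg_iff (hS : Cfg S) {v w : E} (hv : v ∈ S) :
    Edg S v w ↔ (w ∈ S ∧ w ≠ v ∧ ∃ (a : E) (c : ℝ), (∀ x ∈ S, inner ℝ a x ≤ c) ∧
                ∀ x ∈ S, (inner ℝ a x = c ↔ (x = v ∨ x = w))) := by
  classical
  constructor
  · rintro ⟨_, hw, hvw, y, h1, h2, h3⟩
    refine ⟨hw, hvw.symm, y, 1, ?_, ?_⟩
    · intro x hx
      by_cases h4 : x = v
      · rw [h4, h1]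
      by_cases h5 : x = w
      · rw [h5, h2]
      exact (h3 x hx h4 h5).le
    · intro x hx
      constructor
      · intro h
        by_contra hne
        push Not at hne
        linarith [h3 x hx hne.1 hne.2]
      · rintro (rfl | rfl) <;> assumption
  · rintro ⟨hw, hvw, a, c, h1, h2⟩
    have ha : a ≠ 0 := by
      rintro rfl
      have hc : c = 0 := by
        have := (h2 v hv).2 (Or.inl rfl)
        simpa using this.symm
      have h3 := hS.card_three
      have h4 : S ⊆ {v, w} := by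
        intro x hx
        have := (h2 x hx).1 (by simp [hc])
        simpa using this
      have := Finset.card_le_card h4
      have h5 : ({v, w} : Finset E).card ≤ 2 := Finset.card_le_two
      omega
    obtain ⟨x, hx, hx'⟩ := hS.pos a ha
    have hc : 0 < c := lt_of_lt_of_le hx' (h1 x hx)
    refine ⟨hv, hw, hvw.symm, c⁻¹ • a, ?_, ?_, ?_⟩
    · rw [real_inner_smul_left, (h2 v hv).2 (Or.inl rfl), inv_mul_cancel₀ hc.ne']
    · rw [real_inner_smul_left, (h2 w hw).2 (Or.inr rfl), inv_mul_cancel₀ hc.ne']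
    · intro x hx h3 h4
      rw [real_inner_smul_left, inv_mul_lt_iff₀ hc, mul_one]
      refine lt_of_le_of_ne (h1 x hx) fun h5 => ?_
      rcases (h2 x hx).1 h5 with h | h
      · exact h3 h
      · exact h4 h

lemma valence_eq (hS : Cfg S) {v : E} (hv : v ∈ S) :
    Set.ncard {w : E | w ∈ S ∧ w ≠ v ∧ ∃ (a : E) (c : ℝ), (∀ x ∈ S, inner ℝ a x ≤ c) ∧
                ∀ x ∈ S, (inner ℝ a x = c ↔ (x = v ∨ x = w))} = dcard S v := by
  classical
  have : {w : E | w ∈ S ∧ w ≠ v ∧ ∃ (a : E) (c : ℝ), (∀ x ∈ S, inner ℝ a x ≤ c) ∧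
                ∀ x ∈ S, (inner ℝ a x = c ↔ (x = v ∨ x = w))}
      = ((Finset.univ.filter (fun d : Dart S => d.tl = v)).image Dart.hd : Finset E) := by
    ext w
    rw [Set.mem_ofPred_eq, ← edg_iff hS hv]
    simp only [Finset.coe_image, Finset.coe_filter, Finset.mem_univ, true_and, Set.mem_image,
      Set.mem_ofPred_eq]
    constructor
    · intro h; exact ⟨⟨(v, w), h⟩, rfl, rfl⟩
    · rintro ⟨d, rfl, rfl⟩; exact d.edg
  rw [this, Set.ncard_coe_finset, Finset.card_image_of_injOn]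
  · rfl
  · intro d hd e he h
    simp only [Finset.coe_filter, Finset.mem_univ, true_and, Set.mem_ofPred_eq] at hd he
    exact Dart.ext (hd.trans he.symm) h

lemma exists_generic (S : Finset E) :
    ∃ ℓ : E, ∀ x ∈ S, ∀ y ∈ S, x ≠ y → inner ℝ ℓ x ≠ inner ℝ ℓ y := by
  classical
  have hfin : Set.Finite (⋃ p ∈ ((S ×ˢ S).filter (fun p : E × E => p.1 ≠ p.2)),
      {t : ℝ | (p.1 0 - p.2 0) + t * (p.1 1 - p.2 1) + t ^ 2 * (p.1 2 - p.2 2) = 0}) := by
    apply Set.Finite.biUnion (Finset.finite_toSet _)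
    rintro ⟨x, y⟩ hp
    simp only [Finset.coe_filter, Finset.mem_product, Set.mem_ofPred_eq] at hp
    have hgen : ∀ α β γ : ℝ, (Polynomial.C α + Polynomial.C β * Polynomial.X
      + Polynomial.C γ * Polynomial.X ^ 2 : Polynomial ℝ) = 0 → α = 0 ∧ β = 0 ∧ γ = 0 := by
      intro α β γ h0
      have c0 := congrArg (fun q : Polynomial ℝ => q.coeff 0) h0
      have c1 := congrArg (fun q : Polynomial ℝ => q.coeff 1) h0
      have c2 := congrArg (fun q : Polynomial ℝ => q.coeff 2) h0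
      simp [Polynomial.coeff_X, Polynomial.coeff_C] at c0 c1 c2
      exact ⟨c0, c1, c2⟩
    set P : Polynomial ℝ := Polynomial.C (x 0 - y 0) + Polynomial.C (x 1 - y 1) * Polynomial.X
      + Polynomial.C (x 2 - y 2) * Polynomial.X ^ 2 with hP
    have hP0 : P ≠ 0 := by
      intro h0
      apply hp.2
      obtain ⟨c0, c1, c2⟩ := hgen _ _ _ h0
      exact ext3 (by linarith) (by linarith) (by linarith)
    refine Set.Finite.subset (Polynomial.finite_setOfPred_isRoot hP0) ?_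
    intro t ht
    simp only [Set.mem_ofPred_eq] at ht ⊢
    simp only [hP, Polynomial.IsRoot.def, Polynomial.eval_add, Polynomial.eval_mul,
      Polynomial.eval_C, Polynomial.eval_X, Polynomial.eval_pow]
    linarith
  obtain ⟨t, ht⟩ := hfin.infinite_compl.nonempty
  refine ⟨!₂[1, t, t ^ 2], fun x hx y hy hxy h => ht ?_⟩
  simp only [Set.mem_iUnion]
  refine ⟨(x, y), by simp [hx, hy, hxy], ?_⟩
  rw [inr, inr] at h
  simp at h
  simp only [Set.mem_ofPred_eq]
  linarith

def mid (hS : Cfg S) (ℓ : E) (d : Dart S) : Prop :=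
  (inner ℝ ℓ d.hd < inner ℝ ℓ d.tl ∧ inner ℝ ℓ d.tl < inner ℝ ℓ (sg hS d).hd) ∨
  (inner ℝ ℓ (sg hS d).hd < inner ℝ ℓ d.tl ∧ inner ℝ ℓ d.tl < inner ℝ ℓ d.hd)

lemma tau_next1 (hS : Cfg S) (d : Dart S) : (sg hS (rh S (sg hS d))).hd = d.hd := by
  apply sg_hd_eq; simp; exact (sg_fct hS d).rot.rot

lemma tau_next2 (hS : Cfg S) (d : Dart S) :
    (sg hS (rh S (sg hS (rh S (sg hS d))))).hd = d.tl := by
  apply sg_hd_eq
  simp only [rh_tl, rh_hd, sg_tl, tau_next1]
  exact (sg_fct hS d).rot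

noncomputable def mids (hS : Cfg S) (ℓ : E) : Finset (Dart S) := by
  classical exact Finset.univ.filter (mid hS ℓ)

lemma card_mids (hS : Cfg S) {ℓ : E}
    (hℓ : ∀ x ∈ S, ∀ y ∈ S, x ≠ y → inner ℝ ℓ x ≠ inner ℝ ℓ y) :
    3 * (mids hS ℓ).card = Fintype.card (Dart S) := by
  classical
  set τ : Equiv.Perm (Dart S) := rh S * sg hS with hτ
  have h1 : ∀ d : Dart S, (if mid hS ℓ d then 1 else 0) + (if mid hS ℓ (τ d) then 1 else 0)
      + (if mid hS ℓ (τ (τ d)) then 1 else 0) = 1 := by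
    intro d
    have hF := sg_fct hS d
    have hn := ne_of_dt hF.2.2.2.1
    have e1 := hℓ _ hF.1 _ hF.2.1 hn.1
    have e2 := hℓ _ hF.2.1 _ hF.2.2.1 hn.2.1
    have e3 := hℓ _ hF.1 _ hF.2.2.1 hn.2.2
    have m1 : mid hS ℓ (τ d) ↔ ((inner ℝ ℓ d.tl < inner ℝ ℓ (sg hS d).hd ∧
        inner ℝ ℓ (sg hS d).hd < inner ℝ ℓ d.hd) ∨
        (inner ℝ ℓ d.hd < inner ℝ ℓ (sg hS d).hd ∧ inner ℝ ℓ (sg hS d).hd < inner ℝ ℓ d.tl)) := by
      rw [mid, hτ, Equiv.Perm.mul_apply, tau_next1]; rfl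
    have m2 : mid hS ℓ (τ (τ d)) ↔ ((inner ℝ ℓ (sg hS d).hd < inner ℝ ℓ d.hd ∧
        inner ℝ ℓ d.hd < inner ℝ ℓ d.tl) ∨
        (inner ℝ ℓ d.tl < inner ℝ ℓ d.hd ∧ inner ℝ ℓ d.hd < inner ℝ ℓ (sg hS d).hd)) := by
      rw [mid, hτ, Equiv.Perm.mul_apply, Equiv.Perm.mul_apply, tau_next2]
      simp only [rh_tl, rh_hd, sg_tl, tau_next1]
    rw [m1, m2, mid]
    rcases lt_or_gt_of_ne e1 with a1 | a1 <;> rcases lt_or_gt_of_ne e2 with a2 | a2 <;>
      rcases lt_or_gt_of_ne e3 with a3 | a3 <;>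
      simp [a1, a2, a3, a1.le, a2.le, a3.le, not_lt.2 a1.le, not_lt.2 a2.le, not_lt.2 a3.le] <;>
      linarith
  have h2 : ∑ d : Dart S, ((if mid hS ℓ d then 1 else 0) + (if mid hS ℓ (τ d) then 1 else 0)
      + (if mid hS ℓ (τ (τ d)) then 1 else 0)) = Fintype.card (Dart S) := by
    rw [Finset.sum_congr rfl (fun d _ => h1 d)]; simp
  rw [Finset.sum_add_distrib, Finset.sum_add_distrib,
    Equiv.sum_comp τ (fun d => if mid hS ℓ d then 1 else 0),
    show (∑ d : Dart S, if mid hS ℓ (τ (τ d)) then 1 else 0)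
      = ∑ d : Dart S, if mid hS ℓ d then 1 else 0 from
      Equiv.sum_comp (τ * τ) (fun d => if mid hS ℓ d then 1 else 0)] at h2
  rw [← h2, mids, Finset.card_filter]
  ring

lemma two_mids (hS : Cfg S) {ℓ : E}
    (hℓ : ∀ x ∈ S, ∀ y ∈ S, x ≠ y → inner ℝ ℓ x ≠ inner ℝ ℓ y) {v x y : E} (hv : v ∈ S)
    (hx : x ∈ S) (hy : y ∈ S) (h1 : inner ℝ ℓ v < inner ℝ ℓ x) (h2 : inner ℝ ℓ y < inner ℝ ℓ v) :
    ∃ d e : Dart S, d ≠ e ∧ d.tl = v ∧ e.tl = v ∧ mid hS ℓ d ∧ mid hS ℓ e := by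
  obtain ⟨u, hu, hu'⟩ := improving hS hv hx h1
  obtain ⟨w, hw, hw'⟩ := improving hS hv hy (ℓ := -ℓ) (by simp; exact h2)
  simp at hw'
  set du : Dart S := ⟨(v, u), hu⟩ with hdu
  set dw : Dart S := ⟨(v, w), hw⟩ with hdw
  obtain ⟨k, hk⟩ := single_orbit hS dw du rfl
  obtain ⟨k', hk'⟩ := single_orbit hS du dw rfl
  rw [pow_eq_iterate] at hk hk'
  obtain ⟨j, hj1, hj2⟩ := step_exists (sg hS) (fun e => inner ℝ ℓ v < inner ℝ ℓ e.hd) dw k
    (by simp only [not_lt]; exact hw'.le) (by rw [hk]; exact hu')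
  obtain ⟨i, hi1, hi2⟩ := step_exists (sg hS) (fun e => inner ℝ ℓ e.hd < inner ℝ ℓ v) du k'
    (by simp only [not_lt]; exact hu'.le) (by rw [hk']; exact hw')
  rw [Function.iterate_succ', Function.comp_apply] at hj2 hi2
  set d := (sg hS)^[j] dw with hd
  set e := (sg hS)^[i] du with he
  have td : d.tl = v := by rw [hd, ← pow_eq_iterate, sg_pow_tl]; rfl
  have te : e.tl = v := by rw [he, ← pow_eq_iterate, sg_pow_tl]; rfl
  have nd : inner ℝ ℓ d.hd ≠ inner ℝ ℓ v := hℓ _ d.hd_mem _ hv (by rw [← td]; exact d.ne.symm)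
  have ne : inner ℝ ℓ e.hd ≠ inner ℝ ℓ v := hℓ _ e.hd_mem _ hv (by rw [← te]; exact e.ne.symm)
  push Not at hj1 hi1
  have hj1' := lt_of_le_of_ne hj1 nd
  have hi1' := lt_of_le_of_ne hi1 ne.symm
  refine ⟨d, e, ?_, td, te, ?_, ?_⟩
  · intro h; rw [h] at hj1'; linarith
  · left; rw [td]; exact ⟨hj1', hj2⟩
  · right; rw [te]; exact ⟨hi2, hi1'⟩

theorem euler (hS : Cfg S) : 6 * S.card ≤ Fintype.card (Dart S) + 12 := by
  classical
  obtain ⟨ℓ, hℓ⟩ := exists_generic S
  rw [← card_mids hS hℓ]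
  obtain ⟨a0, b0, c0, h0⟩ := hS.exists_fct
  obtain ⟨vM, hvM, hM⟩ := Finset.exists_max_image S (fun x => inner ℝ ℓ x) ⟨a0, h0.1⟩
  obtain ⟨vm, hvm, hm⟩ := Finset.exists_min_image S (fun x => inner ℝ ℓ x) ⟨a0, h0.1⟩
  have h1 : (mids hS ℓ).card = ∑ v ∈ S, ((mids hS ℓ).filter (fun d => d.tl = v)).card := by
    rw [Finset.card_eq_sum_card_fiberwise (f := Dart.tl) (t := S)]
    intro d _
    exact d.tl_mem
  have h2 : ∑ v ∈ (S.erase vM).erase vm, 2 ≤
      ∑ v ∈ S, ((mids hS ℓ).filter (fun d => d.tl = v)).card := by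
    calc ∑ v ∈ (S.erase vM).erase vm, 2
        ≤ ∑ v ∈ (S.erase vM).erase vm, ((mids hS ℓ).filter (fun d => d.tl = v)).card := by
          apply Finset.sum_le_sum
          intro v hv
          simp only [Finset.mem_erase] at hv
          obtain ⟨hv1, hv2, hv3⟩ := hv
          obtain ⟨d, e, hde, td, te, md, me⟩ := two_mids hS hℓ hv3 hvM hvm
            (lt_of_le_of_ne (hM v hv3) (hℓ _ hv3 _ hvM hv2))
            (lt_of_le_of_ne (hm v hv3) (hℓ _ hvm _ hv3 (Ne.symm hv1)))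
          have : ({d, e} : Finset (Dart S)) ⊆ (mids hS ℓ).filter (fun d => d.tl = v) := by
            intro z hz
            simp only [Finset.mem_insert, Finset.mem_singleton] at hz
            rw [Finset.mem_filter, mids, Finset.mem_filter]
            rcases hz with rfl | rfl
            · exact ⟨⟨Finset.mem_univ _, md⟩, td⟩
            · exact ⟨⟨Finset.mem_univ _, me⟩, te⟩
          calc 2 = ({d, e} : Finset (Dart S)).card := (Finset.card_pair hde).symm
            _ ≤ _ := Finset.card_le_card this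
      _ ≤ _ := by
          apply Finset.sum_le_sum_of_subset
          exact (Finset.erase_subset _ _).trans (Finset.erase_subset _ _)
  have h3 : S.card - 1 - 1 ≤ ((S.erase vM).erase vm).card := by
    have := Finset.pred_card_le_card_erase (s := S) (a := vM)
    have := Finset.pred_card_le_card_erase (s := S.erase vM) (a := vm)
    omega
  rw [Finset.sum_const, smul_eq_mul, ← h1] at h2
  omega

end Med
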