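import Pool.Agent.Helper946.M12
import Pool.Agent.Helper946.M3

set_option autoImplicit false

namespace Med

section abstract

variable {X V : Type*} {s r : Equiv.Perm X} {Reg : ℕ → X → Prop}

structure TailS (s r : Equiv.Perm X) (tl hd : X → V) : Prop where
  stl : ∀ x, tl (s x) = tl x
  rtl : ∀ x, tl (r x) = hd x
  ne : ∀ x, tl x ≠ hd x

namespace TailS

variable {tl hd : X → V}

lemma sitl (t : TailS s r tl hd) (x : X) : tl (s⁻¹ x) = tl x := by
  rw [← t.stl (s⁻¹ x), ais]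

lemma sptl (t : TailS s r tl hd) (j : ℕ) (x : X) : tl ((s ^ j) x) = tl x := by
  induction j with
  | zero => simp
  | succ j ih => rw [pow_succ', Equiv.Perm.mul_apply, t.stl, ih]

lemma Ttl (t : TailS s r tl hd) (x : X) : tl (RegS.TP s r x) = hd x := by
  unfold RegS.TP; rw [Equiv.Perm.mul_apply, t.sptl, t.rtl]

lemma Qtl (t : TailS s r tl hd) (x : X) : tl (RegS.QP s r x) = hd (s x) := by
  unfold RegS.QP; rw [Equiv.Perm.mul_apply, Equiv.Perm.mul_apply, t.sptl, t.rtl]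

lemma Utl (t : TailS s r tl hd) (x : X) : tl (RegS.UP s r x) = hd ((s ^ 2) x) := by
  unfold RegS.UP; rw [Equiv.Perm.mul_apply, Equiv.Perm.mul_apply, t.stl, t.rtl]

lemma Titl (t : TailS s r tl hd) (h : RegS s r Reg) (x : X) :
    tl ((RegS.TP s r)⁻¹ x) = hd ((s ^ 3)⁻¹ x) := by
  unfold RegS.TP; rw [mul_inv_rev, h.rinv, Equiv.Perm.mul_apply, t.rtl]

lemma Qitl (t : TailS s r tl hd) (h : RegS s r Reg) (x : X) :
    tl ((RegS.QP s r)⁻¹ x) = hd ((s ^ 2)⁻¹ x) := by
  unfold RegS.QP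
  rw [mul_inv_rev, mul_inv_rev, h.rinv, Equiv.Perm.mul_apply, Equiv.Perm.mul_apply, t.sitl, t.rtl]

lemma Uitl (t : TailS s r tl hd) (h : RegS s r Reg) (x : X) :
    tl ((RegS.UP s r)⁻¹ x) = hd (s⁻¹ x) := by
  unfold RegS.UP
  rw [mul_inv_rev, mul_inv_rev, h.rinv, Equiv.Perm.mul_apply, Equiv.Perm.mul_apply,
    ← t.sptl 2 ((s ^ 2)⁻¹ _), ais, t.rtl]

lemma sip (t : TailS s r tl hd) (j : ℕ) (x : X) : tl ((s ^ j)⁻¹ x) = tl x := by
  rw [← t.sptl j ((s ^ j)⁻¹ x), ais]

end TailS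

variable {tl hd : X → V}

lemma FF_U (h : RegS s r Reg) {x : X} (hx : Reg 5 x) :
    RegS.FF s r (-1) 1 x = RegS.UP s r x := by
  have := h.zsplit 1 (x := x) (h.mono (by norm_num) hx)
  simp only [zpow_one] at this
  rw [this]; simp [RegS.FF]

lemma FF_Ui (h : RegS s r Reg) {x : X} (hx : Reg 5 x) :
    RegS.FF s r 1 (-1) x = (RegS.UP s r)⁻¹ x := by
  have := h.zsplit (-1) (x := x) (h.mono (by norm_num) hx)
  simp only [zpow_neg, zpow_one, neg_neg] at this
  rw [this]; simp [RegS.FF]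

/-- no rotation stabiliser -/
lemma rotstab (h : RegS s r Reg) (t : TailS s r tl hd)
    (hs : ∀ x, Reg 0 x → ∀ j : ℕ, j ≠ 0 → j < 6 → (s ^ j) x ≠ x)
    {α β : ℤ} {y : X} {j : ℕ} (hj0 : j ≠ 0) (hj : j ≤ 3)
    (hy : Reg (20 * (α.natAbs + β.natAbs) + 40) y)
    (hF : RegS.FF s r α β y = (s ^ j) y) : False := by
  have hadd : ∀ a b : ℤ, a.natAbs + b.natAbs ≤ 5 * (α.natAbs + β.natAbs) + 5 →
      RegS.FF s r (a + α) (b + β) y = RegS.FF s r a b ((s ^ j) y) := by
    intro a b hab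
    rw [← hF, h.FF_add]
    exact h.mono (by omega) hy
  have hreg : ∀ a b : ℤ, a.natAbs + b.natAbs ≤ 5 * (α.natAbs + β.natAbs) + 5 →
      Reg 10 (RegS.FF s r a b y) := by
    intro a b hab
    exact h.FF_reg a b (h.mono (by omega) hy)
  have hs1 : ∀ (a b : ℤ) (i : ℕ), a.natAbs + b.natAbs ≤ 6 * (α.natAbs + β.natAbs) + 6 →
      RegS.FF s r a b (s ((s ^ i) y)) = s (RegS.FF s r (-b) (a + b) ((s ^ i) y)) := by
    intro a b i hab
    apply h.FF_s
    rw [h.spow_reg]
    exact h.mono (by omega) hy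
  interval_cases j
  · exact hj0 rfl
  · -- j = 1
    have e1 := hadd β (-α - β) (by omega)
    rw [pow_one] at e1
    have e2 := hs1 β (-α - β) 0 (by omega)
    simp only [pow_zero, Equiv.Perm.one_apply] at e2
    rw [e2] at e1
    have e3 : -(-α - β) = β + α := by ring
    have e4 : β + (-α - β) = -α - β + β := by ring
    rw [e3, e4] at e1
    refine hs _ (h.mono (by omega) (hreg (β + α) (-α - β + β) (by omega))) 1 one_ne_zero
      (by norm_num) ?_
    rw [pow_one]; exact e1.symm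
  · -- j = 2
    obtain ⟨ε, a, hε, ha⟩ : ∃ ε a : ℤ, (ε = 0 ∨ ε = 1 ∨ ε = -1) ∧ 3 * a = β - α + ε := by
      have hmod : (β - α) % 3 = 0 ∨ (β - α) % 3 = 1 ∨ (β - α) % 3 = 2 := by omega
      rcases hmod with hm | hm | hm
      · exact ⟨0, (β - α) / 3, Or.inl rfl, by omega⟩
      · exact ⟨-1, (β - α) / 3, Or.inr (Or.inr rfl), by omega⟩
      · exact ⟨1, (β - α) / 3 + 1, Or.inr (Or.inl rfl), by omega⟩
    set b := a - β with hb
    have hab : a.natAbs + b.natAbs ≤ 3 * (α.natAbs + β.natAbs) + 3 := by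
      rcases hε with rfl | rfl | rfl <;> omega
    have hab2 : (a + b).natAbs + a.natAbs ≤ 5 * (α.natAbs + β.natAbs) + 5 := by
      rcases hε with rfl | rfl | rfl <;> omega
    have e1 := hadd a b (by omega)
    have e2 := hs1 a b 1 (by omega)
    have e3 := hs1 (-b) (a + b) 0 (by
      rw [Int.natAbs_neg]
      rcases hε with rfl | rfl | rfl <;> omega)
    simp only [pow_zero, pow_one, Equiv.Perm.one_apply] at e2 e3
    have e4 : (s ^ 2) y = s (s y) := by rw [pow_two]; rfl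
    rw [e4, e2, e3] at e1
    have e5 : -b + (a + b) = a := by ring
    rw [e5] at e1
    set z := RegS.FF s r (-(a + b)) a y with hz
    have hzr : Reg 10 z := hreg _ _ (by rw [Int.natAbs_neg]; exact hab2)
    have e6 : RegS.FF s r (a + α) (b + β) y = RegS.FF s r ε 0 z := by
      rw [hz, h.FF_add]
      · congr 1 <;> omega
      · rcases hε with rfl | rfl | rfl <;> exact h.mono (by rw [Int.natAbs_neg]; simp; omega) hy
    rw [e6] at e1
    rcases hε with rfl | rfl | rfl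
    · have e7 : RegS.FF s r 0 0 z = z := by simp [RegS.FF]
      rw [e7] at e1
      apply hs z (h.mono (by omega) hzr) 2 (by norm_num) (by norm_num)
      rw [pow_two]; exact e1.symm
    · have e7 : RegS.FF s r 1 0 z = RegS.TP s r z := by simp [RegS.FF]
      rw [e7] at e1
      have := congrArg tl e1
      rw [t.Ttl, t.stl, t.stl] at this
      exact t.ne z this.symm
    · have e7 : RegS.FF s r (-1) 0 z = (RegS.TP s r)⁻¹ z := by simp [RegS.FF]
      rw [e7] at e1
      have := congrArg tl e1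
      rw [t.Titl h, t.stl, t.stl, ← t.sip 3 z] at this
      exact t.ne _ this.symm
  · -- j = 3
    obtain ⟨ε, ε', a, b, hε, ha, hb⟩ : ∃ ε ε' a b : ℤ, ((ε = 0 ∧ ε' = 0) ∨ (ε = 1 ∧ ε' = 0) ∨
        (ε = 0 ∧ ε' = 1) ∨ (ε = 1 ∧ ε' = -1)) ∧ 2 * a = -α + ε ∧ 2 * b = -β + ε' := by
      have h1 : α % 2 = 0 ∨ α % 2 = 1 := by omega
      have h2 : β % 2 = 0 ∨ β % 2 = 1 := by omega
      rcases h1 with h1 | h1 <;> rcases h2 with h2 | h2
      · exact ⟨0, 0, (-α) / 2, (-β) / 2, by simp, by omega, by omega⟩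
      · exact ⟨0, 1, (-α) / 2, (-β + 1) / 2, by simp, by omega, by omega⟩
      · exact ⟨1, 0, (-α + 1) / 2, (-β) / 2, by simp, by omega, by omega⟩
      · exact ⟨1, -1, (-α + 1) / 2, (-β - 1) / 2, by simp, by omega, by omega⟩
    have hab : a.natAbs + b.natAbs ≤ (α.natAbs + β.natAbs) + 2 := by
      rcases hε with ⟨rfl, rfl⟩ | ⟨rfl, rfl⟩ | ⟨rfl, rfl⟩ | ⟨rfl, rfl⟩ <;> omega
    have e1 := hadd a b (by omega)
    have e2 := hs1 a b 2 (by omega)
    have e3 := hs1 (-b) (a + b) 1 (by omega)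
    have e4 := hs1 (-(a + b)) (-b + (a + b)) 0 (by omega)
    simp only [pow_zero, pow_one, Equiv.Perm.one_apply] at e3 e4
    have e5 : (s ^ 3) y = s ((s ^ 2) y) := by rw [pow_succ']; rfl
    have e5' : (s ^ 2) y = s (s y) := by rw [pow_two]; rfl
    rw [e5, e2, e5', e3, e4] at e1
    have e6 : -(-b + (a + b)) = -a := by ring
    have e7 : -(a + b) + (-b + (a + b)) = -b := by ring
    rw [e6, e7] at e1
    set z := RegS.FF s r (-a) (-b) y with hz
    have hzr : Reg 10 z := hreg _ _ (by rw [Int.natAbs_neg, Int.natAbs_neg]; omega)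
    have e8 : RegS.FF s r (a + α) (b + β) y = RegS.FF s r ε ε' z := by
      rw [hz, h.FF_add]
      · congr 1 <;> omega
      · rcases hε with ⟨rfl, rfl⟩ | ⟨rfl, rfl⟩ | ⟨rfl, rfl⟩ | ⟨rfl, rfl⟩ <;>
          exact h.mono (by rw [Int.natAbs_neg, Int.natAbs_neg]; simp; omega) hy
    rw [e8] at e1
    have hs3 : tl (s (s (s z))) = tl z := by rw [t.stl, t.stl, t.stl]
    rcases hε with ⟨rfl, rfl⟩ | ⟨rfl, rfl⟩ | ⟨rfl, rfl⟩ | ⟨rfl, rfl⟩
    · have e7 : RegS.FF s r 0 0 z = z := by simp [RegS.FF]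
      rw [e7] at e1
      apply hs z (h.mono (by omega) hzr) 3 (by norm_num) (by norm_num)
      rw [pow_succ', pow_two]; exact e1.symm
    · have e7 : RegS.FF s r 1 0 z = RegS.TP s r z := by simp [RegS.FF]
      rw [e7] at e1
      have := congrArg tl e1
      rw [t.Ttl, hs3] at this
      exact t.ne z this.symm
    · have e7 : RegS.FF s r 0 1 z = RegS.QP s r z := by simp [RegS.FF]
      rw [e7] at e1
      have := congrArg tl e1
      rw [t.Qtl, hs3, ← t.stl z] at this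
      exact t.ne _ this.symm
    · rw [FF_Ui h (h.mono (by omega) hzr)] at e1
      have := congrArg tl e1
      rw [t.Uitl h, hs3, ← t.sitl z] at this
      exact t.ne _ this.symm

end abstract

end Med
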