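import Pool.Agent.Helper946.M13

set_option autoImplicit false

namespace Med

variable {X V : Type*} {s r : Equiv.Perm X} {Reg : ℕ → X → Prop} {tl hd : X → V}

structure OrbS (s : Equiv.Perm X) (Reg : ℕ → X → Prop) (tl : X → V) : Prop where
  nper : ∀ x, Reg 0 x → ∀ j : ℕ, j ≠ 0 → j < 6 → (s ^ j) x ≠ x
  orb : ∀ x y, Reg 0 x → tl x = tl y → ∃ j < 6, y = (s ^ j) x

lemma inj_or_trans (h : RegS s r Reg) (t : TailS s r tl hd) (o : OrbS s Reg tl)
    {a b a' b' : ℤ} {d : X}
    (hd' : Reg (30 * (a.natAbs + b.natAbs + a'.natAbs + b'.natAbs) + 60) d)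
    (heq : tl (RegS.FF s r a b d) = tl (RegS.FF s r a' b' d)) :
    RegS.FF s r (a' - a) (b' - b) (RegS.FF s r a b d) = RegS.FF s r a b d := by
  set y := RegS.FF s r a b d with hy
  set y' := RegS.FF s r a' b' d with hy'
  have hyr : Reg (20 * ((a' - a).natAbs + (b' - b).natAbs) + 40) y :=
    h.FF_reg a b (h.mono (by omega) hd')
  have hyr' : Reg (20 * ((a - a').natAbs + (b - b').natAbs) + 40) y' :=
    h.FF_reg a' b' (h.mono (by omega) hd')
  obtain ⟨j, hj, hyj⟩ := o.orb y y' (h.mono (by omega) hyr) heq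
  have e1 : RegS.FF s r (a' - a) (b' - b) y = (s ^ j) y := by
    rw [← hyj, hy, h.FF_add, hy']
    · congr 1 <;> ring
    · exact h.mono (by omega) hd'
  have e2 : RegS.FF s r (a - a') (b - b') y' = (s ^ (6 - j)) y' := by
    have e3 : (s ^ (6 - j)) y' = y := by
      rw [hyj, ← Equiv.Perm.mul_apply, ← pow_add, Nat.sub_add_cancel hj.le,
        h.six y (h.mono (by omega) hyr)]
    rw [e3, hy', h.FF_add, hy]
    · congr 1 <;> ring
    · exact h.mono (by omega) hd'
  rcases Nat.lt_or_ge 3 j with h4 | h4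
  · exfalso
    exact rotstab h t o.nper (by omega) (by omega) hyr' e2
  · rcases Nat.eq_zero_or_pos j with h0 | h0
    · rw [h0, pow_zero] at e1; exact e1
    · exfalso
      exact rotstab h t o.nper (by omega) h4 hyr e1

lemma transn (h : RegS s r Reg) {α β : ℤ} {y : X} (hF : RegS.FF s r α β y = y) (j : ℕ) (a b : ℤ)
    (hy : Reg (a.natAbs + b.natAbs + j * α.natAbs + α.natAbs + β.natAbs + 3) y) :
    RegS.FF s r (a + j * α) (b + j * β) y = RegS.FF s r a b y := by
  induction j with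
  | zero => simp
  | succ j ih =>
    have e1 : (j + 1) * α.natAbs = j * α.natAbs + α.natAbs := by ring
    rw [e1] at hy
    have h1 : (a + (j:ℤ) * α).natAbs ≤ a.natAbs + j * α.natAbs := by
      refine (Int.natAbs_add_le _ _).trans ?_
      rw [Int.natAbs_mul, Int.natAbs_natCast]
    have := h.FF_add (a + j * α) (b + j * β) α β (x := y) (h.mono (by omega) hy)
    rw [hF] at this
    rw [← ih (h.mono (by omega) hy), this]
    push_cast
    congr 1 <;> ring

lemma trans_red (h : RegS s r Reg) {α β : ℤ} {y : X} (hF : RegS.FF s r α β y = y) (hα : α ≠ 0)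
    (hβ : β.natAbs ≤ α.natAbs) {k : ℕ} (hk : α.natAbs ≤ k) (hy : Reg (20 * k + 20) y)
    {a b : ℤ} (ha : a.natAbs ≤ k) (hb : b.natAbs ≤ k) :
    ∃ a' b' : ℤ, 0 ≤ a' ∧ a' < α.natAbs ∧ b'.natAbs ≤ 3 * k ∧
      RegS.FF s r a b y = RegS.FF s r a' b' y := by
  set q := a / α with hq
  have hmod := Int.emod_nonneg a hα
  have hmod2 := Int.emod_lt_abs a hα
  rw [Int.abs_eq_natAbs] at hmod2
  have hdiv := Int.mul_ediv_add_emod a α
  have hq1 : q.natAbs * α.natAbs ≤ 2 * k := by
    rw [← Int.natAbs_mul, mul_comm]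
    rw [← hq] at hdiv
    have e1 : α * q = a - a % α := by omega
    rw [e1]
    omega
  have hq2 : q.natAbs * β.natAbs ≤ 2 * k := (Nat.mul_le_mul_left _ hβ).trans hq1
  refine ⟨a % α, b - q * β, hmod, by omega, ?_, ?_⟩
  · have h1 : (q * β).natAbs ≤ 2 * k := by rw [Int.natAbs_mul]; exact hq2
    omega
  · have h1 : (q * β).natAbs ≤ 2 * k := by rw [Int.natAbs_mul]; exact hq2
    have ha2 : (a % α).natAbs ≤ k := by omega
    have hb2 : (b - q * β).natAbs ≤ 3 * k := by omega
    obtain ⟨m, hm | hm⟩ := q.eq_nat_or_neg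
    · have := transn h hF m (a % α) (b - q * β) (h.mono (by
        have : m * α.natAbs ≤ 2 * k := by
          have : q.natAbs = m := by rw [hm]; simp
          rw [← this]; exact hq1
        omega) hy)
      rw [← this]
      congr 1
      · rw [← hm]; linarith [mul_comm α q]
      · rw [← hm]; ring
    · have := transn h hF m a b (h.mono (by
        have : m * α.natAbs ≤ 2 * k := by
          have : q.natAbs = m := by rw [hm]; simp
          rw [← this]; exact hq1
        omega) hy)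
      rw [← this]
      have hm' : (m : ℤ) = -q := by rw [hm]; ring
      congr 1
      · rw [hm']; linarith [mul_comm α q]
      · rw [hm']; ring

lemma trans_red' (h : RegS s r Reg) {α β : ℤ} {y : X} (hF : RegS.FF s r α β y = y) (hα : β ≠ 0)
    (hβ : α.natAbs ≤ β.natAbs) {k : ℕ} (hk : β.natAbs ≤ k) (hy : Reg (20 * k + 20) y)
    {a b : ℤ} (ha : a.natAbs ≤ k) (hb : b.natAbs ≤ k) :
    ∃ a' b' : ℤ, 0 ≤ b' ∧ b' < β.natAbs ∧ a'.natAbs ≤ 3 * k ∧
      RegS.FF s r a b y = RegS.FF s r a' b' y := by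
  set q := b / β with hq
  have hmod := Int.emod_nonneg b hα
  have hmod2 := Int.emod_lt_abs b hα
  rw [Int.abs_eq_natAbs] at hmod2
  have hdiv := Int.mul_ediv_add_emod b β
  have hq1 : q.natAbs * β.natAbs ≤ 2 * k := by
    rw [← Int.natAbs_mul, mul_comm]
    rw [← hq] at hdiv
    have e1 : β * q = b - b % β := by omega
    rw [e1]
    omega
  have hq2 : q.natAbs * α.natAbs ≤ 2 * k := (Nat.mul_le_mul_left _ hβ).trans hq1
  refine ⟨a - q * α, b % β, hmod, by omega, ?_, ?_⟩
  · have h1 : (q * α).natAbs ≤ 2 * k := by rw [Int.natAbs_mul]; exact hq2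
    omega
  · have h1 : (q * α).natAbs ≤ 2 * k := by rw [Int.natAbs_mul]; exact hq2
    have ha2 : (b % β).natAbs ≤ k := by omega
    have hb2 : (a - q * α).natAbs ≤ 3 * k := by omega
    obtain ⟨m, hm | hm⟩ := q.eq_nat_or_neg
    · have := transn h hF m (a - q * α) (b % β) (h.mono (by
        have : m * α.natAbs ≤ 2 * k := by
          have : q.natAbs = m := by rw [hm]; simp
          rw [← this]; exact hq2
        omega) hy)
      rw [← this]
      congr 1
      · rw [← hm]; ring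
      · rw [← hm]; linarith [mul_comm β q]
    · have := transn h hF m a b (h.mono (by
        have : m * α.natAbs ≤ 2 * k := by
          have : q.natAbs = m := by rw [hm]; simp
          rw [← this]; exact hq2
        omega) hy)
      rw [← this]
      have hm' : (m : ℤ) = -q := by rw [hm]; ring
      congr 1
      · rw [hm']; ring
      · rw [hm']; linarith [mul_comm β q]

lemma trans_bound [DecidableEq V] (h : RegS s r Reg) {α β : ℤ} {y : X}
    (hF : RegS.FF s r α β y = y) (hne : ¬ (α = 0 ∧ β = 0)) {k : ℕ} (hk1 : α.natAbs ≤ k)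
    (hk2 : β.natAbs ≤ k) (hy : Reg (20 * k + 20) y) (A : Finset V)
    (hA : ∀ v ∈ A, ∃ a b : ℤ, a.natAbs ≤ k ∧ b.natAbs ≤ k ∧ tl (RegS.FF s r a b y) = v) :
    A.card ≤ (α.natAbs + β.natAbs) * (6 * k + 1) := by
  rcases le_total β.natAbs α.natAbs with hle | hle
  · have hα : α ≠ 0 := by rintro rfl; apply hne; constructor; rfl; simpa using hle
    have hsub : A ⊆ ((Finset.Ico (0:ℤ) α.natAbs) ×ˢ (Finset.Icc (-(3 * k : ℤ)) (3 * k))).image
        (fun p => tl (RegS.FF s r p.1 p.2 y)) := by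
      intro v hv
      obtain ⟨a, b, ha, hb, hab⟩ := hA v hv
      obtain ⟨a', b', h1, h2, h3, h4⟩ := trans_red h hF hα hle hk1 hy ha hb
      rw [Finset.mem_image]
      refine ⟨(a', b'), ?_, by rw [← hab, h4]⟩
      simp only [Finset.mem_product, Finset.mem_Ico, Finset.mem_Icc]
      exact ⟨⟨h1, h2⟩, by omega, by omega⟩
    refine (Finset.card_le_card hsub).trans (Finset.card_image_le.trans ?_)
    rw [Finset.card_product, Int.card_Ico, Int.card_Icc]
    have e1 : ((α.natAbs : ℤ) - 0).toNat = α.natAbs := by omega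
    have e2 : ((3 * k : ℤ) + 1 - -(3 * k)).toNat = 6 * k + 1 := by omega
    rw [e1, e2]
    exact Nat.mul_le_mul_right _ (Nat.le_add_right _ _)
  · have hβ : β ≠ 0 := by rintro rfl; apply hne; constructor; · simpa using hle
                          · rfl
    have hsub : A ⊆ ((Finset.Icc (-(3 * k : ℤ)) (3 * k)) ×ˢ (Finset.Ico (0:ℤ) β.natAbs)).image
        (fun p => tl (RegS.FF s r p.1 p.2 y)) := by
      intro v hv
      obtain ⟨a, b, ha, hb, hab⟩ := hA v hv
      obtain ⟨a', b', h1, h2, h3, h4⟩ := trans_red' h hF hβ hle hk2 hy ha hb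
      rw [Finset.mem_image]
      refine ⟨(a', b'), ?_, by rw [← hab, h4]⟩
      simp only [Finset.mem_product, Finset.mem_Ico, Finset.mem_Icc]
      exact ⟨⟨by omega, by omega⟩, h1, h2⟩
    refine (Finset.card_le_card hsub).trans (Finset.card_image_le.trans ?_)
    rw [Finset.card_product, Int.card_Ico, Int.card_Icc]
    have e1 : ((β.natAbs : ℤ) - 0).toNat = β.natAbs := by omega
    have e2 : ((3 * k : ℤ) + 1 - -(3 * k)).toNat = 6 * k + 1 := by omega
    rw [e1, e2, mul_comm]
    exact Nat.mul_le_mul_right _ (Nat.le_add_left _ _)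

def Rch (adj : V → V → Prop) : ℕ → V → V → Prop
  | 0, v, x => x = v
  | k + 1, v, x => Rch adj k v x ∨ ∃ y, Rch adj k v y ∧ adj y x

lemma Rch_mono {adj : V → V → Prop} {k l : ℕ} (hkl : k ≤ l) {v x : V} (h : Rch adj k v x) :
    Rch adj l v x := by
  induction l, hkl using Nat.le_induction with
  | base => exact h
  | succ l _ ih => exact Or.inl ih

lemma Rch_trans {adj : V → V → Prop} {k l : ℕ} {v w x : V} (h1 : Rch adj k v w)
    (h2 : Rch adj l w x) : Rch adj (k + l) v x := by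
  induction l generalizing x with
  | zero => rw [Rch] at h2; rw [h2]; exact h1
  | succ l ih =>
    rcases h2 with h2 | ⟨y, h2, h3⟩
    · exact Or.inl (ih h2)
    · exact Or.inr ⟨y, ih h2, h3⟩

lemma nbr_F (h : RegS s r Reg) (t : TailS s r tl hd) {z : X} (hz : Reg 5 z) {j : ℕ} (hj : j < 6) :
    ∃ a b : ℤ, a.natAbs ≤ 1 ∧ b.natAbs ≤ 1 ∧ tl (RegS.FF s r a b z) = hd ((s ^ j) z) := by
  have h6 := h.six z (h.mono (by norm_num) hz)
  have inv : ∀ i l : ℕ, i + l = 6 → (s ^ i)⁻¹ z = (s ^ l) z := by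
    intro i l hil
    rw [Equiv.Perm.inv_eq_iff_eq, ← Equiv.Perm.mul_apply, ← pow_add, hil, h6]
  interval_cases j
  · exact ⟨1, 0, by simp, by simp, by simp [RegS.FF, t.Ttl]⟩
  · exact ⟨0, 1, by simp, by simp, by simp [RegS.FF, t.Qtl]⟩
  · exact ⟨-1, 1, by simp, by simp, by rw [FF_U h hz, t.Utl]⟩
  · refine ⟨-1, 0, by simp, by simp, ?_⟩
    have : RegS.FF s r (-1) 0 z = (RegS.TP s r)⁻¹ z := by simp [RegS.FF]
    rw [this, t.Titl h, inv 3 3 rfl]
  · refine ⟨0, -1, by simp, by simp, ?_⟩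
    have : RegS.FF s r 0 (-1) z = (RegS.QP s r)⁻¹ z := by simp [RegS.FF]
    rw [this, t.Qitl h, inv 2 4 rfl]
  · refine ⟨1, -1, by simp, by simp, ?_⟩
    have := inv 1 5 rfl
    rw [pow_one] at this
    rw [FF_Ui h hz, t.Uitl h, this]

lemma rch_mem (h : RegS s r Reg) (t : TailS s r tl hd) (o : OrbS s Reg tl) {k : ℕ} {y : X}
    (hy : Reg (2 * k + 10) y) {x : V} (hx : Rch (fun v w => ∃ e, tl e = v ∧ hd e = w) k (tl y) x) :
    ∃ a b : ℤ, a.natAbs ≤ k ∧ b.natAbs ≤ k ∧ tl (RegS.FF s r a b y) = x := by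
  induction k generalizing x with
  | zero =>
    rw [Rch] at hx
    exact ⟨0, 0, by simp, by simp, by rw [hx]; simp [RegS.FF]⟩
  | succ k ih =>
    rcases hx with hx | ⟨x', hx', e, he1, he2⟩
    · obtain ⟨a, b, h1, h2, h3⟩ := ih (h.mono (by omega) hy) hx
      exact ⟨a, b, by omega, by omega, h3⟩
    · obtain ⟨a, b, h1, h2, h3⟩ := ih (h.mono (by omega) hy) hx'
      set z := RegS.FF s r a b y with hz
      have hzr : Reg 5 z := h.FF_reg a b (h.mono (by omega) hy)
      obtain ⟨j, hj, hej⟩ := o.orb z e (h.mono (by norm_num) hzr) (by rw [h3, he1])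
      obtain ⟨a', b', h1', h2', h3'⟩ := nbr_F h t hzr hj
      refine ⟨a' + a, b' + b, by omega, by omega, ?_⟩
      rw [← h.FF_add a' b' a b (h.mono (by omega) hy), ← hz, h3', ← hej, he2]

end Med
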