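import Pool.Agent.Helper946.M14
import Pool.Agent.Helper946.M11

set_option autoImplicit false

namespace Med

variable {S : Finset E}

structure Zone (S : Finset E) (c0 : E) (l : ℝ) : Prop where
  l0 : 0 ≤ l
  edge : ∀ a b, Edg S a b → ‖a - b‖ ≤ l
  six : ∀ v ∈ S, ‖v - c0‖ < 1 / 2 → dcard S v = 6

def RegD (c0 : E) (l : ℝ) (k : ℕ) (d : Dart S) : Prop := ‖d.tl - c0‖ + k * l < 1 / 2

lemma zone_reg (hS : Cfg S) {c0 : E} {l : ℝ} (z : Zone S c0 l) :
    RegS (sg hS) (rh S) (RegD c0 l) where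
  rr := fun _ => rfl
  r3 := rel3 hS
  dec := by
    intro k x h
    have := z.l0
    unfold RegD at *
    push_cast at h
    linarith
  sreg := by
    intro k x
    unfold RegD; rw [sg_tl]
  rreg := by
    intro k x h
    unfold RegD at *
    rw [rh_tl]
    have h1 := z.edge _ _ x.edg.symm
    have e : x.hd - c0 = (x.hd - x.tl) + (x.tl - c0) := by abel
    have h2 := norm_add_le (x.hd - x.tl) (x.tl - c0)
    rw [← e] at h2
    push_cast at h
    linarith
  six := by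
    intro x h
    unfold RegD at h
    have h1 := z.six x.tl x.tl_mem (by simpa using h)
    have := sg_per hS x
    rwa [h1] at this

lemma zone_tail (hS : Cfg S) : TailS (sg hS) (rh S) (Dart.tl (S := S)) Dart.hd where
  stl := fun _ => rfl
  rtl := fun _ => rfl
  ne := fun x => x.ne

lemma pow_mod_six {X : Type*} (s : Equiv.Perm X) {x : X} (h : (s ^ 6) x = x) (k : ℕ) :
    (s ^ k) x = (s ^ (k % 6)) x := by
  conv_lhs => rw [← Nat.mod_add_div k 6, pow_add, Equiv.Perm.mul_apply, pow_mul]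
  congr 1
  have : ∀ q : ℕ, ((s ^ 6) ^ q) x = x := by
    intro q
    induction q with
    | zero => rfl
    | succ q ih => rw [pow_succ', Equiv.Perm.mul_apply, ih, h]
  exact this _

lemma zone_orb (hS : Cfg S) {c0 : E} {l : ℝ} (z : Zone S c0 l) :
    OrbS (sg hS) (RegD c0 l) (Dart.tl (S := S)) where
  nper := by
    intro x h j hj0 hj
    unfold RegD at h
    have h1 := z.six x.tl x.tl_mem (by simpa using h)
    exact sg_nper hS x hj0 (by rw [h1]; exact hj)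
  orb := by
    intro x y h hxy
    obtain ⟨k, hk⟩ := single_orbit hS x y hxy
    refine ⟨k % 6, Nat.mod_lt _ (by norm_num), ?_⟩
    rw [← pow_mod_six _ ((zone_reg hS z).six x h), hk]

lemma edge_le (hu : ∀ x ∈ S, ‖x‖ = 1) {ρ : ℝ} (hρ0 : 0 ≤ ρ) (hρ1 : ρ ≤ 1) (hcov : Cov S ρ)
    {a b : E} (h : Edg S a b) : ‖a - b‖ ≤ 2 * ρ := by
  obtain ⟨ha, hb, hab, y, h1, h2, h3⟩ := h
  have hy : y ≠ 0 := by rintro rfl; simp at h1
  have hyn : 0 < ‖y‖ := norm_pos_iff.2 hy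
  set w := ‖y‖⁻¹ • y with hw
  have hwn : ‖w‖ = 1 := norm_normalize hy
  obtain ⟨x, hx, hxw⟩ := hcov w hwn
  have h4 := inr_of_dist (hu x hx) hwn
  have hyx : inner ℝ y x ≤ 1 := by
    by_cases e1 : x = a
    · rw [e1, h1]
    by_cases e2 : x = b
    · rw [e2, h2]
    exact (h3 x hx e1 e2).le
  have key : ∀ z, inner ℝ y z = 1 → z ∈ S → ‖z - w‖ ≤ ρ := by
    intro z hz hzS
    have h5 := inr_of_dist (hu z hzS) hwn
    have h6 : inner ℝ w z = ‖y‖⁻¹ := by rw [hw, real_inner_smul_left, hz, mul_one]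
    have h7 : inner ℝ w x = ‖y‖⁻¹ * inner ℝ y x := by rw [hw, real_inner_smul_left]
    have h8 : ‖y‖⁻¹ * inner ℝ y x ≤ ‖y‖⁻¹ := by
      have := mul_le_mul_of_nonneg_left hyx (inv_pos.2 hyn).le
      linarith
    have h9 : ‖x - w‖ ^ 2 ≤ ρ ^ 2 := pow_le_pow_left₀ (norm_nonneg _) hxw 2
    have h10 : ‖z - w‖ ^ 2 ≤ ρ ^ 2 := by linarith
    exact (pow_le_pow_iff_left₀ (norm_nonneg _) hρ0 (by norm_num)).1 h10
  have ka := key a h1 ha
  have kb := key b h2 hb
  have e : a - b = (a - w) - (b - w) := by abel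
  rw [e]
  have := norm_sub_le (a - w) (b - w)
  linarith

def adjS (S : Finset E) (v w : E) : Prop := ∃ e : Dart S, e.tl = v ∧ e.hd = w

lemma adj_of_edg {v w : E} (h : Edg S v w) : adjS S v w := ⟨⟨(v, w), h⟩, rfl, rfl⟩

lemma mono_path (hS : Cfg S) {s' : E} (hs' : s' ∈ S) (m : ℕ) : ∀ s ∈ S, ∀ A : Finset E,
    (∀ x, x ∈ A ↔ x ∈ S ∧ inner ℝ s' s < inner ℝ s' x) → A.card ≤ m → Rch (adjS S) m s s' := by
  classical
  have hss : inner ℝ s' s' = (1:ℝ) := by rw [real_inner_self_eq_norm_sq, hS.unit _ hs']; norm_num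
  induction m with
  | zero =>
    intro s hs A hA hc
    by_cases h : s = s'
    · rw [h]; rfl
    · exfalso
      have h1 := unit_inr_lt (hS.unit _ hs') (hS.unit _ hs) (Ne.symm h)
      have : s' ∈ A := (hA s').2 ⟨hs', by rw [hss]; exact h1⟩
      have := Finset.card_pos.2 ⟨s', this⟩
      omega
  | succ m ih =>
    intro s hs A hA hc
    by_cases h : s = s'
    · rw [h]; exact Rch_mono (Nat.zero_le _) rfl
    · have h1 := unit_inr_lt (hS.unit _ hs') (hS.unit _ hs) (Ne.symm h)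
      obtain ⟨w, hw, hw'⟩ := improving hS hs hs' (ℓ := s') (by rw [hss]; exact h1)
      have hwS := hw.2.1
      have hwA : w ∈ A := (hA w).2 ⟨hwS, hw'⟩
      have h2 := ih w hwS (A.filter (fun x => inner ℝ s' w < inner ℝ s' x)) (by
        intro x
        rw [Finset.mem_filter, hA]
        constructor
        · rintro ⟨⟨a1, a2⟩, a3⟩; exact ⟨a1, a3⟩
        · rintro ⟨a1, a3⟩; exact ⟨⟨a1, hw'.trans a3⟩, a3⟩) (by
        have : (A.filter (fun x => inner ℝ s' w < inner ℝ s' x)).card < A.card := by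
          apply Finset.card_lt_card
          rw [Finset.ssubset_iff_of_subset (Finset.filter_subset _ _)]
          exact ⟨w, hwA, by simp⟩
        omega)
      have h3 : Rch (adjS S) 1 s w := Or.inr ⟨s, rfl, adj_of_edg hw⟩
      have := Rch_trans h3 h2
      rwa [add_comm] at this

lemma normalize_dist {y z : E} (hy : y ≠ 0) (hz : z ≠ 0) :
    ‖(‖y‖⁻¹ • y) - (‖z‖⁻¹ • z)‖ ≤ 2 * ‖y - z‖ / ‖y‖ := by
  have hyn : 0 < ‖y‖ := norm_pos_iff.2 hy
  have hzn : 0 < ‖z‖ := norm_pos_iff.2 hz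
  have e : (‖y‖⁻¹ • y) - (‖z‖⁻¹ • z) = ‖y‖⁻¹ • (y - z) + (‖y‖⁻¹ - ‖z‖⁻¹) • z := by module
  rw [e]
  refine (norm_add_le _ _).trans ?_
  rw [norm_smul, norm_smul, norm_inv, norm_norm, Real.norm_eq_abs]
  have h1 : |‖y‖⁻¹ - ‖z‖⁻¹| * ‖z‖ = ‖y‖⁻¹ * |‖z‖ - ‖y‖| := by
    have : ‖y‖⁻¹ - ‖z‖⁻¹ = ‖y‖⁻¹ * ‖z‖⁻¹ * (‖z‖ - ‖y‖) := by field_simp
    rw [this, abs_mul, abs_of_pos (by positivity)]; field_simp
  rw [h1]
  have h2 : |‖z‖ - ‖y‖| ≤ ‖y - z‖ := by
    rw [norm_sub_rev]; exact abs_norm_sub_norm_le z y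
  have h3 : ‖y‖⁻¹ * |‖z‖ - ‖y‖| ≤ ‖y‖⁻¹ * ‖y - z‖ :=
    mul_le_mul_of_nonneg_left h2 (inv_pos.2 hyn).le
  rw [div_eq_inv_mul]
  linarith

irreducible_def C2 : ℕ := 2 * 10 ^ 18

lemma short_path {n : ℕ} (hn : 10 ^ 10 ≤ n) (hS : Cfg S) (h : MaxS S n)
    (hcov : Cov S (400 / Real.sqrt n)) {s s' : E} (hs : s ∈ S) (hs' : s' ∈ S)
    (hd : ‖s - s'‖ ≤ 10 * (400 / Real.sqrt n)) : Rch (adjS S) C2 s s' := by
  classical
  set A := S.filter (fun x => inner ℝ s' s < inner ℝ s' x) with hA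
  refine mono_path hS hs' C2 s hs A (by intro x; rw [hA, Finset.mem_filter]) ?_
  rw [C2_def]
  apply local_fin hn h hcov (h.unit _ hs') (Finset.filter_subset _ _)
  intro x hx
  rw [Finset.mem_filter] at hx
  have h1 := inr_of_dist (h.unit _ hx.1) (h.unit _ hs')
  have h2 := inr_of_dist (h.unit _ hs) (h.unit _ hs')
  have h3 : ‖x - s'‖ ^ 2 ≤ ‖s - s'‖ ^ 2 := by linarith [hx.2]
  exact ((pow_le_pow_iff_left₀ (norm_nonneg _) (norm_nonneg _) (by norm_num)).1 h3).trans hd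

lemma long_path {n : ℕ} (hn : 10 ^ 10 ≤ n) (hS : Cfg S) (h : MaxS S n)
    (hcov : Cov S (400 / Real.sqrt n)) {v x : E} (hv : v ∈ S) (hx : x ∈ S) {N : ℕ} (hN : 0 < N)
    (hd : ‖x - v‖ ≤ N * (400 / Real.sqrt n)) (hd2 : ‖x - v‖ ≤ 1 / 3) :
    Rch (adjS S) (C2 * (N + 1)) v x := by
  set ρ := 400 / Real.sqrt n with hρ
  have hρ0 : 0 ≤ ρ := by positivity
  have hNr : (0:ℝ) < N := by exact_mod_cast hN
  set y : ℕ → E := fun i => v + ((i:ℝ) / N) • (x - v) with hy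
  have hyn : ∀ i ≤ N, 2 / 3 ≤ ‖y i‖ := by
    intro i hi
    have h1 : ‖((i:ℝ) / N) • (x - v)‖ ≤ 1 / 3 := by
      rw [norm_smul, Real.norm_eq_abs, abs_of_nonneg (by positivity)]
      have : (i:ℝ) / N ≤ 1 := by
        rw [div_le_one hNr]; exact_mod_cast hi
      nlinarith [norm_nonneg (x - v)]
    have h2 : ‖v‖ ≤ ‖y i‖ + ‖((i:ℝ) / N) • (x - v)‖ := by
      have : v = y i - ((i:ℝ) / N) • (x - v) := by rw [hy]; simp
      conv_lhs => rw [this]
      exact norm_sub_le _ _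
    rw [h.unit v hv] at h2
    linarith
  have hyne : ∀ i ≤ N, y i ≠ 0 := by
    intro i hi h0
    have := hyn i hi
    rw [h0, norm_zero] at this
    linarith
  have hstep : ∀ i, i + 1 ≤ N → ‖(‖y i‖⁻¹ • y i) - (‖y (i + 1)‖⁻¹ • y (i + 1))‖ ≤ 3 * ρ := by
    intro i hi
    have h1 := normalize_dist (hyne i (by omega)) (hyne (i + 1) hi)
    have h2 : y i - y (i + 1) = (-(1 / N : ℝ)) • (x - v) := by
      simp only [hy]; push_cast; module
    rw [h2, norm_smul, norm_neg, Real.norm_eq_abs, abs_of_pos (by positivity)] at h1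
    refine h1.trans ?_
    rw [div_le_iff₀ (by have := hyn i (by omega); linarith)]
    have h3 : 1 / (N:ℝ) * ‖x - v‖ ≤ ρ := by
      rw [one_div, inv_mul_le_iff₀ hNr]; exact hd
    have := hyn i (by omega)
    nlinarith
  have hP : ∀ i ≤ N, ∃ s ∈ S, ‖s - (‖y i‖⁻¹ • y i)‖ ≤ ρ ∧ Rch (adjS S) (C2 * i) v s := by
    intro i
    induction i with
    | zero =>
      intro _
      refine ⟨v, hv, ?_, rfl⟩
      have : y 0 = v := by simp [hy]
      rw [this, h.unit v hv]; simp; exact hρ0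
    | succ i ih =>
      intro hi
      obtain ⟨s, hs, h1, h2⟩ := ih (by omega)
      obtain ⟨s', hs', h3⟩ := hcov _ (norm_normalize (hyne (i + 1) hi))
      refine ⟨s', hs', h3, ?_⟩
      have h4 : ‖s - s'‖ ≤ 10 * ρ := by
        have e : s - s' = (s - (‖y i‖⁻¹ • y i)) + ((‖y i‖⁻¹ • y i) - (‖y (i + 1)‖⁻¹ • y (i + 1)))
          + ((‖y (i + 1)‖⁻¹ • y (i + 1)) - s') := by abel
        rw [e]
        refine (norm_add₃_le).trans ?_
        have := hstep i hi
        rw [norm_sub_rev s' _] at h3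
        linarith
      have := Rch_trans h2 (short_path hn hS h hcov hs hs' h4)
      rwa [← mul_add_one] at this
  obtain ⟨s, hs, h1, h2⟩ := hP N le_rfl
  have hyN : y N = x := by
    simp only [hy]; rw [div_self hNr.ne']; simp
  rw [hyN, h.unit x hx] at h1
  simp only [inv_one, one_smul] at h1
  have := Rch_trans h2 (short_path hn hS h hcov hs hx (by linarith))
  rwa [← mul_add_one] at this

lemma growth {n : ℕ} (hn : 10 ^ 10 ≤ n) (hS : Cfg S) (h : MaxS S n)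
    (hcov : Cov S (400 / Real.sqrt n)) {v : E} (hv : v ∈ S) {M : ℕ} (hM : 1 ≤ M)
    (hd2 : M * (400 / Real.sqrt n) ≤ 1 / 3) :
    ∃ A : Finset E, (∀ x ∈ A, Rch (adjS S) (C2 * (M + 1)) v x) ∧ (M - 1 : ℝ) ^ 2 ≤ 4 * A.card := by
  classical
  set ρ := 400 / Real.sqrt n with hρ
  have hn0 : (0:ℝ) < n := by exact_mod_cast (by omega : 0 < n)
  have hρ0 : 0 < ρ := by positivity
  have hMr : (1:ℝ) ≤ M := by exact_mod_cast hM
  have hρ1 : ρ ≤ 1 / 3 := by nlinarith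
  set A := S.filter (fun x => ‖x - v‖ ≤ M * ρ) with hA
  refine ⟨A, ?_, ?_⟩
  · intro x hx
    rw [hA, Finset.mem_filter] at hx
    exact long_path hn hS h hcov hv hx.1 (by omega) hx.2 (hx.2.trans hd2)
  · have h1 := cov_count (A := A) (fun x hx => h.unit x (Finset.mem_of_mem_filter x hx)) (h.unit v hv)
      (t := (M - 1) * ρ) (ρ := 2 * ρ) (by
        have : (0:ℝ) ≤ M - 1 := by linarith
        positivity) (by nlinarith) (by positivity) (by linarith) (by
      intro u hu huv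
      obtain ⟨x, hx, hxu⟩ := hcov u hu
      refine ⟨x, ?_, by rw [norm_sub_rev]; linarith⟩
      rw [hA, Finset.mem_filter]
      refine ⟨hx, ?_⟩
      have e : x - v = (x - u) + (u - v) := by abel
      rw [e]
      refine (norm_add_le _ _).trans ?_
      nlinarith)
    have h2 : ρ ^ 2 * (M - 1 : ℝ) ^ 2 ≤ ρ ^ 2 * (4 * A.card) := by nlinarith
    exact le_of_mul_le_mul_left h2 (by positivity)

end Med
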