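import Pool.Agent.Helper946.M15

set_option autoImplicit false

namespace Med

variable {S : Finset E}

noncomputable def rho (n : ℕ) : ℝ := 400 / Real.sqrt n

/-- the developed vertex -/
noncomputable def FD (hS : Cfg S) (a b : ℤ) (d : Dart S) : Dart S := RegS.FF (sg hS) (rh S) a b d

theorem inject {n : ℕ} (hn : 10 ^ 10 ≤ n) (hS : Cfg S) (h : MaxS S n)
    (hcov : Cov S (rho n)) {c0 : E} (z : Zone S c0 (2 * rho n)) {M R1 : ℕ}
    (hM : 3 ≤ M) (hM2 : 100 * (C2 * (M + 1) : ℝ) * (2 * rho n) ≤ 1 / 4)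
    (hR : 112 * C2 * R1 + 1 < M) {d : Dart S} (hd : ‖d.tl - c0‖ ≤ 3 / 16)
    {a b a' b' : ℤ} (h1 : a.natAbs + b.natAbs ≤ R1) (h2 : a'.natAbs + b'.natAbs ≤ R1)
    (heq : (FD hS a b d).tl = (FD hS a' b' d).tl) : a = a' ∧ b = b' := by
  classical
  have hreg := zone_reg hS z
  have htl := zone_tail hS
  have horb := zone_orb hS z
  set k := C2 * (M + 1) with hk
  have hC2 : 10 ≤ C2 := by rw [C2_def]; norm_num
  have hkM : M + 1 ≤ k := by rw [hk]; exact Nat.le_mul_of_pos_left _ (by omega)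
  have hR1k : 2 * R1 ≤ M := by
    have : 2 * R1 ≤ 112 * C2 * R1 := Nat.mul_le_mul_right _ (by omega)
    omega
  have hkbig : 10 ≤ k := by
    rw [hk]; exact hC2.trans (Nat.le_mul_of_pos_right _ (by omega))
  have hrd : RegD c0 (2 * rho n) (100 * k) d := by
    unfold RegD
    push_cast
    rw [hk]
    push_cast
    have := hM2
    linarith
  have hr1 : RegD c0 (2 * rho n) (30 * (a.natAbs + b.natAbs + a'.natAbs + b'.natAbs) + 60) d :=
    hreg.mono (by omega) hrd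
  have hT := inj_or_trans hreg htl horb hr1 heq
  by_contra hne
  have hne' : ¬ (a' - a = 0 ∧ b' - b = 0) := by
    rintro ⟨e1, e2⟩; apply hne; constructor <;> omega
  set y := RegS.FF (sg hS) (rh S) a b d with hy
  have hyr : RegD c0 (2 * rho n) (20 * k + 20) y := hreg.FF_reg a b (hreg.mono (by omega) hrd)
  have hMr : (3:ℝ) ≤ M := by exact_mod_cast hM
  have hρ0 : 0 ≤ rho n := by unfold rho; positivity
  have hC2r : (10:ℝ) ≤ C2 := by exact_mod_cast hC2
  obtain ⟨A, hA1, hA2⟩ := growth hn hS h hcov (v := y.tl) y.tl_mem (M := M) (by omega) (by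
    show (M:ℝ) * rho n ≤ 1 / 3
    have : (M:ℝ) * rho n ≤ 100 * (C2 * (M + 1) : ℝ) * (2 * rho n) := by
      have h3 : (M:ℝ) ≤ 100 * (C2 * (M + 1) : ℝ) * 2 := by nlinarith
      nlinarith
    linarith)
  have hcard := trans_bound (tl := Dart.tl) hreg hT hne' (k := k) (by omega) (by omega) hyr A (by
    intro v hv
    exact rch_mem hreg htl horb (hreg.mono (by omega) hyr) (hA1 v hv))
  have hαβ : (a' - a).natAbs + (b' - b).natAbs ≤ 2 * R1 := by omega
  have hcard2 : A.card ≤ 2 * R1 * (6 * k + 1) := hcard.trans (Nat.mul_le_mul_right _ hαβ)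
  have hcr : (A.card : ℝ) ≤ 2 * R1 * (6 * (C2 * (M + 1)) + 1) := by
    have : ((A.card : ℕ) : ℝ) ≤ ((2 * R1 * (6 * k + 1) : ℕ) : ℝ) := by exact_mod_cast hcard2
    rw [hk] at this
    push_cast at this
    exact this
  have hRr : 112 * (C2:ℝ) * R1 + 1 < M := by exact_mod_cast hR
  have hR0 : (0:ℝ) ≤ R1 := Nat.cast_nonneg _
  have e1 : (6 * (C2 * ((M:ℝ) + 1)) + 1) ≤ 14 * C2 * (M - 1) := by nlinarith
  have e2 : ((M:ℝ) - 1) ^ 2 ≤ 112 * C2 * R1 * (M - 1) := by
    calc ((M:ℝ) - 1) ^ 2 ≤ 4 * A.card := hA2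
      _ ≤ 4 * (2 * R1 * (6 * (C2 * (M + 1)) + 1)) := by linarith
      _ ≤ 4 * (2 * R1 * (14 * C2 * (M - 1))) := by
          apply mul_le_mul_of_nonneg_left _ (by norm_num)
          exact mul_le_mul_of_nonneg_left e1 (by positivity)
      _ = _ := by ring
  nlinarith

end Med
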