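import Pool.Agent.Helper946.M7

set_option autoImplicit false

namespace Med

lemma gram3 (X g M : E) (hgM : inner ℝ g M = 0) : ‖X‖ ^ 2 * ‖g‖ ^ 2 * ‖M‖ ^ 2 =
    inner ℝ X g ^ 2 * ‖M‖ ^ 2 + inner ℝ X M ^ 2 * ‖g‖ ^ 2 + dt X g M ^ 2 := by
  rw [dt_sq, hgM]; ring

lemma dt_sq_bd {a b c : E} (ha : ‖a‖ = 1) (hb : ‖b‖ = 1) (hc : ‖c‖ = 1) {H η : ℝ} (hH0 : 0 < H)
    (hH : H ≤ 1 / 4) (hη0 : 0 ≤ η) (hη : η ≤ 1 / 4) (h1 : |‖a - b‖ ^ 2 - H| ≤ η * H)
    (h2 : |‖a - c‖ ^ 2 - H| ≤ η * H) (h3 : |‖b - c‖ ^ 2 - H| ≤ η * H) :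
    |dt a b c ^ 2 - 3 / 4 * H ^ 2| ≤ (5 * η + H) * H ^ 2 := by
  have e1 := nrm_sq_sub ha hb hc
  have e2 := nrm_sq_eq a b c
  have d1 := dist_sq_unit ha hb
  have d2 := dist_sq_unit hb hc
  have d3 := dist_sq_unit ha hc
  have f1 : 1 - inner ℝ a b = ‖a - b‖ ^ 2 / 2 := by rw [d1]; ring
  have f2 : 1 - inner ℝ b c = ‖b - c‖ ^ 2 / 2 := by rw [d2]; ring
  have f3 : 1 - inner ℝ a c = ‖a - c‖ ^ 2 / 2 := by rw [d3]; ring
  rw [f1, f2, f3, e2] at e1
  set p := ‖a - b‖ ^ 2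
  set q := ‖a - c‖ ^ 2
  set r := ‖b - c‖ ^ 2
  have e3 : dt a b c ^ 2 = p * q - ((p + q - r) / 2) ^ 2 - p * q * r / 4 := by linarith
  rw [e3]
  rw [abs_le] at h1 h2 h3 ⊢
  -- normalise
  obtain ⟨x, hx⟩ : ∃ x, p = (1 + x) * H := ⟨p / H - 1, by field_simp; ring⟩
  obtain ⟨y, hy⟩ : ∃ y, q = (1 + y) * H := ⟨q / H - 1, by field_simp; ring⟩
  obtain ⟨z, hz⟩ : ∃ z, r = (1 + z) * H := ⟨r / H - 1, by field_simp; ring⟩
  rw [hx] at h1; rw [hy] at h2; rw [hz] at h3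
  have x1 : x ≤ η := by
    have : x * H ≤ η * H := by linarith
    exact le_of_mul_le_mul_right this hH0
  have x2 : -η ≤ x := by
    have : -η * H ≤ x * H := by linarith
    exact le_of_mul_le_mul_right this hH0
  have y1 : y ≤ η := by
    have : y * H ≤ η * H := by linarith
    exact le_of_mul_le_mul_right this hH0
  have y2 : -η ≤ y := by
    have : -η * H ≤ y * H := by linarith
    exact le_of_mul_le_mul_right this hH0
  have z1 : z ≤ η := by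
    have : z * H ≤ η * H := by linarith
    exact le_of_mul_le_mul_right this hH0
  have z2 : -η ≤ z := by
    have : -η * H ≤ z * H := by linarith
    exact le_of_mul_le_mul_right this hH0
  have key : p * q - ((p + q - r) / 2) ^ 2 - p * q * r / 4 - 3 / 4 * H ^ 2
      = (((1 + x) * (1 + y) - ((1 + x + y - z) / 2) ^ 2 - 3 / 4)
        - (1 + x) * (1 + y) * (1 + z) * H / 4) * H ^ 2 := by
    rw [hx, hy, hz]; ring
  rw [key]
  have A1 : |(1 + x) * (1 + y) - ((1 + x + y - z) / 2) ^ 2 - 3 / 4| ≤ 5 * η := by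
    have ax : |x| ≤ η := abs_le.2 ⟨x2, x1⟩
    have ay : |y| ≤ η := abs_le.2 ⟨y2, y1⟩
    have axy : |x * y| ≤ η * η := by
      rw [abs_mul]; exact mul_le_mul ax ay (abs_nonneg _) hη0
    rw [abs_le] at axy
    have hw : (x + y - z) ^ 2 ≤ (3 * η) ^ 2 := sq_le_sq' (by linarith) (by linarith)
    have hw0 := sq_nonneg (x + y - z)
    have hηη : η * η ≤ η / 4 := by
      have := mul_le_mul_of_nonneg_left hη hη0
      linarith
    have e4 : (1 + x) * (1 + y) - ((1 + x + y - z) / 2) ^ 2 - 3 / 4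
        = (x + y + z) / 2 + x * y - (x + y - z) ^ 2 / 4 := by ring
    have e5 : (3 * η) ^ 2 = 9 * (η * η) := by ring
    rw [e4, abs_le]
    constructor <;> linarith [axy.1, axy.2]
  have A2 : 0 ≤ (1 + x) * (1 + y) * (1 + z) * H / 4 := by
    have : 0 ≤ 1 + x := by linarith
    have : 0 ≤ 1 + y := by linarith
    have : 0 ≤ 1 + z := by linarith
    positivity
  have A3 : (1 + x) * (1 + y) * (1 + z) * H / 4 ≤ H := by
    have u1 : 0 ≤ 1 + x := by linarith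
    have u2 : 0 ≤ 1 + y := by linarith
    have u3 : 0 ≤ 1 + z := by linarith
    have v1 : 1 + x ≤ 5 / 4 := by linarith
    have v2 : 1 + y ≤ 5 / 4 := by linarith
    have v3 : 1 + z ≤ 5 / 4 := by linarith
    have : (1 + x) * (1 + y) * (1 + z) ≤ (5 / 4) * (5 / 4) * (5 / 4) :=
      mul_le_mul (mul_le_mul v1 v2 u2 (by norm_num)) v3 u3 (by norm_num)
    have := mul_le_mul_of_nonneg_right this hH0.le
    linarith
  rw [abs_le] at A1
  have hH2 : 0 < H ^ 2 := by positivity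
  constructor
  · have : -(5 * η + H) ≤ ((1 + x) * (1 + y) - ((1 + x + y - z) / 2) ^ 2 - 3 / 4)
        - (1 + x) * (1 + y) * (1 + z) * H / 4 := by linarith [A1.1]
    have := mul_le_mul_of_nonneg_right this hH2.le
    rwa [neg_mul] at this
  · have : ((1 + x) * (1 + y) - ((1 + x + y - z) / 2) ^ 2 - 3 / 4)
        - (1 + x) * (1 + y) * (1 + z) * H / 4 ≤ 5 * η + H := by linarith [A1.2]
    exact mul_le_mul_of_nonneg_right this hH2.le

lemma sq_sub_bd {A B T E : ℝ} (hA : 0 < A) (hB : 0 < B) (h1 : |A ^ 2 - T| ≤ E)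
    (h2 : |B ^ 2 - T| ≤ E) : (A - B) ^ 2 ≤ 2 * E := by
  rw [abs_le] at h1 h2
  rcases le_total A B with hle | hle
  · nlinarith
  · nlinarith

/-- closure lemma -/
lemma closure_lem {a b c z : E} (ha : ‖a‖ = 1) (hb : ‖b‖ = 1) (hc : ‖c‖ = 1) (hz : ‖z‖ = 1)
    {H η : ℝ} (hH0 : 0 < H) (hH : H ≤ 1 / 4) (hη0 : 0 ≤ η) (hη : η ≤ 1 / 4)
    (h1 : |‖a - b‖ ^ 2 - H| ≤ η * H)
    (h2 : |‖a - c‖ ^ 2 - H| ≤ η * H) (h3 : |‖b - c‖ ^ 2 - H| ≤ η * H)
    (h4 : |‖z - b‖ ^ 2 - H| ≤ η * H) (h5 : |‖z - c‖ ^ 2 - H| ≤ η * H)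
    (hd1 : 0 < dt a b c) (hd2 : 0 < dt c b z) :
    ‖a + z - b - c‖ ^ 2 ≤ 40 * (η + H) * H := by
  set X := a + z - b - c with hX
  set g := b - c with hg
  set M := b + c with hM
  have hgM : inner ℝ g M = 0 := by
    rw [hg, hM, inner_sub_left, inner_add_right, inner_add_right, real_inner_self_eq_norm_sq,
      real_inner_self_eq_norm_sq, hb, hc, real_inner_comm b c]; ring
  have hk := gram3 X g M hgM
  have hab := dist_sq_unit ha hb
  have hac := dist_sq_unit ha hc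
  have hbc := dist_sq_unit hb hc
  have hzb := dist_sq_unit hz hb
  have hzc := dist_sq_unit hz hc
  have hM2 : ‖M‖ ^ 2 = 4 - ‖b - c‖ ^ 2 := by
    rw [hM, norm_add_sq_real, hb, hc, hbc]; ring
  have hg2 : ‖g‖ ^ 2 = ‖b - c‖ ^ 2 := rfl
  have hbb : inner ℝ b b = (1:ℝ) := by rw [real_inner_self_eq_norm_sq, hb]; norm_num
  have hcc : inner ℝ c c = (1:ℝ) := by rw [real_inner_self_eq_norm_sq, hc]; norm_num
  have hcb : inner ℝ c b = inner ℝ b c := real_inner_comm _ _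
  have hXg : inner ℝ X g = ((‖a - c‖ ^ 2 - ‖a - b‖ ^ 2) + (‖z - c‖ ^ 2 - ‖z - b‖ ^ 2)) / 2 := by
    rw [hX, hg]
    simp only [inner_sub_left, inner_add_left, inner_sub_right, hbb, hcc, hcb]
    rw [hab, hac, hzb, hzc]; ring
  have hXM : inner ℝ X M = ‖b - c‖ ^ 2 - (‖a - b‖ ^ 2 + ‖a - c‖ ^ 2 + ‖z - b‖ ^ 2
      + ‖z - c‖ ^ 2) / 2 := by
    rw [hX, hM]
    simp only [inner_sub_left, inner_add_left, inner_add_right, hbb, hcc, hcb]
    rw [hab, hac, hzb, hzc, hbc]; ring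
  have hXm : dt X g M = 2 * (dt a b c - dt c b z) := by
    rw [hX, hg, hM]; simp [dt]; ring
  have hA := dt_sq_bd ha hb hc hH0 hH hη0 hη h1 h2 h3
  have hB0 : dt z b c ^ 2 = dt c b z ^ 2 := by
    have : dt z b c = - dt c b z := by simp [dt]; ring
    rw [this]; ring
  have hB := dt_sq_bd hz hb hc hH0 hH hη0 hη h4 h5 h3
  rw [hB0] at hB
  have hAB : (dt a b c - dt c b z) ^ 2 ≤ 2 * ((5 * η + H) * H ^ 2) := sq_sub_bd hd1 hd2 hA hB
  rw [abs_le] at h1 h2 h3 h4 h5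
  have b1 : (inner ℝ X g) ^ 2 ≤ (2 * η * H) ^ 2 := by
    rw [hXg]
    apply sq_le_sq'
    · linarith [h1.1, h1.2, h2.1, h2.2, h4.1, h4.2, h5.1, h5.2]
    · linarith [h1.1, h1.2, h2.1, h2.2, h4.1, h4.2, h5.1, h5.2]
  have hηH : η * H ≤ H / 4 := by
    have := mul_le_mul_of_nonneg_right hη hH0.le
    linarith
  have b2 : (inner ℝ X M) ^ 2 ≤ (2 * H) ^ 2 := by
    rw [hXM]
    apply sq_le_sq'
    · linarith [h1.1, h1.2, h2.1, h2.2, h4.1, h4.2, h5.1, h5.2]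
    · linarith [h1.1, h1.2, h2.1, h2.2, h4.1, h4.2, h5.1, h5.2]
  have g1 : 3 / 4 * H ≤ ‖g‖ ^ 2 := by rw [hg2]; linarith [h3.1]
  have g2 : ‖g‖ ^ 2 ≤ 5 / 4 * H := by rw [hg2]; linarith [h3.2]
  have m1 : 3 ≤ ‖M‖ ^ 2 := by rw [hM2]; linarith [h3.2]
  have m2 : ‖M‖ ^ 2 ≤ 4 := by rw [hM2]; linarith [sq_nonneg ‖b - c‖]
  have hRHS : inner ℝ X g ^ 2 * ‖M‖ ^ 2 + inner ℝ X M ^ 2 * ‖g‖ ^ 2 + dt X g M ^ 2 ≤
      (2 * η * H) ^ 2 * 4 + (2 * H) ^ 2 * (5 / 4 * H) + 8 * ((5 * η + H) * H ^ 2) := by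
    rw [hXm]
    have t1 : inner ℝ X g ^ 2 * ‖M‖ ^ 2 ≤ (2 * η * H) ^ 2 * 4 :=
      mul_le_mul b1 m2 (sq_nonneg _) (sq_nonneg _)
    have t2 : inner ℝ X M ^ 2 * ‖g‖ ^ 2 ≤ (2 * H) ^ 2 * (5 / 4 * H) :=
      mul_le_mul b2 g2 (sq_nonneg _) (sq_nonneg _)
    have t3 : (2 * (dt a b c - dt c b z)) ^ 2 = 4 * (dt a b c - dt c b z) ^ 2 := by ring
    rw [t3]
    linarith
  have hLHS : ‖X‖ ^ 2 * (9 / 4 * H) ≤ ‖X‖ ^ 2 * ‖g‖ ^ 2 * ‖M‖ ^ 2 := by
    have : 3 / 4 * H * 3 ≤ ‖g‖ ^ 2 * ‖M‖ ^ 2 :=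
      mul_le_mul g1 m1 (by norm_num) (sq_nonneg _)
    have : 9 / 4 * H ≤ ‖g‖ ^ 2 * ‖M‖ ^ 2 := by linarith
    rw [mul_assoc]
    exact mul_le_mul_of_nonneg_left this (sq_nonneg _)
  have hfin : ‖X‖ ^ 2 * (9 / 4 * H) ≤ 90 * (η + H) * H * H := by
    rw [hk] at hLHS
    refine hLHS.trans (hRHS.trans ?_)
    have u1 : 0 ≤ η * H ^ 2 := by positivity
    have u2 : η * (η * H ^ 2) ≤ 1 / 4 * (η * H ^ 2) := mul_le_mul_of_nonneg_right hη u1
    have u3 : 0 < H ^ 3 := by positivity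
    have u4 : (2 * η * H) ^ 2 * 4 + (2 * H) ^ 2 * (5 / 4 * H) + 8 * ((5 * η + H) * H ^ 2)
        = 16 * (η * (η * H ^ 2)) + 40 * (η * H ^ 2) + 13 * H ^ 3 := by ring
    have u5 : 90 * (η + H) * H * H = 90 * (η * H ^ 2) + 90 * H ^ 3 := by ring
    rw [u4, u5]
    linarith
  have : ‖X‖ ^ 2 * (9 / 4 * H) ≤ (40 * (η + H) * H) * (9 / 4 * H) := by
    calc _ ≤ _ := hfin
      _ = _ := by ring
  exact le_of_mul_le_mul_right this (by positivity)

/-- affine approximation on a forward box -/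
lemma affine_box {F : Type*} [NormedAddCommGroup F] [NormedSpace ℝ F] (f : ℕ → ℕ → F) {M : ℕ}
    {e : ℝ} (he : 0 ≤ e)
    (h1 : ∀ a b, a < M → b < M → ‖f (a + 1) (b + 1) - f (a + 1) b - f a (b + 1) + f a b‖ ≤ e)
    (h2 : ∀ a b, a < M → b + 1 < M → ‖f a (b + 2) - (2:ℝ) • f a (b + 1) + f a b‖ ≤ e)
    (h3 : ∀ a, a + 1 < M → ‖f (a + 2) 0 - (2:ℝ) • f (a + 1) 0 + f a 0‖ ≤ e)
    {a b : ℕ} (ha : a < M) (hb : b < M) :
    ‖f a b - f 0 0 - (a:ℝ) • (f 1 0 - f 0 0) - (b:ℝ) • (f 0 1 - f 0 0)‖ ≤ (a + b) ^ 2 * e := by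
  set A := f 1 0 - f 0 0 with hA
  set B := f 0 1 - f 0 0 with hB
  have R : ∀ a, a < M → ‖f (a + 1) 0 - f a 0 - A‖ ≤ a * e := by
    intro a
    induction a with
    | zero => intro _; simp [hA]
    | succ a ih =>
      intro ha
      have e1 : f (a + 1 + 1) 0 - f (a + 1) 0 - A
          = (f (a + 2) 0 - (2:ℝ) • f (a + 1) 0 + f a 0) + (f (a + 1) 0 - f a 0 - A) := by
        rw [show a + 1 + 1 = a + 2 from rfl]; module
      rw [e1]
      refine (norm_add_le _ _).trans ?_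
      have := h3 a ha
      have := ih (by omega)
      push_cast; linarith
  have Sa : ∀ a, a < M → ‖f a 0 - f 0 0 - (a:ℝ) • A‖ ≤ a ^ 2 * e := by
    intro a
    induction a with
    | zero => intro _; simp
    | succ a ih =>
      intro ha
      have e1 : f (a + 1) 0 - f 0 0 - ((a + 1 : ℕ):ℝ) • A
          = (f (a + 1) 0 - f a 0 - A) + (f a 0 - f 0 0 - (a:ℝ) • A) := by
        push_cast; module
      rw [e1]
      refine (norm_add_le _ _).trans ?_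
      have := R a (by omega)
      have := ih (by omega)
      have h5 : (0:ℝ) ≤ (a + 1) * e := by positivity
      have h6 : ((a:ℝ) + 1) ^ 2 * e = a ^ 2 * e + a * e + (a + 1) * e := by ring
      push_cast
      rw [h6]; linarith
  have C : ∀ a, a < M → ‖f a 1 - f a 0 - B‖ ≤ a * e := by
    intro a
    induction a with
    | zero => intro _; simp [hB]
    | succ a ih =>
      intro ha
      have e1 : f (a + 1) 1 - f (a + 1) 0 - B
          = (f (a + 1) (0 + 1) - f (a + 1) 0 - f a (0 + 1) + f a 0) + (f a 1 - f a 0 - B) := by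
        simp only [zero_add]; abel
      rw [e1]
      refine (norm_add_le _ _).trans ?_
      have := h1 a 0 (by omega) (by omega)
      have := ih (by omega)
      push_cast; linarith
  have Dd : ∀ b, b < M → ‖f a (b + 1) - f a b - B‖ ≤ (a + b) * e := by
    intro b
    induction b with
    | zero => intro _; simpa using C a ha
    | succ b ih =>
      intro hb
      have e1 : f a (b + 1 + 1) - f a (b + 1) - B
          = (f a (b + 2) - (2:ℝ) • f a (b + 1) + f a b) + (f a (b + 1) - f a b - B) := by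
        rw [show b + 1 + 1 = b + 2 from rfl]; module
      rw [e1]
      refine (norm_add_le _ _).trans ?_
      have := h2 a b ha hb
      have := ih (by omega)
      push_cast; linarith
  have Ee : ∀ b, b < M → ‖f a b - f a 0 - (b:ℝ) • B‖ ≤ b * (a + b) * e := by
    intro b
    induction b with
    | zero => intro _; simp
    | succ b ih =>
      intro hb
      have e1 : f a (b + 1) - f a 0 - ((b + 1 : ℕ):ℝ) • B
          = (f a (b + 1) - f a b - B) + (f a b - f a 0 - (b:ℝ) • B) := by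
        push_cast; module
      rw [e1]
      refine (norm_add_le _ _).trans ?_
      have := Dd b (by omega)
      have := ih (by omega)
      have h5 : (0:ℝ) ≤ (b + 1) * e := by positivity
      have h6 : ((b:ℝ) + 1) * (a + (b + 1)) * e = b * (a + b) * e + (a + b) * e + (b + 1) * e := by
        ring
      push_cast
      rw [h6]; linarith
  have e1 : f a b - f 0 0 - (a:ℝ) • A - (b:ℝ) • B
      = (f a b - f a 0 - (b:ℝ) • B) + (f a 0 - f 0 0 - (a:ℝ) • A) := by abel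
  rw [e1]
  refine (norm_add_le _ _).trans ?_
  have := Ee b hb
  have := Sa a ha
  have h5 : (0:ℝ) ≤ (a:ℝ) * b * e := by positivity
  have h6 : ((a:ℝ) + b) ^ 2 * e = b * (a + b) * e + a ^ 2 * e + a * b * e := by ring
  rw [h6]; linarith

end Med
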