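import Pool.Agent.Helper946.M7

set_option autoImplicit false

namespace Med

variable {S : Finset E}

noncomputable def hh (n : ℕ) : ℝ := 8 * Real.pi / (Real.sqrt 3 * n)

noncomputable def GoodD (hS : Cfg S) (n : ℕ) (η : ℝ) (d : Dart S) : Prop :=
  |‖d.tl - d.hd‖ ^ 2 - hh n| ≤ η * hh n ∧ |‖d.tl - (sg hS d).hd‖ ^ 2 - hh n| ≤ η * hh n ∧
  |‖d.hd - (sg hS d).hd‖ ^ 2 - hh n| ≤ η * hh n ∧
  (1 - η) * (2 * Real.pi / (3 * n)) ≤ dD hS d / 6

lemma sqrt3_bd : 1.7320 < Real.sqrt 3 ∧ Real.sqrt 3 < 1.7321 := by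
  constructor
  · apply Real.lt_sqrt_of_sq_lt; norm_num
  · rw [Real.sqrt_lt' (by norm_num)]; norm_num

lemma good_core {e T Sg P Q R : ℝ} (he0 : 0 < e) (he : e ≤ 1 / 100)
    (hu : (T - 2 * Real.pi / 3) ^ 2 ≤ e ^ 2) (hW : T * (Sg - 12 * Real.sqrt 3 * T) / 8 ≤ e ^ 2)
    (hge : 12 * Real.sqrt 3 * T ≤ Sg) (hs : Sg = P + Q + R)
    (hq : (P - Q) ^ 2 + (Q - R) ^ 2 + (R - P) ^ 2 ≤ (Sg ^ 2 - 432 * T ^ 2) / 2) :
    |P - 8 * Real.pi / Real.sqrt 3| ≤ 17 * e ∧ |Q - 8 * Real.pi / Real.sqrt 3| ≤ 17 * e ∧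
    |R - 8 * Real.pi / Real.sqrt 3| ≤ 17 * e ∧ 2 * Real.pi / 3 - e ≤ T := by
  obtain ⟨s1, s2⟩ := sqrt3_bd
  have s3 : Real.sqrt 3 ^ 2 = 3 := Real.sq_sqrt (by norm_num)
  have pi1 := Real.pi_gt_d2
  have pi2 := Real.pi_lt_d2
  set r := Real.sqrt 3 with hr
  have hu' := abs_le_of_sq_le_sq' hu he0.le
  have T1 : 2 ≤ T := by linarith [hu'.1]
  have T2 : T ≤ 2.12 := by linarith [hu'.2]
  have g1 : Sg - 12 * r * T ≤ 4 * e ^ 2 := by
    have h0 : 0 ≤ Sg - 12 * r * T := by linarith only [hge]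
    have h1 : 2 * (Sg - 12 * r * T) ≤ T * (Sg - 12 * r * T) := mul_le_mul_of_nonneg_right T1 h0
    linarith only [h1, hW]
  have e2 : e ^ 2 ≤ 0.0001 := by
    have := pow_le_pow_left₀ he0.le he 2
    norm_num at this ⊢; linarith only [this]
  have rT : 12 * r * T ≤ 12 * 1.7321 * 2.12 :=
    mul_le_mul (by linarith only [s2]) T2 (by linarith only [T1]) (by norm_num)
  have rT0 : 0 ≤ 12 * r * T := by positivity
  have g2 : Sg ^ 2 - 432 * T ^ 2 = (Sg - 12 * r * T) * (Sg + 12 * r * T) := by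
    have : (Sg - 12 * r * T) * (Sg + 12 * r * T) = Sg ^ 2 - 144 * r ^ 2 * T ^ 2 := by ring
    rw [this, s3]; ring
  have g3 : Sg + 12 * r * T ≤ 89 := by
    norm_num at rT e2
    linarith only [rT, g1, e2]
  have g4 : Sg ^ 2 - 432 * T ^ 2 ≤ 4 * e ^ 2 * 89 := by
    rw [g2]
    have : 0 ≤ Sg - 12 * r * T := by linarith
    have h0 : 0 ≤ Sg + 12 * r * T := by linarith
    calc _ ≤ 4 * e ^ 2 * (Sg + 12 * r * T) := mul_le_mul_of_nonneg_right g1 h0
      _ ≤ _ := mul_le_mul_of_nonneg_left g3 (by positivity)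
  have n1 := sq_nonneg (P - Q)
  have n2 := sq_nonneg (Q - R)
  have n3 := sq_nonneg (R - P)
  have n4 : (14 * e) ^ 2 = 196 * e ^ 2 := by ring
  have n5 := sq_nonneg e
  have q1 : (P - Q) ^ 2 ≤ (14 * e) ^ 2 := by rw [n4]; linarith only [hq, g4, n2, n3, n5]
  have q2 : (Q - R) ^ 2 ≤ (14 * e) ^ 2 := by rw [n4]; linarith only [hq, g4, n1, n3, n5]
  have q3 : (R - P) ^ 2 ≤ (14 * e) ^ 2 := by rw [n4]; linarith only [hq, g4, n1, n2, n5]
  have a1 := abs_le_of_sq_le_sq' q1 (by positivity)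
  have a2 := abs_le_of_sq_le_sq' q2 (by positivity)
  have a3 := abs_le_of_sq_le_sq' q3 (by positivity)
  have k1 : 8 * Real.pi / r = 4 * r * (2 * Real.pi / 3) := by
    rw [div_eq_iff (by positivity)]
    have : 4 * r * (2 * Real.pi / 3) * r = 4 * r ^ 2 * (2 * Real.pi / 3) := by ring
    rw [this, s3]; ring
  have b1 : |Sg - 3 * (8 * Real.pi / r)| ≤ 21 * e := by
    rw [k1, abs_le]
    have c1 : 12 * r * T - 3 * (4 * r * (2 * Real.pi / 3)) = 12 * r * (T - 2 * Real.pi / 3) := by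
      ring
    have c2 : 12 * r * (T - 2 * Real.pi / 3) ≤ 12 * r * e :=
      mul_le_mul_of_nonneg_left hu'.2 (by positivity)
    have c3 : 12 * r * (-e) ≤ 12 * r * (T - 2 * Real.pi / 3) :=
      mul_le_mul_of_nonneg_left hu'.1 (by positivity)
    have c4 : 12 * r * e ≤ 20.8 * e :=
      mul_le_mul_of_nonneg_right (by norm_num; linarith only [s2]) he0.le
    have c5 : e ^ 2 ≤ 1 / 100 * e := by
      rw [sq]; exact mul_le_mul_of_nonneg_right he he0.le
    norm_num at c4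
    constructor
    · linarith only [c1, c2, c3, c4, c5, g1, hge, he0]
    · linarith only [c1, c2, c3, c4, c5, g1, hge, he0]
  rw [abs_le] at b1
  refine ⟨?_, ?_, ?_, ?_⟩
  · rw [abs_le]; constructor <;> linarith only [a1.1, a1.2, a3.1, a3.2, b1.1, b1.2, hs]
  · rw [abs_le]; constructor <;> linarith only [a1.1, a1.2, a2.1, a2.2, b1.1, b1.2, hs]
  · rw [abs_le]; constructor <;> linarith only [a2.1, a2.2, a3.1, a3.2, b1.1, b1.2, hs]
  · linarith only [hu'.1]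

lemma s_ge (hS : Cfg S) (d : Dart S) : 12 * Real.sqrt 3 * (dD hS d / 6) ≤ sD hS d := by
  have h := sg_fct hS d
  have w := weitz (hS.unit _ h.1) h.2.2.2.1
  have hd := dD_pos hS d
  have s3 : Real.sqrt 3 ^ 2 = 3 := Real.sq_sqrt (by norm_num)
  have e : (2 * Real.sqrt 3 * dD hS d) ^ 2 ≤ (sD hS d) ^ 2 := by
    rw [mul_pow, mul_pow, s3]
    unfold sD dD
    nlinarith [sq_nonneg (‖d.tl - d.hd‖ ^ 2 - ‖d.tl - (sg hS d).hd‖ ^ 2),
      sq_nonneg (‖d.tl - (sg hS d).hd‖ ^ 2 - ‖d.hd - (sg hS d).hd‖ ^ 2),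
      sq_nonneg (‖d.hd - (sg hS d).hd‖ ^ 2 - ‖d.tl - d.hd‖ ^ 2)]
  have := abs_le_of_sq_le_sq' e (by unfold sD; positivity)
  linarith [this.2]

theorem stab (η : ℝ) (hη0 : 0 < η) (hη1 : η ≤ 1) : ∃ ε > 0, ∃ n0 : ℕ, ∀ n ≥ n0, ∀ (S : Finset E)
    (hS : Cfg S), S.card = n → (∀ v ∈ S, dcard S v ≤ 6) →
    4 * Real.pi / 3 - Vol S ≤ (1 + ε) * (4 * Real.pi ^ 2 / Real.sqrt 3) / n →
    ∀ ℓ : E, (∀ x ∈ S, ∀ y ∈ S, x ≠ y → inner ℝ ℓ x ≠ inner ℝ ℓ y) →
    ∀ B : Finset (Dart S), B ⊆ mids hS ℓ → (∀ d ∈ B, ¬ GoodD hS n η d) →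
      (B.card : ℝ) ≤ η * n := by
  obtain ⟨s1, s2⟩ := sqrt3_bd
  have s3 : Real.sqrt 3 ^ 2 = 3 := Real.sq_sqrt (by norm_num)
  have pi1 := Real.pi_gt_d2
  have pi2 := Real.pi_lt_d2
  set r := Real.sqrt 3 with hr
  have hrpos : 0 < r := by linarith only [s1]
  set c := 4 * Real.pi ^ 2 / r with hc
  have hcpos : 0 < c := by positivity
  set e := η / 100 with he
  have he0 : 0 < e := by positivity
  have he1 : e ≤ 1 / 100 := by rw [he]; linarith only [hη1]
  set ε := η * e ^ 2 / (2 * c) with hε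
  have hεpos : 0 < ε := by positivity
  obtain ⟨n1, hn1⟩ := exists_nat_gt (2 * r * Real.pi * (1 + ε) / ε)
  refine ⟨ε, hεpos, n1 + 1, ?_⟩
  intro n hn S hS hcard hval hD ℓ hℓ B hB hBad
  have hnpos : (0:ℝ) < n := by
    have : 0 < n := by omega
    exact_mod_cast this
  have hnbig : 2 * r * Real.pi * (1 + ε) / ε ≤ n := by
    have h1 : (n1:ℝ) ≤ n := by exact_mod_cast (by omega : n1 ≤ n)
    exact hn1.le.trans h1
  obtain ⟨d1, d2⟩ := deficit hS hℓ
  set M := mids hS ℓ with hM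
  have hF : (M.card : ℝ) ≤ 2 * n := by
    have h1 : 3 * M.card = Fintype.card (Dart S) := card_mids hS hℓ
    have h2 := sum_dcard S
    have h3 : ∑ v ∈ S, dcard S v ≤ ∑ v ∈ S, 6 := Finset.sum_le_sum hval
    rw [Finset.sum_const, hcard, smul_eq_mul] at h3
    have h4 : M.card ≤ 2 * n := by omega
    exact_mod_cast h4
  set τ0 := 2 * Real.pi / (3 * n) with hτ0
  have hτ0pos : 0 < τ0 := by positivity
  have hτn : τ0 * n = 2 * Real.pi / 3 := by rw [hτ0]; field_simp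
  set D := 4 * Real.pi / 3 - Vol S with hDdef
  have hVol : Vol S = 2 * n * τ0 - D := by rw [hDdef]; linarith only [hτn]
  have hsumts : ∑ d ∈ M, dD hS d / 6 * sD hS d / 8 ≤ D := by
    have : ∑ d ∈ M, dD hS d / 6 * sD hS d / 8 = ∑ d ∈ M, dD hS d * sD hS d / 48 := by
      apply Finset.sum_congr rfl; intro d _; ring
    rw [this]; linarith only [d1, d2, hDdef]
  set W : Dart S → ℝ := fun d => dD hS d / 6 * (sD hS d - 12 * r * (dD hS d / 6)) / 8 with hW
  have hWnn : ∀ d, 0 ≤ W d := by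
    intro d
    have := s_ge hS d
    have h2 := dD_pos hS d
    have h3 : 0 ≤ sD hS d - 12 * r * (dD hS d / 6) := by linarith only [this]
    simp only [hW]; positivity
  have hsum : ∑ d ∈ M, (W d + 3 * r / 2 * (dD hS d / 6 - τ0) ^ 2) ≤ 2 * ε * c / n := by
    have h1 : ∑ d ∈ M, (W d + 3 * r / 2 * (dD hS d / 6 - τ0) ^ 2)
        = ∑ d ∈ M, dD hS d / 6 * sD hS d / 8 - 3 * r * τ0 * ∑ d ∈ M, dD hS d / 6
          + 3 * r / 2 * τ0 ^ 2 * M.card := by
      rw [Finset.mul_sum, ← Finset.sum_sub_distrib, mul_comm _ (M.card : ℝ), ← nsmul_eq_mul,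
        ← Finset.sum_const, ← Finset.sum_add_distrib]
      apply Finset.sum_congr rfl
      intro d _
      simp only [hW]
      ring
    rw [h1]
    have h2 : 3 * r * τ0 * (2 * n * τ0 - D) ≤ 3 * r * τ0 * ∑ d ∈ M, dD hS d / 6 :=
      mul_le_mul_of_nonneg_left (by linarith only [hVol, d1]) (by positivity)
    have h3 : 3 * r / 2 * τ0 ^ 2 * M.card ≤ 3 * r / 2 * τ0 ^ 2 * (2 * n) :=
      mul_le_mul_of_nonneg_left hF (by positivity)
    have h4 : 3 * r * n * τ0 ^ 2 = c / n := by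
      rw [hc, hτ0, div_div, eq_div_iff (by positivity)]
      field_simp
      rw [s3]; ring
    have h5 : 3 * r * τ0 * (1 + ε) ≤ ε := by
      rw [hτ0]
      have : 3 * r * (2 * Real.pi / (3 * n)) * (1 + ε) = 2 * r * Real.pi * (1 + ε) / n := by
        field_simp
      rw [this, div_le_iff₀ hnpos]
      rw [div_le_iff₀ hεpos] at hnbig
      linarith only [hnbig]
    have h6 : D * (3 * r * τ0) ≤ (1 + ε) * c / n * (3 * r * τ0) :=
      mul_le_mul_of_nonneg_right hD (by positivity)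
    have h7 : (1 + ε) * c / n * (3 * r * τ0) ≤ ε * (c / n) := by
      have : (1 + ε) * c / n * (3 * r * τ0) = (3 * r * τ0 * (1 + ε)) * (c / n) := by ring
      rw [this]
      exact mul_le_mul_of_nonneg_right h5 (by positivity)
    have h8 : (1 + ε) * c / n = c / n + ε * (c / n) := by ring
    have h9 : 2 * ε * c / n = 2 * (ε * (c / n)) := by ring
    rw [h9]
    rw [h8] at hD
    linarith only [hsumts, h2, h3, h4, h6, h7, hD]
  have hbad : ∀ d ∈ B, e ^ 2 / n ^ 2 ≤ W d + 3 * r / 2 * (dD hS d / 6 - τ0) ^ 2 := by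
    intro d hd
    by_contra hcon
    push Not at hcon
    apply hBad d hd
    have hWd := hWnn d
    have hsq0 := sq_nonneg (dD hS d / 6 - τ0)
    have hr1 : 1 * (dD hS d / 6 - τ0) ^ 2 ≤ 3 * r / 2 * (dD hS d / 6 - τ0) ^ 2 :=
      mul_le_mul_of_nonneg_right (by linarith only [s1]) hsq0
    have hu : (dD hS d / 6 - τ0) ^ 2 ≤ e ^ 2 / n ^ 2 := by linarith only [hr1, hcon, hWd]
    have hWs : W d ≤ e ^ 2 / n ^ 2 := by linarith only [hr1, hcon, hsq0]
    have h := sg_fct hS d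
    have w := weitz (hS.unit _ h.1) h.2.2.2.1
    have hu2 : (n * (dD hS d / 6) - 2 * Real.pi / 3) ^ 2 ≤ e ^ 2 := by
      rw [← hτn]
      have : (n * (dD hS d / 6) - τ0 * n) ^ 2 = (dD hS d / 6 - τ0) ^ 2 * n ^ 2 := by ring
      rw [this]
      rw [le_div_iff₀ (by positivity)] at hu
      exact hu
    have hW2 : n * (dD hS d / 6) * (n * sD hS d - 12 * r * (n * (dD hS d / 6))) / 8 ≤ e ^ 2 := by
      rw [le_div_iff₀ (by positivity)] at hWs
      simp only [hW] at hWs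
      refine le_trans (le_of_eq ?_) hWs
      ring
    have hsg := s_ge hS d
    obtain ⟨g1, g2, g3, g4⟩ := good_core (P := n * ‖d.tl - d.hd‖ ^ 2)
      (Q := n * ‖d.tl - (sg hS d).hd‖ ^ 2) (R := n * ‖d.hd - (sg hS d).hd‖ ^ 2)
      he0 he1 hu2 hW2 (by
        have := mul_le_mul_of_nonneg_left hsg hnpos.le
        linarith only [this]) (by unfold sD; ring) (by
        have h1 : ((n * sD hS d) ^ 2 - 432 * (n * (dD hS d / 6)) ^ 2) / 2
          = n ^ 2 * ((sD hS d ^ 2 - 12 * dD hS d ^ 2) / 2) := by ring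
        rw [h1]
        have h2 := mul_le_mul_of_nonneg_left w (by positivity : (0:ℝ) ≤ n ^ 2)
        refine le_trans (le_of_eq ?_) h2
        ring)
    have hhn : n * hh n = 8 * Real.pi / r := by
      unfold hh; rw [← hr]; field_simp
    have hbig : 17 * e ≤ η * (n * hh n) := by
      rw [hhn]
      have : 14 ≤ 8 * Real.pi / r := by
        rw [le_div_iff₀ hrpos]; linarith only [s2, pi1]
      have : η * 14 ≤ η * (8 * Real.pi / r) := mul_le_mul_of_nonneg_left this hη0.le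
      rw [he]; linarith only [this, hη0]
    have conv : ∀ p : ℝ, |n * p - 8 * Real.pi / r| ≤ 17 * e → |p - hh n| ≤ η * hh n := by
      intro p hp
      rw [← hhn, ← mul_sub, abs_mul, abs_of_pos hnpos] at hp
      have : n * |p - hh n| ≤ n * (η * hh n) := by linarith only [hp, hbig]
      exact le_of_mul_le_mul_left this hnpos
    refine ⟨conv _ g1, conv _ g2, conv _ g3, ?_⟩
    have : (1 - η) * (2 * Real.pi / 3) ≤ n * (dD hS d / 6) := by
      rw [he] at g4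
      have h5 : η * 3.14 ≤ η * Real.pi := mul_le_mul_of_nonneg_left pi1.le hη0.le
      norm_num at h5
      linarith only [g4, h5, hη0]
    have h3 : (1 - η) * (2 * Real.pi / (3 * n)) = (1 - η) * (2 * Real.pi / 3) / n := by
      field_simp
    rw [h3, div_le_iff₀ hnpos]
    linarith only [this]
  have hfin : (B.card : ℝ) * (e ^ 2 / n ^ 2) ≤ 2 * ε * c / n := by
    calc (B.card : ℝ) * (e ^ 2 / n ^ 2) = ∑ d ∈ B, e ^ 2 / n ^ 2 := by
          rw [Finset.sum_const, nsmul_eq_mul]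
      _ ≤ ∑ d ∈ B, (W d + 3 * r / 2 * (dD hS d / 6 - τ0) ^ 2) := Finset.sum_le_sum hbad
      _ ≤ ∑ d ∈ M, (W d + 3 * r / 2 * (dD hS d / 6 - τ0) ^ 2) := by
          apply Finset.sum_le_sum_of_subset_of_nonneg hB
          intro d _ _
          have := hWnn d
          positivity
      _ ≤ _ := hsum
  have h2ec : 2 * ε * c = η * e ^ 2 := by rw [hε]; field_simp
  rw [h2ec, mul_div_assoc', div_le_div_iff₀ (by positivity) hnpos] at hfin
  have : (B.card : ℝ) * (e ^ 2 * n) ≤ η * n * (e ^ 2 * n) := by linarith only [hfin]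
  exact le_of_mul_le_mul_right this (by positivity)

end Med
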