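import Pool.Agent.Helper946.M17
import Pool.Agent.Helper946.M16
import Pool.Agent.Helper946.M8

set_option autoImplicit false

namespace Med

variable {S : Finset E}

noncomputable def Lm (u v : ℝ) : ℂ := ⟨u + v / 2, Real.sqrt 3 / 2 * v⟩

lemma Lm_sq (u v : ℝ) : ‖Lm u v‖ ^ 2 = u ^ 2 + u * v + v ^ 2 := by
  rw [Complex.sq_norm, Complex.normSq_apply, Lm]
  have s3 : Real.sqrt 3 ^ 2 = 3 := Real.sq_sqrt (by norm_num)
  simp only
  linear_combination (v ^ 2 / 4) * s3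

lemma Lm_add (u v u' v' : ℝ) : Lm (u + u') (v + v') = Lm u v + Lm u' v' := by
  apply Complex.ext <;> simp [Lm] <;> ring

lemma Lm_smul (t u v : ℝ) : Lm (t * u) (t * v) = (t : ℂ) * Lm u v := by
  apply Complex.ext <;> simp [Lm] <;> ring

lemma Lm_sub (u v u' v' : ℝ) : Lm (u - u') (v - v') = Lm u v - Lm u' v' := by
  apply Complex.ext <;> simp [Lm] <;> ring

lemma aux_uv1 (u v : ℝ) : |u * v| ≤ (u ^ 2 + v ^ 2) / 2 := by
  rw [abs_le]; constructor <;> nlinarith [sq_nonneg (u + v), sq_nonneg (u - v)]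

lemma aux_uv2 (u v : ℝ) : u ^ 2 + v ^ 2 ≤ 2 * (u ^ 2 + u * v + v ^ 2) := by
  nlinarith [sq_nonneg (u + v)]

/-- both triangles at all lattice cells of the forward `M`-box are good -/
def GB (hS : Cfg S) (n M : ℕ) (η : ℝ) (y : Dart S) : Prop :=
  ∀ a b : ℕ, a < M → b < M → GoodD hS n η (FD hS a b y) ∧
    GoodD hS n η (sg hS (RegS.TP (sg hS) (rh S) (FD hS a b y)))

section box

variable {c0 : E} {l : ℝ}

lemma FD_T (hS : Cfg S) (z : Zone S c0 l) {M : ℕ} {y : Dart S} (hy : RegD c0 l (2 * M + 20) y)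
    {a b : ℕ} (ha : a ≤ M) (hb : b ≤ M) :
    RegS.TP (sg hS) (rh S) (FD hS a b y) = FD hS (a + 1 : ℕ) b y := by
  have h := (zone_reg hS z).FF_add 1 0 a b (x := y) ((zone_reg hS z).mono (by
    simp only [Int.natAbs_natCast]; simp; omega) hy)
  have e : ∀ x, RegS.FF (sg hS) (rh S) 1 0 x = RegS.TP (sg hS) (rh S) x := by
    intro x; simp [RegS.FF]
  rw [e] at h
  unfold FD
  rw [h]
  congr 1
  · push_cast; ring
  · ring

lemma FD_Q (hS : Cfg S) (z : Zone S c0 l) {M : ℕ} {y : Dart S} (hy : RegD c0 l (2 * M + 20) y)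
    {a b : ℕ} (ha : a ≤ M) (hb : b ≤ M) :
    RegS.QP (sg hS) (rh S) (FD hS a b y) = FD hS a (b + 1 : ℕ) y := by
  have h := (zone_reg hS z).FF_add 0 1 a b (x := y) ((zone_reg hS z).mono (by
    simp only [Int.natAbs_natCast]; simp; omega) hy)
  have e : ∀ x, RegS.FF (sg hS) (rh S) 0 1 x = RegS.QP (sg hS) (rh S) x := by
    intro x; simp [RegS.FF]
  rw [e] at h
  unfold FD
  rw [h]
  congr 1
  · ring
  · push_cast; ring

lemma FD_regD (hS : Cfg S) (z : Zone S c0 l) {M k : ℕ} {y : Dart S}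
    (hy : RegD c0 l (2 * M + k) y) {a b : ℕ} (ha : a ≤ M) (hb : b ≤ M) :
    RegD c0 l k (FD hS a b y) := by
  have h := (zone_reg hS z).FF_reg a b (k := k) (x := y) ((zone_reg hS z).mono (by
    simp only [Int.natAbs_natCast]; omega) hy)
  exact h

lemma cell_facts (hS : Cfg S) (z : Zone S c0 l) {n M : ℕ} {η : ℝ} {y : Dart S}
    (hy : RegD c0 l (2 * M + 20) y) (hG : GB hS n M η y) (f : ℕ → ℕ → E)
    (hf : ∀ a b, f a b = (FD hS a b y).tl) {a b : ℕ} (ha : a < M) (hb : b < M) :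
    (|‖f a b - f (a + 1) b‖ ^ 2 - hh n| ≤ η * hh n ∧
      |‖f a b - f a (b + 1)‖ ^ 2 - hh n| ≤ η * hh n ∧
      |‖f (a + 1) b - f a (b + 1)‖ ^ 2 - hh n| ≤ η * hh n ∧
      0 < dt (f a b) (f (a + 1) b) (f a (b + 1))) ∧
    (|‖f (a + 1) b - f (a + 1) (b + 1)‖ ^ 2 - hh n| ≤ η * hh n ∧
      |‖f (a + 1) b - f a (b + 1)‖ ^ 2 - hh n| ≤ η * hh n ∧
      |‖f (a + 1) (b + 1) - f a (b + 1)‖ ^ 2 - hh n| ≤ η * hh n ∧
      0 < dt (f (a + 1) b) (f (a + 1) (b + 1)) (f a (b + 1))) := by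
  have t := zone_tail hS
  have hreg := zone_reg hS z
  set x := FD hS a b y with hx
  have hxr : RegD c0 l 20 x := FD_regD hS z hy ha.le hb.le
  have hT := FD_T hS z hy ha.le hb.le
  have hQ := FD_Q hS z hy ha.le hb.le
  have hTQ := FD_Q hS z hy (a := a + 1) (by omega) hb.le
  rw [← hx] at hT hQ
  have e1 : x.hd = f (a + 1) b := by rw [hf, ← hT, t.Ttl]
  have e2 : (sg hS x).hd = f a (b + 1) := by rw [hf, ← hQ, t.Qtl]
  have e0 : x.tl = f a b := by rw [hf]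
  set w := sg hS (RegS.TP (sg hS) (rh S) x) with hw
  have w0 : w.tl = f (a + 1) b := by rw [hw, sg_tl, t.Ttl, e1]
  have w1 : w.hd = f (a + 1) (b + 1) := by
    rw [hw, ← t.Qtl, hT, hTQ, hf]
  have w2 : (sg hS w).hd = f a (b + 1) := by
    have : (sg hS w).hd = (RegS.UP (sg hS) (rh S) (RegS.TP (sg hS) (rh S) x)).tl := by
      rw [t.Utl, hw, pow_two]; rfl
    rw [this, hreg.urel (hreg.mono (by norm_num) hxr), hQ, hf]
  obtain ⟨g1, g2⟩ := hG a b ha hb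
  rw [← hx] at g1 g2
  rw [← hw] at g2
  obtain ⟨g11, g12, g13, -⟩ := g1
  obtain ⟨g21, g22, g23, -⟩ := g2
  have d1 := dD_pos hS x
  have d2 := dD_pos hS w
  unfold dD at d1 d2
  rw [e0, e1] at g11
  rw [e0, e2] at g12
  rw [e1, e2] at g13
  rw [e0, e1, e2] at d1
  rw [w0, w1] at g21
  rw [w0, w2] at g22
  rw [w1, w2] at g23
  rw [w0, w1, w2] at d2
  exact ⟨⟨g11, g12, g13, d1⟩, g21, g22, g23, d2⟩

lemma hh_pos {n : ℕ} (hn : 0 < n) : 0 < hh n := by
  unfold hh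
  have : (0:ℝ) < n := by exact_mod_cast hn
  have := Real.pi_pos
  positivity

lemma sq_abs_rev {a b : E} {H e : ℝ} (h : |‖a - b‖ ^ 2 - H| ≤ e) : |‖b - a‖ ^ 2 - H| ≤ e := by
  rwa [norm_sub_rev]

lemma box_dist (hS : Cfg S) (z : Zone S c0 l) {n M : ℕ} (hn : 0 < n) (hH : hh n ≤ 1 / 4)
    {η : ℝ} (hη0 : 0 ≤ η) (hη : η ≤ 1 / 4) {y : Dart S}
    (hy : RegD c0 l (2 * M + 20) y) (hG : GB hS n M η y)
    {a b a' b' : ℕ} (ha : a < M) (hb : b < M) (ha' : a' < M) (hb' : b' < M) :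
    ‖(FD hS a b y).tl - (FD hS a' b' y).tl‖ ≤
      ((1 + 3 * η) * ‖Lm ((a:ℝ) - a') ((b:ℝ) - b')‖ + 16 * M ^ 2 * Real.sqrt (40 * (η + hh n)))
        * Real.sqrt (hh n) := by
  set f : ℕ → ℕ → E := fun a b => (FD hS a b y).tl with hf
  have hc : ∀ {a b : ℕ}, a < M → b < M → _ := fun {a b} ha hb =>
    cell_facts hS z hy hG f (fun _ _ => rfl) (a := a) (b := b) ha hb
  have hu : ∀ a b, ‖f a b‖ = 1 := fun a b => hS.unit _ (FD hS a b y).tl_mem
  set H := hh n with hHdef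
  have hH0 : 0 < H := hh_pos hn
  set e0 := Real.sqrt (40 * (η + H) * H) with he0
  have he00 : 0 ≤ e0 := Real.sqrt_nonneg _
  have tosqrt : ∀ X : E, ‖X‖ ^ 2 ≤ 40 * (η + H) * H → ‖X‖ ≤ e0 := by
    intro X hX
    rw [he0]; exact Real.le_sqrt_of_sq_le hX
  have T1 : ∀ a b, a < M → b < M → ‖f a b + f (a + 1) (b + 1) - f (a + 1) b - f a (b + 1)‖ ≤ e0 := by
    intro a b ha hb
    obtain ⟨⟨u1, u2, u3, u4⟩, v1, v2, v3, v4⟩ := hc ha hb
    apply tosqrt
    exact closure_lem (hu _ _) (hu _ _) (hu _ _) (hu _ _) hH0 hH hη0 hη u1 u2 u3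
      (sq_abs_rev v1) v3 u4 (by rw [← dt_rot]; exact v4)
  have T2 : ∀ a b, a < M → b + 1 < M →
      ‖f a (b + 2) + f (a + 1) b - f a (b + 1) - f (a + 1) (b + 1)‖ ≤ e0 := by
    intro a b ha hb
    obtain ⟨-, v1, v2, v3, v4⟩ := hc ha (show b < M by omega)
    obtain ⟨⟨u1, u2, u3, u4⟩, -⟩ := hc ha hb
    apply tosqrt
    exact closure_lem (hu _ _) (hu _ _) (hu _ _) (hu _ _) hH0 hH hη0 hη (sq_abs_rev u2)
      (sq_abs_rev u3) u1 v2 v1 (by rw [← dt_rot]; exact u4) (by rw [dt_rot]; exact v4)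
  have T3 : ∀ a b, a + 1 < M → b < M →
      ‖f (a + 2) b + f a (b + 1) - f (a + 1) (b + 1) - f (a + 1) b‖ ≤ e0 := by
    intro a b ha hb
    obtain ⟨-, v1, v2, v3, v4⟩ := hc (show a < M by omega) hb
    obtain ⟨⟨u1, u2, u3, u4⟩, -⟩ := hc ha hb
    apply tosqrt
    exact closure_lem (hu _ _) (hu _ _) (hu _ _) (hu _ _) hH0 hH hη0 hη u3
      (sq_abs_rev u1) (sq_abs_rev u2) (sq_abs_rev v3) (sq_abs_rev v2)
      (by rw [dt_rot]; exact u4) v4
  have key : ∀ {a b : ℕ}, a < M → b < M → _ := fun {a b} ha hb =>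
    affine_box f (M := M) (e := 2 * e0) (by positivity) (by
      intro a b ha hb
      have := T1 a b ha hb
      have e : f (a + 1) (b + 1) - f (a + 1) b - f a (b + 1) + f a b
        = f a b + f (a + 1) (b + 1) - f (a + 1) b - f a (b + 1) := by abel
      rw [e]; linarith) (by
      intro a b ha hb
      have h1 := T1 a b ha (by omega)
      have h2 := T2 a b ha hb
      have e : f a (b + 2) - (2:ℝ) • f a (b + 1) + f a b
        = (f a (b + 2) + f (a + 1) b - f a (b + 1) - f (a + 1) (b + 1))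
          + (f a b + f (a + 1) (b + 1) - f (a + 1) b - f a (b + 1)) := by module
      rw [e]
      exact (norm_add_le _ _).trans (by linarith)) (by
      intro a ha
      have h1 := T1 a 0 (by omega) (by omega)
      have h2 := T3 a 0 ha (by omega)
      have e : f (a + 2) 0 - (2:ℝ) • f (a + 1) 0 + f a 0
        = (f (a + 2) 0 + f a (0 + 1) - f (a + 1) (0 + 1) - f (a + 1) 0)
          + (f a 0 + f (a + 1) (0 + 1) - f (a + 1) 0 - f a (0 + 1)) := by module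
      rw [e]
      exact (norm_add_le _ _).trans (by linarith)) ha hb (a := a) (b := b)
  have hM0 : 0 < M := by omega
  obtain ⟨⟨u1, u2, u3, -⟩, -⟩ := hc hM0 hM0
  simp only [zero_add] at u1 u2 u3
  have k1 := key ha hb
  have k2 := key ha' hb'
  set A := f 1 0 - f 0 0 with hA
  set B := f 0 1 - f 0 0 with hB
  set u := (a:ℝ) - a' with hu'
  set v := (b:ℝ) - b' with hv'
  have hAn : |‖A‖ ^ 2 - H| ≤ η * H := by rw [hA, norm_sub_rev]; exact u1
  have hBn : |‖B‖ ^ 2 - H| ≤ η * H := by rw [hB, norm_sub_rev]; exact u2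
  have hABn : |‖A - B‖ ^ 2 - H| ≤ η * H := by
    have : A - B = f 1 0 - f 0 1 := by rw [hA, hB]; abel
    rw [this]; exact u3
  have hlin : ‖u • A + v • B‖ ≤ (1 + 3 * η) * ‖Lm u v‖ * Real.sqrt H := by
    have h1 : ‖u • A + v • B‖ ^ 2 = (u ^ 2 + u * v) * ‖A‖ ^ 2 + (v ^ 2 + u * v) * ‖B‖ ^ 2
        - u * v * ‖A - B‖ ^ 2 := by
      rw [norm_add_sq_real, norm_sub_sq_real A B, norm_smul, norm_smul, real_inner_smul_left,
        real_inner_smul_right, mul_pow, mul_pow, Real.norm_eq_abs, Real.norm_eq_abs, sq_abs, sq_abs]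
      ring
    have h2 : ‖u • A + v • B‖ ^ 2 ≤ (1 + 5 * η) * (u ^ 2 + u * v + v ^ 2) * H := by
      rw [h1]
      have e1 : (u ^ 2 + u * v) * ‖A‖ ^ 2 + (v ^ 2 + u * v) * ‖B‖ ^ 2 - u * v * ‖A - B‖ ^ 2
          = (u ^ 2 + u * v + v ^ 2) * H + ((u ^ 2 + u * v) * (‖A‖ ^ 2 - H)
            + (v ^ 2 + u * v) * (‖B‖ ^ 2 - H) - u * v * (‖A - B‖ ^ 2 - H)) := by ring
      rw [e1]
      have e2 : (u ^ 2 + u * v) * (‖A‖ ^ 2 - H) ≤ |u ^ 2 + u * v| * (η * H) :=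
        (le_abs_self _).trans (by rw [abs_mul]; exact mul_le_mul_of_nonneg_left hAn (abs_nonneg _))
      have e3 : (v ^ 2 + u * v) * (‖B‖ ^ 2 - H) ≤ |v ^ 2 + u * v| * (η * H) :=
        (le_abs_self _).trans (by rw [abs_mul]; exact mul_le_mul_of_nonneg_left hBn (abs_nonneg _))
      have e4 : -(u * v * (‖A - B‖ ^ 2 - H)) ≤ |u * v| * (η * H) :=
        (neg_le_abs _).trans (by rw [abs_mul]; exact mul_le_mul_of_nonneg_left hABn (abs_nonneg _))
      have e5 : |u ^ 2 + u * v| + |v ^ 2 + u * v| + |u * v| ≤ 5 * (u ^ 2 + u * v + v ^ 2) := by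
        have f1 : |u ^ 2 + u * v| ≤ u ^ 2 + |u * v| := by
          refine (abs_add_le _ _).trans ?_; rw [abs_of_nonneg (sq_nonneg u)]
        have f2 : |v ^ 2 + u * v| ≤ v ^ 2 + |u * v| := by
          refine (abs_add_le _ _).trans ?_; rw [abs_of_nonneg (sq_nonneg v)]
        have f3 : |u * v| ≤ (u ^ 2 + v ^ 2) / 2 := aux_uv1 u v
        have f4 : u ^ 2 + v ^ 2 ≤ 2 * (u ^ 2 + u * v + v ^ 2) := aux_uv2 u v
        linarith
      have hηH : 0 ≤ η * H := by positivity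
      have e6 := mul_le_mul_of_nonneg_right e5 hηH
      have e7 : (1 + 5 * η) * (u ^ 2 + u * v + v ^ 2) * H = (u ^ 2 + u * v + v ^ 2) * H
          + 5 * (u ^ 2 + u * v + v ^ 2) * (η * H) := by ring
      rw [e7]
      linarith
    have h3 : ‖u • A + v • B‖ ^ 2 ≤ ((1 + 3 * η) * ‖Lm u v‖ * Real.sqrt H) ^ 2 := by
      rw [mul_pow, mul_pow, Lm_sq, Real.sq_sqrt hH0.le]
      refine h2.trans ?_
      have hq : 0 ≤ u ^ 2 + u * v + v ^ 2 := by rw [← Lm_sq]; exact sq_nonneg _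
      have : 1 + 5 * η ≤ (1 + 3 * η) ^ 2 := by
        have : 0 ≤ η ^ 2 := sq_nonneg _
        linarith [show (1 + 3 * η) ^ 2 = 1 + 6 * η + 9 * η ^ 2 by ring]
      exact mul_le_mul_of_nonneg_right (mul_le_mul_of_nonneg_right this hq) hH0.le
    exact (pow_le_pow_iff_left₀ (norm_nonneg _) (by positivity) (by norm_num)).1 h3
  have hrep : f a b - f a' b' = (u • A + v • B)
      + (f a b - f 0 0 - (a:ℝ) • A - (b:ℝ) • B) - (f a' b' - f 0 0 - (a':ℝ) • A - (b':ℝ) • B) := by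
    rw [hu', hv']; module
  have hfin : ‖f a b - f a' b'‖ ≤ (1 + 3 * η) * ‖Lm u v‖ * Real.sqrt H
      + (2 * M) ^ 2 * (2 * e0) + (2 * M) ^ 2 * (2 * e0) := by
    rw [hrep]
    refine (norm_sub_le _ _).trans ?_
    have n1 := norm_add_le (u • A + v • B) (f a b - f 0 0 - (a:ℝ) • A - (b:ℝ) • B)
    have aM : (a:ℝ) ≤ M := by exact_mod_cast ha.le
    have bM : (b:ℝ) ≤ M := by exact_mod_cast hb.le
    have aM' : (a':ℝ) ≤ M := by exact_mod_cast ha'.le
    have bM' : (b':ℝ) ≤ M := by exact_mod_cast hb'.le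
    have p1 : ((a:ℝ) + b) ^ 2 * (2 * e0) ≤ (2 * M) ^ 2 * (2 * e0) := by
      apply mul_le_mul_of_nonneg_right _ (by positivity)
      exact pow_le_pow_left₀ (by positivity) (by linarith) 2
    have p2 : ((a':ℝ) + b') ^ 2 * (2 * e0) ≤ (2 * M) ^ 2 * (2 * e0) := by
      apply mul_le_mul_of_nonneg_right _ (by positivity)
      exact pow_le_pow_left₀ (by positivity) (by linarith) 2
    linarith
  refine hfin.trans (le_of_eq ?_)
  have : e0 = Real.sqrt (40 * (η + H)) * Real.sqrt H := by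
    rw [he0, Real.sqrt_mul (by positivity)]
  rw [this]
  ring

end box

end Med
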