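import Pool.Agent.Helper946.M18

set_option autoImplicit false

namespace Med

variable {S : Finset E}

lemma exists_mid (hS : Cfg S) {ℓ : E}
    (hℓ : ∀ x ∈ S, ∀ y ∈ S, x ≠ y → inner ℝ ℓ x ≠ inner ℝ ℓ y) (d : Dart S) :
    mid hS ℓ d ∨ mid hS ℓ (rh S (sg hS d)) ∨ mid hS ℓ (rh S (sg hS (rh S (sg hS d)))) := by
  have hF := sg_fct hS d
  have hn := ne_of_dt hF.2.2.2.1
  have e1 := hℓ _ hF.1 _ hF.2.1 hn.1
  have e2 := hℓ _ hF.2.1 _ hF.2.2.1 hn.2.1
  have e3 := hℓ _ hF.1 _ hF.2.2.1 hn.2.2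
  have m1 : mid hS ℓ (rh S (sg hS d)) ↔ ((inner ℝ ℓ d.tl < inner ℝ ℓ (sg hS d).hd ∧
      inner ℝ ℓ (sg hS d).hd < inner ℝ ℓ d.hd) ∨
      (inner ℝ ℓ d.hd < inner ℝ ℓ (sg hS d).hd ∧ inner ℝ ℓ (sg hS d).hd < inner ℝ ℓ d.tl)) := by
    rw [mid, tau_next1]; rfl
  have m2 : mid hS ℓ (rh S (sg hS (rh S (sg hS d)))) ↔ ((inner ℝ ℓ (sg hS d).hd < inner ℝ ℓ d.hd ∧
      inner ℝ ℓ d.hd < inner ℝ ℓ d.tl) ∨
      (inner ℝ ℓ d.tl < inner ℝ ℓ d.hd ∧ inner ℝ ℓ d.hd < inner ℝ ℓ (sg hS d).hd)) := by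
    rw [mid, tau_next2]
    simp only [rh_tl, rh_hd, sg_tl, tau_next1]
  rw [m1, m2, mid]
  rcases lt_or_gt_of_ne e1 with a1 | a1 <;> rcases lt_or_gt_of_ne e2 with a2 | a2 <;>
    rcases lt_or_gt_of_ne e3 with a3 | a3 <;>
    first | (exfalso; linarith) | simp [a1, a2, a3]

lemma good_rot (hS : Cfg S) {n : ℕ} {η : ℝ} (d : Dart S) (h : GoodD hS n η (rh S (sg hS d))) :
    GoodD hS n η d := by
  obtain ⟨h1, h2, h3, h4⟩ := h
  unfold dD at h4
  rw [tau_next1] at h2 h3 h4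
  simp only [rh_tl, rh_hd, sg_tl] at h1 h2 h3 h4
  refine ⟨h3, sq_abs_rev h1, sq_abs_rev h2, ?_⟩
  unfold dD
  rwa [← dt_rot d.tl d.hd (sg hS d).hd, ← dt_rot d.hd (sg hS d).hd d.tl]

lemma card_perm_filter {X : Type*} [Fintype X] [DecidableEq X] (π : Equiv.Perm X) (P : X → Prop)
    [DecidablePred P] :
    (Finset.univ.filter (fun y => P (π y))).card = (Finset.univ.filter P).card := by
  apply Finset.card_bij (fun y _ => π y)
  · intro y hy; simpa using hy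
  · intro a _ b _ h; exact π.injective h
  · intro b hb
    refine ⟨π⁻¹ b, ?_, ais π b⟩
    simp only [Finset.mem_filter, Finset.mem_univ, true_and] at hb ⊢
    rw [ais]; exact hb

lemma bad_count (hS : Cfg S) {ℓ : E}
    (hℓ : ∀ x ∈ S, ∀ y ∈ S, x ≠ y → inner ℝ ℓ x ≠ inner ℝ ℓ y) {n : ℕ} {η c : ℝ}
    (h : ∀ B : Finset (Dart S), B ⊆ mids hS ℓ → (∀ d ∈ B, ¬ GoodD hS n η d) → (B.card : ℝ) ≤ c)
    (B : Finset (Dart S)) (hB : ∀ d ∈ B, ¬ GoodD hS n η d) : (B.card : ℝ) ≤ 3 * c := by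
  classical
  set τ : Equiv.Perm (Dart S) := rh S * sg hS with hτ
  set B0 := (mids hS ℓ).filter (fun d => ¬ GoodD hS n η d) with hB0
  have hc := h B0 (Finset.filter_subset _ _) (by intro d hd; exact (Finset.mem_filter.1 hd).2)
  have hB0u : B0 = Finset.univ.filter (fun d => mid hS ℓ d ∧ ¬ GoodD hS n η d) := by
    rw [hB0, mids, Finset.filter_filter]
  have hsub : B ⊆ (Finset.univ.filter (fun d => mid hS ℓ d ∧ ¬ GoodD hS n η d)) ∪
      (Finset.univ.filter (fun d => mid hS ℓ (τ d) ∧ ¬ GoodD hS n η (τ d))) ∪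
      (Finset.univ.filter (fun d => mid hS ℓ ((τ * τ) d) ∧ ¬ GoodD hS n η ((τ * τ) d))) := by
    intro d hd
    have h1 := hB d hd
    have h2 : ¬ GoodD hS n η (τ d) := fun hh => h1 (good_rot hS d hh)
    have h3 : ¬ GoodD hS n η ((τ * τ) d) := fun hh => h2 (good_rot hS (τ d) hh)
    simp only [Finset.mem_union, Finset.mem_filter, Finset.mem_univ, true_and]
    rcases exists_mid hS hℓ d with h4 | h4 | h4
    · exact Or.inl (Or.inl ⟨h4, h1⟩)
    · exact Or.inl (Or.inr ⟨h4, h2⟩)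
    · exact Or.inr ⟨h4, h3⟩
  have h5 := Finset.card_le_card hsub
  have h6 := (h5.trans (Finset.card_union_le _ _)).trans
    (Nat.add_le_add_right (Finset.card_union_le _ _) _)
  rw [card_perm_filter τ (fun d => mid hS ℓ d ∧ ¬ GoodD hS n η d),
    card_perm_filter (τ * τ) (fun d => mid hS ℓ d ∧ ¬ GoodD hS n η d), ← hB0u] at h6
  have h7 : (B.card : ℝ) ≤ ((B0.card + B0.card + B0.card : ℕ) : ℝ) := by exact_mod_cast h6
  push_cast at h7
  linarith

lemma badM_count (hS : Cfg S) {n M : ℕ} {η c : ℝ}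
    (h : ∀ B : Finset (Dart S), (∀ d ∈ B, ¬ GoodD hS n η d) → (B.card : ℝ) ≤ c)
    (B : Finset (Dart S)) (hB : ∀ d ∈ B, ¬ GB hS n M η d) : (B.card : ℝ) ≤ 2 * M ^ 2 * c := by
  classical
  set G0 := Finset.univ.filter (fun d => ¬ GoodD hS n η d) with hG0
  have hc := h G0 (by intro d hd; exact (Finset.mem_filter.1 hd).2)
  set π1 : ℕ × ℕ → Equiv.Perm (Dart S) := fun p =>
    RegS.QP (sg hS) (rh S) ^ (p.2 : ℤ) * RegS.TP (sg hS) (rh S) ^ (p.1 : ℤ) with hπ1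
  set π2 : ℕ × ℕ → Equiv.Perm (Dart S) := fun p => sg hS * RegS.TP (sg hS) (rh S) * π1 p with hπ2
  have hsub : B ⊆ (Finset.range M ×ˢ Finset.range M).biUnion (fun p =>
      (Finset.univ.filter (fun d => ¬ GoodD hS n η (π1 p d))) ∪
      (Finset.univ.filter (fun d => ¬ GoodD hS n η (π2 p d)))) := by
    intro d hd
    have h1 := hB d hd
    unfold GB at h1
    push Not at h1
    obtain ⟨a, b, ha, hb, hab⟩ := h1
    simp only [Finset.mem_biUnion, Finset.mem_product, Finset.mem_range, Finset.mem_union,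
      Finset.mem_filter, Finset.mem_univ, true_and]
    refine ⟨(a, b), ⟨ha, hb⟩, ?_⟩
    by_cases h2 : GoodD hS n η (FD hS a b d)
    · right; exact hab h2
    · left; exact h2
  have h5 := (Finset.card_le_card hsub).trans Finset.card_biUnion_le
  have h6 : ∀ p ∈ Finset.range M ×ˢ Finset.range M,
      ((Finset.univ.filter (fun d => ¬ GoodD hS n η (π1 p d))) ∪
      (Finset.univ.filter (fun d => ¬ GoodD hS n η (π2 p d)))).card ≤ 2 * G0.card := by
    intro p _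
    refine (Finset.card_union_le _ _).trans ?_
    rw [card_perm_filter (π1 p) (fun d => ¬ GoodD hS n η d),
      card_perm_filter (π2 p) (fun d => ¬ GoodD hS n η d), ← hG0]
    omega
  have h7 := h5.trans (Finset.sum_le_sum h6)
  rw [Finset.sum_const, Finset.card_product, Finset.card_range, smul_eq_mul] at h7
  have h8 : (B.card : ℝ) ≤ ((M * M * (2 * G0.card) : ℕ) : ℝ) := by exact_mod_cast h7
  push_cast at h8
  have : (M:ℝ) * M * (2 * G0.card) ≤ M * M * (2 * c) := by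
    apply mul_le_mul_of_nonneg_left (by linarith) (by positivity)
  nlinarith

/-- displacement of the tail -/
lemma move_pow {c : ℝ} (_hc : 0 ≤ c) (P : Equiv.Perm (Dart S))
    (hP : ∀ x, ‖(P x).tl - x.tl‖ ≤ c) (a : ℕ) (x : Dart S) : ‖((P ^ a) x).tl - x.tl‖ ≤ a * c := by
  induction a with
  | zero => simp
  | succ a ih =>
    rw [pow_succ', Equiv.Perm.mul_apply]
    have e : (P ((P ^ a) x)).tl - x.tl = ((P ((P ^ a) x)).tl - ((P ^ a) x).tl)
      + (((P ^ a) x).tl - x.tl) := by abel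
    rw [e]
    refine (norm_add_le _ _).trans ?_
    have := hP ((P ^ a) x)
    have hcast : ((a + 1 : ℕ) : ℝ) = a + 1 := by norm_num
    rw [hcast]; linarith

lemma move_zpow {c : ℝ} (hc : 0 ≤ c) (P : Equiv.Perm (Dart S))
    (hP : ∀ x, ‖(P x).tl - x.tl‖ ≤ c) (a : ℤ) (x : Dart S) :
    ‖((P ^ a) x).tl - x.tl‖ ≤ a.natAbs * c := by
  obtain ⟨m, rfl | rfl⟩ := a.eq_nat_or_neg
  · simp only [zpow_natCast, Int.natAbs_natCast]; exact move_pow hc P hP m x
  · simp only [zpow_natCast, zpow_neg, Int.natAbs_natCast, Int.natAbs_neg, ← inv_pow]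
    apply move_pow hc
    intro y
    have := hP (P⁻¹ y)
    rw [ais, norm_sub_rev] at this
    exact this

lemma FD_move (hS : Cfg S) {l : ℝ} (hl : 0 ≤ l) (hedge : ∀ a b, Edg S a b → ‖a - b‖ ≤ l)
    (a b : ℤ) (x : Dart S) : ‖(FD hS a b x).tl - x.tl‖ ≤ (a.natAbs + b.natAbs) * l := by
  have t := zone_tail hS
  have hT : ∀ x, ‖(RegS.TP (sg hS) (rh S) x).tl - x.tl‖ ≤ l := by
    intro x; rw [t.Ttl]; exact hedge _ _ x.edg.symm
  have hQ : ∀ x, ‖(RegS.QP (sg hS) (rh S) x).tl - x.tl‖ ≤ l := by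
    intro x; rw [t.Qtl]; exact hedge _ _ (sg hS x).edg.symm
  have h1 := move_zpow hl _ hT a x
  have h2 := move_zpow hl _ hQ b ((RegS.TP (sg hS) (rh S) ^ a) x)
  unfold FD RegS.FF
  have e : ((RegS.QP (sg hS) (rh S) ^ b) ((RegS.TP (sg hS) (rh S) ^ a) x)).tl - x.tl
    = (((RegS.QP (sg hS) (rh S) ^ b) ((RegS.TP (sg hS) (rh S) ^ a) x)).tl
      - ((RegS.TP (sg hS) (rh S) ^ a) x).tl) + (((RegS.TP (sg hS) (rh S) ^ a) x).tl - x.tl) := by
    abel
  rw [e]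
  refine (norm_add_le _ _).trans ?_
  linarith

open InnerProductGeometry in
lemma angle_le_chord {x y : E} (hx : ‖x‖ = 1) (hy : ‖y‖ = 1) (h : ‖x - y‖ ≤ 1 / 2) :
    angle x y ≤ ‖x - y‖ * (1 + ‖x - y‖ ^ 2) := by
  set t := ‖x - y‖ with ht
  have ht0 : 0 ≤ t := norm_nonneg _
  have h1 : inner ℝ x y = 1 - t ^ 2 / 2 := by
    have := dist_sq_unit hx hy
    rw [ht]; linarith
  unfold angle
  rw [hx, hy, mul_one, div_one, h1]
  have ht2 : t ^ 2 ≤ 1 / 4 := by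
    have := pow_le_pow_left₀ ht0 h 2
    norm_num at this ⊢
    exact this
  have h54 : 1 + t ^ 2 ≤ 5 / 4 := by linarith
  have h0' : 0 ≤ 1 + t ^ 2 := by positivity
  set X := t * (1 + t ^ 2) with hX
  have hX0 : 0 ≤ X := by positivity
  have hX1 : X ≤ 1 := by
    have : t * (1 + t ^ 2) ≤ (1 / 2) * (5 / 4) := mul_le_mul h h54 h0' (by norm_num)
    linarith
  have hcos : Real.cos X ≤ 1 - t ^ 2 / 2 := by
    have hb := Real.cos_bound (x := X) (by rw [abs_of_nonneg hX0]; exact hX1)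
    rw [abs_of_nonneg hX0, abs_le] at hb
    have e1 : X ^ 2 = t ^ 2 * (1 + t ^ 2) ^ 2 := by rw [hX]; ring
    have e2 : X ^ 4 = t ^ 4 * (1 + t ^ 2) ^ 4 := by rw [hX]; ring
    have e4 : (1 + t ^ 2) ^ 4 ≤ 4 := by
      refine (pow_le_pow_left₀ h0' h54 4).trans ?_
      norm_num
    have e5 : X ^ 4 ≤ t ^ 4 * 4 := by rw [e2]; exact mul_le_mul_of_nonneg_left e4 (by positivity)
    have e6 : t ^ 2 + 2 * t ^ 4 ≤ X ^ 2 := by
      rw [e1]
      have : t ^ 2 * (1 + t ^ 2) ^ 2 = t ^ 2 + 2 * t ^ 4 + t ^ 6 := by ring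
      rw [this]
      have : 0 ≤ t ^ 6 := by positivity
      linarith
    have e7 : 0 ≤ t ^ 4 := by positivity
    linarith [hb.2]
  calc Real.arccos (1 - t ^ 2 / 2) ≤ Real.arccos (Real.cos X) :=
        Real.antitone_arccos hcos
    _ = X := Real.arccos_cos hX0 (by linarith [Real.pi_gt_three])

end Med
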