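import Pool.Agent.Helper946.M1

set_option autoImplicit false

namespace Med

variable {S : Finset E}

lemma uniq_identity (ℓ B C B' C' : E) :
    inner ℝ ℓ C' * dt B C B' - inner ℝ ℓ B' * dt B C C' + inner ℝ ℓ C * dt B' C' B
      - inner ℝ ℓ B * dt B' C' C = 0 := by
  simp only [dt, inr]; ring

lemma Fct.sub_le {a b c x : E} (h : Fct S a b c) (hx : x ∈ S) :
    dt (b - a) (c - a) (x - a) ≤ 0 := by
  have := h.le hx
  rw [← inr_crs, ← nrm_eq, inner_sub_right, nrm_a]; linarith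

lemma Fct.sub_lt {a b c x : E} (h : Fct S a b c) (hx : x ∈ S) (h1 : x ≠ a) (h2 : x ≠ b)
    (h3 : x ≠ c) : dt (b - a) (c - a) (x - a) < 0 := by
  have := h.2.2.2.2 x hx h1 h2 h3
  rw [← inr_crs, ← nrm_eq, inner_sub_right, nrm_a]; linarith

lemma type_unique {a b c b' c' ℓ : E} (h : Fct S a b c) (h' : Fct S a b' c')
    (h1 : inner ℝ ℓ b ≤ inner ℝ ℓ a) (h2 : inner ℝ ℓ a < inner ℝ ℓ c)
    (h3 : inner ℝ ℓ b' ≤ inner ℝ ℓ a) (h4 : inner ℝ ℓ a < inner ℝ ℓ c') : b = b' ∧ c = c' := by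
  have key := uniq_identity ℓ (b - a) (c - a) (b' - a) (c' - a)
  have e1 := h.sub_le h'.2.1
  have e2 := h.sub_le h'.2.2.1
  have e3 := h'.sub_le h.2.1
  have e4 := h'.sub_le h.2.2.1
  rw [inner_sub_right, inner_sub_right, inner_sub_right, inner_sub_right] at key
  have t1 : (inner ℝ ℓ c' - inner ℝ ℓ a) * dt (b - a) (c - a) (b' - a) ≤ 0 :=
    mul_nonpos_of_nonneg_of_nonpos (by linarith) e1
  have t2 : (inner ℝ ℓ a - inner ℝ ℓ b') * dt (b - a) (c - a) (c' - a) ≤ 0 :=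
    mul_nonpos_of_nonneg_of_nonpos (by linarith) e2
  have t3 : (inner ℝ ℓ c - inner ℝ ℓ a) * dt (b' - a) (c' - a) (b - a) ≤ 0 :=
    mul_nonpos_of_nonneg_of_nonpos (by linarith) e3
  have t4 : (inner ℝ ℓ a - inner ℝ ℓ b) * dt (b' - a) (c' - a) (c - a) ≤ 0 :=
    mul_nonpos_of_nonneg_of_nonpos (by linarith) e4
  have t5 : (inner ℝ ℓ c' - inner ℝ ℓ a) * dt (b - a) (c - a) (b' - a) = 0 := by linarith
  have t6 : dt (b - a) (c - a) (b' - a) = 0 :=
    (mul_eq_zero.1 t5).resolve_left (by linarith)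
  have hb : b' = b := by
    by_contra hne
    have n1 := ne_of_dt h'.2.2.2.1
    have n2 : b' ≠ c := by rintro rfl; linarith
    have := h.sub_lt h'.2.1 n1.1.symm hne n2
    linarith
  subst hb
  exact ⟨rfl, left_unique h h'⟩

/-- covering lemma (dual simplex) -/
lemma cover {G : E → E → E → Prop} (hG : ∀ a b c, G a b c → Fct S a b c)
    (hrot : ∀ a b c, G a b c → G b c a) (hadj : ∀ a b c, G a b c → ∃ z, G b a z)
    (hne : ∃ a b c, G a b c) (x : E) :
    ∃ a b c, G a b c ∧ 0 ≤ dt b c x ∧ 0 ≤ dt c a x ∧ 0 ≤ dt a b x := by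
  classical
  obtain ⟨a0, b0, c0, h0⟩ := hne
  obtain ⟨p, hp, hmax⟩ := Finset.exists_max_image
    ((S ×ˢ (S ×ˢ S)).filter (fun p : E × (E × E) => G p.1 p.2.1 p.2.2))
    (fun p => inner ℝ (nrm p.1 p.2.1 p.2.2) x / dt p.1 p.2.1 p.2.2)
    ⟨(a0, b0, c0), by
      have := hG _ _ _ h0
      simp only [Finset.mem_filter, Finset.mem_product]
      exact ⟨⟨this.1, this.2.1, this.2.2.1⟩, h0⟩⟩
  obtain ⟨a, b, c⟩ := p
  simp only [Finset.mem_filter, Finset.mem_product] at hp
  -- key: if G a' b' c' is a maximiser then dt a' b' x ≥ 0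
  have key : ∀ a b c, G a b c → (∀ a' b' c', G a' b' c' →
      inner ℝ (nrm a' b' c') x / dt a' b' c' ≤ inner ℝ (nrm a b c) x / dt a b c) →
      0 ≤ dt a b x := by
    intro a b c h hm
    by_contra hneg
    push Not at hneg
    obtain ⟨z, hz⟩ := hadj a b c h
    have hF := hG _ _ _ h
    have hF' := hG _ _ _ hz
    have hD := hF.2.2.2.1
    have hD' := hF'.2.2.2.1
    have hcz : c ≠ z := by
      rintro rfl
      rw [dt_swap] at hD'
      linarith
    have n1 := ne_of_dt hD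
    have h5 := hF'.2.2.2.2 c hF.2.2.1 n1.2.1.symm n1.2.2.symm hcz
    set t := ((dt b a z)⁻¹ * inner ℝ (nrm b a z) c - 1) / dt a b c with ht
    have ht0 : t < 0 := by
      apply div_neg_of_neg_of_pos _ hD
      have : (dt b a z)⁻¹ * inner ℝ (nrm b a z) c < 1 := by
        rw [inv_mul_lt_iff₀ hD']; linarith
      linarith
    have e : (dt b a z)⁻¹ • nrm b a z = (dt a b c)⁻¹ • nrm a b c + t • crs a b := by
      apply ext_of_inr hD.ne'
      · rw [inner_add_left, real_inner_smul_left, real_inner_smul_left, real_inner_smul_left,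
          nrm_b, nrm_a, inr_crs, inv_mul_cancel₀ hD'.ne', inv_mul_cancel₀ hD.ne']
        have : dt a b a = 0 := by simp [dt]; ring
        rw [this]; ring
      · rw [inner_add_left, real_inner_smul_left, real_inner_smul_left, real_inner_smul_left,
          nrm_a, nrm_b, inr_crs, inv_mul_cancel₀ hD'.ne', inv_mul_cancel₀ hD.ne']
        have : dt a b b = 0 := by simp [dt]; ring
        rw [this]; ring
      · rw [inner_add_left, real_inner_smul_left, real_inner_smul_left, real_inner_smul_left,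
          nrm_c, inr_crs, inv_mul_cancel₀ hD.ne', ht]
        field_simp; ring
    have e2 := congrArg (fun y => inner ℝ y x) e
    simp only [inner_add_left, real_inner_smul_left, inr_crs] at e2
    have h6 := hm b a z hz
    rw [div_eq_inv_mul, div_eq_inv_mul] at h6
    nlinarith
  have hmax' : ∀ a' b' c', G a' b' c' →
      inner ℝ (nrm a' b' c') x / dt a' b' c' ≤ inner ℝ (nrm a b c) x / dt a b c := by
    intro a' b' c' h'
    have hF := hG _ _ _ h'
    exact hmax (a', b', c') (by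
      simp only [Finset.mem_filter, Finset.mem_product]
      exact ⟨⟨hF.1, hF.2.1, hF.2.2.1⟩, h'⟩)
  refine ⟨a, b, c, hp.2, ?_, ?_, ?_⟩
  · refine key b c a (hrot _ _ _ hp.2) fun a' b' c' h' => ?_
    rw [nrm_rot a b c, dt_rot a b c]; exact hmax' a' b' c' h'
  · refine key c a b (hrot _ _ _ (hrot _ _ _ hp.2)) fun a' b' c' h' => ?_
    rw [← nrm_rot c a b, ← dt_rot c a b]; exact hmax' a' b' c' h'
  · exact key a b c hp.2 hmax'

lemma Cfg.exists_fct (hS : Cfg S) : ∃ a b c, Fct S a b c := by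
  obtain ⟨v, hv, -⟩ := hS.pos (!₂[1, 0, 0] : E) (by
    intro h0
    have := congrFun (congrArg (fun z : E => (z : Fin 3 → ℝ)) h0) 0
    simp at this)
  obtain ⟨m, hm, hmv⟩ := exists_perp v
  obtain ⟨x, hx, hmx⟩ := hS.pos m hm
  obtain ⟨w, hw, -⟩ := improving hS hv hx (ℓ := m) (by rw [hmv]; exact hmx)
  obtain ⟨c, hc⟩ := edge_left hS hw
  exact ⟨v, w, c, hc⟩

lemma Cfg.cover (hS : Cfg S) (x : E) :
    ∃ a b c, Fct S a b c ∧ 0 ≤ dt b c x ∧ 0 ≤ dt c a x ∧ 0 ≤ dt a b x :=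
  Med.cover (fun _ _ _ h => h) (fun _ _ _ h => h.rot)
    (fun _ _ _ h => edge_left hS h.edg.symm) hS.exists_fct x

/-! darts -/

def Dart (S : Finset E) := {p : E × E // Edg S p.1 p.2}

instance (S : Finset E) : Finite (Dart S) := by
  classical
  have : Set.Finite {p : E × E | Edg S p.1 p.2} :=
    Set.Finite.subset (S ×ˢ S).finite_toSet (by
      intro p hp
      simp only [Finset.coe_product, Set.mem_prod, Finset.mem_coe]
      exact ⟨hp.1, hp.2.1⟩)
  exact this

noncomputable instance (S : Finset E) : Fintype (Dart S) := Fintype.ofFinite _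
noncomputable instance (S : Finset E) : DecidableEq (Dart S) := Classical.decEq _

def Dart.tl (d : Dart S) : E := d.1.1
def Dart.hd (d : Dart S) : E := d.1.2

lemma Dart.edg (d : Dart S) : Edg S d.tl d.hd := d.2

lemma Dart.ext {d e : Dart S} (h1 : d.tl = e.tl) (h2 : d.hd = e.hd) : d = e :=
  Subtype.ext (Prod.ext h1 h2)

lemma Dart.tl_mem (d : Dart S) : d.tl ∈ S := d.edg.1
lemma Dart.hd_mem (d : Dart S) : d.hd ∈ S := d.edg.2.1
lemma Dart.ne (d : Dart S) : d.tl ≠ d.hd := d.edg.2.2.1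

def rhf (d : Dart S) : Dart S := ⟨(d.1.2, d.1.1), d.2.symm⟩

def rh (S : Finset E) : Equiv.Perm (Dart S) := ⟨rhf, rhf, fun _ => rfl, fun _ => rfl⟩

@[simp] lemma rh_rh (d : Dart S) : rh S (rh S d) = d := rfl
@[simp] lemma rh_tl (d : Dart S) : (rh S d).tl = d.hd := rfl
@[simp] lemma rh_hd (d : Dart S) : (rh S d).hd = d.tl := rfl

noncomputable def lf (hS : Cfg S) (d : Dart S) : E := Classical.choose (edge_left hS d.2)

lemma lf_spec (hS : Cfg S) (d : Dart S) : Fct S d.tl d.hd (lf hS d) :=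
  Classical.choose_spec (edge_left hS d.2)

noncomputable def sgf (hS : Cfg S) (d : Dart S) : Dart S :=
  ⟨(d.tl, lf hS d), (lf_spec hS d).rot.rot.edg.symm⟩

lemma sgf_inj (hS : Cfg S) : Function.Injective (sgf hS) := by
  intro d e h
  have h1' : (sgf hS d).tl = (sgf hS e).tl := by rw [h]
  have h2' : (sgf hS d).hd = (sgf hS e).hd := by rw [h]
  have h1 : d.tl = e.tl := h1'
  have h2 : lf hS d = lf hS e := h2'
  have hd := (lf_spec hS d).rot.rot
  have he := (lf_spec hS e).rot.rot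
  rw [h1, h2] at hd
  exact Dart.ext h1 (left_unique hd he)

noncomputable def sg (hS : Cfg S) : Equiv.Perm (Dart S) :=
  Equiv.ofBijective (sgf hS) (Finite.injective_iff_bijective.1 (sgf_inj hS))

@[simp] lemma sg_tl (hS : Cfg S) (d : Dart S) : (sg hS d).tl = d.tl := rfl

lemma sg_fct (hS : Cfg S) (d : Dart S) : Fct S d.tl d.hd (sg hS d).hd := lf_spec hS d

lemma sg_hd_eq (hS : Cfg S) (d : Dart S) {c : E} (h : Fct S d.tl d.hd c) : (sg hS d).hd = c :=
  left_unique (sg_fct hS d) h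

lemma rel3 (hS : Cfg S) (d : Dart S) :
    rh S (sg hS (rh S (sg hS (rh S (sg hS d))))) = d := by
  have h0 := sg_fct hS d
  -- rh (sg d) = (c, a)
  have h1 : (sg hS (rh S (sg hS d))).hd = d.hd := by
    apply sg_hd_eq; simp; exact h0.rot.rot
  have h2 : (sg hS (rh S (sg hS (rh S (sg hS d))))).hd = d.tl := by
    apply sg_hd_eq
    simp only [rh_tl, rh_hd, sg_tl, h1]
    exact h0.rot
  apply Dart.ext
  · simp [h2]
  · simp [h1]

@[simp] lemma sg_pow_tl (hS : Cfg S) (d : Dart S) (k : ℕ) : ((sg hS ^ k) d).tl = d.tl := by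
  induction k with
  | zero => rfl
  | succ k ih => rw [pow_succ', Equiv.Perm.mul_apply, sg_tl, ih]

lemma exists_pow_inv (hS : Cfg S) (d : Dart S) : ∃ k : ℕ, (sg hS ^ k) (sg hS d) = d := by
  have h := isOfFinOrder_of_finite (sg hS)
  refine ⟨orderOf (sg hS) - 1, ?_⟩
  rw [← Equiv.Perm.mul_apply, ← pow_succ, Nat.sub_add_cancel h.orderOf_pos, pow_orderOf_eq_one]
  rfl

lemma step_exists {X : Type*} (f : X → X) (P : X → Prop) (x : X) (k : ℕ) (h0 : ¬ P x)
    (hk : P (f^[k] x)) : ∃ j, ¬ P (f^[j] x) ∧ P (f^[j + 1] x) := by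
  classical
  have hex : ∃ k, P (f^[k] x) := ⟨k, hk⟩
  have hm := Nat.find_spec hex
  have hpos : Nat.find hex ≠ 0 := by
    intro h; rw [h] at hm; exact h0 hm
  obtain ⟨j, hj⟩ := Nat.exists_eq_succ_of_ne_zero hpos
  refine ⟨j, Nat.find_min hex (by rw [hj]; exact Nat.lt_succ_self j), ?_⟩
  rw [hj] at hm; exact hm

lemma pow_eq_iterate (hS : Cfg S) (k : ℕ) (d : Dart S) : (sg hS ^ k) d = (sg hS)^[k] d := by
  rw [Equiv.Perm.iterate_eq_pow]

/-- single orbit at every vertex -/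
lemma single_orbit (hS : Cfg S) (d d' : Dart S) (h : d.tl = d'.tl) :
    ∃ k : ℕ, (sg hS ^ k) d = d' := by
  by_contra hno
  push Not at hno
  have hno' : ∀ k : ℕ, (sg hS ^ k) d' ≠ d := by
    intro k hk
    -- then d' in orbit of d
    have h := isOfFinOrder_of_finite (sg hS)
    have : (sg hS ^ (orderOf (sg hS) * k - k)) d = d' := by
      rw [← hk, ← Equiv.Perm.mul_apply, ← pow_add, Nat.sub_add_cancel
        (Nat.le_mul_of_pos_left k h.orderOf_pos), pow_mul, pow_orderOf_eq_one, one_pow]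
      rfl
    exact hno _ this
  set a := d.tl with ha
  set w1 := d.hd with hw1
  set w2 := (sg hS d).hd with hw2
  set x1 := d'.hd with hx1
  set x2 := (sg hS d').hd with hx2
  have hF : Fct S a w1 w2 := sg_fct hS d
  have hF' : Fct S a x1 x2 := by have := sg_fct hS d'; rw [← h] at this; exact this
  have n1 : x1 ≠ w1 := by
    intro e; exact hno 0 (Dart.ext h e.symm)
  have n2 : x1 ≠ w2 := by
    intro e; exact hno 1 (Dart.ext (by simpa using h) (by simpa using e.symm))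
  have n3 : x2 ≠ w1 := by
    intro e; exact hno' 1 (Dart.ext (by simpa using h.symm) (by simpa using e))
  have n4 : x2 ≠ w2 := by
    intro e
    have : sg hS d' = sg hS d := Dart.ext (by simpa using h.symm) (by simpa using e)
    exact hno 0 ((sg hS).injective this).symm
  have nF := ne_of_dt hF.2.2.2.1
  have nF' := ne_of_dt hF'.2.2.2.1
  have s1 := hF.sub_lt hF'.2.1 nF'.1.symm n1 n2
  have s2 := hF.sub_lt hF'.2.2.1 nF'.2.2.symm n3 n4
  have s3 := hF'.sub_lt hF.2.1 nF.1.symm n1.symm n3.symm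
  have s4 := hF'.sub_lt hF.2.2.1 nF.2.2.symm n2.symm n4.symm
  set ℓ := crs ((w1 - a) + (w2 - a)) ((x1 - a) + (x2 - a)) with hℓ
  have i1 : inner ℝ ℓ w1 - inner ℝ ℓ a
      = dt (w1 - a) (w2 - a) (x1 - a) + dt (w1 - a) (w2 - a) (x2 - a) := by
    rw [hℓ, inr_crs, inr_crs]; simp [dt]; ring
  have i2 : inner ℝ ℓ w2 - inner ℝ ℓ a
      = - (dt (w1 - a) (w2 - a) (x1 - a) + dt (w1 - a) (w2 - a) (x2 - a)) := by
    rw [hℓ, inr_crs, inr_crs]; simp [dt]; ring
  have i3 : inner ℝ ℓ x1 - inner ℝ ℓ a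
      = - (dt (x1 - a) (x2 - a) (w1 - a) + dt (x1 - a) (x2 - a) (w2 - a)) := by
    rw [hℓ, inr_crs, inr_crs]; simp [dt]; ring
  have i4 : inner ℝ ℓ x2 - inner ℝ ℓ a
      = (dt (x1 - a) (x2 - a) (w1 - a) + dt (x1 - a) (x2 - a) (w2 - a)) := by
    rw [hℓ, inr_crs, inr_crs]; simp [dt]; ring
  -- walk from sg d' to d'
  obtain ⟨k, hk⟩ := exists_pow_inv hS d'
  rw [pow_eq_iterate] at hk
  obtain ⟨j, hj1, hj2⟩ := step_exists (sg hS) (fun e => inner ℝ ℓ a < inner ℝ ℓ e.hd) (sg hS d') k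
    (by simp only [not_lt]; rw [← hx2]; linarith) (by rw [hk, ← hx1]; linarith)
  rw [← pow_eq_iterate] at hj1 hj2
  set e := (sg hS ^ j) (sg hS d') with he
  have he' : (sg hS ^ (j + 1)) (sg hS d') = sg hS e := by
    rw [pow_succ', Equiv.Perm.mul_apply]
  rw [he'] at hj2
  push Not at hj1
  have hFe := sg_fct hS e
  have hte : e.tl = a := by rw [he, sg_pow_tl, sg_tl, ← h]
  rw [hte] at hFe
  obtain ⟨q1, q2⟩ := type_unique hF hFe (ℓ := ℓ) (by linarith) (by linarith) hj1 hj2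
  have : e = d := Dart.ext hte q1.symm
  apply hno' (j + 1)
  rw [pow_succ, Equiv.Perm.mul_apply, ← he, this]

end Med
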