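import Pool.Agent.Helper946.M19

set_option autoImplicit false

namespace Med

variable {S : Finset E}

lemma ediv_real (x : ℤ) {m : ℕ} (hm : 0 < m) :
    ∃ r : ℝ, 0 ≤ r ∧ r < 1 ∧ ((x / (m:ℤ) : ℤ) : ℝ) = (x:ℝ) / m - r := by
  have hm' : (m:ℤ) ≠ 0 := by exact_mod_cast hm.ne'
  have hmr : (0:ℝ) < m := by exact_mod_cast hm
  have h1 := Int.mul_ediv_add_emod x m
  have h2 := Int.emod_nonneg x hm'
  have h3 := Int.emod_lt_of_pos x (by exact_mod_cast hm : (0:ℤ) < m)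
  refine ⟨((x % (m:ℤ) : ℤ) : ℝ) / m, by positivity, ?_, ?_⟩
  · rw [div_lt_one hmr]; exact_mod_cast h3
  · have h4 : ((m:ℝ)) * ((x / (m:ℤ) : ℤ) : ℝ) + ((x % (m:ℤ) : ℤ) : ℝ) = x := by exact_mod_cast h1
    rw [← sub_div, eq_div_iff hmr.ne']
    linarith

lemma ediv_bd (a : ℤ) {m i : ℕ} (hm : 0 < m) (hi : i ≤ m) :
    ((i * a) / (m:ℤ)).natAbs ≤ a.natAbs := by
  have hm' : (0:ℤ) < m := by exact_mod_cast hm
  have hi' : (i:ℤ) ≤ m := by exact_mod_cast hi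
  have hi0 : (0:ℤ) ≤ i := by positivity
  rcases le_total 0 a with h | h
  · have h1 : 0 ≤ (i * a) / (m:ℤ) := Int.ediv_nonneg (by positivity) hm'.le
    have h2 : (i * a) / (m:ℤ) ≤ a := by
      apply Int.ediv_le_of_le_mul hm'
      nlinarith
    omega
  · have h1 : a ≤ (i * a) / (m:ℤ) := by
      apply (Int.le_ediv_iff_mul_le hm').2
      nlinarith
    have h2 : (i * a) / (m:ℤ) ≤ 0 := by
      apply Int.ediv_le_of_le_mul hm'
      nlinarith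
    omega

lemma Lm_one_bd {x y : ℝ} (hx : |x| ≤ 1) (hy : |y| ≤ 1) : ‖Lm x y‖ ≤ 2 := by
  have h := Lm_sq x y
  rw [abs_le] at hx hy
  have : ‖Lm x y‖ ^ 2 ≤ 2 ^ 2 := by
    rw [h]; nlinarith [hx.1, hx.2, hy.1, hy.2]
  exact (pow_le_pow_iff_left₀ (norm_nonneg _) (by norm_num) (by norm_num)).1 this

lemma Lm_coord {x y r : ℝ} (_hr : 0 ≤ r) (h : ‖Lm x y‖ ≤ r) : |x| ≤ 2 * r ∧ |y| ≤ 2 * r := by
  have h1 := Lm_sq x y
  have h2 : ‖Lm x y‖ ^ 2 ≤ r ^ 2 := pow_le_pow_left₀ (norm_nonneg _) h 2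
  constructor
  · apply abs_le_of_sq_le_sq _ (by positivity)
    nlinarith [sq_nonneg (x / 2 + y)]
  · apply abs_le_of_sq_le_sq _ (by positivity)
    nlinarith [sq_nonneg (x + y / 2)]

lemma step_w {a b : ℤ} {m K : ℕ} (hm : 0 < m) {R : ℝ} (hR : ‖Lm a b‖ ≤ R) (hRm : R ≤ K * m)
    (i : ℕ) :
    ‖Lm (((i + 1 : ℕ) * a / (m:ℤ) - i * a / (m:ℤ) : ℤ) : ℝ)
      (((i + 1 : ℕ) * b / (m:ℤ) - i * b / (m:ℤ) : ℤ) : ℝ)‖ ≤ R / m + 2 ∧
    ((i + 1 : ℕ) * a / (m:ℤ) - i * a / (m:ℤ)).natAbs ≤ 2 * K + 4 ∧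
    ((i + 1 : ℕ) * b / (m:ℤ) - i * b / (m:ℤ)).natAbs ≤ 2 * K + 4 := by
  have hmr : (0:ℝ) < m := by exact_mod_cast hm
  obtain ⟨r1, h1, h2, h3⟩ := ediv_real ((i + 1 : ℕ) * a) hm
  obtain ⟨r2, h4, h5, h6⟩ := ediv_real (i * a) hm
  obtain ⟨r3, h7, h8, h9⟩ := ediv_real ((i + 1 : ℕ) * b) hm
  obtain ⟨r4, h10, h11, h12⟩ := ediv_real (i * b) hm
  set w1 := (i + 1 : ℕ) * a / (m:ℤ) - i * a / (m:ℤ) with hw1
  set w2 := (i + 1 : ℕ) * b / (m:ℤ) - i * b / (m:ℤ) with hw2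
  have e1 : (w1:ℝ) = a / m + (r2 - r1) := by
    rw [hw1, Int.cast_sub, h3, h6]; push_cast; field_simp; ring
  have e2 : (w2:ℝ) = b / m + (r4 - r3) := by
    rw [hw2, Int.cast_sub, h9, h12]; push_cast; field_simp; ring
  have e3 : Lm ((a:ℝ) / m) ((b:ℝ) / m) = ((1 / m : ℝ) : ℂ) * Lm a b := by
    rw [← Lm_smul]; congr 1 <;> ring
  have hL : ‖Lm w1 w2‖ ≤ R / m + 2 := by
    rw [e1, e2, Lm_add]
    refine (norm_add_le _ _).trans ?_
    have g1 : ‖Lm ((a:ℝ) / m) ((b:ℝ) / m)‖ ≤ R / m := by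
      rw [e3, norm_mul, Complex.norm_real, Real.norm_eq_abs, abs_of_pos (by positivity),
        one_div, inv_mul_le_iff₀ hmr, mul_div_cancel₀ _ hmr.ne']
      exact hR
    have g2 : ‖Lm (r2 - r1) (r4 - r3)‖ ≤ 2 := by
      apply Lm_one_bd
      · rw [abs_le]; constructor <;> linarith
      · rw [abs_le]; constructor <;> linarith
    linarith
  have hRm' : R / m ≤ K := by rw [div_le_iff₀ hmr]; exact hRm
  have hR0 : 0 ≤ R / m := div_nonneg ((norm_nonneg _).trans hR) hmr.le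
  obtain ⟨c1, c2⟩ := Lm_coord (r := (K:ℝ) + 2) (by positivity) (hL.trans (by linarith))
  refine ⟨hL, ?_, ?_⟩
  · have : |w1| ≤ 2 * K + 4 := by
      have : ((|w1| : ℤ) : ℝ) ≤ ((2 * K + 4 : ℤ) : ℝ) := by push_cast; linarith
      exact_mod_cast this
    rw [Int.abs_eq_natAbs] at this
    omega
  · have : |w2| ≤ 2 * K + 4 := by
      have : ((|w2| : ℤ) : ℝ) ≤ ((2 * K + 4 : ℤ) : ℝ) := by push_cast; linarith
      exact_mod_cast this
    rw [Int.abs_eq_natAbs] at this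
    omega

/-- corner dart of step `i` on the way to `(a,b)` -/
noncomputable def cor (hS : Cfg S) (K m : ℕ) (a b : ℤ) (i : ℕ) (d : Dart S) : Dart S :=
  FD hS (i * a / (m:ℤ) - (2 * K + 4 : ℕ)) (i * b / (m:ℤ) - (2 * K + 4 : ℕ)) d

section path

variable {c0 : E} {l : ℝ}

lemma step_dist (hS : Cfg S) (z : Zone S c0 l) {n : ℕ} (hn : 0 < n) (hH : hh n ≤ 1 / 4)
    {η : ℝ} (hη0 : 0 ≤ η) (hη : η ≤ 1 / 4) {K m Rn : ℕ} (hm : 0 < m) {R : ℝ} (hRm : R ≤ K * m)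
    {a b : ℤ} (hab : ‖Lm a b‖ ≤ R) (ha : a.natAbs ≤ Rn) (hb : b.natAbs ≤ Rn) {d : Dart S}
    (hd : RegD c0 l (4 * Rn + 60 * K + 200) d) {i : ℕ} (hi : i < m) :
    ‖(FD hS (i * a / (m:ℤ)) (i * b / (m:ℤ)) d).tl
      - (FD hS ((i + 1 : ℕ) * a / (m:ℤ)) ((i + 1 : ℕ) * b / (m:ℤ)) d).tl‖
        ≤ 2 * (2 * K + 4 : ℕ) * l ∧
    (GB hS n (4 * K + 9) η (cor hS K m a b i d) →
      ‖(FD hS (i * a / (m:ℤ)) (i * b / (m:ℤ)) d).tl
        - (FD hS ((i + 1 : ℕ) * a / (m:ℤ)) ((i + 1 : ℕ) * b / (m:ℤ)) d).tl‖ ≤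
        ((1 + 3 * η) * (R / m + 2) + 16 * ((4 * K + 9 : ℕ):ℝ) ^ 2 * Real.sqrt (40 * (η + hh n)))
          * Real.sqrt (hh n)) := by
  have hreg := zone_reg hS z
  obtain ⟨s1, s2, s3⟩ := step_w hm hab hRm i
  set w1 := (i + 1 : ℕ) * a / (m:ℤ) - i * a / (m:ℤ) with hw1
  set w2 := (i + 1 : ℕ) * b / (m:ℤ) - i * b / (m:ℤ) with hw2
  have b1 := ediv_bd a hm hi.le
  have b2 := ediv_bd b hm hi.le
  set μ1 := (i * a) / (m:ℤ) with hμ1
  set μ2 := (i * b) / (m:ℤ) with hμ2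
  have e1 : ((i + 1 : ℕ):ℤ) * a / (m:ℤ) = w1 + μ1 := by rw [hw1]; ring
  have e2 : ((i + 1 : ℕ):ℤ) * b / (m:ℤ) = w2 + μ2 := by rw [hw2]; ring
  constructor
  · rw [e1, e2]
    have h1 : FD hS (w1 + μ1) (w2 + μ2) d = FD hS w1 w2 (FD hS μ1 μ2 d) := by
      unfold FD
      rw [hreg.FF_add]
      exact hreg.mono (by omega) hd
    rw [h1, norm_sub_rev]
    refine (FD_move hS z.l0 z.edge w1 w2 (FD hS μ1 μ2 d)).trans ?_
    apply mul_le_mul_of_nonneg_right _ z.l0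
    have : (w1.natAbs : ℝ) ≤ (2 * K + 4 : ℕ) := by exact_mod_cast s2
    have : (w2.natAbs : ℝ) ≤ (2 * K + 4 : ℕ) := by exact_mod_cast s3
    linarith
  · intro hGB
    set κ : ℕ := 2 * K + 4 with hκ
    set y := cor hS K m a b i d with hy
    have hyr : RegD c0 l (2 * (4 * K + 9) + 20) y := by
      apply hreg.FF_reg
      exact hreg.mono (by omega) hd
    have hf0 : FD hS μ1 μ2 d = FD hS (κ:ℤ) (κ:ℤ) y := by
      rw [hy, cor]; unfold FD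
      rw [hreg.FF_add]
      · congr 1 <;> ring
      · exact hreg.mono (by omega) hd
    obtain ⟨p1, hp1⟩ : ∃ p : ℕ, (p : ℤ) = κ + w1 := ⟨(κ + w1).toNat, by omega⟩
    obtain ⟨p2, hp2⟩ : ∃ p : ℕ, (p : ℤ) = κ + w2 := ⟨(κ + w2).toNat, by omega⟩
    have hf1 : FD hS (((i + 1 : ℕ):ℤ) * a / (m:ℤ)) (((i + 1 : ℕ):ℤ) * b / (m:ℤ)) d
        = FD hS (p1:ℤ) (p2:ℤ) y := by
      rw [e1, e2, hy, cor]; unfold FD
      rw [hreg.FF_add]
      · congr 1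
        · rw [hp1]; ring
        · rw [hp2]; ring
      · exact hreg.mono (by omega) hd
    rw [hf0, hf1]
    have key := box_dist hS z hn hH hη0 hη hyr hGB (a := κ) (b := κ) (a' := p1) (b' := p2)
      (by omega) (by omega) (by omega) (by omega)
    refine key.trans ?_
    apply mul_le_mul_of_nonneg_right _ (Real.sqrt_nonneg _)
    have e3 : Lm ((κ:ℝ) - p1) ((κ:ℝ) - p2) = - Lm w1 w2 := by
      have q1 : (κ:ℝ) - p1 = 0 - w1 := by
        have : (p1:ℝ) = κ + w1 := by exact_mod_cast hp1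
        rw [this]; ring
      have q2 : (κ:ℝ) - p2 = 0 - w2 := by
        have : (p2:ℝ) = κ + w2 := by exact_mod_cast hp2
        rw [this]; ring
      rw [q1, q2, Lm_sub]
      have : Lm 0 0 = 0 := by apply Complex.ext <;> simp [Lm]
      rw [this, zero_sub]
    rw [e3, norm_neg]
    have := mul_le_mul_of_nonneg_left s1 (by linarith : (0:ℝ) ≤ 1 + 3 * η)
    linarith

open InnerProductGeometry in
lemma path_angle (hS : Cfg S) (z : Zone S c0 l) {n : ℕ} (hn : 0 < n) (hH : hh n ≤ 1 / 4)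
    {η : ℝ} (hη0 : 0 ≤ η) (hη : η ≤ 1 / 4) {K m Rn : ℕ} (hm : 0 < m) {R : ℝ} (hRm : R ≤ K * m)
    {a b : ℤ} (hab : ‖Lm a b‖ ≤ R) (ha : a.natAbs ≤ Rn) (hb : b.natAbs ≤ Rn) {d : Dart S}
    (hd : RegD c0 l (4 * Rn + 60 * K + 200) d) (hT : 2 * (2 * K + 4 : ℕ) * l ≤ 1 / 2)
    (B : Finset ℕ) (hB : ∀ i < m, i ∉ B → GB hS n (4 * K + 9) η (cor hS K m a b i d))
    (hBm : B ⊆ Finset.range m) :
    angle d.tl (FD hS a b d).tl ≤ (1 + (2 * (2 * K + 4 : ℕ) * l) ^ 2) *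
      (m * (((1 + 3 * η) * (R / m + 2) + 16 * ((4 * K + 9 : ℕ):ℝ) ^ 2 *
        Real.sqrt (40 * (η + hh n))) * Real.sqrt (hh n)) + B.card * (2 * (2 * K + 4 : ℕ) * l)) := by
  classical
  set T := 2 * ((2 * K + 4 : ℕ):ℝ) * l with hTdef
  set G := ((1 + 3 * η) * (R / m + 2) + 16 * ((4 * K + 9 : ℕ):ℝ) ^ 2 *
        Real.sqrt (40 * (η + hh n))) * Real.sqrt (hh n) with hG
  have hT0 : 0 ≤ T := by have := z.l0; positivity
  have hR0 : 0 ≤ R := (norm_nonneg _).trans hab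
  have hG0 : 0 ≤ G := by positivity
  set g : ℕ → E := fun i => (FD hS (i * a / (m:ℤ)) (i * b / (m:ℤ)) d).tl with hg
  have hgu : ∀ i, ‖g i‖ = 1 := fun i => hS.unit _ (FD hS _ _ d).tl_mem
  have hstep : ∀ i < m, angle (g i) (g (i + 1)) ≤ (1 + T ^ 2) * (G + if i ∈ B then T else 0) := by
    intro i hi
    obtain ⟨q1, q2⟩ := step_dist hS z hn hH hη0 hη hm hRm hab ha hb hd hi
    have hq1 : ‖g i - g (i + 1)‖ ≤ T := q1
    have h1 := angle_le_chord (hgu i) (hgu (i + 1)) (hq1.trans hT)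
    have h2 : ‖g i - g (i + 1)‖ ≤ G + if i ∈ B then T else 0 := by
      by_cases hiB : i ∈ B
      · rw [if_pos hiB]; linarith
      · rw [if_neg hiB, add_zero]; exact q2 (hB i hi hiB)
    have h3 : 1 + ‖g i - g (i + 1)‖ ^ 2 ≤ 1 + T ^ 2 := by
      have := pow_le_pow_left₀ (norm_nonneg _) hq1 2
      linarith
    calc angle (g i) (g (i + 1)) ≤ ‖g i - g (i + 1)‖ * (1 + ‖g i - g (i + 1)‖ ^ 2) := h1
      _ ≤ (G + if i ∈ B then T else 0) * (1 + T ^ 2) :=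
          mul_le_mul h2 h3 (by positivity) ((norm_nonneg _).trans h2)
      _ = _ := mul_comm _ _
  have hsum : ∀ k ≤ m, angle (g 0) (g k) ≤ ∑ i ∈ Finset.range k,
      (1 + T ^ 2) * (G + if i ∈ B then T else 0) := by
    intro k
    induction k with
    | zero =>
      intro _
      rw [Finset.sum_range_zero, angle_self]
      intro h0
      have := hgu 0
      rw [h0, norm_zero] at this
      norm_num at this
    | succ k ih =>
      intro hk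
      rw [Finset.sum_range_succ]
      exact (angle_le_angle_add_angle _ (g k) _).trans (add_le_add (ih (by omega)) (hstep k hk))
  have h := hsum m le_rfl
  have hg0 : g 0 = d.tl := by
    simp only [hg]; simp [FD, RegS.FF]
  have hgm : g m = (FD hS a b d).tl := by
    have hm' : (m:ℤ) ≠ 0 := by exact_mod_cast hm.ne'
    simp only [hg]; rw [Int.mul_ediv_cancel_left _ hm', Int.mul_ediv_cancel_left _ hm']
  rw [hg0, hgm] at h
  refine h.trans (le_of_eq ?_)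
  rw [← Finset.mul_sum, Finset.sum_add_distrib, Finset.sum_const, Finset.card_range, nsmul_eq_mul]
  congr 2
  rw [Finset.sum_ite, Finset.sum_const, Finset.sum_const_zero, add_zero, nsmul_eq_mul]
  congr 2
  have : (Finset.range m).filter (fun i => i ∈ B) = B := by
    ext i; simp only [Finset.mem_filter]
    exact ⟨fun h => h.2, fun h => ⟨hBm h, h⟩⟩
  rw [this]

end path

end Med
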