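import Pool.Agent.Helper946.M4

set_option autoImplicit false

namespace Med

open MeasureTheory

lemma cone_slices {W : Set (ℝ × ℝ × ℝ)} (hW : MeasurableSet W) (P : ℝ → Set (ℝ × ℝ))
    (h : ∀ s > 0, {q : ℝ × ℝ | (s, q) ∈ W} = {q : ℝ × ℝ | (q.1 / s, q.2 / s) ∈ P s})
    (h0 : ∀ s < 0, {q : ℝ × ℝ | (s, q) ∈ W} = ∅) :
    volume W = ∫⁻ s in Set.Ioi (0:ℝ), ENNReal.ofReal (s ^ 2) * volume (P s) := by
  rw [slices hW, ← lintegral_indicator measurableSet_Ioi]
  have hae : ∀ᵐ x : ℝ, x ≠ 0 := by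
    rw [ae_iff]; simp
  apply lintegral_congr_ae
  filter_upwards [hae] with s hs
  rcases lt_or_gt_of_ne hs with h1 | h1
  · rw [h0 s h1, Set.indicator_of_notMem (by simp; exact h1.le)]; simp
  · rw [h s h1, Set.indicator_of_mem (by simpa using h1), scale_slice h1]

lemma shift_one (G : ℝ → ENNReal) :
    ∫⁻ s in Set.Ioi (1:ℝ), G s = ∫⁻ t in Set.Ioi (0:ℝ), G (t + 1) := by
  rw [← lintegral_indicator measurableSet_Ioi, ← lintegral_indicator measurableSet_Ioi,
    ← lintegral_add_right_eq_self _ (1:ℝ)]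
  congr 1
  funext t
  by_cases ht : t ∈ Set.Ioi (0:ℝ)
  · rw [Set.indicator_of_mem ht, Set.indicator_of_mem]
    simp at ht ⊢; linarith
  · rw [Set.indicator_of_notMem ht, Set.indicator_of_notMem]
    simp at ht ⊢; linarith

def OC (a b c : E) : Set E := {x | 0 < dt b c x ∧ 0 < dt c a x ∧ 0 < dt a b x}
def TT (a b c : E) : Set E := {x | 0 ≤ dt b c x ∧ 0 ≤ dt c a x ∧ 0 ≤ dt a b x ∧
  dt b c x + dt c a x + dt a b x ≤ dt a b c}

lemma dt_cont (a b : E) : Continuous (fun x => dt a b x) := by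
  unfold dt; fun_prop

lemma OC_meas (a b c : E) : MeasurableSet (OC a b c) := by
  unfold OC
  apply MeasurableSet.inter (measurableSet_lt measurable_const (dt_cont b c).measurable)
  apply MeasurableSet.inter (measurableSet_lt measurable_const (dt_cont c a).measurable)
  exact measurableSet_lt measurable_const (dt_cont a b).measurable

lemma TT_meas (a b c : E) : MeasurableSet (TT a b c) := by
  unfold TT
  apply MeasurableSet.inter (measurableSet_le measurable_const (dt_cont b c).measurable)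
  apply MeasurableSet.inter (measurableSet_le measurable_const (dt_cont c a).measurable)
  apply MeasurableSet.inter (measurableSet_le measurable_const (dt_cont a b).measurable)
  exact measurableSet_le (((dt_cont b c).add (dt_cont c a)).add (dt_cont a b)).measurable
    measurable_const

lemma psi_dt1 (a b c : E) (p : ℝ × ℝ × ℝ) :
    dt b c (psi a (b - a) (c - a) p) = (p.1 - p.2.1 - p.2.2) * dt a b c := by
  simp [psi, dt]; ring
lemma psi_dt2 (a b c : E) (p : ℝ × ℝ × ℝ) :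
    dt c a (psi a (b - a) (c - a) p) = p.2.1 * dt a b c := by
  simp [psi, dt]; ring
lemma psi_dt3 (a b c : E) (p : ℝ × ℝ × ℝ) :
    dt a b (psi a (b - a) (c - a) p) = p.2.2 * dt a b c := by
  simp [psi, dt]; ring

lemma dt_sub_sub (a b c : E) : dt a (b - a) (c - a) = dt a b c := by
  simp [dt]; ring

lemma mul_pos_iff' {x d : ℝ} (hd : 0 < d) : 0 < x * d ↔ 0 < x := by
  constructor
  · intro h
    by_contra hx
    push Not at hx
    nlinarith
  · intro h; positivity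

lemma mul_nonneg_iff' {x d : ℝ} (hd : 0 < d) : 0 ≤ x * d ↔ 0 ≤ x := by
  constructor
  · intro h
    by_contra hx
    push Not at hx
    nlinarith
  · intro h; positivity

lemma vol_TT {a b c : E} (hd : 0 < dt a b c) :
    volume (TT a b c) = ENNReal.ofReal (dt a b c / 6) := by
  rw [psi_vol (u := a) (e := b - a) (f := c - a) (by rw [dt_sub_sub]; exact hd.ne')
    (TT_meas a b c), dt_sub_sub, abs_of_pos hd,
    cone_slices ((psi_meas _ _ _) (TT_meas a b c)) (fun s => if s ≤ 1 then D1 else ∅)]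
  · have h1 : ∫⁻ s in Set.Ioi (0:ℝ), ENNReal.ofReal (s ^ 2) * volume (if s ≤ 1 then D1 else ∅)
        = ∫⁻ s in Set.Ioo (0:ℝ) 1, ENNReal.ofReal (s ^ 2 / 2) := by
      rw [← lintegral_indicator measurableSet_Ioi, ← lintegral_indicator measurableSet_Ioo]
      have hae : ∀ᵐ x : ℝ, x ≠ 1 := by
        rw [ae_iff]; simp
      apply lintegral_congr_ae
      filter_upwards [hae] with s hs
      by_cases h2 : s ∈ Set.Ioo (0:ℝ) 1
      · rw [Set.indicator_of_mem h2, Set.indicator_of_mem (by exact h2.1), if_pos h2.2.le, vol_D1,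
          ← ENNReal.ofReal_mul (by positivity)]
        congr 1; ring
      · rw [Set.indicator_of_notMem h2]
        by_cases h3 : 0 < s
        · have h4 : ¬ s ≤ 1 := by
            intro h5; exact h2 ⟨h3, lt_of_le_of_ne h5 hs⟩
          rw [Set.indicator_of_mem (by exact h3), if_neg h4]; simp
        · rw [Set.indicator_of_notMem (by simpa using h3)]
    rw [h1, lint_Ioo zero_le_one (by fun_prop) (fun x _ => by positivity),
      ← ENNReal.ofReal_mul hd.le]
    congr 1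
    have : ∫ x in (0:ℝ)..1, x ^ 2 / 2 = 1 / 6 := by
      rw [intervalIntegral.integral_div, integral_pow]; norm_num
    rw [this]; ring
  · intro s hs
    ext q
    simp only [Set.mem_ofPred_eq, Set.mem_preimage, TT, psi_dt1, psi_dt2, psi_dt3,
      mul_nonneg_iff' hd]
    have e1 : (s - q.1 - q.2) * dt a b c + q.1 * dt a b c + q.2 * dt a b c ≤ dt a b c ↔ s ≤ 1 := by
      constructor
      · intro h; by_contra h'; push Not at h'; nlinarith
      · intro h; nlinarith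
    rw [e1]
    by_cases h1 : s ≤ 1
    · rw [if_pos h1]
      simp only [D1, Set.mem_ofPred_eq, h1, and_true]
      rw [← add_div, div_le_one hs]
      constructor
      · rintro ⟨a1, a2, a3⟩
        exact ⟨div_nonneg a2 hs.le, div_nonneg a3 hs.le, by linarith⟩
      · rintro ⟨a2, a3, a1⟩
        have b2 : 0 ≤ q.1 := by
          have := mul_nonneg a2 hs.le; rwa [div_mul_cancel₀ _ hs.ne'] at this
        have b3 : 0 ≤ q.2 := by
          have := mul_nonneg a3 hs.le; rwa [div_mul_cancel₀ _ hs.ne'] at this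
        exact ⟨by linarith, b2, b3⟩
    · rw [if_neg h1]
      simp [h1]
  · intro s hs
    ext q
    simp only [Set.mem_ofPred_eq, Set.mem_preimage, TT, psi_dt1, psi_dt2, psi_dt3,
      mul_nonneg_iff' hd, Set.mem_empty_iff_false, iff_false]
    rintro ⟨h1, h2, h3, -⟩
    linarith

lemma nsq_psi {a b c : E} (ha : ‖a‖ = 1) (hb : ‖b‖ = 1) (hc : ‖c‖ = 1) (p : ℝ × ℝ × ℝ) :
    ‖psi a (b - a) (c - a) p‖ ^ 2 = p.1 ^ 2 - ((p.1 - p.2.1 - p.2.2) * p.2.1 * ‖a - b‖ ^ 2
      + (p.1 - p.2.1 - p.2.2) * p.2.2 * ‖a - c‖ ^ 2 + p.2.1 * p.2.2 * ‖b - c‖ ^ 2) := by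
  have ha' : a 0 ^ 2 + a 1 ^ 2 + a 2 ^ 2 = 1 := by rw [← nsq, ha]; norm_num
  have hb' : b 0 ^ 2 + b 1 ^ 2 + b 2 ^ 2 = 1 := by rw [← nsq, hb]; norm_num
  have hc' : c 0 ^ 2 + c 1 ^ 2 + c 2 ^ 2 = 1 := by rw [← nsq, hc]; norm_num
  simp only [nsq, psi, ap_add, ap_sub, ap_smul]
  obtain ⟨s, x, y⟩ := p
  simp only
  linear_combination ((s - x - y) * s) * ha' + (x * s) * hb' + (y * s) * hc'

lemma pre_OC {a b c : E} (ha : ‖a‖ = 1) (hb : ‖b‖ = 1) (hc : ‖c‖ = 1) (hd : 0 < dt a b c) :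
    volume (OC a b c ∩ Metric.closedBall 0 1) = ENNReal.ofReal (dt a b c) *
      ∫⁻ s in Set.Ioi (0:ℝ), ENNReal.ofReal (s ^ 2) * volume {q : ℝ × ℝ | q ∈ D0 ∧
        s ^ 2 * (1 - QQ (‖a - b‖ ^ 2) (‖a - c‖ ^ 2) (‖b - c‖ ^ 2) q) ≤ 1} := by
  have hm : MeasurableSet (OC a b c ∩ Metric.closedBall 0 1) :=
    (OC_meas a b c).inter measurableSet_closedBall
  rw [psi_vol (u := a) (e := b - a) (f := c - a) (by rw [dt_sub_sub]; exact hd.ne')
    hm, dt_sub_sub, abs_of_pos hd,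
    cone_slices ((psi_meas _ _ _) hm) (fun s => {q : ℝ × ℝ | q ∈ D0 ∧
        s ^ 2 * (1 - QQ (‖a - b‖ ^ 2) (‖a - c‖ ^ 2) (‖b - c‖ ^ 2) q) ≤ 1})]
  · intro s hs
    ext q
    have e1 : ‖psi a (b - a) (c - a) (s, q)‖ ≤ 1 ↔ s ^ 2 * (1 - QQ (‖a - b‖ ^ 2) (‖a - c‖ ^ 2)
        (‖b - c‖ ^ 2) (q.1 / s, q.2 / s)) ≤ 1 := by
      have h1 : ‖psi a (b - a) (c - a) (s, q)‖ ^ 2 = s ^ 2 * (1 - QQ (‖a - b‖ ^ 2) (‖a - c‖ ^ 2)
        (‖b - c‖ ^ 2) (q.1 / s, q.2 / s)) := by
        rw [nsq_psi ha hb hc]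
        simp only [QQ]
        field_simp
      rw [← h1]
      constructor
      · intro h; nlinarith [norm_nonneg (psi a (b - a) (c - a) (s, q))]
      · intro h; nlinarith [norm_nonneg (psi a (b - a) (c - a) (s, q))]
    simp only [Set.mem_ofPred_eq, Set.mem_preimage, Set.mem_inter_iff, OC, psi_dt1, psi_dt2,
      psi_dt3, mul_pos_iff' hd, mem_closedBall_zero_iff, e1, D0]
    rw [← add_div, div_lt_one hs]
    constructor
    · rintro ⟨⟨a1, a2, a3⟩, a4⟩
      exact ⟨⟨div_pos a2 hs, div_pos a3 hs, by linarith⟩, a4⟩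
    · rintro ⟨⟨a2, a3, a1⟩, a4⟩
      have b2 : 0 < q.1 := by
        have := mul_pos a2 hs; rwa [div_mul_cancel₀ _ hs.ne'] at this
      have b3 : 0 < q.2 := by
        have := mul_pos a3 hs; rwa [div_mul_cancel₀ _ hs.ne'] at this
      exact ⟨⟨by linarith, b2, b3⟩, a4⟩
  · intro s hs
    ext q
    simp only [Set.mem_ofPred_eq, Set.mem_preimage, Set.mem_inter_iff, OC, psi_dt1, psi_dt2,
      psi_dt3, mul_pos_iff' hd, Set.mem_empty_iff_false, iff_false]
    rintro ⟨⟨h1, h2, h3⟩, -⟩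
    linarith

lemma layer {A B C k : ℝ} (hA : 0 ≤ A) (hB : 0 ≤ B) (hC : 0 ≤ C) (hk : 0 ≤ k) :
    ∫⁻ t in Set.Ioi (0:ℝ), volume {q : ℝ × ℝ | q ∈ D0 ∧ t ≤ k * QQ A B C q}
      = ENNReal.ofReal (k * ((A + B + C) / 24)) := by
  have h1 := lintegral_eq_lintegral_meas_le (volume.restrict D0) (f := fun q => k * QQ A B C q)
    ((ae_restrict_iff' D0_meas).2 (Filter.Eventually.of_forall
      fun q hq => mul_nonneg hk (QQ_nonneg hA hB hC hq)))
    ((QQ_cont A B C).measurable.const_mul k).aemeasurable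
  have h2 : ∀ t : ℝ, (volume.restrict D0) {a | t ≤ k * QQ A B C a}
      = volume {q : ℝ × ℝ | q ∈ D0 ∧ t ≤ k * QQ A B C q} := by
    intro t
    rw [Measure.restrict_apply]
    · congr 1; ext q; simp [and_comm]
    · exact measurableSet_le measurable_const ((QQ_cont A B C).measurable.const_mul k)
  simp only [h2] at h1
  rw [← h1]
  have h3 : ∀ q, ENNReal.ofReal (k * QQ A B C q)
      = ENNReal.ofReal k * ENNReal.ofReal (QQ A B C q) := fun q => ENNReal.ofReal_mul hk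
  simp only [h3]
  have hm : Measurable (fun q => ENNReal.ofReal (QQ A B C q)) :=
    ENNReal.measurable_ofReal.comp (QQ_cont A B C).measurable
  rw [lintegral_const_mul _ hm, lint_QQ hA hB hC, ENNReal.ofReal_mul hk]

lemma cone_lower {a b c : E} (ha : ‖a‖ = 1) (hb : ‖b‖ = 1) (hc : ‖c‖ = 1) (hd : 0 < dt a b c) :
    ENNReal.ofReal (dt a b c * (1 / 6 + (‖a - b‖ ^ 2 + ‖a - c‖ ^ 2 + ‖b - c‖ ^ 2) / 48)) ≤
      volume (OC a b c ∩ Metric.closedBall 0 1) := by
  rw [pre_OC ha hb hc hd, ENNReal.ofReal_mul hd.le]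
  apply mul_le_mul_right
  set A := ‖a - b‖ ^ 2
  set B := ‖a - c‖ ^ 2
  set C := ‖b - c‖ ^ 2
  have hA : 0 ≤ A := sq_nonneg _
  have hB : 0 ≤ B := sq_nonneg _
  have hC : 0 ≤ C := sq_nonneg _
  have hsplit : Set.Ioo (0:ℝ) 1 ∪ Set.Ioi 1 ⊆ Set.Ioi 0 := by
    intro s hs
    rcases hs with hs | hs
    · exact hs.1
    · simp at hs ⊢; linarith
  refine le_trans ?_ (lintegral_mono_set hsplit)
  rw [lintegral_union measurableSet_Ioi (by
    rw [Set.disjoint_left]; intro s h1 h2; simp at h1 h2; linarith)]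
  rw [ENNReal.ofReal_add (by norm_num) (by positivity)]
  apply add_le_add
  · have h1 : ∫⁻ s in Set.Ioo (0:ℝ) 1, ENNReal.ofReal (s ^ 2 / 2) = ENNReal.ofReal (1 / 6) := by
      rw [lint_Ioo zero_le_one (by fun_prop) (fun x _ => by positivity)]
      congr 1
      rw [intervalIntegral.integral_div, integral_pow]; norm_num
    rw [← h1]
    apply setLIntegral_mono' measurableSet_Ioo
    intro s hs
    have h2 : {q : ℝ × ℝ | q ∈ D0 ∧ s ^ 2 * (1 - QQ A B C q) ≤ 1} = D0 := by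
      ext q
      simp only [Set.mem_ofPred_eq, and_iff_left_iff_imp]
      intro hq
      have := QQ_nonneg hA hB hC hq
      have hs1 := hs.1
      have hs2 := hs.2
      nlinarith [sq_nonneg s, mul_nonneg (sq_nonneg s) this]
    rw [h2, vol_D0, ← ENNReal.ofReal_mul (by positivity)]
    apply ENNReal.ofReal_le_ofReal
    linarith
  · rw [shift_one]
    have h1 := layer (k := 1 / 2) hA hB hC (by norm_num)
    rw [show (A + B + C) / 48 = 1 / 2 * ((A + B + C) / 24) by ring, ← h1]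
    apply setLIntegral_mono' measurableSet_Ioi
    intro t ht
    have ht0 : 0 < t := ht
    have h2 : {q : ℝ × ℝ | q ∈ D0 ∧ t ≤ 1 / 2 * QQ A B C q} ⊆
        {q : ℝ × ℝ | q ∈ D0 ∧ (t + 1) ^ 2 * (1 - QQ A B C q) ≤ 1} := by
      rintro q ⟨hq, hq2⟩
      refine ⟨hq, ?_⟩
      have h3 : QQ A B C q ≥ 2 * t := by linarith
      have h4 : (t + 1) ^ 2 * (1 - QQ A B C q) ≤ (t + 1) ^ 2 * (1 - 2 * t) :=
        mul_le_mul_of_nonneg_left (by linarith) (sq_nonneg _)
      have h5 : (t + 1) ^ 2 * (1 - 2 * t) ≤ 1 := by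
        have : (t + 1) ^ 2 * (1 - 2 * t) = 1 - t ^ 2 * (3 + 2 * t) := by ring
        rw [this]
        have : 0 ≤ t ^ 2 * (3 + 2 * t) := by positivity
        linarith
      linarith
    calc volume {q : ℝ × ℝ | q ∈ D0 ∧ t ≤ 1 / 2 * QQ A B C q}
        ≤ volume {q : ℝ × ℝ | q ∈ D0 ∧ (t + 1) ^ 2 * (1 - QQ A B C q) ≤ 1} := measure_mono h2
      _ = 1 * volume {q : ℝ × ℝ | q ∈ D0 ∧ (t + 1) ^ 2 * (1 - QQ A B C q) ≤ 1} := (one_mul _).symm
      _ ≤ _ := by
        apply mul_le_mul_left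
        rw [← ENNReal.ofReal_one]
        apply ENNReal.ofReal_le_ofReal
        nlinarith

lemma cone_upper {a b c : E} (ha : ‖a‖ = 1) (hb : ‖b‖ = 1) (hc : ‖c‖ = 1) (hd : 0 < dt a b c)
    {k : ℝ} (hk1 : k < 1) (h1 : ‖a - b‖ ^ 2 ≤ k) (h2 : ‖a - c‖ ^ 2 ≤ k)
    (h3 : ‖b - c‖ ^ 2 ≤ k) :
    volume (OC a b c ∩ Metric.closedBall 0 1) ≤ ENNReal.ofReal (dt a b c * (1 / 6 +
      ((1 - k)⁻¹) ^ 2 * (‖a - b‖ ^ 2 + ‖a - c‖ ^ 2 + ‖b - c‖ ^ 2) / 48)) := by
  rw [pre_OC ha hb hc hd, ENNReal.ofReal_mul hd.le]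
  apply mul_le_mul_right
  set A := ‖a - b‖ ^ 2
  set B := ‖a - c‖ ^ 2
  set C := ‖b - c‖ ^ 2
  have hA : 0 ≤ A := sq_nonneg _
  have hB : 0 ≤ B := sq_nonneg _
  have hC : 0 ≤ C := sq_nonneg _
  have hk0 : 0 ≤ k := hA.trans h1
  set g := (1 - k)⁻¹ with hg
  have hgpos : 0 < g := by rw [hg]; exact inv_pos.2 (by linarith)
  have hgk : g * (1 - k) = 1 := by rw [hg]; exact inv_mul_cancel₀ (by linarith)
  have hsplit : Set.Ioi (0:ℝ) = Set.Ioc 0 1 ∪ Set.Ioi 1 := by
    ext s; simp only [Set.mem_Ioi, Set.mem_union, Set.mem_Ioc]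
    constructor
    · intro h; rcases le_or_gt s 1 with h4 | h4
      · left; exact ⟨h, h4⟩
      · right; exact h4
    · rintro (h | h)
      · exact h.1
      · linarith
  rw [hsplit, lintegral_union measurableSet_Ioi (by
    rw [Set.disjoint_left]; intro s h1 h2; simp at h1 h2; linarith)]
  rw [ENNReal.ofReal_add (by norm_num) (by positivity)]
  apply add_le_add
  · rw [setLIntegral_congr (Ioo_ae_eq_Ioc).symm]
    have h1 : ∫⁻ s in Set.Ioo (0:ℝ) 1, ENNReal.ofReal (s ^ 2 / 2) = ENNReal.ofReal (1 / 6) := by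
      rw [lint_Ioo zero_le_one (by fun_prop) (fun x _ => by positivity)]
      congr 1
      rw [intervalIntegral.integral_div, integral_pow]; norm_num
    rw [← h1]
    apply setLIntegral_mono' measurableSet_Ioo
    intro s hs
    have h2 : {q : ℝ × ℝ | q ∈ D0 ∧ s ^ 2 * (1 - QQ A B C q) ≤ 1} ⊆ D0 := fun q hq => hq.1
    calc _ ≤ ENNReal.ofReal (s ^ 2) * volume D0 := mul_le_mul_right (measure_mono h2) _
      _ = _ := by rw [vol_D0, ← ENNReal.ofReal_mul (by positivity)]; congr 1; ring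
  · rw [shift_one]
    have h4 := layer (k := g / 2) hA hB hC (by positivity)
    rw [show g ^ 2 * (A + B + C) / 48 = g * (g / 2 * ((A + B + C) / 24)) by ring,
      ENNReal.ofReal_mul hgpos.le, ← h4, ← lintegral_const_mul' _ _ ENNReal.ofReal_ne_top]
    apply setLIntegral_mono' measurableSet_Ioi
    intro t ht
    have ht0 : 0 < t := ht
    have key : ∀ q ∈ D0, (t + 1) ^ 2 * (1 - QQ A B C q) ≤ 1 →
        (t + 1) ^ 2 ≤ g ∧ t ≤ g / 2 * QQ A B C q := by
      intro q hq hq2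
      have e1 := QQ_le h1 h2 h3 hk0 hq
      have e2 := QQ_nonneg hA hB hC hq
      have e3 : (t + 1) ^ 2 * (1 - k) ≤ 1 := by nlinarith [sq_nonneg (t + 1)]
      have e4 : (t + 1) ^ 2 ≤ g := by
        have : (t + 1) ^ 2 = g * ((t + 1) ^ 2 * (1 - k)) := by
          rw [mul_comm ((t + 1) ^ 2), ← mul_assoc, hgk, one_mul]
        rw [this]; nlinarith
      refine ⟨e4, ?_⟩
      have e5 : (t + 1) ^ 2 - 1 ≤ g * QQ A B C q := by nlinarith
      nlinarith
    by_cases hne : ∃ q ∈ D0, (t + 1) ^ 2 * (1 - QQ A B C q) ≤ 1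
    · obtain ⟨q, hq, hq2⟩ := hne
      have e4 := (key q hq hq2).1
      apply mul_le_mul' (ENNReal.ofReal_le_ofReal e4)
      apply measure_mono
      rintro q' ⟨hq', hq2'⟩
      exact ⟨hq', (key q' hq' hq2').2⟩
    · have : {q : ℝ × ℝ | q ∈ D0 ∧ (t + 1) ^ 2 * (1 - QQ A B C q) ≤ 1} = ∅ := by
        ext q
        simp only [Set.mem_ofPred_eq, Set.mem_empty_iff_false, iff_false]
        exact fun h => hne ⟨q, h⟩
      rw [this]; simp

end Med
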