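import Pool.Agent.Helper946.M3
import Pool.Agent.Helper946.M5

set_option autoImplicit false

namespace Med

open MeasureTheory

variable {S : Finset E}

lemma hull_le {a b c x : E} (h : Fct S a b c) (hx : x ∈ convexHull ℝ (S : Set E)) :
    inner ℝ (nrm a b c) x ≤ dt a b c := by
  have hconv : Convex ℝ {y : E | inner ℝ (nrm a b c) y ≤ dt a b c} := by
    have := convex_halfSpace_le (𝕜 := ℝ) (f := fun y : E => inner ℝ (nrm a b c) y)
      (IsLinearMap.mk (fun x y => inner_add_right _ _ _) (fun r x => real_inner_smul_right _ _ _))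
      (dt a b c)
    exact this
  exact convexHull_min (fun y hy => h.le hy) hconv hx

lemma TT_rot (a b c : E) : TT b c a = TT a b c := by
  ext x
  simp only [TT, Set.mem_ofPred_eq, dt_rot]
  constructor
  · rintro ⟨h1, h2, h3, h4⟩; exact ⟨h3, h1, h2, by linarith⟩
  · rintro ⟨h1, h2, h3, h4⟩; exact ⟨h2, h3, h1, by linarith⟩

noncomputable def dD (hS : Cfg S) (d : Dart S) : ℝ := dt d.tl d.hd (sg hS d).hd
noncomputable def sD (hS : Cfg S) (d : Dart S) : ℝ :=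
  ‖d.tl - d.hd‖ ^ 2 + ‖d.tl - (sg hS d).hd‖ ^ 2 + ‖d.hd - (sg hS d).hd‖ ^ 2

lemma dD_pos (hS : Cfg S) (d : Dart S) : 0 < dD hS d := (sg_fct hS d).2.2.2.1

lemma mids_rot (hS : Cfg S) {ℓ : E}
    (hℓ : ∀ x ∈ S, ∀ y ∈ S, x ≠ y → inner ℝ ℓ x ≠ inner ℝ ℓ y) {a b c : E} (h : Fct S a b c) :
    ∃ d ∈ mids hS ℓ, TT d.tl d.hd (sg hS d).hd = TT a b c := by
  classical
  have hn := ne_of_dt h.2.2.2.1
  have e1 := hℓ _ h.1 _ h.2.1 hn.1
  have e2 := hℓ _ h.2.1 _ h.2.2.1 hn.2.1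
  have e3 := hℓ _ h.1 _ h.2.2.1 hn.2.2
  have key : ∀ a b c, Fct S a b c → ((inner ℝ ℓ b < inner ℝ ℓ a ∧ inner ℝ ℓ a < inner ℝ ℓ c) ∨
      (inner ℝ ℓ c < inner ℝ ℓ a ∧ inner ℝ ℓ a < inner ℝ ℓ b)) →
      ∃ d ∈ mids hS ℓ, TT d.tl d.hd (sg hS d).hd = TT a b c := by
    intro a b c h h'
    set d : Dart S := ⟨(a, b), h.edg⟩ with hd
    have hc : (sg hS d).hd = c := sg_hd_eq hS d h
    refine ⟨d, ?_, by rw [hc]; rfl⟩
    rw [mids, Finset.mem_filter, mid, hc]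
    exact ⟨Finset.mem_univ _, h'⟩
  rcases lt_or_gt_of_ne e1 with a1 | a1 <;> rcases lt_or_gt_of_ne e2 with a2 | a2 <;>
    rcases lt_or_gt_of_ne e3 with a3 | a3
  · obtain ⟨d, h1, h2⟩ := key b c a h.rot (Or.inr ⟨a1, a2⟩)
    exact ⟨d, h1, by rw [h2, TT_rot]⟩
  · linarith
  · obtain ⟨d, h1, h2⟩ := key c a b h.rot.rot (Or.inl ⟨a3, a2⟩)
    exact ⟨d, h1, by rw [h2, TT_rot, TT_rot]⟩
  · obtain ⟨d, h1, h2⟩ := key a b c h (Or.inr ⟨a3, a1⟩)
    exact ⟨d, h1, h2⟩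
  · obtain ⟨d, h1, h2⟩ := key a b c h (Or.inl ⟨a1, a3⟩)
    exact ⟨d, h1, h2⟩
  · obtain ⟨d, h1, h2⟩ := key c a b h.rot.rot (Or.inr ⟨a2, a3⟩)
    exact ⟨d, h1, by rw [h2, TT_rot, TT_rot]⟩
  · linarith
  · obtain ⟨d, h1, h2⟩ := key b c a h.rot (Or.inl ⟨a2, a1⟩)
    exact ⟨d, h1, by rw [h2, TT_rot]⟩

lemma hull_subset (hS : Cfg S) {ℓ : E}
    (hℓ : ∀ x ∈ S, ∀ y ∈ S, x ≠ y → inner ℝ ℓ x ≠ inner ℝ ℓ y) :
    convexHull ℝ (S : Set E) ⊆ ⋃ d ∈ mids hS ℓ, TT d.tl d.hd (sg hS d).hd := by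
  intro x hx
  obtain ⟨a, b, c, h, h1, h2, h3⟩ := hS.cover x
  have h4 := hull_le h hx
  rw [inr_nrm] at h4
  obtain ⟨d, hd, hd'⟩ := mids_rot hS hℓ h
  simp only [Set.mem_iUnion]
  refine ⟨d, hd, ?_⟩
  rw [hd']
  exact ⟨h1, h2, h3, by linarith⟩

lemma vol_hull_le (hS : Cfg S) {ℓ : E}
    (hℓ : ∀ x ∈ S, ∀ y ∈ S, x ≠ y → inner ℝ ℓ x ≠ inner ℝ ℓ y) :
    volume (convexHull ℝ (S : Set E)) ≤ ENNReal.ofReal (∑ d ∈ mids hS ℓ, dD hS d / 6) := by
  calc volume (convexHull ℝ (S : Set E)) ≤ volume (⋃ d ∈ mids hS ℓ, TT d.tl d.hd (sg hS d).hd) :=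
        measure_mono (hull_subset hS hℓ)
    _ ≤ ∑ d ∈ mids hS ℓ, volume (TT d.tl d.hd (sg hS d).hd) := measure_biUnion_finset_le _ _
    _ = ∑ d ∈ mids hS ℓ, ENNReal.ofReal (dD hS d / 6) := by
        apply Finset.sum_congr rfl
        intro d _
        rw [vol_TT (dD_pos hS d)]; rfl
    _ = _ := by
        rw [ENNReal.ofReal_sum_of_nonneg]
        intro d _
        have := dD_pos hS d
        positivity

lemma OC_le {a b c a' b' c' x : E} (h : Fct S a b c) (h' : Fct S a' b' c') (hx : x ∈ OC a b c) :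
    inner ℝ (nrm a' b' c') x / dt a' b' c' ≤ inner ℝ (nrm a b c) x / dt a b c ∧
    (inner ℝ (nrm a b c) x / dt a b c ≤ inner ℝ (nrm a' b' c') x / dt a' b' c' →
      (a = a' ∨ a = b' ∨ a = c') ∧ (b = a' ∨ b = b' ∨ b = c') ∧ (c = a' ∨ c = b' ∨ c = c')) := by
  obtain ⟨l1, l2, l3⟩ := hx
  have hD := h.2.2.2.1
  have hD' := h'.2.2.2.1
  have e := basis_exp a b c x
  have e2 := congrArg (fun y => inner ℝ (nrm a' b' c') y) e
  simp only [inner_add_right, real_inner_smul_right] at e2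
  have ka := h'.le h.1
  have kb := h'.le h.2.1
  have kc := h'.le h.2.2.1
  have e3 : inner ℝ (nrm a b c) x = dt b c x + dt c a x + dt a b x := by rw [inr_nrm]; ring
  set A := inner ℝ (nrm a' b' c') a
  set B := inner ℝ (nrm a' b' c') b
  set C := inner ℝ (nrm a' b' c') c
  set D' := dt a' b' c'
  set D := dt a b c
  set X := inner ℝ (nrm a' b' c') x
  have m1 : dt b c x * A ≤ dt b c x * D' := mul_le_mul_of_nonneg_left ka l1.le
  have m2 : dt c a x * B ≤ dt c a x * D' := mul_le_mul_of_nonneg_left kb l2.le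
  have m3 : dt a b x * C ≤ dt a b x * D' := mul_le_mul_of_nonneg_left kc l3.le
  constructor
  · rw [div_le_div_iff₀ hD' hD, e3]; linarith
  · intro hle
    rw [div_le_div_iff₀ hD hD', e3] at hle
    refine ⟨?_, ?_, ?_⟩
    · by_contra hne
      push Not at hne
      have := h'.2.2.2.2 a h.1 hne.1 hne.2.1 hne.2.2
      have := mul_lt_mul_of_pos_left this l1
      linarith
    · by_contra hne
      push Not at hne
      have := h'.2.2.2.2 b h.2.1 hne.1 hne.2.1 hne.2.2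
      have := mul_lt_mul_of_pos_left this l2
      linarith
    · by_contra hne
      push Not at hne
      have := h'.2.2.2.2 c h.2.2.1 hne.1 hne.2.1 hne.2.2
      have := mul_lt_mul_of_pos_left this l3
      linarith

lemma OC_disj (hS : Cfg S) {ℓ : E} {d d' : Dart S} (hd : d ∈ mids hS ℓ) (hd' : d' ∈ mids hS ℓ)
    {x : E} (hx : x ∈ OC d.tl d.hd (sg hS d).hd) (hx' : x ∈ OC d'.tl d'.hd (sg hS d').hd) :
    d = d' := by
  classical
  have h := sg_fct hS d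
  have h' := sg_fct hS d'
  have h1 := OC_le h h' hx
  have h2 := OC_le h' h hx'
  obtain ⟨k1, k2, k3⟩ := h1.2 h2.1
  rw [mids, Finset.mem_filter, mid] at hd hd'
  have m := hd.2
  have m' := hd'.2
  have hn := ne_of_dt h.2.2.2.1
  have hn' := ne_of_dt h'.2.2.2.1
  have hD := h.2.2.2.1
  have hD' := h'.2.2.2.1
  have hh : ∀ (a b c a' b' c' : E), a ≠ b → b ≠ c → a ≠ c → 0 < dt a b c → 0 < dt a' b' c' →
      (a = a' ∨ a = b' ∨ a = c') → (b = a' ∨ b = b' ∨ b = c') → (c = a' ∨ c = b' ∨ c = c') →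
      ((inner ℝ ℓ b < inner ℝ ℓ a ∧ inner ℝ ℓ a < inner ℝ ℓ c) ∨
        (inner ℝ ℓ c < inner ℝ ℓ a ∧ inner ℝ ℓ a < inner ℝ ℓ b)) →
      ((inner ℝ ℓ b' < inner ℝ ℓ a' ∧ inner ℝ ℓ a' < inner ℝ ℓ c') ∨
        (inner ℝ ℓ c' < inner ℝ ℓ a' ∧ inner ℝ ℓ a' < inner ℝ ℓ b')) → a = a' ∧ b = b' := by
    intro a b c a' b' c' n1 n2 n3 p p' q1 q2 q3 r r'
    rcases q1 with rfl | rfl | rfl <;> rcases q2 with rfl | rfl | rfl <;>
      rcases q3 with rfl | rfl | rfl <;> first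
      | exact absurd rfl n1
      | exact absurd rfl n2
      | exact absurd rfl n3
      | exact ⟨rfl, rfl⟩
      | (exfalso; rw [dt_swap'] at p'; linarith)
      | (exfalso; rcases r with r | r <;> rcases r' with r' | r' <;> linarith [r.1, r.2, r'.1, r'.2])
  obtain ⟨g1, g2⟩ := hh _ _ _ _ _ _ hn.1 hn.2.1 hn.2.2 hD hD' k1 k2 k3 m m'
  exact Dart.ext g1 g2

lemma sum_OC_le (hS : Cfg S) (ℓ : E) :
    ENNReal.ofReal (∑ d ∈ mids hS ℓ, dD hS d * (1 / 6 + sD hS d / 48)) ≤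
      volume (Metric.closedBall (0 : E) 1) := by
  classical
  calc ENNReal.ofReal (∑ d ∈ mids hS ℓ, dD hS d * (1 / 6 + sD hS d / 48))
      = ∑ d ∈ mids hS ℓ, ENNReal.ofReal (dD hS d * (1 / 6 + sD hS d / 48)) := by
        rw [ENNReal.ofReal_sum_of_nonneg]
        intro d _
        have := dD_pos hS d
        unfold sD
        positivity
    _ ≤ ∑ d ∈ mids hS ℓ, volume (OC d.tl d.hd (sg hS d).hd ∩ Metric.closedBall 0 1) := by
        apply Finset.sum_le_sum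
        intro d _
        have h := sg_fct hS d
        exact cone_lower (hS.unit _ h.1) (hS.unit _ h.2.1) (hS.unit _ h.2.2.1) h.2.2.2.1
    _ = volume (⋃ d ∈ mids hS ℓ, (OC d.tl d.hd (sg hS d).hd ∩ Metric.closedBall 0 1)) := by
        rw [measure_biUnion_finset]
        · intro d hd d' hd' hne
          show Disjoint _ _
          rw [Set.disjoint_left]
          rintro x ⟨hx, _⟩ ⟨hx', _⟩
          exact hne (OC_disj hS hd hd' hx hx')
        · intro d _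
          exact (OC_meas _ _ _).inter measurableSet_closedBall
    _ ≤ _ := measure_mono (by
        intro x hx
        simp only [Set.mem_iUnion] at hx
        obtain ⟨d, _, hx⟩ := hx
        exact hx.2)

lemma vol_ball : volume (Metric.closedBall (0 : E) 1) = ENNReal.ofReal (4 * Real.pi / 3) := by
  rw [EuclideanSpace.volume_closedBall_fin_three]
  simp
  congr 1; ring

noncomputable def Vol (S : Finset E) : ℝ := (volume (convexHull ℝ (S : Set E))).toReal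

lemma vol_hull_lt_top (S : Finset E) : volume (convexHull ℝ (S : Set E)) < ⊤ := by
  have : Bornology.IsBounded (convexHull ℝ (S : Set E)) := by
    rw [isBounded_convexHull]; exact S.finite_toSet.isBounded
  exact this.measure_lt_top

/-- deficit inequality -/
theorem deficit (hS : Cfg S) {ℓ : E}
    (hℓ : ∀ x ∈ S, ∀ y ∈ S, x ≠ y → inner ℝ ℓ x ≠ inner ℝ ℓ y) :
    Vol S ≤ ∑ d ∈ mids hS ℓ, dD hS d / 6 ∧
    ∑ d ∈ mids hS ℓ, dD hS d / 6 + ∑ d ∈ mids hS ℓ, dD hS d * sD hS d / 48 ≤ 4 * Real.pi / 3 := by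
  constructor
  · have h := vol_hull_le hS hℓ
    have h2 := ENNReal.toReal_mono ENNReal.ofReal_ne_top h
    rw [ENNReal.toReal_ofReal] at h2
    · exact h2
    · apply Finset.sum_nonneg
      intro d _
      have := dD_pos hS d
      positivity
  · have h := sum_OC_le hS ℓ
    rw [vol_ball, ENNReal.ofReal_le_ofReal_iff (by positivity)] at h
    rw [← Finset.sum_add_distrib]
    refine le_trans (le_of_eq ?_) h
    apply Finset.sum_congr rfl
    intro d _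
    ring

lemma nrm_sq_eq (a b c : E) : ‖nrm a b c‖ ^ 2 = ‖a - b‖ ^ 2 * ‖a - c‖ ^ 2
    - ((‖a - b‖ ^ 2 + ‖a - c‖ ^ 2 - ‖b - c‖ ^ 2) / 2) ^ 2 := by
  simp only [nsq, nrm, ap_add, ap_sub, crs0, crs1, crs2]
  ring

lemma dt_le_nrm {a b c : E} (ha : ‖a‖ = 1) : dt a b c ≤ ‖nrm a b c‖ := by
  have := real_inner_le_norm (nrm a b c) a
  rw [nrm_a, ha, mul_one] at this
  exact this

lemma weitz {a b c : E} (ha : ‖a‖ = 1) (hd : 0 < dt a b c) :
    (‖a - b‖ ^ 2 - ‖a - c‖ ^ 2) ^ 2 + (‖a - c‖ ^ 2 - ‖b - c‖ ^ 2) ^ 2 +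
      (‖b - c‖ ^ 2 - ‖a - b‖ ^ 2) ^ 2 ≤
    ((‖a - b‖ ^ 2 + ‖a - c‖ ^ 2 + ‖b - c‖ ^ 2) ^ 2 - 12 * dt a b c ^ 2) / 2 := by
  have h1 := nrm_sq_eq a b c
  have h2 := dt_le_nrm (b := b) (c := c) ha
  have h3 : dt a b c ^ 2 ≤ ‖nrm a b c‖ ^ 2 := by nlinarith
  nlinarith

end Med
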