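import Pool.Agent.Helper946.M6
import Pool.Agent.Helper946.M7

set_option autoImplicit false

namespace Med

open MeasureTheory

variable {S : Finset E}

def Cov (S : Finset E) (ρ : ℝ) : Prop := ∀ u : E, ‖u‖ = 1 → ∃ x ∈ S, ‖x - u‖ ≤ ρ

lemma inr_of_dist {x u : E} (hx : ‖x‖ = 1) (hu : ‖u‖ = 1) :
    inner ℝ u x = 1 - ‖x - u‖ ^ 2 / 2 := by
  rw [dist_sq_unit hx hu, real_inner_comm]; ring

/-- separation from the hull of a finite set -/
lemma sep {S : Finset E} {y : E} (hy : y ∉ convexHull ℝ (S : Set E)) (hne : S.Nonempty) :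
    ∃ w : E, ‖w‖ = 1 ∧ ∀ x ∈ S, inner ℝ w x < inner ℝ w y := by
  have hcl : IsClosed (convexHull ℝ (S : Set E)) :=
    (Set.Finite.isCompact_convexHull (𝕜 := ℝ) S.finite_toSet).isClosed
  obtain ⟨f, u, h1, h2⟩ := geometric_hahn_banach_closed_point (convex_convexHull ℝ (S : Set E))
    hcl hy
  set g := (InnerProductSpace.toDual ℝ E).symm f with hg
  have hfg : ∀ x, f x = inner ℝ g x := by
    intro x
    rw [hg, InnerProductSpace.toDual_symm_apply]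
  obtain ⟨x0, hx0⟩ := hne
  have hg0 : g ≠ 0 := by
    intro h0
    have a1 := h1 x0 (subset_convexHull ℝ _ hx0)
    rw [hfg, h0] at a1
    rw [hfg, h0] at h2
    simp at a1 h2
    linarith
  have hgn : 0 < ‖g‖ := norm_pos_iff.2 hg0
  refine ⟨‖g‖⁻¹ • g, by rw [norm_smul, norm_inv, norm_norm, inv_mul_cancel₀ hgn.ne'], ?_⟩
  intro x hx
  rw [real_inner_smul_left, real_inner_smul_left]
  have a1 := h1 x (subset_convexHull ℝ _ hx)
  rw [hfg] at a1 h2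
  exact mul_lt_mul_of_pos_left (by linarith) (inv_pos.2 hgn)

lemma cov_nonempty {ρ : ℝ} (h : Cov S ρ) : S.Nonempty := by
  obtain ⟨e, f, he, -⟩ := exists_frame (u := EuclideanSpace.single 0 1) (by simp)
  obtain ⟨x, hx, _⟩ := h e he
  exact ⟨x, hx⟩

lemma hull_ball (hu : ∀ x ∈ S, ‖x‖ = 1) {ρ : ℝ} (hρ : 0 ≤ ρ) (h : Cov S ρ) :
    Metric.closedBall (0 : E) (1 - ρ ^ 2 / 2) ⊆ convexHull ℝ (S : Set E) := by
  intro y hy
  by_contra hcon
  obtain ⟨w, hw, hw'⟩ := sep hcon (cov_nonempty h)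
  obtain ⟨x, hx, hxw⟩ := h w hw
  have h1 := hw' x hx
  rw [inr_of_dist (hu x hx) hw] at h1
  have h2 := real_inner_le_norm w y
  rw [hw, one_mul] at h2
  rw [mem_closedBall_zero_iff] at hy
  have h3 : ‖x - w‖ ^ 2 ≤ ρ ^ 2 := pow_le_pow_left₀ (norm_nonneg _) hxw 2
  linarith

lemma hull_sub_ball (hu : ∀ x ∈ S, ‖x‖ = 1) :
    convexHull ℝ (S : Set E) ⊆ Metric.closedBall (0 : E) 1 := by
  apply convexHull_min _ (convex_closedBall _ _)
  intro x hx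
  rw [mem_closedBall_zero_iff, hu x hx]

lemma norm_normalize {y : E} (hy : y ≠ 0) : ‖(‖y‖⁻¹ • y)‖ = 1 := by
  rw [norm_smul, norm_inv, norm_norm, inv_mul_cancel₀ (norm_ne_zero_iff.2 hy)]

lemma inr_normalize {y z : E} : inner ℝ z (‖y‖⁻¹ • y) = ‖y‖⁻¹ * inner ℝ z y :=
  real_inner_smul_right _ _ _

lemma mem_sect_iff {u y : E} (hu : ‖u‖ = 1) (hy : y ≠ 0) {t : ℝ} (ht : 0 ≤ t) :
    (1 - t ^ 2 / 2) * ‖y‖ < inner ℝ u y ↔ ‖(‖y‖⁻¹ • y) - u‖ < t := by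
  have hyn : 0 < ‖y‖ := norm_pos_iff.2 hy
  have h1 := inr_of_dist (norm_normalize hy) hu
  rw [inr_normalize] at h1
  have h2 : inner ℝ u y = ‖y‖ * (1 - ‖‖y‖⁻¹ • y - u‖ ^ 2 / 2) := by
    rw [← h1, ← mul_assoc, mul_inv_cancel₀ hyn.ne', one_mul]
  rw [h2, mul_comm, mul_lt_mul_iff_right₀ hyn]
  constructor
  · intro h
    exact lt_of_pow_lt_pow_left₀ 2 ht (by linarith)
  · intro h
    have := pow_lt_pow_left₀ h (norm_nonneg _) (by norm_num : 2 ≠ 0)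
    linarith

lemma vol_sect_t {u : E} (hu : ‖u‖ = 1) {t : ℝ} (ht1 : t ≤ 1) (ht0 : 0 ≤ t) :
    volume (sect u (1 - t ^ 2 / 2)) = ENNReal.ofReal (Real.pi * t ^ 2 / 3) := by
  rw [vol_sect hu (by nlinarith) (by nlinarith)]
  congr 1; ring

lemma sum_sect {A : Finset E} (hA : ∀ x ∈ A, ‖x‖ = 1) {ρ : ℝ} (h0 : 0 ≤ ρ) (h1 : ρ ≤ 1) :
    ∑ x ∈ A, volume (sect x (1 - ρ ^ 2 / 2)) = ENNReal.ofReal (A.card * (Real.pi * ρ ^ 2 / 3)) := by
  rw [Finset.sum_congr rfl (fun x hx => vol_sect_t (hA x hx) h1 h0), Finset.sum_const,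
    nsmul_eq_mul, ENNReal.ofReal_mul (by positivity), ENNReal.ofReal_natCast]

lemma cov_count {A : Finset E} (hA : ∀ x ∈ A, ‖x‖ = 1) {z : E} (hz : ‖z‖ = 1) {t ρ : ℝ}
    (ht0 : 0 ≤ t) (ht1 : t ≤ 1) (hρ0 : 0 ≤ ρ) (hρ1 : ρ ≤ 1)
    (h : ∀ u : E, ‖u‖ = 1 → ‖u - z‖ < t → ∃ x ∈ A, ‖u - x‖ < ρ) :
    t ^ 2 ≤ A.card * ρ ^ 2 := by
  have hsub : sect z (1 - t ^ 2 / 2) ⊆ ⋃ x ∈ A, sect x (1 - ρ ^ 2 / 2) := by
    rintro y ⟨hy1, hy2⟩
    have hy0 : y ≠ 0 := by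
      rintro rfl; simp at hy2
    rw [mem_sect_iff hz hy0 ht0] at hy2
    obtain ⟨x, hx, hxy⟩ := h _ (norm_normalize hy0) hy2
    simp only [Set.mem_iUnion]
    refine ⟨x, hx, hy1, ?_⟩
    rw [mem_sect_iff (hA x hx) hy0 hρ0]
    exact hxy
  have h1 := (measure_mono hsub).trans (measure_biUnion_finset_le (μ := volume) _ _)
  rw [vol_sect_t hz ht1 ht0, sum_sect hA hρ0 hρ1, ENNReal.ofReal_le_ofReal_iff (by positivity)] at h1
  have := Real.pi_pos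
  have h2 : Real.pi / 3 * t ^ 2 ≤ Real.pi / 3 * (A.card * ρ ^ 2) := by linarith
  exact le_of_mul_le_mul_left h2 (by positivity)

lemma cov_count_all {A : Finset E} (hA : ∀ x ∈ A, ‖x‖ = 1) {ρ : ℝ}
    (hρ0 : 0 ≤ ρ) (hρ1 : ρ ≤ 1)
    (h : ∀ u : E, ‖u‖ = 1 → ∃ x ∈ A, ‖u - x‖ < ρ) :
    4 ≤ A.card * ρ ^ 2 := by
  have hsub : Metric.closedBall (0:E) 1 \ {0} ⊆ ⋃ x ∈ A, sect x (1 - ρ ^ 2 / 2) := by
    rintro y ⟨hy1, hy2⟩
    have hy0 : y ≠ 0 := hy2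
    obtain ⟨x, hx, hxy⟩ := h _ (norm_normalize hy0)
    simp only [Set.mem_iUnion]
    refine ⟨x, hx, by simpa using hy1, ?_⟩
    rw [mem_sect_iff (hA x hx) hy0 hρ0]
    exact hxy
  have h1 := (measure_mono hsub).trans (measure_biUnion_finset_le (μ := volume) _ _)
  rw [sum_sect hA hρ0 hρ1, measure_sdiff_null (by simp), vol_ball,
    ENNReal.ofReal_le_ofReal_iff (by positivity)] at h1
  have := Real.pi_pos
  have h2 : Real.pi / 3 * 4 ≤ Real.pi / 3 * (A.card * ρ ^ 2) := by linarith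
  exact le_of_mul_le_mul_left h2 (by positivity)

/-- covering radius is attained -/
lemma cov_radius (S : Finset E) (hne : S.Nonempty) : ∃ ρ : ℝ, 0 ≤ ρ ∧ Cov S ρ ∧
    ∃ u : E, ‖u‖ = 1 ∧ ∀ x ∈ S, ρ ≤ ‖x - u‖ := by
  have hcomp : IsCompact (Metric.sphere (0:E) 1) := isCompact_sphere _ _
  have hne' : (Metric.sphere (0:E) 1).Nonempty := ⟨EuclideanSpace.single 0 1, by simp⟩
  obtain ⟨u, hu, hmax⟩ := hcomp.exists_isMaxOn hne'
    (Metric.continuous_infDist_pt (S : Set E)).continuousOn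
  refine ⟨Metric.infDist u (S : Set E), Metric.infDist_nonneg, ?_, u, by simpa using hu, ?_⟩
  · intro w hw
    have h1 : Metric.infDist w (S : Set E) ≤ Metric.infDist u (S : Set E) :=
      hmax (by simpa using hw)
    obtain ⟨x, hx, hxw⟩ := S.finite_toSet.isCompact.exists_infDist_eq_dist
      (by simpa using hne) w
    refine ⟨x, hx, ?_⟩
    rw [← dist_eq_norm, dist_comm, ← hxw]; exact h1
  · intro x hx
    rw [← dist_eq_norm, dist_comm]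
    exact Metric.infDist_le_dist_of_mem hx

lemma cov_mono {ρ ρ' : ℝ} (h : Cov S ρ) (hle : ρ ≤ ρ') : Cov S ρ' := by
  intro u hu
  obtain ⟨x, hx, hxu⟩ := h u hu
  exact ⟨x, hx, hxu.trans hle⟩

lemma exists_at_dist {v : E} (hv : ‖v‖ = 1) {r : ℝ} (hr0 : 0 ≤ r) (hr1 : r ≤ 1) :
    ∃ w : E, ‖w‖ = 1 ∧ ‖w - v‖ = r := by
  obtain ⟨e, f, he, hf, h1, h2, h3, hd⟩ := exists_frame hv
  set c := 1 - r ^ 2 / 2 with hc
  have hc0 : 0 ≤ 1 - c ^ 2 := by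
    have h5 : 1 - c ^ 2 = r ^ 2 * (1 - r ^ 2 / 4) := by rw [hc]; ring
    rw [h5]
    have h6 : r ^ 2 ≤ 1 := by nlinarith
    exact mul_nonneg (sq_nonneg _) (by linarith)
  refine ⟨psi v e f (c, Real.sqrt (1 - c ^ 2), 0), ?_, ?_⟩
  · have := nsq_psi_frame hv he hf h1 h2 h3 (c, Real.sqrt (1 - c ^ 2), 0)
    simp only [Real.sq_sqrt hc0] at this
    nlinarith [norm_nonneg (psi v e f (c, Real.sqrt (1 - c ^ 2), 0))]
  · have hn : ‖psi v e f (c, Real.sqrt (1 - c ^ 2), 0)‖ = 1 := by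
      have := nsq_psi_frame hv he hf h1 h2 h3 (c, Real.sqrt (1 - c ^ 2), 0)
      simp only [Real.sq_sqrt hc0] at this
      nlinarith [norm_nonneg (psi v e f (c, Real.sqrt (1 - c ^ 2), 0))]
    have h4 := inr_of_dist hn hv
    rw [inr_psi_frame hv h1 h2] at h4
    simp only at h4
    have h5 : ‖psi v e f (c, Real.sqrt (1 - c ^ 2), 0) - v‖ ^ 2 = r ^ 2 := by linarith
    exact (pow_left_inj₀ (norm_nonneg _) hr0 (by norm_num)).1 h5

lemma cov_erase {v : E} {ρ : ℝ} (hv : ‖v‖ = 1) (h : Cov S ρ) (hρ0 : 0 < ρ) (hρ1 : ρ ≤ 1 / 2) :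
    Cov (by classical exact S.erase v) (4 * ρ) := by
  classical
  intro u hu
  obtain ⟨x, hx, hxu⟩ := h u hu
  by_cases hxv : x = v
  · obtain ⟨w, hw, hwv⟩ := exists_at_dist hv (r := 2 * ρ) (by linarith) (by linarith)
    obtain ⟨z, hz, hzw⟩ := h w hw
    refine ⟨z, Finset.mem_erase.2 ⟨?_, hz⟩, ?_⟩
    · rintro rfl
      rw [norm_sub_rev] at hwv
      linarith
    · have e1 : z - u = (z - w) + (w - v) + (v - u) := by abel
      rw [e1]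
      have e2 := norm_add₃_le (a := z - w) (b := w - v) (c := v - u)
      rw [hxv] at hxu
      linarith
  · exact ⟨x, Finset.mem_erase.2 ⟨hxv, hx⟩, by linarith⟩

end Med
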