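import Pool.Agent.Helper946.M20
import Pool.Agent.Helper946.M9

set_option autoImplicit false

namespace Med

open MeasureTheory

variable {S : Finset E}

lemma cor_inj (hS : Cfg S) (K m : ℕ) (a b : ℤ) (i : ℕ) :
    Function.Injective (cor hS K m a b i) := by
  intro x y h
  unfold cor FD RegS.FF at h
  exact (Equiv.injective _) ((Equiv.injective _) h)

lemma averaging (hS : Cfg S) {n K m : ℕ} {η cM : ℝ}
    (hcM : ∀ B : Finset (Dart S), (∀ d ∈ B, ¬ GB hS n (4 * K + 9) η d) → (B.card : ℝ) ≤ cM)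
    (D0 : Finset (Dart S)) (hD0 : D0.Nonempty) (L : Finset (ℤ × ℤ)) :
    ∃ d ∈ D0, ∃ Bf : ℤ × ℤ → Finset ℕ, (∀ p, Bf p ⊆ Finset.range m) ∧
      (∀ p, ∀ i < m, i ∉ Bf p → GB hS n (4 * K + 9) η (cor hS K m p.1 p.2 i d)) ∧
      (D0.card : ℝ) * ∑ p ∈ L, ((Bf p).card : ℝ) ≤ L.card * m * cM := by
  classical
  set Bf : Dart S → ℤ × ℤ → Finset ℕ := fun d p =>
    (Finset.range m).filter (fun i => ¬ GB hS n (4 * K + 9) η (cor hS K m p.1 p.2 i d)) with hBf
  obtain ⟨d, hd, hmin⟩ := Finset.exists_min_image D0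
    (fun d => ∑ p ∈ L, ((Bf d p).card : ℝ)) hD0
  refine ⟨d, hd, Bf d, fun p => Finset.filter_subset _ _, ?_, ?_⟩
  · intro p i hi hiB
    by_contra hcon
    exact hiB (Finset.mem_filter.2 ⟨Finset.mem_range.2 hi, hcon⟩)
  · have h1 : (D0.card : ℝ) * ∑ p ∈ L, ((Bf d p).card : ℝ)
        ≤ ∑ d' ∈ D0, ∑ p ∈ L, ((Bf d' p).card : ℝ) := by
      calc (D0.card : ℝ) * ∑ p ∈ L, ((Bf d p).card : ℝ)
          = ∑ _d' ∈ D0, ∑ p ∈ L, ((Bf d p).card : ℝ) := by
            rw [Finset.sum_const, nsmul_eq_mul]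
        _ ≤ _ := Finset.sum_le_sum hmin
    have h2 : ∑ d' ∈ D0, ∑ p ∈ L, ((Bf d' p).card : ℝ)
        = ∑ p ∈ L, ∑ i ∈ Finset.range m, ((D0.filter (fun d' =>
          ¬ GB hS n (4 * K + 9) η (cor hS K m p.1 p.2 i d'))).card : ℝ) := by
      rw [Finset.sum_comm]
      apply Finset.sum_congr rfl
      intro p _
      simp only [hBf, Finset.card_filter]
      push_cast
      rw [Finset.sum_comm]
    have h3 : ∀ p ∈ L, ∀ i ∈ Finset.range m, ((D0.filter (fun d' =>
          ¬ GB hS n (4 * K + 9) η (cor hS K m p.1 p.2 i d'))).card : ℝ) ≤ cM := by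
      intro p _ i _
      have := hcM ((D0.filter (fun d' =>
          ¬ GB hS n (4 * K + 9) η (cor hS K m p.1 p.2 i d'))).image (cor hS K m p.1 p.2 i)) (by
        intro y hy
        obtain ⟨x, hx, rfl⟩ := Finset.mem_image.1 hy
        exact (Finset.mem_filter.1 hx).2)
      rwa [Finset.card_image_of_injective _ (cor_inj hS K m p.1 p.2 i)] at this
    refine h1.trans (h2.le.trans ?_)
    calc ∑ p ∈ L, ∑ i ∈ Finset.range m, ((D0.filter (fun d' =>
          ¬ GB hS n (4 * K + 9) η (cor hS K m p.1 p.2 i d'))).card : ℝ)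
        ≤ ∑ p ∈ L, ∑ i ∈ Finset.range m, cM :=
          Finset.sum_le_sum fun p hp => Finset.sum_le_sum fun i hi => h3 p hp i hi
      _ = L.card * m * cM := by
          rw [Finset.sum_const, Finset.sum_const, Finset.card_range, nsmul_eq_mul, nsmul_eq_mul]
          ring

/-- Markov step -/
lemma markov (L : Finset (ℤ × ℤ)) (f : ℤ × ℤ → ℝ) (hf : ∀ p ∈ L, 0 ≤ f p) {e c : ℝ} (he : 0 < e)
    (h : ∑ p ∈ L, f p ≤ c) : ((L.filter (fun p => e < f p)).card : ℝ) * e ≤ c := by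
  calc ((L.filter (fun p => e < f p)).card : ℝ) * e = ∑ p ∈ L.filter (fun p => e < f p), e := by
        rw [Finset.sum_const, nsmul_eq_mul]
    _ ≤ ∑ p ∈ L.filter (fun p => e < f p), f p :=
        Finset.sum_le_sum fun p hp => (Finset.mem_filter.1 hp).2.le
    _ ≤ ∑ p ∈ L, f p := Finset.sum_le_sum_of_subset_of_nonneg (Finset.filter_subset _ _)
        fun p hp _ => hf p hp
    _ ≤ c := h

/-! upper count -/

lemma OC_sub_sect {a b c v : E} (ha : ‖a‖ = 1) (hb : ‖b‖ = 1) (hc : ‖c‖ = 1) (hv : ‖v‖ = 1)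
    (hd : 0 < dt a b c) {s T : ℝ} (hs0 : 0 ≤ s) (hsT : s < T) (h1 : ‖a - v‖ ≤ s) (h2 : ‖b - v‖ ≤ s)
    (h3 : ‖c - v‖ ≤ s) (hs1 : s ≤ 1) :
    OC a b c ∩ Metric.closedBall 0 1 ⊆ sect v (1 - T ^ 2 / 2) := by
  rintro y ⟨⟨l1, l2, l3⟩, hy⟩
  rw [mem_closedBall_zero_iff] at hy
  refine ⟨hy, ?_⟩
  have e := basis_exp a b c y
  set D := dt a b c
  set p := dt b c y
  set q := dt c a y
  set r := dt a b y
  have hy0 : y ≠ 0 := by
    rintro rfl
    have : p = 0 := by show dt b c 0 = 0; simp [dt]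
    linarith
  have hyn : 0 < ‖y‖ := norm_pos_iff.2 hy0
  have i1 : 1 - s ^ 2 / 2 ≤ inner ℝ v a := by
    rw [inr_of_dist ha hv]
    have := pow_le_pow_left₀ (norm_nonneg _) h1 2
    linarith
  have i2 : 1 - s ^ 2 / 2 ≤ inner ℝ v b := by
    rw [inr_of_dist hb hv]
    have := pow_le_pow_left₀ (norm_nonneg _) h2 2
    linarith
  have i3 : 1 - s ^ 2 / 2 ≤ inner ℝ v c := by
    rw [inr_of_dist hc hv]
    have := pow_le_pow_left₀ (norm_nonneg _) h3 2
    linarith
  have n1 : D * ‖y‖ ≤ p + q + r := by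
    have : ‖D • y‖ ≤ p + q + r := by
      rw [e]
      refine (norm_add₃_le).trans ?_
      rw [norm_smul, norm_smul, norm_smul, ha, hb, hc, Real.norm_eq_abs, Real.norm_eq_abs,
        Real.norm_eq_abs, abs_of_pos l1, abs_of_pos l2, abs_of_pos l3]
      linarith
    rwa [norm_smul, Real.norm_eq_abs, abs_of_pos hd] at this
  have n2 : D * inner ℝ v y = p * inner ℝ v a + q * inner ℝ v b + r * inner ℝ v c := by
    rw [← real_inner_smul_right, e, inner_add_right, inner_add_right, real_inner_smul_right,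
      real_inner_smul_right, real_inner_smul_right]
  have hsp : 0 ≤ 1 - s ^ 2 / 2 := by
    have := pow_le_pow_left₀ hs0 hs1 2
    linarith
  have n3 : (1 - s ^ 2 / 2) * (D * ‖y‖) ≤ D * inner ℝ v y := by
    rw [n2]
    calc (1 - s ^ 2 / 2) * (D * ‖y‖) ≤ (1 - s ^ 2 / 2) * (p + q + r) :=
          mul_le_mul_of_nonneg_left n1 hsp
      _ = p * (1 - s ^ 2 / 2) + q * (1 - s ^ 2 / 2) + r * (1 - s ^ 2 / 2) := by ring
      _ ≤ _ := add_le_add (add_le_add (mul_le_mul_of_nonneg_left i1 l1.le)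
          (mul_le_mul_of_nonneg_left i2 l2.le)) (mul_le_mul_of_nonneg_left i3 l3.le)
  have n4 : (1 - s ^ 2 / 2) * ‖y‖ ≤ inner ℝ v y := by
    have : D * ((1 - s ^ 2 / 2) * ‖y‖) ≤ D * inner ℝ v y := by linarith
    exact le_of_mul_le_mul_left this hd
  have n5 : s ^ 2 < T ^ 2 := pow_lt_pow_left₀ hsT hs0 (by norm_num)
  have n6 : (1 - T ^ 2 / 2) * ‖y‖ < (1 - s ^ 2 / 2) * ‖y‖ :=
    mul_lt_mul_of_pos_right (by linarith) hyn
  linarith

lemma sum_mid_sect (hS : Cfg S) {ℓ : E} {n : ℕ} (hn : 0 < n) {η : ℝ} (hη : η < 1) {v : E}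
    (hv : ‖v‖ = 1) {s T : ℝ} (hs0 : 0 ≤ s) (hsT : s < T) (hT : T ≤ 1) (P : Finset (Dart S))
    (hP : P ⊆ mids hS ℓ) (hgood : ∀ d ∈ P, GoodD hS n η d)
    (hnear : ∀ d ∈ P, ‖d.tl - v‖ ≤ s ∧ ‖d.hd - v‖ ≤ s ∧ ‖(sg hS d).hd - v‖ ≤ s) :
    (P.card : ℝ) ≤ n * T ^ 2 / (2 * (1 - η)) := by
  classical
  have hnr : (0:ℝ) < n := by exact_mod_cast hn
  have h1 : ENNReal.ofReal (P.card * ((1 - η) * (2 * Real.pi / (3 * n)))) ≤
      volume (sect v (1 - T ^ 2 / 2)) := by
    calc ENNReal.ofReal (P.card * ((1 - η) * (2 * Real.pi / (3 * n))))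
        = ∑ d ∈ P, ENNReal.ofReal ((1 - η) * (2 * Real.pi / (3 * n))) := by
          rw [Finset.sum_const, nsmul_eq_mul, ENNReal.ofReal_mul (by positivity),
            ENNReal.ofReal_natCast]
      _ ≤ ∑ d ∈ P, volume (OC d.tl d.hd (sg hS d).hd ∩ Metric.closedBall 0 1) := by
          apply Finset.sum_le_sum
          intro d hd
          have h := sg_fct hS d
          refine le_trans (ENNReal.ofReal_le_ofReal ?_)
            (cone_lower (hS.unit _ h.1) (hS.unit _ h.2.1) (hS.unit _ h.2.2.1) h.2.2.2.1)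
          have h4 := (hgood d hd).2.2.2
          refine h4.trans ?_
          have h5 := dD_pos hS d
          unfold dD at h5 ⊢
          have h6 : 0 ≤ (‖d.tl - d.hd‖ ^ 2 + ‖d.tl - (sg hS d).hd‖ ^ 2
            + ‖d.hd - (sg hS d).hd‖ ^ 2) / 48 := by positivity
          have h7 := mul_nonneg h5.le h6
          linarith
      _ = volume (⋃ d ∈ P, (OC d.tl d.hd (sg hS d).hd ∩ Metric.closedBall 0 1)) := by
          rw [measure_biUnion_finset]
          · intro d hd d' hd' hne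
            show Disjoint _ _
            rw [Set.disjoint_left]
            rintro x ⟨hx, _⟩ ⟨hx', _⟩
            exact hne (OC_disj hS (hP hd) (hP hd') hx hx')
          · intro d _
            exact (OC_meas _ _ _).inter measurableSet_closedBall
      _ ≤ _ := measure_mono (by
          intro x hx
          simp only [Set.mem_iUnion] at hx
          obtain ⟨d, hd, hx⟩ := hx
          have h := sg_fct hS d
          obtain ⟨q1, q2, q3⟩ := hnear d hd
          exact OC_sub_sect (hS.unit _ h.1) (hS.unit _ h.2.1) (hS.unit _ h.2.2.1) hv h.2.2.2.1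
            hs0 hsT q1 q2 q3 (hsT.le.trans hT) hx)
  rw [vol_sect_t hv hT (hs0.trans hsT.le), ENNReal.ofReal_le_ofReal_iff (by positivity)] at h1
  have hη' : 0 < 1 - η := by linarith
  rw [le_div_iff₀ (by positivity)]
  have hpi := Real.pi_pos
  have h2 : (P.card : ℝ) * ((1 - η) * (2 * Real.pi / (3 * n)))
      = (P.card * (2 * (1 - η))) * (Real.pi / (3 * n)) := by ring
  have h3 : Real.pi * T ^ 2 / 3 = (n * T ^ 2) * (Real.pi / (3 * n)) := by field_simp
  rw [h2, h3] at h1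
  exact le_of_mul_le_mul_right h1 (by positivity)

lemma upper_count (hS : Cfg S) {ℓ : E}
    (hℓ : ∀ x ∈ S, ∀ y ∈ S, x ≠ y → inner ℝ ℓ x ≠ inner ℝ ℓ y) {n : ℕ} (hn : 0 < n) {η : ℝ}
    (hη : η < 1) {cB : ℝ}
    (hcB : ∀ B : Finset (Dart S), (∀ d ∈ B, ¬ GoodD hS n η d) → (B.card : ℝ) ≤ cB)
    {v : E} (hv : ‖v‖ = 1) {t l : ℝ} (ht0 : 0 ≤ t) (hl0 : 0 < l) (hT : t + 2 * l ≤ 1)
    (hedge : ∀ a b, Edg S a b → ‖a - b‖ ≤ l) (A : Finset E) (hAS : A ⊆ S)
    (hA : ∀ x ∈ A, ‖x - v‖ ≤ t ∧ dcard S x = 6) :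
    6 * (A.card : ℝ) ≤ 3 * (n * (t + 2 * l) ^ 2 / (2 * (1 - η))) + cB := by
  classical
  set τ : Equiv.Perm (Dart S) := rh S * sg hS with hτ
  have hτ3 : ∀ x, τ (τ (τ x)) = x := rel3 hS
  set DA := Finset.univ.filter (fun d : Dart S => d.tl ∈ A) with hDA
  have hDAc : DA.card = 6 * A.card := by
    have h1 : DA.card = ∑ v ∈ A, (DA.filter (fun d => d.tl = v)).card := by
      rw [Finset.card_eq_sum_card_fiberwise (f := Dart.tl) (t := A)]
      intro d hd
      simp only [hDA, Finset.coe_filter, Finset.mem_univ, true_and] at hd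
      exact hd
    rw [h1]
    have h2 : ∀ v ∈ A, (DA.filter (fun d => d.tl = v)).card = 6 := by
      intro v hv
      rw [← (hA v hv).2, dcard]
      congr 1
      ext d
      simp only [hDA, Finset.mem_filter, Finset.mem_univ, true_and]
      constructor
      · exact fun h => h.2
      · rintro rfl; exact ⟨hv, rfl⟩
    rw [Finset.sum_congr rfl h2, Finset.sum_const, smul_eq_mul, mul_comm]
  set Bd := DA.filter (fun d => ¬ GoodD hS n η d) with hBd
  have hBdc := hcB Bd (by intro d hd; exact (Finset.mem_filter.1 hd).2)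
  set Q0 : Dart S → Prop := fun y => mid hS ℓ y ∧ GoodD hS n η y ∧ y.tl ∈ A with hQ0
  set Q1 : Dart S → Prop := fun y => mid hS ℓ y ∧ GoodD hS n η y ∧ (τ (τ y)).tl ∈ A with hQ1
  set Q2 : Dart S → Prop := fun y => mid hS ℓ y ∧ GoodD hS n η y ∧ (τ y).tl ∈ A with hQ2
  have hgr : ∀ d, GoodD hS n η d → GoodD hS n η (τ d) := by
    intro d hd
    have h1 : GoodD hS n η (τ (τ (τ d))) := by rw [hτ3]; exact hd
    exact good_rot hS _ (good_rot hS _ h1)
  have hsub : DA ⊆ Bd ∪ (Finset.univ.filter Q0 ∪ Finset.univ.filter (fun y => Q1 (τ y))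
      ∪ Finset.univ.filter (fun y => Q2 ((τ * τ) y))) := by
    intro d hd
    by_cases hg : GoodD hS n η d
    · have hdA : d.tl ∈ A := by simpa [hDA] using hd
      simp only [Finset.mem_union, Finset.mem_filter, Finset.mem_univ, true_and]
      right
      rcases exists_mid hS hℓ d with h4 | h4 | h4
      · exact Or.inl (Or.inl ⟨h4, hg, hdA⟩)
      · refine Or.inl (Or.inr ⟨h4, hgr d hg, ?_⟩)
        rw [hτ3]; exact hdA
      · refine Or.inr ⟨h4, hgr _ (hgr d hg), ?_⟩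
        show (τ (τ (τ d))).tl ∈ A
        rw [hτ3]; exact hdA
    · exact Finset.mem_union_left _ (Finset.mem_filter.2 ⟨hd, hg⟩)
  have hbound : ∀ Q : Dart S → Prop, (∀ y, Q y → mid hS ℓ y ∧ GoodD hS n η y ∧
      (y.tl ∈ A ∨ y.hd ∈ A ∨ (sg hS y).hd ∈ A)) → ((Finset.univ.filter Q).card : ℝ) ≤
        n * (t + 2 * l) ^ 2 / (2 * (1 - η)) := by
    intro Q hQ
    apply sum_mid_sect hS (ℓ := ℓ) hn hη hv (s := t + l) (by positivity) (by linarith) hT
    · intro y hy
      rw [mids, Finset.mem_filter]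
      exact ⟨Finset.mem_univ _, (hQ y (by simpa using hy)).1⟩
    · intro y hy
      exact (hQ y (by simpa using hy)).2.1
    · intro y hy
      have h := sg_fct hS y
      have d1 := hedge _ _ h.edg
      have d2 := hedge _ _ h.rot.edg
      have d3 := hedge _ _ h.rot.rot.edg
      have tri : ∀ p q : E, ‖p - v‖ ≤ t → ‖p - q‖ ≤ l → ‖q - v‖ ≤ t + l := by
        intro p q h1 h2
        have e : q - v = (p - v) - (p - q) := by abel
        rw [e]; exact (norm_sub_le _ _).trans (add_le_add h1 h2)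
      rcases (hQ y (by simpa using hy)).2.2 with h0 | h0 | h0
      · have h1 := (hA _ h0).1
        exact ⟨by linarith, tri _ _ h1 d1, tri _ _ h1 (by rw [norm_sub_rev]; exact d3)⟩
      · have h1 := (hA _ h0).1
        exact ⟨tri _ _ h1 (by rw [norm_sub_rev]; exact d1), by linarith, tri _ _ h1 d2⟩
      · have h1 := (hA _ h0).1
        exact ⟨tri _ _ h1 d3, tri _ _ h1 (by rw [norm_sub_rev]; exact d2), by linarith⟩
  have b0 := hbound Q0 (by rintro y ⟨h1, h2, h3⟩; exact ⟨h1, h2, Or.inl h3⟩)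
  have b1 := hbound Q1 (by
    rintro y ⟨h1, h2, h3⟩
    refine ⟨h1, h2, Or.inr (Or.inl ?_)⟩
    have : (τ (τ y)).tl = y.hd := by
      show (rh S (sg hS (rh S (sg hS y)))).tl = y.hd
      rw [rh_tl, tau_next1]
    rw [← this]; exact h3)
  have b2 := hbound Q2 (by
    rintro y ⟨h1, h2, h3⟩
    exact ⟨h1, h2, Or.inr (Or.inr h3)⟩)
  have hc1 := card_perm_filter τ Q1
  have hc2 := card_perm_filter (τ * τ) Q2
  have hcard := Finset.card_le_card hsub
  have hcard2 : DA.card ≤ Bd.card + ((Finset.univ.filter Q0).card + (Finset.univ.filter Q1).card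
      + (Finset.univ.filter Q2).card) := by
    refine hcard.trans ((Finset.card_union_le _ _).trans ?_)
    apply Nat.add_le_add_left
    refine (Finset.card_union_le _ _).trans ?_
    rw [hc2]
    apply Nat.add_le_add_right
    refine (Finset.card_union_le _ _).trans ?_
    rw [hc1]
  rw [hDAc] at hcard2
  have hr : (6:ℝ) * A.card ≤ Bd.card + ((Finset.univ.filter Q0).card
      + (Finset.univ.filter Q1).card + (Finset.univ.filter Q2).card) := by exact_mod_cast hcard2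
  have b0' : ((Finset.univ.filter Q0).card : ℝ) ≤ n * (t + 2 * l) ^ 2 / (2 * (1 - η)) := by
    convert b0
  have b1' : ((Finset.univ.filter Q1).card : ℝ) ≤ n * (t + 2 * l) ^ 2 / (2 * (1 - η)) := by
    convert b1
  have b2' : ((Finset.univ.filter Q2).card : ℝ) ≤ n * (t + 2 * l) ^ 2 / (2 * (1 - η)) := by
    convert b2
  have hBdc' : (Bd.card : ℝ) ≤ cB := hBdc
  set N0 := ((Finset.univ.filter Q0).card : ℝ)
  set N1 := ((Finset.univ.filter Q1).card : ℝ)
  set N2 := ((Finset.univ.filter Q2).card : ℝ)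
  set Z := n * (t + 2 * l) ^ 2 / (2 * (1 - η))
  linarith

end Med
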