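import Pool.Agent.Helper946.M5
import Pool.Agent.Helper946.M1

set_option autoImplicit false

namespace Med

open MeasureTheory

lemma exists_frame {u : E} (hu : ‖u‖ = 1) : ∃ e f : E, ‖e‖ = 1 ∧ ‖f‖ = 1 ∧ inner ℝ u e = 0 ∧
    inner ℝ u f = 0 ∧ inner ℝ e f = 0 ∧ dt u e f = 1 := by
  obtain ⟨m, hm, hmu⟩ := exists_perp u
  have hmn : ‖m‖ ≠ 0 := norm_ne_zero_iff.2 hm
  have he : ‖(‖m‖⁻¹ • m)‖ = 1 := by
    rw [norm_smul, norm_inv, norm_norm, inv_mul_cancel₀ hmn]
  have hue : inner ℝ u (‖m‖⁻¹ • m) = 0 := by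
    rw [real_inner_smul_right, real_inner_comm, hmu, mul_zero]
  have hf2 : ‖crs u (‖m‖⁻¹ • m)‖ ^ 2 = 1 := by
    rw [crs_sq, he, hu, hue]; norm_num
  have hf : ‖crs u (‖m‖⁻¹ • m)‖ = 1 := by
    nlinarith [norm_nonneg (crs u (‖m‖⁻¹ • m))]
  refine ⟨‖m‖⁻¹ • m, crs u (‖m‖⁻¹ • m), he, hf, hue, ?_, ?_, ?_⟩
  · rw [crs_inr]; simp [dt]; ring
  · rw [crs_inr]; simp [dt]; ring
  · rw [← inr_crs, real_inner_self_eq_norm_sq, hf2]

lemma nsq_psi_frame {u e f : E} (hu : ‖u‖ = 1) (he : ‖e‖ = 1) (hf : ‖f‖ = 1)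
    (h1 : inner ℝ u e = 0) (h2 : inner ℝ u f = 0) (h3 : inner ℝ e f = 0) (p : ℝ × ℝ × ℝ) :
    ‖psi u e f p‖ ^ 2 = p.1 ^ 2 + p.2.1 ^ 2 + p.2.2 ^ 2 := by
  rw [← real_inner_self_eq_norm_sq]
  simp only [psi, inner_add_left, inner_add_right, real_inner_smul_left, real_inner_smul_right,
    real_inner_self_eq_norm_sq, h1, h2, h3, real_inner_comm u e, real_inner_comm u f,
    real_inner_comm e f]
  simp only [norm_smul, hu, he, hf, Real.norm_eq_abs, mul_one, sq_abs]
  ring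

lemma inr_psi_frame {u e f : E} (hu : ‖u‖ = 1)
    (h1 : inner ℝ u e = 0) (h2 : inner ℝ u f = 0) (p : ℝ × ℝ × ℝ) :
    inner ℝ u (psi u e f p) = p.1 := by
  simp only [psi, inner_add_right, real_inner_smul_right, real_inner_self_eq_norm_sq, hu, h1, h2]
  ring

lemma vol_disc_lt {r : ℝ} (hr : 0 ≤ r) :
    volume {q : ℝ × ℝ | q.1 ^ 2 + q.2 ^ 2 < r} = ENNReal.ofReal (Real.pi * r) := by
  have h1 := Complex.volume_preserving_equiv_real_prod.measure_preimage_equiv
    {q : ℝ × ℝ | q.1 ^ 2 + q.2 ^ 2 < r}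
  rw [← h1]
  have h2 : (⇑Complex.measurableEquivRealProd ⁻¹' {q : ℝ × ℝ | q.1 ^ 2 + q.2 ^ 2 < r})
      = Metric.ball (0:ℂ) (Real.sqrt r) := by
    ext z
    simp only [Set.mem_preimage, Set.mem_ofPred_eq, mem_ball_zero_iff,
      Complex.measurableEquivRealProd_apply]
    rw [Real.lt_sqrt (norm_nonneg z), Complex.sq_norm, Complex.normSq_apply]
    constructor <;> intro h <;> nlinarith
  rw [h2, Complex.volume_ball, ← ENNReal.ofReal_pow (Real.sqrt_nonneg r), Real.sq_sqrt hr,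
    mul_comm Real.pi r, ENNReal.ofReal_mul hr]
  congr 1
  rw [← NNReal.coe_real_pi, ENNReal.ofReal_coe_nnreal]

lemma vol_disc_le {r : ℝ} (hr : 0 ≤ r) :
    volume {q : ℝ × ℝ | q.1 ^ 2 + q.2 ^ 2 ≤ r} = ENNReal.ofReal (Real.pi * r) := by
  have h1 := Complex.volume_preserving_equiv_real_prod.measure_preimage_equiv
    {q : ℝ × ℝ | q.1 ^ 2 + q.2 ^ 2 ≤ r}
  rw [← h1]
  have h2 : (⇑Complex.measurableEquivRealProd ⁻¹' {q : ℝ × ℝ | q.1 ^ 2 + q.2 ^ 2 ≤ r})
      = Metric.closedBall (0:ℂ) (Real.sqrt r) := by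
    ext z
    simp only [Set.mem_preimage, Set.mem_ofPred_eq, mem_closedBall_zero_iff,
      Complex.measurableEquivRealProd_apply]
    rw [Real.le_sqrt (norm_nonneg z) hr, Complex.sq_norm, Complex.normSq_apply]
    constructor <;> intro h <;> nlinarith
  rw [h2, Complex.volume_closedBall, ← ENNReal.ofReal_pow (Real.sqrt_nonneg r), Real.sq_sqrt hr,
    mul_comm Real.pi r, ENNReal.ofReal_mul hr]
  congr 1
  rw [← NNReal.coe_real_pi, ENNReal.ofReal_coe_nnreal]

def sect (u : E) (c : ℝ) : Set E := {y | ‖y‖ ≤ 1 ∧ c * ‖y‖ < inner ℝ u y}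

lemma sect_meas (u : E) (c : ℝ) : MeasurableSet (sect u c) := by
  unfold sect
  apply MeasurableSet.inter
  · exact measurableSet_le measurable_norm measurable_const
  · have : Continuous (fun y : E => inner ℝ u y) := by fun_prop
    exact measurableSet_lt (measurable_const.mul measurable_norm) this.measurable

lemma vol_sect {u : E} (hu : ‖u‖ = 1) {c : ℝ} (hc0 : 0 < c) (hc1 : c ≤ 1) :
    volume (sect u c) = ENNReal.ofReal (2 * Real.pi / 3 * (1 - c)) := by
  obtain ⟨e, f, he, hf, h1, h2, h3, hd⟩ := exists_frame hu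
  rw [psi_vol (u := u) (e := e) (f := f) (by rw [hd]; exact one_ne_zero) (sect_meas u c), hd]
  rw [abs_one, ENNReal.ofReal_one, one_mul, slices ((psi_meas _ _ _) (sect_meas u c))]
  have hmem : ∀ s : ℝ, ∀ q : ℝ × ℝ, (s, q) ∈ psi u e f ⁻¹' sect u c ↔
      s ^ 2 + (q.1 ^ 2 + q.2 ^ 2) ≤ 1 ∧ 0 < s ∧ c ^ 2 * (s ^ 2 + (q.1 ^ 2 + q.2 ^ 2)) < s ^ 2 := by
    intro s q
    simp only [sect, Set.mem_preimage, Set.mem_ofPred_eq, inr_psi_frame hu h1 h2]
    have hn := nsq_psi_frame hu he hf h1 h2 h3 (s, q)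
    simp only at hn
    have hn0 := norm_nonneg (psi u e f (s, q))
    rw [← add_assoc, ← hn]
    constructor
    · rintro ⟨a1, a2⟩
      have hs : 0 < s := lt_of_le_of_lt (by positivity) a2
      refine ⟨by nlinarith, hs, ?_⟩
      rw [← mul_pow]
      exact pow_lt_pow_left₀ a2 (by positivity) (by norm_num)
    · rintro ⟨a1, a2, a3⟩
      refine ⟨by nlinarith, ?_⟩
      rw [← mul_pow] at a3
      exact lt_of_pow_lt_pow_left₀ 2 a2.le a3
  have hae : ∀ᵐ x : ℝ, x ≠ 0 ∧ x ≠ 1 ∧ x ≠ c := by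
    have h1 : ∀ᵐ x : ℝ, x ≠ 0 := by
      rw [ae_iff]; simp
    have h2 : ∀ᵐ x : ℝ, x ≠ 1 := by
      rw [ae_iff]; simp
    have h3 : ∀ᵐ x : ℝ, x ≠ c := by
      rw [ae_iff]; simp
    filter_upwards [h1, h2, h3] with x a b d using ⟨a, b, d⟩
  have hc2 : 0 ≤ 1 / c ^ 2 - 1 := by
    rw [sub_nonneg, le_div_iff₀ (by positivity)]; nlinarith
  have hint : ∫⁻ s : ℝ, volume {q : ℝ × ℝ | (s, q) ∈ psi u e f ⁻¹' sect u c}
      = ∫⁻ s : ℝ, ((Set.Ioo 0 c).indicator
          (fun s => ENNReal.ofReal (Real.pi * (s ^ 2 * (1 / c ^ 2 - 1)))) s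
        + (Set.Ioo c 1).indicator (fun s => ENNReal.ofReal (Real.pi * (1 - s ^ 2))) s) := by
    apply lintegral_congr_ae
    filter_upwards [hae] with s hs
    simp only [hmem]
    by_cases a1 : s ∈ Set.Ioo 0 c
    · have a2 : s ∉ Set.Ioo c 1 := fun h => by linarith [a1.2, h.1]
      rw [Set.indicator_of_mem a1, Set.indicator_of_notMem a2, add_zero, ← vol_disc_lt (by positivity)]
      congr 1
      ext q
      simp only [Set.mem_ofPred_eq]
      have hs0 := a1.1
      have hsc := a1.2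
      have e1 : c ^ 2 * (s ^ 2 + (q.1 ^ 2 + q.2 ^ 2)) < s ^ 2 ↔
          q.1 ^ 2 + q.2 ^ 2 < s ^ 2 * (1 / c ^ 2 - 1) := by
        rw [show s ^ 2 * (1 / c ^ 2 - 1) = (s ^ 2 - c ^ 2 * s ^ 2) / c ^ 2 by field_simp,
          lt_div_iff₀ (by positivity)]
        constructor <;> intro h <;> nlinarith
      rw [e1]
      constructor
      · exact fun h => h.2.2
      · intro h
        refine ⟨?_, hs0, h⟩
        have : s ^ 2 * (1 / c ^ 2) ≤ 1 := by
          rw [mul_one_div, div_le_one (by positivity)]; nlinarith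
        nlinarith
    · rw [Set.indicator_of_notMem a1, zero_add]
      by_cases a2 : s ∈ Set.Ioo c 1
      · rw [Set.indicator_of_mem a2, ← vol_disc_le (by nlinarith [a2.1, a2.2])]
        congr 1
        ext q
        simp only [Set.mem_ofPred_eq]
        have hs0 := a2.1
        constructor
        · intro h; linarith [h.1]
        · intro h
          refine ⟨by linarith, by linarith, ?_⟩
          have : c ^ 2 < s ^ 2 := by nlinarith
          nlinarith [sq_nonneg q.1, sq_nonneg q.2]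
      · rw [Set.indicator_of_notMem a2]
        have : {q : ℝ × ℝ | s ^ 2 + (q.1 ^ 2 + q.2 ^ 2) ≤ 1 ∧ 0 < s ∧
            c ^ 2 * (s ^ 2 + (q.1 ^ 2 + q.2 ^ 2)) < s ^ 2} = ∅ := by
          ext q
          simp only [Set.mem_ofPred_eq, Set.mem_empty_iff_false, iff_false]
          rintro ⟨b1, b2, b3⟩
          have b4 : s < 1 := by
            have : s ≤ 1 := by nlinarith [sq_nonneg q.1, sq_nonneg q.2]
            exact lt_of_le_of_ne this hs.2.1
          rcases lt_or_gt_of_ne hs.2.2 with h | h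
          · exact a1 ⟨b2, h⟩
          · exact a2 ⟨h, b4⟩
        rw [this]; simp
  rw [hint, lintegral_add_left, lintegral_indicator measurableSet_Ioo,
    lintegral_indicator measurableSet_Ioo, lint_Ioo hc0.le (by fun_prop)
      (fun x _ => by positivity), lint_Ioo hc1 (by fun_prop)
      (fun x hx => by
        have := hx.1; have := hx.2
        have : 0 ≤ 1 - x ^ 2 := by nlinarith
        positivity), ← ENNReal.ofReal_add]
  · congr 1
    have i1 : ∫ x in (0:ℝ)..c, Real.pi * (x ^ 2 * (1 / c ^ 2 - 1))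
        = Real.pi * (1 / c ^ 2 - 1) * (c ^ 3 / 3) := by
      rw [intervalIntegral.integral_const_mul, intervalIntegral.integral_mul_const, integral_pow]
      norm_num; ring
    have i2 : ∫ x in c..(1:ℝ), Real.pi * (1 - x ^ 2) = Real.pi * ((1 - c) - (1 - c ^ 3) / 3) := by
      rw [intervalIntegral.integral_const_mul, intervalIntegral.integral_sub
        (by simp) (Continuous.intervalIntegrable (by fun_prop) _ _), integral_pow]
      norm_num
    rw [i1, i2]
    field_simp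
    ring
  · apply intervalIntegral.integral_nonneg hc0.le
    intro x _; positivity
  · apply intervalIntegral.integral_nonneg hc1
    intro x hx
    have := hx.1; have := hx.2
    have : 0 ≤ 1 - x ^ 2 := by nlinarith
    positivity
  · apply Measurable.indicator _ measurableSet_Ioo
    fun_prop

end Med
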