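import Pool.Agent.Helper946.M20
import Pool.Agent.Helper946.M6

set_option autoImplicit false

namespace Med

open MeasureTheory

noncomputable def LD (R : ℝ) : Finset (ℤ × ℤ) :=
  (Finset.Icc (-⌈2 * R⌉) ⌈2 * R⌉ ×ˢ Finset.Icc (-⌈2 * R⌉) ⌈2 * R⌉).filter
    (fun p => ‖Lm (p.1 : ℝ) (p.2 : ℝ)‖ ≤ R)

lemma mem_LD {R : ℝ} (hR : 0 ≤ R) (p : ℤ × ℤ) : p ∈ LD R ↔ ‖Lm (p.1 : ℝ) (p.2 : ℝ)‖ ≤ R := by
  unfold LD
  rw [Finset.mem_filter]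
  constructor
  · exact fun h => h.2
  · intro h
    refine ⟨?_, h⟩
    obtain ⟨h1, h2⟩ := Lm_coord hR h
    rw [abs_le] at h1 h2
    have h3 := Int.le_ceil (2 * R)
    simp only [Finset.mem_product, Finset.mem_Icc]
    refine ⟨⟨?_, ?_⟩, ?_, ?_⟩
    · have : -(⌈2 * R⌉ : ℝ) ≤ p.1 := by linarith
      exact_mod_cast this
    · have : (p.1 : ℝ) ≤ ⌈2 * R⌉ := by linarith
      exact_mod_cast this
    · have : -(⌈2 * R⌉ : ℝ) ≤ p.2 := by linarith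
      exact_mod_cast this
    · have : (p.2 : ℝ) ≤ ⌈2 * R⌉ := by linarith
      exact_mod_cast this

lemma vol_ell {r : ℝ} (hr : 0 ≤ r) :
    volume {q : ℝ × ℝ | ‖Lm q.1 q.2‖ ≤ r} = ENNReal.ofReal (2 * Real.pi / Real.sqrt 3 * r ^ 2) := by
  have s3 : Real.sqrt 3 ^ 2 = 3 := Real.sq_sqrt (by norm_num)
  have hs : 0 < Real.sqrt 3 := Real.sqrt_pos.2 (by norm_num)
  set M : Matrix (Fin 2) (Fin 2) ℝ := !![1, 1 / 2; 0, Real.sqrt 3 / 2] with hM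
  have hdet : LinearMap.det (Matrix.toLin' M) = Real.sqrt 3 / 2 := by
    rw [LinearMap.det_toLin', Matrix.det_fin_two]; simp [hM]
  have hmp := volume_preserving_finTwoArrow ℝ
  have h1 : {q : ℝ × ℝ | ‖Lm q.1 q.2‖ ≤ r} = {q : ℝ × ℝ | q.1 ^ 2 + q.1 * q.2 + q.2 ^ 2 ≤ r ^ 2} := by
    ext q
    simp only [Set.mem_ofPred_eq]
    rw [← Lm_sq, pow_le_pow_iff_left₀ (norm_nonneg _) hr (by norm_num)]
  have h2 : (⇑(MeasurableEquiv.finTwoArrow (α := ℝ)) ⁻¹'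
      {q : ℝ × ℝ | q.1 ^ 2 + q.1 * q.2 + q.2 ^ 2 ≤ r ^ 2})
      = (Matrix.toLin' M) ⁻¹' (⇑(MeasurableEquiv.finTwoArrow (α := ℝ)) ⁻¹'
        {q : ℝ × ℝ | q.1 ^ 2 + q.2 ^ 2 ≤ r ^ 2}) := by
    ext v
    simp only [Set.mem_preimage, Set.mem_ofPred_eq, MeasurableEquiv.finTwoArrow_apply,
      Matrix.toLin'_apply, hM, Matrix.mulVec, dotProduct, Fin.sum_univ_two]
    simp only [Matrix.of_apply, Matrix.cons_val_zero, Matrix.cons_val_one]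
    have : (1 * v 0 + 1 / 2 * v 1) ^ 2 + (0 * v 0 + Real.sqrt 3 / 2 * v 1) ^ 2
      = v 0 ^ 2 + v 0 * v 1 + v 1 ^ 2 := by linear_combination (v 1 ^ 2 / 4) * s3
    rw [this]
  have h3 := hmp.measure_preimage_equiv {q : ℝ × ℝ | q.1 ^ 2 + q.1 * q.2 + q.2 ^ 2 ≤ r ^ 2}
  have h4 := hmp.measure_preimage_equiv {q : ℝ × ℝ | q.1 ^ 2 + q.2 ^ 2 ≤ r ^ 2}
  rw [h1, ← h3, h2, Measure.addHaar_preimage_linearMap volume (by rw [hdet]; positivity), hdet, h4,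
    vol_disc_le (by positivity), ← ENNReal.ofReal_mul (abs_nonneg _)]
  congr 1
  rw [abs_of_pos (by positivity)]
  field_simp

lemma LD_card {R : ℝ} (hR : 2 ≤ R) :
    2 * Real.pi / Real.sqrt 3 * (R - 2) ^ 2 ≤ (LD R).card := by
  have hsub : {q : ℝ × ℝ | ‖Lm q.1 q.2‖ ≤ R - 2} ⊆
      ⋃ p ∈ LD R, (Set.Ico (p.1 : ℝ) (p.1 + 1) ×ˢ Set.Ico (p.2 : ℝ) (p.2 + 1)) := by
    intro q hq
    simp only [Set.mem_ofPred_eq] at hq
    simp only [Set.mem_iUnion]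
    have f1 := Int.floor_le q.1
    have f2 := Int.lt_floor_add_one q.1
    have f3 := Int.floor_le q.2
    have f4 := Int.lt_floor_add_one q.2
    refine ⟨(⌊q.1⌋, ⌊q.2⌋), ?_, ⟨f1, f2⟩, f3, f4⟩
    rw [mem_LD (by linarith)]
    simp only
    have e : Lm (⌊q.1⌋ : ℝ) (⌊q.2⌋ : ℝ) = Lm q.1 q.2 + Lm ((⌊q.1⌋ : ℝ) - q.1) ((⌊q.2⌋ : ℝ) - q.2) := by
      rw [← Lm_add]; congr 1 <;> ring
    rw [e]
    refine (norm_add_le _ _).trans ?_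
    have := Lm_one_bd (x := (⌊q.1⌋ : ℝ) - q.1) (y := (⌊q.2⌋ : ℝ) - q.2)
      (by rw [abs_le]; constructor <;> linarith) (by rw [abs_le]; constructor <;> linarith)
    linarith
  have h1 := (measure_mono hsub).trans (measure_biUnion_finset_le (μ := volume) _ _)
  rw [vol_ell (by linarith)] at h1
  have h2 : ∀ p ∈ LD R, volume (Set.Ico (p.1 : ℝ) (p.1 + 1) ×ˢ Set.Ico (p.2 : ℝ) (p.2 + 1)) = 1 := by
    intro p _
    rw [Measure.volume_eq_prod, Measure.prod_prod, Real.volume_Ico, Real.volume_Ico]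
    simp
  rw [Finset.sum_congr rfl h2, Finset.sum_const, nsmul_eq_mul, mul_one] at h1
  have h3 : ENNReal.ofReal (2 * Real.pi / Real.sqrt 3 * (R - 2) ^ 2)
      ≤ ENNReal.ofReal ((LD R).card : ℝ) := by rwa [ENNReal.ofReal_natCast]
  rwa [ENNReal.ofReal_le_ofReal_iff (by positivity)] at h3

end Med
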