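import Pool.Agent.Helper946.M21
import Pool.Agent.Helper946.M22

set_option autoImplicit false

namespace Med

open MeasureTheory

variable {S : Finset E}

lemma exists_delta {ρ0 : ℝ} (h0 : 0 < ρ0) (h1 : ρ0 ≤ 1 / 16) : ∃ δ : ℝ, 0 < δ ∧ δ ≤ 1 / 100 ∧
    (Real.sqrt (2 - 2 * Real.cos (ρ0 + δ)) + δ) ^ 2 / (1 - δ) + 2 * δ < (1 - δ) ^ 2 * ρ0 ^ 2 := by
  have hc : ContinuousAt (fun δ : ℝ => (1 - δ) ^ 2 * ρ0 ^ 2 -
      ((Real.sqrt (2 - 2 * Real.cos (ρ0 + δ)) + δ) ^ 2 / (1 - δ) + 2 * δ)) 0 := by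
    apply ContinuousAt.sub
    · fun_prop
    · apply ContinuousAt.add
      · apply ContinuousAt.div
        · fun_prop
        · fun_prop
        · norm_num
      · fun_prop
  have hval : 0 < (1 - (0:ℝ)) ^ 2 * ρ0 ^ 2 -
      ((Real.sqrt (2 - 2 * Real.cos (ρ0 + 0)) + 0) ^ 2 / (1 - 0) + 2 * 0) := by
    have h2 : 1 - ρ0 ^ 2 / 2 < Real.cos ρ0 := Real.one_sub_sq_div_two_lt_cos h0.ne'
    have h3 : Real.cos ρ0 ≤ 1 := Real.cos_le_one _
    rw [add_zero, add_zero, Real.sq_sqrt (by linarith)]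
    linarith
  have hev := hc.eventually_const_lt (show (0:ℝ) < _ from hval)
  rw [Metric.eventually_nhds_iff] at hev
  obtain ⟨r, hr, hr'⟩ := hev
  set δ := min (r / 2) (1 / 100) with hδ
  have hδ0 : 0 < δ := lt_min (by linarith) (by norm_num)
  have hδr : δ < r := lt_of_le_of_lt (min_le_left _ _) (by linarith)
  refine ⟨δ, hδ0, min_le_right _ _, ?_⟩
  have := hr' (y := δ) (by rw [Real.dist_eq, sub_zero, abs_of_pos hδ0]; exact hδr)
  linarith

lemma five_card (hS : Cfg S) (hval : ∀ v ∈ S, 5 ≤ dcard S v ∧ dcard S v ≤ 6) :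
    (S.filter (fun v => dcard S v = 5)).card ≤ 12 := by
  classical
  have h1 := euler hS
  have h2 := sum_dcard S
  have h3 : ∑ v ∈ S, (dcard S v + if dcard S v = 5 then 1 else 0) = ∑ v ∈ S, 6 := by
    apply Finset.sum_congr rfl
    intro v hv
    obtain ⟨h4, h5⟩ := hval v hv
    by_cases h6 : dcard S v = 5
    · rw [if_pos h6, h6]
    · rw [if_neg h6]; omega
  rw [Finset.sum_add_distrib, ← Finset.card_filter, Finset.sum_const, smul_eq_mul, h2] at h3
  omega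

lemma exists_center (hS : Cfg S) (hval : ∀ v ∈ S, 5 ≤ dcard S v ∧ dcard S v ≤ 6) :
    ∃ c0 : E, ‖c0‖ = 1 ∧ ∀ v ∈ S, ‖v - c0‖ < 1 / 2 → dcard S v = 6 := by
  classical
  by_contra hcon
  push Not at hcon
  have h1 := cov_count_all (A := S.filter (fun v => dcard S v = 5))
    (fun x hx => hS.unit x (Finset.mem_of_mem_filter x hx)) (ρ := 1 / 2) (by norm_num)
    (by norm_num) (by
      intro u hu
      obtain ⟨v, hv, h2, h3⟩ := hcon u hu
      refine ⟨v, ?_, by rw [norm_sub_rev]; exact h2⟩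
      rw [Finset.mem_filter]
      have := hval v hv
      exact ⟨hv, by omega⟩)
  have h2 := five_card hS hval
  have h3 : ((S.filter (fun v => dcard S v = 5)).card : ℝ) ≤ 12 := by exact_mod_cast h2
  linarith

lemma D0_card (hS : Cfg S) {n : ℕ} (hn : 4 * 10 ^ 8 ≤ n) (hcov : Cov S (rho n)) {c0 : E}
    (hc0 : ‖c0‖ = 1) (h6 : ∀ v ∈ S, ‖v - c0‖ < 1 / 2 → dcard S v = 6) :
    ∃ D0 : Finset (Dart S), (∀ d ∈ D0, ‖d.tl - c0‖ ≤ 1 / 8) ∧ (n : ℝ) / (6.4 * 10 ^ 7) ≤ D0.card := by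
  classical
  have hnr : (4:ℝ) * 10 ^ 8 ≤ n := by exact_mod_cast hn
  have hn0 : (0:ℝ) < n := by linarith [hnr, (by norm_num : (0:ℝ) < 4 * 10 ^ 8)]
  have hsq : 20000 ≤ Real.sqrt n := by
    apply Real.le_sqrt_of_sq_le; linarith [hnr, (by norm_num : (20000:ℝ) ^ 2 = 4 * 10 ^ 8)]
  have hs0 : 0 < Real.sqrt n := by linarith
  have hρ0 : 0 < rho n := by unfold rho; positivity
  have hρ1 : rho n ≤ 1 / 50 := by
    unfold rho; rw [div_le_iff₀ hs0]; linarith
  have hρ2 : rho n ^ 2 * n = 160000 := by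
    unfold rho; rw [div_pow, Real.sq_sqrt hn0.le]; field_simp; norm_num
  set A := S.filter (fun x => ‖x - c0‖ ≤ 1 / 8) with hA
  have h1 := cov_count (A := A) (fun x hx => hS.unit x (Finset.mem_of_mem_filter x hx)) hc0
      (t := 1 / 8 - rho n) (ρ := 2 * rho n) (by linarith) (by linarith) (by positivity)
      (by linarith) (by
      intro u hu huv
      obtain ⟨x, hx, hxu⟩ := hcov u hu
      refine ⟨x, ?_, by rw [norm_sub_rev]; linarith⟩
      rw [hA, Finset.mem_filter]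
      refine ⟨hx, ?_⟩
      have e : x - c0 = (x - u) + (u - c0) := by abel
      rw [e]
      refine (norm_add_le _ _).trans ?_
      linarith)
  refine ⟨Finset.univ.filter (fun d : Dart S => ‖d.tl - c0‖ ≤ 1 / 8), by
    intro d hd; exact (Finset.mem_filter.1 hd).2, ?_⟩
  have h2 : A ⊆ (Finset.univ.filter (fun d : Dart S => ‖d.tl - c0‖ ≤ 1 / 8)).image Dart.tl := by
    intro v hv
    rw [hA, Finset.mem_filter] at hv
    have h3 := h6 v hv.1 (by linarith [hv.2])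
    have h4 : 0 < dcard S v := by omega
    unfold dcard at h4
    obtain ⟨d, hd⟩ := Finset.card_pos.1 h4
    rw [Finset.mem_filter] at hd
    rw [Finset.mem_image]
    exact ⟨d, Finset.mem_filter.2 ⟨Finset.mem_univ _, by rw [hd.2]; exact hv.2⟩, hd.2⟩
  have h3 := (Finset.card_le_card h2).trans Finset.card_image_le
  have h4 : (A.card : ℝ) ≤ (Finset.univ.filter (fun d : Dart S => ‖d.tl - c0‖ ≤ 1 / 8)).card := by
    exact_mod_cast h3
  refine le_trans ?_ h4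
  have h5 : (1 / 10 : ℝ) ^ 2 ≤ (1 / 8 - rho n) ^ 2 := by
    apply pow_le_pow_left₀ (by norm_num); linarith
  have h7 : (1 / 100 : ℝ) * n ≤ A.card * 640000 := by
    have h8 : (1 / 10 : ℝ) ^ 2 ≤ A.card * (2 * rho n) ^ 2 := h5.trans h1
    have h9 := mul_le_mul_of_nonneg_right h8 hn0.le
    have h10 : (A.card : ℝ) * (2 * rho n) ^ 2 * n = A.card * (4 * (rho n ^ 2 * n)) := by ring
    rw [h10, hρ2] at h9
    linarith
  rw [div_le_iff₀ (by norm_num)]
  linarith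

lemma angle_arith {ρ0 δ g s K m R η δ1 : ℝ} (hρ0 : 0 < ρ0) (hρ1 : ρ0 ≤ 1) (hδ0 : 0 < δ)
    (hδ1 : δ ≤ 1) (hg1 : 3.8 ≤ g) (hg2 : g ≤ 3.9) (hs : 0 < s) (hK : 1 ≤ K)
    (hKδ : 64 ≤ K * δ) (hm0 : 0 < m) (hm : m ≤ R / K + 1) (hR : R = ρ0 * s / g)
    (hη0 : 0 ≤ η) (hη : η ≤ δ / 48) (hδ10 : 0 ≤ δ1) (hδ11 : δ1 ≤ 1) (hs1 : 250 ≤ s * δ)
    (hs2 : 4 * K ≤ s) (hT : (2 * (2 * K + 4) * (800 / s)) ^ 2 ≤ δ / 4) :
    (1 + (2 * (2 * K + 4) * (800 / s)) ^ 2) *
      (m * (((1 + 3 * η) * (R / m + 2) + δ1) * (g / s))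
        + (δ / 40000 * m) * (2 * (2 * K + 4) * (800 / s))) ≤ ρ0 + δ := by
  have hg0 : 0 < g := by linarith
  have hK0 : 0 < K := by linarith
  set a := m * (g / s) with ha
  have ha0 : 0 < a := by positivity
  have hRs : R * (g / s) = ρ0 := by rw [hR]; field_simp
  have h1 : a ≤ ρ0 / K + g / s := by
    have : m * (g / s) ≤ (R / K + 1) * (g / s) := mul_le_mul_of_nonneg_right hm (by positivity)
    have e : (R / K + 1) * (g / s) = R * (g / s) / K + g / s := by ring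
    rw [e, hRs] at this
    exact this
  have h2 : ρ0 / K ≤ δ / 64 := by
    rw [div_le_div_iff₀ hK0 (by norm_num)]; nlinarith
  have h3 : g / s ≤ δ / 64 := by
    rw [div_le_div_iff₀ hs (by norm_num)]; nlinarith
  have h4 : a ≤ δ / 32 := by linarith
  have h5 : m * (((1 + 3 * η) * (R / m + 2) + δ1) * (g / s))
      = (1 + 3 * η) * (ρ0 + 2 * a) + δ1 * a := by
    rw [← hRs, ha]; field_simp
  have h6 : (1 + 3 * η) * (ρ0 + 2 * a) + δ1 * a ≤ ρ0 + 7 / 32 * δ + δ / 32 := by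
    have e1 : 3 * η * ρ0 ≤ δ / 16 := by nlinarith
    have e2 : 3 * η * (2 * a) ≤ 1 * (2 * a) := by
      apply mul_le_mul_of_nonneg_right _ (by positivity); linarith
    have e3 : δ1 * a ≤ 1 * a := mul_le_mul_of_nonneg_right hδ11 ha0.le
    nlinarith
  have h7 : (δ / 40000 * m) * (2 * (2 * K + 4) * (800 / s)) ≤ δ / 4 := by
    have e1 : m * (2 * (2 * K + 4) * (800 / s)) = 1600 / g * ((2 * K + 4) * a) := by
      rw [ha]; field_simp; ring
    have e2 : (2 * K + 4) * a ≤ 6 * K * (ρ0 / K + g / s) := by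
      apply mul_le_mul (by linarith) h1 ha0.le (by positivity)
    have e3 : 6 * K * (ρ0 / K + g / s) = 6 * ρ0 + 6 * g * (K / s) := by field_simp
    have e4 : K / s ≤ 1 / 4 := by rw [div_le_div_iff₀ hs (by norm_num)]; linarith
    have e5 : 6 * g * (K / s) ≤ 6 * 3.9 * (1 / 4) :=
      mul_le_mul (by linarith) e4 (by positivity) (by norm_num)
    have e6 : (2 * K + 4) * a ≤ 12 := by rw [e3] at e2; linarith
    have e7 : 1600 / g ≤ 1600 / 3.8 := div_le_div_of_nonneg_left (by norm_num) (by norm_num) hg1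
    have e8 : 1600 / g * ((2 * K + 4) * a) ≤ 1600 / 3.8 * 12 :=
      mul_le_mul e7 e6 (by positivity) (by norm_num)
    have e9 : (δ / 40000 * m) * (2 * (2 * K + 4) * (800 / s))
        = δ / 40000 * (m * (2 * (2 * K + 4) * (800 / s))) := by ring
    rw [e9, e1]
    have e10 := mul_le_mul_of_nonneg_left e8 (by positivity : 0 ≤ δ / 40000)
    refine e10.trans ?_
    norm_num
    linarith
  rw [h5]
  set T2 := (2 * (2 * K + 4) * (800 / s)) ^ 2 with hT2
  have hT20 : 0 ≤ T2 := sq_nonneg _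
  set Y := (1 + 3 * η) * (ρ0 + 2 * a) + δ1 * a
    + (δ / 40000 * m) * (2 * (2 * K + 4) * (800 / s)) with hY
  have hYb : Y ≤ ρ0 + δ / 2 := by rw [hY]; linarith
  have hY2 : Y ≤ 2 := by linarith
  have : T2 * Y ≤ δ / 4 * 2 := by
    rcases le_total 0 Y with h | h
    · exact mul_le_mul hT hY2 h (by positivity)
    · have := mul_nonpos_of_nonneg_of_nonpos hT20 h
      linarith
  linarith

end Med
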