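import Pool.Agent.Helper946.M23

set_option autoImplicit false

namespace Med

open MeasureTheory

variable {S : Finset E}

def UB : Prop := ∀ ε > 0, ∃ n0 : ℕ, ∀ n ≥ n0, ∃ X : Finset E, X.card ≤ n ∧ (∀ x ∈ X, ‖x‖ = 1) ∧
  4 * Real.pi / 3 - Vol X ≤ (1 + ε) * (4 * Real.pi ^ 2 / Real.sqrt 3) / n

lemma final_arith {n s g ρ0 δ η t l R L A : ℝ} (hs : 0 < s) (hn : n = s ^ 2)
    (hg0 : 0 < g) (hg : g ^ 2 = 8 * Real.pi / Real.sqrt 3) (hρ0 : 0 < ρ0) (hδ0 : 0 < δ)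
    (hδ1 : δ ≤ 1 / 100) (hη0 : 0 ≤ η) (hη : η ≤ δ) (ht : 0 ≤ t) (hl : 0 ≤ l)
    (hR : R = ρ0 * s / g) (hRδ : 4 ≤ R * δ)
    (h1 : 2 * Real.pi / Real.sqrt 3 * (R - 2) ^ 2 ≤ L) (h2 : (1 - δ) * L ≤ A)
    (h3 : 6 * A ≤ 3 * (n * (t + 2 * l) ^ 2 / (2 * (1 - η))) + 3 * (η * n)) (h4 : 2 * l ≤ δ) :
    (1 - δ) ^ 2 * ρ0 ^ 2 ≤ (t + δ) ^ 2 / (1 - δ) + 2 * δ := by
  have hs3 : 0 < Real.sqrt 3 := Real.sqrt_pos.2 (by norm_num)
  have hpi := Real.pi_pos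
  have hR0 : 0 < R := by rw [hR]; positivity
  have e1 : R ^ 2 * (1 - δ) ≤ (R - 2) ^ 2 := by nlinarith
  have e2 : 2 * Real.pi / Real.sqrt 3 * R ^ 2 = ρ0 ^ 2 * s ^ 2 / 4 := by
    rw [hR, div_pow, mul_pow, hg]; field_simp; ring
  have e3 : ρ0 ^ 2 * s ^ 2 / 4 * (1 - δ) ≤ L := by
    rw [← e2]
    refine le_trans ?_ h1
    rw [mul_assoc]
    exact mul_le_mul_of_nonneg_left e1 (by positivity)
  have e4 : (1 - δ) * (ρ0 ^ 2 * s ^ 2 / 4 * (1 - δ)) ≤ A :=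
    (mul_le_mul_of_nonneg_left e3 (by linarith)).trans h2
  have e5 : (t + 2 * l) ^ 2 / (1 - η) ≤ (t + δ) ^ 2 / (1 - δ) := by
    apply div_le_div₀ (by positivity) _ (by linarith) (by linarith)
    exact pow_le_pow_left₀ (by positivity) (by linarith) 2
  have e6 : 3 * (n * (t + 2 * l) ^ 2 / (2 * (1 - η)))
      = 6 * (s ^ 2 / 4 * ((t + 2 * l) ^ 2 / (1 - η))) := by
    rw [hn]
    have : (1 - η) ≠ 0 := by linarith
    field_simp; ring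
  have e7 : s ^ 2 / 4 * ((1 - δ) ^ 2 * ρ0 ^ 2) ≤ s ^ 2 / 4 * ((t + δ) ^ 2 / (1 - δ) + 2 * δ) := by
    have e8 : s ^ 2 / 4 * ((1 - δ) ^ 2 * ρ0 ^ 2) = (1 - δ) * (ρ0 ^ 2 * s ^ 2 / 4 * (1 - δ)) := by ring
    rw [e8]
    refine e4.trans ?_
    have e9 : A ≤ s ^ 2 / 4 * ((t + 2 * l) ^ 2 / (1 - η)) + η * s ^ 2 / 2 := by
      rw [e6, hn] at h3; linarith
    have e10 : s ^ 2 / 4 * ((t + 2 * l) ^ 2 / (1 - η)) ≤ s ^ 2 / 4 * ((t + δ) ^ 2 / (1 - δ)) :=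
      mul_le_mul_of_nonneg_left e5 (by positivity)
    have e11 : η * s ^ 2 / 2 ≤ δ * s ^ 2 / 2 := by
      have := mul_le_mul_of_nonneg_right hη (sq_nonneg s)
      linarith
    have e12 : s ^ 2 / 4 * ((t + δ) ^ 2 / (1 - δ) + 2 * δ)
        = s ^ 2 / 4 * ((t + δ) ^ 2 / (1 - δ)) + δ * s ^ 2 / 2 := by ring
    rw [e12]; linarith
  exact le_of_mul_le_mul_left e7 (by positivity)

lemma chord_of_angle {x v : E} (hx : ‖x‖ = 1) (hv : ‖v‖ = 1) {θ : ℝ} (_h0 : 0 ≤ θ)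
    (h1 : θ ≤ Real.pi) (h : InnerProductGeometry.angle v x ≤ θ) :
    ‖x - v‖ ≤ Real.sqrt (2 - 2 * Real.cos θ) := by
  apply Real.le_sqrt_of_sq_le
  rw [dist_sq_unit hx hv]
  have h2 := InnerProductGeometry.cos_angle v x
  rw [hx, hv, mul_one, div_one] at h2
  have h3 : Real.cos θ ≤ Real.cos (InnerProductGeometry.angle v x) :=
    Real.cos_le_cos_of_nonneg_of_le_pi (InnerProductGeometry.angle_nonneg _ _) h1 h
  rw [h2] at h3
  rw [real_inner_comm]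
  linarith

lemma sqrt_cos_le {θ : ℝ} (h0 : 0 ≤ θ) : Real.sqrt (2 - 2 * Real.cos θ) ≤ θ := by
  rw [Real.sqrt_le_left h0]
  have := Real.one_sub_sq_div_two_le_cos (x := θ)
  linarith

lemma g_bd {g : ℝ} (hg : g = Real.sqrt (8 * Real.pi / Real.sqrt 3)) :
    3.8 ≤ g ∧ g ≤ 3.9 ∧ g ^ 2 = 8 * Real.pi / Real.sqrt 3 := by
  obtain ⟨s1, s2⟩ := sqrt3_bd
  have pi1 := Real.pi_gt_d2
  have pi2 := Real.pi_lt_d2
  have hs : 0 < Real.sqrt 3 := by linarith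
  have hq : 0 ≤ 8 * Real.pi / Real.sqrt 3 := by positivity
  refine ⟨?_, ?_, ?_⟩
  · rw [hg]; apply Real.le_sqrt_of_sq_le
    rw [le_div_iff₀ hs]; linarith
  · rw [hg, Real.sqrt_le_left (by norm_num), div_le_iff₀ hs]; linarith
  · rw [hg, Real.sq_sqrt hq]

lemma hh_eq {n : ℕ} {s g : ℝ} (hs : 0 < s) (hn : (n:ℝ) = s ^ 2) (hg0 : 0 < g)
    (hg : g ^ 2 = 8 * Real.pi / Real.sqrt 3) : hh n = g ^ 2 / s ^ 2 ∧ Real.sqrt (hh n) = g / s := by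
  have h1 : hh n = g ^ 2 / s ^ 2 := by
    unfold hh; rw [hg, hn, div_div]
  refine ⟨h1, ?_⟩
  rw [h1, ← div_pow, Real.sqrt_sq (by positivity)]

/-- the key chain for one configuration -/
lemma chain {n : ℕ} {s g ρ0 δ η : ℝ} {K M R1 : ℕ} (hs : 0 < s) (hn : (n:ℝ) = s ^ 2)
    (hsq : Real.sqrt n = s) (hn10 : 10 ^ 10 ≤ n)
    (hg1 : 3.8 ≤ g) (hg2 : g ≤ 3.9) (hg : g ^ 2 = 8 * Real.pi / Real.sqrt 3)
    (hρ0 : 0 < ρ0) (hρ1 : ρ0 ≤ 1 / 16) (hδ0 : 0 < δ) (hδ1 : δ ≤ 1 / 100)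
    (hη0 : 0 < η) (hη : η ≤ δ / 48)
    (hηq : 40 * (η + hh n) ≤ (1 / (16 * ((4 * K + 9 : ℕ):ℝ) ^ 2)) ^ 2)
    (hη3 : 3.84 * 10 ^ 8 * ((4 * K + 9 : ℕ):ℝ) ^ 2 * η ≤ δ * (δ / 40000))
    (hK1 : 1 ≤ K) (hKδ : 64 ≤ K * δ) (hH : hh n ≤ 1 / 4)
    (hM : 3 ≤ M) (hM2 : 100 * (C2 * (M + 1) : ℝ) * (2 * rho n) ≤ 1 / 4)
    (hR1 : 112 * C2 * R1 + 1 < M) (hRR : 4 * (ρ0 * s / g) ≤ R1)
    (hreg : (4 * R1 + 60 * K + 200 : ℝ) * (2 * rho n) ≤ 1 / 4)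
    (hs1 : 250 ≤ s * δ) (hs2 : 4 * (K:ℝ) ≤ s) (hT : 2 * (2 * (K:ℝ) + 4) * (800 / s) ≤ δ / 2)
    (hRδ : 4 ≤ ρ0 * s / g * δ) (hl : 1600 / s ≤ δ)
    (hS : Cfg S) (hmax : MaxS S n) (hcov : Cov S (rho n))
    (hval : ∀ v ∈ S, 5 ≤ dcard S v ∧ dcard S v ≤ 6) {ℓ : E}
    (hℓ : ∀ x ∈ S, ∀ y ∈ S, x ≠ y → inner ℝ ℓ x ≠ inner ℝ ℓ y)
    (hstab : ∀ B : Finset (Dart S), B ⊆ mids hS ℓ → (∀ d ∈ B, ¬ GoodD hS n η d) →
      (B.card : ℝ) ≤ η * n) :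
    (1 - δ) ^ 2 * ρ0 ^ 2 ≤ (Real.sqrt (2 - 2 * Real.cos (ρ0 + δ)) + δ) ^ 2 / (1 - δ) + 2 * δ := by
  classical
  have hg0 : 0 < g := by linarith
  have hnpos : 0 < n := by omega
  have hnr : (0:ℝ) < n := by exact_mod_cast hnpos
  obtain ⟨hhh, hsqh⟩ := hh_eq hs hn hg0 hg
  have hrho : rho n = 400 / s := by unfold rho; rw [hsq]
  have hl2 : 2 * rho n = 800 / s := by rw [hrho]; ring
  have hrho0 : 0 < rho n := by rw [hrho]; positivity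
  have hrho1 : rho n ≤ 1 := by
    rw [hrho]
    have : 400 / s ≤ 1600 / s := by
      apply div_le_div_of_nonneg_right (by norm_num) hs.le
    linarith
  have hedge : ∀ a b, Edg S a b → ‖a - b‖ ≤ 2 * rho n := fun a b h =>
    edge_le hS.unit hrho0.le hrho1 hcov h
  obtain ⟨c0, hc0, h6⟩ := exists_center hS hval
  have z : Zone S c0 (2 * rho n) := ⟨by positivity, hedge, h6⟩
  obtain ⟨D0, hD0, hD0c⟩ := D0_card hS (by omega) hcov hc0 h6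
  have hD0pos : (0:ℝ) < D0.card := lt_of_lt_of_le (by positivity) hD0c
  have hD0ne : D0.Nonempty := Finset.card_pos.1 (by exact_mod_cast hD0pos)
  set R := ρ0 * s / g with hR
  have hR0 : 0 < R := by rw [hR]; positivity
  have hKr : (1:ℝ) ≤ K := by exact_mod_cast hK1
  have hK0 : (0:ℝ) < K := by linarith
  set m := ⌈R / K⌉₊ with hm
  have hm0 : 0 < m := Nat.ceil_pos.2 (by positivity)
  have hmr : (0:ℝ) < m := by exact_mod_cast hm0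
  have hm1 : R ≤ K * m := by
    have := Nat.le_ceil (R / K)
    rw [div_le_iff₀ hK0] at this
    rw [mul_comm]; exact this
  have hm2 : (m:ℝ) ≤ R / K + 1 := (Nat.ceil_lt_add_one (by positivity)).le
  set Mb := 4 * K + 9 with hMb
  have hbad := fun B hB => bad_count hS hℓ (n := n) (η := η) (c := η * n) hstab B hB
  have hbadM := fun B hB => badM_count hS (M := Mb) hbad B hB
  obtain ⟨d, hd, Bf, hBf1, hBf2, hBf3⟩ := averaging hS (K := K) (m := m) hbadM D0 hD0ne (LD R)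
  have hdc := hD0 d hd
  have hdr : RegD c0 (2 * rho n) (4 * R1 + 60 * K + 200) d := by
    unfold RegD; push_cast; linarith
  -- Markov
  set δ2 := δ / 40000 with hδ2
  have hδ20 : 0 < δ2 := by positivity
  have hsumB : ∑ p ∈ LD R, ((Bf p).card : ℝ) ≤ (LD R).card * m * (δ * δ2) := by
    have h1 : (n:ℝ) / (6.4 * 10 ^ 7) * ∑ p ∈ LD R, ((Bf p).card : ℝ)
        ≤ (LD R).card * m * (2 * (Mb:ℝ) ^ 2 * (3 * (η * n))) := by
      refine le_trans (mul_le_mul_of_nonneg_right hD0c ?_) hBf3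
      exact Finset.sum_nonneg fun _ _ => Nat.cast_nonneg _
    have h2 : (LD R).card * m * (2 * (Mb:ℝ) ^ 2 * (3 * (η * n)))
        = (n:ℝ) / (6.4 * 10 ^ 7) * ((LD R).card * m * (3.84 * 10 ^ 8 * (Mb:ℝ) ^ 2 * η)) := by
      ring
    rw [h2] at h1
    have h3 := le_of_mul_le_mul_left h1 (by positivity)
    refine h3.trans ?_
    exact mul_le_mul_of_nonneg_left hη3 (mul_nonneg (Nat.cast_nonneg _) (Nat.cast_nonneg _))
  have hmk := markov (LD R) (fun p => ((Bf p).card : ℝ)) (fun _ _ => Nat.cast_nonneg _)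
    (e := δ2 * m) (by positivity) hsumB
  set Lb := (LD R).filter (fun p => δ2 * m < ((Bf p).card : ℝ)) with hLb
  have hLbc : (Lb.card : ℝ) ≤ δ * (LD R).card := by
    have h1 : (Lb.card : ℝ) * (δ2 * m) ≤ (δ * (LD R).card) * (δ2 * m) := by
      refine hmk.trans (le_of_eq ?_); ring
    exact le_of_mul_le_mul_right h1 (by positivity)
  set Lg := (LD R).filter (fun p => ¬ (δ2 * m < ((Bf p).card : ℝ))) with hLg
  have hLsum : (Lb.card : ℝ) + Lg.card = (LD R).card := by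
    have := Finset.card_filter_add_card_filter_not (s := LD R)
      (fun p => δ2 * m < ((Bf p).card : ℝ))
    exact_mod_cast this
  have hLgc : (1 - δ) * ((LD R).card : ℝ) ≤ Lg.card := by linarith
  -- coordinates
  have hcoord : ∀ p ∈ LD R, p.1.natAbs + p.2.natAbs ≤ R1 ∧ ‖Lm (p.1:ℝ) (p.2:ℝ)‖ ≤ R := by
    intro p hp
    rw [mem_LD hR0.le] at hp
    refine ⟨?_, hp⟩
    obtain ⟨q1, q2⟩ := Lm_coord hR0.le hp
    have e1 : ((p.1.natAbs : ℕ) : ℝ) = |(p.1:ℝ)| := by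
      rw [← Int.cast_abs, Int.abs_eq_natAbs]; simp
    have e2 : ((p.2.natAbs : ℕ) : ℝ) = |(p.2:ℝ)| := by
      rw [← Int.cast_abs, Int.abs_eq_natAbs]; simp
    have : ((p.1.natAbs + p.2.natAbs : ℕ) : ℝ) ≤ (R1 : ℝ) := by
      push_cast
      rw [e1, e2]; linarith
    exact_mod_cast this
  -- angles
  have hTT : (2:ℝ) * ((2 * K + 4 : ℕ):ℝ) * (2 * rho n) = 2 * (2 * (K:ℝ) + 4) * (800 / s) := by
    rw [hl2]; push_cast; ring
  have hTh : (2:ℝ) * ((2 * K + 4 : ℕ):ℝ) * (2 * rho n) ≤ 1 / 2 := by rw [hTT]; linarith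
  have hT2 : (2 * (2 * (K:ℝ) + 4) * (800 / s)) ^ 2 ≤ δ / 4 := by
    have h0 : 0 ≤ 2 * (2 * (K:ℝ) + 4) * (800 / s) := by positivity
    have h1 := pow_le_pow_left₀ h0 hT 2
    have h2 : (δ / 2) ^ 2 ≤ δ / 4 := by
      have e : (δ / 2) ^ 2 = δ / 4 * δ := by ring
      rw [e]
      exact mul_le_of_le_one_right (by positivity) (by linarith)
    exact h1.trans h2
  set δ1 := 16 * ((4 * K + 9 : ℕ):ℝ) ^ 2 * Real.sqrt (40 * (η + hh n)) with hδ1def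
  have hδ10 : 0 ≤ δ1 := by positivity
  have hδ11 : δ1 ≤ 1 := by
    have hMbpos : (0:ℝ) < 16 * ((4 * K + 9 : ℕ):ℝ) ^ 2 := by positivity
    have h1 : Real.sqrt (40 * (η + hh n)) ≤ 1 / (16 * ((4 * K + 9 : ℕ):ℝ) ^ 2) := by
      rw [Real.sqrt_le_left (by positivity)]; exact hηq
    calc δ1 ≤ 16 * ((4 * K + 9 : ℕ):ℝ) ^ 2 * (1 / (16 * ((4 * K + 9 : ℕ):ℝ) ^ 2)) :=
          mul_le_mul_of_nonneg_left h1 hMbpos.le
      _ = 1 := by field_simp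
  have hangle : ∀ p ∈ Lg, InnerProductGeometry.angle d.tl (FD hS p.1 p.2 d).tl ≤ ρ0 + δ := by
    intro p hp
    rw [hLg, Finset.mem_filter] at hp
    obtain ⟨q1, q2⟩ := hcoord p hp.1
    have h1 := path_angle hS z hnpos hH hη0.le (by linarith) hm0 hm1 q2
      (show p.1.natAbs ≤ R1 by omega) (show p.2.natAbs ≤ R1 by omega) hdr hTh (Bf p)
      (hBf2 p) (hBf1 p)
    refine h1.trans ?_
    have hB' : ((Bf p).card : ℝ) ≤ δ2 * m := not_lt.1 hp.2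
    rw [hTT, hsqh]
    have h2 := angle_arith hρ0 (by linarith) hδ0 (by linarith) hg1 hg2 hs hKr hKδ hmr hm2 hR
      hη0.le hη hδ10 hδ11 hs1 hs2 hT2
    refine le_trans ?_ h2
    apply mul_le_mul_of_nonneg_left _ (by positivity)
    have h3 : ((Bf p).card : ℝ) * (2 * (2 * (K:ℝ) + 4) * (800 / s))
        ≤ δ2 * m * (2 * (2 * (K:ℝ) + 4) * (800 / s)) :=
      mul_le_mul_of_nonneg_right hB' (by positivity)
    exact add_le_add le_rfl h3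
  -- the image
  set A := Lg.image (fun p => (FD hS p.1 p.2 d).tl) with hA
  have hAcard : A.card = Lg.card := by
    rw [hA]
    apply Finset.card_image_of_injOn
    intro p hp p' hp' heq
    simp only [hLg, Finset.coe_filter, Set.mem_ofPred_eq] at hp hp'
    obtain ⟨q1, -⟩ := hcoord p hp.1
    obtain ⟨q1', -⟩ := hcoord p' hp'.1
    obtain ⟨e1, e2⟩ := inject hn10 hS hmax hcov z hM hM2 hR1 (by linarith) q1 q1' heq
    exact Prod.ext e1 e2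
  set t := Real.sqrt (2 - 2 * Real.cos (ρ0 + δ)) with ht
  have ht0 : 0 ≤ t := Real.sqrt_nonneg _
  have ht1 : t ≤ ρ0 + δ := sqrt_cos_le (by positivity)
  have hdtl : ‖d.tl‖ = 1 := hS.unit _ d.tl_mem
  have hAprop : ∀ x ∈ A, x ∈ S ∧ ‖x - d.tl‖ ≤ t ∧ dcard S x = 6 := by
    intro x hx
    rw [hA, Finset.mem_image] at hx
    obtain ⟨p, hp, rfl⟩ := hx
    have hxS := (FD hS p.1 p.2 d).tl_mem
    have h1 := chord_of_angle (hS.unit _ hxS) hdtl (by positivity)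
      (by linarith [Real.pi_gt_three]) (hangle p hp)
    refine ⟨hxS, h1, h6 _ hxS ?_⟩
    have e : (FD hS p.1 p.2 d).tl - c0 = ((FD hS p.1 p.2 d).tl - d.tl) + (d.tl - c0) := by abel
    rw [e]
    refine lt_of_le_of_lt (norm_add_le _ _) ?_
    linarith
  have hup := upper_count hS hℓ hnpos (η := η) (by linarith) hbad hdtl ht0
    (l := 2 * rho n) (by positivity) (by rw [hl2]; linarith [show 2 * (800 / s) = 1600 / s by ring])
    hedge A (fun x hx => (hAprop x hx).1) (fun x hx => (hAprop x hx).2)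
  rw [hAcard] at hup
  have hR2 : 2 ≤ R := by
    have : R * δ ≤ R * (1 / 100) := mul_le_mul_of_nonneg_left hδ1 hR0.le
    linarith
  exact final_arith hs hn hg0 hg hρ0 hδ0 hδ1 hη0.le (by linarith) ht0 (by positivity) hR hRδ
    (LD_card hR2) hLgc hup (by rw [hl2]; linarith [show 2 * (800 / s) = 1600 / s by ring])

end Med
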