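import Pool.Agent.Helper946.M24

set_option autoImplicit false

namespace Med

open MeasureTheory

variable {S : Finset E}

lemma s_of_div {A δ s : ℝ} (hδ : 0 < δ) (h : A / δ ≤ s) : A ≤ s * δ := by
  rwa [div_le_iff₀ hδ] at h

lemma div_s_le {A B s : ℝ} (hs : 0 < s) (hB : 0 < B) (h : A / B ≤ s) : A / s ≤ B := by
  rw [div_le_iff₀ hB] at h
  rw [div_le_iff₀ hs]; linarith

lemma MR_choice {C c1 s : ℝ} (hC : 10 ≤ C) (hc1 : c1 = 1 / (10 ^ 8 * C ^ 2)) (hs : 0 < s)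
    (h1 : 2 * 10 ^ 6 * C ≤ s) (h2 : 3 / c1 ≤ s) :
    ∃ M R1 : ℕ, 3 ≤ M ∧ C * (M + 1 : ℝ) ≤ s / 320000 ∧ 112 * C * R1 + 1 < (M:ℝ) ∧
      (R1:ℝ) ≤ c1 * s ∧ (2:ℝ) / 3 * (c1 * s) ≤ R1 := by
  have hC0 : 0 < C := by linarith
  have hc0 : 0 < c1 := by rw [hc1]; positivity
  have hs3 : 3 ≤ c1 * s := by
    rw [div_le_iff₀ hc0] at h2; linarith
  set x := s / (320000 * C) with hx
  have hx0 : 0 ≤ x := by positivity
  have hx1 : 6 ≤ x := by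
    rw [hx, le_div_iff₀ (by positivity)]; linarith
  have f1 : (⌊x⌋₊ : ℝ) ≤ x := Nat.floor_le hx0
  have f2 : x < ⌊x⌋₊ + 1 := Nat.lt_floor_add_one x
  have f3 : 6 ≤ ⌊x⌋₊ := Nat.le_floor (by exact_mod_cast hx1)
  have f4 : ((⌊x⌋₊ - 1 : ℕ) : ℝ) = ⌊x⌋₊ - 1 := by
    rw [Nat.cast_sub (by omega)]; simp
  have g1 : (⌊c1 * s⌋₊ : ℝ) ≤ c1 * s := Nat.floor_le (by positivity)
  have g2 : c1 * s < ⌊c1 * s⌋₊ + 1 := Nat.lt_floor_add_one _
  refine ⟨⌊x⌋₊ - 1, ⌊c1 * s⌋₊, by omega, ?_, ?_, g1, by linarith⟩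
  · rw [f4]
    have e : C * x = s / 320000 := by rw [hx]; field_simp
    rw [← e]
    exact mul_le_mul_of_nonneg_left (by linarith) hC0.le
  · rw [f4]
    have e1 : 112 * C * (⌊c1 * s⌋₊ : ℝ) ≤ 112 * C * (c1 * s) :=
      mul_le_mul_of_nonneg_left g1 (by positivity)
    have e2 : 112 * C * (c1 * s) = 112 / 10 ^ 8 * (s / C) := by
      rw [hc1]; field_simp
    have e3 : x = 1 / 320000 * (s / C) := by rw [hx]; field_simp
    have e4 : 2 * 10 ^ 6 ≤ s / C := by rw [le_div_iff₀ hC0]; linarith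
    rw [e2] at e1
    have f2' : 1 / 320000 * (s / C) < ⌊x⌋₊ + 1 := by rw [← e3]; exact f2
    have e5 : (1 / 320000 - 112 / 10 ^ 8 : ℝ) * (2 * 10 ^ 6)
        ≤ (1 / 320000 - 112 / 10 ^ 8) * (s / C) :=
      mul_le_mul_of_nonneg_left e4 (by norm_num)
    clear_value x
    generalize s / C = y at *
    generalize (⌊x⌋₊ : ℝ) = fx at *
    generalize 112 * C * (⌊c1 * s⌋₊ : ℝ) = fy at *
    clear hs3 h1 h2 e3 g1 g2 hc0 hC hC0 hs e4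
    norm_num at e5 e1 f2' ⊢
    linarith

lemma ten_sum {a0 a1 a2 a3 a4 a5 a6 a7 a8 a9 s : ℝ} (h0 : 0 ≤ a0) (h1 : 0 ≤ a1) (h2 : 0 ≤ a2)
    (h3 : 0 ≤ a3) (h4 : 0 ≤ a4) (h5 : 0 ≤ a5) (h6 : 0 ≤ a6) (h7 : 0 ≤ a7) (h8 : 0 ≤ a8)
    (h9 : 0 ≤ a9) (h : a0 + a1 + a2 + a3 + a4 + a5 + a6 + a7 + a8 + a9 ≤ s) :
    a0 ≤ s ∧ a1 ≤ s ∧ a2 ≤ s ∧ a3 ≤ s ∧ a4 ≤ s ∧ a5 ≤ s ∧ a6 ≤ s ∧ a7 ≤ s ∧ a8 ≤ s ∧ a9 ≤ s := by
  refine ⟨?_, ?_, ?_, ?_, ?_, ?_, ?_, ?_, ?_, ?_⟩ <;> linarith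

lemma const_bd {e : ℝ} (he : e ≤ 1) : (1 + e) * (4 * Real.pi ^ 2 / Real.sqrt 3) ≤ 100 := by
  obtain ⟨s1, s2⟩ := sqrt3_bd
  have pi1 := Real.pi_gt_d2
  have pi2 := Real.pi_lt_d2
  have hs3 : 0 < Real.sqrt 3 := by linarith
  have h1 : (1 + e) * (4 * Real.pi ^ 2 / Real.sqrt 3) ≤ 2 * (4 * Real.pi ^ 2 / Real.sqrt 3) := by
    apply mul_le_mul_of_nonneg_right _ (by positivity)
    linarith
  have h3 : 4 * Real.pi ^ 2 / Real.sqrt 3 ≤ 50 := by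
    rw [div_le_iff₀ hs3]
    have : Real.pi ^ 2 ≤ 10 := by nlinarith
    linarith
  linarith

lemma hh_le {g s : ℝ} (hg0 : 0 < g) (hg : g ≤ 3.9) (hs : 1 ≤ s) : g ^ 2 / s ^ 2 ≤ 16 / s := by
  have hspos : 0 < s := by linarith
  rw [div_le_div_iff₀ (by positivity) hspos]
  have h1 : g ^ 2 ≤ 16 := by nlinarith
  calc g ^ 2 * s ≤ 16 * s := mul_le_mul_of_nonneg_right h1 hspos.le
    _ ≤ 16 * s ^ 2 := by
      rw [sq]
      have := mul_le_mul_of_nonneg_left hs hspos.le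
      linarith

theorem main_thm (hUB : UB) : ∃ n0 : ℕ, ∀ n ≥ n0, ∀ S : Finset E, MaxS S n → Cfg S →
    (∀ v ∈ S, 5 ≤ dcard S v ∧ dcard S v ≤ 6) → False := by
  set C : ℝ := (C2 : ℝ) with hC
  have hC10 : 10 ≤ C := by rw [hC, C2_def]; norm_num
  have hC0 : 0 < C := by linarith
  set c1 : ℝ := 1 / (10 ^ 8 * C ^ 2) with hc1
  have hc0 : 0 < c1 := by positivity
  have hc1' : c1 ≤ 1 / 10 ^ 8 := by
    rw [hc1]
    apply one_div_le_one_div_of_le (by norm_num)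
    have h1 : 1 ≤ C ^ 2 := one_le_pow₀ (by linarith only [hC10])
    linarith only [h1]
  set ρ0 : ℝ := c1 / 2 with hρ0
  have hρ00 : 0 < ρ0 := by positivity
  have hρ01 : ρ0 ≤ 1 / 16 := by
    rw [hρ0]; norm_num at hc1' ⊢; linarith only [hc1']
  obtain ⟨δ, hδ0, hδ1, hδ2⟩ := exists_delta hρ00 hρ01
  set K : ℕ := ⌈64 / δ⌉₊ + 1 with hK
  have hK1 : 1 ≤ K := by omega
  have hKδ : 64 ≤ K * δ := by
    have h1 : 64 / δ ≤ ⌈64 / δ⌉₊ := Nat.le_ceil _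
    have h2 : (64 / δ : ℝ) ≤ K := by rw [hK]; push_cast; linarith only [h1]
    rwa [div_le_iff₀ hδ0] at h2
  have hMb0 : (0:ℝ) < ((4 * K + 9 : ℕ):ℝ) := by positivity
  set q : ℝ := (1 / (16 * ((4 * K + 9 : ℕ):ℝ) ^ 2)) ^ 2 / 80 with hq
  have hq0 : 0 < q := by positivity
  set w : ℝ := δ * (δ / 40000) / (3.84 * 10 ^ 8 * ((4 * K + 9 : ℕ):ℝ) ^ 2) with hw
  have hw0 : 0 < w := by positivity
  set η : ℝ := min (δ / 48) (min q w) with hη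
  have hη0 : 0 < η := by
    rw [hη]; exact lt_min (by positivity) (lt_min hq0 hw0)
  have hη1 : η ≤ δ / 48 := min_le_left _ _
  have hη2 : η ≤ q := (min_le_right _ _).trans (min_le_left _ _)
  have hη3 : η ≤ w := (min_le_right _ _).trans (min_le_right _ _)
  obtain ⟨ε, hε, n1, hstab⟩ := stab η hη0 (by linarith only [hη1, hδ1])
  obtain ⟨n2, hX⟩ := hUB (min ε 1) (lt_min hε one_pos)
  set s0 : ℝ := 10 ^ 5 + 2 * 10 ^ 6 * C + 3 / c1 + 6400 * (60 * K + 200) +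
    3200 * (2 * K + 4) / δ + 16 / q + 250 / δ + 4 * K + 16 / (ρ0 * δ) + 1600 / δ with hs0
  refine ⟨max (max n1 n2) (⌈s0 ^ 2⌉₊ + 1), fun n hn S hmax hS hval => ?_⟩
  have hn1 : n1 ≤ n := (le_max_left _ _).trans ((le_max_left _ _).trans hn)
  have hn2 : n2 ≤ n := (le_max_right _ _).trans ((le_max_left _ _).trans hn)
  obtain ⟨X, hXc, hXu, hXD⟩ := hX n hn2
  have hst' := hstab n hn1 S hS hmax.card (fun v hv => (hval v hv).2)
  have hn3 : ⌈s0 ^ 2⌉₊ ≤ n := by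
    have := (le_max_right (max n1 n2) (⌈s0 ^ 2⌉₊ + 1)).trans hn
    omega
  have hn4 : s0 ^ 2 ≤ n := (Nat.le_ceil _).trans (by exact_mod_cast hn3)
  have hKr : (1:ℝ) ≤ K := by exact_mod_cast hK1
  have t1 : 0 ≤ 3 / c1 := by positivity
  have t2 : (0:ℝ) ≤ 6400 * (60 * K + 200) := by positivity
  have t3 : (0:ℝ) ≤ 3200 * (2 * K + 4) / δ := by positivity
  have t4 : 0 ≤ 16 / q := by positivity
  have t5 : 0 ≤ 250 / δ := by positivity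
  have t6 : (0:ℝ) ≤ 4 * K := by positivity
  have t7 : 0 ≤ 16 / (ρ0 * δ) := by positivity
  have t8 : 0 ≤ 1600 / δ := by positivity
  have t9 : (0:ℝ) ≤ 2 * 10 ^ 6 * C := by positivity
  obtain ⟨s, hs⟩ : ∃ s, s = Real.sqrt n := ⟨_, rfl⟩
  have hss : s0 ≤ s := by rw [hs]; exact Real.le_sqrt_of_sq_le hn4
  obtain ⟨hs5, u1, u2, u3, u4, u5, u6, u7, u8, u9⟩ :=
    ten_sum (by positivity) t9 t1 t2 t3 t4 t5 t6 t7 t8 (hs0 ▸ hss)
  clear hn1 hn2 hn3 hn4 t1 t2 t3 t4 t5 t6 t7 t8 t9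
  have hspos : 0 < s := lt_of_lt_of_le (by norm_num) hs5
  have hnsq : (n:ℝ) = s ^ 2 := by rw [hs, Real.sq_sqrt (Nat.cast_nonneg _)]
  clear_value s0
  have hn10 : 10 ^ 10 ≤ n := by
    have h1 : ((10:ℝ) ^ 5) ^ 2 ≤ s ^ 2 := pow_le_pow_left₀ (by positivity) hs5 2
    rw [← hnsq] at h1
    have h2 : ((10 ^ 10 : ℕ) : ℝ) ≤ n := by push_cast; linarith only [h1]
    exact_mod_cast h2
  obtain ⟨M, R1, hM3, hM1, hM2, hR1, hR2⟩ := MR_choice hC10 hc1 hspos u1 u2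
  obtain ⟨g, hg⟩ : ∃ g, g = Real.sqrt (8 * Real.pi / Real.sqrt 3) := ⟨_, rfl⟩
  obtain ⟨hg1, hg2, hgsq⟩ := g_bd hg
  have hg0 : 0 < g := by linarith only [hg1]
  obtain ⟨hhh, hsqh⟩ := hh_eq hspos hnsq hg0 hgsq
  have hl2 : 2 * rho n = 800 / s := by unfold rho; rw [← hs]; ring
  have hs1 : 1 ≤ s := by linarith only [hs5]
  have hhs : hh n ≤ 16 / s := by
    rw [hhh]; exact hh_le hg0 hg2 hs1
  have hhq : hh n ≤ q := hhs.trans (div_s_le hspos hq0 u5)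
  have hH : hh n ≤ 1 / 4 := by
    refine hhs.trans ?_
    rw [div_le_iff₀ hspos]; linarith only [hs5]
  have hηq : 40 * (η + hh n) ≤ (1 / (16 * ((4 * K + 9 : ℕ):ℝ) ^ 2)) ^ 2 := by
    have e : (1 / (16 * ((4 * K + 9 : ℕ):ℝ) ^ 2)) ^ 2 = 80 * q := by rw [hq]; ring
    rw [e]; linarith only [hη2, hhq]
  have hη3' : 3.84 * 10 ^ 8 * ((4 * K + 9 : ℕ):ℝ) ^ 2 * η ≤ δ * (δ / 40000) := by
    have h1 := mul_le_mul_of_nonneg_left hη3
      (show (0:ℝ) ≤ 3.84 * 10 ^ 8 * ((4 * K + 9 : ℕ):ℝ) ^ 2 by positivity)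
    refine h1.trans (le_of_eq ?_)
    rw [hw, mul_div_cancel₀]
    positivity
  have hVX := hmax.max' hXc hXu
  have hnpos : 0 < n := by omega
  have hnr : (0:ℝ) < n := by exact_mod_cast hnpos
  have hs3 : 0 < Real.sqrt 3 := Real.sqrt_pos.2 (by norm_num)
  have hD1 : 4 * Real.pi / 3 - Vol S ≤ (1 + min ε 1) * (4 * Real.pi ^ 2 / Real.sqrt 3) / n := by
    linarith only [hVX, hXD]
  have hD2 : 4 * Real.pi / 3 - Vol S ≤ (1 + ε) * (4 * Real.pi ^ 2 / Real.sqrt 3) / n := by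
    refine hD1.trans ?_
    apply div_le_div_of_nonneg_right _ hnr.le
    apply mul_le_mul_of_nonneg_right _ (by positivity)
    exact add_le_add le_rfl (min_le_left ε 1)
  have hD3 : 4 * Real.pi / 3 - Vol S ≤ 100 / n := by
    refine hD1.trans ?_
    apply div_le_div_of_nonneg_right _ hnr.le
    exact const_bd (min_le_right ε 1)
  have hcov : Cov S (rho n) := cov_max (by omega) hmax hD3
  obtain ⟨ℓ, hℓ⟩ := exists_generic S
  have hst := hst' hD2 ℓ hℓ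
  have hchain := chain (S := S) (n := n) (s := s) (g := g) (ρ0 := ρ0) (δ := δ) (η := η)
    (K := K) (M := M) (R1 := R1) hspos hnsq hs.symm hn10 hg1 hg2 hgsq hρ00 hρ01 hδ0 hδ1
    hη0 hη1 hηq hη3' hK1 hKδ hH hM3 ?_ ?_ ?_ ?_ (s_of_div hδ0 u6) u7 ?_ ?_
    (div_s_le hspos hδ0 u9) hS hmax hcov hval hℓ hst
  · exact absurd hchain (not_le.2 hδ2)
  · rw [hl2]
    have h1 := mul_le_mul_of_nonneg_left hM1 (show (0:ℝ) ≤ 80000 / s by positivity)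
    have e1 : 80000 / s * (s / 320000) = 1 / 4 := by field_simp; norm_num
    rw [e1] at h1
    have e2 : 100 * (C * (M + 1 : ℝ)) * (800 / s) = 80000 / s * (C * (M + 1 : ℝ)) := by ring
    rw [e2]; exact h1
  · have : 112 * C * (R1:ℝ) + 1 < M := hM2
    rw [hC] at this
    exact_mod_cast this
  · have h1 : 4 * (ρ0 * s / g) ≤ 2 / 3 * (c1 * s) := by
      rw [hρ0]
      have e1 : 4 * (c1 / 2 * s / g) = (2 / g) * (c1 * s) := by ring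
      rw [e1]
      apply mul_le_mul_of_nonneg_right _ (by positivity)
      rw [div_le_div_iff₀ hg0 (by norm_num)]; linarith only [hg1]
    exact h1.trans hR2
  · rw [hl2]
    have h1 : 4 * (R1:ℝ) * (800 / s) ≤ 1 / 8 := by
      have e1 : 4 * (R1:ℝ) * (800 / s) ≤ 4 * (c1 * s) * (800 / s) :=
        mul_le_mul_of_nonneg_right (by linarith only [hR1]) (by positivity)
      have e2 : 4 * (c1 * s) * (800 / s) = 3200 * c1 := by field_simp; norm_num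
      rw [e2] at e1
      refine e1.trans ?_
      norm_num at hc1' ⊢; linarith only [hc1']
    have h2 : (60 * (K:ℝ) + 200) * (800 / s) ≤ 1 / 8 := by
      rw [← mul_div_assoc, div_le_iff₀ hspos]; linarith only [u3]
    have e3 : (4 * (R1:ℝ) + 60 * K + 200) * (800 / s)
        = 4 * (R1:ℝ) * (800 / s) + (60 * (K:ℝ) + 200) * (800 / s) := by ring
    rw [e3]; linarith only [h1, h2]
  · have h1 := s_of_div hδ0 u4
    have e1 : 2 * (2 * (K:ℝ) + 4) * (800 / s) = (3200 * (2 * (K:ℝ) + 4) / s) / 2 := by ring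
    rw [e1]
    have h2 : 3200 * (2 * (K:ℝ) + 4) / s ≤ δ := div_s_le hspos hδ0 u4
    linarith only [h2]
  · have h1 := s_of_div (mul_pos hρ00 hδ0) u8
    have e1 : ρ0 * s / g * δ = s * (ρ0 * δ) / g := by ring
    rw [e1, le_div_iff₀ hg0]; linarith only [h1, hg2]

end Med
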