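import Pool.Agent.Helper946.M11

set_option autoImplicit false

namespace Med

open MeasureTheory
open scoped Pointwise

noncomputable def gp (N : ℕ) (p : ℤ × ℤ) : ℝ × ℝ := ((p.1 : ℝ) / N, (p.2 : ℝ) / N)

def Sq (N : ℕ) (p : ℤ × ℤ) : Set (ℝ × ℝ) := {z | ⌊z.1 * N⌋ = p.1 ∧ ⌊z.2 * N⌋ = p.2}

lemma Sq_eq {N : ℕ} (hN : 0 < N) (p : ℤ × ℤ) :
    Sq N p = Set.Ico ((p.1:ℝ) / N) ((p.1 + 1) / N) ×ˢ Set.Ico ((p.2:ℝ) / N) ((p.2 + 1) / N) := by
  have hNr : (0:ℝ) < N := by exact_mod_cast hN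
  ext z
  simp only [Sq, Set.mem_ofPred_eq, Int.floor_eq_iff, Set.mem_prod, Set.mem_Ico,
    div_le_iff₀ hNr, lt_div_iff₀ hNr]

lemma Sq_meas {N : ℕ} (hN : 0 < N) (p : ℤ × ℤ) : MeasurableSet (Sq N p) := by
  rw [Sq_eq hN]
  exact measurableSet_Ico.prod measurableSet_Ico

lemma Sq_vol {N : ℕ} (hN : 0 < N) (p : ℤ × ℤ) :
    volume (Sq N p) = ENNReal.ofReal (1 / (N:ℝ) ^ 2) := by
  have hNr : (0:ℝ) < N := by exact_mod_cast hN
  rw [Sq_eq hN, Measure.volume_eq_prod, Measure.prod_prod, Real.volume_Ico, Real.volume_Ico,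
    ← ENNReal.ofReal_mul]
  · congr 1; field_simp; ring
  · rw [← sub_div]; apply div_nonneg _ hNr.le; linarith

lemma Sq_disj {N : ℕ} {p q : ℤ × ℤ} {z : ℝ × ℝ} (hp : z ∈ Sq N p) (hq : z ∈ Sq N q) : p = q := by
  obtain ⟨h1, h2⟩ := hp
  obtain ⟨h3, h4⟩ := hq
  exact Prod.ext (h1.symm.trans h3) (h2.symm.trans h4)

lemma Sq_sum {N : ℕ} (hN : 0 < N) (L : Finset (ℤ × ℤ)) :
    volume (⋃ p ∈ L, Sq N p) = ENNReal.ofReal (L.card / (N:ℝ) ^ 2) := by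
  rw [measure_biUnion_finset]
  · rw [Finset.sum_congr rfl (fun p _ => Sq_vol hN p), Finset.sum_const, nsmul_eq_mul,
      ← ENNReal.ofReal_natCast, ← ENNReal.ofReal_mul (by positivity)]
    congr 1; ring
  · intro p _ q _ hpq
    rw [Function.onFun, Set.disjoint_left]
    intro z hz hz'
    exact hpq (Sq_disj hz hz')
  · intro p _; exact Sq_meas hN p

lemma smul_vol {c : ℝ} (hc : 0 ≤ c) (P : Set (ℝ × ℝ)) :
    volume (c • P) = ENNReal.ofReal (c ^ 2) * volume P := by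
  rw [Measure.addHaar_smul]
  have : Module.finrank ℝ (ℝ × ℝ) = 2 := by simp
  rw [this, abs_of_nonneg (by positivity)]

lemma gp_diff {N : ℕ} (hN : 0 < N) {p : ℤ × ℤ} {z : ℝ × ℝ} (hz : z ∈ Sq N p) :
    0 ≤ z.1 - (gp N p).1 ∧ z.1 - (gp N p).1 < 1 / N ∧ 0 ≤ z.2 - (gp N p).2 ∧
    z.2 - (gp N p).2 < 1 / N := by
  have hNr : (0:ℝ) < N := by exact_mod_cast hN
  rw [Sq_eq hN] at hz
  obtain ⟨⟨h1, h2⟩, h3, h4⟩ := hz
  rw [add_div] at h2 h4
  unfold gp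
  simp only
  refine ⟨by linarith, by linarith, by linarith, by linarith⟩

lemma count_upper {P : Set (ℝ × ℝ)} (hP : Convex ℝ P) {r δ : ℝ} (hδ : 0 < δ)
    (hr : ∀ z : ℝ × ℝ, |z.1| < r → |z.2| < r → z ∈ P) {N : ℕ} (hN : 0 < N) (hNr : 1 / (N:ℝ) < δ * r)
    (L : Finset (ℤ × ℤ)) (hL : ∀ p ∈ L, gp N p ∈ P) :
    ENNReal.ofReal (L.card / (N:ℝ) ^ 2) ≤ ENNReal.ofReal ((1 + δ) ^ 2) * volume P := by
  rw [← Sq_sum hN, ← smul_vol (by linarith)]
  apply measure_mono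
  intro z hz
  simp only [Set.mem_iUnion] at hz
  obtain ⟨p, hp, hz⟩ := hz
  obtain ⟨h1, h2, h3, h4⟩ := gp_diff hN hz
  have hv : ((z.1 - (gp N p).1) / δ, (z.2 - (gp N p).2) / δ) ∈ P := by
    apply hr
    · simp only
      rw [abs_of_nonneg (by positivity), div_lt_iff₀ hδ]; linarith
    · simp only
      rw [abs_of_nonneg (by positivity), div_lt_iff₀ hδ]; linarith
  have hc := hP (hL p hp) hv (a := 1 / (1 + δ)) (b := δ / (1 + δ)) (by positivity) (by positivity)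
    (by field_simp)
  refine ⟨_, hc, ?_⟩
  ext
  · simp only [Prod.smul_fst, Prod.fst_add, smul_eq_mul]
    field_simp; ring
  · simp only [Prod.smul_snd, Prod.snd_add, smul_eq_mul]
    field_simp; ring

lemma count_lower {P : Set (ℝ × ℝ)} (hP : Convex ℝ P) {r δ : ℝ} (hδ : 0 < δ) (hδ1 : δ < 1)
    (hr : ∀ z : ℝ × ℝ, |z.1| < r → |z.2| < r → z ∈ P) {N : ℕ} (hN : 0 < N) (hNr : 1 / (N:ℝ) < δ * r)
    (L : Finset (ℤ × ℤ)) (hL : ∀ p : ℤ × ℤ, gp N p ∈ P → gp N (p.1 + 1, p.2) ∈ P →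
      gp N (p.1, p.2 + 1) ∈ P → gp N (p.1 + 1, p.2 + 1) ∈ P → p ∈ L) :
    ENNReal.ofReal ((1 - δ) ^ 2) * volume P ≤ ENNReal.ofReal (L.card / (N:ℝ) ^ 2) := by
  have hNr0 : (0:ℝ) < N := by exact_mod_cast hN
  rw [← Sq_sum hN, ← smul_vol (by linarith)]
  apply measure_mono
  rintro _ ⟨y, hy, rfl⟩
  set z : ℝ × ℝ := (1 - δ) • y with hz
  set p : ℤ × ℤ := (⌊z.1 * N⌋, ⌊z.2 * N⌋) with hp
  have hzp : z ∈ Sq N p := ⟨rfl, rfl⟩
  simp only [Set.mem_iUnion]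
  refine ⟨p, ?_, hzp⟩
  obtain ⟨h1, h2, h3, h4⟩ := gp_diff hN hzp
  have key : ∀ c : ℝ × ℝ, |c.1 - z.1| ≤ 1 / N → |c.2 - z.2| ≤ 1 / N → c ∈ P := by
    intro c hc1 hc2
    have hv : ((c.1 - z.1) / δ, (c.2 - z.2) / δ) ∈ P := by
      apply hr
      · simp only
        rw [abs_div, abs_of_pos hδ, div_lt_iff₀ hδ]; linarith
      · simp only
        rw [abs_div, abs_of_pos hδ, div_lt_iff₀ hδ]; linarith
    have hc := hP hy hv (a := 1 - δ) (b := δ) (by linarith) hδ.le (by ring)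
    convert hc using 1
    ext
    · simp only [Prod.smul_fst, Prod.fst_add, smul_eq_mul]
      rw [mul_div_cancel₀ _ hδ.ne', hz]; simp
    · simp only [Prod.smul_snd, Prod.snd_add, smul_eq_mul]
      rw [mul_div_cancel₀ _ hδ.ne', hz]; simp
  have e1 : ∀ q : ℤ × ℤ, (gp N (q.1 + 1, q.2)).1 = (gp N q).1 + 1 / N := by
    intro q; unfold gp; push_cast; rw [add_div]
  have e2 : ∀ q : ℤ × ℤ, (gp N (q.1, q.2 + 1)).2 = (gp N q).2 + 1 / N := by
    intro q; unfold gp; push_cast; rw [add_div]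
  have g1 : (gp N (p.1 + 1, p.2)).2 = (gp N p).2 := rfl
  have g2 : (gp N (p.1, p.2 + 1)).1 = (gp N p).1 := rfl
  have g3 : (gp N (p.1 + 1, p.2 + 1)).1 = (gp N p).1 + 1 / N := e1 p
  have g4 : (gp N (p.1 + 1, p.2 + 1)).2 = (gp N p).2 + 1 / N := e2 p
  apply hL
  · apply key
    · rw [abs_le]; constructor <;> linarith
    · rw [abs_le]; constructor <;> linarith
  · apply key
    · rw [e1, abs_le]; constructor <;> linarith
    · rw [g1, abs_le]; constructor <;> linarith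
  · apply key
    · rw [g2, abs_le]; constructor <;> linarith
    · rw [e2, abs_le]; constructor <;> linarith
  · apply key
    · rw [g3, abs_le]; constructor <;> linarith
    · rw [g4, abs_le]; constructor <;> linarith

lemma exists_L (P : Set (ℝ × ℝ)) {R : ℝ} (hR : ∀ z ∈ P, |z.1| ≤ R ∧ |z.2| ≤ R) {N : ℕ}
    (hN : 0 < N) : ∃ L : Finset (ℤ × ℤ), ∀ p, p ∈ L ↔ gp N p ∈ P := by
  classical
  have hNr0 : (0:ℝ) < N := by exact_mod_cast hN
  set M : ℤ := ⌈R * N⌉ with hM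
  have hM' : R * N ≤ M := Int.le_ceil _
  refine ⟨((Finset.Icc (-M) M) ×ˢ (Finset.Icc (-M) M)).filter (fun p => gp N p ∈ P), fun p => ?_⟩
  rw [Finset.mem_filter]
  constructor
  · exact fun h => h.2
  · intro h
    refine ⟨?_, h⟩
    obtain ⟨h1, h2⟩ := hR _ h
    have key : ∀ i : ℤ, |(i:ℝ) / N| ≤ R → -M ≤ i ∧ i ≤ M := by
      intro i hi
      rw [abs_div, abs_of_pos hNr0, div_le_iff₀ hNr0] at hi
      have := abs_le.1 (hi.trans hM')
      constructor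
      · exact_mod_cast this.1
      · exact_mod_cast this.2
    rw [Finset.mem_product, Finset.mem_Icc, Finset.mem_Icc]
    exact ⟨key _ h1, key _ h2⟩

end Med
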