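import Pool.Agent.Helper946.M25

set_option autoImplicit false

namespace Med

open MeasureTheory
open scoped Pointwise

def TO (a b c : E) : Set E := {x | 0 < dt b c x ∧ 0 < dt c a x ∧ 0 < dt a b x ∧
  dt b c x + dt c a x + dt a b x ≤ dt a b c}

lemma TO_meas (a b c : E) : MeasurableSet (TO a b c) := by
  unfold TO
  apply MeasurableSet.inter (measurableSet_lt measurable_const (dt_cont b c).measurable)
  apply MeasurableSet.inter (measurableSet_lt measurable_const (dt_cont c a).measurable)
  apply MeasurableSet.inter (measurableSet_lt measurable_const (dt_cont a b).measurable)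
  exact measurableSet_le (((dt_cont b c).add (dt_cont c a)).add (dt_cont a b)).measurable
    measurable_const

lemma vol_TO {a b c : E} (hd : 0 < dt a b c) :
    volume (TO a b c) = ENNReal.ofReal (dt a b c / 6) := by
  rw [psi_vol (u := a) (e := b - a) (f := c - a) (by rw [dt_sub_sub]; exact hd.ne')
    (TO_meas a b c), dt_sub_sub, abs_of_pos hd,
    cone_slices ((psi_meas _ _ _) (TO_meas a b c)) (fun s => if s ≤ 1 then D0 else ∅)]
  · have h1 : ∫⁻ s in Set.Ioi (0:ℝ), ENNReal.ofReal (s ^ 2) * volume (if s ≤ 1 then D0 else ∅)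
        = ∫⁻ s in Set.Ioo (0:ℝ) 1, ENNReal.ofReal (s ^ 2 / 2) := by
      rw [← lintegral_indicator measurableSet_Ioi, ← lintegral_indicator measurableSet_Ioo]
      have hae : ∀ᵐ x : ℝ, x ≠ 1 := by
        rw [ae_iff]; simp
      apply lintegral_congr_ae
      filter_upwards [hae] with s hs
      by_cases h2 : s ∈ Set.Ioo (0:ℝ) 1
      · rw [Set.indicator_of_mem h2, Set.indicator_of_mem (by exact h2.1), if_pos h2.2.le, vol_D0,
          ← ENNReal.ofReal_mul (by positivity)]
        congr 1; ring
      · rw [Set.indicator_of_notMem h2]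
        by_cases h3 : 0 < s
        · have h4 : ¬ s ≤ 1 := by
            intro h5; exact h2 ⟨h3, lt_of_le_of_ne h5 hs⟩
          rw [Set.indicator_of_mem (by exact h3), if_neg h4]; simp
        · rw [Set.indicator_of_notMem (by simpa using h3)]
    rw [h1, lint_Ioo zero_le_one (by fun_prop) (fun x _ => by positivity),
      ← ENNReal.ofReal_mul hd.le]
    congr 1
    have : ∫ x in (0:ℝ)..1, x ^ 2 / 2 = 1 / 6 := by
      rw [intervalIntegral.integral_div, integral_pow]; norm_num
    rw [this]; ring
  · intro s hs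
    ext q
    simp only [Set.mem_ofPred_eq, Set.mem_preimage, TO, psi_dt1, psi_dt2, psi_dt3,
      mul_pos_iff' hd]
    have e1 : (s - q.1 - q.2) * dt a b c + q.1 * dt a b c + q.2 * dt a b c ≤ dt a b c ↔ s ≤ 1 := by
      have e2 : (s - q.1 - q.2) * dt a b c + q.1 * dt a b c + q.2 * dt a b c = s * dt a b c := by
        ring
      rw [e2]
      exact mul_le_iff_le_one_left hd
    rw [e1]
    by_cases h1 : s ≤ 1
    · rw [if_pos h1]
      simp only [D0, Set.mem_ofPred_eq, h1, and_true]
      rw [← add_div, div_lt_one hs]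
      constructor
      · rintro ⟨a1, a2, a3⟩
        exact ⟨div_pos a2 hs, div_pos a3 hs, by linarith⟩
      · rintro ⟨a2, a3, a1⟩
        have b2 : 0 < q.1 := by
          have := mul_pos a2 hs; rwa [div_mul_cancel₀ _ hs.ne'] at this
        have b3 : 0 < q.2 := by
          have := mul_pos a3 hs; rwa [div_mul_cancel₀ _ hs.ne'] at this
        exact ⟨by linarith, b2, b3⟩
    · rw [if_neg h1]
      simp [h1]
  · intro s hs
    ext q
    simp only [Set.mem_ofPred_eq, Set.mem_preimage, TO, psi_dt1, psi_dt2, psi_dt3,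
      mul_pos_iff' hd, Set.mem_empty_iff_false, iff_false]
    rintro ⟨h1, h2, h3, -⟩
    linarith

lemma TT_sub_hull {X : Finset E} {a b c : E} (ha : a ∈ X) (hb : b ∈ X) (hc : c ∈ X)
    (h0 : (0:E) ∈ convexHull ℝ (X : Set E)) (hd : 0 < dt a b c) :
    TO a b c ⊆ convexHull ℝ (X : Set E) := by
  rintro x ⟨h1, h2, h3, h4⟩
  set D := dt a b c with hD
  have e := basis_exp a b c x
  have ex : x = (dt b c x / D) • a + (dt c a x / D) • b + (dt a b x / D) • c
      + ((D - (dt b c x + dt c a x + dt a b x)) / D) • (0:E) := by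
    have e2 : x = D⁻¹ • (D • x) := by rw [smul_smul, inv_mul_cancel₀ hd.ne', one_smul]
    rw [smul_zero, add_zero]
    nth_rewrite 1 [e2]
    rw [e]
    simp only [smul_add, smul_smul, div_eq_inv_mul]
  have hconv := convex_convexHull ℝ (X : Set E)
  have ma : a ∈ convexHull ℝ (X : Set E) := subset_convexHull _ _ ha
  have mb : b ∈ convexHull ℝ (X : Set E) := subset_convexHull _ _ hb
  have mc : c ∈ convexHull ℝ (X : Set E) := subset_convexHull _ _ hc
  set p := dt b c x / D
  set q := dt c a x / D
  set r := dt a b x / D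
  set t := (D - (dt b c x + dt c a x + dt a b x)) / D with ht
  have hp : 0 < p := div_pos h1 hd
  have hq : 0 < q := div_pos h2 hd
  have hr : 0 < r := div_pos h3 hd
  have ht0 : 0 ≤ t := div_nonneg (by linarith) hd.le
  have hs : p + q + r + t = 1 := by
    rw [ht]; simp only [p, q, r]; field_simp; ring
  -- combine
  have m1 : (p / (p + q)) • a + (q / (p + q)) • b ∈ convexHull ℝ (X : Set E) :=
    hconv ma mb (by positivity) (by positivity) (by field_simp)
  have m2 : ((p + q) / (p + q + r)) • ((p / (p + q)) • a + (q / (p + q)) • b)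
      + (r / (p + q + r)) • c ∈ convexHull ℝ (X : Set E) :=
    hconv m1 mc (by positivity) (by positivity) (by field_simp)
  have m3 := hconv m2 h0 (a := p + q + r) (b := t) (by positivity) ht0 (by linarith)
  convert m3 using 1
  rw [ex]
  simp only [smul_add, smul_smul]
  congr 2
  · congr 1
    · congr 1; field_simp
    · congr 1; field_simp
  · congr 1; field_simp

lemma TO_sub_ball {a b c : E} (ha : ‖a‖ = 1) (hb : ‖b‖ = 1) (hc : ‖c‖ = 1) (hd : 0 < dt a b c) :
    TO a b c ⊆ OC a b c ∩ Metric.closedBall 0 1 := by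
  rintro x ⟨h1, h2, h3, h4⟩
  refine ⟨⟨h1, h2, h3⟩, ?_⟩
  rw [mem_closedBall_zero_iff]
  have e := congrArg norm (basis_exp a b c x)
  rw [norm_smul, Real.norm_of_nonneg hd.le] at e
  have h5 : dt a b c * ‖x‖ ≤ dt a b c * 1 := by
    rw [e]
    refine (norm_add_le _ _).trans ?_
    refine (add_le_add (norm_add_le _ _) le_rfl).trans ?_
    rw [norm_smul, norm_smul, norm_smul, ha, hb, hc, Real.norm_of_nonneg h1.le,
      Real.norm_of_nonneg h2.le, Real.norm_of_nonneg h3.le]
    linarith
  exact le_of_mul_le_mul_left h5 hd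

end Med
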