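import Pool.Agent.Helper946.M26

set_option autoImplicit false

namespace Med

open MeasureTheory
open scoped Pointwise

lemma fin_of_sub_ball {s : Set E} {r : ℝ} (h : s ⊆ Metric.closedBall 0 r) : volume s ≠ ⊤ :=
  ((measure_mono h).trans_lt measure_closedBall_lt_top).ne

lemma real_ball : volume.real (Metric.closedBall (0 : E) 1) = 4 * Real.pi / 3 := by
  rw [measureReal_def, vol_ball, ENNReal.toReal_ofReal (by positivity)]

lemma OC_smul_mem {a b c x : E} {s : ℝ} (hs : 0 < s) : s • x ∈ OC a b c ↔ x ∈ OC a b c := by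
  have e : ∀ y z : E, dt y z (s • x) = dt y z x * s := by
    intro y z; simp [dt]; ring
  simp only [OC, Set.mem_ofPred_eq, e, mul_pos_iff' hs]

theorem patch_bound {ι : Type*} (T : Finset ι) (A B C : ι → E) (X : Finset E)
    (hX : ∀ x ∈ X, ‖x‖ = 1) (hA : ∀ t ∈ T, A t ∈ X) (hB : ∀ t ∈ T, B t ∈ X)
    (hC : ∀ t ∈ T, C t ∈ X) {k dm : ℝ} (hk0 : 0 ≤ k) (hk1 : k < 1)
    (hd : ∀ t ∈ T, 0 < dt (A t) (B t) (C t)) (hdm : ∀ t ∈ T, dt (A t) (B t) (C t) ≤ dm)
    (he1 : ∀ t ∈ T, ‖A t - B t‖ ^ 2 ≤ k) (he2 : ∀ t ∈ T, ‖A t - C t‖ ^ 2 ≤ k)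
    (he3 : ∀ t ∈ T, ‖B t - C t‖ ^ 2 ≤ k)
    (hdisj : ∀ t ∈ T, ∀ t' ∈ T, ∀ x, x ∈ OC (A t) (B t) (C t) → x ∈ OC (A t') (B t') (C t') →
      t = t')
    {ρ : ℝ} (hρ0 : 0 ≤ ρ) (hρ1 : ρ ≤ 1) (hcov : Cov X ρ)
    {v : ℝ} (hv : v ≤ ∑ t ∈ T, dt (A t) (B t) (C t) / 6) :
    4 * Real.pi / 3 - Vol X ≤ T.card * (dm * (((1 - k)⁻¹) ^ 2 * (3 * k) / 48))
      + (1 - (1 - ρ ^ 2 / 2) ^ 3) * (4 * Real.pi / 3 - v) := by
  classical
  set B1 := Metric.closedBall (0:E) 1 with hB1
  set r0 := 1 - ρ ^ 2 / 2 with hr0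
  have hr00 : 0 < r0 := by rw [hr0]; nlinarith
  have hr01 : r0 ≤ 1 := by rw [hr0]; nlinarith [sq_nonneg ρ]
  set U := ⋃ t ∈ T, OC (A t) (B t) (C t) with hU
  have hUm : MeasurableSet U := by
    apply Finset.measurableSet_biUnion
    intro t _; exact OC_meas _ _ _
  set G := Uᶜ with hG
  have hGm : MeasurableSet G := hUm.compl
  have hhull := hull_ball hX hρ0 hcov
  have h0 : (0:E) ∈ convexHull ℝ (X : Set E) := hhull (by
    rw [Metric.mem_closedBall, dist_self]; exact hr00.le)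
  have hfB : ∀ s : Set E, s ⊆ B1 → volume s ≠ ⊤ := fun s hs => fin_of_sub_ball hs
  -- cover
  have hcover : B1 ⊆ convexHull ℝ (X : Set E) ∪
      ((⋃ t ∈ T, (OC (A t) (B t) (C t) ∩ B1) \ TO (A t) (B t) (C t)) ∪
        (B1 ∩ G) \ (Metric.closedBall 0 r0 ∩ G)) := by
    intro x hx
    by_cases h1 : x ∈ convexHull ℝ (X : Set E)
    · exact Or.inl h1
    · right
      by_cases h2 : x ∈ U
      · left
        rw [hU] at h2
        simp only [Set.mem_iUnion] at h2 ⊢
        obtain ⟨t, ht, h2⟩ := h2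
        refine ⟨t, ht, ⟨h2, hx⟩, fun h3 => h1 ?_⟩
        exact TT_sub_hull (hA t ht) (hB t ht) (hC t ht) h0 (hd t ht) h3
      · right
        exact ⟨⟨hx, h2⟩, fun h3 => h1 (hhull h3.1)⟩
  have c1 := measureReal_mono (μ := volume) hcover (by
    apply fin_of_sub_ball (r := 1)
    apply Set.union_subset (hull_sub_ball hX)
    apply Set.union_subset
    · apply Set.iUnion₂_subset
      intro t _ x hx; exact hx.1.2
    · intro x hx; exact hx.1.1)
  have c2 := c1.trans (measureReal_union_le _ _)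
  have c3 := c2.trans (add_le_add le_rfl (measureReal_union_le _ _))
  have c4 := c3.trans (add_le_add le_rfl (add_le_add (measureReal_biUnion_finset_le _ _) le_rfl))
  rw [hB1, real_ball] at c4
  -- each triangle
  have c5 : ∀ t ∈ T, volume.real ((OC (A t) (B t) (C t) ∩ B1) \ TO (A t) (B t) (C t)) ≤
      dm * (((1 - k)⁻¹) ^ 2 * (3 * k) / 48) := by
    intro t ht
    have ha := hX _ (hA t ht)
    have hb := hX _ (hB t ht)
    have hc := hX _ (hC t ht)
    have hdt := hd t ht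
    have hu := cone_upper ha hb hc hdt hk1 (he1 t ht) (he2 t ht) (he3 t ht)
    have hsub := TO_sub_ball ha hb hc hdt
    rw [measureReal_def, measure_sdiff hsub (TO_meas _ _ _).nullMeasurableSet
      (fin_of_sub_ball (hsub.trans Set.inter_subset_right)), vol_TO hdt]
    have h2 := (tsub_le_tsub_right hu (ENNReal.ofReal (dt (A t) (B t) (C t) / 6)))
    rw [← ENNReal.ofReal_sub _ (by positivity)] at h2
    have h3 := ENNReal.toReal_mono ENNReal.ofReal_ne_top h2
    refine h3.trans ?_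
    have hk2 : 0 < (1 - k)⁻¹ := inv_pos.2 (by linarith)
    set s := ‖A t - B t‖ ^ 2 + ‖A t - C t‖ ^ 2 + ‖B t - C t‖ ^ 2 with hs
    have hs0 : 0 ≤ s := by positivity
    have hs3 : s ≤ 3 * k := by
      have := he1 t ht; have := he2 t ht; have := he3 t ht; linarith
    have e1 : dt (A t) (B t) (C t) * (1 / 6 + ((1 - k)⁻¹) ^ 2 * s / 48) - dt (A t) (B t) (C t) / 6
        = dt (A t) (B t) (C t) * (((1 - k)⁻¹) ^ 2 * s / 48) := by ring
    rw [e1, ENNReal.toReal_ofReal (by positivity)]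
    apply mul_le_mul (hdm t ht) _ (by positivity) (hdt.le.trans (hdm t ht))
    apply div_le_div_of_nonneg_right _ (by norm_num)
    exact mul_le_mul_of_nonneg_left hs3 (by positivity)
  have c6 := Finset.sum_le_sum c5
  rw [Finset.sum_const, nsmul_eq_mul] at c6
  -- the rest
  have hscale : Metric.closedBall 0 r0 ∩ G = r0 • (B1 ∩ G) := by
    ext x
    constructor
    · rintro ⟨h1, h2⟩
      refine ⟨r0⁻¹ • x, ⟨?_, ?_⟩, ?_⟩
      · rw [hB1, mem_closedBall_zero_iff, norm_smul, norm_inv, Real.norm_of_nonneg hr00.le]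
        rw [mem_closedBall_zero_iff] at h1
        rw [inv_mul_le_iff₀ hr00]; linarith
      · intro h3
        apply h2
        rw [hU] at h3 ⊢
        simp only [Set.mem_iUnion] at h3 ⊢
        obtain ⟨t, ht, h3⟩ := h3
        rw [OC_smul_mem (inv_pos.2 hr00)] at h3
        exact ⟨t, ht, h3⟩
      · simp only [smul_smul, mul_inv_cancel₀ hr00.ne', one_smul]
    · rintro ⟨y, ⟨h1, h2⟩, rfl⟩
      refine ⟨?_, ?_⟩
      · simp only
        rw [hB1, mem_closedBall_zero_iff] at h1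
        rw [mem_closedBall_zero_iff, norm_smul, Real.norm_of_nonneg hr00.le]
        nlinarith
      · intro h3
        apply h2
        rw [hU] at h3 ⊢
        simp only [Set.mem_iUnion] at h3 ⊢
        obtain ⟨t, ht, h3⟩ := h3
        rw [OC_smul_mem hr00] at h3
        exact ⟨t, ht, h3⟩
  have hfin : Module.finrank ℝ E = 3 := by simp
  have hsc2 : volume.real (Metric.closedBall 0 r0 ∩ G) = r0 ^ 3 * volume.real (B1 ∩ G) := by
    rw [hscale, measureReal_def, Measure.addHaar_smul, hfin, abs_of_nonneg (by positivity),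
      ENNReal.toReal_mul, ENNReal.toReal_ofReal (by positivity), measureReal_def]
  have c7 : volume.real ((B1 ∩ G) \ (Metric.closedBall 0 r0 ∩ G))
      = (1 - r0 ^ 3) * volume.real (B1 ∩ G) := by
    have h1 := measureReal_sdiff_add_inter (μ := volume) (s := B1 ∩ G)
      (t := Metric.closedBall 0 r0 ∩ G) (measurableSet_closedBall.inter hGm)
      (hfB _ Set.inter_subset_left)
    have h2 : (B1 ∩ G) ∩ (Metric.closedBall 0 r0 ∩ G) = Metric.closedBall 0 r0 ∩ G := by
      apply Set.inter_eq_self_of_subset_right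
      intro x hx
      exact ⟨Metric.closedBall_subset_closedBall hr01 hx.1, hx.2⟩
    rw [h2, hsc2] at h1
    linarith
  have c8 : volume.real (B1 ∩ G) ≤ 4 * Real.pi / 3 - v := by
    have h1 := measureReal_sdiff_add_inter (μ := volume) (s := B1) (t := U) hUm (hfB _ subset_rfl)
    rw [hB1, real_ball, ← hB1] at h1
    have h2 : B1 \ U = B1 ∩ G := rfl
    rw [h2] at h1
    have h3 : ∑ t ∈ T, dt (A t) (B t) (C t) / 6 ≤ volume.real (B1 ∩ U) := by
      have e1 : ∑ t ∈ T, dt (A t) (B t) (C t) / 6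
          = ∑ t ∈ T, volume.real (TO (A t) (B t) (C t)) := by
        apply Finset.sum_congr rfl
        intro t ht
        rw [measureReal_def, vol_TO (hd t ht), ENNReal.toReal_ofReal]
        have := hd t ht
        positivity
      have hT1 : (T : Set ι).PairwiseDisjoint (fun t => TO (A t) (B t) (C t)) := by
        intro t ht t' ht' htt
        rw [Function.onFun, Set.disjoint_left]
        intro x hx hx'
        exact htt (hdisj t ht t' ht' x ⟨hx.1, hx.2.1, hx.2.2.1⟩ ⟨hx'.1, hx'.2.1, hx'.2.2.1⟩)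
      have hT3 : ∀ t ∈ T, volume (TO (A t) (B t) (C t)) ≠ ⊤ := fun t ht =>
        hfB _ ((TO_sub_ball (hX _ (hA t ht)) (hX _ (hB t ht)) (hX _ (hC t ht))
          (hd t ht)).trans Set.inter_subset_right)
      rw [e1, ← measureReal_biUnion_finset hT1 (fun t _ => TO_meas _ _ _) hT3]
      apply measureReal_mono _ (hfB _ Set.inter_subset_left)
      apply Set.iUnion₂_subset
      intro t ht x hx
      have h4 := TO_sub_ball (hX _ (hA t ht)) (hX _ (hB t ht)) (hX _ (hC t ht)) (hd t ht) hx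
      refine ⟨h4.2, ?_⟩
      rw [hU]
      simp only [Set.mem_iUnion]
      exact ⟨t, ht, h4.1⟩
    linarith
  have c9 : 0 ≤ 1 - r0 ^ 3 := by
    have := pow_le_one₀ (n := 3) hr00.le hr01
    linarith
  have c10 := mul_le_mul_of_nonneg_left c8 c9
  rw [← c7] at c10
  have c11 : volume.real (convexHull ℝ (X : Set E)) = Vol X := rfl
  rw [c11] at c4
  linarith

end Med
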