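import Pool.Agent.Helper946.M27

set_option autoImplicit false

namespace Med

open MeasureTheory

lemma sep_card {A : Finset E} (hA : ∀ x ∈ A, ‖x‖ = 1) {ρ : ℝ} (h0 : 0 < ρ) (h1 : ρ ≤ 1)
    (hs : ∀ x ∈ A, ∀ y ∈ A, x ≠ y → ρ ≤ ‖x - y‖) : A.card * ρ ^ 2 ≤ 16 := by
  have hsum := sum_sect hA (ρ := ρ / 2) (by linarith) (by linarith)
  have hdis : volume (⋃ x ∈ A, sect x (1 - (ρ / 2) ^ 2 / 2))
      = ∑ x ∈ A, volume (sect x (1 - (ρ / 2) ^ 2 / 2)) := by
    apply measure_biUnion_finset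
    · intro x hx y hy hxy
      rw [Function.onFun, Set.disjoint_left]
      rintro z ⟨_, hz1⟩ ⟨_, hz2⟩
      have hz0 : z ≠ 0 := by
        rintro rfl; simp at hz1
      rw [mem_sect_iff (hA x hx) hz0 (by linarith)] at hz1
      rw [mem_sect_iff (hA y hy) hz0 (by linarith)] at hz2
      have h3 := hs x hx y hy hxy
      have e : x - y = (‖z‖⁻¹ • z - y) - (‖z‖⁻¹ • z - x) := by abel
      have h4 := norm_sub_le (‖z‖⁻¹ • z - y) (‖z‖⁻¹ • z - x)
      rw [← e] at h4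
      linarith
    · intro x _; exact sect_meas _ _
  have hle : volume (⋃ x ∈ A, sect x (1 - (ρ / 2) ^ 2 / 2)) ≤ volume (Metric.closedBall (0:E) 1) := by
    apply measure_mono
    apply Set.iUnion₂_subset
    rintro x _ z ⟨h2, _⟩
    rw [mem_closedBall_zero_iff]; exact h2
  rw [hdis, hsum, vol_ball, ENNReal.ofReal_le_ofReal_iff (by positivity)] at hle
  have hpi := Real.pi_pos
  have h5 : Real.pi * (A.card * ρ ^ 2) ≤ Real.pi * 16 := by
    have e : (A.card : ℝ) * (Real.pi * (ρ / 2) ^ 2 / 3) = Real.pi * (A.card * ρ ^ 2) / 12 := by ring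
    rw [e] at hle; linarith
  exact le_of_mul_le_mul_left h5 hpi

lemma coarse_net {m : ℕ} (hm : 16 ≤ m) : ∃ Y : Finset E, (∀ y ∈ Y, ‖y‖ = 1) ∧ Y.card ≤ m ∧
    Cov Y (4 / Real.sqrt m) := by
  classical
  have hmr : (16:ℝ) ≤ m := by exact_mod_cast hm
  have hm0 : (0:ℝ) < m := by linarith
  have hs4 : 4 ≤ Real.sqrt m := by
    apply Real.le_sqrt_of_sq_le; linarith
  have hs0 : 0 < Real.sqrt m := by linarith
  set ρ := 4 / Real.sqrt m with hρ
  have hρ0 : 0 < ρ := by positivity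
  have hρ1 : ρ ≤ 1 := by rw [hρ, div_le_one hs0]; exact hs4
  have hρ2 : ρ ^ 2 = 16 / m := by
    rw [hρ, div_pow, Real.sq_sqrt hm0.le]; norm_num
  let Q : Finset E → Prop := fun A => (∀ x ∈ A, ‖x‖ = 1) ∧ ∀ x ∈ A, ∀ y ∈ A, x ≠ y → ρ ≤ ‖x - y‖
  have hbd : ∀ A, Q A → A.card ≤ m := by
    intro A hA
    have h1 := sep_card hA.1 hρ0 hρ1 hA.2
    rw [hρ2, mul_div_assoc', div_le_iff₀ hm0] at h1
    have h2 : (A.card : ℝ) ≤ m := by linarith
    exact_mod_cast h2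
  have hex : ∃ A, Q A ∧ ∀ B, Q B → B.card ≤ A.card := by
    have h1 : Q ∅ := ⟨by simp, by simp⟩
    have h2 : ∃ c, (∃ A, Q A ∧ A.card = c) ∧ ∀ c', (∃ A, Q A ∧ A.card = c') → c' ≤ c := by
      have h3 : (Set.Nonempty {c : ℕ | ∃ A, Q A ∧ A.card = c}) := ⟨0, ∅, h1, rfl⟩
      have h4 : BddAbove {c : ℕ | ∃ A, Q A ∧ A.card = c} := by
        refine ⟨m, ?_⟩
        rintro c ⟨A, hA, rfl⟩
        exact hbd A hA
      exact ⟨sSup {c : ℕ | ∃ A, Q A ∧ A.card = c}, Nat.sSup_mem h3 h4,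
        fun c' hc' => le_csSup h4 hc'⟩
    obtain ⟨c, ⟨A, hA, rfl⟩, h3⟩ := h2
    exact ⟨A, hA, fun B hB => h3 _ ⟨B, hB, rfl⟩⟩
  obtain ⟨A, hA, hmax⟩ := hex
  refine ⟨A, hA.1, hbd A hA, ?_⟩
  intro u hu
  by_contra hcon
  push Not at hcon
  have huA : u ∉ A := by
    intro h
    have := hcon u h
    simp at this
    linarith
  have h1 : Q (insert u A) := by
    constructor
    · intro x hx
      rcases Finset.mem_insert.1 hx with rfl | hx
      · exact hu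
      · exact hA.1 x hx
    · intro x hx y hy hxy
      rcases Finset.mem_insert.1 hx with hx | hx
      · rcases Finset.mem_insert.1 hy with hy | hy
        · exact absurd (hx.trans hy.symm) hxy
        · rw [hx, norm_sub_rev]; exact (hcon y hy).le
      · rcases Finset.mem_insert.1 hy with hy | hy
        · rw [hy]; exact (hcon x hx).le
        · exact hA.2 x hx y hy hxy
  have h2 := hmax _ h1
  rw [Finset.card_insert_of_notMem huA] at h2
  omega

lemma exists_net {ρ : ℝ} (hρ : 0 < ρ) : ∃ Y : Finset E, (∀ y ∈ Y, ‖y‖ = 1) ∧ Cov Y ρ := by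
  obtain ⟨m, hm⟩ := exists_nat_ge (max 16 (16 / ρ ^ 2))
  have h1 : (16:ℝ) ≤ m := (le_max_left _ _).trans hm
  have h2 : 16 / ρ ^ 2 ≤ m := (le_max_right _ _).trans hm
  obtain ⟨Y, hY, -, hc⟩ := coarse_net (m := m) (by exact_mod_cast h1)
  refine ⟨Y, hY, cov_mono hc ?_⟩
  have hm0 : (0:ℝ) < m := by linarith
  rw [div_le_iff₀ (Real.sqrt_pos.2 hm0)]
  have h3 : (4 / ρ) ≤ Real.sqrt m := by
    apply Real.le_sqrt_of_sq_le
    rw [div_pow]; norm_num; exact h2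
  rw [div_le_iff₀ hρ] at h3
  linarith

end Med
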