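import Pool.Agent.Helper946.M28

set_option autoImplicit false

namespace Med

open MeasureTheory

variable {k : ℕ}

def Cell (u : Fin k → E) (i : Fin k) : Set E :=
  {x | ∀ j, (j < i → inner ℝ (u j) x ≤ inner ℝ (u i) x) ∧
    (i < j → inner ℝ (u j) x < inner ℝ (u i) x)}

lemma cell_disj {u : Fin k → E} {i i' : Fin k} {x : E} (h : x ∈ Cell u i) (h' : x ∈ Cell u i') :
    i = i' := by
  rcases lt_trichotomy i i' with h1 | h1 | h1
  · have h2 := (h i').2 h1
    have h3 := (h' i).1 h1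
    linarith
  · exact h1
  · have h2 := (h' i).2 h1
    have h3 := (h i').1 h1
    linarith

lemma cell_exists (u : Fin k → E) (hk : 0 < k) (x : E) : ∃ i, x ∈ Cell u i := by
  classical
  have : Nonempty (Fin k) := ⟨⟨0, hk⟩⟩
  obtain ⟨i0, -, hi0⟩ := Finset.exists_max_image (Finset.univ : Finset (Fin k))
    (fun i => inner ℝ (u i) x) Finset.univ_nonempty
  set F := Finset.univ.filter (fun i => inner ℝ (u i) x = inner ℝ (u i0) x) with hF
  have hne : F.Nonempty := ⟨i0, by rw [hF, Finset.mem_filter]; exact ⟨Finset.mem_univ _, rfl⟩⟩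
  have hm := Finset.mem_filter.1 (F.max'_mem hne)
  refine ⟨F.max' hne, fun j => ⟨fun _ => ?_, fun hj => ?_⟩⟩
  · have h1 := hm.2
    have h2 := hi0 j (Finset.mem_univ _)
    linarith
  · have h1 := hm.2
    have h2 := hi0 j (Finset.mem_univ _)
    refine lt_of_le_of_ne (by linarith) fun h3 => ?_
    have h4 : j ∈ F := by
      rw [hF, Finset.mem_filter]; exact ⟨Finset.mem_univ _, h3.trans h1⟩
    exact absurd (F.le_max' j h4) (not_le.2 hj)

lemma cell_smul {u : Fin k → E} {i : Fin k} {x : E} {c : ℝ} (hc : 0 < c) (h : x ∈ Cell u i) :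
    c • x ∈ Cell u i := by
  intro j
  simp only [real_inner_smul_right]
  exact ⟨fun hj => mul_le_mul_of_nonneg_left ((h j).1 hj) hc.le,
    fun hj => mul_lt_mul_of_pos_left ((h j).2 hj) hc⟩

lemma cell_smul_iff {u : Fin k → E} {i : Fin k} {x : E} {c : ℝ} (hc : 0 < c) :
    c • x ∈ Cell u i ↔ x ∈ Cell u i := by
  constructor
  · intro h
    have := cell_smul (inv_pos.2 hc) h
    rwa [smul_smul, inv_mul_cancel₀ hc.ne', one_smul] at this
  · exact cell_smul hc

lemma cell_add {u : Fin k → E} {i : Fin k} {x y : E} (h : x ∈ Cell u i) (h' : y ∈ Cell u i) :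
    x + y ∈ Cell u i := by
  intro j
  simp only [inner_add_right]
  exact ⟨fun hj => add_le_add ((h j).1 hj) ((h' j).1 hj),
    fun hj => add_lt_add ((h j).2 hj) ((h' j).2 hj)⟩

lemma cell_convex (u : Fin k → E) (i : Fin k) : Convex ℝ (Cell u i) := by
  rw [convex_iff_forall_pos]
  intro x hx y hy a b ha hb _
  exact cell_add (cell_smul ha hx) (cell_smul hb hy)

lemma cell_meas (u : Fin k → E) (i : Fin k) : MeasurableSet (Cell u i) := by
  have hm : ∀ j, Measurable (fun x : E => inner ℝ (u j) x) := fun j => by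
    have : Continuous (fun x : E => inner ℝ (u j) x) := by fun_prop
    exact this.measurable
  have : Cell u i = ⋂ j, ({x | j < i → inner ℝ (u j) x ≤ inner ℝ (u i) x} ∩
      {x | i < j → inner ℝ (u j) x < inner ℝ (u i) x}) := by
    ext x; simp [Cell]
  rw [this]
  apply MeasurableSet.iInter
  intro j
  apply MeasurableSet.inter
  · by_cases h : j < i
    · simp only [h, true_implies]; exact measurableSet_le (hm j) (hm i)
    · simp only [h, false_implies]; simp
  · by_cases h : i < j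
    · simp only [h, true_implies]; exact measurableSet_lt (hm j) (hm i)
    · simp only [h, false_implies]; simp

lemma cell_cov {u : Fin k → E} (hu : ∀ i, ‖u i‖ = 1) {ρ : ℝ}
    (hc : ∀ w : E, ‖w‖ = 1 → ∃ i, ‖u i - w‖ ≤ ρ) {i : Fin k} {x : E} (hx : x ∈ Cell u i) :
    (1 - ρ ^ 2 / 2) * ‖x‖ ≤ inner ℝ (u i) x := by
  by_cases hx0 : x = 0
  · rw [hx0]; simp
  have hn : 0 < ‖x‖ := norm_pos_iff.2 hx0
  obtain ⟨j, hj⟩ := hc _ (norm_normalize hx0)
  have h1 := inr_of_dist (norm_normalize hx0) (hu j)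
  rw [norm_sub_rev] at h1
  rw [inr_normalize] at h1
  have h2 : inner ℝ (u j) x = ‖x‖ * (1 - ‖u j - ‖x‖⁻¹ • x‖ ^ 2 / 2) := by
    rw [← h1, ← mul_assoc, mul_inv_cancel₀ hn.ne', one_mul]
  have h3 : (1 - ρ ^ 2 / 2) * ‖x‖ ≤ inner ℝ (u j) x := by
    rw [h2, mul_comm]
    apply mul_le_mul_of_nonneg_left _ hn.le
    have := pow_le_pow_left₀ (norm_nonneg _) hj 2
    linarith
  refine h3.trans ?_
  rcases lt_trichotomy j i with h | h | h
  · exact (hx j).1 h
  · rw [h]
  · exact ((hx j).2 h).le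

lemma cell_open {u : Fin k → E} (hu : ∀ i, ‖u i‖ = 1) (hinj : Function.Injective u) (i : Fin k) :
    ∃ V : Set E, IsOpen V ∧ u i ∈ V ∧ V ⊆ Cell u i := by
  refine ⟨⋂ j, {x | j ≠ i → inner ℝ (u j) x < inner ℝ (u i) x}, ?_, ?_, ?_⟩
  · apply isOpen_iInter_of_finite
    intro j
    by_cases h : j = i
    · simp [h]
    · simp only [ne_eq, h, not_false_eq_true, true_implies]
      exact isOpen_lt (by fun_prop) (by fun_prop)
  · simp only [Set.mem_iInter, Set.mem_ofPred_eq]
    intro j hj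
    rw [real_inner_self_eq_norm_sq, hu i]
    have := unit_inr_lt (hu j) (hu i) (fun h => hj (hinj h))
    linarith
  · intro x hx j
    simp only [Set.mem_iInter, Set.mem_ofPred_eq] at hx
    exact ⟨fun h => (hx j h.ne).le, fun h => hx j h.ne'⟩

lemma exists_eframe {u : E} (hu : ‖u‖ = 1) : ∃ e f : E, ‖e‖ = 1 ∧ ‖f‖ = 1 ∧ inner ℝ u e = 0 ∧
    inner ℝ u f = 0 ∧ inner ℝ e f = 1 / 2 ∧ dt u e f = Real.sqrt 3 / 2 := by
  obtain ⟨e, f, he, hf, h1, h2, h3, h4⟩ := exists_frame hu
  have s3 : Real.sqrt 3 ^ 2 = 3 := Real.sq_sqrt (by norm_num)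
  refine ⟨e, (1 / 2 : ℝ) • e + (Real.sqrt 3 / 2) • f, he, ?_, h1, ?_, ?_, ?_⟩
  · have : ‖(1 / 2 : ℝ) • e + (Real.sqrt 3 / 2) • f‖ ^ 2 = 1 := by
      rw [norm_add_sq_real, norm_smul, norm_smul, real_inner_smul_left, real_inner_smul_right, h3,
        he, hf, Real.norm_of_nonneg (by norm_num), Real.norm_of_nonneg (by positivity)]
      rw [mul_one, mul_one, div_pow, div_pow, s3]; norm_num
    have h5 := norm_nonneg ((1 / 2 : ℝ) • e + (Real.sqrt 3 / 2) • f)
    nlinarith
  · rw [inner_add_right, real_inner_smul_right, real_inner_smul_right, h1, h2]; ring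
  · rw [inner_add_right, real_inner_smul_right, real_inner_smul_right, h3,
      real_inner_self_eq_norm_sq, he]; ring
  · have : dt u e ((1 / 2 : ℝ) • e + (Real.sqrt 3 / 2) • f) = Real.sqrt 3 / 2 * dt u e f := by
      simp [dt]; ring
    rw [this, h4, mul_one]

end Med
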