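import Pool.Agent.Helper946.M29

set_option autoImplicit false

namespace Med

open MeasureTheory
open scoped Pointwise

lemma dt_psi (u e f : E) (p q r : ℝ × ℝ × ℝ) : dt (psi u e f p) (psi u e f q) (psi u e f r)
    = dt u e f * (p.1 * (q.2.1 * r.2.2 - q.2.2 * r.2.1) - p.2.1 * (q.1 * r.2.2 - q.2.2 * r.1)
      + p.2.2 * (q.1 * r.2.1 - q.2.1 * r.1)) := by
  simp [psi, dt]; ring

structure Fr (u e f : E) : Prop where
  hu : ‖u‖ = 1
  he : ‖e‖ = 1
  hf : ‖f‖ = 1
  ue : inner ℝ u e = 0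
  uf : inner ℝ u f = 0
  ef : inner ℝ e f = 1 / 2
  dt : dt u e f = Real.sqrt 3 / 2

variable {u e f : E}

lemma Fr.nsq (F : Fr u e f) (p : ℝ × ℝ × ℝ) :
    ‖psi u e f p‖ ^ 2 = p.1 ^ 2 + (p.2.1 ^ 2 + p.2.1 * p.2.2 + p.2.2 ^ 2) := by
  rw [← real_inner_self_eq_norm_sq]
  simp only [psi, inner_add_left, inner_add_right, real_inner_smul_left, real_inner_smul_right,
    real_inner_self_eq_norm_sq, F.ue, F.uf, F.ef, real_inner_comm u e, real_inner_comm u f,
    real_inner_comm e f]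
  simp only [norm_smul, F.hu, F.he, F.hf, Real.norm_eq_abs, mul_one, sq_abs]
  ring

lemma Fr.inr (F : Fr u e f) (p : ℝ × ℝ × ℝ) : inner ℝ u (psi u e f p) = p.1 :=
  inr_psi_frame F.hu F.ue F.uf p

lemma Fr.dpos (F : Fr u e f) : 0 < Med.dt u e f := by
  rw [F.dt]; have : 0 < Real.sqrt 3 := Real.sqrt_pos.2 (by norm_num)
  positivity

lemma Fr.surj (F : Fr u e f) (x : E) : ∃ p, psi u e f p = x := by
  have h := basis_exp u e f x
  have hD := F.dpos
  refine ⟨(Med.dt e f x / Med.dt u e f, Med.dt f u x / Med.dt u e f, Med.dt u e x / Med.dt u e f), ?_⟩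
  have h2 : Med.dt u e f • psi u e f (Med.dt e f x / Med.dt u e f, Med.dt f u x / Med.dt u e f,
      Med.dt u e x / Med.dt u e f) = Med.dt u e f • x := by
    rw [h]
    simp only [psi, smul_add, smul_smul, mul_div_cancel₀ _ hD.ne']
  exact smul_right_injective E hD.ne' h2

def PQ (u e f : E) (Q : Set E) : Set (ℝ × ℝ) := {z | psi u e f (1, z.1, z.2) ∈ Q}

lemma psi_scale (u e f : E) {s : ℝ} (hs : 0 < s) (a b : ℝ) :
    psi u e f (s, a, b) = s • psi u e f (1, a / s, b / s) := by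
  simp only [psi, smul_add, smul_smul]
  rw [mul_one, mul_div_cancel₀ _ hs.ne', mul_div_cancel₀ _ hs.ne']

structure IsCone (Q : Set E) : Prop where
  meas : MeasurableSet Q
  smul : ∀ c : ℝ, 0 < c → ∀ x, c • x ∈ Q ↔ x ∈ Q
  conv : Convex ℝ Q

lemma PQ_convex {Q : Set E} (hQ : IsCone Q) : Convex ℝ (PQ u e f Q) := by
  intro z hz z' hz' a b ha hb hab
  have h := hQ.conv hz hz' ha hb hab
  have e1 : psi u e f (1, (a • z + b • z').1, (a • z + b • z').2)
      = a • psi u e f (1, z.1, z.2) + b • psi u e f (1, z'.1, z'.2) := by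
    have h1 : (1:ℝ) • u = (a + b) • u := by rw [hab]
    simp only [psi, Prod.fst_add, Prod.snd_add, Prod.smul_fst, Prod.smul_snd, smul_eq_mul]
    rw [show (1:ℝ) • u + (a * z.1 + b * z'.1) • e + (a * z.2 + b * z'.2) • f
      = (a + b) • u + (a * z.1 + b * z'.1) • e + (a * z.2 + b * z'.2) • f by rw [hab]]
    module
  show psi u e f (1, (a • z + b • z').1, (a • z + b • z').2) ∈ Q
  rw [e1]; exact h

lemma PQ_norm (F : Fr u e f) {Q : Set E} {κ : ℝ} (hκ : 0 < κ)
    (hQc : ∀ x ∈ Q, κ * ‖x‖ ≤ inner ℝ u x) {z : ℝ × ℝ} (hz : z ∈ PQ u e f Q) :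
    ‖psi u e f (1, z.1, z.2)‖ ≤ 1 / κ := by
  have h := hQc _ hz
  rw [F.inr] at h
  rw [le_div_iff₀ hκ]; linarith

lemma PQ_bound (F : Fr u e f) {Q : Set E} {κ : ℝ} (hκ : 0 < κ)
    (hQc : ∀ x ∈ Q, κ * ‖x‖ ≤ inner ℝ u x) {z : ℝ × ℝ} (hz : z ∈ PQ u e f Q) :
    |z.1| ≤ 2 / κ ∧ |z.2| ≤ 2 / κ := by
  have h1 := PQ_norm F hκ hQc hz
  have h2 := pow_le_pow_left₀ (norm_nonneg _) h1 2
  rw [F.nsq] at h2
  simp only at h2
  have h3 : (1 / κ) ^ 2 = 1 / κ ^ 2 := by rw [div_pow, one_pow]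
  have h4 : (2 / κ) ^ 2 = 4 * (1 / κ ^ 2) := by rw [div_pow]; ring
  rw [h3] at h2
  have h5 : 0 < 1 / κ ^ 2 := by positivity
  constructor
  · apply abs_le_of_sq_le_sq _ (by positivity)
    rw [h4]; nlinarith [sq_nonneg (z.1 / 2 + z.2)]
  · apply abs_le_of_sq_le_sq _ (by positivity)
    rw [h4]; nlinarith [sq_nonneg (z.1 + z.2 / 2)]

lemma PQ_meas {Q : Set E} (hQ : IsCone Q) : MeasurableSet (PQ u e f Q) := by
  have : Measurable (fun z : ℝ × ℝ => psi u e f (1, z.1, z.2)) := by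
    unfold psi; fun_prop
  exact this hQ.meas

lemma PQ_vol (F : Fr u e f) {Q : Set E} (hQ : IsCone Q) :
    volume (Q ∩ {x | 0 < inner ℝ u x ∧ inner ℝ u x < 1})
      = ENNReal.ofReal (Real.sqrt 3 / 6) * volume (PQ u e f Q) := by
  have hc : Measurable (fun x : E => inner ℝ u x) := by
    have : Continuous (fun x : E => inner ℝ u x) := by fun_prop
    exact this.measurable
  have hm : MeasurableSet (Q ∩ {x | 0 < inner ℝ u x ∧ inner ℝ u x < 1}) := by
    apply hQ.meas.inter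
    exact (measurableSet_lt measurable_const hc).inter (measurableSet_lt hc measurable_const)
  rw [psi_vol F.dpos.ne' hm, abs_of_pos F.dpos, F.dt,
    cone_slices ((psi_meas _ _ _) hm) (fun s => if s < 1 then PQ u e f Q else ∅)]
  · have h1 : ∫⁻ s in Set.Ioi (0:ℝ), ENNReal.ofReal (s ^ 2) *
        volume (if s < 1 then PQ u e f Q else ∅)
        = ∫⁻ s in Set.Ioo (0:ℝ) 1, ENNReal.ofReal (s ^ 2) * volume (PQ u e f Q) := by
      rw [← lintegral_indicator measurableSet_Ioi, ← lintegral_indicator measurableSet_Ioo]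
      congr 1
      funext s
      by_cases h2 : s ∈ Set.Ioo (0:ℝ) 1
      · rw [Set.indicator_of_mem h2, Set.indicator_of_mem (by exact h2.1), if_pos h2.2]
      · rw [Set.indicator_of_notMem h2]
        by_cases h3 : 0 < s
        · have h4 : ¬ s < 1 := fun h5 => h2 ⟨h3, h5⟩
          rw [Set.indicator_of_mem (by exact h3), if_neg h4]; simp
        · rw [Set.indicator_of_notMem (by simpa using h3)]
    rw [h1, lintegral_mul_const _ (by fun_prop), lint_Ioo zero_le_one (by fun_prop)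
      (fun x _ => by positivity), ← mul_assoc, ← ENNReal.ofReal_mul (by positivity)]
    congr 2
    have : ∫ x in (0:ℝ)..1, x ^ 2 = 1 / 3 := by
      rw [integral_pow]; norm_num
    rw [this]; ring
  · intro s hs
    ext q
    simp only [Set.mem_ofPred_eq, Set.mem_preimage, Set.mem_inter_iff, F.inr]
    rw [psi_scale u e f hs, hQ.smul s hs]
    by_cases h1 : s < 1
    · rw [if_pos h1]
      simp [hs, h1, PQ]
    · rw [if_neg h1]
      simp [h1]
  · intro s hs
    ext q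
    simp only [Set.mem_ofPred_eq, Set.mem_preimage, Set.mem_inter_iff, F.inr,
      Set.mem_empty_iff_false, iff_false]
    rintro ⟨_, h1, _⟩
    linarith

lemma PQ_lower (F : Fr u e f) {Q : Set E} (hQ : IsCone Q) {κ : ℝ} (hκ : 0 < κ)
    (hQc : ∀ x ∈ Q, κ * ‖x‖ ≤ inner ℝ u x) :
    volume (Q ∩ Metric.closedBall 0 1) ≤ ENNReal.ofReal (Real.sqrt 3 / 6) * volume (PQ u e f Q) := by
  rw [← PQ_vol F hQ]
  have hsub : Q ∩ Metric.closedBall 0 1 ⊆ (Q ∩ {x | 0 < inner ℝ u x ∧ inner ℝ u x < 1}) ∪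
      ({0} ∪ {u}) := by
    rintro x ⟨h1, h2⟩
    rw [mem_closedBall_zero_iff] at h2
    by_cases h3 : x = 0
    · right; left; exact h3
    by_cases h4 : x = u
    · right; right; exact h4
    left
    refine ⟨h1, ?_, ?_⟩
    · have h5 := hQc x h1
      have h6 := norm_pos_iff.2 h3
      exact lt_of_lt_of_le (by positivity) h5
    · have h5 : inner ℝ u x ≤ 1 := by
        refine (real_inner_le_norm _ _).trans ?_
        rw [F.hu, one_mul]; exact h2
      refine lt_of_le_of_ne h5 fun h6 => h4 ?_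
      have h7 : ‖x - u‖ ^ 2 ≤ 0 := by
        rw [norm_sub_sq_real, real_inner_comm, h6, F.hu]
        nlinarith [norm_nonneg x]
      have h8 : ‖x - u‖ = 0 := by
        have := norm_nonneg (x - u)
        nlinarith
      exact sub_eq_zero.1 (norm_eq_zero.1 h8)
  refine (measure_mono hsub).trans ((measure_union_le _ _).trans ?_)
  have h0 : volume (({0} : Set E) ∪ {u}) = 0 := by
    refine le_antisymm ((measure_union_le _ _).trans ?_) (by positivity)
    simp
  rw [h0, add_zero]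

lemma PQ_upper (F : Fr u e f) {Q : Set E} (hQ : IsCone Q) {κ : ℝ} (hκ : 0 < κ)
    (hQc : ∀ x ∈ Q, κ * ‖x‖ ≤ inner ℝ u x) :
    ENNReal.ofReal (Real.sqrt 3 / 6) * volume (PQ u e f Q) ≤
      ENNReal.ofReal (κ⁻¹ ^ 3) * volume (Q ∩ Metric.closedBall 0 1) := by
  rw [← PQ_vol F hQ]
  have hsub : Q ∩ {x | 0 < inner ℝ u x ∧ inner ℝ u x < 1} ⊆ κ⁻¹ • (Q ∩ Metric.closedBall 0 1) := by
    rintro x ⟨h1, h2, h3⟩
    refine ⟨κ • x, ⟨(hQ.smul κ hκ x).2 h1, ?_⟩, ?_⟩
    · rw [mem_closedBall_zero_iff, norm_smul, Real.norm_of_nonneg hκ.le]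
      have := hQc x h1
      linarith
    · simp only [smul_smul, inv_mul_cancel₀ hκ.ne', one_smul]
  have hfin : Module.finrank ℝ E = 3 := by simp
  refine (measure_mono hsub).trans ?_
  rw [Measure.addHaar_smul, hfin, abs_of_nonneg (by positivity)]

end Med
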