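import Pool.Agent.Helper946.M30

set_option autoImplicit false

namespace Med

open MeasureTheory
open scoped Pointwise

variable {u e f : E}

/-- lattice point in the tangent plane -/
noncomputable def WW (u e f : E) (N : ℕ) (p : ℤ × ℤ) : E := psi u e f (1, (gp N p).1, (gp N p).2)

/-- projected lattice point -/
noncomputable def XX (u e f : E) (N : ℕ) (p : ℤ × ℤ) : E := ‖WW u e f N p‖⁻¹ • WW u e f N p

def v1 (t : (ℤ × ℤ) × Bool) : ℤ × ℤ := if t.2 then t.1 else (t.1.1 + 1, t.1.2)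
def v2 (t : (ℤ × ℤ) × Bool) : ℤ × ℤ := if t.2 then (t.1.1 + 1, t.1.2) else (t.1.1 + 1, t.1.2 + 1)
def v3 (t : (ℤ × ℤ) × Bool) : ℤ × ℤ := (t.1.1, t.1.2 + 1)

lemma WW_norm (F : Fr u e f) (N : ℕ) (p : ℤ × ℤ) : 1 ≤ ‖WW u e f N p‖ := by
  have h := F.nsq (1, (gp N p).1, (gp N p).2)
  simp only at h
  have h1 : 1 ≤ ‖WW u e f N p‖ ^ 2 := by
    unfold WW
    rw [h]
    nlinarith [sq_nonneg ((gp N p).1 + (gp N p).2), sq_nonneg (gp N p).1, sq_nonneg (gp N p).2]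
  nlinarith [norm_nonneg (WW u e f N p)]

lemma XX_norm (F : Fr u e f) (N : ℕ) (p : ℤ × ℤ) : ‖XX u e f N p‖ = 1 := by
  apply norm_normalize
  intro h
  have := WW_norm F N p
  rw [h, norm_zero] at this
  linarith

lemma WW_dt (F : Fr u e f) {N : ℕ} (hN : 0 < N) (t : (ℤ × ℤ) × Bool) :
    dt (WW u e f N (v1 t)) (WW u e f N (v2 t)) (WW u e f N (v3 t))
      = Real.sqrt 3 / 2 * (1 / (N:ℝ) ^ 2) := by
  have hNr : (0:ℝ) < N := by exact_mod_cast hN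
  obtain ⟨p, o⟩ := t
  cases o
  · simp only [WW, dt_psi, F.dt, v1, v2, v3, gp, Bool.false_eq_true, if_false]
    push_cast
    field_simp; ring
  · simp only [WW, dt_psi, F.dt, v1, v2, v3, gp, if_true]
    push_cast
    field_simp; ring

lemma WW_sub (F : Fr u e f) (N : ℕ) (p q : ℤ × ℤ) : ‖WW u e f N p - WW u e f N q‖ ^ 2
    = ((gp N p).1 - (gp N q).1) ^ 2 + ((gp N p).1 - (gp N q).1) * ((gp N p).2 - (gp N q).2)
      + ((gp N p).2 - (gp N q).2) ^ 2 := by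
  have e1 : WW u e f N p - WW u e f N q
      = psi u e f (0, (gp N p).1 - (gp N q).1, (gp N p).2 - (gp N q).2) := by
    unfold WW psi; module
  rw [e1, F.nsq]
  ring

lemma WW_edge (F : Fr u e f) {N : ℕ} (hN : 0 < N) (t : (ℤ × ℤ) × Bool) :
    ‖WW u e f N (v1 t) - WW u e f N (v2 t)‖ ^ 2 = 1 / (N:ℝ) ^ 2 ∧
    ‖WW u e f N (v1 t) - WW u e f N (v3 t)‖ ^ 2 = 1 / (N:ℝ) ^ 2 ∧
    ‖WW u e f N (v2 t) - WW u e f N (v3 t)‖ ^ 2 = 1 / (N:ℝ) ^ 2 := by
  have hNr : (0:ℝ) < N := by exact_mod_cast hN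
  simp only [WW_sub F]
  obtain ⟨p, o⟩ := t
  cases o
  · simp only [v1, v2, v3, gp, Bool.false_eq_true, if_false]
    push_cast
    refine ⟨?_, ?_, ?_⟩ <;> · field_simp; ring
  · simp only [v1, v2, v3, gp, if_true]
    push_cast
    refine ⟨?_, ?_, ?_⟩ <;> · field_simp; ring

lemma normalize_lip {x y : E} (hx : 1 ≤ ‖x‖) (hy : 1 ≤ ‖y‖) :
    ‖‖x‖⁻¹ • x - ‖y‖⁻¹ • y‖ ^ 2 ≤ ‖x - y‖ ^ 2 := by
  have hx0 : 0 < ‖x‖ := by linarith
  have hy0 : 0 < ‖y‖ := by linarith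
  have h1 := norm_normalize (norm_pos_iff.1 hx0)
  have h2 := norm_normalize (norm_pos_iff.1 hy0)
  rw [dist_sq_unit h1 h2, real_inner_smul_left, real_inner_smul_right, norm_sub_sq_real]
  set a := ‖x‖
  set b := ‖y‖
  set c := inner ℝ x y
  have hc : c ≤ a * b := real_inner_le_norm x y
  have hab : 0 < a * b := mul_pos hx0 hy0
  have e1 : a⁻¹ * (b⁻¹ * c) = c / (a * b) := by field_simp
  rw [e1]
  set d := c / (a * b) with hd
  have hcd : c = d * (a * b) := by rw [hd]; field_simp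
  have hd1 : d ≤ 1 := by rw [hd, div_le_one hab]; exact hc
  have hab1 : 1 ≤ a * b := one_le_mul_of_one_le_of_one_le hx hy
  rw [hcd]
  have h3 : d * (a * b - 1) ≤ 1 * (a * b - 1) := mul_le_mul_of_nonneg_right hd1 (by linarith)
  nlinarith [sq_nonneg (a - b)]

lemma dt_smul3 (a b c : E) (x y z : ℝ) : dt (x • a) (y • b) (z • c) = x * y * z * dt a b c := by
  simp [dt]; ring

lemma OC_scale {a b c : E} {x y z : ℝ} (hx : 0 < x) (hy : 0 < y) (hz : 0 < z) :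
    OC (x • a) (y • b) (z • c) = OC a b c := by
  ext w
  have e1 : dt (y • b) (z • c) w = dt b c w * (y * z) := by simp [dt]; ring
  have e2 : dt (z • c) (x • a) w = dt c a w * (z * x) := by simp [dt]; ring
  have e3 : dt (x • a) (y • b) w = dt a b w * (x * y) := by simp [dt]; ring
  simp only [OC, Set.mem_ofPred_eq, e1, e2, e3, mul_pos_iff' (mul_pos hy hz),
    mul_pos_iff' (mul_pos hz hx), mul_pos_iff' (mul_pos hx hy)]

lemma XX_OC (F : Fr u e f) (N : ℕ) (p q r : ℤ × ℤ) :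
    OC (XX u e f N p) (XX u e f N q) (XX u e f N r)
      = OC (WW u e f N p) (WW u e f N q) (WW u e f N r) := by
  have h : ∀ p, 0 < ‖WW u e f N p‖⁻¹ := fun p => inv_pos.2 (by linarith [WW_norm F N p])
  exact OC_scale (h p) (h q) (h r)

lemma XX_dt (F : Fr u e f) {N : ℕ} (hN : 0 < N) (t : (ℤ × ℤ) × Bool) {κ : ℝ} (hκ : 0 < κ)
    (h1 : ‖WW u e f N (v1 t)‖ ≤ 1 / κ) (h2 : ‖WW u e f N (v2 t)‖ ≤ 1 / κ)
    (h3 : ‖WW u e f N (v3 t)‖ ≤ 1 / κ) :
    0 < dt (XX u e f N (v1 t)) (XX u e f N (v2 t)) (XX u e f N (v3 t)) ∧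
    dt (XX u e f N (v1 t)) (XX u e f N (v2 t)) (XX u e f N (v3 t))
      ≤ Real.sqrt 3 / 2 * (1 / (N:ℝ) ^ 2) ∧
    κ ^ 3 * (Real.sqrt 3 / 2 * (1 / (N:ℝ) ^ 2)) ≤
      dt (XX u e f N (v1 t)) (XX u e f N (v2 t)) (XX u e f N (v3 t)) := by
  have hNr : (0:ℝ) < N := by exact_mod_cast hN
  have hs : 0 < Real.sqrt 3 := Real.sqrt_pos.2 (by norm_num)
  have g1 := WW_norm F N (v1 t)
  have g2 := WW_norm F N (v2 t)
  have g3 := WW_norm F N (v3 t)
  unfold XX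
  rw [dt_smul3, WW_dt F hN]
  set D := Real.sqrt 3 / 2 * (1 / (N:ℝ) ^ 2) with hD
  have hD0 : 0 < D := by positivity
  have key : ∀ n : ℝ, 1 ≤ n → n ≤ 1 / κ → 0 < n⁻¹ ∧ n⁻¹ ≤ 1 ∧ κ ≤ n⁻¹ := by
    intro n a1 a2
    have hn : 0 < n := by linarith
    refine ⟨inv_pos.2 hn, inv_le_one_of_one_le₀ a1, ?_⟩
    rw [le_div_iff₀ hκ] at a2
    rw [inv_eq_one_div, le_div_iff₀ hn]; linarith
  obtain ⟨a1, a2, a3⟩ := key _ g1 h1
  obtain ⟨b1, b2, b3⟩ := key _ g2 h2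
  obtain ⟨c1, c2, c3⟩ := key _ g3 h3
  set x := ‖WW u e f N (v1 t)‖⁻¹
  set y := ‖WW u e f N (v2 t)‖⁻¹
  set z := ‖WW u e f N (v3 t)‖⁻¹
  refine ⟨by positivity, ?_, ?_⟩
  · have : x * y * z ≤ 1 := mul_le_one₀ (mul_le_one₀ a2 b1.le b2) c1.le c2
    exact mul_le_of_le_one_left hD0.le this
  · apply mul_le_mul_of_nonneg_right _ hD0.le
    have e1 : κ ^ 3 = κ * κ * κ := by ring
    rw [e1]
    exact mul_le_mul (mul_le_mul a3 b3 hκ.le a1.le) c3 hκ.le (by positivity)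

lemma OC_floor (F : Fr u e f) {N : ℕ} (hN : 0 < N) (t : (ℤ × ℤ) × Bool) {s a b : ℝ}
    (h : psi u e f (s, a, b) ∈ OC (WW u e f N (v1 t)) (WW u e f N (v2 t)) (WW u e f N (v3 t))) :
    0 < s ∧ ⌊a / s * N⌋ = t.1.1 ∧ ⌊b / s * N⌋ = t.1.2 ∧
    (t.2 = true ↔ a / s * N + b / s * N < t.1.1 + t.1.2 + 1) := by
  have hNr : (0:ℝ) < N := by exact_mod_cast hN
  have hs3 : 0 < Real.sqrt 3 := Real.sqrt_pos.2 (by norm_num)
  obtain ⟨⟨i, j⟩, o⟩ := t
  obtain ⟨k1, k2, k3⟩ := h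
  simp only [WW, dt_psi, F.dt] at k1 k2 k3
  have hc : 0 < Real.sqrt 3 / 2 / N ^ 2 := by positivity
  have red : ∀ X Y : ℝ, Real.sqrt 3 / 2 * X = (Real.sqrt 3 / 2 / N ^ 2) * Y →
      0 < Real.sqrt 3 / 2 * X → 0 < Y := by
    intro X Y h1 h2
    rw [h1] at h2
    exact (mul_pos_iff_of_pos_left hc).1 h2
  cases o
  · simp only [v1, v2, v3, gp, Bool.false_eq_true, if_false] at k1 k2 k3
    push_cast at k1 k2 k3
    have m1 := red _ (((i:ℝ) + 1 ) * s * 0 + ((j + 1) * s - b * N)) (by field_simp; ring) k1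
    have m2 := red _ (a * N + b * N - (i + j + 1) * s) (by field_simp; ring) k2
    have m3 := red _ ((i + 1) * s - a * N) (by field_simp; ring) k3
    have hs : 0 < s := by nlinarith
    have ea : a / s * N = a * N / s := by ring
    have eb : b / s * N = b * N / s := by ring
    rw [ea, eb]
    have n1 : b * N / s < j + 1 := by rw [div_lt_iff₀ hs]; linarith
    have n2 : a * N / s < i + 1 := by rw [div_lt_iff₀ hs]; linarith
    have n3 : (i:ℝ) + j + 1 < a * N / s + b * N / s := by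
      rw [← add_div, lt_div_iff₀ hs]; linarith
    refine ⟨hs, ?_, ?_, ?_⟩
    · rw [Int.floor_eq_iff]; constructor <;> linarith
    · rw [Int.floor_eq_iff]; constructor <;> linarith
    · simp only [Bool.false_eq_true, false_iff, not_lt]; linarith
  · simp only [v1, v2, v3, gp, if_true] at k1 k2 k3
    push_cast at k1 k2 k3
    have m1 := red _ ((i + j + 1) * s - a * N - b * N) (by field_simp; ring) k1
    have m2 := red _ (a * N - i * s) (by field_simp; ring) k2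
    have m3 := red _ (b * N - j * s) (by field_simp; ring) k3
    have hs : 0 < s := by nlinarith
    have ea : a / s * N = a * N / s := by ring
    have eb : b / s * N = b * N / s := by ring
    rw [ea, eb]
    have n1 : (j:ℝ) < b * N / s := by rw [lt_div_iff₀ hs]; linarith
    have n2 : (i:ℝ) < a * N / s := by rw [lt_div_iff₀ hs]; linarith
    have n3 : a * N / s + b * N / s < (i:ℝ) + j + 1 := by
      rw [← add_div, div_lt_iff₀ hs]; linarith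
    refine ⟨hs, ?_, ?_, ?_⟩
    · rw [Int.floor_eq_iff]; constructor <;> linarith
    · rw [Int.floor_eq_iff]; constructor <;> linarith
    · simp only [true_iff]; exact n3

lemma OC_tri_inj (F : Fr u e f) {N : ℕ} (hN : 0 < N) {t t' : (ℤ × ℤ) × Bool} {x : E}
    (h : x ∈ OC (WW u e f N (v1 t)) (WW u e f N (v2 t)) (WW u e f N (v3 t)))
    (h' : x ∈ OC (WW u e f N (v1 t')) (WW u e f N (v2 t')) (WW u e f N (v3 t'))) : t = t' := by
  obtain ⟨⟨s, a, b⟩, rfl⟩ := F.surj x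
  obtain ⟨_, h1, h2, h3⟩ := OC_floor F hN t h
  obtain ⟨_, h1', h2', h3'⟩ := OC_floor F hN t' h'
  have e1 : t.1 = t'.1 := Prod.ext (h1.symm.trans h1') (h2.symm.trans h2')
  rw [e1] at h3
  have e2 := h3.trans h3'.symm
  exact Prod.ext e1 (Bool.eq_iff_iff.2 e2)

lemma OC_sub_cone {Q : Set E} (hadd : ∀ x ∈ Q, ∀ y ∈ Q, x + y ∈ Q)
    (hsm : ∀ c : ℝ, 0 < c → ∀ x, c • x ∈ Q ↔ x ∈ Q) {a b c : E} (ha : a ∈ Q) (hb : b ∈ Q)
    (hc : c ∈ Q) (hd : 0 < dt a b c) {x : E} (hx : x ∈ OC a b c) : x ∈ Q := by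
  obtain ⟨h1, h2, h3⟩ := hx
  rw [← hsm _ hd x, basis_exp]
  exact hadd _ (hadd _ ((hsm _ h1 _).2 ha) _ ((hsm _ h2 _).2 hb)) _ ((hsm _ h3 _).2 hc)

end Med
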