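import Pool.Agent.Helper946.M31

set_option autoImplicit false

namespace Med

open MeasureTheory
open scoped Pointwise

lemma cell_isCone {k : ℕ} (u : Fin k → E) (i : Fin k) : IsCone (Cell u i) :=
  ⟨cell_meas u i, fun _ hc _ => cell_smul_iff hc, cell_convex u i⟩

lemma exists_r {k : ℕ} {u : Fin k → E} (hu : ∀ i, ‖u i‖ = 1) (hinj : Function.Injective u)
    (i : Fin k) (e f : E) : ∃ r > 0, ∀ z : ℝ × ℝ, |z.1| < r → |z.2| < r →
      z ∈ PQ (u i) e f (Cell u i) := by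
  obtain ⟨V, hV, hm, hsub⟩ := cell_open hu hinj i
  have hc : Continuous (fun z : ℝ × ℝ => psi (u i) e f (1, z.1, z.2)) := by
    unfold psi; fun_prop
  have ho := hV.preimage hc
  rw [Metric.isOpen_iff] at ho
  obtain ⟨r, hr, hb⟩ := ho (0, 0) (by
    show psi (u i) e f (1, 0, 0) ∈ V
    have : psi (u i) e f (1, 0, 0) = u i := by simp [psi]
    rw [this]; exact hm)
  refine ⟨r, hr, fun z h1 h2 => hsub (hb ?_)⟩
  rw [Metric.mem_ball, Prod.dist_eq, max_lt_iff, Real.dist_eq, Real.dist_eq, sub_zero, sub_zero]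
  exact ⟨h1, h2⟩

lemma sum_cell {k : ℕ} (hk : 0 < k) (u : Fin k → E) :
    ∑ i, volume.real (Cell u i ∩ Metric.closedBall 0 1) = 4 * Real.pi / 3 := by
  have h1 : Pairwise (Function.onFun Disjoint
      (fun i => Cell u i ∩ Metric.closedBall (0:E) 1)) := by
    intro i j hij
    rw [Function.onFun, Set.disjoint_left]
    intro x hx hx'
    exact hij (cell_disj hx.1 hx'.1)
  rw [← measureReal_iUnion_fintype h1 (fun i => (cell_meas u i).inter measurableSet_closedBall)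
    (fun i => fin_of_sub_ball Set.inter_subset_right), ← real_ball]
  congr 1
  ext x
  simp only [Set.mem_iUnion, Set.mem_inter_iff]
  constructor
  · rintro ⟨_, _, h⟩; exact h
  · intro h
    obtain ⟨i, hi⟩ := cell_exists u hk x
    exact ⟨i, hi, h⟩

/-- all data for one cell -/
lemma one_cell {u e f : E} (F : Fr u e f) {Q : Set E} (hQ : IsCone Q) {κ : ℝ} (hκ : 0 < κ)
    (hQc : ∀ x ∈ Q, κ * ‖x‖ ≤ inner ℝ u x) {r δ : ℝ} (hδ : 0 < δ) (hδ1 : δ < 1)
    (hr : ∀ z : ℝ × ℝ, |z.1| < r → |z.2| < r → z ∈ PQ u e f Q) {N : ℕ} (hN : 0 < N)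
    (hNr : 1 / (N:ℝ) < δ * r) : ∃ L L4 : Finset (ℤ × ℤ),
      (∀ p ∈ L, gp N p ∈ PQ u e f Q) ∧ (∀ t : (ℤ × ℤ) × Bool, t.1 ∈ L4 →
        v1 t ∈ L ∧ v2 t ∈ L ∧ v3 t ∈ L) ∧ L4.card ≤ L.card ∧
      (L.card : ℝ) ≤ (1 + δ) ^ 2 * κ⁻¹ ^ 3 * (6 / Real.sqrt 3) *
        volume.real (Q ∩ Metric.closedBall 0 1) * N ^ 2 ∧
      (1 - δ) ^ 2 * (6 / Real.sqrt 3) * volume.real (Q ∩ Metric.closedBall 0 1) * N ^ 2
        ≤ (L4.card : ℝ) := by
  classical
  have hNr0 : (0:ℝ) < N := by exact_mod_cast hN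
  have hs3 : 0 < Real.sqrt 3 := Real.sqrt_pos.2 (by norm_num)
  obtain ⟨L, hL⟩ := exists_L (PQ u e f Q) (R := 2 / κ) (fun z hz => PQ_bound F hκ hQc hz) hN
  set L4 := L.filter (fun p => gp N (p.1 + 1, p.2) ∈ PQ u e f Q ∧
    gp N (p.1, p.2 + 1) ∈ PQ u e f Q ∧ gp N (p.1 + 1, p.2 + 1) ∈ PQ u e f Q) with hL4
  have hfin : volume (PQ u e f Q) ≠ ⊤ := by
    have hsub : PQ u e f Q ⊆ Metric.closedBall 0 (2 / κ) := by
      intro z hz
      obtain ⟨h1, h2⟩ := PQ_bound F hκ hQc hz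
      rw [mem_closedBall_zero_iff, Prod.norm_def]
      exact max_le h1 h2
    exact ((measure_mono hsub).trans_lt measure_closedBall_lt_top).ne
  have hcv := PQ_convex (u := u) (e := e) (f := f) hQ
  have c1 := count_upper hcv hδ hr hN hNr L (fun p hp => (hL p).1 hp)
  have c2 := count_lower hcv hδ hδ1 hr hN hNr L4 (by
    intro p h1 h2 h3 h4
    rw [hL4, Finset.mem_filter]
    exact ⟨(hL p).2 h1, h2, h3, h4⟩)
  have c3 := PQ_lower F hQ hκ hQc
  have c4 := PQ_upper F hQ hκ hQc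
  have hfB : volume (Q ∩ Metric.closedBall 0 1) ≠ ⊤ := fin_of_sub_ball Set.inter_subset_right
  -- to reals
  have d1 := ENNReal.toReal_mono (ENNReal.mul_ne_top ENNReal.ofReal_ne_top hfin) c1
  have d2 := ENNReal.toReal_mono ENNReal.ofReal_ne_top c2
  have d3 := ENNReal.toReal_mono (ENNReal.mul_ne_top ENNReal.ofReal_ne_top hfin) c3
  have d4 := ENNReal.toReal_mono (ENNReal.mul_ne_top ENNReal.ofReal_ne_top hfB) c4
  rw [ENNReal.toReal_mul, ENNReal.toReal_ofReal (by positivity),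
    ENNReal.toReal_ofReal (by positivity)] at d1
  rw [ENNReal.toReal_mul, ENNReal.toReal_ofReal (by positivity),
    ENNReal.toReal_ofReal (by positivity)] at d2
  rw [ENNReal.toReal_mul, ENNReal.toReal_ofReal (by positivity)] at d3
  rw [ENNReal.toReal_mul, ENNReal.toReal_mul, ENNReal.toReal_ofReal (by positivity),
    ENNReal.toReal_ofReal (by positivity)] at d4
  rw [measureReal_def]
  set p := (volume (PQ u e f Q)).toReal with hp
  set V := (volume (Q ∩ Metric.closedBall 0 1)).toReal with hV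
  have hp0 : 0 ≤ p := ENNReal.toReal_nonneg
  refine ⟨L, L4, fun q hq => (hL q).1 hq, ?_, Finset.card_le_card (Finset.filter_subset _ _), ?_, ?_⟩
  · rintro ⟨q, o⟩ hq
    rw [hL4, Finset.mem_filter] at hq
    obtain ⟨h0, h1, h2, h3⟩ := hq
    cases o
    · simp only [v1, v2, v3, Bool.false_eq_true, if_false]
      exact ⟨(hL _).2 h1, (hL _).2 h3, (hL _).2 h2⟩
    · simp only [v1, v2, v3, if_true]
      exact ⟨h0, (hL _).2 h1, (hL _).2 h2⟩
  · rw [div_le_iff₀ (by positivity)] at d1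
    refine d1.trans ?_
    apply mul_le_mul_of_nonneg_right _ (by positivity)
    have e1 : (1 + δ) ^ 2 * κ⁻¹ ^ 3 * (6 / Real.sqrt 3) * V
        = (1 + δ) ^ 2 * ((6 / Real.sqrt 3) * (κ⁻¹ ^ 3 * V)) := by ring
    rw [e1]
    apply mul_le_mul_of_nonneg_left _ (by positivity)
    have e2 : p = 6 / Real.sqrt 3 * (Real.sqrt 3 / 6 * p) := by field_simp
    rw [e2]
    exact mul_le_mul_of_nonneg_left d4 (by positivity)
  · rw [le_div_iff₀ (by positivity)] at d2
    refine le_trans ?_ d2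
    apply mul_le_mul_of_nonneg_right _ (by positivity)
    rw [mul_assoc]
    apply mul_le_mul_of_nonneg_left _ (by positivity)
    have e2 : p = 6 / Real.sqrt 3 * (Real.sqrt 3 / 6 * p) := by field_simp
    rw [e2]
    exact mul_le_mul_of_nonneg_left d3 (by positivity)

end Med
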