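import Pool.Agent.Helper946.M32

set_option autoImplicit false

namespace Med

open MeasureTheory

theorem fine {ρ δ : ℝ} (hρ0 : 0 < ρ) (hρ1 : ρ ≤ 1) (hδ : 0 < δ) (hδ1 : δ < 1) :
    ∃ N0 : ℕ, ∀ N ≥ N0, ∃ F : Finset E, (∀ x ∈ F, ‖x‖ = 1) ∧
      (F.card : ℝ) ≤ (1 + δ) ^ 2 * (1 - ρ ^ 2 / 2)⁻¹ ^ 3 * (8 * Real.pi / Real.sqrt 3) * N ^ 2 ∧
      ∀ Y : Finset E, (∀ x ∈ Y, ‖x‖ = 1) → ∀ ρ' : ℝ, 0 ≤ ρ' → ρ' ≤ 1 → Cov Y ρ' →
        4 * Real.pi / 3 - Vol (by classical exact F ∪ Y) ≤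
          (1 + δ) ^ 2 * (1 - ρ ^ 2 / 2)⁻¹ ^ 3 * ((1 - 1 / (N:ℝ) ^ 2)⁻¹) ^ 2 * (Real.pi / 2 / N ^ 2)
          + (1 - (1 - ρ' ^ 2 / 2) ^ 3) *
            (4 * Real.pi / 3 * (1 - (1 - ρ ^ 2 / 2) ^ 3 * (1 - δ) ^ 2)) := by
  classical
  have hs3 : 0 < Real.sqrt 3 := Real.sqrt_pos.2 (by norm_num)
  set κ := 1 - ρ ^ 2 / 2 with hκdef
  have hκ : 0 < κ := by rw [hκdef]; nlinarith
  obtain ⟨Y0, hY0, hcov0⟩ := exists_net hρ0
  have hne := cov_nonempty hcov0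
  obtain ⟨k, hk⟩ : ∃ k, k = Y0.card := ⟨_, rfl⟩
  have hk0 : 0 < k := by rw [hk]; exact Finset.card_pos.2 hne
  set u : Fin k → E := fun i => ((Y0.equivFinOfCardEq hk.symm).symm i : E) with hu_def
  have hu : ∀ i, ‖u i‖ = 1 := fun i => hY0 _ ((Y0.equivFinOfCardEq hk.symm).symm i).2
  have hinj : Function.Injective u := by
    intro i j h
    exact (Y0.equivFinOfCardEq hk.symm).symm.injective (Subtype.ext h)
  have hc : ∀ w : E, ‖w‖ = 1 → ∃ i, ‖u i - w‖ ≤ ρ := by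
    intro w hw
    obtain ⟨x, hx, hxw⟩ := hcov0 w hw
    refine ⟨Y0.equivFinOfCardEq hk.symm ⟨x, hx⟩, ?_⟩
    rw [hu_def]; simpa using hxw
  have hfr : ∀ i, ∃ e f : E, Fr (u i) e f := by
    intro i
    obtain ⟨e, f, h1, h2, h3, h4, h5, h6⟩ := exists_eframe (hu i)
    exact ⟨e, f, hu i, h1, h2, h3, h4, h5, h6⟩
  choose e f hF using hfr
  have hQc : ∀ i, ∀ x ∈ Cell u i, κ * ‖x‖ ≤ inner ℝ (u i) x := fun i x hx => cell_cov hu hc hx
  have hr' := fun i => exists_r hu hinj i (e i) (f i)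
  choose r hr0 hr using hr'
  have hev : ∀ᶠ N : ℕ in Filter.atTop, ∀ i, 1 / (N:ℝ) < δ * r i := by
    rw [Filter.eventually_all]
    intro i
    exact tendsto_one_div_atTop_nhds_zero_nat.eventually_lt_const (mul_pos hδ (hr0 i))
  obtain ⟨N1, hN1⟩ := Filter.eventually_atTop.1 hev
  refine ⟨max 2 N1, fun N hN => ?_⟩
  have hN2 : 2 ≤ N := (le_max_left _ _).trans hN
  have hN0 : 0 < N := by omega
  have hNr0 : (0:ℝ) < N := by exact_mod_cast hN0
  have hNr2 : (2:ℝ) ≤ N := by exact_mod_cast hN2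
  have hNr := hN1 N ((le_max_right _ _).trans hN)
  have hcell := fun i => one_cell (hF i) (cell_isCone u i) hκ (hQc i) hδ hδ1 (hr i) hN0 (hNr i)
  choose L L4 hL hL4 hLL hL1 hL2 using hcell
  set V := fun i => volume.real (Cell u i ∩ Metric.closedBall 0 1) with hV
  have hVsum : ∑ i, V i = 4 * Real.pi / 3 := sum_cell hk0 u
  have hLsum : (∑ i, ((L i).card : ℝ)) ≤
      (1 + δ) ^ 2 * κ⁻¹ ^ 3 * (8 * Real.pi / Real.sqrt 3) * N ^ 2 := by
    refine (Finset.sum_le_sum (fun i _ => hL1 i)).trans (le_of_eq ?_)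
    rw [← Finset.sum_mul, ← Finset.mul_sum]
    have : ∑ i, volume.real (Cell u i ∩ Metric.closedBall 0 1) = 4 * Real.pi / 3 := hVsum
    rw [this]; ring
  set F : Finset E := Finset.univ.biUnion (fun i => (L i).image (XX (u i) (e i) (f i) N)) with hFdef
  have hFunit : ∀ x ∈ F, ‖x‖ = 1 := by
    intro x hx
    rw [hFdef, Finset.mem_biUnion] at hx
    obtain ⟨i, _, hx⟩ := hx
    rw [Finset.mem_image] at hx
    obtain ⟨p, _, rfl⟩ := hx
    exact XX_norm (hF i) N p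
  have hXF : ∀ i, ∀ p ∈ L i, XX (u i) (e i) (f i) N p ∈ F := by
    intro i p hp
    rw [hFdef, Finset.mem_biUnion]
    exact ⟨i, Finset.mem_univ _, Finset.mem_image_of_mem _ hp⟩
  refine ⟨F, hFunit, ?_, ?_⟩
  · refine le_trans ?_ hLsum
    have h1 : F.card ≤ ∑ i, (L i).card := by
      refine Finset.card_biUnion_le.trans (Finset.sum_le_sum fun i _ => Finset.card_image_le)
    exact_mod_cast h1
  · intro Y hY ρ' h0 h1 hcovY
    set T : Finset (Σ _ : Fin k, (ℤ × ℤ) × Bool) :=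
      Finset.univ.sigma (fun i => L4 i ×ˢ Finset.univ) with hT
    have hTm : ∀ t ∈ T, t.2.1 ∈ L4 t.1 := by
      intro t ht
      rw [hT, Finset.mem_sigma, Finset.mem_product] at ht
      exact ht.2.1
    have hTn : ∀ t ∈ T, ∀ p ∈ L t.1, ‖WW (u t.1) (e t.1) (f t.1) N p‖ ≤ 1 / κ := fun t _ p hp =>
      PQ_norm (hF t.1) hκ (hQc t.1) (hL t.1 p hp)
    have hdt : ∀ t ∈ T, _ := fun t ht => XX_dt (hF t.1) hN0 t.2 hκ
      (hTn t ht _ (hL4 t.1 t.2 (hTm t ht)).1) (hTn t ht _ (hL4 t.1 t.2 (hTm t ht)).2.1)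
      (hTn t ht _ (hL4 t.1 t.2 (hTm t ht)).2.2)
    have hedge := fun t : (Σ _ : Fin k, (ℤ × ℤ) × Bool) => WW_edge (hF t.1) hN0 t.2
    have hXu : ∀ x ∈ F ∪ Y, ‖x‖ = 1 := by
      intro x hx
      rcases Finset.mem_union.1 hx with hx | hx
      · exact hFunit x hx
      · exact hY x hx
    have hcovX : Cov (F ∪ Y) ρ' := by
      intro w hw
      obtain ⟨x, hx, hxw⟩ := hcovY w hw
      exact ⟨x, Finset.mem_union_right _ hx, hxw⟩
    have hk1 : 1 / (N:ℝ) ^ 2 < 1 := by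
      rw [div_lt_one (by positivity)]; nlinarith
    have hTsum : κ ^ 3 * (1 - δ) ^ 2 * (4 * Real.pi / 3) ≤ ∑ t ∈ T,
        dt (XX (u t.1) (e t.1) (f t.1) N (v1 t.2)) (XX (u t.1) (e t.1) (f t.1) N (v2 t.2))
          (XX (u t.1) (e t.1) (f t.1) N (v3 t.2)) / 6 := by
      have g1 : ∑ t ∈ T, κ ^ 3 * (Real.sqrt 3 / 2 * (1 / (N:ℝ) ^ 2)) / 6 ≤ ∑ t ∈ T,
          dt (XX (u t.1) (e t.1) (f t.1) N (v1 t.2)) (XX (u t.1) (e t.1) (f t.1) N (v2 t.2))
          (XX (u t.1) (e t.1) (f t.1) N (v3 t.2)) / 6 := by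
        apply Finset.sum_le_sum
        intro t ht
        exact div_le_div_of_nonneg_right (hdt t ht).2.2 (by norm_num)
      refine le_trans ?_ g1
      rw [Finset.sum_const, nsmul_eq_mul]
      have g2 : (T.card : ℝ) = ∑ i, ((L4 i).card : ℝ) * 2 := by
        rw [hT, Finset.card_sigma]
        simp [Finset.card_product]
      have g3 : (1 - δ) ^ 2 * (6 / Real.sqrt 3) * (4 * Real.pi / 3) * N ^ 2 * 2 ≤ (T.card : ℝ) := by
        rw [g2, ← hVsum, Finset.mul_sum, Finset.sum_mul, Finset.sum_mul]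
        apply Finset.sum_le_sum
        intro i _
        have := hL2 i
        linarith
      calc κ ^ 3 * (1 - δ) ^ 2 * (4 * Real.pi / 3)
          = ((1 - δ) ^ 2 * (6 / Real.sqrt 3) * (4 * Real.pi / 3) * N ^ 2 * 2) *
            (κ ^ 3 * (Real.sqrt 3 / 2 * (1 / (N:ℝ) ^ 2)) / 6) := by
            field_simp
        _ ≤ _ := mul_le_mul_of_nonneg_right g3 (by positivity)
    have hTc : (T.card : ℝ) ≤ 2 * ((1 + δ) ^ 2 * κ⁻¹ ^ 3 * (8 * Real.pi / Real.sqrt 3) * N ^ 2) := by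
      have g2 : (T.card : ℝ) = ∑ i, ((L4 i).card : ℝ) * 2 := by
        rw [hT, Finset.card_sigma]
        simp [Finset.card_product]
      rw [g2, ← Finset.sum_mul]
      have g3 : ∑ i, ((L4 i).card : ℝ) ≤ ∑ i, ((L i).card : ℝ) :=
        Finset.sum_le_sum fun i _ => by exact_mod_cast hLL i
      linarith
    have key := patch_bound T (fun t => XX (u t.1) (e t.1) (f t.1) N (v1 t.2))
      (fun t => XX (u t.1) (e t.1) (f t.1) N (v2 t.2))
      (fun t => XX (u t.1) (e t.1) (f t.1) N (v3 t.2)) (F ∪ Y) hXu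
      (fun t ht => Finset.mem_union_left _ (hXF _ _ (hL4 t.1 t.2 (hTm t ht)).1))
      (fun t ht => Finset.mem_union_left _ (hXF _ _ (hL4 t.1 t.2 (hTm t ht)).2.1))
      (fun t ht => Finset.mem_union_left _ (hXF _ _ (hL4 t.1 t.2 (hTm t ht)).2.2))
      (k := 1 / (N:ℝ) ^ 2) (dm := Real.sqrt 3 / 2 * (1 / (N:ℝ) ^ 2)) (by positivity) hk1
      (fun t ht => (hdt t ht).1) (fun t ht => (hdt t ht).2.1)
      (fun t _ => (normalize_lip (WW_norm (hF t.1) _ _) (WW_norm (hF t.1) _ _)).trans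
        (hedge t).1.le)
      (fun t _ => (normalize_lip (WW_norm (hF t.1) _ _) (WW_norm (hF t.1) _ _)).trans
        (hedge t).2.1.le)
      (fun t _ => (normalize_lip (WW_norm (hF t.1) _ _) (WW_norm (hF t.1) _ _)).trans
        (hedge t).2.2.le)
      ?_ h0 h1 hcovX hTsum
    · have hVeq : Vol (F ∪ Y) = Vol (by classical exact F ∪ Y) := by congr
      rw [← hVeq]
      refine key.trans ?_
      apply add_le_add
      · have q0 : 0 < (1 - 1 / (N:ℝ) ^ 2)⁻¹ := inv_pos.2 (by linarith)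
        set q := (1 - 1 / (N:ℝ) ^ 2)⁻¹ with hq
        calc (T.card : ℝ) * (Real.sqrt 3 / 2 * (1 / (N:ℝ) ^ 2) *
              (q ^ 2 * (3 * (1 / (N:ℝ) ^ 2)) / 48))
            ≤ (2 * ((1 + δ) ^ 2 * κ⁻¹ ^ 3 * (8 * Real.pi / Real.sqrt 3) * N ^ 2)) *
              (Real.sqrt 3 / 2 * (1 / (N:ℝ) ^ 2) *
              (q ^ 2 * (3 * (1 / (N:ℝ) ^ 2)) / 48)) :=
              mul_le_mul_of_nonneg_right hTc (by positivity)
          _ = _ := by
            field_simp; ring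
      · apply le_of_eq; ring
    · intro t ht t' ht' x hx hx'
      rw [XX_OC (hF t.1)] at hx
      rw [XX_OC (hF t'.1)] at hx'
      have hin : ∀ t ∈ T, x ∈ OC (WW (u t.1) (e t.1) (f t.1) N (v1 t.2))
          (WW (u t.1) (e t.1) (f t.1) N (v2 t.2)) (WW (u t.1) (e t.1) (f t.1) N (v3 t.2)) →
          x ∈ Cell u t.1 := by
        intro t ht hx
        have hh := hL4 t.1 t.2 (hTm t ht)
        refine OC_sub_cone (fun x hx y hy => cell_add hx hy) (cell_isCone u t.1).smul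
          (hL t.1 _ hh.1) (hL t.1 _ hh.2.1) (hL t.1 _ hh.2.2) ?_ hx
        have := WW_dt (hF t.1) hN0 t.2
        show 0 < dt (WW (u t.1) (e t.1) (f t.1) N (v1 t.2)) (WW (u t.1) (e t.1) (f t.1) N (v2 t.2))
          (WW (u t.1) (e t.1) (f t.1) N (v3 t.2))
        rw [this]; positivity
      have h1 := cell_disj (hin t ht hx) (hin t' ht' hx')
      obtain ⟨i, t⟩ := t
      obtain ⟨i', t'⟩ := t'
      simp only at h1
      subst h1
      have h2 := OC_tri_inj (hF i) hN0 hx hx'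
      exact congrArg (Sigma.mk i) h2

end Med
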