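import Pool.Agent.Helper946.M33
import Pool.Agent.Helper946.M24b

set_option autoImplicit false

namespace Med

open MeasureTheory

lemma par1 {δ κ : ℝ} (hδ : 0 < δ) (hδ1 : δ ≤ 1 / 1000) (hκ : 1 - δ ≤ κ) (hκ1 : κ ≤ 1) :
    (1 + δ) ^ 2 * κ⁻¹ ^ 3 ≤ 1 + 10 * δ ∧ 1 - κ ^ 3 * (1 - δ) ^ 2 ≤ 10 * δ := by
  have hκ0 : 0 < κ := by linarith
  have h1 : (1 - δ) ^ 3 ≤ κ ^ 3 := pow_le_pow_left₀ (by linarith) hκ 3
  have h2 : 1 - 3 * δ ≤ (1 - δ) ^ 3 := by nlinarith [mul_pos hδ hδ, mul_pos hδ (mul_pos hδ hδ)]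
  constructor
  · rw [inv_pow, ← div_eq_mul_inv, div_le_iff₀ (by positivity)]
    have h3 : (1 + 10 * δ) * (1 - 3 * δ) ≤ (1 + 10 * δ) * κ ^ 3 :=
      mul_le_mul_of_nonneg_left (by linarith) (by linarith)
    nlinarith
  · have h3 : (1 - δ) ^ 3 * (1 - δ) ^ 2 ≤ κ ^ 3 * (1 - δ) ^ 2 :=
      mul_le_mul_of_nonneg_right h1 (by positivity)
    have h4 : 1 - 5 * δ ≤ (1 - δ) ^ 3 * (1 - δ) ^ 2 := by
      have := one_add_mul_le_pow (a := -δ) (by linarith) 5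
      have e : (1 - δ) ^ 3 * (1 - δ) ^ 2 = (1 + -δ) ^ 5 := by ring
      rw [e]; push_cast at this; linarith
    linarith

lemma par2 {x : ℝ} (h0 : 0 ≤ x) (h1 : x ≤ 1 / 4) : ((1 - x)⁻¹) ^ 2 ≤ 1 + 4 * x := by
  rw [inv_pow, inv_eq_one_div, div_le_iff₀ (by nlinarith)]
  have e : (1 + 4 * x) * (1 - x) ^ 2 = 1 + x * (2 - 7 * x + 4 * x ^ 2) := by ring
  rw [e]
  have : 0 ≤ x * (2 - 7 * x + 4 * x ^ 2) := mul_nonneg h0 (by nlinarith)
  linarith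

lemma par3 {y : ℝ} (h0 : 0 ≤ y) (h1 : y ≤ 1) : 1 - (1 - y) ^ 3 ≤ 3 * y := by
  have := one_add_mul_le_pow (a := -y) (by linarith) 3
  have e : (1 - y) ^ 3 = (1 + -y) ^ 3 := by ring
  rw [e]; push_cast at this; linarith

lemma par4 {τ : ℝ} (h0 : 0 < τ) (h1 : τ ≤ 1 / 10) :
    (1 + τ ^ 2) ^ 3 / (1 - τ) ^ 3 ≤ 1 + 6 * τ := by
  have h2 : 0 < 1 - τ := by linarith
  rw [← div_pow]
  have h3 : (1 + τ ^ 2) / (1 - τ) ≤ 1 + 5 / 4 * τ := by
    rw [div_le_iff₀ h2]; nlinarith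
  refine (pow_le_pow_left₀ (by positivity) h3 3).trans ?_
  have e : (1 + 5 / 4 * τ) ^ 3 = 1 + τ * (15 / 4 + 75 / 16 * τ + 125 / 64 * τ ^ 2) := by ring
  rw [e]
  have : τ * (15 / 4 + 75 / 16 * τ + 125 / 64 * τ ^ 2) ≤ τ * 6 :=
    mul_le_mul_of_nonneg_left (by nlinarith) h0.le
  linarith

lemma par5 {ε τ : ℝ} (h0 : 0 < τ) (h1 : 16 * τ ≤ ε) :
    (1 + 6 * τ) * (4 * Real.pi ^ 2 / Real.sqrt 3) + 64 * Real.pi * τ
      ≤ (1 + ε) * (4 * Real.pi ^ 2 / Real.sqrt 3) := by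
  obtain ⟨s1, s2⟩ := sqrt3_bd
  have pi1 := Real.pi_gt_d2
  have pi2 := Real.pi_lt_d2
  have hs3 : 0 < Real.sqrt 3 := by linarith
  have h3 : 22 ≤ 4 * Real.pi ^ 2 / Real.sqrt 3 := by
    rw [le_div_iff₀ hs3]
    have : 9.8 ≤ Real.pi ^ 2 := by nlinarith
    linarith
  set c := 4 * Real.pi ^ 2 / Real.sqrt 3
  have h4 : 64 * Real.pi * τ ≤ 220 * τ := mul_le_mul_of_nonneg_right (by linarith) h0.le
  have h5 : 22 * τ ≤ c * τ := mul_le_mul_of_nonneg_right h3 h0.le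
  have h6 : c * (16 * τ) ≤ c * ε := mul_le_mul_of_nonneg_left h1 (by linarith)
  linarith

lemma par6 {a τ n N lam A : ℝ} (ha : 0 < a) (hτ : 0 < τ) (hτ1 : τ ≤ 1 / 10) (hn : 0 < n)
    (hlam : 0 < lam) (hA : 0 < A)
    (ha2 : a ^ 2 = (1 - τ) / (lam * A)) (h1 : a * Real.sqrt n * (1 - τ) ≤ N) :
    1 / N ^ 2 ≤ lam * A / (1 - τ) ^ 3 / n := by
  have h2 : 0 < 1 - τ := by linarith
  have h3 : 0 < Real.sqrt n := Real.sqrt_pos.2 hn
  have h4 : (a * Real.sqrt n * (1 - τ)) ^ 2 ≤ N ^ 2 := pow_le_pow_left₀ (by positivity) h1 2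
  have h5 : (a * Real.sqrt n * (1 - τ)) ^ 2 = (1 - τ) ^ 3 * n / (lam * A) := by
    rw [mul_pow, mul_pow, Real.sq_sqrt hn.le, ha2]; field_simp
  rw [h5] at h4
  calc 1 / N ^ 2 ≤ 1 / ((1 - τ) ^ 3 * n / (lam * A)) :=
        one_div_le_one_div_of_le (by positivity) h4
    _ = _ := by field_simp

lemma combine {τ lam N D nn m w q : ℝ} (hτ : 0 < τ) (hτ1 : τ ≤ 1 / 10) (hl0 : 0 < lam)
    (hl : lam ≤ 1 + τ ^ 2) (hq0 : 0 < q) (hq : q ≤ 1 + τ ^ 2) (hn : 0 < nn)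
    (hN : 1 / N ^ 2 ≤ (1 + τ ^ 2) * (8 * Real.pi / Real.sqrt 3) / (1 - τ) ^ 3 / nn)
    (hm : τ * nn / 2 ≤ m) (hw : w ≤ 24 / m) (hw0 : 0 ≤ w)
    (hD : D ≤ lam * q * (Real.pi / 2 / N ^ 2) + w * (4 * Real.pi / 3 * τ ^ 2)) :
    D ≤ ((1 + 6 * τ) * (4 * Real.pi ^ 2 / Real.sqrt 3) + 64 * Real.pi * τ) / nn := by
  have hpi := Real.pi_pos
  have hs3 : 0 < Real.sqrt 3 := Real.sqrt_pos.2 (by norm_num)
  have h1τ : 0 < 1 - τ := by linarith
  have hNN : 0 ≤ 1 / N ^ 2 := by positivity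
  have a1 : lam * q ≤ (1 + τ ^ 2) * (1 + τ ^ 2) := mul_le_mul hl hq hq0.le (by positivity)
  have a2 : lam * q * (Real.pi / 2 / N ^ 2) ≤ (1 + τ ^ 2) * (1 + τ ^ 2) * (Real.pi / 2 * ((1 + τ ^ 2) *
      (8 * Real.pi / Real.sqrt 3) / (1 - τ) ^ 3 / nn)) := by
    have e : Real.pi / 2 / N ^ 2 = Real.pi / 2 * (1 / N ^ 2) := by ring
    rw [e]
    apply mul_le_mul a1 _ (by positivity) (by positivity)
    exact mul_le_mul_of_nonneg_left hN (by positivity)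
  have a3 : (1 + τ ^ 2) * (1 + τ ^ 2) * (Real.pi / 2 * ((1 + τ ^ 2) *
      (8 * Real.pi / Real.sqrt 3) / (1 - τ) ^ 3 / nn))
      = ((1 + τ ^ 2) ^ 3 / (1 - τ) ^ 3) * (4 * Real.pi ^ 2 / Real.sqrt 3) / nn := by
    field_simp; ring
  have a4 : ((1 + τ ^ 2) ^ 3 / (1 - τ) ^ 3) * (4 * Real.pi ^ 2 / Real.sqrt 3) / nn
      ≤ (1 + 6 * τ) * (4 * Real.pi ^ 2 / Real.sqrt 3) / nn := by
    apply div_le_div_of_nonneg_right _ hn.le
    exact mul_le_mul_of_nonneg_right (par4 hτ hτ1) (by positivity)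
  have hm0 : 0 < m := lt_of_lt_of_le (by positivity) hm
  have b1 : w ≤ 48 / (τ * nn) := by
    refine hw.trans ?_
    rw [div_le_div_iff₀ hm0 (by positivity)]; linarith
  have b2 : w * (4 * Real.pi / 3 * τ ^ 2) ≤ 48 / (τ * nn) * (4 * Real.pi / 3 * τ ^ 2) :=
    mul_le_mul_of_nonneg_right b1 (by positivity)
  have b3 : 48 / (τ * nn) * (4 * Real.pi / 3 * τ ^ 2) = 64 * Real.pi * τ / nn := by
    field_simp; ring
  rw [add_div]
  rw [a3] at a2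
  rw [b3] at b2
  linarith

theorem UB_holds : UB := by
  classical
  intro ε hε
  set τ := min (1 / 10) (ε / 16) with hτdef
  have hτ : 0 < τ := lt_min (by norm_num) (by positivity)
  have hτ1 : τ ≤ 1 / 10 := min_le_left _ _
  have hτ2 : 16 * τ ≤ ε := by
    have : τ ≤ ε / 16 := min_le_right _ _
    linarith
  clear_value τ
  have hτsq : τ ^ 2 ≤ 1 / 100 := by
    have := pow_le_pow_left₀ hτ.le hτ1 2
    norm_num at this ⊢; exact this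
  set δ := τ ^ 2 / 10 with hδdef
  have hδ : 0 < δ := by positivity
  have hδ1 : δ ≤ 1 / 1000 := by rw [hδdef]; linarith
  have hκ : 1 - δ ≤ 1 - δ ^ 2 / 2 := by nlinarith
  have hκ1 : 1 - δ ^ 2 / 2 ≤ 1 := by nlinarith [sq_nonneg δ]
  obtain ⟨p1, p2⟩ := par1 hδ hδ1 hκ hκ1
  have e10 : 10 * δ = τ ^ 2 := by rw [hδdef]; ring
  rw [e10] at p1 p2
  obtain ⟨N0, hfine⟩ := fine (ρ := δ) (δ := δ) hδ (by linarith) hδ (by linarith)
  have hs3 : 0 < Real.sqrt 3 := Real.sqrt_pos.2 (by norm_num)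
  have hpi := Real.pi_pos
  set A := 8 * Real.pi / Real.sqrt 3 with hA
  have hA0 : 0 < A := by positivity
  have h1τ : 0 < 1 - τ := by linarith
  have hκ0 : 0 < 1 - δ ^ 2 / 2 := by linarith
  obtain ⟨a, ha⟩ : ∃ a, a = Real.sqrt ((1 - τ) / ((1 + τ ^ 2) * A)) := ⟨_, rfl⟩
  have ha0 : 0 < a := by rw [ha]; exact Real.sqrt_pos.2 (by positivity)
  have ha2 : a ^ 2 = (1 - τ) / ((1 + τ ^ 2) * A) := by rw [ha, Real.sq_sqrt (by positivity)]
  set b : ℝ := N0 + 2 / τ + 2 with hb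
  have hb0 : 0 < b := by positivity
  refine ⟨⌈(b / a) ^ 2⌉₊ + ⌈34 / τ⌉₊, fun n hn => ?_⟩
  have hn1 : (b / a) ^ 2 ≤ n := (Nat.le_ceil _).trans (by exact_mod_cast (by omega : _ ≤ n))
  have hn2 : 34 / τ ≤ n := (Nat.le_ceil _).trans (by exact_mod_cast (by omega : _ ≤ n))
  have hn2' : 34 ≤ τ * n := by rw [div_le_iff₀ hτ] at hn2; linarith
  have hn0 : (0:ℝ) < n := lt_of_lt_of_le (by positivity) hn2
  have hsq : b ≤ a * Real.sqrt n := by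
    have h1 : b / a ≤ Real.sqrt n := Real.le_sqrt_of_sq_le hn1
    rw [div_le_iff₀ ha0] at h1; linarith
  set N := ⌊a * Real.sqrt n⌋₊ with hN
  have hN1 : (N:ℝ) ≤ a * Real.sqrt n := Nat.floor_le (by positivity)
  have hN2 : a * Real.sqrt n < N + 1 := Nat.lt_floor_add_one _
  have h2τ : 0 < 2 / τ := by positivity
  have hN3 : N0 ≤ N := by
    have : (N0:ℝ) ≤ N := by linarith
    exact_mod_cast this
  have hN4 : 2 / τ ≤ N := by
    have : (0:ℝ) ≤ N0 := Nat.cast_nonneg _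
    linarith
  have hNpos : (0:ℝ) < N := lt_of_lt_of_le h2τ hN4
  have hN5 : a * Real.sqrt n * (1 - τ) ≤ N := by
    have h1 : 2 ≤ τ * N := by rw [div_le_iff₀ hτ] at hN4; linarith
    have h2 : τ * N ≤ τ * (a * Real.sqrt n) := mul_le_mul_of_nonneg_left hN1 hτ.le
    linarith
  set m := ⌊τ * n⌋₊ with hm
  have hm1 : (m:ℝ) ≤ τ * n := Nat.floor_le (by positivity)
  have hm2 : τ * n < m + 1 := Nat.lt_floor_add_one _
  have hm3 : 16 ≤ m := by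
    have : (16:ℝ) ≤ m := by linarith
    exact_mod_cast this
  have hm0 : (0:ℝ) < m := by
    have : (16:ℝ) ≤ m := by exact_mod_cast hm3
    linarith
  obtain ⟨F, hF1, hF2, hF3⟩ := hfine N hN3
  obtain ⟨Y, hY1, hY2, hY3⟩ := coarse_net hm3
  have hρ' : 4 / Real.sqrt m ≤ 1 := by
    rw [div_le_one (Real.sqrt_pos.2 hm0)]
    apply Real.le_sqrt_of_sq_le
    have : (16:ℝ) ≤ m := by exact_mod_cast hm3
    linarith
  have hD := hF3 Y hY1 (4 / Real.sqrt m) (by positivity) hρ' hY3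
  have hN2' : (N:ℝ) ^ 2 ≤ a ^ 2 * n := by
    have := pow_le_pow_left₀ hNpos.le hN1 2
    rwa [mul_pow, Real.sq_sqrt hn0.le] at this
  refine ⟨F ∪ Y, ?_, ?_, ?_⟩
  · have c1 : (F.card : ℝ) ≤ (1 - τ) * n := by
      refine hF2.trans ?_
      calc (1 + δ) ^ 2 * (1 - δ ^ 2 / 2)⁻¹ ^ 3 * A * N ^ 2
          ≤ (1 + τ ^ 2) * A * (a ^ 2 * n) := by
            apply mul_le_mul _ hN2' (by positivity) (by positivity)
            exact mul_le_mul_of_nonneg_right p1 hA0.le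
        _ = (1 - τ) * n := by rw [ha2]; field_simp
    have c2 : (Y.card : ℝ) ≤ m := by exact_mod_cast hY2
    have c3 : ((F ∪ Y).card : ℝ) ≤ F.card + Y.card := by exact_mod_cast Finset.card_union_le F Y
    have c4 : ((F ∪ Y).card : ℝ) ≤ n := by linarith
    exact_mod_cast c4
  · intro x hx
    rcases Finset.mem_union.1 hx with hx | hx
    · exact hF1 x hx
    · exact hY1 x hx
  · have hVeq : Vol (F ∪ Y) = Vol (by classical exact F ∪ Y) := by congr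
    have hx1 : 1 / (N:ℝ) ^ 2 ≤ τ ^ 2 / 4 := by
      have h1 : 2 ≤ τ * N := by rw [div_le_iff₀ hτ] at hN4; linarith
      have h2 : (2:ℝ) ^ 2 ≤ (τ * N) ^ 2 := pow_le_pow_left₀ (by norm_num) h1 2
      rw [div_le_div_iff₀ (by positivity) (by norm_num)]
      rw [mul_pow] at h2; linarith
    have hq := par2 (x := 1 / (N:ℝ) ^ 2) (by positivity) (by linarith)
    have hq0 : 0 < ((1 - 1 / (N:ℝ) ^ 2)⁻¹) ^ 2 := by
      have : 0 < 1 - 1 / (N:ℝ) ^ 2 := by linarith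
      positivity
    have hN6 := par6 ha0 hτ hτ1 hn0 (lam := 1 + τ ^ 2) (by positivity) hA0 ha2 hN5
    have hρsq : (4 / Real.sqrt m) ^ 2 / 2 = 8 / m := by
      rw [div_pow, Real.sq_sqrt hm0.le]; ring
    have hw := par3 (y := (4 / Real.sqrt m) ^ 2 / 2) (by positivity) (by
      have := pow_le_one₀ (n := 2) (show 0 ≤ 4 / Real.sqrt m by positivity) hρ'
      linarith)
    have hw' : 1 - (1 - (4 / Real.sqrt m) ^ 2 / 2) ^ 3 ≤ 24 / m := by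
      rw [hρsq] at hw ⊢
      refine hw.trans (le_of_eq ?_)
      ring
    have hw0 : 0 ≤ 1 - (1 - (4 / Real.sqrt m) ^ 2 / 2) ^ 3 := by
      have h1 : (1 - (4 / Real.sqrt m) ^ 2 / 2) ^ 3 ≤ 1 := by
        apply pow_le_one₀
        · have := pow_le_one₀ (n := 2) (show 0 ≤ 4 / Real.sqrt m by positivity) hρ'
          linarith
        · have : 0 ≤ (4 / Real.sqrt m) ^ 2 := by positivity
          linarith
      linarith
    rw [← hVeq] at hD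
    have hcomb := combine (τ := τ) (lam := (1 + δ) ^ 2 * (1 - δ ^ 2 / 2)⁻¹ ^ 3) (N := N)
      (D := 4 * Real.pi / 3 - Vol (F ∪ Y)) (nn := n) (m := m)
      (w := 1 - (1 - (4 / Real.sqrt m) ^ 2 / 2) ^ 3) (q := ((1 - 1 / (N:ℝ) ^ 2)⁻¹) ^ 2) hτ hτ1
      (by positivity) p1 hq0 (by linarith) hn0 hN6 (by linarith) hw' hw0 ?_
    · refine hcomb.trans ?_
      exact div_le_div_of_nonneg_right (par5 hτ hτ2) hn0.le
    · refine hD.trans (add_le_add le_rfl ?_)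
      apply mul_le_mul_of_nonneg_left _ hw0
      apply mul_le_mul_of_nonneg_left p2 (by positivity)

end Med
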