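import Pool.Agent.Helper946.M0

set_option autoImplicit false

namespace Med

open MeasureTheory

def psi (u e f : E) (p : ℝ × ℝ × ℝ) : E := p.1 • u + p.2.1 • e + p.2.2 • f

lemma psi_meas (u e f : E) : Measurable (psi u e f) := by
  unfold psi
  fun_prop

def kk (p : ℝ × ℝ × ℝ) : Fin 3 → ℝ := ![p.1, p.2.1, p.2.2]

lemma kk_mp : MeasurePreserving kk volume volume := by
  have h1 : MeasurePreserving (MeasurableEquiv.piFinSuccAbove (fun _ : Fin 3 => ℝ) 0).symm
      volume volume := (volume_preserving_piFinSuccAbove (fun _ : Fin 3 => ℝ) 0).symm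
  have h2 : MeasurePreserving (Prod.map (id : ℝ → ℝ) (MeasurableEquiv.finTwoArrow (α := ℝ)).symm)
      (volume.prod volume) (volume.prod volume) :=
    (MeasurePreserving.id volume).prod (volume_preserving_finTwoArrow ℝ).symm
  have h3 := h1.comp h2
  have h4 : (⇑(MeasurableEquiv.piFinSuccAbove (fun _ : Fin 3 => ℝ) 0).symm ∘
      Prod.map (id : ℝ → ℝ) (MeasurableEquiv.finTwoArrow (α := ℝ)).symm) = kk := by
    funext p
    obtain ⟨s, x, y⟩ := p
    funext i
    fin_cases i <;> rfl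
  rw [h4] at h3
  exact h3

noncomputable def MM (u e f : E) : Matrix (Fin 3) (Fin 3) ℝ :=
  !![u 0, e 0, f 0; u 1, e 1, f 1; u 2, e 2, f 2]

lemma det_MM (u e f : E) : (MM u e f).det = dt u e f := by
  rw [Matrix.det_fin_three]; simp [MM, dt]; ring

lemma psi_eq (u e f : E) (p : ℝ × ℝ × ℝ) :
    psi u e f p = WithLp.toLp 2 (Matrix.toLin' (MM u e f) (kk p)) := by
  apply ext3 <;> simp [psi, MM, kk, Matrix.toLin'_apply, Matrix.mulVec, dotProduct,
    Fin.sum_univ_three] <;> ring

lemma psi_vol {u e f : E} (h : dt u e f ≠ 0) {A : Set E} (hA : MeasurableSet A) :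
    volume A = ENNReal.ofReal |dt u e f| * volume (psi u e f ⁻¹' A) := by
  set L := Matrix.toLin' (MM u e f) with hL
  have hdet : LinearMap.det L = dt u e f := by rw [hL, LinearMap.det_toLin', det_MM]
  have hLm : Measurable L := by
    have : Continuous L := LinearMap.continuous_of_finiteDimensional L
    exact this.measurable
  have h1 : psi u e f ⁻¹' A = kk ⁻¹' (L ⁻¹' ((WithLp.toLp 2) ⁻¹' A)) := by
    ext p; simp only [Set.mem_preimage, psi_eq]; rfl
  have hB : MeasurableSet ((WithLp.toLp 2) ⁻¹' A : Set (Fin 3 → ℝ)) :=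
    (PiLp.volume_preserving_toLp (Fin 3)).measurable hA
  rw [h1, kk_mp.measure_preimage (hLm hB).nullMeasurableSet,
    Measure.addHaar_preimage_linearMap volume (by rw [hdet]; exact h), hdet,
    (PiLp.volume_preserving_toLp (Fin 3)).measure_preimage hA.nullMeasurableSet, ← mul_assoc,
    ← ENNReal.ofReal_mul (abs_nonneg _), ← abs_mul, mul_inv_cancel₀ h]
  simp

lemma slices {W : Set (ℝ × ℝ × ℝ)} (hW : MeasurableSet W) :
    volume W = ∫⁻ s : ℝ, volume {q : ℝ × ℝ | (s, q) ∈ W} := by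
  rw [Measure.volume_eq_prod, Measure.prod_apply hW]; rfl

lemma scale_slice {s : ℝ} (hs : 0 < s) (P : Set (ℝ × ℝ)) :
    volume {q : ℝ × ℝ | (q.1 / s, q.2 / s) ∈ P} = ENNReal.ofReal (s ^ 2) * volume P := by
  have h1 : {q : ℝ × ℝ | (q.1 / s, q.2 / s) ∈ P} = (fun q : ℝ × ℝ => s⁻¹ • q) ⁻¹' P := by
    ext q
    simp only [Set.mem_ofPred_eq, Set.mem_preimage]
    have : s⁻¹ • q = (q.1 / s, q.2 / s) := by
      ext <;> simp [div_eq_inv_mul]
    rw [this]
  rw [h1, Measure.addHaar_preimage_smul volume (inv_ne_zero hs.ne')]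
  congr 2
  have : Module.finrank ℝ (ℝ × ℝ) = 2 := by simp
  rw [this, inv_pow, inv_inv, abs_of_pos (by positivity)]

lemma lint_Ioo {a b : ℝ} (hab : a ≤ b) {g : ℝ → ℝ} (hg : Continuous g)
    (hnn : ∀ x ∈ Set.Ioo a b, 0 ≤ g x) :
    ∫⁻ x in Set.Ioo a b, ENNReal.ofReal (g x) = ENNReal.ofReal (∫ x in a..b, g x) := by
  rw [intervalIntegral.integral_of_le hab, integral_Ioc_eq_integral_Ioo,
    ofReal_integral_eq_lintegral_ofReal]
  · exact (hg.integrableOn_Icc).mono_set Set.Ioo_subset_Icc_self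
  · exact (ae_restrict_iff' measurableSet_Ioo).2 (Filter.Eventually.of_forall hnn)

def D0 : Set (ℝ × ℝ) := {q | 0 < q.1 ∧ 0 < q.2 ∧ q.1 + q.2 < 1}
def D1 : Set (ℝ × ℝ) := {q | 0 ≤ q.1 ∧ 0 ≤ q.2 ∧ q.1 + q.2 ≤ 1}

lemma D0_meas : MeasurableSet D0 := by
  unfold D0
  apply MeasurableSet.inter (measurableSet_lt measurable_const measurable_fst)
  apply MeasurableSet.inter (measurableSet_lt measurable_const measurable_snd)
  exact measurableSet_lt (measurable_fst.add measurable_snd) measurable_const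

lemma D1_meas : MeasurableSet D1 := by
  unfold D1
  apply MeasurableSet.inter (measurableSet_le measurable_const measurable_fst)
  apply MeasurableSet.inter (measurableSet_le measurable_const measurable_snd)
  exact measurableSet_le (measurable_fst.add measurable_snd) measurable_const

lemma lint_D0 (F : ℝ → ℝ → ℝ) (hF : Continuous (fun q : ℝ × ℝ => F q.1 q.2))
    (hnn : ∀ x y, 0 < x → 0 < y → x + y < 1 → 0 ≤ F x y) (I : ℝ → ℝ)
    (hI : ∀ x, ∫ y in (0:ℝ)..(1 - x), F x y = I x) (hIc : Continuous I) :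
    ∫⁻ q in D0, ENNReal.ofReal (F q.1 q.2) = ENNReal.ofReal (∫ x in (0:ℝ)..1, I x) := by
  rw [← lintegral_indicator D0_meas, Measure.volume_eq_prod, lintegral_prod]
  · rw [← lint_Ioo zero_le_one hIc]
    · rw [← lintegral_indicator measurableSet_Ioo]
      congr 1
      funext x
      by_cases hx : x ∈ Set.Ioo (0:ℝ) 1
      · have hc : Continuous (fun y => F x y) := hF.comp (Continuous.prodMk_right x)
        rw [Set.indicator_of_mem hx, ← hI, ← lint_Ioo (by linarith [hx.2])
          hc, ← lintegral_indicator measurableSet_Ioo]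
        · congr 1
          funext y
          by_cases hy : y ∈ Set.Ioo (0:ℝ) (1 - x)
          · rw [Set.indicator_of_mem hy, Set.indicator_of_mem]
            exact ⟨hx.1, hy.1, by simp only; linarith [hy.2]⟩
          · rw [Set.indicator_of_notMem hy, Set.indicator_of_notMem]
            rintro ⟨h1, h2, h3⟩
            exact hy ⟨h2, by simp only at h3; linarith⟩
        · intro y hy
          exact hnn x y hx.1 hy.1 (by linarith [hy.2])
      · rw [Set.indicator_of_notMem hx]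
        rw [lintegral_eq_zero_iff']
        · apply Filter.Eventually.of_forall
          intro y
          simp only [Pi.zero_apply]
          rw [Set.indicator_of_notMem]
          rintro ⟨h1, h2, h3⟩
          exact hx ⟨h1, by simp only at h2 h3; linarith⟩
        · apply Measurable.aemeasurable
          have : Measurable (D0.indicator fun a : ℝ × ℝ => ENNReal.ofReal (F a.1 a.2)) :=
            (ENNReal.measurable_ofReal.comp hF.measurable).indicator D0_meas
          exact this.comp measurable_prodMk_left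
    · intro x hx
      rw [← hI]
      apply intervalIntegral.integral_nonneg_of_ae_restrict (by linarith [hx.2])
      have hh : ∀ᵐ y ∂(volume.restrict (Set.Ioo 0 (1 - x))), 0 ≤ F x y :=
        (ae_restrict_iff' measurableSet_Ioo).2 (Filter.Eventually.of_forall
          fun y hy => hnn x y hx.1 hy.1 (by linarith [hy.2]))
      rw [Measure.restrict_congr_set (Ioo_ae_eq_Icc)] at hh
      exact hh
  · exact ((ENNReal.measurable_ofReal.comp hF.measurable).indicator D0_meas).aemeasurable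

lemma int_one_sub : ∫ x in (0:ℝ)..1, (1 - x) = 1 / 2 := by
  rw [intervalIntegral.integral_sub (by simp) (by simp)]
  simp
  norm_num

lemma vol_D0 : volume D0 = ENNReal.ofReal (1 / 2) := by
  have h := lint_D0 (fun _ _ => 1) continuous_const (fun _ _ _ _ _ => zero_le_one)
    (fun x => 1 - x) (fun x => by simp) (by fun_prop)
  simp only [ENNReal.ofReal_one, setLIntegral_one] at h
  rw [h, int_one_sub]

lemma vol_D1 : volume D1 = ENNReal.ofReal (1 / 2) := by
  rw [Measure.volume_eq_prod, Measure.prod_apply D1_meas, ← int_one_sub,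
    ← lint_Ioo zero_le_one (by fun_prop) (fun x hx => by linarith [hx.2]),
    ← lintegral_indicator measurableSet_Ioo]
  have hae : ∀ᵐ x : ℝ, x ≠ 0 ∧ x ≠ 1 := by
    have h1 : ∀ᵐ x : ℝ, x ≠ 0 := by
      rw [ae_iff]; simp
    have h2 : ∀ᵐ x : ℝ, x ≠ 1 := by
      rw [ae_iff]; simp
    filter_upwards [h1, h2] with x a b using ⟨a, b⟩
  apply lintegral_congr_ae
  filter_upwards [hae] with x hx
  by_cases hx1 : x ∈ Set.Ioo (0:ℝ) 1
  · rw [Set.indicator_of_mem hx1]
    have : Prod.mk x ⁻¹' D1 = Set.Icc 0 (1 - x) := by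
      ext y
      simp only [D1, Set.mem_preimage, Set.mem_ofPred_eq, Set.mem_Icc]
      constructor
      · rintro ⟨_, h2, h3⟩; exact ⟨h2, by linarith⟩
      · rintro ⟨h2, h3⟩; exact ⟨hx1.1.le, h2, by linarith⟩
    rw [this, Real.volume_Icc, sub_zero]
  · rw [Set.indicator_of_notMem hx1]
    have : Prod.mk x ⁻¹' D1 = ∅ := by
      ext y
      simp only [D1, Set.mem_preimage, Set.mem_ofPred_eq, Set.mem_empty_iff_false, iff_false]
      rintro ⟨h1, h2, h3⟩
      exact hx1 ⟨lt_of_le_of_ne h1 hx.1.symm, lt_of_le_of_ne (by linarith) hx.2⟩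
    rw [this]; simp

lemma int_poly (A B C : ℝ) (x : ℝ) : ∫ y in (0:ℝ)..(1 - x),
    ((1 - x - y) * (A * x + B * y) + C * x * y)
      = A * x * (1 - x) ^ 2 / 2 + B * (1 - x) ^ 3 / 6 + C * x * (1 - x) ^ 2 / 2 := by
  have h : ∀ y, HasDerivAt (fun y => (1 - x) * A * x * y + ((1 - x) * B - A * x + C * x) * y ^ 2 / 2
      - B * y ^ 3 / 3) ((1 - x - y) * (A * x + B * y) + C * x * y) y := by
    intro y
    have h1 := ((hasDerivAt_id y).const_mul ((1 - x) * A * x))
    have h2 := (((hasDerivAt_id y).pow 2).const_mul (((1 - x) * B - A * x + C * x)/2))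
    have h3 := (((hasDerivAt_id y).pow 3).const_mul (B/3))
    refine (((h1.add h2).sub h3).congr_deriv ?_).congr_of_eventuallyEq
      (Filter.Eventually.of_forall fun z => ?_)
    · simp; ring
    · simp; ring
  rw [intervalIntegral.integral_eq_sub_of_hasDerivAt (fun y _ => h y)
    (Continuous.intervalIntegrable (by fun_prop) _ _)]
  ring

lemma int_poly2 (A B C : ℝ) : ∫ x in (0:ℝ)..1,
    (A * x * (1 - x) ^ 2 / 2 + B * (1 - x) ^ 3 / 6 + C * x * (1 - x) ^ 2 / 2)
      = (A + B + C) / 24 := by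
  have h : ∀ x, HasDerivAt (fun x => (A + C) / 2 * (x ^ 2 / 2 - 2 * x ^ 3 / 3 + x ^ 4 / 4)
      - B / 24 * (1 - x) ^ 4) (A * x * (1 - x) ^ 2 / 2 + B * (1 - x) ^ 3 / 6 
        + C * x * (1 - x) ^ 2 / 2) x := by
    intro x
    have h1 := ((hasDerivAt_id x).pow 2).const_mul ((A + C) / 4)
    have h2 := ((hasDerivAt_id x).pow 3).const_mul ((A + C) / 3)
    have h3 := ((hasDerivAt_id x).pow 4).const_mul ((A + C) / 8)
    have h4 := ((((hasDerivAt_id x).const_sub 1).pow 4).const_mul (B / 24))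
    refine ((((h1.sub h2).add h3).sub h4).congr_deriv ?_).congr_of_eventuallyEq
      (Filter.Eventually.of_forall fun z => ?_)
    · simp; ring
    · simp; ring
  rw [intervalIntegral.integral_eq_sub_of_hasDerivAt (fun y _ => h y)
    (Continuous.intervalIntegrable (by fun_prop) _ _)]
  ring

def QQ (A B C : ℝ) (q : ℝ × ℝ) : ℝ := (1 - q.1 - q.2) * (A * q.1 + B * q.2) + C * q.1 * q.2

lemma QQ_cont (A B C : ℝ) : Continuous (QQ A B C) := by unfold QQ; fun_prop

lemma QQ_nonneg {A B C : ℝ} (hA : 0 ≤ A) (hB : 0 ≤ B) (hC : 0 ≤ C) {q : ℝ × ℝ} (hq : q ∈ D0) :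
    0 ≤ QQ A B C q := by
  obtain ⟨h1, h2, h3⟩ := hq
  unfold QQ
  have : 0 ≤ 1 - q.1 - q.2 := by linarith
  positivity

lemma QQ_le {A B C k : ℝ} (hA : A ≤ k) (hB : B ≤ k) (hC : C ≤ k)
    (hk : 0 ≤ k) {q : ℝ × ℝ} (hq : q ∈ D0) : QQ A B C q ≤ k := by
  obtain ⟨h1, h2, h3⟩ := hq
  unfold QQ
  have e1 : 0 ≤ 1 - q.1 - q.2 := by linarith
  have e2 : A * q.1 + B * q.2 ≤ k * (q.1 + q.2) := by nlinarith
  have e3 : C * q.1 * q.2 ≤ k * q.1 * q.2 := by
    have := mul_pos h1 h2
    nlinarith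
  have e4 : (1 - q.1 - q.2) * (A * q.1 + B * q.2) ≤ (1 - q.1 - q.2) * (k * (q.1 + q.2)) :=
    mul_le_mul_of_nonneg_left e2 e1
  have e5 : (1 - q.1 - q.2) * (q.1 + q.2) + q.1 * q.2 ≤ 1 := by nlinarith
  nlinarith

lemma lint_QQ {A B C : ℝ} (hA : 0 ≤ A) (hB : 0 ≤ B) (hC : 0 ≤ C) :
    ∫⁻ q in D0, ENNReal.ofReal (QQ A B C q) = ENNReal.ofReal ((A + B + C) / 24) := by
  have h := lint_D0 (fun x y => (1 - x - y) * (A * x + B * y) + C * x * y) (by fun_prop)
    (fun x y h1 h2 h3 => QQ_nonneg hA hB hC (q := (x, y)) ⟨h1, h2, h3⟩)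
    (fun x => A * x * (1 - x) ^ 2 / 2 + B * (1 - x) ^ 3 / 6 + C * x * (1 - x) ^ 2 / 2)
    (int_poly A B C) (by fun_prop)
  rw [int_poly2] at h
  exact h

end Med
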