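import Mathlib
import Pool.Agent.Helper946.PHDefs

set_option autoImplicit false

namespace Pool.Agent.Helper946.PH3

variable {K K' E : Type} [DivisionRing K] [DivisionRing K'] [AddCommGroup E]
  {ι : K →+* K'} {x : E → K'}

theorem exists_lead (φ : E →+ ℝ) {f : E →₀ K} (hf : f ≠ 0) : ∃ v, IsLead φ f v := by
  obtain ⟨v, hv, h⟩ := Finset.exists_max_image f.support φ (Finsupp.support_nonempty_iff.mpr hf)
  exact ⟨v, hv, h⟩

theorem lead_ne {φ : E →+ ℝ} {f : E →₀ K} {v : E} (h : IsLead φ f v) : f ≠ 0 := by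
  intro h0
  rw [h0] at h
  simpa using h.1

theorem lead_unique {φ : E →+ ℝ} (hφ : Function.Injective φ) {f : E →₀ K} {v w : E}
    (h : IsLead φ f v) (h' : IsLead φ f w) : v = w :=
  hφ (le_antisymm (h'.2 v h.1) (h.2 w h'.1))

theorem ev_zero : ev ι x (0 : E →₀ K) = 0 := by simp [ev]

theorem ev_add (f g : E →₀ K) : ev ι x (f + g) = ev ι x f + ev ι x g := by
  classical
  unfold ev
  rw [Finsupp.sum_add_index']
  · intro a; simp
  · intro a b c; simp [add_mul]

theorem ev_single (v : E) (k : K) : ev ι x (Finsupp.single v k) = ι k * x v := by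
  unfold ev
  rw [Finsupp.sum_single_index]
  simp

theorem ev_eq_zero (hC : Cross ι x) (f : E →₀ K) : ev ι x f = 0 ↔ f = 0 :=
  ⟨hC.indep f, fun h => by rw [h, ev_zero]⟩

theorem ev_sum {α : Type*} (s : Finset α) (f : α → (E →₀ K)) :
    ev ι x (∑ i ∈ s, f i) = ∑ i ∈ s, ev ι x (f i) := by
  classical
  induction s using Finset.induction_on with
  | empty => simp [ev_zero]
  | insert a s ha ih => rw [Finset.sum_insert ha, Finset.sum_insert ha, ev_add, ih]

/-- product of two sums, with leading exponents. -/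
theorem ev_mul (hC : Cross ι x) {φ : E →+ ℝ} (hφ : Function.Injective φ) {f g : E →₀ K} {v w : E}
    (hf : IsLead φ f v) (hg : IsLead φ g w) :
    ∃ h : E →₀ K, ev ι x h = ev ι x f * ev ι x g ∧ IsLead φ h (v + w) := by
  classical
  have hc : ∀ a b : E, ∃ c : K, ι (f a) * x a * (ι (g b) * x b) = ι c * x (a + b) ∧
      (f a ≠ 0 → g b ≠ 0 → c ≠ 0) := by
    intro a b
    obtain ⟨k', hk'⟩ := hC.conj a (g b)
    obtain ⟨c, hc⟩ := hC.mul a b
    refine ⟨f a * k' * c, ?_, ?_⟩
    · calc ι (f a) * x a * (ι (g b) * x b) = ι (f a) * (x a * ι (g b)) * x b := by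
            simp only [mul_assoc]
        _ = ι (f a) * ι k' * (x a * x b) := by rw [hk']; simp only [mul_assoc]
        _ = _ := by rw [hc]; simp only [map_mul, mul_assoc]
    · intro ha hb h0
      have h1 : ι (f a) * x a * (ι (g b) * x b) = 0 := by
        have : ι (f a) * x a * (ι (g b) * x b) = ι (f a * k' * c) * x (a + b) := by
          calc ι (f a) * x a * (ι (g b) * x b) = ι (f a) * (x a * ι (g b)) * x b := by
                simp only [mul_assoc]
            _ = ι (f a) * ι k' * (x a * x b) := by rw [hk']; simp only [mul_assoc]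
            _ = _ := by rw [hc]; simp only [map_mul, mul_assoc]
        rw [this, h0, map_zero, zero_mul]
      have h2 : ι (f a) ≠ 0 := by rw [Ne, map_eq_zero]; exact ha
      have h3 : ι (g b) ≠ 0 := by rw [Ne, map_eq_zero]; exact hb
      exact (mul_ne_zero (mul_ne_zero h2 (hC.ne0 a)) (mul_ne_zero h3 (hC.ne0 b))) h1
  choose c hc1 hc2 using hc
  let h : E →₀ K := ∑ a ∈ f.support, ∑ b ∈ g.support, Finsupp.single (a + b) (c a b)
  have hev : ev ι x h = ev ι x f * ev ι x g := by
    have e1 : ev ι x f = ∑ a ∈ f.support, ι (f a) * x a := rfl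
    have e2 : ev ι x g = ∑ b ∈ g.support, ι (g b) * x b := rfl
    rw [e1, e2, Finset.sum_mul_sum]
    show ev ι x (∑ a ∈ f.support, ∑ b ∈ g.support, Finsupp.single (a + b) (c a b)) = _
    rw [ev_sum]
    refine Finset.sum_congr rfl fun a _ => ?_
    rw [ev_sum]
    refine Finset.sum_congr rfl fun b _ => ?_
    rw [ev_single, hc1]
  refine ⟨h, hev, ?_, ?_⟩
  · rw [Finsupp.mem_support_iff]
    have hh : h (v + w) = c v w := by
      show (∑ a ∈ f.support, ∑ b ∈ g.support, Finsupp.single (a + b) (c a b)) (v + w) = _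
      rw [Finsupp.finset_sum_apply]
      rw [Finset.sum_eq_single v]
      · rw [Finsupp.finset_sum_apply, Finset.sum_eq_single w]
        · simp
        · intro b hb hbw
          rw [Finsupp.single_apply, if_neg]
          intro hh
          exact hbw (add_left_cancel hh)
        · intro hn; exact absurd hg.1 hn
      · intro a ha hav
        rw [Finsupp.finset_sum_apply]
        apply Finset.sum_eq_zero
        intro b hb
        rw [Finsupp.single_apply, if_neg]
        intro hh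
        have h1 : φ a + φ b = φ v + φ w := by rw [← map_add, ← map_add, hh]
        have h2 := hf.2 a ha
        have h3 := hg.2 b hb
        have h4 : φ a = φ v := by linarith
        exact hav (hφ h4)
      · intro hn; exact absurd hf.1 hn
    rw [hh]
    exact hc2 v w (Finsupp.mem_support_iff.mp hf.1) (Finsupp.mem_support_iff.mp hg.1)
  · intro z hz
    have : ∃ a ∈ f.support, ∃ b ∈ g.support, z = a + b := by
      by_contra hcon
      push Not at hcon
      rw [Finsupp.mem_support_iff] at hz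
      apply hz
      show (∑ a ∈ f.support, ∑ b ∈ g.support, Finsupp.single (a + b) (c a b)) z = _
      rw [Finsupp.finset_sum_apply]
      apply Finset.sum_eq_zero
      intro a ha
      rw [Finsupp.finset_sum_apply]
      apply Finset.sum_eq_zero
      intro b hb
      rw [Finsupp.single_apply, if_neg]
      intro hh
      exact hcon a ha b hb hh.symm
    obtain ⟨a, ha, b, hb, rfl⟩ := this
    rw [map_add, map_add]
    exact add_le_add (hf.2 a ha) (hg.2 b hb)

/-- the left Ore property. -/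
theorem ore (hC : Cross ι x) {f g : E →₀ K} (hf : f ≠ 0) (hg : g ≠ 0) :
    ∃ s t : E →₀ K, s ≠ 0 ∧ t ≠ 0 ∧ ev ι x s * ev ι x f = ev ι x t * ev ι x g := by
  have h1 : ev ι x f ≠ 0 := fun h => hf (hC.indep f h)
  have h2 : ev ι x g ≠ 0 := fun h => hg (hC.indep g h)
  obtain ⟨s, t, hs, hst⟩ := hC.frac (ev ι x f * (ev ι x g)⁻¹)
  have hs' : ev ι x s ≠ 0 := fun h => hs (hC.indep s h)
  refine ⟨s, t, hs, ?_, ?_⟩
  · intro ht
    rw [ht, ev_zero] at hst
    exact (mul_ne_zero hs' (mul_ne_zero h1 (inv_ne_zero h2))) hst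
  · rw [← hst]
    simp only [mul_assoc]
    rw [inv_mul_cancel₀ h2, mul_one]

theorem exp_ne (hC : Cross ι x) {φ : E →+ ℝ} {κ : K'} {p : E} (h : Exp ι x φ κ p) : κ ≠ 0 := by
  obtain ⟨f, g, v, w, hf, hg, he, -⟩ := h
  intro h0
  rw [h0, mul_zero] at he
  exact lead_ne hg (hC.indep g he.symm)

theorem exp_exists (hC : Cross ι x) (φ : E →+ ℝ) {κ : K'} (hκ : κ ≠ 0) :
    ∃ p, Exp ι x φ κ p := by
  obtain ⟨f, g, hf, he⟩ := hC.frac κ
  have hg : g ≠ 0 := by
    intro h
    rw [h, ev_zero] at he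
    have := mul_eq_zero.mp he
    rcases this with h1 | h1
    · exact hf (hC.indep f h1)
    · exact hκ h1
  obtain ⟨v, hv⟩ := exists_lead φ hf
  obtain ⟨w, hw⟩ := exists_lead φ hg
  exact ⟨w - v, f, g, v, w, hv, hw, he, rfl⟩

theorem exp_unique (hC : Cross ι x) {φ : E →+ ℝ} (hφ : Function.Injective φ) {κ : K'} {p q : E}
    (h : Exp ι x φ κ p) (h' : Exp ι x φ κ q) : p = q := by
  obtain ⟨f, g, v, w, hf, hg, he, rfl⟩ := h
  obtain ⟨f', g', v', w', hf', hg', he', rfl⟩ := h'
  obtain ⟨s, t, hs, ht, hst⟩ := ore hC (lead_ne hf) (lead_ne hf')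
  obtain ⟨a, ha⟩ := exists_lead φ hs
  obtain ⟨b, hb⟩ := exists_lead φ ht
  obtain ⟨h1, e1, l1⟩ := ev_mul hC hφ ha hf
  obtain ⟨h2, e2, l2⟩ := ev_mul hC hφ hb hf'
  obtain ⟨h3, e3, l3⟩ := ev_mul hC hφ ha hg
  obtain ⟨h4, e4, l4⟩ := ev_mul hC hφ hb hg'
  have inj : ∀ a b : E →₀ K, ev ι x a = ev ι x b → a = b := by
    intro a b hab
    have : ev ι x (a - b) = 0 := by
      have h5 : ev ι x (a - b) + ev ι x b = ev ι x a := by rw [← ev_add, sub_add_cancel]
      rw [hab] at h5
      simpa using h5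
    exact sub_eq_zero.mp (hC.indep _ this)
  have e12 : h1 = h2 := inj _ _ (by rw [e1, e2, hst])
  have e34 : h3 = h4 := by
    apply inj
    rw [e3, e4, ← he, ← he', ← mul_assoc, ← mul_assoc, hst]
  subst e12
  subst e34
  have h5 := lead_unique hφ l1 l2
  have h6 := lead_unique hφ l3 l4
  -- a + v = b + v', a + w = b + w'
  have : w - v = (a + w) - (a + v) := by abel
  rw [this, h5, h6]
  abel

theorem exp_mul (hC : Cross ι x) {φ : E →+ ℝ} (hφ : Function.Injective φ) {κ κ' : K'} {p q : E}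
    (h : Exp ι x φ κ p) (h' : Exp ι x φ κ' q) : Exp ι x φ (κ * κ') (p + q) := by
  obtain ⟨f, g, v, w, hf, hg, he, rfl⟩ := h
  obtain ⟨f', g', v', w', hf', hg', he', rfl⟩ := h'
  obtain ⟨s, t, hs, ht, hst⟩ := ore hC (lead_ne hg) (lead_ne hf')
  obtain ⟨a, ha⟩ := exists_lead φ hs
  obtain ⟨b, hb⟩ := exists_lead φ ht
  obtain ⟨h1, e1, l1⟩ := ev_mul hC hφ ha hf
  obtain ⟨h2, e2, l2⟩ := ev_mul hC hφ hb hg'
  obtain ⟨h3, e3, l3⟩ := ev_mul hC hφ ha hg
  obtain ⟨h4, e4, l4⟩ := ev_mul hC hφ hb hf'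
  have inj : ∀ a b : E →₀ K, ev ι x a = ev ι x b → a = b := by
    intro a b hab
    have : ev ι x (a - b) = 0 := by
      have h5 : ev ι x (a - b) + ev ι x b = ev ι x a := by rw [← ev_add, sub_add_cancel]
      rw [hab] at h5
      simpa using h5
    exact sub_eq_zero.mp (hC.indep _ this)
  have e34 : h3 = h4 := inj _ _ (by rw [e3, e4, hst])
  subst e34
  have h5 := lead_unique hφ l3 l4
  refine ⟨h1, h2, a + v, b + w', l1, l2, ?_, ?_⟩
  · rw [e1, e2]
    calc ev ι x s * ev ι x f * (κ * κ') = ev ι x s * (ev ι x f * κ) * κ' := by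
          simp only [mul_assoc]
      _ = (ev ι x s * ev ι x g) * κ' := by rw [he]
      _ = ev ι x t * (ev ι x f' * κ') := by rw [hst, mul_assoc]
      _ = _ := by rw [he']
  · have h6 : a + w = b + v' := h5
    have : b = a + w - v' := by rw [h6]; abel
    rw [this]; abel

theorem exp_add (hC : Cross ι x) {φ : E →+ ℝ} (hφ : Function.Injective φ) {κ κ' : K'}
    {p q r : E} (h : Exp ι x φ κ p) (h' : Exp ι x φ κ' q) (h'' : Exp ι x φ (κ + κ') r) :
    φ r ≤ max (φ p) (φ q) := by
  obtain ⟨f, g, v, w, hf, hg, he, rfl⟩ := h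
  obtain ⟨f', g', v', w', hf', hg', he', rfl⟩ := h'
  obtain ⟨s, t, hs, ht, hst⟩ := ore hC (lead_ne hf) (lead_ne hf')
  obtain ⟨a, ha⟩ := exists_lead φ hs
  obtain ⟨b, hb⟩ := exists_lead φ ht
  obtain ⟨h1, e1, l1⟩ := ev_mul hC hφ ha hf
  obtain ⟨h2, e2, l2⟩ := ev_mul hC hφ hb hf'
  obtain ⟨h3, e3, l3⟩ := ev_mul hC hφ ha hg
  obtain ⟨h4, e4, l4⟩ := ev_mul hC hφ hb hg'
  have inj : ∀ a b : E →₀ K, ev ι x a = ev ι x b → a = b := by
    intro a b hab
    have : ev ι x (a - b) = 0 := by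
      have h5 : ev ι x (a - b) + ev ι x b = ev ι x a := by rw [← ev_add, sub_add_cancel]
      rw [hab] at h5
      simpa using h5
    exact sub_eq_zero.mp (hC.indep _ this)
  have e12 : h1 = h2 := inj _ _ (by rw [e1, e2, hst])
  subst e12
  have h5 := lead_unique hφ l1 l2
  have hsum : ev ι x h1 * (κ + κ') = ev ι x (h3 + h4) := by
    rw [mul_add, ev_add, e3, e4, ← he, ← he', ← mul_assoc, ← mul_assoc, ← hst, ← e1]
  have hne : h3 + h4 ≠ 0 := by
    intro h0
    rw [h0, ev_zero] at hsum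
    rcases mul_eq_zero.mp hsum with h6 | h6
    · exact lead_ne l1 (hC.indep _ h6)
    · exact exp_ne hC h'' h6
  obtain ⟨z, hz⟩ := exists_lead φ hne
  have hr : r = z - (a + v) :=
    exp_unique hC hφ h'' ⟨h1, h3 + h4, a + v, z, l1, hz, hsum, rfl⟩
  have hz' : φ z ≤ max (φ (a + w)) (φ (b + w')) := by
    classical
    have hmem := Finsupp.support_add hz.1
    rcases Finset.mem_union.mp hmem with h6 | h6
    · exact le_max_of_le_left (l3.2 z h6)
    · exact le_max_of_le_right (l4.2 z h6)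
  rw [hr]
  have h7 : φ (w - v) = φ (a + w) - φ (a + v) := by rw [← map_sub]; congr 1; abel
  have h8 : φ (w' - v') = φ (b + w') - φ (a + v) := by
    rw [← map_sub, h5]; congr 1; abel
  rw [h7, h8, map_sub]
  rcases le_max_iff.mp hz' with h9 | h9
  · exact le_max_of_le_left (by linarith)
  · exact le_max_of_le_right (by linarith)

theorem x_zero (hC : Cross ι x) : ∃ c : K, c ≠ 0 ∧ x 0 = ι c := by
  obtain ⟨c, hc⟩ := hC.mul 0 0
  rw [add_zero] at hc
  have h := mul_right_cancel₀ (hC.ne0 0) hc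
  refine ⟨c, ?_, h⟩
  intro h0
  rw [h0, map_zero] at h
  exact hC.ne0 0 h

theorem lead_single (φ : E →+ ℝ) (v : E) {k : K} (hk : k ≠ 0) :
    IsLead φ (Finsupp.single v k) v := by
  classical
  refine ⟨?_, ?_⟩
  · rw [Finsupp.mem_support_iff]; simpa using hk
  · intro w hw
    have : w = v := by
      by_contra hne
      rw [Finsupp.mem_support_iff, Finsupp.single_apply, if_neg (fun h => hne h.symm)] at hw
      exact hw rfl
    rw [this]

theorem exp_iota (hC : Cross ι x) (φ : E →+ ℝ) {k : K} (hk : k ≠ 0) : Exp ι x φ (ι k) 0 := by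
  obtain ⟨c, hc, hx⟩ := x_zero hC
  refine ⟨Finsupp.single 0 1, Finsupp.single 0 (c * k * c⁻¹), 0, 0, lead_single φ 0 one_ne_zero,
    lead_single φ 0 (by simp [hc, hk]), ?_, by simp⟩
  rw [ev_single, ev_single, hx, map_one, one_mul, ← map_mul, ← map_mul]
  congr 1
  rw [mul_assoc, inv_mul_cancel₀ hc, mul_one]

theorem exp_x (hC : Cross ι x) (φ : E →+ ℝ) (v : E) : Exp ι x φ (x v) v := by
  obtain ⟨c, hc, hx⟩ := x_zero hC
  refine ⟨Finsupp.single 0 1, Finsupp.single v c, 0, v, lead_single φ 0 one_ne_zero,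
    lead_single φ v hc, ?_, by simp⟩
  rw [ev_single, ev_single, hx, map_one, one_mul]

theorem exp_inv (hC : Cross ι x) {φ : E →+ ℝ} (hφ : Function.Injective φ) {κ : K'} {p : E}
    (h : Exp ι x φ κ p) : Exp ι x φ κ⁻¹ (-p) := by
  have h0 := exp_ne hC h
  obtain ⟨q, hq⟩ := exp_exists hC φ (inv_ne_zero h0)
  have h1 := exp_mul hC hφ h hq
  rw [mul_inv_cancel₀ h0, ← map_one ι] at h1
  have h2 := exp_unique hC hφ h1 (exp_iota hC φ one_ne_zero)
  have : q = -p := by rw [eq_neg_iff_add_eq_zero, add_comm]; exact h2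
  rw [← this]; exact hq

theorem exp_neg (hC : Cross ι x) {φ : E →+ ℝ} (hφ : Function.Injective φ) {κ : K'} {p : E}
    (h : Exp ι x φ κ p) : Exp ι x φ (-κ) p := by
  have h1 := exp_mul hC hφ (exp_iota hC φ (k := (-1 : K)) (by simp)) h
  simpa using h1

/-- residues. -/
theorem exp_residue (hC : Cross ι x) {φ : E →+ ℝ} (hφ : Function.Injective φ) {κ : K'}
    (h : Exp ι x φ κ 0) :
    ∃ k : K, k ≠ 0 ∧ (κ - ι k = 0 ∨ ∃ p, Exp ι x φ (κ - ι k) p ∧ φ p < 0) := by
  classical
  obtain ⟨f, g, v, w, hf, hg, he, h0⟩ := h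
  have hwv : w = v := (sub_eq_zero.mp h0.symm)
  subst hwv
  -- choose k with  x w * ι k = ι ((f w)⁻¹ * g w) * x w
  obtain ⟨k, hk⟩ := hC.conj' w ((f w)⁻¹ * g w)
  have hfw : f w ≠ 0 := Finsupp.mem_support_iff.mp hf.1
  have hgw : g w ≠ 0 := Finsupp.mem_support_iff.mp hg.1
  have hk0 : k ≠ 0 := by
    intro h1
    rw [h1, map_zero, mul_zero] at hk
    have h2 : ι ((f w)⁻¹ * g w) ≠ 0 := by
      rw [Ne, map_eq_zero]
      exact mul_ne_zero (inv_ne_zero hfw) hgw
    exact (mul_ne_zero h2 (hC.ne0 w)) hk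
  refine ⟨k, hk0, ?_⟩
  by_cases hz : κ - ι k = 0
  · exact Or.inl hz
  right
  -- coefficients of f * ι k
  have hcf : ∀ a : E, ∃ c : K, x a * ι k = ι c * x a := fun a => hC.conj a k
  choose c hc using hcf
  let h : E →₀ K := ∑ a ∈ f.support, Finsupp.single a (f a * c a)
  have hh : ∀ a, h a = f a * c a := by
    intro a
    show (∑ b ∈ f.support, Finsupp.single b (f b * c b)) a = _
    rw [Finsupp.finset_sum_apply]
    by_cases ha : a ∈ f.support
    · rw [Finset.sum_eq_single a]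
      · simp
      · intro b _ hb
        rw [Finsupp.single_apply, if_neg hb]
      · intro hn; exact absurd ha hn
    · rw [Finsupp.notMem_support_iff.mp ha, zero_mul]
      apply Finset.sum_eq_zero
      intro b hb
      rw [Finsupp.single_apply, if_neg]
      intro hba
      rw [hba] at hb
      exact ha hb
  have hevh : ev ι x h = ev ι x f * ι k := by
    have e1 : ev ι x f = ∑ a ∈ f.support, ι (f a) * x a := rfl
    show ev ι x (∑ b ∈ f.support, Finsupp.single b (f b * c b)) = _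
    rw [ev_sum, e1, Finset.sum_mul]
    refine Finset.sum_congr rfl fun a _ => ?_
    rw [ev_single, mul_assoc, hc a, map_mul, mul_assoc]
  have hd : ev ι x f * (κ - ι k) = ev ι x (g - h) := by
    have h5 : ev ι x (g - h) + ev ι x h = ev ι x g := by rw [← ev_add, sub_add_cancel]
    rw [mul_sub, he, ← hevh, ← h5]; simp
  have hgh : (g - h) w = 0 := by
    rw [Finsupp.sub_apply, hh]
    have h6 : ι (c w) = ι ((f w)⁻¹ * g w) := by
      apply mul_right_cancel₀ (hC.ne0 w)
      rw [← hc w, hk]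
    have h7 : c w = (f w)⁻¹ * g w := ι.injective h6
    rw [h7, ← mul_assoc, mul_inv_cancel₀ hfw, one_mul, sub_self]
  have hne : g - h ≠ 0 := by
    intro h8
    rw [h8, ev_zero] at hd
    rcases mul_eq_zero.mp hd with h9 | h9
    · exact lead_ne hf (hC.indep _ h9)
    · exact hz h9
  obtain ⟨z, hz1⟩ := exists_lead φ hne
  refine ⟨z - w, ⟨f, g - h, w, z, hf, hz1, hd, rfl⟩, ?_⟩
  rw [map_sub, sub_neg]
  have hzs : z ∈ g.support ∨ z ∈ h.support := by
    have := Finsupp.support_sub hz1.1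
    exact Finset.mem_union.mp this
  have hle : φ z ≤ φ w := by
    rcases hzs with h9 | h9
    · exact hg.2 z h9
    · apply hf.2
      rw [Finsupp.mem_support_iff] at h9 ⊢
      intro h10
      exact h9 (by rw [hh, h10, zero_mul])
  refine lt_of_le_of_ne hle ?_
  intro heq
  have := hφ heq
  rw [this] at hz1
  exact (Finsupp.mem_support_iff.mp hz1.1) hgh

/-- local constancy. -/
theorem exp_local {φ : E →+ ℝ} (hφ : Function.Injective φ) {κ : K'} {p : E}
    (h : Exp ι x φ κ p) :
    ∃ Φ : Finset E, ∀ φ' : E →+ ℝ, (∀ v ∈ Φ, 0 < φ v → 0 < φ' v) → Exp ι x φ' κ p := by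
  classical
  obtain ⟨f, g, v, w, hf, hg, he, rfl⟩ := h
  refine ⟨(f.support.image fun a => v - a) ∪ (g.support.image fun b => w - b), ?_⟩
  intro φ' h'
  refine ⟨f, g, v, w, ⟨hf.1, ?_⟩, ⟨hg.1, ?_⟩, he, rfl⟩
  · intro a ha
    by_cases hav : a = v
    · rw [hav]
    have h1 : 0 < φ (v - a) := by
      rw [map_sub]
      have h2 := hf.2 a ha
      have h3 : φ a ≠ φ v := fun h => hav (hφ h)
      have := lt_of_le_of_ne h2 h3
      linarith
    have h4 := h' (v - a) (Finset.mem_union_left _ (Finset.mem_image_of_mem _ ha)) h1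
    rw [map_sub] at h4
    linarith
  · intro a ha
    by_cases hav : a = w
    · rw [hav]
    have h1 : 0 < φ (w - a) := by
      rw [map_sub]
      have h2 := hg.2 a ha
      have h3 : φ a ≠ φ w := fun h => hav (hφ h)
      have := lt_of_le_of_ne h2 h3
      linarith
    have h4 := h' (w - a) (Finset.mem_union_right _ (Finset.mem_image_of_mem _ ha)) h1
    rw [map_sub] at h4
    linarith

theorem exp_sigma (hC : Cross ι x) {φ : E →+ ℝ} (σ : K' ≃+* K') (σ0 : K ≃+* K)
    (h0 : ∀ k, σ (ι k) = ι (σ0 k)) (M : E ≃+ E) (hM : ∀ v, ∃ c, σ (x v) = ι c * x (M v))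
    {κ : K'} {p : E} (h : Exp ι x (φ.comp M.toAddMonoidHom) κ p) :
    Exp ι x φ (σ κ) (M p) := by
  classical
  choose c hc using hM
  have hc0 : ∀ v, c v ≠ 0 := by
    intro v h1
    have := hc v
    rw [h1, map_zero, zero_mul, map_eq_zero_iff σ σ.injective] at this
    exact hC.ne0 v this
  -- transport of formal sums
  have key : ∀ (f : E →₀ K) (v : E), IsLead (φ.comp M.toAddMonoidHom) f v →
      ∃ f' : E →₀ K, ev ι x f' = σ (ev ι x f) ∧ IsLead φ f' (M v) := by
    intro f v hf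
    let f' : E →₀ K := ∑ a ∈ f.support, Finsupp.single (M a) (σ0 (f a) * c a)
    have hf' : ∀ a, f' (M a) = σ0 (f a) * c a := by
      intro a
      show (∑ b ∈ f.support, Finsupp.single (M b) (σ0 (f b) * c b)) (M a) = _
      rw [Finsupp.finset_sum_apply]
      by_cases ha : a ∈ f.support
      · rw [Finset.sum_eq_single a]
        · simp
        · intro b _ hb
          rw [Finsupp.single_apply, if_neg (fun h => hb (M.injective h))]
        · intro hn; exact absurd ha hn
      · rw [Finsupp.notMem_support_iff.mp ha, map_zero, zero_mul]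
        apply Finset.sum_eq_zero
        intro b hb
        rw [Finsupp.single_apply, if_neg]
        intro hba
        rw [M.injective hba] at hb
        exact ha hb
    refine ⟨f', ?_, ?_, ?_⟩
    · have e1 : ev ι x f = ∑ a ∈ f.support, ι (f a) * x a := rfl
      show ev ι x (∑ b ∈ f.support, Finsupp.single (M b) (σ0 (f b) * c b)) = _
      rw [ev_sum, e1, map_sum]
      refine Finset.sum_congr rfl fun a _ => ?_
      rw [ev_single, map_mul, map_mul, h0, hc, mul_assoc]
    · rw [Finsupp.mem_support_iff, hf']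
      refine mul_ne_zero ?_ (hc0 v)
      rw [Ne, map_eq_zero_iff σ0 σ0.injective]
      exact Finsupp.mem_support_iff.mp hf.1
    · intro w hw
      obtain ⟨a, rfl⟩ := M.surjective w
      rw [Finsupp.mem_support_iff, hf'] at hw
      have ha : a ∈ f.support := by
        rw [Finsupp.mem_support_iff]
        intro h2
        exact hw (by rw [h2, map_zero, zero_mul])
      exact hf.2 a ha
  obtain ⟨f, g, v, w, hf, hg, he, rfl⟩ := h
  obtain ⟨f', ef, lf⟩ := key f v hf
  obtain ⟨g', eg, lg⟩ := key g w hg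
  refine ⟨f', g', M v, M w, lf, lg, ?_, ?_⟩
  · rw [ef, eg, ← he, map_mul]
  · rw [map_sub]

end Pool.Agent.Helper946.PH3
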