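import Mathlib
import Pool.Agent.Helper946.PHDefs
import Pool.Agent.Helper946.PHCross
import Pool.Agent.Helper946.PHFil

set_option autoImplicit false
set_option linter.unusedSectionVars false
set_option linter.unusedVariables false

namespace Pool.Agent.Helper946.PH3

open Module

theorem iter_stable {X : Type} (u : X → X) (N : Set X) {j0 j : ℕ} (h : j0 ∣ j)
    (hst : ∀ ξ, u^[j0] ξ ∈ N ↔ ξ ∈ N) : ∀ ξ, u^[j] ξ ∈ N ↔ ξ ∈ N := by
  obtain ⟨m, rfl⟩ := h
  rw [Function.iterate_mul]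
  induction m with
  | zero => intro ξ; simp
  | succ m ih => intro ξ; rw [Function.iterate_succ_apply', hst, ih]

/-- a finite dimensional subspace mapped into itself by a semilinear bijection is stable. -/
theorem stable_of_le {K M : Type} [DivisionRing K] [AddCommGroup M] [Module K M] (u : M ≃+ M)
    (σ : K ≃+* K) (hs : ∀ (k : K) (ξ : M), u (k • ξ) = σ k • u ξ) (P : Submodule K M)
    [FiniteDimensional K P] (h : ∀ ξ ∈ P, u ξ ∈ P) : ∀ ξ, u ξ ∈ P ↔ ξ ∈ P := by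
  let Q : Submodule K M :=
    { carrier := u '' (P : Set M)
      add_mem' := by
        rintro _ _ ⟨a, ha, rfl⟩ ⟨b, hb, rfl⟩
        exact ⟨a + b, P.add_mem ha hb, map_add u a b⟩
      zero_mem' := ⟨0, P.zero_mem, map_zero u⟩
      smul_mem' := by
        rintro c _ ⟨a, ha, rfl⟩
        refine ⟨σ.symm c • a, P.smul_mem _ ha, ?_⟩
        rw [hs, σ.apply_symm_apply] }
  have hQP : Q ≤ P := by
    rintro _ ⟨a, ha, rfl⟩
    exact h a ha
  let j : P ≃+ Q :=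
    { toFun := fun a => ⟨u a, a, a.2, rfl⟩
      invFun := fun b => ⟨u.symm b, by
        obtain ⟨a, ha, hab⟩ := b.2
        rw [← hab, u.symm_apply_apply]; exact ha⟩
      left_inv := by intro a; apply Subtype.ext; simp
      right_inv := by intro b; apply Subtype.ext; simp
      map_add' := by intro a b; apply Subtype.ext; simp }
  have hr : Module.rank K P = Module.rank K Q :=
    rank_eq_of_equiv_equiv σ j σ.bijective (by
      intro r m
      apply Subtype.ext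
      show u ((r • m : P) : M) = σ r • u m
      rw [Submodule.coe_smul, hs])
  have hf : finrank K Q = finrank K P := by
    unfold finrank
    rw [hr]
  have hQ : Q = P := Submodule.eq_of_le_of_finrank_eq hQP hf
  intro ξ
  constructor
  · intro hξ
    rw [← hQ] at hξ
    obtain ⟨a, ha, hab⟩ := hξ
    rw [← u.injective hab]; exact ha
  · exact h ξ

section

variable {K K' E : Type} [DivisionRing K] [DivisionRing K'] [AddCommGroup E]
  {ι : K →+* K'} {x : E → K'} {X : Type} [AddCommGroup X] [Module K X] [Module K' X]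

theorem Act.stable (hι : ∀ (k : K) (ξ : X), k • ξ = ι k • ξ) {u : X ≃+ X} {M : E ≃+ E}
    (h : Act ι x u M) (P : Submodule K X) [FiniteDimensional K P] (hP : ∀ ξ ∈ P, u ξ ∈ P) :
    ∀ ξ, u ξ ∈ P ↔ ξ ∈ P := by
  obtain ⟨σ, σ0, h1, h2, h3⟩ := h
  exact stable_of_le u σ0 (Act.smulK hι h1 h2) P hP

/-- positivity is recurrent. -/
def Rec (φ : E →+ ℝ) (M : E ≃+ E) : Prop :=
  ∀ (Φ : Finset E) (j1 : ℕ), 0 < j1 → ∃ j : ℕ, 0 < j ∧ j1 ∣ j ∧
    ∀ v ∈ Φ, 0 < φ v → 0 < φ ((⇑M)^[j] v)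

/-- part (a): in a minimal power-stable subspace there is nothing of negative exponent. -/
theorem partA (hC : Cross ι x) (hι : ∀ (k : K) (ξ : X), k • ξ = ι k • ξ) {u : X ≃+ X}
    {M : E ≃+ E} (hA : Act ι x u M) {φ : E →+ ℝ} (hφ : Function.Injective φ) (hrec : Rec φ M)
    {N : Submodule K X} [FiniteDimensional K N] (hN : N ≠ ⊥) {j0 : ℕ} (hj0 : 0 < j0)
    (hst : ∀ ξ, (⇑u)^[j0] ξ ∈ N ↔ ξ ∈ N)
    (hmin : ∀ P : Submodule K X, P ≤ N → P ≠ ⊥ →
      (∃ j, 0 < j ∧ ∀ ξ, (⇑u)^[j] ξ ∈ P ↔ ξ ∈ P) → P = N) :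
    N ⊓ Fl ι x φ 0 N = ⊥ := by
  by_contra hne
  have : FiniteDimensional K (N ⊓ Fl ι x φ 0 N : Submodule K X) :=
    Submodule.finiteDimensional_of_le inf_le_left
  obtain ⟨Φ, hΦ⟩ := le_fl_local hφ (p := 0) (N := N) (P := N ⊓ Fl ι x φ 0 N) inf_le_right
  obtain ⟨j, hj, hjd, hjΦ⟩ := hrec Φ j0 hj0
  obtain ⟨uj, Mj, hAj, huj, hMj⟩ := hA.iter j
  have h1 : (N ⊓ Fl ι x φ 0 N : Submodule K X) ≤ Fl ι x (φ.comp Mj.toAddMonoidHom) 0 N := by
    apply hΦ
    intro v hv h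
    show 0 < φ (Mj v)
    rw [hMj]; exact hjΦ v hv h
  have hNj : ∀ ξ, uj ξ ∈ N ↔ ξ ∈ N := by
    intro ξ; rw [huj]; exact iter_stable (⇑u) (N : Set X) hjd hst ξ
  have h2 : ∀ ξ ∈ (N ⊓ Fl ι x φ 0 N : Submodule K X), uj ξ ∈ (N ⊓ Fl ι x φ 0 N : Submodule K X) := by
    intro ξ hξ
    refine ⟨(hNj ξ).mpr hξ.1, ?_⟩
    have := hAj.fl hC hι (N' := N) (fun n hn => (hNj n).mpr hn) (h1 hξ)
    rwa [map_zero] at this
  have h3 := hAj.stable hι _ h2
  have h4 := hmin _ inf_le_left hne ⟨j, hj, fun ξ => by rw [← huj]; exact h3 ξ⟩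
  exact not_le_fl hC hι hφ hN ((le_of_eq h4.symm).trans inf_le_right)

theorem basis_sum {N : Submodule K X} {m : ℕ} (b : Basis (Fin m) K N) {n : X} (hn : n ∈ N) :
    n = ∑ i, (b.repr ⟨n, hn⟩ i) • (b i : X) := by
  have h := b.sum_repr ⟨n, hn⟩
  have h2 : ((∑ i, (b.repr ⟨n, hn⟩ i) • b i : N) : X) = n := by rw [h]
  rw [AddSubmonoidClass.coe_finset_sum] at h2
  exact h2.symm

theorem coords_fl (hC : Cross ι x) (hι : ∀ (k : K) (ξ : X), k • ξ = ι k • ξ) {φ : E →+ ℝ}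
    (hφ : Function.Injective φ) {p : E} {N : Submodule K X} {m : ℕ} (b : Basis (Fin m) K N)
    {ξ : X} (hξ : ξ ∈ Fl ι x φ p N) :
    ∃ ν : Fin m → K', (∀ i, LtE ι x φ p (ν i)) ∧ ξ = ∑ i, ν i • (b i : X) := by
  induction hξ using Submodule.span_induction with
  | mem ξ h =>
    obtain ⟨μ, n, hn, hμ, rfl⟩ := h
    refine ⟨fun i => μ * ι (b.repr ⟨n, hn⟩ i), fun i => ?_, ?_⟩
    · have := hμ.mul_le hC hφ (leE_iota hC φ (b.repr ⟨n, hn⟩ i))
      rwa [add_zero] at this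
    · have h1 : n = ∑ i, (b.repr ⟨n, hn⟩ i) • (b i : X) := basis_sum b hn
      conv_lhs => rw [h1]
      rw [Finset.smul_sum]
      exact Finset.sum_congr rfl fun i _ => by rw [hι, smul_smul]
  | zero => exact ⟨0, fun i => Or.inl rfl, by simp⟩
  | add a c _ _ ha hc =>
    obtain ⟨ν, h1, h2⟩ := ha
    obtain ⟨ν', h1', h2'⟩ := hc
    refine ⟨ν + ν', fun i => (h1 i).add hC hφ (h1' i), ?_⟩
    rw [h2, h2', ← Finset.sum_add_distrib]
    exact Finset.sum_congr rfl fun i _ => by rw [Pi.add_apply, add_smul]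
  | smul k a _ ha =>
    obtain ⟨ν, h1, h2⟩ := ha
    refine ⟨fun i => ι k * ν i, fun i => ?_, ?_⟩
    · have := (leE_iota hC φ k).mul_lt hC hφ (h1 i)
      rwa [zero_add] at this
    · rw [h2, Finset.smul_sum]
      exact Finset.sum_congr rfl fun i _ => by rw [hι, smul_smul]

theorem coords_span (hι : ∀ (k : K) (ξ : X), k • ξ = ι k • ξ) {N : Submodule K X} {m : ℕ}
    (b : Basis (Fin m) K N) {ξ : X} (hξ : ξ ∈ Submodule.span K' (N : Set X)) :
    ∃ ν : Fin m → K', ξ = ∑ i, ν i • (b i : X) := by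
  induction hξ using Submodule.span_induction with
  | mem n hn =>
    refine ⟨fun i => ι (b.repr ⟨n, hn⟩ i), ?_⟩
    have h1 : n = ∑ i, (b.repr ⟨n, hn⟩ i) • (b i : X) := basis_sum b hn
    conv_lhs => rw [h1]
    exact Finset.sum_congr rfl fun i _ => by rw [hι]
  | zero => exact ⟨0, by simp⟩
  | add a c _ _ ha hc =>
    obtain ⟨ν, h2⟩ := ha
    obtain ⟨ν', h2'⟩ := hc
    refine ⟨ν + ν', ?_⟩
    rw [h2, h2', ← Finset.sum_add_distrib]
    exact Finset.sum_congr rfl fun i _ => by rw [Pi.add_apply, add_smul]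
  | smul k a _ ha =>
    obtain ⟨ν, h2⟩ := ha
    refine ⟨fun i => k * ν i, ?_⟩
    rw [h2, Finset.smul_sum]
    exact Finset.sum_congr rfl fun i _ => by rw [smul_smul]

/-- every nonzero element of `K' N` has an exponent. -/
theorem exists_exponent (hC : Cross ι x) (hι : ∀ (k : K) (ξ : X), k • ξ = ι k • ξ) {φ : E →+ ℝ}
    (hφ : Function.Injective φ) {N : Submodule K X} [FiniteDimensional K N]
    (hd : N ⊓ Fl ι x φ 0 N = ⊥) {ξ : X} (hξ : ξ ∈ Submodule.span K' (N : Set X)) (h0 : ξ ≠ 0) :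
    ∃ p, ξ ∈ Fe ι x φ p N ∧ ξ ∉ Fl ι x φ p N := by
  classical
  let b := Module.finBasis K N
  have hli : LinearIndependent K' (fun i => (b i : X)) := by
    apply indep_of_disjoint hC hι hφ hd _ (fun i => (b i).2)
    have := b.linearIndependent
    exact this.map' N.subtype (Submodule.ker_subtype N)
  obtain ⟨ν, hν⟩ := coords_span (ι := ι) hι b hξ
  have hex : ∀ i, ∃ p, ν i ≠ 0 → Exp ι x φ (ν i) p := by
    intro i
    by_cases h : ν i = 0
    · exact ⟨0, fun h' => absurd h h'⟩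
    · obtain ⟨p, hp⟩ := exp_exists hC φ h
      exact ⟨p, fun _ => hp⟩
  choose e he using hex
  have hne : (Finset.univ.filter fun i => ν i ≠ 0).Nonempty := by
    by_contra hcon
    rw [Finset.not_nonempty_iff_eq_empty, Finset.filter_eq_empty_iff] at hcon
    apply h0
    rw [hν]
    apply Finset.sum_eq_zero
    intro i hi
    have : ν i = 0 := by simpa using hcon hi
    rw [this, zero_smul]
  obtain ⟨i1, hi1, hmax⟩ := Finset.exists_max_image _ (fun i => φ (e i)) hne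
  have hνi1 := (Finset.mem_filter.mp hi1).2
  refine ⟨e i1, ?_, ?_⟩
  · rw [hν]
    apply Submodule.sum_mem
    intro i _
    apply fe_gen (b i).2
    by_cases h : ν i = 0
    · exact Or.inl h
    · exact Or.inr ⟨e i, he i h, hmax i (Finset.mem_filter.mpr ⟨Finset.mem_univ _, h⟩)⟩
  · intro hfl
    obtain ⟨ν', h1, h2⟩ := coords_fl hC hι hφ b hfl
    have h3 : ∑ i, (ν i - ν' i) • (b i : X) = 0 := by
      have : ∑ i, (ν i - ν' i) • (b i : X) = ∑ i, ν i • (b i : X) - ∑ i, ν' i • (b i : X) := by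
        rw [← Finset.sum_sub_distrib]
        exact Finset.sum_congr rfl fun i _ => by rw [sub_smul]
      rw [this, ← hν, ← h2, sub_self]
    have h4 := (linearIndependent_iff'.mp hli) Finset.univ (fun i => ν i - ν' i) h3 i1
      (Finset.mem_univ _)
    have h5 : ν i1 = ν' i1 := sub_eq_zero.mp h4
    exact not_ltE hC hφ (he i1 hνi1) (h5 ▸ h1 i1)

/-- `p` is the maximal exponent on `W`. -/
def Mx (ι : K →+* K') (x : E → K') (φ : E →+ ℝ) (N W : Submodule K X) (p : E) : Prop :=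
  W ≤ Fe ι x φ p N ∧ ¬ W ≤ Fl ι x φ p N

theorem mx_exists (hC : Cross ι x) (hι : ∀ (k : K) (ξ : X), k • ξ = ι k • ξ) {φ : E →+ ℝ}
    (hφ : Function.Injective φ) {N : Submodule K X} [FiniteDimensional K N]
    (hd : N ⊓ Fl ι x φ 0 N = ⊥) {W : Submodule K X} [FiniteDimensional K W] (hW : W ≠ ⊥)
    (hWN : ∀ ξ ∈ W, ξ ∈ Submodule.span K' (N : Set X)) : ∃ p, Mx ι x φ N W p := by
  classical
  obtain ⟨S, hS⟩ := (Module.Finite.iff_fg (N := W)).mp inferInstance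
  have hSW : ∀ s ∈ S, s ∈ W := fun s hs => by rw [← hS]; exact Submodule.subset_span hs
  have hex : ∀ s, ∃ p, s ∈ S → s ≠ 0 → s ∈ Fe ι x φ p N ∧ s ∉ Fl ι x φ p N := by
    intro s
    by_cases h : s ∈ S ∧ s ≠ 0
    · obtain ⟨p, hp⟩ := exists_exponent hC hι hφ hd (hWN s (hSW s h.1)) h.2
      exact ⟨p, fun _ _ => hp⟩
    · exact ⟨0, fun h1 h2 => absurd ⟨h1, h2⟩ h⟩
  choose e he using hex
  have hne : (S.filter fun s => s ≠ 0).Nonempty := by
    by_contra hcon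
    rw [Finset.not_nonempty_iff_eq_empty, Finset.filter_eq_empty_iff] at hcon
    apply hW
    rw [← hS, Submodule.span_eq_bot]
    intro s hs
    simpa using hcon hs
  obtain ⟨s1, hs1, hmax⟩ := Finset.exists_max_image _ (fun s => φ (e s)) hne
  obtain ⟨hs1S, hs10⟩ := Finset.mem_filter.mp hs1
  refine ⟨e s1, ?_, fun h => (he s1 hs1S hs10).2 (h (hSW s1 hs1S))⟩
  rw [← hS]
  apply Submodule.span_le.mpr
  intro s hs
  by_cases h0 : s = 0
  · rw [h0]; exact Submodule.zero_mem _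
  · exact fe_mono (hmax s (Finset.mem_filter.mpr ⟨hs, h0⟩)) (he s hs h0).1

theorem mx_unique {φ : E →+ ℝ} (hφ : Function.Injective φ) {N W : Submodule K X} {p q : E}
    (hp : Mx ι x φ N W p) (hq : Mx ι x φ N W q) : p = q := by
  rcases lt_trichotomy (φ p) (φ q) with h | h | h
  · exact absurd (hp.1.trans (fe_le_fl h)) hq.2
  · exact hφ h
  · exact absurd (hq.1.trans (fe_le_fl h)) hp.2

theorem mx_act (hC : Cross ι x) (hι : ∀ (k : K) (ξ : X), k • ξ = ι k • ξ) {u : X ≃+ X}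
    {M : E ≃+ E} (hA : Act ι x u M) {φ : E →+ ℝ} {N W : Submodule K X}
    (hN : ∀ ξ, u ξ ∈ N ↔ ξ ∈ N) (hW : ∀ ξ, u ξ ∈ W ↔ ξ ∈ W) {p : E}
    (h : Mx ι x (φ.comp M.toAddMonoidHom) N W p) : Mx ι x φ N W (M p) := by
  refine ⟨?_, ?_⟩
  · intro ξ hξ
    have h1 : u.symm ξ ∈ W := by rw [← hW, u.apply_symm_apply]; exact hξ
    have h2 := hA.fe hC hι (N' := N) (fun n hn => (hN n).mpr hn) (h.1 h1)
    rwa [u.apply_symm_apply] at h2
  · intro hcon
    apply h.2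
    intro ξ hξ
    have h1 : u ξ ∈ Fl ι x ((φ.comp M.toAddMonoidHom).comp M.symm.toAddMonoidHom) (M p) N := by
      have : (φ.comp M.toAddMonoidHom).comp M.symm.toAddMonoidHom = φ := by
        ext v; simp
      rw [this]
      exact hcon ((hW ξ).mpr hξ)
    have h2 := (hA.symm hC).fl hC hι (N' := N) (fun n hn => by
      rw [← hN, u.apply_symm_apply]; exact hn) h1
    rwa [u.symm_apply_apply, M.symm_apply_apply] at h2

theorem mx_local (hC : Cross ι x) (hι : ∀ (k : K) (ξ : X), k • ξ = ι k • ξ) {φ : E →+ ℝ}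
    (hφ : Function.Injective φ) {N W : Submodule K X} [FiniteDimensional K W] {p : E}
    (h : Mx ι x φ N W p) :
    ∃ Φ : Finset E, ∀ φ' : E →+ ℝ, Function.Injective φ' → (∀ v ∈ Φ, 0 < φ v → 0 < φ' v) →
      N ⊓ Fl ι x φ' 0 N = ⊥ → Mx ι x φ' N W p := by
  classical
  obtain ⟨Φ, hΦ⟩ := le_fe_local hφ h.1
  obtain ⟨ξ, hξ, hξ'⟩ := SetLike.not_le_iff_exists.mp h.2
  obtain ⟨n, hn, hn'⟩ := fe_lead hC hι hφ (h.1 hξ)
  have hn0 : n ≠ 0 := by
    intro h0
    rw [h0, smul_zero, sub_zero] at hn'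
    exact hξ' hn'
  obtain ⟨Ψ, hΨ⟩ := fl_local hφ hn'
  refine ⟨Φ ∪ Ψ, fun φ' hφ' hs hd => ⟨hΦ φ' fun v hv => hs v (Finset.mem_union_left _ hv), ?_⟩⟩
  intro hcon
  have h1 := hΨ φ' fun v hv => hs v (Finset.mem_union_right _ hv)
  have h2 := Submodule.sub_mem _ (hcon hξ) h1
  have h3 : x p • n ∈ Fl ι x φ' p N := by
    have : ξ - (ξ - x p • n) = x p • n := by abel
    rwa [this] at h2
  have h4 : n ∈ N ⊓ Fl ι x φ' 0 N := ⟨hn, fl_cancel hC hι hφ' h3⟩
  rw [hd, Submodule.mem_bot] at h4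
  exact hn0 h4

theorem comp_injective {φ : E →+ ℝ} (hφ : Function.Injective φ) (M : E ≃+ E) :
    Function.Injective (φ.comp M.toAddMonoidHom) := hφ.comp M.injective

/-- the maximal exponent of a power-stable subspace is zero. -/
theorem mx_zero (hC : Cross ι x) (hι : ∀ (k : K) (ξ : X), k • ξ = ι k • ξ) {u : X ≃+ X}
    {M : E ≃+ E} (hA : Act ι x u M) {φ : E →+ ℝ} (hφ : Function.Injective φ) (hrec : Rec φ M)
    (hper : ∀ (v : E) (j : ℕ), 0 < j → (⇑M)^[j] v = v → v = 0)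
    {N : Submodule K X} {j0 : ℕ} (hj0 : 0 < j0)
    (hst : ∀ ξ, (⇑u)^[j0] ξ ∈ N ↔ ξ ∈ N) (hd : N ⊓ Fl ι x φ 0 N = ⊥)
    {W : Submodule K X} [FiniteDimensional K W] {j1 : ℕ} (hj1 : 0 < j1)
    (hWst : ∀ ξ, (⇑u)^[j1] ξ ∈ W ↔ ξ ∈ W) {p : E} (h : Mx ι x φ N W p) : p = 0 := by
  obtain ⟨Φ, hΦ⟩ := mx_local hC hι hφ h
  obtain ⟨j, hj, hjd, hjΦ⟩ := hrec Φ (j0 * j1) (Nat.mul_pos hj0 hj1)
  obtain ⟨uj, Mj, hAj, huj, hMj⟩ := hA.iter j
  have hNj : ∀ ξ, uj ξ ∈ N ↔ ξ ∈ N := by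
    intro ξ; rw [huj]
    exact iter_stable (⇑u) (N : Set X) ((dvd_mul_right j0 j1).trans hjd) hst ξ
  have hWj : ∀ ξ, uj ξ ∈ W ↔ ξ ∈ W := by
    intro ξ; rw [huj]
    exact iter_stable (⇑u) (W : Set X) ((dvd_mul_left j1 j0).trans hjd) hWst ξ
  have h1 : Mx ι x (φ.comp Mj.toAddMonoidHom) N W p := by
    apply hΦ _ (comp_injective hφ Mj)
    · intro v hv h
      show 0 < φ (Mj v)
      rw [hMj]; exact hjΦ v hv h
    · rw [eq_bot_iff]
      intro η hη
      have h2 := hAj.fl hC hι (N' := N) (fun n hn => (hNj n).mpr hn) hη.2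
      rw [map_zero] at h2
      have h3 : uj η ∈ N ⊓ Fl ι x φ 0 N := ⟨(hNj η).mpr hη.1, h2⟩
      rw [hd, Submodule.mem_bot] at h3
      rw [Submodule.mem_bot]
      exact (map_eq_zero_iff uj uj.injective).mp h3
  have h2 := mx_act hC hι hAj hNj hWj h1
  have h3 := mx_unique hφ h2 h
  rw [hMj] at h3
  exact hper p j hj h3

/-- part (bH): dimension bound inside `K' N`. -/
theorem partH (hC : Cross ι x) (hι : ∀ (k : K) (ξ : X), k • ξ = ι k • ξ) {u : X ≃+ X}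
    {M : E ≃+ E} (hA : Act ι x u M) {φ : E →+ ℝ} (hφ : Function.Injective φ) (hrec : Rec φ M)
    (hper : ∀ (v : E) (j : ℕ), 0 < j → (⇑M)^[j] v = v → v = 0)
    {N : Submodule K X} [FiniteDimensional K N] {j0 : ℕ} (hj0 : 0 < j0)
    (hst : ∀ ξ, (⇑u)^[j0] ξ ∈ N ↔ ξ ∈ N) (hd : N ⊓ Fl ι x φ 0 N = ⊥)
    {W : Submodule K X} [FiniteDimensional K W] {j1 : ℕ} (hj1 : 0 < j1)
    (hWst : ∀ ξ, (⇑u)^[j1] ξ ∈ W ↔ ξ ∈ W)
    (hWN : ∀ ξ ∈ W, ξ ∈ Submodule.span K' (N : Set X)) : finrank K W ≤ finrank K N := by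
  classical
  by_cases hW : W = ⊥
  · subst hW; simp
  obtain ⟨p, hp⟩ := mx_exists hC hι hφ hd hW hWN
  have hp0 := mx_zero hC hι hA hφ hrec hper hj0 hst hd hj1 hWst hp
  subst hp0
  -- nothing of negative exponent in W
  have hneg : W ⊓ Fl ι x φ 0 N = ⊥ := by
    by_contra hne
    have : FiniteDimensional K (W ⊓ Fl ι x φ 0 N : Submodule K X) :=
      Submodule.finiteDimensional_of_le inf_le_left
    obtain ⟨Φ, hΦ⟩ := le_fl_local hφ (p := 0) (N := N) (P := W ⊓ Fl ι x φ 0 N) inf_le_right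
    obtain ⟨j, hj, hjd, hjΦ⟩ := hrec Φ (j0 * j1) (Nat.mul_pos hj0 hj1)
    obtain ⟨uj, Mj, hAj, huj, hMj⟩ := hA.iter j
    have hNj : ∀ ξ, uj ξ ∈ N ↔ ξ ∈ N := by
      intro ξ; rw [huj]
      exact iter_stable (⇑u) (N : Set X) ((dvd_mul_right j0 j1).trans hjd) hst ξ
    have hWj : ∀ ξ, uj ξ ∈ W ↔ ξ ∈ W := by
      intro ξ; rw [huj]
      exact iter_stable (⇑u) (W : Set X) ((dvd_mul_left j1 j0).trans hjd) hWst ξ
    have h1 : (W ⊓ Fl ι x φ 0 N : Submodule K X) ≤ Fl ι x (φ.comp Mj.toAddMonoidHom) 0 N := by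
      apply hΦ
      intro v hv h
      show 0 < φ (Mj v)
      rw [hMj]; exact hjΦ v hv h
    have h2 : ∀ ξ ∈ (W ⊓ Fl ι x φ 0 N : Submodule K X),
        uj ξ ∈ (W ⊓ Fl ι x φ 0 N : Submodule K X) := by
      intro ξ hξ
      refine ⟨(hWj ξ).mpr hξ.1, ?_⟩
      have := hAj.fl hC hι (N' := N) (fun n hn => (hNj n).mpr hn) (h1 hξ)
      rwa [map_zero] at this
    have h3 := hAj.stable hι _ h2
    obtain ⟨q, hq⟩ := mx_exists hC hι hφ hd hne (fun ξ hξ => hWN ξ hξ.1)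
    have hq0 := mx_zero hC hι hA hφ hrec hper hj0 hst hd hj
      (fun ξ => by rw [← huj]; exact h3 ξ) hq
    subst hq0
    exact hq.2 inf_le_right
  -- W ≤ N ⊔ Fl
  have hsup : W ≤ N ⊔ Fl ι x φ 0 N := by
    intro ξ hξ
    obtain ⟨n, hn, h⟩ := fe_lead hC hι hφ (hp.1 hξ)
    obtain ⟨c, hc, hx⟩ := x_zero hC
    rw [hx, ← hι] at h
    have : ξ = c • n + (ξ - c • n) := by abel
    rw [this]
    exact Submodule.add_mem_sup (N.smul_mem c hn) h
  have h1 : Function.Injective ((Fl ι x φ 0 N).mkQ.comp W.subtype) := by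
    rw [← LinearMap.ker_eq_bot, eq_bot_iff]
    intro w hw
    rw [LinearMap.mem_ker, LinearMap.comp_apply, Submodule.subtype_apply, Submodule.mkQ_apply,
      Submodule.Quotient.mk_eq_zero] at hw
    have : (w : X) ∈ W ⊓ Fl ι x φ 0 N := ⟨w.2, hw⟩
    rw [hneg, Submodule.mem_bot] at this
    rw [Submodule.mem_bot]
    exact Subtype.ext this
  have h2 : LinearMap.range ((Fl ι x φ 0 N).mkQ.comp W.subtype) ≤
      LinearMap.range ((Fl ι x φ 0 N).mkQ.comp N.subtype) := by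
    rintro _ ⟨w, rfl⟩
    obtain ⟨n, hn, f, hf, hnf⟩ := Submodule.mem_sup.mp (hsup w.2)
    refine ⟨⟨n, hn⟩, ?_⟩
    simp only [LinearMap.comp_apply, Submodule.subtype_apply, Submodule.mkQ_apply]
    rw [← hnf, Submodule.Quotient.mk_add, (Submodule.Quotient.mk_eq_zero _).mpr hf, add_zero]
  have h3 : finrank K W = finrank K (LinearMap.range ((Fl ι x φ 0 N).mkQ.comp W.subtype)) :=
    (LinearEquiv.ofInjective _ h1).finrank_eq
  rw [h3]
  refine le_trans (Submodule.finrank_mono h2) ?_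
  exact LinearMap.finrank_range_le _

end

end Pool.Agent.Helper946.PH3
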