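import Mathlib
import Pool.Agent.Helper946.PHDefs
import Pool.Agent.Helper946.PHCross
import Pool.Agent.Helper946.PHFil
import Pool.Agent.Helper946.PHMin
import Pool.Agent.Helper946.HCRad
import Pool.Agent.Helper946.PHOH

set_option autoImplicit false
set_option linter.unusedSectionVars false
set_option linter.unusedVariables false

namespace Pool.Agent.Helper946.PH3

open Module Pool.Agent.Helper946.HC

section

variable {K K' E : Type} [DivisionRing K] [DivisionRing K'] [AddCommGroup E]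
  {ι : K →+* K'} {x : E → K'}

/-- minimal stable subspace, trivial action on `E`. -/
theorem partA_id (hC : Cross ι x) {X : Type} [AddCommGroup X] [Module K X] [Module K' X]
    (hι : ∀ (k : K) (ξ : X), k • ξ = ι k • ξ) {u : X ≃+ X}
    (hA : Act ι x u (AddEquiv.refl E)) {φ : E →+ ℝ} (hφ : Function.Injective φ)
    {N : Submodule K X} [FiniteDimensional K N] (hN : N ≠ ⊥)
    (hst : ∀ ξ, u ξ ∈ N ↔ ξ ∈ N)
    (hmin : ∀ P : Submodule K X, P ≤ N → P ≠ ⊥ → (∀ ξ, u ξ ∈ P ↔ ξ ∈ P) → P = N) :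
    N ⊓ Fl ι x φ 0 N = ⊥ := by
  by_contra hne
  have : FiniteDimensional K (N ⊓ Fl ι x φ 0 N : Submodule K X) :=
    Submodule.finiteDimensional_of_le inf_le_left
  have h2 : ∀ ξ ∈ (N ⊓ Fl ι x φ 0 N : Submodule K X), u ξ ∈ (N ⊓ Fl ι x φ 0 N : Submodule K X) := by
    intro ξ hξ
    refine ⟨(hst ξ).mpr hξ.1, ?_⟩
    exact hA.fl hC hι (N' := N) (fun n hn => (hst n).mpr hn) hξ.2
  have h3 := hA.stable hι _ h2
  have h4 := hmin _ inf_le_left hne h3
  exact not_le_fl hC hι hφ hN ((le_of_eq h4.symm).trans inf_le_right)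

/-- the subspace `x_p N`. -/
def Cp (hC : Cross ι x) {X : Type} [AddCommGroup X] [Module K X] [Module K' X]
    (hι : ∀ (k : K) (ξ : X), k • ξ = ι k • ξ) (N : Submodule K X) (p : E) : Submodule K X where
  carrier := {ξ | ∃ n ∈ N, ξ = x p • n}
  add_mem' := by
    rintro _ _ ⟨a, ha, rfl⟩ ⟨b, hb, rfl⟩
    exact ⟨a + b, N.add_mem ha hb, (smul_add _ _ _).symm⟩
  zero_mem' := ⟨0, N.zero_mem, (smul_zero _).symm⟩
  smul_mem' := by
    rintro c _ ⟨a, ha, rfl⟩
    obtain ⟨c', hc'⟩ := hC.conj' p c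
    refine ⟨c' • a, N.smul_mem _ ha, ?_⟩
    rw [hι, hι, smul_smul, smul_smul, hc']

theorem finrank_Cp (hC : Cross ι x) {X : Type} [AddCommGroup X] [Module K X] [Module K' X]
    (hι : ∀ (k : K) (ξ : X), k • ξ = ι k • ξ) (N : Submodule K X) [FiniteDimensional K N] (p : E) :
    FiniteDimensional K (Cp hC hι N p) ∧ finrank K (Cp hC hι N p) ≤ finrank K N := by
  classical
  let b := Module.finBasis K N
  have h1 : Cp hC hι N p = Submodule.span K (Set.range fun i => x p • (b i : X)) := by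
    apply le_antisymm
    · rintro _ ⟨n, hn, rfl⟩
      rw [basis_sum b hn, Finset.smul_sum]
      apply Submodule.sum_mem
      intro i _
      obtain ⟨c', hc'⟩ := hC.conj p (b.repr ⟨n, hn⟩ i)
      rw [hι, smul_smul, hc', ← smul_smul, ← hι]
      exact Submodule.smul_mem _ _ (Submodule.subset_span ⟨i, rfl⟩)
    · apply Submodule.span_le.mpr
      rintro _ ⟨i, rfl⟩
      exact ⟨b i, (b i).2, rfl⟩
  rw [h1]
  refine ⟨FiniteDimensional.span_of_finite K (Set.finite_range _), ?_⟩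
  refine (finrank_range_le_card _).trans ?_
  simp

theorem Cp_le (hC : Cross ι x) {X : Type} [AddCommGroup X] [Module K X] [Module K' X]
    (hι : ∀ (k : K) (ξ : X), k • ξ = ι k • ξ) (φ : E →+ ℝ) (N : Submodule K X) (p : E) :
    Cp hC hι N p ≤ Fe ι x φ p N := by
  rintro _ ⟨n, hn, rfl⟩
  exact x_mem_fe hC hn

theorem Cp_inf (hC : Cross ι x) {X : Type} [AddCommGroup X] [Module K X] [Module K' X]
    (hι : ∀ (k : K) (ξ : X), k • ξ = ι k • ξ) {φ : E →+ ℝ} (hφ : Function.Injective φ)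
    {N : Submodule K X} (hd : N ⊓ Fl ι x φ 0 N = ⊥) (p : E) :
    Cp hC hι N p ⊓ Fl ι x φ p N = ⊥ := by
  rw [eq_bot_iff]
  rintro _ ⟨⟨n, hn, rfl⟩, h2⟩
  have h3 : n ∈ N ⊓ Fl ι x φ 0 N := ⟨hn, fl_cancel hC hι hφ h2⟩
  rw [hd, Submodule.mem_bot] at h3
  rw [h3, smul_zero]; exact Submodule.zero_mem _

theorem Cp_stable (hC : Cross ι x) {X : Type} [AddCommGroup X] [Module K X] [Module K' X]
    (hι : ∀ (k : K) (ξ : X), k • ξ = ι k • ξ) {u : X ≃+ X}
    (hA : Act ι x u (AddEquiv.refl E)) {N : Submodule K X} [FiniteDimensional K N]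
    (hst : ∀ ξ, u ξ ∈ N ↔ ξ ∈ N) (p : E) : ∀ ξ, u ξ ∈ Cp hC hι N p ↔ ξ ∈ Cp hC hι N p := by
  have := (finrank_Cp hC hι N p).1
  apply hA.stable hι
  rintro _ ⟨n, hn, rfl⟩
  obtain ⟨σ, σ0, h1, h2, h3⟩ := hA
  obtain ⟨c, hc⟩ := h3 p
  rw [h1, hc, ← smul_smul, ← hι]
  exact Submodule.smul_mem _ _ ⟨u n, (hst n).mpr hn, rfl⟩

theorem Fe_stable (hC : Cross ι x) {X : Type} [AddCommGroup X] [Module K X] [Module K' X]
    (hι : ∀ (k : K) (ξ : X), k • ξ = ι k • ξ) {u : X ≃+ X}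
    (hA : Act ι x u (AddEquiv.refl E)) (φ : E →+ ℝ) {N : Submodule K X}
    (hst : ∀ ξ, u ξ ∈ N ↔ ξ ∈ N) (p : E) : ∀ ξ, u ξ ∈ Fe ι x φ p N ↔ ξ ∈ Fe ι x φ p N := by
  intro ξ
  constructor
  · intro h
    have h1 := (hA.symm hC).fe hC hι (φ := φ) (p := p) (N := N) (N' := N)
      (fun n hn => by rw [← hst, u.apply_symm_apply]; exact hn) h
    rwa [u.symm_apply_apply] at h1
  · intro h
    exact hA.fe hC hι (N' := N) (fun n hn => (hst n).mpr hn) h

/-- trivial action: the subspaces of `K' N` have zero radical. -/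
theorem partT (hC : Cross ι x) {X : Type} [AddCommGroup X] [Module K X] [Module K' X]
    (hι : ∀ (k : K) (ξ : X), k • ξ = ι k • ξ) {u : X ≃+ X}
    (hA : Act ι x u (AddEquiv.refl E)) {φ : E →+ ℝ} (hφ : Function.Injective φ)
    (v0 : E) (hv0 : 0 < φ v0) (hgen : ∀ v : E, ∃ n : ℤ, v = n • v0)
    {N : Submodule K X} [FiniteDimensional K N]
    (hst : ∀ ξ, u ξ ∈ N ↔ ξ ∈ N) (hd : N ⊓ Fl ι x φ 0 N = ⊥)
    {W : Submodule K X} [FiniteDimensional K W] (hWst : ∀ ξ, u ξ ∈ W ↔ ξ ∈ W)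
    (hWN : ∀ ξ ∈ W, ξ ∈ Submodule.span K' (N : Set X)) {d : ℕ} (hNd : finrank K N ≤ d) :
    rad u d W = ⊥ := by
  classical
  by_cases hW : W = ⊥
  · subst hW
    rw [eq_bot_iff]
    exact (rad_le d (W := (⊥ : Submodule K X)) (fun ξ => by simp)).1
  obtain ⟨p0, hp0⟩ := mx_exists hC hι hφ hd hW hWN
  -- discreteness
  have hdisc : ∀ p : E, Fl ι x φ p N ≤ Fe ι x φ (p - v0) N := by
    intro p
    apply Submodule.span_le.mpr
    rintro ξ ⟨μ, n, hn, hμ, rfl⟩
    rcases hμ with hμ | ⟨q, hq, hq'⟩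
    · exact fe_gen hn (Or.inl hμ)
    · refine fe_gen hn (Or.inr ⟨q, hq, ?_⟩)
      obtain ⟨m, hm⟩ := hgen (p - q)
      have h1 : φ p - φ q = m * φ v0 := by
        rw [← map_sub, hm, map_zsmul, zsmul_eq_mul]
      have h2 : (0 : ℝ) < m * φ v0 := by rw [← h1]; linarith
      have h3 : (0 : ℝ) < m := by
        by_contra hcon
        push Not at hcon
        nlinarith
      have h4 : (1 : ℤ) ≤ m := by exact_mod_cast h3
      have h5 : (1 : ℝ) ≤ m := by exact_mod_cast h4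
      rw [map_sub]
      nlinarith
  have hstep : ∀ p : E, Fe ι x φ p N ≤ Cp hC hι N p ⊔ Fe ι x φ (p - v0) N := by
    intro p ξ hξ
    obtain ⟨n, hn, h⟩ := fe_lead hC hι hφ hξ
    have : ξ = x p • n + (ξ - x p • n) := by abel
    rw [this]
    exact Submodule.add_mem_sup ⟨n, hn, rfl⟩ (hdisc p h)
  let P : ℕ → E := fun i => p0 - i • v0
  have hP : ∀ i, P i - v0 = P (i + 1) := by
    intro i
    show p0 - i • v0 - v0 = p0 - (i + 1) • v0
    rw [add_smul, one_smul]; abel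
  have hPlt : ∀ i, φ (P (i + 1)) < φ (P i) := by
    intro i; rw [← hP, map_sub]; linarith
  let D : ℕ → Submodule K X := fun i => ⨆ t ∈ Finset.range i, Cp hC hι N (P t)
  have hD0 : D 0 = ⊥ := by simp [D]
  have hDs : ∀ i, D (i + 1) = D i ⊔ Cp hC hι N (P i) := by
    intro i
    show (⨆ t ∈ Finset.range (i + 1), Cp hC hι N (P t)) = _
    rw [Finset.range_add_one, Finset.iSup_insert, sup_comm]
  have hDinf : ∀ i, D i ⊓ Fe ι x φ (P i) N = ⊥ := by
    intro i
    induction i with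
    | zero => rw [hD0, bot_inf_eq]
    | succ i ih =>
      rw [eq_bot_iff]
      rintro ξ ⟨h1, h2⟩
      rw [hDs] at h1
      obtain ⟨a, ha, c, hc, rfl⟩ := Submodule.mem_sup.mp h1
      have h3 : a ∈ Fe ι x φ (P i) N := by
        have h4 : a + c ∈ Fe ι x φ (P i) N := fe_mono (hPlt i).le h2
        have h5 := Submodule.sub_mem _ h4 (Cp_le hC hι φ N (P i) hc)
        rwa [add_sub_cancel_right] at h5
      have h4 : a ∈ D i ⊓ Fe ι x φ (P i) N := ⟨ha, h3⟩
      rw [ih, Submodule.mem_bot] at h4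
      subst h4
      rw [zero_add] at h2 ⊢
      have h5 : c ∈ Cp hC hι N (P i) ⊓ Fl ι x φ (P i) N := ⟨hc, fe_le_fl (hPlt i) h2⟩
      rw [Cp_inf hC hι hφ hd] at h5
      exact h5
  have hcov : ∀ i, Fe ι x φ p0 N ≤ D i ⊔ Fe ι x φ (P i) N := by
    intro i
    induction i with
    | zero =>
      rw [hD0, bot_sup_eq]
      show Fe ι x φ p0 N ≤ Fe ι x φ (p0 - 0 • v0) N
      rw [zero_smul, sub_zero]
    | succ i ih =>
      refine ih.trans ?_
      rw [hDs]
      refine sup_le (le_sup_of_le_left le_sup_left) ?_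
      refine (hstep (P i)).trans ?_
      rw [hP]
      exact sup_le (le_sup_of_le_left le_sup_right) le_sup_right
  let V : ℕ → Submodule K X := fun i => D i ⊔ Fe ι x φ (P (i + 1)) N
  have hVst : ∀ i ξ, u ξ ∈ V i ↔ ξ ∈ V i := by
    have hone : ∀ (v : X ≃+ X), (∀ p ξ, ξ ∈ Cp hC hι N p → v ξ ∈ Cp hC hι N p) →
        (∀ p ξ, ξ ∈ Fe ι x φ p N → v ξ ∈ Fe ι x φ p N) → ∀ i ξ, ξ ∈ V i → v ξ ∈ V i := by
      intro v h1 h2 i ξ hξ
      have h3 : ∀ i ξ, ξ ∈ D i → v ξ ∈ D i := by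
        intro i
        induction i with
        | zero => intro ξ hξ; rw [hD0, Submodule.mem_bot] at hξ ⊢; rw [hξ, map_zero]
        | succ i ih =>
          intro ξ hξ
          rw [hDs] at hξ ⊢
          obtain ⟨a, ha, c, hc, rfl⟩ := Submodule.mem_sup.mp hξ
          rw [map_add]
          exact Submodule.add_mem_sup (ih a ha) (h1 _ c hc)
      obtain ⟨a, ha, c, hc, rfl⟩ := Submodule.mem_sup.mp hξ
      rw [map_add]
      exact Submodule.add_mem_sup (h3 i a ha) (h2 _ c hc)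
    intro i ξ
    constructor
    · intro h
      have := hone u.symm
        (fun p ξ h => by rw [← Cp_stable hC hι hA hst p, u.apply_symm_apply]; exact h)
        (fun p ξ h => by rw [← Fe_stable hC hι hA φ hst p, u.apply_symm_apply]; exact h) i _ h
      rwa [u.symm_apply_apply] at this
    · exact hone u (fun p ξ h => (Cp_stable hC hι hA hst p ξ).mpr h)
        (fun p ξ h => (Fe_stable hC hι hA φ hst p ξ).mpr h) i ξ
  -- codimension
  have hcod : ∀ i, finrank K W ≤ finrank K (W ⊓ V i : Submodule K X) + d := by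
    intro i
    have h1 := finrank_map_add (V i).mkQ W
    rw [Submodule.ker_mkQ] at h1
    have h2 : W.map (V i).mkQ ≤ (Cp hC hι N (P i)).map (V i).mkQ := by
      rintro _ ⟨w, hw, rfl⟩
      have h3 : w ∈ D i ⊔ Fe ι x φ (P i) N := hcov i (hp0.1 hw)
      obtain ⟨a, ha, c, hc, rfl⟩ := Submodule.mem_sup.mp h3
      have h4 : c ∈ Cp hC hι N (P i) ⊔ Fe ι x φ (P i - v0) N := hstep _ hc
      obtain ⟨c1, hc1, c2, hc2, rfl⟩ := Submodule.mem_sup.mp h4
      refine ⟨c1, hc1, ?_⟩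
      rw [hP] at hc2
      have h5 : a + c2 ∈ V i := Submodule.add_mem_sup ha hc2
      have h6 : (V i).mkQ (a + (c1 + c2)) = (V i).mkQ c1 + (V i).mkQ (a + c2) := by
        rw [← map_add]; congr 1; abel
      rw [h6]
      have h7 : (V i).mkQ (a + c2) = 0 := by
        rw [Submodule.mkQ_apply, Submodule.Quotient.mk_eq_zero]; exact h5
      rw [h7, add_zero]
    have hfc := finrank_Cp hC hι N (P i)
    have := hfc.1
    have h3 : finrank K (W.map (V i).mkQ) ≤ finrank K ((Cp hC hι N (P i)).map (V i).mkQ) :=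
      Submodule.finrank_mono h2
    have h4 : finrank K ((Cp hC hι N (P i)).map (V i).mkQ) ≤ finrank K (Cp hC hι N (P i)) :=
      Submodule.finrank_map_le _ _
    have h5 := hfc.2
    omega
  rw [eq_bot_iff]
  intro ξ hξ
  rw [Submodule.mem_bot]
  by_contra hξ0
  have hξW : ξ ∈ W := (rad_le d (u := u) (W := W) hWst).1 hξ
  obtain ⟨q, hq1, hq2⟩ := exists_exponent hC hι hφ hd (hWN ξ hξW) hξ0
  obtain ⟨m, hm⟩ := hgen (p0 - q)
  have hqle : φ q ≤ φ p0 := by
    by_contra hcon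
    push Not at hcon
    exact hq2 (fe_le_fl hcon (hp0.1 hξW))
  have hm0 : 0 ≤ m := by
    have h1 : φ p0 - φ q = m * φ v0 := by
      rw [← map_sub, hm, map_zsmul, zsmul_eq_mul]
    have h2 : (0 : ℝ) ≤ m * φ v0 := by rw [← h1]; linarith
    have h3 : (0 : ℝ) ≤ m := by
      by_contra hcon
      push Not at hcon
      nlinarith
    exact_mod_cast h3
  obtain ⟨i, rfl⟩ := Int.eq_ofNat_of_zero_le hm0
  have hqP : q = P i := by
    show q = p0 - i • v0
    have : (i : ℤ) • v0 = i • v0 := natCast_zsmul v0 i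
    rw [← this, ← hm]; abel
  have hξV : ξ ∈ W ⊓ V i := by
    have : W ⊓ V i ∈ {V | V ≤ W ∧ Stable u V ∧ finrank K W ≤ finrank K V + d} := by
      refine ⟨inf_le_left, ?_, hcod i⟩
      intro η
      constructor
      · rintro ⟨h1, h2⟩; exact ⟨(hWst η).mp h1, (hVst i η).mp h2⟩
      · rintro ⟨h1, h2⟩; exact ⟨(hWst η).mpr h1, (hVst i η).mpr h2⟩
    exact (Submodule.mem_sInf.mp hξ) _ this
  obtain ⟨a, ha, c, hc, hac⟩ := Submodule.mem_sup.mp hξV.2
  rw [hqP] at hq1 hq2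
  have h1 : a ∈ D i ⊓ Fe ι x φ (P i) N := by
    refine ⟨ha, ?_⟩
    have h2 := Submodule.sub_mem _ hq1 (fe_mono (hPlt i).le hc)
    rwa [← hac, add_sub_cancel_right] at h2
  rw [hDinf, Submodule.mem_bot] at h1
  rw [h1, zero_add] at hac
  rw [← hac] at hq2
  exact hq2 (fe_le_fl (hPlt i) hc)

/-- trivial case: bound for all stable subspaces. -/
theorem partOT (hC : Cross ι x) {φ : E →+ ℝ} (hφ : Function.Injective φ)
    (v0 : E) (hv0 : 0 < φ v0) (hgen : ∀ v : E, ∃ n : ℤ, v = n • v0) (d n : ℕ) :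
    ∀ (X : Type) [AddCommGroup X] [Module K X] [Module K' X]
    (hι : ∀ (k : K) (ξ : X), k • ξ = ι k • ξ) (u : X ≃+ X) (hA : Act ι x u (AddEquiv.refl E))
    (W : Submodule K X) [FiniteDimensional K W] (hWst : ∀ ξ, u ξ ∈ W ↔ ξ ∈ W)
    (hn : finrank K' (Submodule.span K' (W : Set X)) ≤ n) (hnd : n ≤ d), Bdd u n d W := by
  classical
  induction n with
  | zero =>
    intro X _ _ _ hι u hA W _ hWst hn hnd
    have := fd_span (K' := K') hι W
    have h1 : Submodule.span K' (W : Set X) = ⊥ := Submodule.finrank_eq_zero.mp (by omega)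
    show W = ⊥
    rw [eq_bot_iff]
    intro w hw
    have : w ∈ Submodule.span K' (W : Set X) := Submodule.subset_span hw
    rwa [h1] at this
  | succ n ih =>
  intro X _ _ _ hι u hA W _ hWst hn hnd
  by_cases hW : W = ⊥
  · subst hW
    show (rad u d)^[n + 1] ⊥ = ⊥
    rw [eq_bot_iff]
    exact (radi_le (n + 1) d (u := u) (W := (⊥ : Submodule K X)) (fun ξ => by simp)).1
  let 𝒮 : Set (Submodule K X) := {P | P ≤ W ∧ P ≠ ⊥ ∧ ∀ ξ, u ξ ∈ P ↔ ξ ∈ P}
  have hne : 𝒮.Nonempty := ⟨W, le_rfl, hW, hWst⟩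
  obtain ⟨N, ⟨hNW, hN0, hst⟩, hNmin⟩ :=
    (measure (fun P : Submodule K X => finrank K P)).wf.has_min 𝒮 hne
  have hNfd : FiniteDimensional K N := Submodule.finiteDimensional_of_le hNW
  have hmin : ∀ P : Submodule K X, P ≤ N → P ≠ ⊥ → (∀ ξ, u ξ ∈ P ↔ ξ ∈ P) → P = N := by
    intro P hPN hP0 hPst
    by_contra hne'
    have hlt : P < N := lt_of_le_of_ne hPN hne'
    exact hNmin P ⟨hPN.trans hNW, hP0, hPst⟩ (Submodule.finrank_lt_finrank_of_lt hlt)
  have hd := partA_id hC hι hA hφ hN0 hst hmin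
  set S := Submodule.span K' (N : Set X) with hS
  have hSj := span_stable hC hA hst
  have hfS : finrank K' S = finrank K N := finrank_span_eq hC hι hφ hd
  have hNS : N ≤ rs hι S := fun n hn => Submodule.subset_span hn
  have hTfd : FiniteDimensional K' (Submodule.span K' (W : Set X)) := fd_span hι W
  have hST : S ≤ Submodule.span K' (W : Set X) := Submodule.span_mono hNW
  have hNd : finrank K N ≤ d := by
    rw [← hfS]; exact (Submodule.finrank_mono hST).trans (hn.trans hnd)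
  have hfd1 : FiniteDimensional K (W ⊓ rs hι S : Submodule K X) :=
    Submodule.finiteDimensional_of_le inf_le_left
  have hWS : ∀ ξ, u ξ ∈ (W ⊓ rs hι S : Submodule K X) ↔ ξ ∈ (W ⊓ rs hι S : Submodule K X) := by
    intro ξ
    constructor
    · rintro ⟨h1, h2⟩; exact ⟨(hWst ξ).mp h1, (hSj ξ).mp h2⟩
    · rintro ⟨h1, h2⟩; exact ⟨(hWst ξ).mpr h1, (hSj ξ).mpr h2⟩
  have hb1 : Bdd u 1 d (W ⊓ rs hι S : Submodule K X) := by
    show rad u d _ = ⊥
    exact partT hC hι hA hφ v0 hv0 hgen hst hd hWS (fun ξ hξ => hξ.2) hNd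
  letI : Module K (X ⧸ S) := Module.compHom (X ⧸ S) ι
  have hιq : ∀ (k : K) (ξ : X ⧸ S), k • ξ = ι k • ξ := fun k ξ => rfl
  let π : X →ₗ[K] (X ⧸ S) := qmap hι S
  have hπ : ∀ ξ, π ξ = Submodule.Quotient.mk ξ := fun ξ => rfl
  have hAq := hA.quot S hSj
  have hWq : ∀ ξ, qEquiv S u hSj ξ ∈ W.map π ↔ ξ ∈ W.map π := by
    intro q
    obtain ⟨ξ, rfl⟩ := Submodule.Quotient.mk_surjective S q
    rw [qEquiv_mk]
    constructor
    · rintro ⟨w, hw, hwq⟩
      rw [hπ] at hwq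
      have h1 : w - u ξ ∈ S := (Submodule.Quotient.eq S).mp hwq
      refine ⟨u.symm w, ?_, ?_⟩
      · show u.symm w ∈ W
        rw [← hWst, u.apply_symm_apply]; exact hw
      · rw [hπ]
        apply (Submodule.Quotient.eq S).mpr
        rw [← hSj, map_sub, u.apply_symm_apply]; exact h1
    · rintro ⟨w, hw, hwq⟩
      rw [hπ] at hwq
      have h1 : w - ξ ∈ S := (Submodule.Quotient.eq S).mp hwq
      refine ⟨u w, (hWst w).mpr hw, ?_⟩
      rw [hπ]
      apply (Submodule.Quotient.eq S).mpr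
      rw [← map_sub, hSj]; exact h1
  have hrk' := finrank_map_add S.mkQ (Submodule.span K' (W : Set X))
  rw [Submodule.ker_mkQ, inf_eq_right.mpr hST] at hrk'
  have hmap : (Submodule.span K' (W : Set X)).map S.mkQ
      = Submodule.span K' ((W.map π : Submodule K (X ⧸ S)) : Set (X ⧸ S)) := by
    rw [Submodule.map_span]
    congr 1
  rw [hmap] at hrk'
  have hpos : 0 < finrank K' S := by
    rw [hfS, Module.finrank_pos_iff]
    exact (Submodule.nontrivial_iff_ne_bot).mpr hN0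
  have hle : finrank K' (Submodule.span K' ((W.map π : Submodule K (X ⧸ S)) : Set (X ⧸ S))) ≤ n := by
    have h1 : finrank K' (Submodule.span K' ((W.map π : Submodule K (X ⧸ S)) : Set (X ⧸ S)))
      + finrank K' S ≤ n + 1 := hrk'.trans_le hn
    omega
  have hih := ih (X ⧸ S) hιq (qEquiv S u hSj) hAq (W.map π) hWq hle (by omega)
  refine bdd_ext (RingEquiv.refl K) (π.toAddMonoidHom) (u := u) (u₂ := qEquiv S u hSj)
    (hAq.semiK hιq) hWst
    ?_ ?_ (W.map π) ?_ n d hih (W ⊓ rs hι S) ?_ 1 hb1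
  · intro k ξ _
    exact map_smul π k ξ
  · intro ξ _
    refine ⟨1, one_ne_zero, ?_⟩
    rw [one_smul]
    rfl
  · intro y
    exact Iff.rfl
  · intro ξ
    constructor
    · rintro ⟨h1, h2⟩
      refine ⟨h1, ?_⟩
      show Submodule.Quotient.mk ξ = 0
      exact (Submodule.Quotient.mk_eq_zero S).mpr h2
    · rintro ⟨h1, h2⟩
      exact ⟨h1, (Submodule.Quotient.mk_eq_zero S).mp h2⟩

end

end Pool.Agent.Helper946.PH3
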