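import Mathlib
import Pool.Agent.Helper946.PHDefs
import Pool.Agent.Helper946.PHCross
import Pool.Agent.Helper946.PHFil
import Pool.Agent.Helper946.PHMin
import Pool.Agent.Helper946.HCRad
import Pool.Agent.Helper946.PHOH
import Pool.Agent.Helper946.PHOT

set_option autoImplicit false
set_option linter.unusedSectionVars false
set_option linter.unusedVariables false

namespace Pool.Agent.Helper946.PH3

open Module Pool.Agent.Helper946.HC

section

variable {K K' E : Type} [DivisionRing K] [DivisionRing K'] [AddCommGroup E]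
  {ι : K →+* K'} {x : E → K'}

/-- from a bound for subspaces with small `K'`-span to a bound for bounded `K'`-span. -/
theorem combine (hC : Cross ι x) {M : E ≃+ E} (a d : ℕ)
    (hyp : ∀ (Y : Type) [AddCommGroup Y] [Module K Y] [Module K' Y]
      (hι : ∀ (k : K) (ξ : Y), k • ξ = ι k • ξ) (v : Y ≃+ Y) (hA : Act ι x v M)
      (W : Submodule K Y) [FiniteDimensional K W] (hWst : ∀ ξ, v ξ ∈ W ↔ ξ ∈ W)
      (hn : finrank K' (Submodule.span K' (W : Set Y)) ≤ d), Bdd v a d W)
    {X : Type} [AddCommGroup X] [Module K X] [Module K' X]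
    (hι : ∀ (k : K) (ξ : X), k • ξ = ι k • ξ) {u : X ≃+ X} (hA : Act ι x u M)
    (W : Submodule K X) [FiniteDimensional K W] (hWst : Stable u W) (l : ℕ)
    (hb : Bdd u l d (Submodule.span K' (W : Set X))) : Bdd u (a * l) d W := by
  classical
  have hTfd : FiniteDimensional K' (Submodule.span K' (W : Set X)) := fd_span hι W
  have hTst : Stable u (Submodule.span K' (W : Set X)) := span_stable hC hA hWst
  have key : ∀ i : ℕ, ∀ ξ ∈ (rad u d)^[a * i] W,
      ξ ∈ (rad u d)^[i] (Submodule.span K' (W : Set X)) := by
    intro i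
    induction i with
    | zero => intro ξ hξ; exact Submodule.subset_span hξ
    | succ i ih =>
      intro ξ hξ
      have e1 : a * (i + 1) = a + a * i := by ring
      rw [e1, Function.iterate_add_apply] at hξ
      rw [Function.iterate_succ_apply']
      set Wi := (rad u d)^[a * i] W with hWi
      set Ri := (rad u d)^[i] (Submodule.span K' (W : Set X)) with hRi
      have hWi1 := radi_le (a * i) d (u := u) hWst
      have hRi1 := radi_le i d (u := u) hTst
      have hWifd : FiniteDimensional K Wi := Submodule.finiteDimensional_of_le hWi1.1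
      have hRifd : FiniteDimensional K' Ri := Submodule.finiteDimensional_of_le hRi1.1
      refine Submodule.mem_sInf.mpr ?_
      rintro V ⟨hV1, hV2, hV3⟩
      letI : Module K (X ⧸ V) := Module.compHom (X ⧸ V) ι
      have hιq : ∀ (k : K) (ξ : X ⧸ V), k • ξ = ι k • ξ := fun k ξ => rfl
      let π : X →ₗ[K] (X ⧸ V) := qmap hι V
      have hπ : ∀ ξ, π ξ = Submodule.Quotient.mk ξ := fun ξ => rfl
      have hAq := hA.quot V hV2
      have hWist : Stable u Wi := hWi1.2
      have hWq : ∀ ξ, qEquiv V u hV2 ξ ∈ Wi.map π ↔ ξ ∈ Wi.map π := by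
        intro q
        obtain ⟨ξ, rfl⟩ := Submodule.Quotient.mk_surjective V q
        rw [qEquiv_mk]
        constructor
        · rintro ⟨w, hw, hwq⟩
          rw [hπ] at hwq
          have h1 : w - u ξ ∈ V := (Submodule.Quotient.eq V).mp hwq
          refine ⟨u.symm w, ?_, ?_⟩
          · show u.symm w ∈ Wi
            rw [← hWist, u.apply_symm_apply]; exact hw
          · rw [hπ]
            apply (Submodule.Quotient.eq V).mpr
            rw [← hV2, map_sub, u.apply_symm_apply]; exact h1
        · rintro ⟨w, hw, hwq⟩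
          rw [hπ] at hwq
          have h1 : w - ξ ∈ V := (Submodule.Quotient.eq V).mp hwq
          refine ⟨u w, (hWist w).mpr hw, ?_⟩
          rw [hπ]
          apply (Submodule.Quotient.eq V).mpr
          rw [← map_sub, hV2]; exact h1
      have hrk := finrank_map_add V.mkQ Ri
      rw [Submodule.ker_mkQ, inf_eq_right.mpr hV1] at hrk
      have hsp : Submodule.span K' ((Wi.map π : Submodule K (X ⧸ V)) : Set (X ⧸ V))
          ≤ Ri.map V.mkQ := by
        apply Submodule.span_le.mpr
        rintro _ ⟨w, hw, rfl⟩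
        exact ⟨w, ih w hw, rfl⟩
      have hle : finrank K' (Submodule.span K' ((Wi.map π : Submodule K (X ⧸ V)) : Set (X ⧸ V)))
          ≤ d := by
        have h1 := Submodule.finrank_mono hsp
        omega
      have hbd := hyp (X ⧸ V) hιq (qEquiv V u hV2) hAq (Wi.map π) hWq hle
      have hm := radi_map (RingEquiv.refl K) (π.toAddMonoidHom) (u := u) (u₂ := qEquiv V u hV2)
        (hAq.semiK hιq)
        hWist (fun k ξ _ => map_smul π k ξ)
        (fun ξ _ => ⟨1, one_ne_zero, by rw [one_smul]; rfl⟩) (Wi.map π) (fun y => Iff.rfl) a d ξ hξ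
      rw [hbd] at hm
      rw [Submodule.mem_bot] at hm
      exact (Submodule.Quotient.mk_eq_zero V).mp hm
  show (rad u d)^[a * l] W = ⊥
  rw [eq_bot_iff]
  intro ξ hξ
  have h1 := key l ξ hξ
  rw [hb] at h1
  exact h1

end

end Pool.Agent.Helper946.PH3
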