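import Mathlib
import Pool.Agent.Helper946.PHDefs
import Pool.Agent.Helper946.PHCross
import Pool.Agent.Helper946.PHFil
import Pool.Agent.Helper946.PHMin
import Pool.Agent.Helper946.HCRad
import Pool.Agent.Helper946.PHOH
import Pool.Agent.Helper946.PHOT
import Pool.Agent.Helper946.PHComb
import Pool.Agent.Helper946.PHField
import Pool.Agent.Helper946.HCPoly
import Pool.Agent.Helper946.PHRec

set_option autoImplicit false
set_option linter.unusedSectionVars false
set_option linter.unusedVariables false

namespace Pool.Agent.Helper946.PH3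

open Module Pool.Agent.Helper946.HC

section

variable {K K' E : Type} [DivisionRing K] [DivisionRing K'] [AddCommGroup E]
  {ι : K →+* K'} {x : E → K'}

theorem step_hyp (hC : Cross ι x) {φ : E →+ ℝ} (hφ : Function.Injective φ) {M : E ≃+ E}
    (hrec : Rec φ M) (hper : ∀ (v : E) (j : ℕ), 0 < j → (⇑M)^[j] v = v → v = 0) (d : ℕ)
    {X : Type} [AddCommGroup X] [Module K X] [Module K' X]
    (hι : ∀ (k : K) (ξ : X), k • ξ = ι k • ξ) {u : X ≃+ X} (hA : Act ι x u M)
    (W : Submodule K X) [FiniteDimensional K W] (hWst : Stable u W) (l : ℕ)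
    (hb : Bdd u l d (Submodule.span K' (W : Set X))) : Bdd u (1 * l) d W := by
  apply combine hC 1 d ?_ hι hA W hWst l hb
  intro Y _ _ _ hι v hA W _ hWst hn
  exact bdd_small ((partOH hC hφ _ Y hι v M hA hrec hper W hWst rfl).trans hn)

theorem step_triv (hC : Cross ι x) {φ : E →+ ℝ} (hφ : Function.Injective φ)
    (v0 : E) (hv0 : 0 < φ v0) (hgen : ∀ v : E, ∃ n : ℤ, v = n • v0) (d : ℕ)
    {X : Type} [AddCommGroup X] [Module K X] [Module K' X]
    (hι : ∀ (k : K) (ξ : X), k • ξ = ι k • ξ) {u : X ≃+ X} (hA : Act ι x u (AddEquiv.refl E))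
    (W : Submodule K X) [FiniteDimensional K W] (hWst : Stable u W) (l : ℕ)
    (hb : Bdd u l d (Submodule.span K' (W : Set X))) : Bdd u (d * l) d W := by
  apply combine hC d d ?_ hι hA W hWst l hb
  intro Y _ _ _ hι v hA W _ hWst hn
  exact partOT hC hφ v0 hv0 hgen d d Y hι v hA W hWst hn le_rfl

theorem tf_of_free {E : Type} [AddCommGroup E] [Module.Free ℤ E] (n : ℤ) (v : E) (hn : n ≠ 0)
    (h : n • v = 0) : v = 0 := by
  let b := Module.Free.chooseBasis ℤ E
  apply b.repr.injective
  rw [map_zero]
  ext i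
  have h1 : b.repr (n • v) i = 0 := by rw [h, map_zero]; rfl
  rw [map_smul, Finsupp.smul_apply, smul_eq_mul] at h1
  rcases mul_eq_zero.mp h1 with h2 | h2
  · exact absurd h2 hn
  · exact h2

theorem res3_of_free {E : Type} [AddCommGroup E] [Module.Free ℤ E] (v : E)
    (h : ∀ k : ℕ, ∃ w : E, v = (3 ^ k : ℕ) • w) : v = 0 := by
  let b := Module.Free.chooseBasis ℤ E
  apply b.repr.injective
  rw [map_zero]
  ext i
  show b.repr v i = 0
  have h1 : ∀ k : ℕ, ((3 : ℤ) ^ k) ∣ b.repr v i := by
    intro k
    obtain ⟨w, hw⟩ := h k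
    refine ⟨b.repr w i, ?_⟩
    have h2 : v = ((3 : ℤ) ^ k) • w := by
      rw [hw, ← natCast_zsmul]; push_cast; rfl
    conv_lhs => rw [h2]
    rw [map_smul, Finsupp.smul_apply, smul_eq_mul]
  by_contra hne
  have h2 := h1 ((b.repr v i).natAbs)
  have h3 := Int.le_of_dvd (abs_pos.mpr hne) ((dvd_abs _ _).mpr h2)
  have h4 : (b.repr v i).natAbs < 3 ^ (b.repr v i).natAbs := Nat.lt_pow_self (by norm_num)
  have h5 : |b.repr v i| = ((b.repr v i).natAbs : ℤ) := Int.abs_eq_natAbs _
  rw [h5] at h3
  have h6 : ((3 : ℤ) ^ (b.repr v i).natAbs) = ((3 ^ (b.repr v i).natAbs : ℕ) : ℤ) := by push_cast; rfl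
  rw [h6] at h3
  have := Int.ofNat_le.mp h3
  omega

/-- one step, for an action on `E` without proper isolated stable subgroup. -/
theorem step_min [Module.Free ℤ E] [Module.Finite ℤ E] [Nontrivial E] (hC : Cross ι x)
    {M : E ≃+ E} (hM3 : ∀ v, ∃ w, M v = v + 3 • w)
    (hmin : ∀ E' : AddSubgroup E, (∀ v ∈ E', M v ∈ E') → (∀ v ∈ E', M.symm v ∈ E') →
      (∀ (n : ℤ) (v : E), n ≠ 0 → n • v ∈ E' → v ∈ E') → E' = ⊥ ∨ E' = ⊤) (d : ℕ)
    {X : Type} [AddCommGroup X] [Module K X] [Module K' X]
    (hι : ∀ (k : K) (ξ : X), k • ξ = ι k • ξ) {u : X ≃+ X} (hA : Act ι x u M)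
    (W : Submodule K X) [FiniteDimensional K W] (hWst : Stable u W) (l : ℕ)
    (hb : Bdd u l d (Submodule.span K' (W : Set X))) : Bdd u (l * (d + 1)) d W := by
  classical
  by_cases hper : ∀ (v : E) (j : ℕ), 0 < j → (⇑M)^[j] v = v → v = 0
  · have hcount : Countable E :=
      (Module.Free.chooseBasis ℤ E).repr.toEquiv.countable_iff.mpr inferInstance
    obtain ⟨π, lam, hπ, hlam, hπM⟩ := PHall.exists_eigenfunctional M hmin
    obtain ⟨φ, hφ, hrec⟩ := PHall.exists_rec M.toAddMonoidHom π hπ lam hlam hπM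
    have hrec' : Rec φ M := by
      intro Φ j1 hj1
      obtain ⟨j, h1, h2, h3⟩ := hrec Φ j1 hj1
      exact ⟨j, h1, h2, fun v hv => (h3 v hv).1⟩
    have h := step_hyp hC hφ hrec' hper d hι hA W hWst l hb
    exact bdd_mono (by rw [one_mul]; exact Nat.le_mul_of_pos_right l (Nat.succ_pos d)) le_rfl
      le_rfl hWst hWst h
  · push Not at hper
    obtain ⟨v, j, hj, hv, hv0⟩ := hper
    have hMv : M v = v :=
      mink (fun n v hn h => tf_of_free (n : ℤ) v (by exact_mod_cast hn.ne')
        (by rw [natCast_zsmul]; exact h)) res3_of_free M.toAddMonoidHom hM3 j hj v hv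
    let E' : AddSubgroup E :=
      { carrier := {w | ∃ n m : ℤ, n ≠ 0 ∧ n • w = m • v}
        add_mem' := by
          rintro a b ⟨n, m, hn, h⟩ ⟨n', m', hn', h'⟩
          refine ⟨n * n', m * n' + n * m', mul_ne_zero hn hn', ?_⟩
          have e1 : (n * n') • a = (n' * m) • v := by rw [mul_comm n n', mul_smul, h, ← mul_smul]
          have e2 : (n * n') • b = (n * m') • v := by rw [mul_smul, h', ← mul_smul]
          rw [smul_add, e1, e2, ← add_smul]
          congr 1
          ring
        zero_mem' := ⟨1, 0, one_ne_zero, by simp⟩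
        neg_mem' := by
          rintro a ⟨n, m, hn, h⟩
          refine ⟨n, -m, hn, ?_⟩
          rw [smul_neg, h, neg_smul] }
    have hE' : E' = ⊤ := by
      have hMs : M.symm v = v := by
        apply M.injective
        rw [M.apply_symm_apply, hMv]
      have hor : E' = ⊥ ∨ E' = ⊤ := by
        apply hmin E'
        · rintro w ⟨n, m, hn, h⟩
          exact ⟨n, m, hn, by rw [← map_zsmul, h, map_zsmul, hMv]⟩
        · rintro w ⟨n, m, hn, h⟩
          exact ⟨n, m, hn, by rw [← map_zsmul, h, map_zsmul, hMs]⟩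
        · rintro n w hn ⟨n', m, hn', h⟩
          exact ⟨n' * n, m, mul_ne_zero hn' hn, by rw [mul_smul]; exact h⟩
      rcases hor with h | h
      · exfalso
        have : v ∈ E' := ⟨1, 1, one_ne_zero, rfl⟩
        rw [h] at this
        exact hv0 (AddSubgroup.mem_bot.mp this)
      · exact h
    have hall : ∀ w : E, ∃ n m : ℤ, n ≠ 0 ∧ n • w = m • v := by
      intro w
      have : w ∈ E' := by rw [hE']; trivial
      exact this
    have hMid : M = AddEquiv.refl E := by
      ext w
      obtain ⟨n, m, hn, h⟩ := hall w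
      have h1 : n • (M w - w) = 0 := by
        rw [smul_sub, ← map_zsmul, h, map_zsmul, hMv, sub_self]
      exact sub_eq_zero.mp (tf_of_free n _ hn h1)
    -- rank one
    let b := Module.finBasis ℤ E
    have hsub : ∀ i j : Fin (finrank ℤ E), i = j := by
      intro i j
      by_contra hij
      obtain ⟨n, m, hn, h⟩ := hall (b i)
      obtain ⟨n', m', hn', h'⟩ := hall (b j)
      have hm : m ≠ 0 := by
        intro h0
        rw [h0, zero_smul] at h
        exact b.ne_zero i (tf_of_free n _ hn h)
      have hm' : m' ≠ 0 := by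
        intro h0
        rw [h0, zero_smul] at h'
        exact b.ne_zero j (tf_of_free n' _ hn' h')
      have h1 : (m' * n) • b i = (m * n') • b j := by
        rw [mul_smul, h, mul_smul, h', ← mul_smul, ← mul_smul, mul_comm]
      have h2 := congrArg (fun w => b.repr w i) h1
      simp only [map_smul, Finsupp.smul_apply, Basis.repr_self, smul_eq_mul,
        Finsupp.single_eq_same] at h2
      rw [Finsupp.single_apply, if_neg (fun h => hij h.symm), mul_zero, mul_one] at h2
      exact (mul_ne_zero hm' hn) h2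
    have hpos : 0 < finrank ℤ E := by
      by_contra h0
      have h1 : finrank ℤ E = 0 := by omega
      have : IsEmpty (Fin (finrank ℤ E)) := by rw [h1]; infer_instance
      have h2 := b.repr.toEquiv.subsingleton
      exact not_subsingleton E h2
    let i0 : Fin (finrank ℤ E) := ⟨0, hpos⟩
    have hgen : ∀ w : E, ∃ n : ℤ, w = n • b i0 := by
      intro w
      refine ⟨b.repr w i0, ?_⟩
      have h1 := b.sum_repr w
      rw [Finset.sum_eq_single i0 (fun i _ hi => absurd (hsub i i0) hi)
        (fun h => absurd (Finset.mem_univ _) h)] at h1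
      exact h1.symm
    let φ : E →+ ℝ :=
      { toFun := fun w => ((b.repr w i0 : ℤ) : ℝ)
        map_zero' := by simp
        map_add' := by intro a c; simp }
    have hφ0 : φ (b i0) = 1 := by
      show ((b.repr (b i0) i0 : ℤ) : ℝ) = 1
      rw [Basis.repr_self, Finsupp.single_eq_same]; norm_num
    have hφ : Function.Injective φ := by
      rw [injective_iff_map_eq_zero]
      intro w hw
      obtain ⟨n, rfl⟩ := hgen w
      rw [map_zsmul, hφ0] at hw
      have : (n : ℝ) = 0 := by simpa using hw
      have hn : n = 0 := by exact_mod_cast this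
      rw [hn, zero_smul]
    rw [hMid] at hA
    have h := step_triv hC hφ (b i0) (by rw [hφ0]; exact one_pos) hgen d hι hA W hWst l hb
    exact bdd_mono (by rw [mul_comm]; exact Nat.mul_le_mul_left l (Nat.le_succ d)) le_rfl
      le_rfl hWst hWst h

end

/-- the descent theorem. -/
theorem descent (r : ℕ) : ∀ (K K' E : Type) [DivisionRing K] [DivisionRing K'] [AddCommGroup E]
    [Module.Free ℤ E] [Module.Finite ℤ E] (ι : K →+* K') (x : E → K') (hC : Cross ι x)
    (hr : finrank ℤ E = r) (X : Type) [AddCommGroup X] [Module K X] [Module K' X]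
    (hι : ∀ (k : K) (ξ : X), k • ξ = ι k • ξ) (u : X ≃+ X) (M : E ≃+ E) (hA : Act ι x u M)
    (hM3 : ∀ v, ∃ w, M v = v + 3 • w) (l d : ℕ) (W : Submodule K X) [FiniteDimensional K W]
    (hWst : Stable u W) (hb : Bdd u l d (Submodule.span K' (W : Set X))),
    Bdd u (l * (d + 1) ^ r) d W := by
  classical
  induction r using Nat.strong_induction_on with
  | _ r ih =>
  intro K K' E _ _ _ _ _ ι x hC hr X _ _ _ hι u M hA hM3 l d W _ hWst hb
  by_cases hr0 : r = 0
  · -- trivial group
    have hsub : Subsingleton E := by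
      let b := Module.finBasis ℤ E
      have : IsEmpty (Fin (finrank ℤ E)) := by rw [hr, hr0]; infer_instance
      exact b.repr.toEquiv.subsingleton
    have h := step_hyp hC (φ := (0 : E →+ ℝ)) (fun a b _ => Subsingleton.elim a b) (M := M)
      (fun Φ j1 hj1 => ⟨j1, hj1, dvd_rfl, fun v _ hv => absurd hv (lt_irrefl _)⟩)
      (fun v j _ _ => Subsingleton.elim v 0) d hι hA W hWst l hb
    subst hr0
    rw [pow_zero, mul_one]
    rwa [one_mul] at h
  by_cases hmin : ∀ E' : AddSubgroup E, (∀ v ∈ E', M v ∈ E') → (∀ v ∈ E', M.symm v ∈ E') →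
      (∀ (n : ℤ) (v : E), n ≠ 0 → n • v ∈ E' → v ∈ E') → E' = ⊥ ∨ E' = ⊤
  · have hnt : Nontrivial E := by
      by_contra hcon
      rw [not_nontrivial_iff_subsingleton] at hcon
      apply hr0
      rw [← hr]
      exact Module.finrank_zero_of_subsingleton
    have h := step_min hC hM3 hmin d hι hA W hWst l hb
    refine bdd_mono (Nat.mul_le_mul_left l ?_) le_rfl le_rfl hWst hWst h
    calc d + 1 = (d + 1) ^ 1 := (pow_one _).symm
      _ ≤ (d + 1) ^ r := Nat.pow_le_pow_right (Nat.succ_pos d) (Nat.pos_of_ne_zero hr0)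
  · push Not at hmin
    obtain ⟨H, hH1, hH2, hHiso, hHbot, hHtop⟩ := hmin
    have hMH : ∀ v, M v ∈ H ↔ v ∈ H := by
      intro v
      constructor
      · intro h
        have := hH2 _ h
        rwa [M.symm_apply_apply] at this
      · exact hH1 v
    -- ranks
    let q : E →ₗ[ℤ] (E ⧸ H) := (QuotientAddGroup.mk' H).toIntLinearMap
    have hq : ∀ v, q v = QuotientAddGroup.mk v := fun v => rfl
    have hqs : Function.Surjective q := QuotientAddGroup.mk'_surjective H
    let i : H →ₗ[ℤ] E := H.subtype.toIntLinearMap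
    have hi : Function.Injective i := H.subtype_injective
    have hfinH : Module.Finite ℤ H := Module.Finite.of_injective i hi
    have hfinQ : Module.Finite ℤ (E ⧸ H) := Module.Finite.of_surjective q hqs
    have htfH : Module.IsTorsionFree ℤ H := by
      apply Module.IsTorsionFree.of_smul_eq_zero
      intro n v hv
      by_cases hn : n = 0
      · exact Or.inl hn
      · right
        have h1 : n • (v : E) = 0 := by
          have := congrArg Subtype.val hv
          rwa [AddSubgroup.coe_zsmul] at this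
        exact Subtype.ext (tf_of_free n _ hn h1)
    have htfQ : Module.IsTorsionFree ℤ (E ⧸ H) := by
      apply Module.IsTorsionFree.of_smul_eq_zero
      intro n v hv
      by_cases hn : n = 0
      · exact Or.inl hn
      · right
        obtain ⟨w, rfl⟩ := hqs v
        rw [← map_smul] at hv
        have h1 : n • w ∈ H := (QuotientAddGroup.eq_zero_iff _).mp hv
        exact (QuotientAddGroup.eq_zero_iff _).mpr (hHiso n w hn h1)
    have hfreeH : Module.Free ℤ H := Module.free_of_finite_type_torsion_free'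
    have hfreeQ : Module.Free ℤ (E ⧸ H) := Module.free_of_finite_type_torsion_free'
    have hrank : finrank ℤ H + finrank ℤ (E ⧸ H) = r := by
      have h1 := Submodule.finrank_quotient_add_finrank (LinearMap.ker q)
      rw [(q.quotKerEquivOfSurjective hqs).finrank_eq, hr] at h1
      have h2 : LinearMap.ker q = LinearMap.range i := by
        ext v
        rw [LinearMap.mem_ker, LinearMap.mem_range]
        constructor
        · intro h
          exact ⟨⟨v, (QuotientAddGroup.eq_zero_iff _).mp h⟩, rfl⟩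
        · rintro ⟨w, rfl⟩
          exact (QuotientAddGroup.eq_zero_iff _).mpr w.2
      rw [h2, LinearMap.finrank_range_of_inj hi] at h1
      omega
    have hposH : 0 < finrank ℤ H := by
      have : Nontrivial H := (AddSubgroup.nontrivial_iff_ne_bot H).mpr hHbot
      exact Module.finrank_pos
    have hposQ : 0 < finrank ℤ (E ⧸ H) := by
      have : Nontrivial (E ⧸ H) := by
        obtain ⟨v, hv⟩ : ∃ v, v ∉ H := by
          by_contra hcon
          push Not at hcon
          exact hHtop (eq_top_iff.mpr fun v _ => hcon v)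
        exact ⟨⟨q v, 0, fun h => hv ((QuotientAddGroup.eq_zero_iff _).mp h)⟩⟩
      exact Module.finrank_pos
    -- the middle division ring
    obtain ⟨K1, instK1, ι1, j, x1, x2, hj1, hjx, hx2, hfac, hC1, hC2, hσ⟩ := exists_middle hC H
    have hjinj : Function.Injective j := j.injective
    let _ : Module K1 X := Module.compHom X j
    have hιj : ∀ (k : K1) (ξ : X), k • ξ = j k • ξ := fun k ξ => rfl
    have hι1 : ∀ (k : K) (ξ : X), k • ξ = ι1 k • ξ := by
      intro k ξ
      rw [hιj, hj1, ← hι]
    let M1 : H ≃+ H :=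
      { toFun := fun v => ⟨M v, (hMH v).mpr v.2⟩
        invFun := fun v => ⟨M.symm v, hH2 v v.2⟩
        left_inv := fun v => Subtype.ext (M.symm_apply_apply _)
        right_inv := fun v => Subtype.ext (M.apply_symm_apply _)
        map_add' := fun a b => Subtype.ext (map_add M _ _) }
    have hM1 : ∀ v : H, ((M1 v : H) : E) = M v := fun v => rfl
    let M2 : (E ⧸ H) ≃+ (E ⧸ H) := QuotientAddGroup.congr H H M (by
      ext v
      rw [AddSubgroup.mem_map]
      constructor
      · rintro ⟨w, hw, rfl⟩
        exact (hMH w).mpr hw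
      · intro hv
        exact ⟨M.symm v, hH2 v hv, M.apply_symm_apply v⟩)
    have hM2 : ∀ v : E, M2 (QuotientAddGroup.mk v) = QuotientAddGroup.mk (M v) := fun v => rfl
    obtain ⟨σ, σ0, hA1, hA2, hA3⟩ := hA
    obtain ⟨σ1, hσ1⟩ := hσ σ σ0 M hA2 hA3 hMH
    have hAct1 : Act ι1 x1 u M1 := by
      refine ⟨σ1, σ0, ?_, ?_, ?_⟩
      · intro κ ξ
        rw [hιj, hιj, hA1, hσ1]
      · intro k
        apply hjinj
        rw [← hσ1, hj1, hj1, hA2]
      · intro v
        obtain ⟨c, hc⟩ := hA3 v
        refine ⟨c, ?_⟩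
        apply hjinj
        rw [← hσ1, map_mul, hjx, hj1, hjx, hc, hM1]
    have hAct2 : Act j x2 u M2 := by
      refine ⟨σ, σ1, hA1, hσ1, ?_⟩
      intro v
      obtain ⟨c, hc⟩ := hA3 v.out
      obtain ⟨κ, hκ⟩ := hfac (M v.out)
      refine ⟨ι1 c * κ, ?_⟩
      have h1 : (QuotientAddGroup.mk (M v.out) : E ⧸ H) = M2 v := by
        rw [← hM2]
        congr 1
        exact Quotient.out_eq' _
      rw [h1] at hκ
      rw [hx2 v, hc, hκ, map_mul, hj1, mul_assoc]
    have hM31 : ∀ v : H, ∃ w : H, M1 v = v + 3 • w := by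
      intro v
      obtain ⟨w, hw⟩ := hM3 v
      have h1 : (3 : ℤ) • w ∈ H := by
        have : (3 : ℤ) • w = M v - v := by
          rw [hw]
          have : (3 : ℤ) • w = 3 • w := by norm_cast
          rw [this]; abel
        rw [this]
        exact H.sub_mem ((hMH v).mpr v.2) v.2
      refine ⟨⟨w, hHiso 3 w (by norm_num) h1⟩, Subtype.ext ?_⟩
      rw [hM1, hw]
      rfl
    have hM32 : ∀ v : E ⧸ H, ∃ w : E ⧸ H, M2 v = v + 3 • w := by
      intro v
      obtain ⟨v, rfl⟩ := hqs v
      obtain ⟨w, hw⟩ := hM3 v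
      refine ⟨q w, ?_⟩
      show M2 (QuotientAddGroup.mk v) = _
      rw [hM2, hw]
      rfl
    -- the middle subspace
    set W1 : Submodule K1 X := Submodule.span K1 (W : Set X) with hW1
    have hfd1 : FiniteDimensional K1 W1 := fd_span hι1 W
    have hst1 : Stable u W1 := span_stable hC1 hAct1 hWst
    have hspan : Submodule.span K' (W1 : Set X) = Submodule.span K' (W : Set X) := by
      apply le_antisymm
      · apply Submodule.span_le.mpr
        intro ξ hξ
        show ξ ∈ Submodule.span K' (W : Set X)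
        have hξ' : ξ ∈ Submodule.span K1 (W : Set X) := hξ
        induction hξ' using Submodule.span_induction with
        | mem n hn => exact Submodule.subset_span hn
        | zero => exact Submodule.zero_mem _
        | add a b h1 h2 ha hb => exact Submodule.add_mem _ (ha h1) (hb h2)
        | smul k a h1 ha => rw [hιj]; exact Submodule.smul_mem _ _ (ha h1)
      · exact Submodule.span_mono Submodule.subset_span
    have hstep2 : Bdd u (l * (d + 1) ^ finrank ℤ (E ⧸ H)) d W1 :=
      ih (finrank ℤ (E ⧸ H)) (by omega) K1 K' (E ⧸ H) j x2 hC2 rfl X hιj u M2 hAct2 hM32 l d W1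
        hst1 (by rw [hspan]; exact hb)
    have hstep1 := ih (finrank ℤ H) (by omega) K K1 H ι1 x1 hC1 rfl X hι1 u M1 hAct1 hM31
      (l * (d + 1) ^ finrank ℤ (E ⧸ H)) d W hWst hstep2
    have e1 : l * (d + 1) ^ finrank ℤ (E ⧸ H) * (d + 1) ^ finrank ℤ H = l * (d + 1) ^ r := by
      rw [mul_assoc, ← pow_add, add_comm (finrank ℤ (E ⧸ H)), hrank]
    rwa [e1] at hstep1

end Pool.Agent.Helper946.PH3
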