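import Pool.Agent.Helper946.M3

set_option autoImplicit false

namespace Med

variable {S : Finset E}

lemma fct_of_strict {a b c w : E} {K : ℝ} (hK : 0 < K) (ha : a ∈ S) (hb : b ∈ S) (hc : c ∈ S)
    (hd : 0 < dt a b c) (wa : inner ℝ w a = K) (wb : inner ℝ w b = K) (wc : inner ℝ w c = K)
    (h : ∀ x ∈ S, x ≠ a → x ≠ b → x ≠ c → inner ℝ w x < K) : Fct S a b c := by
  have e : nrm a b c = (dt a b c / K) • w := by
    apply ext_of_inr hd.ne'
    · rw [nrm_a, real_inner_smul_left, wa, div_mul_cancel₀ _ hK.ne']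
    · rw [nrm_b, real_inner_smul_left, wb, div_mul_cancel₀ _ hK.ne']
    · rw [nrm_c, real_inner_smul_left, wc, div_mul_cancel₀ _ hK.ne']
  refine ⟨ha, hb, hc, hd, fun x hx h1 h2 h3 => ?_⟩
  rw [e, real_inner_smul_left]
  have h4 := h x hx h1 h2 h3
  have h5 : dt a b c / K * inner ℝ w x < dt a b c / K * K :=
    mul_lt_mul_of_pos_left h4 (div_pos hd hK)
  rwa [div_mul_cancel₀ _ hK.ne'] at h5

section G

variable {G : E → E → E → Prop} (hG : ∀ a b c, G a b c → Fct S a b c)
    (hrot : ∀ a b c, G a b c → G b c a) (hadj : ∀ a b c, G a b c → ∃ z, G b a z)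
    (hne : ∃ a b c, G a b c)

include hG hrot hadj hne

lemma G_pos (y : E) (hy : y ≠ 0) : ∃ x ∈ S, 0 < inner ℝ y x := by
  obtain ⟨a, b, c, h, h1, h2, h3⟩ := cover hG hrot hadj hne y
  obtain ⟨ha, hb, hc, hd, -⟩ := hG _ _ _ h
  by_contra hcon
  push Not at hcon
  have e := congrArg (fun z => inner ℝ y z) (basis_exp a b c y)
  simp only [inner_add_right, real_inner_smul_right] at e
  have n1 := mul_nonpos_of_nonneg_of_nonpos h1 (hcon a ha)
  have n2 := mul_nonpos_of_nonneg_of_nonpos h2 (hcon b hb)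
  have n3 := mul_nonpos_of_nonneg_of_nonpos h3 (hcon c hc)
  have h5 : 0 < inner ℝ y y := by
    rw [real_inner_self_eq_norm_sq]
    have := norm_pos_iff.2 hy
    positivity
  have h6 := mul_pos hd h5
  linarith

lemma G_touch {w : E} {k : ℝ} (hk : 0 < k) (hle : ∀ x ∈ S, inner ℝ w x ≤ k) {T : Finset E}
    (hTne : T.Nonempty) (hT : T ⊆ S) (heq : ∀ x ∈ T, inner ℝ w x = k) :
    ∃ a b c, G a b c ∧ ∀ x ∈ T, x = a ∨ x = b ∨ x = c := by
  set z := ∑ x ∈ T, x with hz
  obtain ⟨a, b, c, h, h1, h2, h3⟩ := cover hG hrot hadj hne z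
  have hf := hG _ _ _ h
  obtain ⟨ha, hb, hc, hd, hlt⟩ := id hf
  refine ⟨a, b, c, h, ?_⟩
  have hcard : (0:ℝ) < T.card := by exact_mod_cast Finset.card_pos.2 hTne
  have ew : inner ℝ w z = T.card * k := by
    rw [hz, inner_sum, Finset.sum_congr rfl heq, Finset.sum_const, nsmul_eq_mul]
  have e := basis_exp a b c z
  have e1 := congrArg (fun y => inner ℝ w y) e
  simp only [inner_add_right, real_inner_smul_right] at e1
  rw [ew] at e1
  have n1 := mul_le_mul_of_nonneg_left (hle a ha) h1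
  have n2 := mul_le_mul_of_nonneg_left (hle b hb) h2
  have n3 := mul_le_mul_of_nonneg_left (hle c hc) h3
  have e2 : dt a b c * T.card ≤ dt b c z + dt c a z + dt a b z := by
    have : (dt a b c * T.card) * k ≤ (dt b c z + dt c a z + dt a b z) * k := by linarith
    exact le_of_mul_le_mul_right this hk
  have e3 : inner ℝ (nrm a b c) z = ∑ x ∈ T, inner ℝ (nrm a b c) x := by
    rw [hz, inner_sum]
  have e4 := inr_nrm a b c z
  have e5 : ∑ x ∈ T, dt a b c ≤ ∑ x ∈ T, inner ℝ (nrm a b c) x := by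
    rw [Finset.sum_const, nsmul_eq_mul, ← e3, e4]; linarith
  intro x hx
  by_contra hcon
  push Not at hcon
  have h6 : ∑ x ∈ T, inner ℝ (nrm a b c) x < ∑ x ∈ T, dt a b c := by
    apply Finset.sum_lt_sum
    · intro y hy; exact hf.le (hT hy)
    · exact ⟨x, hx, hlt x (hT hx) hcon.1 hcon.2.1 hcon.2.2⟩
  linarith

lemma G_cfg (hu : ∀ x ∈ S, ‖x‖ = 1) : Cfg S := by
  classical
  refine ⟨hu, G_pos hG hrot hadj hne, ?_⟩
  intro w k T hw hT hle heq
  rcases T.eq_empty_or_nonempty with h | h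
  · rw [h]; simp
  have hk : 0 < k := by
    obtain ⟨x, hx, hx'⟩ := G_pos hG hrot hadj hne w hw
    exact hx'.trans_le (hle x hx)
  obtain ⟨a, b, c, _, h2⟩ := G_touch hG hrot hadj hne hk hle h hT heq
  have hsub : T ⊆ {a, b, c} := by
    intro x hx
    simp only [Finset.mem_insert, Finset.mem_singleton]
    exact h2 x hx
  exact (Finset.card_le_card hsub).trans Finset.card_le_three

lemma G_edg {v w : E} (h : Edg S v w) : ∃ c, G v w c := by
  classical
  obtain ⟨hv, hw, hvw, y, h1, h2, h3⟩ := h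
  have hle : ∀ x ∈ S, inner ℝ y x ≤ 1 := by
    intro x hx
    by_cases e1 : x = v
    · rw [e1, h1]
    by_cases e2 : x = w
    · rw [e2, h2]
    exact (h3 x hx e1 e2).le
  obtain ⟨a, b, c, hg, h4⟩ := G_touch hG hrot hadj hne one_pos hle (T := {v, w})
    ⟨v, Finset.mem_insert_self _ _⟩ (by
      intro x hx
      simp only [Finset.mem_insert, Finset.mem_singleton] at hx
      rcases hx with rfl | rfl
      · exact hv
      · exact hw) (by
      intro x hx
      simp only [Finset.mem_insert, Finset.mem_singleton] at hx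
      rcases hx with rfl | rfl
      · exact h1
      · exact h2)
  have hv' := h4 v (by simp)
  have hw' := h4 w (by simp)
  have r1 := hrot _ _ _ hg
  have r2 := hrot _ _ _ r1
  rcases hv' with rfl | rfl | rfl <;> rcases hw' with rfl | rfl | rfl
  · exact absurd rfl hvw
  · exact ⟨_, hg⟩
  · exact hadj _ _ _ r2
  · exact hadj _ _ _ hg
  · exact absurd rfl hvw
  · exact ⟨_, r1⟩
  · exact ⟨_, r2⟩
  · exact hadj _ _ _ r1
  · exact absurd rfl hvw

end G

lemma dcard_ge {v : E} {A : Finset E} (h : ∀ w ∈ A, Edg S v w) : A.card ≤ dcard S v := by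
  classical
  unfold dcard
  apply Finset.card_le_card_of_surjOn Dart.hd
  intro w hw
  refine ⟨⟨(v, w), h w hw⟩, ?_, rfl⟩
  simp only [Finset.coe_filter, Finset.mem_univ, true_and, Set.mem_ofPred_eq]
  rfl

lemma dcard_le {v : E} {A : Finset E} (h : ∀ w, Edg S v w → w ∈ A) : dcard S v ≤ A.card := by
  classical
  unfold dcard
  apply Finset.card_le_card_of_injOn Dart.hd
  · intro d hd
    simp only [Finset.coe_filter, Finset.mem_univ, true_and, Set.mem_ofPred_eq] at hd
    apply h
    rw [← hd]; exact d.edg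
  · intro d hd e he hde
    simp only [Finset.coe_filter, Finset.mem_univ, true_and, Set.mem_ofPred_eq] at hd he
    exact Dart.ext (hd.trans he.symm) hde

end Med
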