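import Pool.Agent.Helper946.X0

set_option autoImplicit false

namespace Med

noncomputable def Cm (m : ℤ) : ℝ := Real.cos (m * (Real.pi / 6))
noncomputable def Sm (m : ℤ) : ℝ := Real.sin (m * (Real.pi / 6))

lemma Cm_sub (m m' : ℤ) : Cm (m - m') = Cm m * Cm m' + Sm m * Sm m' := by
  unfold Cm Sm; push_cast; rw [sub_mul, Real.cos_sub]

lemma CS_sq (m : ℤ) : Cm m ^ 2 + Sm m ^ 2 = 1 := by
  unfold Cm Sm; exact Real.cos_sq_add_sin_sq _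

lemma Cm_add_one (m : ℤ) : Cm (m + 1) = Real.sqrt 3 / 2 * Cm m - 1 / 2 * Sm m := by
  unfold Cm Sm; push_cast
  rw [add_mul, one_mul, Real.cos_add, Real.cos_pi_div_six, Real.sin_pi_div_six]; ring

lemma Cm_sub_one (m : ℤ) : Cm (m - 1) = Real.sqrt 3 / 2 * Cm m + 1 / 2 * Sm m := by
  unfold Cm Sm; push_cast
  rw [sub_mul, one_mul, Real.cos_sub, Real.cos_pi_div_six, Real.sin_pi_div_six]; ring

lemma Sm_add_one (m : ℤ) : Sm (m + 1) = Real.sqrt 3 / 2 * Sm m + 1 / 2 * Cm m := by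
  unfold Cm Sm; push_cast
  rw [add_mul, one_mul, Real.sin_add, Real.cos_pi_div_six, Real.sin_pi_div_six]; ring

lemma Sm_sub_one (m : ℤ) : Sm (m - 1) = Real.sqrt 3 / 2 * Sm m - 1 / 2 * Cm m := by
  unfold Cm Sm; push_cast
  rw [sub_mul, one_mul, Real.sin_sub, Real.cos_pi_div_six, Real.sin_pi_div_six]; ring

lemma CS_period {m m' : ℤ} (h : (12:ℤ) ∣ m - m') : Cm m = Cm m' ∧ Sm m = Sm m' := by
  obtain ⟨k, hk⟩ := h
  have e : (m : ℝ) * (Real.pi / 6) = m' * (Real.pi / 6) + k * (2 * Real.pi) := by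
    have : (m:ℝ) = m' + 12 * k := by
      have : m = m' + 12 * k := by omega
      exact_mod_cast this
    rw [this]; ring
  unfold Cm Sm
  rw [e]
  exact ⟨Real.cos_add_int_mul_two_pi _ _, Real.sin_add_int_mul_two_pi _ _⟩

lemma Cm_zero : Cm 0 = 1 := by unfold Cm; simp
lemma Sm_zero : Sm 0 = 0 := by unfold Sm; simp

lemma CS_table : (Cm 1 = Real.sqrt 3 / 2 ∧ Sm 1 = 1 / 2) ∧ (Cm 2 = 1 / 2 ∧ Sm 2 = Real.sqrt 3 / 2) ∧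
    (Cm 3 = 0 ∧ Sm 3 = 1) ∧ (Cm 4 = -1 / 2 ∧ Sm 4 = Real.sqrt 3 / 2) ∧
    (Cm 5 = - (Real.sqrt 3 / 2) ∧ Sm 5 = 1 / 2) ∧ (Cm 6 = -1 ∧ Sm 6 = 0) ∧
    (Cm 7 = - (Real.sqrt 3 / 2) ∧ Sm 7 = -1 / 2) ∧
    (Cm 8 = -1 / 2 ∧ Sm 8 = - (Real.sqrt 3 / 2)) ∧ (Cm 9 = 0 ∧ Sm 9 = -1) ∧
    (Cm 10 = 1 / 2 ∧ Sm 10 = - (Real.sqrt 3 / 2)) ∧ (Cm 11 = Real.sqrt 3 / 2) := by
  have h3 : Real.sqrt 3 * Real.sqrt 3 = 3 := Real.mul_self_sqrt (by norm_num)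
  have step : ∀ m : ℤ, ∀ c s : ℝ, Cm m = c → Sm m = s →
      Cm (m + 1) = Real.sqrt 3 / 2 * c - 1 / 2 * s ∧ Sm (m + 1) = Real.sqrt 3 / 2 * s + 1 / 2 * c := by
    intro m c s h1 h2
    rw [Cm_add_one, Sm_add_one, h1, h2]; exact ⟨rfl, rfl⟩
  have a1 : Cm 1 = Real.sqrt 3 / 2 ∧ Sm 1 = 1 / 2 := by
    have h := step 0 1 0 Cm_zero Sm_zero
    norm_num at h ⊢; exact h
  have a2 : Cm 2 = 1 / 2 ∧ Sm 2 = Real.sqrt 3 / 2 := by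
    have h := step 1 _ _ a1.1 a1.2
    norm_num at h ⊢
    refine ⟨by rw [h.1]; linarith, by rw [h.2]; ring⟩
  have a3 : Cm 3 = 0 ∧ Sm 3 = 1 := by
    have h := step 2 _ _ a2.1 a2.2
    norm_num at h ⊢
    refine ⟨by rw [h.1]; ring, by rw [h.2]; linarith⟩
  have a4 : Cm 4 = -1 / 2 ∧ Sm 4 = Real.sqrt 3 / 2 := by
    have h := step 3 _ _ a3.1 a3.2
    norm_num at h ⊢; exact h
  have a5 : Cm 5 = - (Real.sqrt 3 / 2) ∧ Sm 5 = 1 / 2 := by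
    have h := step 4 _ _ a4.1 a4.2
    norm_num at h ⊢
    refine ⟨by rw [h.1]; ring, by rw [h.2]; linarith⟩
  have a6 : Cm 6 = -1 ∧ Sm 6 = 0 := by
    have h := step 5 _ _ a5.1 a5.2
    norm_num at h ⊢
    refine ⟨by rw [h.1]; linarith, by rw [h.2]; ring⟩
  have a7 : Cm 7 = - (Real.sqrt 3 / 2) ∧ Sm 7 = -1 / 2 := by
    have h := step 6 _ _ a6.1 a6.2
    norm_num at h ⊢; exact h
  have a8 : Cm 8 = -1 / 2 ∧ Sm 8 = - (Real.sqrt 3 / 2) := by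
    have h := step 7 _ _ a7.1 a7.2
    norm_num at h ⊢
    refine ⟨by rw [h.1]; linarith, by rw [h.2]; ring⟩
  have a9 : Cm 9 = 0 ∧ Sm 9 = -1 := by
    have h := step 8 _ _ a8.1 a8.2
    norm_num at h ⊢
    refine ⟨by rw [h.1]; ring, by rw [h.2]; linarith⟩
  have a10 : Cm 10 = 1 / 2 ∧ Sm 10 = - (Real.sqrt 3 / 2) := by
    have h := step 9 _ _ a9.1 a9.2
    norm_num at h ⊢; exact h
  have a11 : Cm 11 = Real.sqrt 3 / 2 := by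
    have h := step 10 _ _ a10.1 a10.2
    norm_num at h ⊢
    rw [h.1]; ring
  exact ⟨a1, a2, a3, a4, a5, a6, a7, a8, a9, a10, a11⟩

lemma Cm_mod (d : ℤ) : Cm d = Cm (d % 12) :=
  (CS_period (by omega)).1

lemma Cm_even {d : ℤ} (h : d % 2 = 0) : (Cm d = 1 ∧ (12:ℤ) ∣ d) ∨ Cm d ≤ 1 / 2 := by
  obtain ⟨a1, a2, a3, a4, a5, a6, a7, a8, a9, a10, a11⟩ := CS_table
  have hc : d % 12 = 0 ∨ d % 12 = 2 ∨ d % 12 = 4 ∨ d % 12 = 6 ∨ d % 12 = 8 ∨ d % 12 = 10 := by omega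
  rw [Cm_mod]
  rcases hc with h | h | h | h | h | h
  · left; rw [h]; exact ⟨Cm_zero, Int.dvd_of_emod_eq_zero h⟩
  · right; rw [h, a2.1]
  · right; rw [h, a4.1]; norm_num
  · right; rw [h, a6.1]; norm_num
  · right; rw [h, a8.1]; norm_num
  · right; rw [h, a10.1]

lemma Cm_odd {d : ℤ} (h : d % 2 = 1) :
    (Cm d = Real.sqrt 3 / 2 ∧ ((12:ℤ) ∣ d - 1 ∨ (12:ℤ) ∣ d + 1)) ∨ Cm d ≤ 0 := by
  obtain ⟨a1, a2, a3, a4, a5, a6, a7, a8, a9, a10, a11⟩ := CS_table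
  have hs : 0 < Real.sqrt 3 := Real.sqrt_pos.2 (by norm_num)
  have hc : d % 12 = 1 ∨ d % 12 = 3 ∨ d % 12 = 5 ∨ d % 12 = 7 ∨ d % 12 = 9 ∨ d % 12 = 11 := by omega
  rw [Cm_mod]
  rcases hc with h | h | h | h | h | h
  · left; rw [h]; exact ⟨a1.1, Or.inl (by omega)⟩
  · right; rw [h, a3.1]
  · right; rw [h, a5.1]; linarith
  · right; rw [h, a7.1]; linarith
  · right; rw [h, a9.1]
  · left; rw [h]; exact ⟨a11, Or.inr (by omega)⟩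

lemma Cm_le_one (d : ℤ) : Cm d ≤ 1 := Real.cos_le_one _

end Med
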