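import Pool.Agent.Helper946.X1

set_option autoImplicit false

namespace Med

noncomputable def rr (i : ℤ) : ℝ := (2:ℝ) ^ i

lemma rr_pos (i : ℤ) : 0 < rr i := by unfold rr; positivity
lemma rr_succ (i : ℤ) : rr (i + 1) = 2 * rr i := by
  unfold rr; rw [zpow_add_one₀ (by norm_num)]; ring
lemma rr_mono {i j : ℤ} (h : i ≤ j) : rr i ≤ rr j := by
  unfold rr; exact zpow_le_zpow_right₀ (by norm_num) h
lemma rr_inj {i j : ℤ} (h : rr i = rr j) : i = j := by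
  unfold rr at h
  exact zpow_right_injective₀ (by norm_num) (by norm_num) h

noncomputable def Vt (ρ c s : ℝ) : E := !₂[2 * ρ * c, 2 * ρ * s, ρ ^ 2 - 1]
noncomputable def Pt (i m : ℤ) : E := (rr i ^ 2 + 1)⁻¹ • Vt (rr i) (Cm m) (Sm m)
noncomputable def Os : E := !₂[0, 0, -1]
noncomputable def Ns : E := !₂[0, 0, 1]
noncomputable def PP (r i m : ℤ) : E := if i ≤ 0 then Os else if r < i then Ns else Pt i m
noncomputable def Wf (α β γ : ℝ) (m : ℤ) : E := !₂[2 * β * Cm m, 2 * β * Sm m, γ - α]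

lemma Vt_ap (ρ c s : ℝ) : Vt ρ c s 0 = 2 * ρ * c ∧ Vt ρ c s 1 = 2 * ρ * s ∧ Vt ρ c s 2 = ρ ^ 2 - 1 :=
  ⟨rfl, rfl, rfl⟩
lemma Os_ap : Os 0 = 0 ∧ Os 1 = 0 ∧ Os 2 = -1 := ⟨rfl, rfl, rfl⟩
lemma Ns_ap : Ns 0 = 0 ∧ Ns 1 = 0 ∧ Ns 2 = 1 := ⟨rfl, rfl, rfl⟩
lemma Wf_ap (α β γ : ℝ) (m : ℤ) : Wf α β γ m 0 = 2 * β * Cm m ∧ Wf α β γ m 1 = 2 * β * Sm m ∧
    Wf α β γ m 2 = γ - α := ⟨rfl, rfl, rfl⟩
lemma Pt_ap (i m : ℤ) : Pt i m 0 = (rr i ^ 2 + 1)⁻¹ * (2 * rr i * Cm m) ∧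
    Pt i m 1 = (rr i ^ 2 + 1)⁻¹ * (2 * rr i * Sm m) ∧
    Pt i m 2 = (rr i ^ 2 + 1)⁻¹ * (rr i ^ 2 - 1) := ⟨rfl, rfl, rfl⟩

lemma Wf_Pt (α β γ : ℝ) (m i m' : ℤ) : inner ℝ (Wf α β γ m) (Pt i m') =
    (α + γ) - 2 * (α * rr i ^ 2 - 2 * β * rr i * Cm (m' - m) + γ) / (rr i ^ 2 + 1) := by
  obtain ⟨w0, w1, w2⟩ := Wf_ap α β γ m
  obtain ⟨p0, p1, p2⟩ := Pt_ap i m'
  rw [inr, w0, w1, w2, p0, p1, p2, Cm_sub]
  have : rr i ^ 2 + 1 ≠ 0 := by positivity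
  field_simp; ring

lemma Wf_Os (α β γ : ℝ) (m : ℤ) : inner ℝ (Wf α β γ m) Os = (α + γ) - 2 * γ := by
  obtain ⟨w0, w1, w2⟩ := Wf_ap α β γ m
  obtain ⟨p0, p1, p2⟩ := Os_ap
  rw [inr, w0, w1, w2, p0, p1, p2]; ring

lemma Wf_Ns (α β γ : ℝ) (m : ℤ) : inner ℝ (Wf α β γ m) Ns = (α + γ) - 2 * α := by
  obtain ⟨w0, w1, w2⟩ := Wf_ap α β γ m
  obtain ⟨p0, p1, p2⟩ := Ns_ap
  rw [inr, w0, w1, w2, p0, p1, p2]; ring

lemma Pt_unit (i m : ℤ) : ‖Pt i m‖ = 1 := by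
  have h : ‖Pt i m‖ ^ 2 = 1 := by
    obtain ⟨p0, p1, p2⟩ := Pt_ap i m
    rw [nsq, p0, p1, p2]
    have h1 := CS_sq m
    have : rr i ^ 2 + 1 ≠ 0 := by positivity
    field_simp
    linear_combination (4 * rr i ^ 2) * h1
  have := norm_nonneg (Pt i m)
  nlinarith

lemma Os_unit : ‖Os‖ = 1 := by
  have h : ‖Os‖ ^ 2 = 1 := by
    obtain ⟨p0, p1, p2⟩ := Os_ap
    rw [nsq, p0, p1, p2]; norm_num
  have := norm_nonneg Os
  nlinarith

lemma Ns_unit : ‖Ns‖ = 1 := by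
  have h : ‖Ns‖ ^ 2 = 1 := by
    obtain ⟨p0, p1, p2⟩ := Ns_ap
    rw [nsq, p0, p1, p2]; norm_num
  have := norm_nonneg Ns
  nlinarith

lemma Pt_period {i m m' : ℤ} (h : (12:ℤ) ∣ m - m') : Pt i m = Pt i m' := by
  obtain ⟨h1, h2⟩ := CS_period h
  unfold Pt; rw [h1, h2]

lemma Pt_level {i m i' m' : ℤ} (h : Pt i m = Pt i' m') : i = i' := by
  have h2 := congrArg (fun x : E => x 2) h
  simp only [(Pt_ap _ _).2.2] at h2
  have p1 := rr_pos i
  have p2 := rr_pos i'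
  have q1 : rr i ^ 2 + 1 ≠ 0 := by positivity
  have q2 : rr i' ^ 2 + 1 ≠ 0 := by positivity
  field_simp at h2
  have h3 : rr i ^ 2 = rr i' ^ 2 := by linarith
  have h4 : rr i = rr i' := (sq_eq_sq₀ p1.le p2.le).1 h3
  exact rr_inj h4

lemma Pt_inj {i m i' m' : ℤ} (hm : (m - i) % 2 = 0) (hm' : (m' - i') % 2 = 0)
    (h : Pt i m = Pt i' m') : i = i' ∧ (12:ℤ) ∣ m - m' := by
  have hi := Pt_level h
  subst hi
  refine ⟨rfl, ?_⟩
  have h0 := congrArg (fun x : E => x 0) h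
  have h1 := congrArg (fun x : E => x 1) h
  simp only [(Pt_ap _ _).1] at h0
  simp only [(Pt_ap _ _).2.1] at h1
  have p1 := rr_pos i
  have q1 : (rr i ^ 2 + 1)⁻¹ ≠ 0 := by positivity
  have e0 : Cm m = Cm m' := by
    have := mul_left_cancel₀ q1 h0
    exact mul_left_cancel₀ (by positivity) this
  have e1 : Sm m = Sm m' := by
    have := mul_left_cancel₀ q1 h1
    exact mul_left_cancel₀ (by positivity) this
  have e2 : Cm (m - m') = 1 := by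
    rw [Cm_sub, e0, e1]
    have := CS_sq m'
    linarith
  rcases Cm_even (d := m - m') (by omega) with h3 | h3
  · exact h3.2
  · rw [e2] at h3; norm_num at h3

lemma Pt_height (i m : ℤ) : -1 < Pt i m 2 ∧ Pt i m 2 < 1 := by
  rw [(Pt_ap _ _).2.2]
  have p1 := rr_pos i
  have q1 : 0 < rr i ^ 2 + 1 := by positivity
  rw [inv_mul_eq_div, lt_div_iff₀ q1, div_lt_iff₀ q1]
  constructor <;> nlinarith

lemma Pt_ne_Os (i m : ℤ) : Pt i m ≠ Os := by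
  intro h
  have h2 := congrArg (fun x : E => x 2) h
  simp only [Os_ap.2.2] at h2
  have := (Pt_height i m).1
  linarith

lemma Pt_ne_Ns (i m : ℤ) : Pt i m ≠ Ns := by
  intro h
  have h2 := congrArg (fun x : E => x 2) h
  simp only [Ns_ap.2.2] at h2
  have := (Pt_height i m).2
  linarith

lemma Os_ne_Ns : Os ≠ Ns := by
  intro h
  have h2 := congrArg (fun x : E => x 2) h
  simp only [Ns_ap.2.2, Os_ap.2.2] at h2
  norm_num at h2

noncomputable def Sr (r : ℤ) : Finset E := by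
  classical
  exact insert Os (insert Ns (((Finset.Icc 1 r) ×ˢ (Finset.range 6)).image
    (fun p : ℤ × ℕ => Pt p.1 (p.1 + 2 * p.2))))

lemma mem_Sr {r : ℤ} {x : E} : x ∈ Sr r ↔ x = Os ∨ x = Ns ∨
    ∃ i m : ℤ, 1 ≤ i ∧ i ≤ r ∧ (m - i) % 2 = 0 ∧ x = Pt i m := by
  classical
  unfold Sr
  rw [Finset.mem_insert, Finset.mem_insert, Finset.mem_image]
  constructor
  · rintro (h | h | ⟨⟨i, j⟩, h1, h2⟩)
    · exact Or.inl h
    · exact Or.inr (Or.inl h)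
    · rw [Finset.mem_product, Finset.mem_Icc] at h1
      exact Or.inr (Or.inr ⟨i, i + 2 * j, h1.1.1, h1.1.2, by simp only at *; omega, h2.symm⟩)
  · rintro (h | h | ⟨i, m, h1, h2, h3, h4⟩)
    · exact Or.inl h
    · exact Or.inr (Or.inl h)
    · refine Or.inr (Or.inr ⟨(i, (((m - i) / 2) % 6).toNat), ?_, ?_⟩)
      · rw [Finset.mem_product, Finset.mem_Icc, Finset.mem_range]
        refine ⟨⟨h1, h2⟩, ?_⟩
        simp only
        omega
      · rw [h4]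
        apply Pt_period
        simp only
        rw [Int.toNat_of_nonneg (by omega)]
        omega

lemma Sr_card (r : ℕ) : (Sr r).card = 6 * r + 2 := by
  classical
  unfold Sr
  rw [Finset.card_insert_of_notMem, Finset.card_insert_of_notMem, Finset.card_image_of_injOn]
  · rw [Finset.card_product, Int.card_Icc, Finset.card_range]; omega
  · rintro ⟨i, j⟩ h ⟨i', j'⟩ h' heq
    simp only [Finset.coe_product, Set.mem_prod, Finset.mem_coe, Finset.mem_range] at h h'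
    obtain ⟨h1, h2⟩ := Pt_inj (by simp only; omega) (by simp only; omega) heq
    simp only at h1 h2
    subst h1
    refine Prod.ext rfl ?_
    simp only
    omega
  · intro h
    rw [Finset.mem_image] at h
    obtain ⟨p, -, h2⟩ := h
    exact Pt_ne_Ns _ _ h2
  · intro h
    rw [Finset.mem_insert, Finset.mem_image] at h
    rcases h with h | ⟨p, -, h2⟩
    · exact Os_ne_Ns h
    · exact Pt_ne_Os _ _ h2

lemma Sr_unit {r : ℤ} : ∀ x ∈ Sr r, ‖x‖ = 1 := by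
  intro x hx
  rw [mem_Sr] at hx
  rcases hx with rfl | rfl | ⟨i, m, _, _, _, rfl⟩
  · exact Os_unit
  · exact Ns_unit
  · exact Pt_unit _ _

end Med
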