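import Pool.Agent.Helper946.X2

set_option autoImplicit false

namespace Med

lemma Wf_eq {α β γ : ℝ} {m i m' : ℤ} (h : α * rr i ^ 2 - 2 * β * rr i * Cm (m' - m) + γ = 0) :
    inner ℝ (Wf α β γ m) (Pt i m') = α + γ := by
  rw [Wf_Pt, h]; simp

lemma fct_gen {r : ℤ} {α β γ : ℝ} {m : ℤ} {a b c : E} (hK : 0 < α + γ)
    (ha : a ∈ Sr r) (hb : b ∈ Sr r) (hc : c ∈ Sr r) (hd : 0 < dt a b c)
    (wa : inner ℝ (Wf α β γ m) a = α + γ) (wb : inner ℝ (Wf α β γ m) b = α + γ)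
    (wc : inner ℝ (Wf α β γ m) c = α + γ)
    (hO : c = Os ∨ 0 < γ) (hN : c = Ns ∨ 0 < α)
    (hP : ∀ i' m', 1 ≤ i' → i' ≤ r → (m' - i') % 2 = 0 →
      (Pt i' m' = a ∨ Pt i' m' = b ∨ Pt i' m' = c) ∨
      0 < α * rr i' ^ 2 - 2 * β * rr i' * Cm (m' - m) + γ) : Fct (Sr r) a b c := by
  refine fct_of_strict hK ha hb hc hd wa wb wc ?_
  intro x hx h1 h2 h3
  rw [mem_Sr] at hx
  rcases hx with rfl | rfl | ⟨i', m', g1, g2, g3, rfl⟩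
  · rcases hO with h | h
    · exact absurd h.symm h3
    · rw [Wf_Os]; linarith
  · rcases hN with h | h
    · exact absurd h.symm h3
    · rw [Wf_Ns]; linarith
  · rcases hP i' m' g1 g2 g3 with (h | h | h) | h
    · exact absurd h h1
    · exact absurd h h2
    · exact absurd h h3
    · rw [Wf_Pt]
      have : 0 < 2 * (α * rr i' ^ 2 - 2 * β * rr i' * Cm (m' - m) + γ) / (rr i' ^ 2 + 1) := by
        positivity
      linarith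

lemma sqrt3_num : 1.732 < Real.sqrt 3 ∧ Real.sqrt 3 < 1.7321 := by
  constructor
  · apply Real.lt_sqrt_of_sq_lt; norm_num
  · rw [Real.sqrt_lt' (by norm_num)]; norm_num

lemma Cm_neg_one : Cm (-1) = Real.sqrt 3 / 2 := by
  have := Cm_sub_one 0
  rw [Cm_zero, Sm_zero] at this
  norm_num at this ⊢; exact this

lemma Cm_one : Cm 1 = Real.sqrt 3 / 2 := CS_table.1.1

lemma dt_Pt (i j k : ℤ) (m m' m'' : ℤ) : dt (Pt i m) (Pt j m') (Pt k m'') =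
    (rr i ^ 2 + 1)⁻¹ * (rr j ^ 2 + 1)⁻¹ * (rr k ^ 2 + 1)⁻¹ *
      dt (Vt (rr i) (Cm m) (Sm m)) (Vt (rr j) (Cm m') (Sm m')) (Vt (rr k) (Cm m'') (Sm m'')) := by
  unfold Pt; simp [dt]; ring

lemma dt_U (i m : ℤ) : 0 < dt (Pt i (m - 1)) (Pt i (m + 1)) (Pt (i + 1) m) := by
  rw [dt_Pt]
  have hρ := rr_pos i
  have h1 := CS_sq m
  obtain ⟨s1, s2⟩ := sqrt3_num
  rw [Cm_add_one, Cm_sub_one, Sm_add_one, Sm_sub_one, rr_succ]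
  have e : dt (Vt (rr i) (Real.sqrt 3 / 2 * Cm m + 1 / 2 * Sm m)
      (Real.sqrt 3 / 2 * Sm m - 1 / 2 * Cm m)) (Vt (rr i) (Real.sqrt 3 / 2 * Cm m - 1 / 2 * Sm m)
      (Real.sqrt 3 / 2 * Sm m + 1 / 2 * Cm m)) (Vt (2 * rr i) (Cm m) (Sm m))
      = 2 * rr i ^ 2 * (4 * (Real.sqrt 3 - 1) * rr i ^ 2 + 4 - Real.sqrt 3)
        * (Cm m ^ 2 + Sm m ^ 2) := by
    simp only [dt, (Vt_ap _ _ _).1, (Vt_ap _ _ _).2.1, (Vt_ap _ _ _).2.2]; ring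
  rw [e, h1]
  have h2 : 0 < 4 * (Real.sqrt 3 - 1) * rr i ^ 2 + 4 - Real.sqrt 3 := by
    have : 0 < (Real.sqrt 3 - 1) * rr i ^ 2 := mul_pos (by linarith) (by positivity)
    linarith
  positivity

lemma dt_D (i m : ℤ) : 0 < dt (Pt (i + 1) (m + 1)) (Pt (i + 1) (m - 1)) (Pt i m) := by
  rw [dt_Pt]
  have hρ := rr_pos i
  have h1 := CS_sq m
  obtain ⟨s1, s2⟩ := sqrt3_num
  rw [Cm_add_one, Cm_sub_one, Sm_add_one, Sm_sub_one, rr_succ]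
  have e : dt (Vt (2 * rr i) (Real.sqrt 3 / 2 * Cm m - 1 / 2 * Sm m)
      (Real.sqrt 3 / 2 * Sm m + 1 / 2 * Cm m)) (Vt (2 * rr i)
      (Real.sqrt 3 / 2 * Cm m + 1 / 2 * Sm m)
      (Real.sqrt 3 / 2 * Sm m - 1 / 2 * Cm m)) (Vt (rr i) (Cm m) (Sm m))
      = 8 * rr i ^ 2 * ((4 - Real.sqrt 3) * rr i ^ 2 + Real.sqrt 3 - 1)
        * (Cm m ^ 2 + Sm m ^ 2) := by
    simp only [dt, (Vt_ap _ _ _).1, (Vt_ap _ _ _).2.1, (Vt_ap _ _ _).2.2]; ring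
  rw [e, h1]
  have h2 : 0 < (4 - Real.sqrt 3) * rr i ^ 2 + Real.sqrt 3 - 1 := by
    have : 0 < (4 - Real.sqrt 3) * rr i ^ 2 := mul_pos (by linarith) (by positivity)
    linarith
  positivity

lemma dt_B (i m : ℤ) : 0 < dt (Pt i (m + 1)) (Pt i (m - 1)) Os := by
  have hρ := rr_pos i
  have h1 := CS_sq m
  obtain ⟨s1, s2⟩ := sqrt3_num
  have e : dt (Pt i (m + 1)) (Pt i (m - 1)) Os = (rr i ^ 2 + 1)⁻¹ * (rr i ^ 2 + 1)⁻¹ *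
      (2 * Real.sqrt 3 * rr i ^ 2) * (Cm m ^ 2 + Sm m ^ 2) := by
    simp only [dt, (Pt_ap _ _).1, (Pt_ap _ _).2.1, (Pt_ap _ _).2.2, Os_ap.1, Os_ap.2.1, Os_ap.2.2]
    rw [Cm_add_one, Cm_sub_one, Sm_add_one, Sm_sub_one]
    ring
  rw [e, h1]
  positivity

lemma dt_N (i m : ℤ) : 0 < dt (Pt i (m - 1)) (Pt i (m + 1)) Ns := by
  have hρ := rr_pos i
  have h1 := CS_sq m
  obtain ⟨s1, s2⟩ := sqrt3_num
  have e : dt (Pt i (m - 1)) (Pt i (m + 1)) Ns = (rr i ^ 2 + 1)⁻¹ * (rr i ^ 2 + 1)⁻¹ *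
      (2 * Real.sqrt 3 * rr i ^ 2) * (Cm m ^ 2 + Sm m ^ 2) := by
    simp only [dt, (Pt_ap _ _).1, (Pt_ap _ _).2.1, (Pt_ap _ _).2.2, Ns_ap.1, Ns_ap.2.1, Ns_ap.2.2]
    rw [Cm_add_one, Cm_sub_one, Sm_add_one, Sm_sub_one]
    ring
  rw [e, h1]
  positivity

/-- real inequality for U facets -/
lemma U_real {κ ρ ρ' C : ℝ} (hk1 : 1.32 < κ) (hk2 : κ < 1.33) (hρ : 0 < ρ) (hρ' : 0 < ρ')
    (hC : C ≤ 1) : (4 * ρ' ≤ ρ → 0 < ρ' ^ 2 - 2 * (κ * ρ) * ρ' * C + (4 * κ - 4) * ρ ^ 2) ∧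
    (ρ = 2 * ρ' → 0 < ρ' ^ 2 - 2 * (κ * ρ) * ρ' * C + (4 * κ - 4) * ρ ^ 2) ∧
    (4 * ρ ≤ ρ' → 0 < ρ' ^ 2 - 2 * (κ * ρ) * ρ' * C + (4 * κ - 4) * ρ ^ 2) := by
  have hk0 : 0 < κ := by linarith
  have h1 : 2 * (κ * ρ) * ρ' * C ≤ 2 * (κ * ρ) * ρ' * 1 :=
    mul_le_mul_of_nonneg_left hC (by positivity)
  refine ⟨fun h => ?_, fun h => ?_, fun h => ?_⟩
  · have h2 : 2 * (κ * ρ) * ρ' ≤ κ * ρ ^ 2 / 2 := by
      have : κ * ρ * (4 * ρ') ≤ κ * ρ * ρ := mul_le_mul_of_nonneg_left h (by positivity)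
      nlinarith
    have h3 : 0 < (7 / 2 * κ - 4) * ρ ^ 2 := mul_pos (by linarith) (by positivity)
    have h4 : 0 < ρ' ^ 2 := by positivity
    nlinarith
  · subst h
    have h3 : 0 < (12 * κ - 15) * ρ' ^ 2 := mul_pos (by linarith) (by positivity)
    nlinarith
  · have h2 : 0 < ρ' * (ρ' - 2 * κ * ρ) := by
      apply mul_pos hρ'
      have : 2 * κ * ρ < 4 * ρ := mul_lt_mul_of_pos_right (by linarith) hρ
      linarith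
    have h3 : 0 < (4 * κ - 4) * ρ ^ 2 := mul_pos (by linarith) (by positivity)
    nlinarith

/-- real inequality for D facets -/
lemma D_real {κ ρ ρ' C : ℝ} (hk1 : 2.04 < κ) (hk2 : κ < 2.05) (hρ : 0 < ρ) (hρ' : 0 < ρ')
    (hC : C ≤ 1) : (2 * ρ' ≤ ρ → 0 < ρ' ^ 2 - 2 * (κ * ρ) * ρ' * C + (2 * κ - 1) * ρ ^ 2) ∧
    (4 * ρ ≤ ρ' → 0 < ρ' ^ 2 - 2 * (κ * ρ) * ρ' * C + (2 * κ - 1) * ρ ^ 2) := by
  have hk0 : 0 < κ := by linarith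
  have h1 : 2 * (κ * ρ) * ρ' * C ≤ 2 * (κ * ρ) * ρ' * 1 :=
    mul_le_mul_of_nonneg_left hC (by positivity)
  refine ⟨fun h => ?_, fun h => ?_⟩
  · have h2 : 2 * (κ * ρ) * ρ' ≤ κ * ρ ^ 2 := by
      have : κ * ρ * (2 * ρ') ≤ κ * ρ * ρ := mul_le_mul_of_nonneg_left h (by positivity)
      nlinarith
    have h3 : 0 < (κ - 1) * ρ ^ 2 := mul_pos (by linarith) (by positivity)
    have h4 : 0 < ρ' ^ 2 := by positivity
    nlinarith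
  · have h2 : 0 ≤ (ρ' - 4 * ρ) * (ρ' + 4 * ρ - 2 * κ * ρ) := by
      apply mul_nonneg (by linarith)
      have : 2 * κ * ρ < 5 * ρ := mul_lt_mul_of_pos_right (by linarith) hρ
      linarith
    have h3 : 0 < (15 - 6 * κ) * ρ ^ 2 := mul_pos (by linarith) (by positivity)
    nlinarith

end Med
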