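import Pool.Agent.Helper946.X3

set_option autoImplicit false

namespace Med

lemma mem_Sr_Pt {r i m : ℤ} (h1 : 1 ≤ i) (h2 : i ≤ r) (h : (m - i) % 2 = 0) : Pt i m ∈ Sr r :=
  mem_Sr.2 (Or.inr (Or.inr ⟨i, m, h1, h2, h, rfl⟩))
lemma mem_Sr_Os {r : ℤ} : Os ∈ Sr r := mem_Sr.2 (Or.inl rfl)
lemma mem_Sr_Ns {r : ℤ} : Ns ∈ Sr r := mem_Sr.2 (Or.inr (Or.inl rfl))

lemma fct_U {r i m : ℤ} (h1 : 1 ≤ i) (h2 : i < r) (h : (m - i) % 2 = 1) :
    Fct (Sr r) (Pt i (m - 1)) (Pt i (m + 1)) (Pt (i + 1) m) := by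
  obtain ⟨s1, s2⟩ := sqrt3_num
  have s3 : Real.sqrt 3 ^ 2 = 3 := Real.sq_sqrt (by norm_num)
  obtain ⟨κ, hκ⟩ : ∃ κ, κ = 3 / (4 - Real.sqrt 3) := ⟨_, rfl⟩
  have hpos : 0 < 4 - Real.sqrt 3 := by linarith
  have hκe : (4 - Real.sqrt 3) * κ = 3 := by rw [hκ, mul_div_cancel₀ _ hpos.ne']
  have hk1 : 1.32 < κ := by rw [hκ, lt_div_iff₀ hpos]; linarith
  have hk2 : κ < 1.33 := by rw [hκ, div_lt_iff₀ hpos]; linarith
  have hρ := rr_pos i
  have hγ : 0 < (4 * κ - 4) * rr i ^ 2 := mul_pos (by linarith) (by positivity)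
  have hm1 : m - 1 - m = -1 := by ring
  have hm2 : m + 1 - m = 1 := by ring
  refine fct_gen (α := 1) (β := κ * rr i) (γ := (4 * κ - 4) * rr i ^ 2) (m := m) (by linarith)
    (mem_Sr_Pt h1 h2.le (by omega)) (mem_Sr_Pt h1 h2.le (by omega))
    (mem_Sr_Pt (by omega) (by omega) (by omega)) (dt_U i m) ?_ ?_ ?_ (Or.inr hγ)
    (Or.inr one_pos) ?_
  · apply Wf_eq; rw [hm1, Cm_neg_one]
    linear_combination rr i ^ 2 * hκe
  · apply Wf_eq; rw [hm2, Cm_one]
    linear_combination rr i ^ 2 * hκe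
  · apply Wf_eq; rw [sub_self, Cm_zero, rr_succ]
    ring
  · intro i' m' g1 g2 g3
    have hρ' := rr_pos i'
    obtain ⟨u1, u2, u3⟩ := U_real hk1 hk2 hρ hρ' (Cm_le_one (m' - m))
    rcases lt_trichotomy i' i with hlt | heq | hgt
    · rcases eq_or_lt_of_le (Int.le_sub_one_of_lt hlt) with e | e
      · right
        have : rr i = 2 * rr i' := by rw [← rr_succ]; congr 1; omega
        have := u2 this
        linarith
      · right
        have h5 : rr (i' + 1 + 1) ≤ rr i := rr_mono (by omega)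
        rw [rr_succ, rr_succ] at h5
        have := u1 (by linarith)
        linarith
    · subst heq
      rcases Cm_odd (d := m' - m) (by omega) with ⟨_, h5 | h5⟩ | h5
      · left; right; left
        exact Pt_period (by obtain ⟨t, ht⟩ := h5; exact ⟨t, by linarith⟩)
      · left; left
        exact Pt_period (by obtain ⟨t, ht⟩ := h5; exact ⟨t, by linarith⟩)
      · right
        have h6 : κ * rr i' * rr i' * Cm (m' - m) ≤ 0 :=
          mul_nonpos_of_nonneg_of_nonpos (by positivity) h5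
        have h7 : 0 < rr i' ^ 2 := by positivity
        nlinarith
    · rcases eq_or_lt_of_le (Int.add_one_le_of_lt hgt) with e | e
      · subst e
        rcases Cm_even (d := m' - m) (by omega) with ⟨_, h5⟩ | h5
        · left; right; right
          exact Pt_period h5
        · right
          rw [rr_succ]
          have h6 : κ * rr i * (2 * rr i) * Cm (m' - m) ≤ κ * rr i * (2 * rr i) * (1 / 2) :=
            mul_le_mul_of_nonneg_left h5 (by positivity)
          have h7 : 0 < κ * rr i ^ 2 := by positivity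
          nlinarith
      · right
        have h5 : rr (i + 1 + 1) ≤ rr i' := rr_mono (by omega)
        rw [rr_succ, rr_succ] at h5
        have := u3 (by linarith)
        linarith

lemma fct_D {r i m : ℤ} (h1 : 1 ≤ i) (h2 : i < r) (h : (m - i) % 2 = 0) :
    Fct (Sr r) (Pt (i + 1) (m + 1)) (Pt (i + 1) (m - 1)) (Pt i m) := by
  obtain ⟨s1, s2⟩ := sqrt3_num
  have s3 : Real.sqrt 3 ^ 2 = 3 := Real.sq_sqrt (by norm_num)
  obtain ⟨κ, hκ⟩ : ∃ κ, κ = 3 / (2 * Real.sqrt 3 - 2) := ⟨_, rfl⟩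
  have hpos : 0 < 2 * Real.sqrt 3 - 2 := by linarith
  have hκe : (2 * Real.sqrt 3 - 2) * κ = 3 := by rw [hκ, mul_div_cancel₀ _ hpos.ne']
  have hk1 : 2.04 < κ := by rw [hκ, lt_div_iff₀ hpos]; linarith
  have hk2 : κ < 2.05 := by rw [hκ, div_lt_iff₀ hpos]; linarith
  have hρ := rr_pos i
  have hγ : 0 < (2 * κ - 1) * rr i ^ 2 := mul_pos (by linarith) (by positivity)
  have hm1 : m - 1 - m = -1 := by ring
  have hm2 : m + 1 - m = 1 := by ring
  refine fct_gen (α := 1) (β := κ * rr i) (γ := (2 * κ - 1) * rr i ^ 2) (m := m) (by linarith)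
    (mem_Sr_Pt (by omega) (by omega) (by omega)) (mem_Sr_Pt (by omega) (by omega) (by omega))
    (mem_Sr_Pt h1 h2.le h) (dt_D i m) ?_ ?_ ?_ (Or.inr hγ)
    (Or.inr one_pos) ?_
  · apply Wf_eq; rw [hm2, Cm_one, rr_succ]
    linear_combination (- rr i ^ 2) * hκe
  · apply Wf_eq; rw [hm1, Cm_neg_one, rr_succ]
    linear_combination (- rr i ^ 2) * hκe
  · apply Wf_eq; rw [sub_self, Cm_zero]
    ring
  · intro i' m' g1 g2 g3
    have hρ' := rr_pos i'
    obtain ⟨u1, u3⟩ := D_real hk1 hk2 hρ hρ' (Cm_le_one (m' - m))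
    rcases lt_trichotomy i' i with hlt | heq | hgt
    · right
      have h5 : rr (i' + 1) ≤ rr i := rr_mono (by omega)
      rw [rr_succ] at h5
      have := u1 (by linarith)
      linarith
    · subst heq
      rcases Cm_even (d := m' - m) (by omega) with ⟨_, h5⟩ | h5
      · left; right; right
        exact Pt_period h5
      · right
        have h6 : κ * rr i' * rr i' * Cm (m' - m) ≤ κ * rr i' * rr i' * (1 / 2) :=
          mul_le_mul_of_nonneg_left h5 (by positivity)
        have h7 : 0 < κ * rr i' ^ 2 := by positivity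
        nlinarith
    · rcases eq_or_lt_of_le (Int.add_one_le_of_lt hgt) with e | e
      · subst e
        rcases Cm_odd (d := m' - m) (by omega) with ⟨_, h5 | h5⟩ | h5
        · left; left
          exact Pt_period (by obtain ⟨t, ht⟩ := h5; exact ⟨t, by linarith⟩)
        · left; right; left
          exact Pt_period (by obtain ⟨t, ht⟩ := h5; exact ⟨t, by linarith⟩)
        · right
          rw [rr_succ]
          have h6 : κ * rr i * (2 * rr i) * Cm (m' - m) ≤ 0 :=
            mul_nonpos_of_nonneg_of_nonpos (by positivity) h5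
          have h7 : 0 < (2 * κ + 3) * rr i ^ 2 := by positivity
          nlinarith
      · right
        have h5 : rr (i + 1 + 1) ≤ rr i' := rr_mono (by omega)
        rw [rr_succ, rr_succ] at h5
        have := u3 (by linarith)
        linarith

lemma fct_B {r m : ℤ} (h1 : 1 ≤ r) (h : m % 2 = 0) :
    Fct (Sr r) (Pt 1 (m + 1)) (Pt 1 (m - 1)) Os := by
  obtain ⟨s1, s2⟩ := sqrt3_num
  have s3 : Real.sqrt 3 ^ 2 = 3 := Real.sq_sqrt (by norm_num)
  obtain ⟨κ, hκ⟩ : ∃ κ, κ = 1 / Real.sqrt 3 := ⟨_, rfl⟩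
  have hpos : 0 < Real.sqrt 3 := by linarith
  have hκe : Real.sqrt 3 * κ = 1 := by rw [hκ, mul_div_cancel₀ _ hpos.ne']
  have hk1 : 0 < κ := by rw [hκ]; positivity
  have hk2 : κ < 1 := by rw [hκ, div_lt_iff₀ hpos]; linarith
  have hρ := rr_pos 1
  have hm1 : m - 1 - m = -1 := by ring
  have hm2 : m + 1 - m = 1 := by ring
  refine fct_gen (α := 1) (β := κ * rr 1) (γ := 0) (m := m) (by linarith)
    (mem_Sr_Pt (by omega) (by omega) (by omega)) (mem_Sr_Pt (by omega) (by omega) (by omega))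
    mem_Sr_Os (dt_B 1 m) ?_ ?_ ?_ (Or.inl rfl) (Or.inr one_pos) ?_
  · apply Wf_eq; rw [hm2, Cm_one]
    linear_combination (- rr 1 ^ 2) * hκe
  · apply Wf_eq; rw [hm1, Cm_neg_one]
    linear_combination (- rr 1 ^ 2) * hκe
  · rw [Wf_Os]; ring
  · intro i' m' g1 g2 g3
    have hρ' := rr_pos i'
    rcases eq_or_lt_of_le g1 with e | e
    · subst e
      rcases Cm_odd (d := m' - m) (by omega) with ⟨_, h5 | h5⟩ | h5
      · left; left
        exact Pt_period (by obtain ⟨t, ht⟩ := h5; exact ⟨t, by linarith⟩)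
      · left; right; left
        exact Pt_period (by obtain ⟨t, ht⟩ := h5; exact ⟨t, by linarith⟩)
      · right
        have h6 : κ * rr 1 * rr 1 * Cm (m' - m) ≤ 0 :=
          mul_nonpos_of_nonneg_of_nonpos (by positivity) h5
        have h7 : 0 < rr 1 ^ 2 := by positivity
        nlinarith
    · right
      have h5 : rr (1 + 1) ≤ rr i' := rr_mono (by omega)
      rw [rr_succ] at h5
      have h6 : κ * rr 1 * rr i' * Cm (m' - m) ≤ κ * rr 1 * rr i' * 1 :=
        mul_le_mul_of_nonneg_left (Cm_le_one _) (by positivity)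
      have h7 : 0 < rr i' * (rr i' - 2 * κ * rr 1) := by
        apply mul_pos hρ'
        have : 2 * κ * rr 1 < 2 * rr 1 := mul_lt_mul_of_pos_right (by linarith) hρ
        linarith
      nlinarith

lemma fct_N {r m : ℤ} (h1 : 1 ≤ r) (h : (m - r) % 2 = 1) :
    Fct (Sr r) (Pt r (m - 1)) (Pt r (m + 1)) Ns := by
  obtain ⟨s1, s2⟩ := sqrt3_num
  have s3 : Real.sqrt 3 ^ 2 = 3 := Real.sq_sqrt (by norm_num)
  have hρ := rr_pos r
  have hγ : 0 < Real.sqrt 3 / 2 * rr r ^ 2 := by positivity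
  have hm1 : m - 1 - m = -1 := by ring
  have hm2 : m + 1 - m = 1 := by ring
  refine fct_gen (α := 0) (β := 1 / 2 * rr r) (γ := Real.sqrt 3 / 2 * rr r ^ 2) (m := m) (by linarith)
    (mem_Sr_Pt (by omega) (by omega) (by omega)) (mem_Sr_Pt (by omega) (by omega) (by omega))
    mem_Sr_Ns (dt_N r m) ?_ ?_ ?_ (Or.inr hγ) (Or.inl rfl) ?_
  · apply Wf_eq; rw [hm1, Cm_neg_one]; ring
  · apply Wf_eq; rw [hm2, Cm_one]; ring
  · rw [Wf_Ns]; ring
  · intro i' m' g1 g2 g3
    have hρ' := rr_pos i'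
    rcases eq_or_lt_of_le g2 with e | e
    · subst e
      rcases Cm_odd (d := m' - m) (by omega) with ⟨_, h5 | h5⟩ | h5
      · left; right; left
        exact Pt_period (by obtain ⟨t, ht⟩ := h5; exact ⟨t, by linarith⟩)
      · left; left
        exact Pt_period (by obtain ⟨t, ht⟩ := h5; exact ⟨t, by linarith⟩)
      · right
        have h6 : rr i' * rr i' * Cm (m' - m) ≤ 0 :=
          mul_nonpos_of_nonneg_of_nonpos (by positivity) h5
        nlinarith
    · right
      have h5 : rr (i' + 1) ≤ rr r := rr_mono (by omega)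
      rw [rr_succ] at h5
      have h6 : rr r * rr i' * Cm (m' - m) ≤ rr r * rr i' * 1 :=
        mul_le_mul_of_nonneg_left (Cm_le_one _) (by positivity)
      have h7 : rr r * (2 * rr i') ≤ rr r * rr r := mul_le_mul_of_nonneg_left h5 hρ.le
      have h8 : 0 < (Real.sqrt 3 / 2 - 1 / 2) * rr r ^ 2 := mul_pos (by linarith) (by positivity)
      nlinarith

end Med
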