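import Pool.Agent.Helper946.X4

set_option autoImplicit false

namespace Med

lemma PP_mid {r i m : ℤ} (h1 : 1 ≤ i) (h2 : i ≤ r) : PP r i m = Pt i m := by
  unfold PP; rw [if_neg (by omega), if_neg (by omega)]
lemma PP_bot {r m : ℤ} : PP r 0 m = Os := by
  unfold PP; rw [if_pos (by omega)]
lemma PP_top {r m : ℤ} (h : 0 ≤ r) : PP r (r + 1) m = Ns := by
  unfold PP; rw [if_neg (by omega), if_pos (by omega)]

lemma PP_period {r i m m' : ℤ} (h : (12:ℤ) ∣ m - m') : PP r i m = PP r i m' := by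
  unfold PP; rw [Pt_period h]

lemma PP_level {r i m i' m' : ℤ} (h1 : 0 ≤ i) (h2 : i ≤ r + 1) (h1' : 0 ≤ i') (h2' : i' ≤ r + 1)
    (hr : 0 ≤ r) (h : PP r i m = PP r i' m') : i = i' := by
  unfold PP at h
  split_ifs at h with a1 a2 a3 a4 a5 a6 a7 a8
  · omega
  · exact absurd h Os_ne_Ns
  · exact absurd h.symm (Pt_ne_Os _ _)
  · exact absurd h.symm Os_ne_Ns
  · omega
  · exact absurd h.symm (Pt_ne_Ns _ _)
  · exact absurd h (Pt_ne_Os _ _)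
  · exact absurd h (Pt_ne_Ns _ _)
  · exact Pt_level h

def GFU (r : ℤ) (a b c : E) : Prop := ∃ i m : ℤ, 1 ≤ i ∧ i ≤ r ∧ (m - i) % 2 = 1 ∧
  a = PP r i (m - 1) ∧ b = PP r i (m + 1) ∧ c = PP r (i + 1) m
def GFD (r : ℤ) (a b c : E) : Prop := ∃ i m : ℤ, 0 ≤ i ∧ i < r ∧ (m - i) % 2 = 0 ∧
  a = PP r (i + 1) (m + 1) ∧ b = PP r (i + 1) (m - 1) ∧ c = PP r i m

def GG (r : ℤ) (a b c : E) : Prop :=
  (GFU r a b c ∨ GFU r b c a ∨ GFU r c a b) ∨ (GFD r a b c ∨ GFD r b c a ∨ GFD r c a b)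

lemma GFU_fct {r : ℤ} {a b c : E} (h : GFU r a b c) : Fct (Sr r) a b c := by
  obtain ⟨i, m, h1, h2, h3, rfl, rfl, rfl⟩ := h
  rw [PP_mid h1 h2, PP_mid h1 h2]
  rcases eq_or_lt_of_le h2 with e | e
  · subst e
    rw [PP_top (by omega)]
    exact fct_N h1 h3
  · rw [PP_mid (by omega) (by omega)]
    exact fct_U h1 e h3

lemma GFD_fct {r : ℤ} {a b c : E} (h : GFD r a b c) : Fct (Sr r) a b c := by
  obtain ⟨i, m, h1, h2, h3, rfl, rfl, rfl⟩ := h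
  rw [PP_mid (by omega) (by omega), PP_mid (by omega) (by omega)]
  rcases eq_or_lt_of_le h1 with e | e
  · subst e
    rw [PP_bot]
    have := fct_B (r := r) (m := m) (by omega) (by omega)
    exact this
  · rw [PP_mid (by omega) (by omega)]
    exact fct_D (by omega) h2 h3

lemma GG_fct {r : ℤ} (a b c : E) (h : GG r a b c) : Fct (Sr r) a b c := by
  rcases h with (h | h | h) | (h | h | h)
  · exact GFU_fct h
  · exact (GFU_fct h).rot.rot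
  · exact (GFU_fct h).rot
  · exact GFD_fct h
  · exact (GFD_fct h).rot.rot
  · exact (GFD_fct h).rot

lemma GG_rot {r : ℤ} (a b c : E) (h : GG r a b c) : GG r b c a := by
  rcases h with (h | h | h) | (h | h | h)
  · exact Or.inl (Or.inr (Or.inr h))
  · exact Or.inl (Or.inl h)
  · exact Or.inl (Or.inr (Or.inl h))
  · exact Or.inr (Or.inr (Or.inr h))
  · exact Or.inr (Or.inl h)
  · exact Or.inr (Or.inr (Or.inl h))

lemma adj1 {r i m : ℤ} (h1 : 1 ≤ i) (h2 : i ≤ r) (h : (m - i) % 2 = 0) :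
    ∃ z, GG r (PP r i m) (PP r i (m + 2)) z :=
  ⟨_, Or.inl (Or.inl ⟨i, m + 1, h1, h2, by omega, by congr 1; ring, by congr 1; ring, rfl⟩)⟩

lemma adj1' {r i m : ℤ} (h1 : 1 ≤ i) (h2 : i ≤ r) (h : (m - i) % 2 = 0) :
    ∃ z, GG r (PP r i m) (PP r i (m - 2)) z :=
  ⟨_, Or.inr (Or.inl ⟨i - 1, m - 1, by omega, by omega, by omega, by congr 1 <;> ring,
    by congr 1 <;> ring, rfl⟩)⟩

lemma adj2 {r i m : ℤ} (h1 : 0 ≤ i) (h2 : i ≤ r) (hr : 1 ≤ r) (h : (m - i) % 2 = 0) :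
    ∃ z, GG r (PP r i m) (PP r (i + 1) (m + 1)) z := by
  rcases eq_or_lt_of_le h2 with e | e
  · subst e
    refine ⟨_, Or.inl (Or.inr (Or.inr ⟨i, m - 1, hr, le_rfl, by omega, rfl, ?_, ?_⟩))⟩
    · congr 1; ring
    · rw [PP_top h1, PP_top h1]
  · exact ⟨_, Or.inr (Or.inr (Or.inl ⟨i, m, h1, e, h, rfl, rfl, rfl⟩))⟩

lemma adj3 {r i m : ℤ} (h1 : 0 ≤ i) (h2 : i ≤ r) (hr : 1 ≤ r) (h : (m - i) % 2 = 0) :
    ∃ z, GG r (PP r i m) (PP r (i + 1) (m - 1)) z := by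
  rcases eq_or_lt_of_le h1 with e | e
  · subst e
    refine ⟨_, Or.inr (Or.inr (Or.inl ⟨0, m - 2, le_rfl, by omega, by omega, ?_, rfl, ?_⟩))⟩
    · congr 1; ring
    · rw [PP_bot, PP_bot]
  · refine ⟨_, Or.inl (Or.inr (Or.inr ⟨i, m - 1, by omega, h2, by omega, rfl, ?_, rfl⟩))⟩
    congr 1; ring

lemma adj2' {r i m : ℤ} (h1 : 0 ≤ i) (h2 : i ≤ r) (hr : 1 ≤ r) (h : (m - i) % 2 = 0) :
    ∃ z, GG r (PP r (i + 1) (m + 1)) (PP r i m) z := by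
  rcases eq_or_lt_of_le h1 with e | e
  · subst e
    refine ⟨_, Or.inr (Or.inr (Or.inr ⟨0, m + 2, le_rfl, by omega, by omega, rfl, ?_, ?_⟩))⟩
    · congr 1; ring
    · rw [PP_bot, PP_bot]
  · refine ⟨_, Or.inl (Or.inr (Or.inl ⟨i, m + 1, by omega, h2, by omega, ?_, rfl, rfl⟩))⟩
    congr 1; ring

lemma adj3' {r i m : ℤ} (h1 : 0 ≤ i) (h2 : i ≤ r) (hr : 1 ≤ r) (h : (m - i) % 2 = 0) :
    ∃ z, GG r (PP r (i + 1) (m - 1)) (PP r i m) z := by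
  rcases eq_or_lt_of_le h2 with e | e
  · subst e
    refine ⟨_, Or.inl (Or.inr (Or.inl ⟨i, m + 1, hr, le_rfl, by omega, ?_, rfl, ?_⟩))⟩
    · congr 1; ring
    · rw [PP_top h1, PP_top h1]
  · exact ⟨_, Or.inr (Or.inr (Or.inr ⟨i, m, h1, e, h, rfl, rfl, rfl⟩))⟩

lemma GG_adj {r : ℤ} (hr : 1 ≤ r) (a b c : E) (h : GG r a b c) : ∃ z, GG r b a z := by
  rcases h with (h | h | h) | (h | h | h)
  · obtain ⟨i, m, h1, h2, h3, rfl, rfl, rfl⟩ := h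
    have := adj1' (m := m + 1) h1 h2 (by omega)
    rwa [show m + 1 - 2 = m - 1 by ring] at this
  · obtain ⟨i, m, h1, h2, h3, rfl, rfl, rfl⟩ := h
    have := adj2 (m := m - 1) (by omega) h2 hr (by omega)
    rwa [show m - 1 + 1 = m by ring] at this
  · obtain ⟨i, m, h1, h2, h3, rfl, rfl, rfl⟩ := h
    have := adj3' (m := m + 1) (by omega) h2 hr (by omega)
    rwa [show m + 1 - 1 = m by ring] at this
  · obtain ⟨i, m, h1, h2, h3, rfl, rfl, rfl⟩ := h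
    have := adj1 (r := r) (i := i + 1) (m := m - 1) (by omega) (by omega) (by omega)
    rwa [show m - 1 + 2 = m + 1 by ring] at this
  · obtain ⟨i, m, h1, h2, h3, rfl, rfl, rfl⟩ := h
    exact adj2' h1 h2.le hr h3
  · obtain ⟨i, m, h1, h2, h3, rfl, rfl, rfl⟩ := h
    exact adj3 h1 h2.le hr h3

lemma GG_ne {r : ℤ} (hr : 1 ≤ r) : ∃ a b c, GG r a b c := by
  obtain ⟨z, hz⟩ := adj1 (r := r) (i := 1) (m := 1) le_rfl hr (by norm_num)
  exact ⟨_, _, _, hz⟩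

lemma Sr_cfg {r : ℤ} (hr : 1 ≤ r) : Cfg (Sr r) :=
  G_cfg GG_fct GG_rot (GG_adj hr) (GG_ne hr) Sr_unit

lemma Sr_edg {r : ℤ} (hr : 1 ≤ r) {v w : E} (h : Edg (Sr r) v w) : ∃ c, GG r v w c :=
  G_edg GG_fct GG_rot (GG_adj hr) (GG_ne hr) h

lemma edg_of_GG {r : ℤ} {v w : E} (h : ∃ z, GG r v w z) : Edg (Sr r) v w := by
  obtain ⟨z, hz⟩ := h
  exact (GG_fct _ _ _ hz).edg

end Med
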