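import Pool.Agent.Helper946.X5

set_option autoImplicit false

namespace Med

lemma PP_inj {r i m m' : ℤ} (h1 : 1 ≤ i) (h2 : i ≤ r) (hm : (m - i) % 2 = 0)
    (hm' : (m' - i) % 2 = 0) (h : PP r i m = PP r i m') : (12:ℤ) ∣ m - m' := by
  rw [PP_mid h1 h2, PP_mid h1 h2] at h
  exact (Pt_inj hm hm' h).2

/-- generic lower bound via an injective finite set of offsets -/
lemma card_offsets {r i m : ℤ} (h1 : 1 ≤ i) (h2 : i ≤ r) (hm : (m - i) % 2 = 0)
    (D : Finset (ℤ × ℤ)) (hD1 : ∀ p ∈ D, (p.1 = -1 ∨ p.1 = 0 ∨ p.1 = 1) ∧ -2 ≤ p.2 ∧ p.2 ≤ 2 ∧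
      (p.2 - p.1) % 2 = 0)
    (hD2 : ∀ p ∈ D, ∀ q ∈ D, p.1 = q.1 → (i + p.1 ≤ 0 ∨ r < i + p.1) → p = q)
    (hE : ∀ p ∈ D, Edg (Sr r) (PP r i m) (PP r (i + p.1) (m + p.2))) :
    D.card ≤ dcard (Sr r) (PP r i m) := by
  classical
  have hc : (D.image (fun p : ℤ × ℤ => PP r (i + p.1) (m + p.2))).card = D.card := by
    apply Finset.card_image_of_injOn
    intro p hp q hq heq
    obtain ⟨a1, a2, a3, a4⟩ := hD1 p hp
    obtain ⟨b1, b2, b3, b4⟩ := hD1 q hq
    have hlev := PP_level (by omega) (by omega) (by omega) (by omega) (by omega) heq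
    have h11 : p.1 = q.1 := by omega
    by_cases hcase : i + p.1 ≤ 0 ∨ r < i + p.1
    · exact hD2 p hp q hq h11 hcase
    · push Not at hcase
      simp only at heq
      rw [← h11] at heq
      have := PP_inj (by omega) (by omega) (by omega) (by omega) heq
      exact Prod.ext h11 (by omega)
  rw [← hc]
  apply dcard_ge
  intro w hw
  rw [Finset.mem_image] at hw
  obtain ⟨p, hp, rfl⟩ := hw
  exact hE p hp

lemma edges_mid {r i m : ℤ} (hr : 1 ≤ r) (h1 : 1 ≤ i) (h2 : i ≤ r) (hm : (m - i) % 2 = 0) :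
    Edg (Sr r) (PP r i m) (PP r (i + 0) (m + 2)) ∧ Edg (Sr r) (PP r i m) (PP r (i + 0) (m + -2)) ∧
    Edg (Sr r) (PP r i m) (PP r (i + 1) (m + 1)) ∧ Edg (Sr r) (PP r i m) (PP r (i + 1) (m + -1)) ∧
    Edg (Sr r) (PP r i m) (PP r (i + -1) (m + 1)) ∧
    Edg (Sr r) (PP r i m) (PP r (i + -1) (m + -1)) := by
  refine ⟨?_, ?_, ?_, ?_, ?_, ?_⟩
  · rw [add_zero]; exact edg_of_GG (adj1 h1 h2 hm)
  · rw [add_zero, ← sub_eq_add_neg]; exact edg_of_GG (adj1' h1 h2 hm)
  · exact edg_of_GG (adj2 (by omega) h2 hr hm)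
  · rw [← sub_eq_add_neg]; exact edg_of_GG (adj3 (by omega) h2 hr hm)
  · have := adj3' (r := r) (i := i - 1) (m := m + 1) (by omega) (by omega) hr (by omega)
    rw [show i - 1 + 1 = i by ring, show m + 1 - 1 = m by ring, sub_eq_add_neg] at this
    exact edg_of_GG this
  · have := adj2' (r := r) (i := i - 1) (m := m - 1) (by omega) (by omega) hr (by omega)
    rw [show i - 1 + 1 = i by ring, show m - 1 + 1 = m by ring, sub_eq_add_neg,
      sub_eq_add_neg] at this
    exact edg_of_GG this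

lemma lower_mid {r i m : ℤ} (hr : 2 ≤ r) (h1 : 1 ≤ i) (h2 : i ≤ r) (hm : (m - i) % 2 = 0) :
    5 ≤ dcard (Sr r) (PP r i m) := by
  classical
  obtain ⟨e1, e2, e3, e4, e5, e6⟩ := edges_mid (by omega) h1 h2 hm
  rcases eq_or_lt_of_le h2 with e | e
  · have h := card_offsets h1 h2 hm ({(0, 2), (0, -2), (1, 1), (-1, 1), (-1, -1)} : Finset (ℤ × ℤ))
      (by
        intro p hp
        simp only [Finset.mem_insert, Finset.mem_singleton] at hp
        rcases hp with rfl | rfl | rfl | rfl | rfl <;> norm_num)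
      (by
        intro p hp q hq hpq hc
        simp only [Finset.mem_insert, Finset.mem_singleton] at hp hq
        rcases hp with rfl | rfl | rfl | rfl | rfl <;> rcases hq with rfl | rfl | rfl | rfl | rfl <;>
          simp only at hpq hc <;> first | rfl | (exfalso; omega))
      (by
        intro p hp
        simp only [Finset.mem_insert, Finset.mem_singleton] at hp
        rcases hp with rfl | rfl | rfl | rfl | rfl
        · exact e1
        · exact e2
        · exact e3
        · exact e5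
        · exact e6)
    have hc : ({(0, 2), (0, -2), (1, 1), (-1, 1), (-1, -1)} : Finset (ℤ × ℤ)).card = 5 := by decide
    rw [hc] at h; exact h
  · have h := card_offsets h1 h2 hm ({(0, 2), (0, -2), (1, 1), (1, -1), (-1, 1)} : Finset (ℤ × ℤ))
      (by
        intro p hp
        simp only [Finset.mem_insert, Finset.mem_singleton] at hp
        rcases hp with rfl | rfl | rfl | rfl | rfl <;> norm_num)
      (by
        intro p hp q hq hpq hc
        simp only [Finset.mem_insert, Finset.mem_singleton] at hp hq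
        rcases hp with rfl | rfl | rfl | rfl | rfl <;> rcases hq with rfl | rfl | rfl | rfl | rfl <;>
          simp only at hpq hc <;> first | rfl | (exfalso; omega))
      (by
        intro p hp
        simp only [Finset.mem_insert, Finset.mem_singleton] at hp
        rcases hp with rfl | rfl | rfl | rfl | rfl
        · exact e1
        · exact e2
        · exact e3
        · exact e4
        · exact e5)
    have hc : ({(0, 2), (0, -2), (1, 1), (1, -1), (-1, 1)} : Finset (ℤ × ℤ)).card = 5 := by decide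
    rw [hc] at h; exact h

lemma lower_pole {r i : ℤ} (hr : 1 ≤ r) {v : E} (h1 : 1 ≤ i) (h2 : i ≤ r)
    (hE : ∀ m : ℤ, (m - i) % 2 = 0 → Edg (Sr r) v (Pt i m)) : 5 ≤ dcard (Sr r) v := by
  classical
  have hc : ((Finset.range 6).image (fun j : ℕ => Pt i (i + 2 * j))).card = 6 := by
    rw [Finset.card_image_of_injOn, Finset.card_range]
    intro j hj k hk hjk
    simp only [Finset.coe_range, Set.mem_Iio] at hj hk
    have := (Pt_inj (by omega) (by omega) hjk).2
    omega
  have : 6 ≤ dcard (Sr r) v := by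
    rw [← hc]
    apply dcard_ge
    intro w hw
    rw [Finset.mem_image] at hw
    obtain ⟨j, _, rfl⟩ := hw
    exact hE _ (by omega)
  omega

lemma upper_pole {r i : ℤ} {v : E} (hE : ∀ w, Edg (Sr r) v w → ∃ m : ℤ, (m - i) % 2 = 0 ∧ w = Pt i m) :
    dcard (Sr r) v ≤ 6 := by
  classical
  have hc : ((Finset.range 6).image (fun j : ℕ => Pt i (i + 2 * j))).card ≤ 6 := by
    refine Finset.card_image_le.trans ?_
    rw [Finset.card_range]
  refine (dcard_le (A := (Finset.range 6).image (fun j : ℕ => Pt i (i + 2 * j))) ?_).trans hc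
  intro w hw
  obtain ⟨m, hm, rfl⟩ := hE w hw
  rw [Finset.mem_image]
  refine ⟨(((m - i) / 2) % 6).toNat, ?_, ?_⟩
  · rw [Finset.mem_range]; omega
  · apply Pt_period
    rw [Int.toNat_of_nonneg (by omega)]
    omega

lemma upper_mid {r i m : ℤ} (hr : 1 ≤ r) (h1 : 1 ≤ i) (h2 : i ≤ r) (hm : (m - i) % 2 = 0) :
    dcard (Sr r) (PP r i m) ≤ 6 := by
  classical
  set A : Finset E := {PP r i (m + 2), PP r i (m - 2), PP r (i + 1) (m + 1), PP r (i + 1) (m - 1),
    PP r (i - 1) (m + 1), PP r (i - 1) (m - 1)} with hA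
  have hc : A.card ≤ 6 := Finset.card_le_six
  refine (dcard_le (A := A) ?_).trans hc
  intro w hw
  obtain ⟨c, hg⟩ := Sr_edg hr hw
  have key : ∀ i' m' : ℤ, 0 ≤ i' → i' ≤ r + 1 → (m' - i') % 2 = 0 → PP r i m = PP r i' m' →
      i' = i ∧ (12:ℤ) ∣ m' - m := by
    intro i' m' g1 g2 g3 g4
    have e := PP_level (by omega) (by omega) g1 g2 (by omega) g4
    subst e
    exact ⟨rfl, PP_inj h1 h2 g3 hm g4.symm⟩
  simp only [hA, Finset.mem_insert, Finset.mem_singleton]
  rcases hg with (h | h | h) | (h | h | h)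
  · obtain ⟨i', m', g1, g2, g3, g4, g5, -⟩ := h
    obtain ⟨rfl, hd⟩ := key _ _ (by omega) (by omega) (by omega) g4
    left; rw [g5]; apply PP_period
    obtain ⟨t, ht⟩ := hd; exact ⟨t, by linarith⟩
  · obtain ⟨i', m', g1, g2, g3, g4, g5, g6⟩ := h
    obtain ⟨e, hd⟩ := key _ _ (by omega) (by omega) (by omega) g6
    subst e
    right; right; right; right; right
    rw [g4, show i' + 1 - 1 = i' by ring]; apply PP_period
    obtain ⟨t, ht⟩ := hd; exact ⟨t, by linarith⟩
  · obtain ⟨i', m', g1, g2, g3, g4, g5, g6⟩ := h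
    obtain ⟨rfl, hd⟩ := key _ _ (by omega) (by omega) (by omega) g5
    right; right; right; left
    rw [g6]; apply PP_period
    obtain ⟨t, ht⟩ := hd; exact ⟨t, by linarith⟩
  · obtain ⟨i', m', g1, g2, g3, g4, g5, g6⟩ := h
    obtain ⟨e, hd⟩ := key _ _ (by omega) (by omega) (by omega) g4
    subst e
    right; left
    rw [g5]; apply PP_period
    obtain ⟨t, ht⟩ := hd; exact ⟨t, by linarith⟩
  · obtain ⟨i', m', g1, g2, g3, g4, g5, g6⟩ := h
    obtain ⟨rfl, hd⟩ := key _ _ (by omega) (by omega) (by omega) g6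
    right; right; left
    rw [g4]; apply PP_period
    obtain ⟨t, ht⟩ := hd; exact ⟨t, by linarith⟩
  · obtain ⟨i', m', g1, g2, g3, g4, g5, g6⟩ := h
    obtain ⟨e, hd⟩ := key _ _ (by omega) (by omega) (by omega) g5
    subst e
    right; right; right; right; left
    rw [g6, show i' + 1 - 1 = i' by ring]; apply PP_period
    obtain ⟨t, ht⟩ := hd; exact ⟨t, by linarith⟩

lemma PP_eq_Os {r i m : ℤ} (h0 : 0 ≤ i) (h2 : i ≤ r + 1) (hr : 0 ≤ r) (h : Os = PP r i m) : i = 0 := by
  have h' : PP r 0 0 = PP r i m := by rw [PP_bot]; exact h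
  exact (PP_level le_rfl (by omega) h0 h2 hr h').symm

lemma PP_eq_Ns {r i m : ℤ} (h0 : 0 ≤ i) (h2 : i ≤ r + 1) (hr : 0 ≤ r) (h : Ns = PP r i m) :
    i = r + 1 := by
  have h' : PP r (r + 1) 0 = PP r i m := by rw [PP_top hr]; exact h
  exact (PP_level (by omega) (by omega) h0 h2 hr h').symm

lemma nb_Os {r : ℤ} (hr : 1 ≤ r) {w : E} (h : Edg (Sr r) Os w) :
    ∃ m : ℤ, (m - 1) % 2 = 0 ∧ w = Pt 1 m := by
  obtain ⟨c, hg⟩ := Sr_edg hr h
  rcases hg with (h | h | h) | (h | h | h)
  · obtain ⟨i', m', g1, g2, g3, g4, g5, g6⟩ := h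
    have := PP_eq_Os (by omega) (by omega) (by omega) g4
    omega
  · obtain ⟨i', m', g1, g2, g3, g4, g5, g6⟩ := h
    have := PP_eq_Os (by omega) (by omega) (by omega) g6
    omega
  · obtain ⟨i', m', g1, g2, g3, g4, g5, g6⟩ := h
    have := PP_eq_Os (by omega) (by omega) (by omega) g5
    omega
  · obtain ⟨i', m', g1, g2, g3, g4, g5, g6⟩ := h
    have := PP_eq_Os (by omega) (by omega) (by omega) g4
    omega
  · obtain ⟨i', m', g1, g2, g3, g4, g5, g6⟩ := h
    have e := PP_eq_Os (by omega) (by omega) (by omega) g6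
    subst e
    refine ⟨m' + 1, by omega, ?_⟩
    rw [g4]
    exact PP_mid (by omega) (by omega)
  · obtain ⟨i', m', g1, g2, g3, g4, g5, g6⟩ := h
    have := PP_eq_Os (by omega) (by omega) (by omega) g5
    omega

lemma nb_Ns {r : ℤ} (hr : 1 ≤ r) {w : E} (h : Edg (Sr r) Ns w) :
    ∃ m : ℤ, (m - r) % 2 = 0 ∧ w = Pt r m := by
  obtain ⟨c, hg⟩ := Sr_edg hr h
  rcases hg with (h | h | h) | (h | h | h)
  · obtain ⟨i', m', g1, g2, g3, g4, g5, g6⟩ := h
    have := PP_eq_Ns (by omega) (by omega) (by omega) g4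
    omega
  · obtain ⟨i', m', g1, g2, g3, g4, g5, g6⟩ := h
    have e := PP_eq_Ns (by omega) (by omega) (by omega) g6
    have e' : i' = r := by omega
    subst e'
    refine ⟨m' - 1, by omega, ?_⟩
    rw [g4]
    exact PP_mid (by omega) (by omega)
  · obtain ⟨i', m', g1, g2, g3, g4, g5, g6⟩ := h
    have := PP_eq_Ns (by omega) (by omega) (by omega) g5
    omega
  · obtain ⟨i', m', g1, g2, g3, g4, g5, g6⟩ := h
    have := PP_eq_Ns (by omega) (by omega) (by omega) g4
    omega
  · obtain ⟨i', m', g1, g2, g3, g4, g5, g6⟩ := h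
    have := PP_eq_Ns (by omega) (by omega) (by omega) g6
    omega
  · obtain ⟨i', m', g1, g2, g3, g4, g5, g6⟩ := h
    have := PP_eq_Ns (by omega) (by omega) (by omega) g5
    omega

theorem Sr_dcard {r : ℤ} (hr : 2 ≤ r) : ∀ v ∈ Sr r, 5 ≤ dcard (Sr r) v ∧ dcard (Sr r) v ≤ 6 := by
  intro v hv
  rw [mem_Sr] at hv
  rcases hv with rfl | rfl | ⟨i, m, h1, h2, h3, rfl⟩
  · refine ⟨lower_pole (i := 1) (by omega) le_rfl (by omega) ?_,
      upper_pole (i := 1) (fun w hw => nb_Os (by omega) hw)⟩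
    intro m hm
    have := adj2 (r := r) (i := 0) (m := m - 1) le_rfl (by omega) (by omega) (by omega)
    rw [PP_bot, show m - 1 + 1 = m by ring, show (0:ℤ) + 1 = 1 by ring,
      PP_mid le_rfl (by omega)] at this
    exact edg_of_GG this
  · refine ⟨lower_pole (i := r) (by omega) (by omega) le_rfl ?_,
      upper_pole (i := r) (fun w hw => nb_Ns (by omega) hw)⟩
    intro m hm
    have := adj2' (r := r) (i := r) (m := m) (by omega) le_rfl (by omega) hm
    rw [PP_top (by omega), PP_mid (by omega) le_rfl] at this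
    exact edg_of_GG this
  · rw [← PP_mid h1 h2]
    exact ⟨lower_mid hr h1 h2 h3, upper_mid (by omega) h1 h2 h3⟩

end Med
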