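import Pool.Agent.Helper946.M34
import Pool.Agent.Helper946.X6

set_option autoImplicit false

namespace Med

open MeasureTheory

lemma cfg_of_max {n : ℕ} {S : Finset E} (hmax : MaxS S n) (hn : 2000 ≤ n)
    (hD : 4 * Real.pi / 3 - Vol S ≤ 100 / n)
    (hsimp : ∀ (a : E) (c : ℝ) (T : Finset E), a ≠ 0 → T ⊆ S → (∀ x ∈ S, inner ℝ a x ≤ c) →
      (∀ x ∈ T, inner ℝ a x = c) → T.card ≤ 3) : Cfg S := by
  refine ⟨hmax.unit, ?_, hsimp⟩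
  intro y hy
  by_contra hcon
  push Not at hcon
  have hu := norm_normalize hy
  have hyn : 0 < ‖y‖ := norm_pos_iff.2 hy
  have hfar : ∀ x ∈ S, (1:ℝ) ≤ ‖x - ‖y‖⁻¹ • y‖ := by
    intro x hx
    have h1 := dist_sq_unit (hmax.unit x hx) hu
    have h2 : inner ℝ x (‖y‖⁻¹ • y) ≤ 0 := by
      rw [real_inner_smul_right, real_inner_comm]
      exact mul_nonpos_of_nonneg_of_nonpos (by positivity) (hcon x hx)
    have h3 := norm_nonneg (x - ‖y‖⁻¹ • y)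
    nlinarith
  have h := coarse hmax.unit one_pos le_rfl hu hfar
  have hnr : (2000:ℝ) ≤ n := by exact_mod_cast hn
  have h4 : 100 / (n:ℝ) ≤ 1 / 20 := by
    rw [div_le_div_iff₀ (by linarith) (by norm_num)]; linarith
  have pi1 := Real.pi_gt_three
  norm_num at h
  linarith

lemma floor_ceil {n : ℕ} (hn : 13 ≤ n) : ⌊(6:ℝ) - 12 / (n:ℝ)⌋ = 5 ∧ ⌈(6:ℝ) - 12 / (n:ℝ)⌉ = 6 := by
  have hnr : (13:ℝ) ≤ n := by exact_mod_cast hn
  have h0 : 0 < 12 / (n:ℝ) := by positivity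
  have h1 : 12 / (n:ℝ) < 1 := by rw [div_lt_one (by linarith)]; linarith
  constructor
  · rw [Int.floor_eq_iff]; push_cast; constructor <;> linarith
  · rw [Int.ceil_eq_iff]; push_cast; constructor <;> linarith

theorem final :
    ¬ (∀ n : ℕ, 4 ≤ n →
      (∃ S : Finset (EuclideanSpace ℝ (Fin 3)), S.card = n ∧ (∀ x ∈ S, ‖x‖ = 1) ∧
        (∀ (a : EuclideanSpace ℝ (Fin 3)) (c : ℝ) (T : Finset (EuclideanSpace ℝ (Fin 3))),
          a ≠ 0 → T ⊆ S → (∀ x ∈ S, inner ℝ a x ≤ c) → (∀ x ∈ T, inner ℝ a x = c) → T.card ≤ 3) ∧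
        (∀ v ∈ S,
          ⌊(6 : ℝ) - 12 / (n : ℝ)⌋ ≤
            ((Set.ncard {w : EuclideanSpace ℝ (Fin 3) | w ∈ S ∧ w ≠ v ∧
              ∃ (a : EuclideanSpace ℝ (Fin 3)) (c : ℝ), (∀ x ∈ S, inner ℝ a x ≤ c) ∧
                ∀ x ∈ S, (inner ℝ a x = c ↔ (x = v ∨ x = w))} : ℕ) : ℤ) ∧
          ((Set.ncard {w : EuclideanSpace ℝ (Fin 3) | w ∈ S ∧ w ≠ v ∧
              ∃ (a : EuclideanSpace ℝ (Fin 3)) (c : ℝ), (∀ x ∈ S, inner ℝ a x ≤ c) ∧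
                ∀ x ∈ S, (inner ℝ a x = c ↔ (x = v ∨ x = w))} : ℕ) : ℤ) ≤
            ⌈(6 : ℝ) - 12 / (n : ℝ)⌉)) →
      ∃ S : Finset (EuclideanSpace ℝ (Fin 3)), S.card = n ∧ (∀ x ∈ S, ‖x‖ = 1) ∧
        (∀ (a : EuclideanSpace ℝ (Fin 3)) (c : ℝ) (T : Finset (EuclideanSpace ℝ (Fin 3))),
          a ≠ 0 → T ⊆ S → (∀ x ∈ S, inner ℝ a x ≤ c) → (∀ x ∈ T, inner ℝ a x = c) → T.card ≤ 3) ∧
        (∀ v ∈ S,
          ⌊(6 : ℝ) - 12 / (n : ℝ)⌋ ≤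
            ((Set.ncard {w : EuclideanSpace ℝ (Fin 3) | w ∈ S ∧ w ≠ v ∧
              ∃ (a : EuclideanSpace ℝ (Fin 3)) (c : ℝ), (∀ x ∈ S, inner ℝ a x ≤ c) ∧
                ∀ x ∈ S, (inner ℝ a x = c ↔ (x = v ∨ x = w))} : ℕ) : ℤ) ∧
          ((Set.ncard {w : EuclideanSpace ℝ (Fin 3) | w ∈ S ∧ w ≠ v ∧
              ∃ (a : EuclideanSpace ℝ (Fin 3)) (c : ℝ), (∀ x ∈ S, inner ℝ a x ≤ c) ∧
                ∀ x ∈ S, (inner ℝ a x = c ↔ (x = v ∨ x = w))} : ℕ) : ℤ) ≤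
            ⌈(6 : ℝ) - 12 / (n : ℝ)⌉) ∧
        ∀ T : Finset (EuclideanSpace ℝ (Fin 3)), T.card = n → (∀ x ∈ T, ‖x‖ = 1) →
          MeasureTheory.volume (convexHull ℝ (T : Set (EuclideanSpace ℝ (Fin 3)))) ≤
            MeasureTheory.volume (convexHull ℝ (S : Set (EuclideanSpace ℝ (Fin 3))))) := by
  intro H
  obtain ⟨n0, hmain⟩ := main_thm UB_holds
  obtain ⟨n1, hUB⟩ := UB_holds 1 one_pos
  obtain ⟨r, hr⟩ : ∃ r : ℕ, r = max (max n0 n1) 2000 := ⟨_, rfl⟩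
  have hr0 : n0 ≤ r := by rw [hr]; exact (le_max_left _ _).trans (le_max_left _ _)
  have hr1 : n1 ≤ r := by rw [hr]; exact (le_max_right _ _).trans (le_max_left _ _)
  have hr2 : 2000 ≤ r := by rw [hr]; exact le_max_right _ _
  obtain ⟨n, hn⟩ : ∃ n, n = 6 * r + 2 := ⟨_, rfl⟩
  obtain ⟨hfl, hce⟩ := floor_ceil (n := n) (by omega)
  have hr2' : (2:ℤ) ≤ r := by omega
  obtain ⟨S, hS1, hS2, hS3, hS4, hS5⟩ := H n (by omega) (by
    refine ⟨Sr r, by rw [Sr_card, hn], Sr_unit, (Sr_cfg (by omega)).simp, fun v hv => ?_⟩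
    rw [hfl, hce, valence_eq (Sr_cfg (by omega)) hv]
    obtain ⟨h1, h2⟩ := Sr_dcard hr2' v hv
    exact ⟨by exact_mod_cast h1, by exact_mod_cast h2⟩)
  have hmax : MaxS S n := by
    refine ⟨hS1, hS2, fun T hT1 hT2 => ?_⟩
    exact ENNReal.toReal_mono (vol_hull_lt_top S).ne (hS5 T hT1 hT2)
  have hnpos : (0:ℝ) < n := by
    have : 0 < n := by omega
    exact_mod_cast this
  have hD : 4 * Real.pi / 3 - Vol S ≤ 100 / n := by
    obtain ⟨X, hX1, hX2, hX3⟩ := hUB n (by omega)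
    have h1 := hmax.max' hX1 hX2
    have h2 := div_le_div_of_nonneg_right (const_bd (e := 1) le_rfl) hnpos.le
    linarith
  have hcfg := cfg_of_max hmax (by omega) hD hS3
  refine hmain n (by omega) S hmax hcfg ?_
  intro v hv
  obtain ⟨h1, h2⟩ := hS4 v hv
  rw [hfl, valence_eq hcfg hv] at h1
  rw [hce, valence_eq hcfg hv] at h2
  exact ⟨by exact_mod_cast h1, by exact_mod_cast h2⟩

end Med
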